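import Pool.Agent.NPG.Ker

/-!
# NPG / Clk : the local clock

Adaptation of `NP2/Clk`.  `mT, mS` are the real valued move indicators of the `T`- and
`S`-objects.  The clock `D k b u` (of `T`-objects) is defined downwards in the level `k`; the clock
of an `S`-object `v` at the block `(k,b)` is `DS M D k b v = D k b ((M.th (b 2^k))⁻¹ * v)`.

Plan:
* `clock_exists`, `cc_nonneg`, `cc_le_one`, `clk_step_le`, `clk_nonneg`, `clk_mono` : as in NP2.
* `aT_anc` : let `l_w = b / 2^(w-k) * 2^w`, `b 2^k = l_w + j`, `j < 2^w`.  By `aT_add`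
  `M.aT (b 2^k) d = (M.s^j) (M.th j * M.aT l_w d * (M.th j)⁻¹)`, hence
  `nu w (M.aT l_w d) ≤ C^2 * nu w (M.aT (b 2^k) d) ≤ C^2 * nu k (M.aT (b 2^k) d) / 2^(w-k)`
  (`s_inv_le`, `conj_inv_le`, `nu_add`).
* `clk_mismatch` : `|D k b (d*u) - D k b u| ≤ D0 ∑_{w ≥ k} (exp (x_w) - 1)`, `x_w = nu (w + s0)
  (aT l_w d) ≤ 2^(-s0) C^2 r 2^(-(w-k))`, `r = 100 C^2`, `exp x - 1 ≤ 2 x`, `s0_le`
  (the total is at most `4 D0 C^2 r / (10^6 C^4 D0) ≤ 1/4`).
* `clk_tied` : with `l = c/2^k*2^k`, `c = l + m`: `(M.th l)⁻¹ * (h * (M.th c * u)) = d * u` with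
  `M.aT l d = (M.s^l) h * M.th m` (`th_add`), `nu k ≤ r + C`.
* `sh_anc` : a shift `h`: `nu w ((M.s^l_w) h) ≤ C * nu k ((M.s^l_k) h)` (`s_inv_le`, `nu_add`).
* `clk_busy` : `av_harnack`, `av_mass`, `D0 = 40 Zc`.
-/

namespace NPG
open Finset

noncomputable section

variable {A : Type} [Group A] [Fintype A]

/-- recent moves of a `T`-object -/
def rT (K : ℕ) (mT D : ℕ → ℕ → A → ℝ) (k b : ℕ) (u : A) : ℝ :=
  mT k b u + ∑ w ∈ Icc (k + 1) K,
    if D (k + 1) (b / 2) u - D w (b / 2 ^ (w - k)) u ≤ 4 then mT w (b / 2 ^ (w - k)) u else 0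

/-- the clock of an `S`-object -/
def DS (M : Mod A) (D : ℕ → ℕ → A → ℝ) (k b : ℕ) (v : A) : ℝ :=
  D k b ((M.th (b * 2 ^ k))⁻¹ * v)

/-- recent moves of an `S`-object -/
def rS (M : Mod A) (K : ℕ) (mS D : ℕ → ℕ → A → ℝ) (k b : ℕ) (v : A) : ℝ :=
  mS k b v + ∑ w ∈ Icc (k + 1) K,
    if DS M D (k + 1) (b / 2) v - DS M D w (b / 2 ^ (w - k)) v ≤ 4 then
      mS w (b / 2 ^ (w - k)) v else 0

/-- recent moves of `u` and of the objects tied to `u` in the block -/
def bb (M : Mod A) (K : ℕ) (mT mS D : ℕ → ℕ → A → ℝ) (k b : ℕ) (u : A) : ℝ :=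
  rT K mT D k b u + (∑ c ∈ range (2 ^ k), rS M K mS D k b (M.th (b * 2 ^ k + c) * u)) / 2 ^ k

/-- local density of recent moves -/
def LL (M : Mod A) (nu : ℕ → A → ℝ) (C K : ℕ) (mT mS D : ℕ → ℕ → A → ℝ) (k b : ℕ) (u : A) : ℝ :=
  av M nu C k (b * 2 ^ k) (bb M K mT mS D k b) u

/-- busy function -/
def cc (M : Mod A) (nu : ℕ → A → ℝ) (C K : ℕ) (κ : ℝ) (mT mS D : ℕ → ℕ → A → ℝ) (k b : ℕ)
    (u : A) : ℝ :=
  min 1 (max 0 (LL M nu C K mT mS D k b u / κ - 1))

/-- the clock equation -/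
structure IsClock (M : Mod A) (nu : ℕ → A → ℝ) (C K : ℕ) (κ : ℝ) (mT mS D : ℕ → ℕ → A → ℝ) :
    Prop where
  top : ∀ b u, D (K + 1) b u = 0
  step : ∀ k ≤ K, ∀ b u, D k b u =
    D (k + 1) (b / 2) u + D0 C * av M nu C k (b * 2 ^ k) (cc M nu C K κ mT mS D k b) u

variable {M : Mod A} {nu : ℕ → A → ℝ} {C K : ℕ} {κ : ℝ} {mT mS D : ℕ → ℕ → A → ℝ}

private theorem clk_rT_congr (K : ℕ) (mT D D' : ℕ → ℕ → A → ℝ) (k b : ℕ) (u : A)
    (h : ∀ w, k < w → D w = D' w) : rT K mT D k b u = rT K mT D' k b u := by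
  unfold rT
  congr 1
  refine Finset.sum_congr rfl fun w hw => ?_
  have hw' : k < w := by
    have := (Finset.mem_Icc.mp hw).1
    omega
  rw [h w hw', h (k + 1) (Nat.lt_succ_self k)]

private theorem clk_DS_congr (M : Mod A) (D D' : ℕ → ℕ → A → ℝ) (k b : ℕ) (v : A)
    (h : D k = D' k) : DS M D k b v = DS M D' k b v := by
  unfold DS
  rw [h]

private theorem clk_rS_congr (M : Mod A) (K : ℕ) (mS D D' : ℕ → ℕ → A → ℝ) (k b : ℕ) (v : A)
    (h : ∀ w, k < w → D w = D' w) : rS M K mS D k b v = rS M K mS D' k b v := by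
  unfold rS
  congr 1
  refine Finset.sum_congr rfl fun w hw => ?_
  have hw' : k < w := by
    have := (Finset.mem_Icc.mp hw).1
    omega
  rw [clk_DS_congr M D D' w _ _ (h w hw'),
    clk_DS_congr M D D' (k + 1) _ _ (h (k + 1) (Nat.lt_succ_self k))]

private theorem clk_bb_congr (M : Mod A) (K : ℕ) (mT mS D D' : ℕ → ℕ → A → ℝ) (k b : ℕ)
    (h : ∀ w, k < w → D w = D' w) : bb M K mT mS D k b = bb M K mT mS D' k b := by
  funext u
  unfold bb
  rw [clk_rT_congr K mT D D' k b u h]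
  congr 2
  exact Finset.sum_congr rfl fun c _ => clk_rS_congr M K mS D D' k b _ h

private theorem clk_cc_congr (M : Mod A) (nu : ℕ → A → ℝ) (C K : ℕ) (κ : ℝ)
    (mT mS D D' : ℕ → ℕ → A → ℝ) (k b : ℕ)
    (h : ∀ w, k < w → D w = D' w) :
    cc M nu C K κ mT mS D k b = cc M nu C K κ mT mS D' k b := by
  funext u
  unfold cc LL
  rw [clk_bb_congr M K mT mS D D' k b h]

private theorem clk_exists_aux (M : Mod A) (nu : ℕ → A → ℝ) (C K : ℕ) (κ : ℝ)
    (mT mS : ℕ → ℕ → A → ℝ) (n : ℕ) :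
    ∃ D : ℕ → ℕ → A → ℝ, (∀ b u, D (K + 1) b u = 0) ∧
      ∀ k ≤ K, K < k + n → ∀ b u, D k b u =
        D (k + 1) (b / 2) u + D0 C * av M nu C k (b * 2 ^ k) (cc M nu C K κ mT mS D k b) u := by
  induction n with
  | zero =>
    refine ⟨fun _ _ _ => 0, fun _ _ => rfl, fun k hk hk' => ?_⟩
    omega
  | succ n ih =>
    obtain ⟨D, hD0, hD⟩ := ih
    by_cases hn : K < n
    · refine ⟨D, hD0, fun k hk _ => hD k hk (by omega)⟩
    · set k0 := K - n with hk0
      let D' : ℕ → ℕ → A → ℝ := Function.update D k0 (fun b u =>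
        D (k0 + 1) (b / 2) u +
          D0 C * av M nu C k0 (b * 2 ^ k0) (cc M nu C K κ mT mS D k0 b) u)
      have hne : ∀ w, w ≠ k0 → D' w = D w := fun w hw => Function.update_of_ne hw _ _
      have hcg : ∀ k, k0 ≤ k → ∀ b,
          cc M nu C K κ mT mS D' k b = cc M nu C K κ mT mS D k b := by
        intro k hk b
        exact clk_cc_congr M nu C K κ mT mS D' D k b fun w hw => hne w (by omega)
      refine ⟨D', ?_, ?_⟩
      · intro b u
        rw [hne (K + 1) (by omega)]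
        exact hD0 b u
      · intro k hk hk' b u
        by_cases hkk : k = k0
        · subst hkk
          rw [hcg _ le_rfl b, hne (k0 + 1) (by omega)]
          show Function.update D k0 _ k0 b u = _
          rw [Function.update_self]
        · rw [hcg k (by omega) b, hne (k + 1) (by omega), hne k hkk]
          exact hD k hk (by omega) b u

theorem clock_exists (M : Mod A) (nu : ℕ → A → ℝ) (C K : ℕ) (κ : ℝ)
    (mT mS : ℕ → ℕ → A → ℝ) : ∃ D, IsClock M nu C K κ mT mS D := by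
  obtain ⟨D, h0, h1⟩ := clk_exists_aux M nu C K κ mT mS (K + 1)
  exact ⟨D, ⟨h0, fun k hk b u => h1 k hk (by omega) b u⟩⟩

theorem cc_nonneg (k b : ℕ) (u : A) : 0 ≤ cc M nu C K κ mT mS D k b u :=
  le_min zero_le_one (le_max_left _ _)

theorem cc_le_one (k b : ℕ) (u : A) : cc M nu C K κ mT mS D k b u ≤ 1 :=
  min_le_left _ _

theorem rT_nonneg (hT : ∀ k b u, 0 ≤ mT k b u) (k b : ℕ) (u : A) : 0 ≤ rT K mT D k b u := by
  unfold rT
  refine add_nonneg (hT _ _ _) (Finset.sum_nonneg fun w _ => ?_)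
  split_ifs
  · exact hT _ _ _
  · exact le_rfl

theorem rS_nonneg (hS : ∀ k b u, 0 ≤ mS k b u) (k b : ℕ) (v : A) :
    0 ≤ rS M K mS D k b v := by
  unfold rS
  refine add_nonneg (hS _ _ _) (Finset.sum_nonneg fun w _ => ?_)
  split_ifs
  · exact hS _ _ _
  · exact le_rfl

theorem bb_nonneg (hT : ∀ k b u, 0 ≤ mT k b u) (hS : ∀ k b u, 0 ≤ mS k b u) (k b : ℕ) (u : A) :
    0 ≤ bb M K mT mS D k b u := by
  unfold bb
  exact add_nonneg (rT_nonneg hT _ _ _)
    (div_nonneg (Finset.sum_nonneg fun c _ => rS_nonneg hS _ _ _) (by positivity))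

theorem clk_step_le (h : IsClock M nu C K κ mT mS D) (k : ℕ) (hk : k ≤ K) (b : ℕ) (u : A) :
    D (k + 1) (b / 2) u ≤ D k b u ∧ D k b u ≤ D (k + 1) (b / 2) u + D0 C := by
  have h0 : 0 ≤ av M nu C k (b * 2 ^ k) (cc M nu C K κ mT mS D k b) u :=
    av_nonneg k _ _ (fun u => cc_nonneg k b u) u
  have h1 : av M nu C k (b * 2 ^ k) (cc M nu C K κ mT mS D k b) u ≤ 1 := by
    have := av_mono (M := M) (nu := nu) (C := C) k (b * 2 ^ k)
      (cc M nu C K κ mT mS D k b) (fun _ => 1) (fun u => cc_le_one k b u) u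
    rwa [av_const] at this
  have hD0 : (0 : ℝ) ≤ D0 C := Nat.cast_nonneg _
  rw [h.step k hk b u]
  constructor
  · linarith [mul_nonneg hD0 h0]
  · linarith [mul_le_mul_of_nonneg_left h1 hD0]

theorem clk_nonneg (h : IsClock M nu C K κ mT mS D) (k : ℕ) (hk : k ≤ K + 1) (b : ℕ) (u : A) :
    0 ≤ D k b u := by
  have key : ∀ n k b, k + n = K + 1 → 0 ≤ D k b u := by
    intro n
    induction n with
    | zero =>
      intro k b hk
      have : k = K + 1 := by omega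
      subst this
      exact (h.top b u).ge
    | succ n ih =>
      intro k b hk
      exact (ih (k + 1) (b / 2) (by omega)).trans (clk_step_le h k (by omega) b u).1
  exact key (K + 1 - k) k b (by omega)

/-- monotone along the path of `c` -/
theorem clk_mono (h : IsClock M nu C K κ mT mS D) (k w : ℕ) (hkw : k ≤ w) (hw : w ≤ K + 1)
    (c : ℕ) (u : A) : D w (c / 2 ^ w) u ≤ D k (c / 2 ^ k) u := by
  induction w, hkw using Nat.le_induction with
  | base => exact le_rfl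
  | succ w hkw ih =>
    refine le_trans ?_ (ih (by omega))
    have h1 := (clk_step_le h w (by omega) (c / 2 ^ w) u).1
    rwa [Nat.div_div_eq_div_mul, ← pow_succ] at h1

private theorem clk_s_inv (M : Mod A) (j : ℕ) (y : A) : (M.s ^ j)⁻¹ ((M.s ^ j) y) = y := by
  rw [← MulAut.mul_apply, inv_mul_cancel, MulAut.one_apply]

private theorem clk_s_inv' (M : Mod A) (j : ℕ) (y : A) : (M.s ^ j) ((M.s ^ j)⁻¹ y) = y := by
  rw [← MulAut.mul_apply, mul_inv_cancel, MulAut.one_apply]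

/-- lengths in the frame of an ancestor -/
theorem aT_anc (hg : Geo M nu C) (k w b : ℕ) (hkw : k ≤ w) (d : A) :
    nu w (M.aT (b / 2 ^ (w - k) * 2 ^ w) d) ≤
      (C : ℝ) ^ 2 * nu k (M.aT (b * 2 ^ k) d) / 2 ^ (w - k) := by
  obtain ⟨n, rfl⟩ := Nat.exists_eq_add_of_le hkw
  have hsub : k + n - k = n := by omega
  rw [hsub]
  set l := b / 2 ^ n * 2 ^ (k + n) with hl
  set j := b % 2 ^ n * 2 ^ k with hj
  have h1 : b * 2 ^ k = l + j := by
    have h3 := Nat.div_add_mod b (2 ^ n)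
    calc b * 2 ^ k = (2 ^ n * (b / 2 ^ n) + b % 2 ^ n) * 2 ^ k := by rw [h3]
      _ = l + j := by rw [hl, hj, pow_add]; ring
  have hjlt : j ≤ 2 ^ (k + n) := by
    rw [hj, pow_add, mul_comm (2 ^ k) (2 ^ n)]
    exact Nat.mul_le_mul_right _ (Nat.mod_lt _ (by positivity)).le
  have hC : (0 : ℝ) ≤ C := Nat.cast_nonneg _
  have e2 : M.aT (b * 2 ^ k) d = (M.s ^ j) (M.th j * M.aT l d * (M.th j)⁻¹) := by
    rw [h1, aT_add]
  have h4 : nu (k + n) (M.aT l d) ≤ C * nu (k + n) (M.th j * M.aT l d * (M.th j)⁻¹) := by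
    have := hg.conj_inv_le (k + n) j hjlt (M.th j * M.aT l d * (M.th j)⁻¹)
    have e : (M.th j)⁻¹ * (M.th j * M.aT l d * (M.th j)⁻¹) * M.th j = M.aT l d := by group
    rwa [e] at this
  have h5 : nu (k + n) (M.th j * M.aT l d * (M.th j)⁻¹) ≤
      C * nu (k + n) (M.aT (b * 2 ^ k) d) := by
    have := hg.s_inv_le (k + n) j hjlt ((M.s ^ j) (M.th j * M.aT l d * (M.th j)⁻¹))
    rwa [clk_s_inv, ← e2] at this
  have h6 := nu_add hg k n (M.aT (b * 2 ^ k) d)
  calc nu (k + n) (M.aT l d) ≤ C * (C * nu (k + n) (M.aT (b * 2 ^ k) d)) :=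
        h4.trans (mul_le_mul_of_nonneg_left h5 hC)
    _ ≤ C * (C * (nu k (M.aT (b * 2 ^ k) d) / 2 ^ n)) :=
        mul_le_mul_of_nonneg_left (mul_le_mul_of_nonneg_left h6 hC) hC
    _ = (C : ℝ) ^ 2 * nu k (M.aT (b * 2 ^ k) d) / 2 ^ n := by ring

/-- shifts of `S`-objects in the frame of an ancestor -/
theorem sh_anc (hg : Geo M nu C) (k w c : ℕ) (hkw : k ≤ w) (x : A) :
    nu w ((M.s ^ (c / 2 ^ w * 2 ^ w)) x) ≤ C * nu k ((M.s ^ (c / 2 ^ k * 2 ^ k)) x) := by
  obtain ⟨n, rfl⟩ := Nat.exists_eq_add_of_le hkw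
  set l := c / 2 ^ (k + n) * 2 ^ (k + n) with hl
  set l' := c / 2 ^ k * 2 ^ k with hl'
  have h1 : l + c % 2 ^ (k + n) = c := by
    rw [hl, Nat.mul_comm]
    exact Nat.div_add_mod c (2 ^ (k + n))
  have h2 : l' + c % 2 ^ k = c := by
    rw [hl', Nat.mul_comm]
    exact Nat.div_add_mod c (2 ^ k)
  have h3 : c % 2 ^ (k + n) < 2 ^ (k + n) := Nat.mod_lt _ (by positivity)
  have h4 : l ≤ l' := by
    rw [hl, hl', pow_add, ← mul_assoc, mul_right_comm]
    refine Nat.mul_le_mul_right _ ?_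
    rw [← Nat.div_div_eq_div_mul]
    exact Nat.div_mul_le_self _ _
  obtain ⟨j, hj⟩ := Nat.exists_eq_add_of_le h4
  have hjle : j ≤ 2 ^ (k + n) := by omega
  have e1 : (M.s ^ l) x = (M.s ^ j)⁻¹ ((M.s ^ l') x) := by
    rw [hj, add_comm l j, pow_add, MulAut.mul_apply, clk_s_inv]
  rw [e1]
  have hC : (0 : ℝ) ≤ C := Nat.cast_nonneg _
  refine (hg.s_inv_le (k + n) j hjle _).trans (mul_le_mul_of_nonneg_left ?_ hC)
  refine (nu_add hg k n _).trans (div_le_self (hg.nonneg _ _) (one_le_pow₀ (by norm_num)))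

private theorem clk_nm_le (hg : Geo M nu C) (k w b : ℕ) (hkw : k ≤ w) (d : A)
    (hd : nu k (M.aT (b * 2 ^ k) d) ≤ 100 * (C : ℝ) ^ 2) :
    nu (w + s0 C) (M.aT (b / 2 ^ (w - k) * 2 ^ w) d) ≤
      (1 / 2) ^ (w - k) * (1 / (10 ^ 4 * D0 C)) := by
  have hC1 : (1 : ℝ) ≤ C := by exact_mod_cast hg.one_le
  have hC0 : (0 : ℝ) < C := by linarith
  have hD1 : (1 : ℝ) ≤ D0 C := by
    have h := Zc_pos hg.one_le
    have : 1 ≤ D0 C := by
      unfold D0
      omega
    exact_mod_cast this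
  have hD0 : (0 : ℝ) < D0 C := by linarith
  have h1 := nu_add hg w (s0 C) (M.aT (b / 2 ^ (w - k) * 2 ^ w) d)
  have h2 := aT_anc hg k w b hkw d
  have h3 : (C : ℝ) ^ 2 * nu k (M.aT (b * 2 ^ k) d) / 2 ^ (w - k) ≤
      (C : ℝ) ^ 2 * (100 * (C : ℝ) ^ 2) / 2 ^ (w - k) :=
    div_le_div_of_nonneg_right (mul_le_mul_of_nonneg_left hd (by positivity)) (by positivity)
  have h4 : (10 : ℝ) ^ 6 * C ^ 4 * D0 C ≤ 2 ^ s0 C := s0_le
  have h5 : (0 : ℝ) < 10 ^ 6 * C ^ 4 * D0 C := by positivity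
  calc nu (w + s0 C) (M.aT (b / 2 ^ (w - k) * 2 ^ w) d)
      ≤ nu w (M.aT (b / 2 ^ (w - k) * 2 ^ w) d) / 2 ^ s0 C := h1
    _ ≤ ((C : ℝ) ^ 2 * (100 * (C : ℝ) ^ 2) / 2 ^ (w - k)) / 2 ^ s0 C :=
        div_le_div_of_nonneg_right (h2.trans h3) (by positivity)
    _ ≤ ((C : ℝ) ^ 2 * (100 * (C : ℝ) ^ 2) / 2 ^ (w - k)) / (10 ^ 6 * C ^ 4 * D0 C) :=
        div_le_div_of_nonneg_left (by positivity) h5 h4
    _ = (1 / 2) ^ (w - k) * (1 / (10 ^ 4 * D0 C)) := by
        rw [one_div_pow]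
        field_simp
        ring

/-- mismatch for nearby objects -/
theorem clk_mismatch (hg : Geo M nu C) (h : IsClock M nu C K κ mT mS D) (k : ℕ) (hk : k ≤ K + 1)
    (b : ℕ) (u d : A) (hd : nu k (M.aT (b * 2 ^ k) d) ≤ 100 * (C : ℝ) ^ 2) :
    |D k b (d * u) - D k b u| ≤ 1 / 4 := by
  have hD1 : (1 : ℝ) ≤ D0 C := by
    have h := Zc_pos hg.one_le
    have : 1 ≤ D0 C := by
      unfold D0
      omega
    exact_mod_cast this
  have hDp : (0 : ℝ) < D0 C := by linarith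
  -- one level
  have step : ∀ w, k ≤ w → w ≤ K →
      |D w (b / 2 ^ (w - k)) (d * u) - D w (b / 2 ^ (w - k)) u| ≤
      |D (w + 1) (b / 2 ^ (w + 1 - k)) (d * u) - D (w + 1) (b / 2 ^ (w + 1 - k)) u| +
        (1 / 2) ^ (w - k) * (1 / 16) := by
    intro w hkw hwK
    have e1 : b / 2 ^ (w - k) / 2 = b / 2 ^ (w + 1 - k) := by
      rw [Nat.div_div_eq_div_mul, ← pow_succ]
      congr 2
      omega
    rw [h.step w hwK _ (d * u), h.step w hwK _ u, e1]
    have hx := clk_nm_le hg k w b hkw d hd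
    have hlip := av_lip hg w (b / 2 ^ (w - k) * 2 ^ w)
      (cc M nu C K κ mT mS D w (b / 2 ^ (w - k)))
      (fun u => cc_nonneg w _ u) (fun u => cc_le_one w _ u) u d
    set x := nu (w + s0 C) (M.aT (b / 2 ^ (w - k) * 2 ^ w) d) with hxdef
    set y : ℝ := (1 / 2 : ℝ) ^ (w - k) with hy
    have hy0 : 0 < y := by positivity
    have hy1 : y ≤ 1 := pow_le_one₀ (by norm_num) (by norm_num)
    have hx0 : 0 ≤ x := hg.nonneg _ _
    have hDx : D0 C * x ≤ y * (1 / 10 ^ 4) := by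
      calc D0 C * x ≤ D0 C * (y * (1 / (10 ^ 4 * D0 C))) :=
            mul_le_mul_of_nonneg_left hx hDp.le
        _ = y * (1 / 10 ^ 4) := by
            field_simp
    have hx1 : x ≤ 1 := by
      have h1 : x ≤ D0 C * x := le_mul_of_one_le_left hx0 hD1
      have h2 : y * (1 / 10 ^ 4) ≤ 1 := by
        have : y * (1 / 10 ^ 4) ≤ 1 * (1 / 10 ^ 4) :=
          mul_le_mul_of_nonneg_right hy1 (by norm_num)
        linarith [this, show (1 : ℝ) * (1 / 10 ^ 4) ≤ 1 by norm_num]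
      linarith
    have hexp : Real.exp x - 1 ≤ 2 * x := by
      have := Real.abs_exp_sub_one_le (x := x) (by rw [abs_of_nonneg hx0]; exact hx1)
      rw [abs_of_nonneg hx0] at this
      exact (le_abs_self _).trans this
    have hbd : D0 C * |av M nu C w (b / 2 ^ (w - k) * 2 ^ w)
          (cc M nu C K κ mT mS D w (b / 2 ^ (w - k))) (d * u) -
        av M nu C w (b / 2 ^ (w - k) * 2 ^ w)
          (cc M nu C K κ mT mS D w (b / 2 ^ (w - k))) u| ≤ y * (1 / 16) := by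
      have h1 := mul_le_mul_of_nonneg_left (hlip.trans hexp) hDp.le
      have h2 : D0 C * (2 * x) ≤ y * (1 / 16) := by
        have h3 : D0 C * (2 * x) = 2 * (D0 C * x) := by ring
        have h4 : y * (1 / 10 ^ 4) * 2 ≤ y * (1 / 16) := by
          have : y * (1 / 10 ^ 4) * 2 = y * (2 / 10 ^ 4) := by ring
          rw [this]
          exact mul_le_mul_of_nonneg_left (by norm_num) hy0.le
        rw [h3]
        linarith
      linarith
    have htri : ∀ p q s t : ℝ, |p + D0 C * s - (q + D0 C * t)| ≤ |p - q| + D0 C * |s - t| := by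
      intro p q s t
      have : p + D0 C * s - (q + D0 C * t) = (p - q) + D0 C * (s - t) := by ring
      rw [this]
      refine (abs_add_le _ _).trans ?_
      rw [abs_mul, abs_of_nonneg hDp.le]
    exact (htri _ _ _ _).trans (by linarith)
  have key : ∀ n w, w + n = K + 1 → k ≤ w →
      |D w (b / 2 ^ (w - k)) (d * u) - D w (b / 2 ^ (w - k)) u| ≤ (1 / 2) ^ (w - k) * (1 / 8) := by
    intro n
    induction n with
    | zero =>
      intro w hw hkw
      have : w = K + 1 := by omega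
      subst this
      rw [h.top, h.top, sub_self, abs_zero]
      positivity
    | succ n ih =>
      intro w hw hkw
      have hs := step w hkw (by omega)
      have hi := ih (w + 1) (by omega) (by omega)
      have e2 : (1 / 2 : ℝ) ^ (w + 1 - k) = (1 / 2) ^ (w - k) * (1 / 2) := by
        rw [← pow_succ]
        congr 1
        omega
      rw [e2] at hi
      linarith
  have hfin := key (K + 1 - k) k (by omega) le_rfl
  simp only [Nat.sub_self, pow_zero, Nat.div_one] at hfin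
  linarith

/-- mismatch for tied objects, also after a shift of the `S`-object -/
theorem clk_tied (hg : Geo M nu C) (h : IsClock M nu C K κ mT mS D) (k : ℕ) (hk : k ≤ K + 1)
    (c : ℕ) (u x : A) (hx : nu k ((M.s ^ (c / 2 ^ k * 2 ^ k)) x) ≤ 10 * (C : ℝ) ^ 2) :
    |DS M D k (c / 2 ^ k) (x * (M.th c * u)) - D k (c / 2 ^ k) u| ≤ 1 / 4 := by
  set l := c / 2 ^ k * 2 ^ k with hl
  have hc : l + c % 2 ^ k = c := by
    rw [hl, Nat.mul_comm]
    exact Nat.div_add_mod c (2 ^ k)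
  have hm : c % 2 ^ k < 2 ^ k := Nat.mod_lt _ (by positivity)
  have hC1 : (1 : ℝ) ≤ C := by exact_mod_cast hg.one_le
  have e1 : (M.th l)⁻¹ * (x * (M.th c * u)) = (M.th l)⁻¹ * x * M.th c * u := by group
  have e3 : M.th c * (M.th l)⁻¹ = (M.s ^ l)⁻¹ (M.th (c % 2 ^ k)) := by
    have := M.th_add l (c % 2 ^ k)
    rw [hc] at this
    rw [this]
    group
  have e2 : M.aT l ((M.th l)⁻¹ * x * M.th c) = (M.s ^ l) x * M.th (c % 2 ^ k) := by
    unfold Mod.aT
    rw [MulAut.mul_apply, MulAut.conj_apply]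
    have e4 : M.th l * ((M.th l)⁻¹ * x * M.th c) * (M.th l)⁻¹ = x * (M.th c * (M.th l)⁻¹) := by
      group
    rw [e4, e3, map_mul, clk_s_inv']
  unfold DS
  rw [← hl, e1]
  refine clk_mismatch hg h k hk (c / 2 ^ k) u _ ?_
  rw [← hl, e2]
  refine (hg.mul k _ _).trans ?_
  have h1 := hg.th_le k (c % 2 ^ k) hm.le
  nlinarith

/-- a busy place moves the clock by at least `8` -/
theorem clk_busy (hg : Geo M nu C) (h : IsClock M nu C K κ mT mS D) (hκ : 0 < κ)
    (hT : ∀ k b u, 0 ≤ mT k b u) (hS : ∀ k b u, 0 ≤ mS k b u)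
    (k : ℕ) (hk : k ≤ K) (b : ℕ) (u : A) (hL : 4 * κ ≤ LL M nu C K mT mS D k b u) :
    D (k + 1) (b / 2) u + 8 ≤ D k b u := by
  have hbb : ∀ u, 0 ≤ bb M K mT mS D k b u := fun u => bb_nonneg hT hS k b u
  have hZ : (1 : ℝ) ≤ Zc C := by exact_mod_cast Zc_pos hg.one_le
  have hmass : 1 / (2 * (Zc C : ℝ)) ≤ av M nu C k (b * 2 ^ k) (cc M nu C K κ mT mS D k b) u := by
    refine av_mass hg k (b * 2 ^ k) _ (fun u => cc_nonneg k b u) u ?_
    intro d hd
    have hH := av_harnack hg k (b * 2 ^ k) (bb M K mT mS D k b) hbb (d * u) d⁻¹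
    rw [inv_mul_cancel_left, map_inv, hg.inv] at hH
    have hL0 : 0 ≤ LL M nu C K mT mS D k b (d * u) := av_nonneg k _ _ hbb _
    have hexp : Real.exp (nu (k + s0 C) (M.aT (b * 2 ^ k) d)) ≤ 2 := by
      refine (Real.exp_le_exp.mpr hd).trans ?_
      have h1 : Real.exp (1 / 2) ^ 2 ≤ 2 ^ 2 := by
        rw [← Real.exp_nat_mul]
        norm_num
        linarith [Real.exp_one_lt_d9]
      exact le_of_sq_le_sq h1 (by norm_num)
    have h2 : 4 * κ ≤ 2 * LL M nu C K mT mS D k b (d * u) := by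
      refine hL.trans (hH.trans ?_)
      exact mul_le_mul_of_nonneg_right hexp hL0
    have h3 : 2 ≤ LL M nu C K mT mS D k b (d * u) / κ := by
      rw [le_div_iff₀ hκ]
      linarith
    unfold cc
    refine le_min le_rfl (le_max_of_le_right ?_)
    linarith
  rw [h.step k hk b u]
  have hD0 : (D0 C : ℝ) = 40 * Zc C := by
    unfold D0
    push_cast
    ring
  have h4 : (D0 C : ℝ) * (1 / (2 * (Zc C : ℝ))) = 20 := by
    rw [hD0]
    field_simp
    norm_num
  have h5 := mul_le_mul_of_nonneg_left hmass (by rw [hD0]; positivity : (0 : ℝ) ≤ D0 C)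
  linarith

end

end NPG
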