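import Mathlib

/-!
# NPG / Defs : `m = 2`, nilpotent groups of any step; the abstract finite model

Paper proof: notes 3425, 3426 (helper45).

* `Mod A` : the finite model.  `A` is a finite group of objects, `s` the conjugation by `S`,
  `th c = S^(-c) T^c`.  At time `c` the `T`-object `u` and the `S`-object `v = th c * u` are tied.
* positions at the left end `l` of a block: `pS v l = s^l v`, `pT u l = s^l (th l * u)`; tied at
  time `l + m` means `pS v l = th m * pT u l`.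
* `aS l`, `aT l` : the automorphisms with `pS (x * v) l = aS l x * pS v l`,
  `pT (x * u) l = aT l x * pT u l`.
* `sw` : the mirror model (`T` and `S` exchanged).
* `Geo` : the properties of the lengths `nu k` (weighted word lengths), `vol` : volume of the ball
  of radius `1/2`.
* `sm` : smoothing with the kernel `κ` in the frame of the left end `l`; `ro` : rough part.
* `SingH`, `TIH` : the two inequalities which the operator part delivers; `Krn` : all the
  properties of the kernels `kr k` for one parameter `a`.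
-/

namespace NPG
open Finset

noncomputable section

/-- abstract model -/
structure Mod (A : Type) [Group A] where
  s : MulAut A
  th : ℕ → A
  th_zero : th 0 = 1
  th_add : ∀ l m, th (l + m) = (s ^ l)⁻¹ (th m) * th l

section model
variable {A : Type} [Group A] (M : Mod A)

/-- automorphism of the `S`-positions -/
def Mod.aS (l : ℕ) : MulAut A := M.s ^ l

/-- automorphism of the `T`-positions -/
def Mod.aT (l : ℕ) : MulAut A := M.s ^ l * MulAut.conj (M.th l)

/-- position of an `S`-object at the left end `l` -/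
def Mod.pS (v : A) (l : ℕ) : A := (M.s ^ l) v

/-- position of a `T`-object at the left end `l` -/
def Mod.pT (u : A) (l : ℕ) : A := (M.s ^ l) (M.th l * u)

end model

/-- the lengths -/
structure Geo {A : Type} [Group A] [Fintype A] (M : Mod A) (nu : ℕ → A → ℝ) (C : ℕ) : Prop where
  one_le : 1 ≤ C
  nonneg : ∀ k x, 0 ≤ nu k x
  one : ∀ k, nu k 1 = 0
  inv : ∀ k x, nu k x⁻¹ = nu k x
  mul : ∀ k x y, nu k (x * y) ≤ nu k x + nu k y
  up : ∀ k x, nu (k + 1) x ≤ nu k x / 2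
  s_le : ∀ k j, j ≤ 2 ^ k → ∀ x, nu k ((M.s ^ j) x) ≤ C * nu k x
  s_inv_le : ∀ k j, j ≤ 2 ^ k → ∀ x, nu k ((M.s ^ j)⁻¹ x) ≤ C * nu k x
  conj_le : ∀ k j, j ≤ 2 ^ k → ∀ x, nu k (M.th j * x * (M.th j)⁻¹) ≤ C * nu k x
  conj_inv_le : ∀ k j, j ≤ 2 ^ k → ∀ x, nu k ((M.th j)⁻¹ * x * M.th j) ≤ C * nu k x
  th_le : ∀ k j, j ≤ 2 ^ k → nu k (M.th j) ≤ C
  growth : ∀ k, ∀ r : ℝ, 1 ≤ r → (Nat.card {x : A // nu k x ≤ r} : ℝ) ≤
    C * r ^ C * Nat.card {x : A // nu k x ≤ 1 / 2}
  vol_succ : ∀ k, (Nat.card {x : A // nu (k + 1) x ≤ 1 / 2} : ℝ) ≤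
    C * Nat.card {x : A // nu k x ≤ 1 / 2}

/-- volume of the ball of radius `1/2` -/
def vol {A : Type} (nu : ℕ → A → ℝ) (k : ℕ) : ℝ := Nat.card {x : A // nu k x ≤ 1 / 2}

/-- `kz ≤ Zc * vol` -/
def Zc (C : ℕ) : ℕ := 8 * C * (2 * C + 2) ^ C

/-- amplitude constant of the clock -/
def D0 (C : ℕ) : ℕ := 40 * Zc C

/-- shift of the levels of the averaging kernels: `2^(s0 C) ≥ 10^6 C^4 D0` -/
def s0 (C : ℕ) : ℕ := Nat.clog 2 (10 ^ 6 * C ^ 4 * D0 C)

section processes
variable {A : Type} [Group A] [Fintype A]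

/-- average over times `c < 2^K` and objects -/
def ex (K : ℕ) (f : ℕ → A → ℝ) : ℝ :=
  (∑ c ∈ range (2 ^ K), ∑ u : A, f c u) / (2 ^ K * (Fintype.card A : ℝ))

/-- accumulation from the top level `K` down to level `k` -/
def acc {F : Type} [AddCommMonoid F] (K : ℕ) (p : ℕ → ℕ → A → F) : ℕ → ℕ → A → F :=
  fun k b u => ∑ w ∈ Icc k K, p w (b / 2 ^ (w - k)) u

/-- total mass of a nonnegative real process over the levels `[k1, K]` -/
def totr (K k1 : ℕ) (m : ℕ → ℕ → A → ℝ) : ℝ :=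
  ∑ k ∈ Icc k1 K, ex K (fun c u => m k (c / 2 ^ k) u)

variable {E : Type} [NormedAddCommGroup E] [InnerProductSpace ℝ E]

/-- average over tied pairs of the inner product of two functions at level `k` -/
def tp (M : Mod A) (K k : ℕ) (f g : ℕ → A → E) : ℝ :=
  ex K (fun c u => inner ℝ (f (c / 2 ^ k) u) (g (c / 2 ^ k) (M.th c * u)))

/-- smoothing with the kernel `κ` in the frame of the left end `l` -/
def sm (M : Mod A) (κ : A → ℝ) (l : ℕ) (V : A → E) (v : A) : E :=
  ∑ x : A, κ x • V ((M.s ^ l)⁻¹ x * v)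

/-- `f` at level `k+1` seen as a function at level `k` -/
def up (f : ℕ → A → E) : ℕ → A → E := fun b u => f (b / 2) u

/-- rough part of a function at level `k` -/
def ro (M : Mod A) (kr : ℕ → A → ℝ) (k : ℕ) (g : ℕ → A → E) : ℕ → A → E :=
  fun b v => g b v - sm M (kr k) (b * 2 ^ k) (g b) v

/-- flux of `p` against the process `V` (rough part) -/
def FT (M : Mod A) (kr : ℕ → A → ℝ) (K k1 : ℕ) (p V : ℕ → ℕ → A → E) : ℝ :=
  ∑ k ∈ Icc k1 K, tp M K k (p k) (ro M kr k (V k))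

/-- flux of the increments `q` against the process `S`, taken one level above (rough part) -/
def FS (M : Mod A) (kr : ℕ → A → ℝ) (K k1 : ℕ) (S q : ℕ → ℕ → A → E) : ℝ :=
  ∑ k ∈ Icc k1 K, tp M K k (up (S (k + 1))) (ro M kr k (q k))

/-- average norm at level `k` -/
def nv (K k : ℕ) (V : ℕ → ℕ → A → E) : ℝ := ex K (fun c u => ‖V k (c / 2 ^ k) u‖)

/-- total mass of a process over the levels `[k1, K]` -/
def tot (K k1 : ℕ) (p : ℕ → ℕ → A → E) : ℝ := ∑ k ∈ Icc k1 K, nv K k p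

end processes

/-- single scale inequality -/
def SingH {A : Type} [Group A] [Fintype A] (M : Mod A) (kr : ℕ → A → ℝ) (C a : ℕ) : Prop :=
  ∀ (E : Type) [NormedAddCommGroup E] [InnerProductSpace ℝ E] (K k : ℕ), C * a ≤ k → k ≤ K →
    ∀ f g : ℕ → A → E, |tp M K k f (ro M kr k g)| ≤ C / Real.sqrt (2 ^ a) *
      (Real.sqrt (ex K (fun c u => ‖f (c / 2 ^ k) u‖ ^ 2)) *
        Real.sqrt (ex K (fun c u => ‖g (c / 2 ^ k) u‖ ^ 2)))

/-- total identity -/
def TIH {A : Type} [Group A] [Fintype A] (M : Mod A) (kr : ℕ → A → ℝ) (C a : ℕ) : Prop :=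
  ∀ (E : Type) [NormedAddCommGroup E] [InnerProductSpace ℝ E] (K k1 : ℕ), C * a ≤ k1 → k1 ≤ K →
    ∀ (p q : ℕ → ℕ → A → E) (BS BV : ℝ),
      (∀ k, k1 ≤ k → k ≤ K → ∀ b < 2 ^ (K - k), ∀ u, ‖acc K p k b u‖ ≤ BS) →
      (∀ k, k1 ≤ k → k ≤ K → ∀ b < 2 ^ (K - k), ∀ u, ‖acc K q k b u‖ ≤ BV) →
      |FT M kr K k1 p (acc K q) + FS M kr K k1 (acc K p) q| ≤ C / Real.sqrt (2 ^ a) *
        (Real.sqrt (BS * tot K k1 p) * Real.sqrt (BV * tot K k1 q))

/-- the properties of the kernels for the parameter `a` -/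
structure Krn {A : Type} [Group A] [Fintype A] (M : Mod A) (nu : ℕ → A → ℝ) (C a : ℕ)
    (kr : ℕ → A → ℝ) : Prop where
  symm : ∀ k x, kr k x⁻¹ = kr k x
  supp : ∀ k, C * a ≤ k → ∀ x, kr k x ≠ 0 → nu k x ≤ 1
  bound : ∀ k, C * a ≤ k → ∀ x, |kr k x| ≤ 2 ^ (C * a) / vol nu k
  sing : SingH M kr C a
  ti : TIH M kr C a

/-! ### the mirror model -/

section mirror
variable {A : Type} [Group A] (M : Mod A)

lemma aT_zero : M.aT 0 = 1 := by
  unfold Mod.aT
  rw [M.th_zero, pow_zero, map_one, one_mul]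

lemma aT_add (l j : ℕ) (x : A) :
    M.aT (l + j) x = (M.s ^ j) (M.th j * M.aT l x * (M.th j)⁻¹) := by
  have h : M.s ^ (l + j) = M.s ^ j * M.s ^ l := by rw [add_comm, pow_add]
  have h2 : ∀ y : A, (M.s ^ l) ((M.s ^ l)⁻¹ y) = y := fun y => by
    rw [← MulAut.mul_apply, mul_inv_cancel, MulAut.one_apply]
  unfold Mod.aT
  simp only [MulAut.mul_apply, MulAut.conj_apply, M.th_add l j, h, map_mul, map_inv, mul_inv_rev,
    h2]
  group

/-- powers of the first `T`-automorphism -/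
lemma aT_one_pow (l : ℕ) : M.aT 1 ^ l = M.aT l := by
  induction l with
  | zero => rw [pow_zero, aT_zero]
  | succ l ih =>
    ext x
    rw [pow_succ', MulAut.mul_apply, ih, aT_add M l 1]
    unfold Mod.aT
    simp only [MulAut.mul_apply, MulAut.conj_apply]

/-- the mirror model: `T` and `S` are exchanged -/
def Mod.sw : Mod A where
  s := M.aT 1
  th := fun c => (M.th c)⁻¹
  th_zero := by rw [M.th_zero, inv_one]
  th_add := fun l m => by
    rw [aT_one_pow, M.th_add l m]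
    have h : (M.aT l)⁻¹ = (MulAut.conj (M.th l))⁻¹ * (M.s ^ l)⁻¹ := by
      unfold Mod.aT
      rw [mul_inv_rev]
    rw [h, MulAut.mul_apply, ← map_inv MulAut.conj, MulAut.conj_apply, map_inv]
    group

lemma sw_aS (l : ℕ) : M.sw.aS l = M.aT l := aT_one_pow M l

lemma sw_th (c : ℕ) : M.sw.th c = (M.th c)⁻¹ := rfl

lemma pT_mul (x u : A) (l : ℕ) : M.pT (x * u) l = M.aT l x * M.pT u l := by
  unfold Mod.pT Mod.aT
  simp only [MulAut.mul_apply, MulAut.conj_apply, map_mul, map_inv]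
  group

lemma pS_mul (x v : A) (l : ℕ) : M.pS (x * v) l = M.aS l x * M.pS v l := by
  unfold Mod.pS Mod.aS
  rw [map_mul]

/-- tied objects -/
lemma pS_tied (l m : ℕ) (u : A) : M.pS (M.th (l + m) * u) l = M.th m * M.pT u l := by
  unfold Mod.pS Mod.pT
  rw [M.th_add, mul_assoc, map_mul, ← MulAut.mul_apply, mul_inv_cancel, MulAut.one_apply]

end mirror

end

end NPG
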