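import Pool.Agent.NPG.Proc
import Pool.Agent.NP2.Rid

/-!
# NPG / Dic : dictionaries with locations

An element `x` is born at the block `(lev, blk)`, has a location `loc` (position at the left end of
that block) and a function `psi`.  An object is given by its position function `y : ℕ → A`
(`M.pT u` or `M.pS v`) and its function `f : ℕ → ℝ`.  Its column for `x` at the block `(k,b)` is
`exp(-τ/2 dist) psi` if `(k,b)` is contained in the block of `x`, and `0` otherwise;
`dist = nu lev (y l * loc⁻¹)`, `l = blk 2^lev`.  A dictionary carries the length function `nu`.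

* `cst_children` : for coefficients supported on the elements active at `(k+1,b)` the cost at
  `(k+1,b)` is the mean of the costs at the two children.
* `tr_children` : the trace is a submartingale.
* `dic_weight` : `∑_u exp(-τ dist_x(u)) ≤ W0 C / τ^C * vol (lev x)` (growth).
* `tr_doob` : first level (from the top) at which `tr ≥ Γ`; submartingale.
* `near k b r u v` : `nu k (pS v l * (pT u l)⁻¹) ≤ r`, `l = b 2^k`.  Tied pairs are near with `r = C`, after
  a shift by a kernel element (`nu k x ≤ 1`) on one side with `r = C + 1`.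
* `near_dist` : for a near pair and an element active at `(k,b)`: with `l = blk x 2^(lev x)`,
  `b 2^k = l + j`: `pS v l * (pT u l)⁻¹ = s^(-j)(g) * th j`, `g = pS v (l+j) * (pT u (l+j))⁻¹`.
-/

namespace NPG
open Finset
open NP2 (ip blk comb cst rid res mcs ip_comm ip_self_nonneg ip_cs ip_le_one ip_add_left
  ip_smul_left ip_congr ip_comb_left rid_normal rid_unique cst_split mcs_le_cst mcs_nonneg mcs_le
  rid_sq_le res_sq_le rid_cons_zero res_cons_zero mcs_cons_le mcs_cons_drop)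

noncomputable section

variable {A : Type} [Group A]

/-- dictionary element -/
structure Elem (A : Type) where
  lev : ℕ
  blk : ℕ
  loc : A
  psi : ℕ → ℝ

/-- dictionary -/
structure Dict (A : Type) where
  nu : ℕ → A → ℝ
  n : ℕ
  el : Fin n → Elem A

/-- the block `(k,b)` is contained in the block of `x` -/
def Elem.act (x : Elem A) (k b : ℕ) : Prop := k ≤ x.lev ∧ b / 2 ^ (x.lev - k) = x.blk

/-- distance of the object with position function `y` to the element -/
def Elem.dist (x : Elem A) (nu : ℕ → A → ℝ) (y : ℕ → A) : ℝ :=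
  nu x.lev (y (x.blk * 2 ^ x.lev) * x.loc⁻¹)

open Classical in
/-- column of one element -/
def colE (τ : ℝ) (nu : ℕ → A → ℝ) (x : Elem A) (k b : ℕ) (y : ℕ → A) : ℕ → ℝ :=
  fun t => if x.act k b then Real.exp (-(τ / 2) * x.dist nu y) * x.psi t else 0

/-- columns of a dictionary -/
def col (τ : ℝ) (D : Dict A) (k b : ℕ) (y : ℕ → A) : Fin D.n → ℕ → ℝ :=
  fun i => colE τ D.nu (D.el i) k b y

/-- ridge coefficients of an object at a block -/
def xi (τ : ℝ) (D : Dict A) (μ : ℝ) (k b : ℕ) (y : ℕ → A) (f : ℕ → ℝ) : Fin D.n → ℝ :=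
  rid (blk k b) (col τ D k b y) μ f

/-- residual -/
def rsd (τ : ℝ) (D : Dict A) (μ : ℝ) (k b : ℕ) (y : ℕ → A) (f : ℕ → ℝ) : ℕ → ℝ :=
  res (blk k b) (col τ D k b y) μ f

/-- minimal cost -/
def mc (τ : ℝ) (D : Dict A) (μ : ℝ) (k b : ℕ) (y : ℕ → A) (f : ℕ → ℝ) : ℝ :=
  mcs (blk k b) (col τ D k b y) μ f

/-- trace -/
def tr (τ : ℝ) (D : Dict A) (k b : ℕ) (y : ℕ → A) : ℝ :=
  ∑ i, ip (blk k b) (col τ D k b y i) (col τ D k b y i)

/-- the two objects are near at the block `(k, b)` -/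
def near (M : Mod A) (nu : ℕ → A → ℝ) (k b : ℕ) (r : ℝ) (u v : A) : Prop :=
  nu k (M.pS v (b * 2 ^ k) * (M.pT u (b * 2 ^ k))⁻¹) ≤ r

theorem card_blk (k b : ℕ) : (blk k b).card = 2 ^ k := by
  unfold blk
  rw [Nat.card_Ico]
  have : (b + 1) * 2 ^ k = b * 2 ^ k + 2 ^ k := by ring
  rw [this, Nat.add_sub_cancel_left]

private theorem dic_blk_union (k b : ℕ) (F : ℕ → ℝ) :
    ∑ t ∈ blk k (2 * b), F t + ∑ t ∈ blk k (2 * b + 1), F t = ∑ t ∈ blk (k + 1) b, F t := by
  unfold blk
  have e1 : (b + 1) * 2 ^ (k + 1) = (2 * b + 1 + 1) * 2 ^ k := by rw [pow_succ]; ring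
  have e2 : b * 2 ^ (k + 1) = 2 * b * 2 ^ k := by rw [pow_succ]; ring
  rw [e1, e2]
  have hp : 0 < 2 ^ k := Nat.pos_of_ne_zero (by positivity)
  exact sum_Ico_consecutive F (Nat.mul_le_mul_right _ (by omega))
    (Nat.mul_le_mul_right _ (by omega))

/-- mean over the two children -/
theorem ip_children (k b : ℕ) (f g : ℕ → ℝ) :
    (ip (blk k (2 * b)) f g + ip (blk k (2 * b + 1)) f g) / 2 = ip (blk (k + 1) b) f g := by
  unfold ip
  rw [card_blk, card_blk, card_blk, ← add_div, dic_blk_union, div_div]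
  congr 1
  push_cast
  ring

theorem act_child (x : Elem A) (k b : ℕ) (h : x.act (k + 1) (b / 2)) : x.act k b := by
  obtain ⟨h1, h2⟩ := h
  refine ⟨by omega, ?_⟩
  rw [Nat.div_div_eq_div_mul] at h2
  rw [← h2]
  congr 1
  have : x.lev - k = (x.lev - (k + 1)) + 1 := by omega
  rw [this, pow_succ, mul_comm]

private theorem dic_ip_zero (J : Finset ℕ) (f g : ℕ → ℝ) (h : ∀ t, f t = 0) : ip J f g = 0 := by
  unfold ip
  rw [sum_eq_zero fun t _ => by rw [h t, zero_mul], zero_div]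

private theorem dic_col_inact (τ : ℝ) (D : Dict A) (k b : ℕ) (y : ℕ → A) (i : Fin D.n)
    (h : ¬ (D.el i).act k b) (t : ℕ) : col τ D k b y i t = 0 := by
  unfold col colE
  rw [if_neg h]

private theorem dic_col_act (τ : ℝ) (D : Dict A) (k b : ℕ) (y : ℕ → A) (i : Fin D.n)
    (h : (D.el i).act k b) (t : ℕ) :
    col τ D k b y i t = Real.exp (-(τ / 2) * (D.el i).dist D.nu y) * (D.el i).psi t := by
  unfold col colE
  rw [if_pos h]

theorem xi_supp (τ : ℝ) (D : Dict A) (μ : ℝ) (hμ : 0 < μ) (k b : ℕ) (y : ℕ → A) (f : ℕ → ℝ)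
    (i : Fin D.n) (h : ¬ (D.el i).act k b) : xi τ D μ k b y f i = 0 := by
  have h1 := rid_normal (blk k b) (col τ D k b y) μ hμ f i
  rw [dic_ip_zero _ _ _ (dic_col_inact τ D k b y i h)] at h1
  rcases mul_eq_zero.1 h1 with h2 | h2
  · exact absurd h2 hμ.ne'
  · exact h2

private theorem dic_comb_child (τ : ℝ) (D : Dict A) (k b b' : ℕ) (hb : b' / 2 = b) (y : ℕ → A)
    (ξ : Fin D.n → ℝ) (hξ : ∀ i, ¬ (D.el i).act (k + 1) b → ξ i = 0) :
    comb (col τ D k b' y) ξ = comb (col τ D (k + 1) b y) ξ := by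
  funext t
  unfold comb
  refine sum_congr rfl fun i _ => ?_
  by_cases h : (D.el i).act (k + 1) b
  · have h' : (D.el i).act k b' := act_child _ _ _ (by rw [hb]; exact h)
    rw [dic_col_act τ D k b' y i h', dic_col_act τ D (k + 1) b y i h]
  · rw [hξ i h, zero_mul, zero_mul]

theorem cst_children (τ : ℝ) (D : Dict A) (μ : ℝ) (k b : ℕ) (y : ℕ → A) (f : ℕ → ℝ)
    (ξ : Fin D.n → ℝ) (hξ : ∀ i, ¬ (D.el i).act (k + 1) b → ξ i = 0) :
    (cst (blk k (2 * b)) (col τ D k (2 * b) y) μ f ξ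
      + cst (blk k (2 * b + 1)) (col τ D k (2 * b + 1) y) μ f ξ) / 2
      = cst (blk (k + 1) b) (col τ D (k + 1) b y) μ f ξ := by
  unfold cst
  rw [dic_comb_child τ D k b (2 * b) (by omega) y ξ hξ,
    dic_comb_child τ D k b (2 * b + 1) (by omega) y ξ hξ,
    ← ip_children k b]
  ring

theorem tr_nonneg (τ : ℝ) (D : Dict A) (k b : ℕ) (y : ℕ → A) : 0 ≤ tr τ D k b y :=
  sum_nonneg fun _ _ => ip_self_nonneg _ _

private theorem dic_ip_child (τ : ℝ) (D : Dict A) (k b b' : ℕ) (hb : b' / 2 = b) (y : ℕ → A)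
    (i : Fin D.n) (J : Finset ℕ) :
    ip J (col τ D (k + 1) b y i) (col τ D (k + 1) b y i)
      ≤ ip J (col τ D k b' y i) (col τ D k b' y i) := by
  by_cases h : (D.el i).act (k + 1) b
  · have h' : (D.el i).act k b' := act_child _ _ _ (by rw [hb]; exact h)
    have e : col τ D (k + 1) b y i = col τ D k b' y i := by
      funext t
      rw [dic_col_act τ D k b' y i h', dic_col_act τ D (k + 1) b y i h]
    rw [e]
  · rw [dic_ip_zero _ _ _ (dic_col_inact τ D (k + 1) b y i h)]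
    exact ip_self_nonneg _ _

theorem tr_children (τ : ℝ) (D : Dict A) (k b : ℕ) (y : ℕ → A) :
    tr τ D (k + 1) b y ≤ (tr τ D k (2 * b) y + tr τ D k (2 * b + 1) y) / 2 := by
  unfold tr
  rw [← sum_add_distrib, sum_div]
  refine sum_le_sum fun i _ => ?_
  rw [← ip_children k b]
  have h1 := dic_ip_child τ D k b (2 * b) (by omega) y i (blk k (2 * b))
  have h2 := dic_ip_child τ D k b (2 * b + 1) (by omega) y i (blk k (2 * b + 1))
  linarith


/-! ### zero function -/

theorem xi_zero (τ : ℝ) (D : Dict A) (μ : ℝ) (hμ : 0 < μ) (k b : ℕ) (y : ℕ → A) (f : ℕ → ℝ)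
    (hf : ∀ t, f t = 0) (i : Fin D.n) : xi τ D μ k b y f i = 0 := by
  have h := rid_sq_le (blk k b) (col τ D k b y) μ hμ f
  have h0 : ip (blk k b) f f = 0 := dic_ip_zero _ _ _ hf
  rw [h0] at h
  have h1 : ∑ x, rid (blk k b) (col τ D k b y) μ f x ^ 2 ≤ 0 := by
    by_contra hc
    push Not at hc
    have := mul_pos hμ hc
    linarith
  have h2 := (sum_eq_zero_iff_of_nonneg (fun x _ => sq_nonneg
    (rid (blk k b) (col τ D k b y) μ f x))).1
    (le_antisymm h1 (sum_nonneg fun x _ => sq_nonneg _)) i (mem_univ i)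
  exact pow_eq_zero_iff (two_ne_zero) |>.1 h2

theorem rsd_zero (τ : ℝ) (D : Dict A) (μ : ℝ) (hμ : 0 < μ) (k b : ℕ) (y : ℕ → A) (f : ℕ → ℝ)
    (hf : ∀ t, f t = 0) (t : ℕ) : rsd τ D μ k b y f t = 0 := by
  unfold rsd res comb
  rw [hf t, sum_eq_zero fun i _ => by
    have := xi_zero τ D μ hμ k b y f hf i
    unfold xi at this
    rw [this, zero_mul], sub_zero]

theorem mc_zero (τ : ℝ) (D : Dict A) (μ : ℝ) (hμ : 0 < μ) (k b : ℕ) (y : ℕ → A) (f : ℕ → ℝ)
    (hf : ∀ t, f t = 0) : mc τ D μ k b y f = 0 := by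
  have h1 := mcs_le (blk k b) (col τ D k b y) μ hμ f
  have h2 := mcs_nonneg (blk k b) (col τ D k b y) μ hμ f
  have h0 : ip (blk k b) f f = 0 := dic_ip_zero _ _ _ hf
  rw [h0] at h1
  exact le_antisymm h1 h2


/-! ### weights -/

section
variable [Fintype A]

/-- constant of the weight of one element -/
def W0 (C : ℕ) : ℕ := 5 * C * 2 ^ C * C.factorial

/-- the weight of a dictionary -/
def wt (D : Dict A) : ℝ := ∑ i, vol D.nu (D.el i).lev * 2 ^ (D.el i).lev

omit [Group A] [Fintype A] in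
theorem vol_nonneg (nu : ℕ → A → ℝ) (k : ℕ) : 0 ≤ vol nu k := Nat.cast_nonneg _

theorem vol_ge_one {M : Mod A} {nu : ℕ → A → ℝ} {C : ℕ} (hG : Geo M nu C) (k : ℕ) :
    1 ≤ vol nu k := by
  unfold vol
  have : Nonempty {x : A // nu k x ≤ 1 / 2} := ⟨⟨1, by rw [hG.one]; norm_num⟩⟩
  have h : 0 < Nat.card {x : A // nu k x ≤ 1 / 2} := Nat.card_pos
  exact_mod_cast h

/-- exponential sum -/
private theorem dic_exp_sum (C N : ℕ) :
    ∑ n ∈ range N, Real.exp (-(n : ℝ)) * ((n : ℝ) + 1) ^ C ≤ 5 * 2 ^ C * C.factorial := by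
  set s : ℝ := Real.exp (-(1 / 2)) with hs
  have hs0 : 0 < s := Real.exp_pos _
  have he1 : Real.exp (1 / 2) ≤ 5 / 3 := by
    have h1 : Real.exp (1 / 2) ^ 2 ≤ (5 / 3) ^ 2 := by
      rw [← Real.exp_nat_mul]
      have h2 := Real.exp_one_lt_d9
      norm_num
      linarith
    exact (pow_le_pow_iff_left₀ (Real.exp_pos _).le (by norm_num) (by norm_num)).1 h1
  have hs1 : s ≤ 2 / 3 := by
    rw [hs, Real.exp_neg]
    have h1 : (3 : ℝ) / 2 ≤ Real.exp (1 / 2) := by
      have := Real.add_one_le_exp (1 / 2 : ℝ)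
      linarith
    have h2 := inv_anti₀ (by norm_num : (0 : ℝ) < 3 / 2) h1
    norm_num at h2 ⊢
    exact h2
  have hterm : ∀ n : ℕ, Real.exp (-(n : ℝ)) * ((n : ℝ) + 1) ^ C ≤
      5 / 3 * (2 ^ C * C.factorial) * s ^ n := by
    intro n
    have h1 := Real.pow_div_factorial_le_exp (((n : ℝ) + 1) / 2) (by positivity) C
    have hf : (0 : ℝ) < C.factorial := by exact_mod_cast C.factorial_pos
    rw [div_le_iff₀ hf, div_pow, div_le_iff₀ (by positivity)] at h1
    have h2 : Real.exp (-(n : ℝ)) * Real.exp (((n : ℝ) + 1) / 2) = Real.exp (1 / 2) * s ^ n := by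
      rw [hs, ← Real.exp_nat_mul, ← Real.exp_add, ← Real.exp_add]
      congr 1
      ring
    calc Real.exp (-(n : ℝ)) * ((n : ℝ) + 1) ^ C
        ≤ Real.exp (-(n : ℝ)) * (Real.exp (((n : ℝ) + 1) / 2) * C.factorial * 2 ^ C) :=
          mul_le_mul_of_nonneg_left h1 (Real.exp_pos _).le
      _ = (Real.exp (-(n : ℝ)) * Real.exp (((n : ℝ) + 1) / 2)) * (2 ^ C * C.factorial) := by ring
      _ = Real.exp (1 / 2) * s ^ n * (2 ^ C * C.factorial) := by rw [h2]
      _ ≤ 5 / 3 * s ^ n * (2 ^ C * C.factorial) := by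
          refine mul_le_mul_of_nonneg_right (mul_le_mul_of_nonneg_right he1 (by positivity))
            (by positivity)
      _ = _ := by ring
  have hgeo : ∑ n ∈ range N, s ^ n ≤ 3 := by
    have h1 := Summable.sum_le_tsum (range N) (fun n _ => (by positivity : 0 ≤ s ^ n))
      (summable_geometric_of_lt_one hs0.le (by linarith))
    rw [tsum_geometric_of_lt_one hs0.le (by linarith)] at h1
    refine h1.trans ?_
    rw [inv_le_comm₀ (by linarith) (by norm_num)]
    linarith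
  calc ∑ n ∈ range N, Real.exp (-(n : ℝ)) * ((n : ℝ) + 1) ^ C
      ≤ ∑ n ∈ range N, 5 / 3 * (2 ^ C * C.factorial) * s ^ n := sum_le_sum fun n _ => hterm n
    _ = 5 / 3 * (2 ^ C * C.factorial) * ∑ n ∈ range N, s ^ n := by rw [mul_sum]
    _ ≤ 5 / 3 * (2 ^ C * C.factorial) * 3 := mul_le_mul_of_nonneg_left hgeo (by positivity)
    _ = _ := by ring

/-- total weight with a growth bound -/
theorem nu_weight {M : Mod A} {nu : ℕ → A → ℝ} {C : ℕ} (hG : Geo M nu C) (τ : ℝ) (h0 : 0 < τ)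
    (h1 : τ ≤ 1) (k : ℕ) : ∑ x : A, Real.exp (-τ * nu k x) ≤ W0 C / τ ^ C * vol nu k := by
  classical
  set fl : A → ℕ := fun x => ⌊τ * nu k x⌋₊ with hfl
  set N : ℕ := (univ.sup fl) + 1 with hN
  have hV := vol_nonneg nu k
  have hfib : ∀ n : ℕ, ∑ x ∈ (univ : Finset A).filter (fun x => fl x = n),
      Real.exp (-τ * nu k x) ≤
        Real.exp (-(n : ℝ)) * ((n : ℝ) + 1) ^ C * (C / τ ^ C * vol nu k) := by
    intro n
    have hr : 1 ≤ ((n : ℝ) + 1) / τ := by
      rw [le_div_iff₀ h0]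
      have : (0 : ℝ) ≤ n := Nat.cast_nonneg _
      linarith
    have hcard : (((univ : Finset A).filter (fun x => fl x = n)).card : ℝ) ≤
        C * (((n : ℝ) + 1) / τ) ^ C * vol nu k := by
      refine le_trans ?_ (hG.growth k _ hr)
      rw [Nat.card_eq_fintype_card, Fintype.card_subtype]
      norm_cast
      refine card_le_card fun x hx => ?_
      rw [mem_filter] at hx ⊢
      refine ⟨mem_univ _, ?_⟩
      have h2 := Nat.lt_floor_add_one (τ * nu k x)
      have h3 : (⌊τ * nu k x⌋₊ : ℝ) = n := by exact_mod_cast hx.2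
      rw [h3] at h2
      rw [le_div_iff₀ h0]
      push_cast
      linarith
    calc ∑ x ∈ (univ : Finset A).filter (fun x => fl x = n), Real.exp (-τ * nu k x)
        ≤ ∑ x ∈ (univ : Finset A).filter (fun x => fl x = n), Real.exp (-(n : ℝ)) := by
          refine sum_le_sum fun x hx => Real.exp_le_exp.2 ?_
          rw [mem_filter] at hx
          have h2 := Nat.floor_le (mul_nonneg h0.le (hG.nonneg k x))
          have h3 : (⌊τ * nu k x⌋₊ : ℝ) = n := by exact_mod_cast hx.2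
          rw [h3] at h2
          linarith
      _ = (((univ : Finset A).filter (fun x => fl x = n)).card : ℝ) * Real.exp (-(n : ℝ)) := by
          rw [sum_const, nsmul_eq_mul]
      _ ≤ (C * (((n : ℝ) + 1) / τ) ^ C * vol nu k) * Real.exp (-(n : ℝ)) :=
          mul_le_mul_of_nonneg_right hcard (Real.exp_pos _).le
      _ = _ := by rw [div_pow]; ring
  calc ∑ x : A, Real.exp (-τ * nu k x)
      = ∑ n ∈ range N, ∑ x ∈ (univ : Finset A).filter (fun x => fl x = n),
          Real.exp (-τ * nu k x) := by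
        rw [← Finset.sum_fiberwise_of_maps_to (s := univ) (t := range N) (g := fl)]
        intro x _
        rw [mem_range, hN]
        have : fl x ≤ univ.sup fl := le_sup (mem_univ x)
        omega
    _ ≤ ∑ n ∈ range N, Real.exp (-(n : ℝ)) * ((n : ℝ) + 1) ^ C * (C / τ ^ C * vol nu k) :=
        sum_le_sum fun n _ => hfib n
    _ = (∑ n ∈ range N, Real.exp (-(n : ℝ)) * ((n : ℝ) + 1) ^ C) * (C / τ ^ C * vol nu k) := by
        rw [sum_mul]
    _ ≤ (5 * 2 ^ C * C.factorial) * (C / τ ^ C * vol nu k) :=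
        mul_le_mul_of_nonneg_right (dic_exp_sum C N) (by positivity)
    _ = _ := by
        unfold W0
        push_cast
        ring

/-- the total weight of one element -/
theorem dic_weight {M : Mod A} {nu : ℕ → A → ℝ} {C : ℕ} (hG : Geo M nu C) (τ : ℝ) (h0 : 0 < τ)
    (h1 : τ ≤ 1) (x : Elem A) (y : A → ℕ → A) (hy : ∀ l, Function.Bijective (fun u => y u l)) :
    ∑ u : A, Real.exp (-τ * x.dist nu (y u)) ≤ W0 C / τ ^ C * vol nu x.lev := by
  have e1 : ∑ u : A, Real.exp (-τ * x.dist nu (y u))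
      = ∑ w : A, Real.exp (-τ * nu x.lev (w * x.loc⁻¹)) := by
    unfold Elem.dist
    exact Function.Bijective.sum_comp (hy (x.blk * 2 ^ x.lev))
      (fun w : A => Real.exp (-τ * nu x.lev (w * x.loc⁻¹)))
  have e2 : ∑ w : A, Real.exp (-τ * nu x.lev (w * x.loc⁻¹))
      = ∑ w : A, Real.exp (-τ * nu x.lev w) :=
    Equiv.sum_comp (Equiv.mulRight x.loc⁻¹) (fun w : A => Real.exp (-τ * nu x.lev w))
  rw [e1, e2]
  exact nu_weight hG τ h0 h1 x.lev

/-- one element at level zero, summed over the times -/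
private theorem dic_times (K : ℕ) (x : Elem A) (hlev : x.lev ≤ K)
    (hblk : x.blk < 2 ^ (K - x.lev))
    (hunit : ip (blk x.lev x.blk) x.psi x.psi ≤ 1) (F : ℝ) (hF : 0 ≤ F) (G : ℕ → ℝ)
    (hG : ∀ c, x.act 0 c → G c = F * (x.psi c * x.psi c)) (hG' : ∀ c, ¬ x.act 0 c → G c = 0) :
    ∑ c ∈ range (2 ^ K), G c ≤ F * 2 ^ x.lev := by
  classical
  have hp : 0 < 2 ^ x.lev := Nat.pos_of_ne_zero (by positivity)
  have hact : ∀ c, x.act 0 c ↔ c ∈ blk x.lev x.blk := by
    intro c
    unfold Elem.act blk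
    rw [Nat.sub_zero, mem_Ico]
    constructor
    · rintro ⟨-, h⟩
      have h1 := Nat.div_add_mod c (2 ^ x.lev)
      have h2 := Nat.mod_lt c hp
      rw [h] at h1
      constructor
      · rw [mul_comm]; omega
      · have : (x.blk + 1) * 2 ^ x.lev = 2 ^ x.lev * x.blk + 2 ^ x.lev := by ring
        omega
    · rintro ⟨ha, hb⟩
      refine ⟨Nat.zero_le _, ?_⟩
      exact Nat.div_eq_of_lt_le ha hb
  have hsub : blk x.lev x.blk ⊆ range (2 ^ K) := by
    intro c hc
    unfold blk at hc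
    rw [mem_Ico] at hc
    rw [mem_range]
    refine lt_of_lt_of_le hc.2 ?_
    have e : 2 ^ K = 2 ^ (K - x.lev) * 2 ^ x.lev := by
      rw [← pow_add]; congr 1; omega
    rw [e]
    exact Nat.mul_le_mul_right _ (by omega)
  have e1 : ∑ c ∈ range (2 ^ K), G c = ∑ c ∈ blk x.lev x.blk, F * (x.psi c * x.psi c) := by
    rw [← sum_subset hsub]
    · exact sum_congr rfl fun c hc => hG c ((hact c).2 hc)
    · intro c _ hc
      exact hG' c fun h => hc ((hact c).1 h)
  rw [e1, ← mul_sum]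
  refine mul_le_mul_of_nonneg_left ?_ hF
  unfold ip at hunit
  rw [card_blk] at hunit
  have hp' : (0 : ℝ) < ((2 ^ x.lev : ℕ) : ℝ) := by exact_mod_cast hp
  rw [div_le_one hp'] at hunit
  simpa using hunit

/-- iterated submartingale inequality and maximal inequality on one block -/
private theorem dic_doob (F : ℕ → ℕ → ℝ) (hF : ∀ k b, 0 ≤ F k b)
    (hs : ∀ k b, F (k + 1) b ≤ (F k (2 * b) + F k (2 * b + 1)) / 2) (k b : ℕ) :
    2 ^ k * F k b ≤ ∑ c ∈ blk k b, F 0 c := by
  induction k generalizing b with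
  | zero => simp [blk]
  | succ k ih =>
    rw [← dic_blk_union]
    have h1 := ih (2 * b)
    have h2 := ih (2 * b + 1)
    have h3 := hs k b
    have h4 : (0 : ℝ) < 2 ^ k := by positivity
    rw [pow_succ]
    nlinarith

open Classical in
private theorem dic_doob2 (F : ℕ → ℕ → ℝ) (hF : ∀ k b, 0 ≤ F k b)
    (hs : ∀ k b, F (k + 1) b ≤ (F k (2 * b) + F k (2 * b + 1)) / 2) (Γ : ℝ) (hΓ : 0 < Γ)
    (k b : ℕ) :
    Γ * ∑ c ∈ blk k b, (if ∃ j ≤ k, Γ ≤ F j (c / 2 ^ j) then (1 : ℝ) else 0)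
      ≤ ∑ c ∈ blk k b, F 0 c := by
  induction k generalizing b with
  | zero =>
    rw [mul_sum]
    refine sum_le_sum fun c _ => ?_
    split_ifs with h
    · obtain ⟨j, hj, h⟩ := h
      obtain rfl : j = 0 := by omega
      rw [pow_zero, Nat.div_one] at h
      linarith
    · rw [mul_zero]
      exact hF 0 c
  | succ k ih =>
    by_cases hb : Γ ≤ F (k + 1) b
    · refine le_trans ?_ (dic_doob F hF hs (k + 1) b)
      have h1 : ∑ c ∈ blk (k + 1) b, (if ∃ j ≤ k + 1, Γ ≤ F j (c / 2 ^ j) then (1 : ℝ) else 0)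
          ≤ 2 ^ (k + 1) := by
        calc ∑ c ∈ blk (k + 1) b, (if ∃ j ≤ k + 1, Γ ≤ F j (c / 2 ^ j) then (1 : ℝ) else 0)
            ≤ ∑ c ∈ blk (k + 1) b, (1 : ℝ) := by
              refine sum_le_sum fun c _ => ?_
              split_ifs <;> norm_num
          _ = 2 ^ (k + 1) := by
              rw [sum_const, card_blk, nsmul_eq_mul, mul_one]
              push_cast
              rfl
      have h2 : (0 : ℝ) < 2 ^ (k + 1) := by positivity
      calc Γ * ∑ c ∈ blk (k + 1) b, (if ∃ j ≤ k + 1, Γ ≤ F j (c / 2 ^ j) then (1 : ℝ) else 0)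
          ≤ Γ * 2 ^ (k + 1) := mul_le_mul_of_nonneg_left h1 hΓ.le
        _ ≤ 2 ^ (k + 1) * F (k + 1) b := by nlinarith
    · have key : ∀ b', (b' = 2 * b ∨ b' = 2 * b + 1) →
          Γ * ∑ c ∈ blk k b', (if ∃ j ≤ k + 1, Γ ≤ F j (c / 2 ^ j) then (1 : ℝ) else 0)
            ≤ ∑ c ∈ blk k b', F 0 c := by
        intro b' hb'
        refine le_trans (le_of_eq ?_) (ih b')
        congr 1
        refine sum_congr rfl fun c hc => ?_
        have hc1 : c / 2 ^ k = b' := by
          unfold blk at hc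
          rw [mem_Ico] at hc
          exact Nat.div_eq_of_lt_le hc.1 hc.2
        have hc2 : c / 2 ^ (k + 1) = b := by
          rw [pow_succ, ← Nat.div_div_eq_div_mul, hc1]
          omega
        have hiff : (∃ j ≤ k + 1, Γ ≤ F j (c / 2 ^ j)) ↔ (∃ j ≤ k, Γ ≤ F j (c / 2 ^ j)) := by
          constructor
          · rintro ⟨j, hj, h⟩
            rcases Nat.lt_or_ge k j with hk | hk
            · obtain rfl : j = k + 1 := by omega
              rw [hc2] at h
              exact absurd h hb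
            · exact ⟨j, hk, h⟩
          · rintro ⟨j, hj, h⟩
            exact ⟨j, by omega, h⟩
        rw [if_congr hiff rfl rfl]
      rw [← dic_blk_union, ← dic_blk_union, mul_add]
      exact add_le_add (key _ (Or.inl rfl)) (key _ (Or.inr rfl))


/-- `y` is a family of position functions such that `u ↦ y u l` is a bijection for each `l` -/
theorem tr_expect {M : Mod A} {nu : ℕ → A → ℝ} {C : ℕ} (hG : Geo M nu C) (K : ℕ) (τ : ℝ)
    (h0 : 0 < τ) (h1 : τ ≤ 1) (D : Dict A) (hnu : D.nu = nu)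
    (hlev : ∀ i, (D.el i).lev ≤ K)
    (hblk : ∀ i, (D.el i).blk < 2 ^ (K - (D.el i).lev))
    (hunit : ∀ i, ip (blk (D.el i).lev (D.el i).blk) (D.el i).psi (D.el i).psi ≤ 1)
    (y : A → ℕ → A) (hy : ∀ l, Function.Bijective (fun u => y u l)) :
    ∑ c ∈ range (2 ^ K), ∑ u : A, tr τ D 0 c (y u) ≤ W0 C / τ ^ C * wt D := by
  classical
  subst hnu
  have e1 : ∑ c ∈ range (2 ^ K), ∑ u : A, tr τ D 0 c (y u)
      = ∑ i, ∑ u : A, ∑ c ∈ range (2 ^ K),
          ip (blk 0 c) (col τ D 0 c (y u) i) (col τ D 0 c (y u) i) := by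
    unfold tr
    rw [sum_comm]
    rw [sum_congr rfl fun u _ => sum_comm]
    rw [sum_comm]
  have e2 : ∀ i : Fin D.n, ∑ u : A, ∑ c ∈ range (2 ^ K),
      ip (blk 0 c) (col τ D 0 c (y u) i) (col τ D 0 c (y u) i)
      ≤ W0 C / τ ^ C * (vol D.nu (D.el i).lev * 2 ^ (D.el i).lev) := by
    intro i
    have h3 : ∀ u : A, ∑ c ∈ range (2 ^ K),
        ip (blk 0 c) (col τ D 0 c (y u) i) (col τ D 0 c (y u) i)
        ≤ Real.exp (-τ * (D.el i).dist D.nu (y u)) * 2 ^ (D.el i).lev := by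
      intro u
      have hip : ∀ c, ip (blk 0 c) (col τ D 0 c (y u) i) (col τ D 0 c (y u) i)
          = col τ D 0 c (y u) i c * col τ D 0 c (y u) i c := by
        intro c
        unfold ip
        have hb : blk 0 c = {c} := by
          unfold blk
          simp
        rw [hb]
        simp
      refine dic_times K (D.el i) (hlev i) (hblk i) (hunit i) _ (Real.exp_pos _).le _ ?_ ?_
      · intro c hc
        show ip (blk 0 c) (col τ D 0 c (y u) i) (col τ D 0 c (y u) i) = _
        rw [hip, dic_col_act τ D 0 c (y u) i hc]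
        have : Real.exp (-τ * (D.el i).dist D.nu (y u))
            = Real.exp (-(τ / 2) * (D.el i).dist D.nu (y u)) *
              Real.exp (-(τ / 2) * (D.el i).dist D.nu (y u)) := by
          rw [← Real.exp_add]
          congr 1
          ring
        rw [this]
        ring
      · intro c hc
        show ip (blk 0 c) (col τ D 0 c (y u) i) (col τ D 0 c (y u) i) = _
        rw [hip, dic_col_inact τ D 0 c (y u) i hc, mul_zero]
    calc ∑ u : A, ∑ c ∈ range (2 ^ K),
          ip (blk 0 c) (col τ D 0 c (y u) i) (col τ D 0 c (y u) i)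
        ≤ ∑ u : A, Real.exp (-τ * (D.el i).dist D.nu (y u)) * 2 ^ (D.el i).lev :=
          sum_le_sum fun u _ => h3 u
      _ = (∑ u : A, Real.exp (-τ * (D.el i).dist D.nu (y u))) * 2 ^ (D.el i).lev := by
          rw [sum_mul]
      _ ≤ (W0 C / τ ^ C * vol D.nu (D.el i).lev) * 2 ^ (D.el i).lev :=
          mul_le_mul_of_nonneg_right (dic_weight hG τ h0 h1 (D.el i) y hy) (by positivity)
      _ = _ := by ring
  rw [e1]
  refine (sum_le_sum fun i _ => e2 i).trans (le_of_eq ?_)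
  unfold wt
  rw [← mul_sum]

open Classical in
theorem tr_doob {M : Mod A} {nu : ℕ → A → ℝ} {C : ℕ} (hG : Geo M nu C) (K : ℕ) (τ : ℝ)
    (h0 : 0 < τ) (h1 : τ ≤ 1) (D : Dict A) (hnu : D.nu = nu)
    (hlev : ∀ i, (D.el i).lev ≤ K)
    (hblk : ∀ i, (D.el i).blk < 2 ^ (K - (D.el i).lev))
    (hunit : ∀ i, ip (blk (D.el i).lev (D.el i).blk) (D.el i).psi (D.el i).psi ≤ 1)
    (y : A → ℕ → A) (hy : ∀ l, Function.Bijective (fun u => y u l)) (Γ : ℝ) (hΓ : 0 < Γ) :
    ∑ c ∈ range (2 ^ K), ∑ u : A,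
        (if ∃ k ≤ K, Γ ≤ tr τ D k (c / 2 ^ k) (y u) then (1 : ℝ) else 0) ≤
      W0 C / τ ^ C * wt D / Γ := by
  have h1' := tr_expect hG K τ h0 h1 D hnu hlev hblk hunit y hy
  rw [le_div_iff₀ hΓ]
  refine le_trans ?_ h1'
  rw [sum_comm, mul_comm, mul_sum]
  rw [sum_comm (s := range (2 ^ K)) (t := (univ : Finset A))]
  refine sum_le_sum fun u _ => ?_
  have h := dic_doob2 (fun k b => tr τ D k b (y u)) (fun k b => tr_nonneg τ D k b (y u))
    (fun k b => tr_children τ D k b (y u)) Γ hΓ K 0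
  have hb : blk K 0 = range (2 ^ K) := by
    unfold blk
    rw [zero_mul, zero_add, one_mul, range_eq_Ico]
  rw [hb] at h
  convert h using 3

end

/-! ### positions -/

section
variable (M : Mod A)

theorem pT_bij (l : ℕ) : Function.Bijective (fun u : A => M.pT u l) := by
  unfold Mod.pT
  exact (M.s ^ l).bijective.comp (Group.mulLeft_bijective (M.th l))

theorem pS_bij (l : ℕ) : Function.Bijective (fun v : A => M.pS v l) := by
  unfold Mod.pS
  exact (M.s ^ l).bijective

theorem pS_add (v : A) (l j : ℕ) : M.pS v (l + j) = (M.s ^ j) (M.pS v l) := by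
  unfold Mod.pS
  rw [← MulAut.mul_apply, ← pow_add, add_comm]

theorem pT_add (u : A) (l j : ℕ) : M.pT u (l + j) = (M.s ^ j) (M.th j * M.pT u l) := by
  unfold Mod.pT
  rw [M.th_add, map_mul, map_mul, map_mul, map_mul]
  have e1 : (M.s ^ (l + j)) ((M.s ^ l)⁻¹ (M.th j)) = (M.s ^ j) (M.th j) := by
    rw [← MulAut.mul_apply]
    congr 1
    rw [add_comm, pow_add]
    group
  have e2 : ∀ x : A, (M.s ^ (l + j)) x = (M.s ^ j) ((M.s ^ l) x) := fun x => by
    rw [← MulAut.mul_apply, ← pow_add, add_comm]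
  rw [e1, e2, e2, map_mul, mul_assoc]

end

section
variable [Fintype A] {M : Mod A} {nu : ℕ → A → ℝ} {C : ℕ}

theorem nu_anti (hG : Geo M nu C) (k j : ℕ) (x : A) : nu (k + j) x ≤ nu k x := by
  induction j with
  | zero => exact le_rfl
  | succ j ih =>
    have h1 := hG.up (k + j) x
    have h2 := hG.nonneg (k + j) x
    rw [← add_assoc]
    linarith

/-- tied pairs are near -/
theorem near_tied (hG : Geo M nu C) (k c : ℕ) (u : A) :
    near M nu k (c / 2 ^ k) C u (M.th c * u) := by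
  unfold near
  have hp : 0 < 2 ^ k := Nat.pos_of_ne_zero (by positivity)
  have h1 := Nat.div_add_mod c (2 ^ k)
  have h2 := Nat.mod_lt c hp
  have hc : c = c / 2 ^ k * 2 ^ k + c % 2 ^ k := by rw [mul_comm]; omega
  have e : M.pS (M.th c * u) (c / 2 ^ k * 2 ^ k) =
      M.th (c % 2 ^ k) * M.pT u (c / 2 ^ k * 2 ^ k) := by
    have := pS_tied M (c / 2 ^ k * 2 ^ k) (c % 2 ^ k) u
    rwa [← hc] at this
  rw [e, mul_inv_cancel_right]
  exact hG.th_le k _ h2.le

/-- shift on the side of the `S`-object -/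
theorem near_shift (hG : Geo M nu C) (k b : ℕ) (r r' : ℝ) (u v x : A)
    (h : near M nu k b r u v) (hx : nu k x ≤ r') :
    near M nu k b (r + r') u ((M.s ^ (b * 2 ^ k))⁻¹ x * v) := by
  unfold near at h ⊢
  have e : M.pS ((M.s ^ (b * 2 ^ k))⁻¹ x * v) (b * 2 ^ k) = x * M.pS v (b * 2 ^ k) := by
    rw [pS_mul]
    unfold Mod.aS
    rw [← MulAut.mul_apply, mul_inv_cancel, MulAut.one_apply]
  rw [e, mul_assoc]
  have := hG.mul k x (M.pS v (b * 2 ^ k) * (M.pT u (b * 2 ^ k))⁻¹)
  linarith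

/-- the mirror model has the same near pairs -/
theorem near_sw (hinv : ∀ k x, nu k x⁻¹ = nu k x) (k b : ℕ) (r : ℝ) (u v : A) :
    near M.sw nu k b r v u ↔ near M nu k b r u v := by
  unfold near
  have e : M.sw.pS u (b * 2 ^ k) * (M.sw.pT v (b * 2 ^ k))⁻¹
      = (M.pS v (b * 2 ^ k) * (M.pT u (b * 2 ^ k))⁻¹)⁻¹ := by
    set l := b * 2 ^ k with hl
    have h1 : ∀ w : A, M.sw.pS w l = M.aT l w := fun w => by
      have := sw_aS M l
      unfold Mod.aS at this
      unfold Mod.pS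
      rw [this]
    have h2 : M.sw.pT v l = M.aT l ((M.th l)⁻¹ * v) := by
      have := sw_aS M l
      unfold Mod.aS at this
      unfold Mod.pT
      rw [this]
      rfl
    rw [h1, h2]
    unfold Mod.pS Mod.pT Mod.aT
    simp only [MulAut.mul_apply, MulAut.conj_apply, map_mul, map_inv]
    group
  rw [e, hinv]

theorem near_mono {k b : ℕ} {r r' : ℝ} {u v : A} (h : near M nu k b r u v) (hr : r ≤ r') :
    near M nu k b r' u v := le_trans h hr

/-- near pairs have almost equal distances to the active elements -/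
theorem near_dist (hG : Geo M nu C) (k b : ℕ) (r : ℝ) (u v : A) (h : near M nu k b r u v)
    (x : Elem A) (hx : x.act k b) :
    |x.dist nu (M.pS v) - x.dist nu (M.pT u)| ≤ C * (r + 1) := by
  obtain ⟨hk, hb⟩ := hx
  unfold near at h
  have hp : 0 < 2 ^ (x.lev - k) := Nat.pos_of_ne_zero (by positivity)
  have h1 := Nat.div_add_mod b (2 ^ (x.lev - k))
  have h2 := Nat.mod_lt b hp
  rw [hb] at h1
  set j : ℕ := b % 2 ^ (x.lev - k) * 2 ^ k with hj
  set l : ℕ := x.blk * 2 ^ x.lev with hl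
  have e2 : (2 : ℕ) ^ x.lev = 2 ^ (x.lev - k) * 2 ^ k := by
    rw [← pow_add]; congr 1; omega
  have hbl : b * 2 ^ k = l + j := by
    rw [hl, hj, e2]
    conv_lhs => rw [← h1]
    ring
  have hj2 : j ≤ 2 ^ x.lev := by
    rw [hj, e2]
    exact Nat.mul_le_mul_right _ h2.le
  rw [hbl] at h
  set g : A := M.pS v (l + j) * (M.pT u (l + j))⁻¹ with hg
  have eg : M.pS v l * (M.pT u l)⁻¹ = (M.s ^ j)⁻¹ g * M.th j := by
    rw [hg, pS_add, pT_add, ← map_inv, ← map_mul, ← MulAut.mul_apply, inv_mul_cancel,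
      MulAut.one_apply]
    group
  have b1 : nu x.lev (M.pS v l * (M.pT u l)⁻¹) ≤ C * (r + 1) := by
    rw [eg]
    have c1 := hG.mul x.lev ((M.s ^ j)⁻¹ g) (M.th j)
    have c2 := hG.s_inv_le x.lev j hj2 g
    have c3 := hG.th_le x.lev j hj2
    have c4 : nu x.lev g ≤ nu k g := by
      have := nu_anti hG k (x.lev - k) g
      rwa [Nat.add_sub_cancel' hk] at this
    have c5 : (0 : ℝ) ≤ C := Nat.cast_nonneg _
    have c6 := mul_le_mul_of_nonneg_left (c4.trans h) c5
    linarith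
  have b2 : nu x.lev (M.pT u l * (M.pS v l)⁻¹) ≤ C * (r + 1) := by
    rw [← hG.inv, mul_inv_rev, inv_inv]
    exact b1
  have d1 : x.dist nu (M.pS v) ≤ x.dist nu (M.pT u) + C * (r + 1) := by
    unfold Elem.dist
    rw [← hl]
    have e : M.pS v l * x.loc⁻¹ = (M.pS v l * (M.pT u l)⁻¹) * (M.pT u l * x.loc⁻¹) := by group
    rw [e]
    have := hG.mul x.lev (M.pS v l * (M.pT u l)⁻¹) (M.pT u l * x.loc⁻¹)
    linarith
  have d2 : x.dist nu (M.pT u) ≤ x.dist nu (M.pS v) + C * (r + 1) := by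
    unfold Elem.dist
    rw [← hl]
    have e : M.pT u l * x.loc⁻¹ = (M.pT u l * (M.pS v l)⁻¹) * (M.pS v l * x.loc⁻¹) := by group
    rw [e]
    have := hG.mul x.lev (M.pT u l * (M.pS v l)⁻¹) (M.pS v l * x.loc⁻¹)
    linarith
  rw [abs_le]
  constructor <;> linarith

/-- ratio of the columns of near objects -/
theorem col_ratio (hG : Geo M nu C) (τ : ℝ) (h0 : 0 ≤ τ) (h1 : 3 * C ^ 2 * τ ≤ 1 / 10)
    (D : Dict A) (hnu : D.nu = nu) (k b : ℕ) (u v : A) (h : near M nu k b (C + 1) u v) :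
    ∃ ρ : Fin D.n → ℝ, (∀ i, |ρ i - 1| ≤ 2 * (3 * C ^ 2 * τ)) ∧
      ∀ i t, col τ D k b (M.pS v) i t = ρ i * col τ D k b (M.pT u) i t := by
  classical
  refine ⟨fun i => if (D.el i).act k b then
    Real.exp (-(τ / 2) * ((D.el i).dist nu (M.pS v) - (D.el i).dist nu (M.pT u)))
    else 1, ?_, ?_⟩
  · intro i
    show |(if (D.el i).act k b then
      Real.exp (-(τ / 2) * ((D.el i).dist nu (M.pS v) - (D.el i).dist nu (M.pT u)))
      else 1) - 1| ≤ 2 * (3 * C ^ 2 * τ)
    have hC : (1 : ℝ) ≤ C := by exact_mod_cast hG.one_le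
    split_ifs with h
    · have hd := near_dist hG k b (C + 1) u v ‹_› (D.el i) h
      set s := (D.el i).dist nu (M.pS v) - (D.el i).dist nu (M.pT u) with hs
      have hd' : |s| ≤ 3 * C ^ 2 := by
        refine hd.trans ?_
        nlinarith
      set σ : ℝ := 3 * C ^ 2 * τ with hσ
      have hσ0 : 0 ≤ σ := by positivity
      have hx : |-(τ / 2) * s| ≤ σ / 2 := by
        rw [abs_mul, abs_neg, abs_of_nonneg (by linarith : (0 : ℝ) ≤ τ / 2)]
        have := mul_le_mul_of_nonneg_left hd' (by linarith : (0 : ℝ) ≤ τ / 2)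
        rw [hσ]
        linarith
      have hx1 : |-(τ / 2) * s| ≤ 1 := by linarith
      have hq := Real.abs_exp_sub_one_sub_id_le hx1
      have hq2 : |Real.exp (-(τ / 2) * s) - 1| ≤ |-(τ / 2) * s| + (-(τ / 2) * s) ^ 2 := by
        have := abs_add_le (Real.exp (-(τ / 2) * s) - 1 - (-(τ / 2) * s)) (-(τ / 2) * s)
        rw [sub_add_cancel] at this
        linarith
      have hq3 : (-(τ / 2) * s) ^ 2 ≤ (σ / 2) ^ 2 := by
        rw [← sq_abs]
        exact pow_le_pow_left₀ (abs_nonneg _) hx 2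
      nlinarith
    · rw [sub_self, abs_zero]
      positivity
  · intro i t
    show _ = (if (D.el i).act k b then
      Real.exp (-(τ / 2) * ((D.el i).dist nu (M.pS v) - (D.el i).dist nu (M.pT u)))
      else 1) * _
    by_cases h : (D.el i).act k b
    · rw [if_pos h, dic_col_act τ D k _ _ i h, dic_col_act τ D k _ _ i h, ← mul_assoc,
        ← Real.exp_add, hnu]
      congr 2
      ring
    · rw [if_neg h, dic_col_inact τ D k _ _ i h, dic_col_inact τ D k _ _ i h, mul_zero]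

end

end

end NPG
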