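import Mathlib

set_option autoImplicit false

/-!
# NPG / EAF : abstract families of almost orthogonal operators, classes

`V` is a real inner product space (not necessarily complete); operators are linear maps.

* `AF P C` : `P w` (`w : ℤ`) symmetric, `0 ≤ P w ≤ 1`, `‖P (w+n) (1 - P w)‖ ≤ C 2^(-n)` and adjoint.
* `Tst P k y L` : `L = 1` (`y = 0`), `L = P (k + y)` or `L = 1 - P (k - y)`.
* `Cls PL PR kl kr A D` : `‖L D R‖ ≤ A rho^yl rho^yr` for all tests.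
* `Dl P r w = P (w - r) - P (w + r)`, `eV P r n k x = ∑_(|j| ≤ n) 2 2^(-|j|) ‖Dl P r (k + j r) x‖`.

PROOFS.  For a symmetric `0 ≤ T ≤ 1`: Cauchy-Schwarz for the form `⟪T x, y⟫` gives
`⟪T x, y⟫^2 ≤ ⟪T x, x⟫ ⟪T y, y⟫`; with `y = T x`: `‖T x‖^2 ≤ ⟪T x, x⟫ ≤ ‖x‖^2`.  Apply this to `P w` and `1 - P w`.
`norm_Dl`: `Dl` is symmetric with `-1 ≤ Dl ≤ 1`, so `‖Dl x‖ ≤ ‖x‖`: for symmetric `T` with `|⟪T x, x⟫| ≤ ‖x‖^2` one has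
`‖T x‖ ≤ ‖x‖` (polarisation: `4 ⟪T x, y⟫ = ⟪T (x+y), x+y⟫ - ⟪T (x-y), x-y⟫ ≤ ‖x+y‖^2 + ‖x-y‖^2 = 2 (‖x‖^2 + ‖y‖^2)`, take
`y = (‖x‖ / ‖T x‖) T x`).
`dl_sq`: with `P = P (w - r)`, `R = P (w + r)`: `⟪x, (P - R) x⟫ + 2 ⟪x, (1 - P) R x⟫ - ‖(P - R) x‖^2 =
⟪x, P (1 - P) x⟫ + ⟪x, R (1 - R) x⟫ ≥ 0` (`⟪x, P (1-P) x⟫ = ⟪P x, x⟫ - ‖P x‖^2 ≥ 0`; symmetry:
`⟪x, P R x⟫ = ⟪x, R P x⟫`).
-/

namespace NPG
open Finset

noncomputable section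

variable {V : Type} [NormedAddCommGroup V] [InnerProductSpace ℝ V]

/-- almost orthogonal families -/
structure AF (P : ℤ → (V →ₗ[ℝ] V)) (C : ℝ) : Prop where
  symm : ∀ w x y, inner ℝ (P w x) y = inner ℝ x (P w y)
  nonneg : ∀ w x, 0 ≤ inner ℝ (P w x) x
  le_one : ∀ w x, inner ℝ (P w x) x ≤ ‖x‖ ^ 2
  ao : ∀ (w : ℤ) (n : ℕ) x, ‖P (w + n) (x - P w x)‖ ≤ C * ((2 : ℝ) ^ n)⁻¹ * ‖x‖
  ao' : ∀ (w : ℤ) (n : ℕ) x, ‖P (w + n) x - P w (P (w + n) x)‖ ≤ C * ((2 : ℝ) ^ n)⁻¹ * ‖x‖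

/-- `2^(-1/6)` -/
def rho : ℝ := (2 : ℝ) ^ (-(1 / 6) : ℝ)

/-- tests relative to the level `k` -/
def Tst (P : ℤ → (V →ₗ[ℝ] V)) (k : ℤ) (y : ℕ) (L : V →ₗ[ℝ] V) : Prop :=
  (y = 0 ∧ L = LinearMap.id) ∨ L = P (k + y) ∨ L = LinearMap.id - P (k - y)

/-- classes -/
def Cls (PL PR : ℤ → (V →ₗ[ℝ] V)) (kl kr : ℤ) (A : ℝ) (D : V →ₗ[ℝ] V) : Prop :=
  ∀ (yl yr : ℕ) (L R : V →ₗ[ℝ] V), Tst PL kl yl L → Tst PR kr yr R → ∀ x,
    ‖L (D (R x))‖ ≤ A * rho ^ yl * rho ^ yr * ‖x‖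

/-- difference of two levels -/
def Dl (P : ℤ → (V →ₗ[ℝ] V)) (r : ℕ) (w : ℤ) : V →ₗ[ℝ] V := P (w - r) - P (w + r)

/-- weighted sum of the differences -/
def eV (P : ℤ → (V →ₗ[ℝ] V)) (r n : ℕ) (k : ℤ) (x : V) : ℝ :=
  ∑ j ∈ Icc (-(n : ℤ)) n, 2 * ((2 : ℝ) ^ j.natAbs)⁻¹ * ‖Dl P r (k + j * r) x‖

variable {P : ℤ → (V →ₗ[ℝ] V)} {C : ℝ}

/-- a symmetric nonnegative form which is at most `‖x‖ ^ 2`: `‖T x‖ ^ 2 ≤ ⟪T x, x⟫` -/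
private theorem sq_le_of_pos (T : V →ₗ[ℝ] V) (hs : ∀ x y, inner ℝ (T x) y = inner ℝ x (T y))
    (h0 : ∀ x, 0 ≤ inner ℝ (T x) x) (h1 : ∀ x, inner ℝ (T x) x ≤ ‖x‖ ^ 2) (x : V) :
    ‖T x‖ ^ 2 ≤ inner ℝ (T x) x := by
  have h2 := h0 (x - T x)
  have h3 := h1 (T x)
  have e1 : inner ℝ (T (x - T x)) (x - T x) =
      inner ℝ (T x) x - 2 * ‖T x‖ ^ 2 + inner ℝ (T (T x)) (T x) := by
    rw [map_sub, inner_sub_left, inner_sub_right, inner_sub_right]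
    have e2 : inner ℝ (T (T x)) x = ‖T x‖ ^ 2 := by
      rw [hs (T x) x, real_inner_self_eq_norm_sq]
    have e3 : inner ℝ (T x) (T x) = ‖T x‖ ^ 2 := real_inner_self_eq_norm_sq _
    rw [e2, e3]; ring
  linarith

/-- a symmetric operator with `|⟪T x, x⟫| ≤ ‖x‖ ^ 2` is a contraction -/
private theorem norm_le_of_abs (T : V →ₗ[ℝ] V) (hs : ∀ x y, inner ℝ (T x) y = inner ℝ x (T y))
    (h0 : ∀ x, -‖x‖ ^ 2 ≤ inner ℝ (T x) x) (h1 : ∀ x, inner ℝ (T x) x ≤ ‖x‖ ^ 2) (x : V) :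
    ‖T x‖ ≤ ‖x‖ := by
  by_cases hT : ‖T x‖ = 0
  · rw [hT]; exact norm_nonneg x
  have hT0 : 0 < ‖T x‖ := lt_of_le_of_ne (norm_nonneg _) (Ne.symm hT)
  set c : ℝ := ‖x‖ / ‖T x‖ with hc
  set y : V := c • T x with hy
  have hc0 : 0 ≤ c := div_nonneg (norm_nonneg _) (norm_nonneg _)
  have ny : ‖y‖ = ‖x‖ := by
    rw [hy, norm_smul, Real.norm_eq_abs, abs_of_nonneg hc0, hc]
    field_simp
  have e1 : 4 * inner ℝ (T x) y =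
      inner ℝ (T (x + y)) (x + y) - inner ℝ (T (x - y)) (x - y) := by
    rw [map_add, map_sub, inner_add_left, inner_add_right, inner_add_right, inner_sub_left,
      inner_sub_right, inner_sub_right]
    have e2 : inner ℝ (T y) x = inner ℝ (T x) y := by
      rw [hs y x, real_inner_comm]
    rw [e2]; ring
  have h2 := h1 (x + y)
  have h3 := h0 (x - y)
  have h4 : ‖x + y‖ ^ 2 + ‖x - y‖ ^ 2 = 2 * (‖x‖ ^ 2 + ‖y‖ ^ 2) := by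
    have := parallelogram_law_with_norm ℝ x y
    nlinarith [this]
  have h5 : inner ℝ (T x) y ≤ ‖x‖ ^ 2 := by
    rw [ny] at h4
    linarith
  have e3 : inner ℝ (T x) y = ‖x‖ * ‖T x‖ := by
    rw [hy, real_inner_smul_right, real_inner_self_eq_norm_sq, hc]
    field_simp
  rw [e3] at h5
  by_cases hx : ‖x‖ = 0
  · have hx0 : x = 0 := norm_eq_zero.1 hx
    rw [hx0, map_zero]
  have hx0 : 0 < ‖x‖ := lt_of_le_of_ne (norm_nonneg _) (Ne.symm hx)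
  have h6 : ‖x‖ * ‖T x‖ ≤ ‖x‖ * ‖x‖ := by nlinarith
  exact le_of_mul_le_mul_left h6 hx0

theorem AF.sq_le (h : AF P C) (w : ℤ) (x : V) : ‖P w x‖ ^ 2 ≤ inner ℝ (P w x) x :=
  sq_le_of_pos (P w) (h.symm w) (h.nonneg w) (h.le_one w) x

theorem AF.norm_le (h : AF P C) (w : ℤ) (x : V) : ‖P w x‖ ≤ ‖x‖ :=
  norm_le_of_abs (P w) (h.symm w) (fun y => by nlinarith [h.nonneg w y, sq_nonneg ‖y‖])
    (h.le_one w) x

theorem AF.norm_sub_le (h : AF P C) (w : ℤ) (x : V) : ‖x - P w x‖ ≤ ‖x‖ := by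
  have h1 := h.sq_le w x
  have h2 := h.nonneg w x
  have e1 : ‖x - P w x‖ ^ 2 = ‖x‖ ^ 2 - 2 * inner ℝ (P w x) x + ‖P w x‖ ^ 2 := by
    rw [norm_sub_sq_real, real_inner_comm]
  have h3 : ‖x - P w x‖ ^ 2 ≤ ‖x‖ ^ 2 := by linarith
  exact le_of_sq_le_sq h3 (norm_nonneg _)

theorem AF.norm_Dl (h : AF P C) (r : ℕ) (w : ℤ) (x : V) : ‖Dl P r w x‖ ≤ ‖x‖ := by
  refine norm_le_of_abs (Dl P r w) ?_ ?_ ?_ x
  · intro x y
    simp only [Dl, LinearMap.sub_apply, inner_sub_left, inner_sub_right]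
    rw [h.symm, h.symm]
  · intro x
    simp only [Dl, LinearMap.sub_apply, inner_sub_left]
    have h1 := h.nonneg (w - r) x
    have h2 := h.le_one (w + r) x
    linarith
  · intro x
    simp only [Dl, LinearMap.sub_apply, inner_sub_left]
    have h1 := h.le_one (w - r) x
    have h2 := h.nonneg (w + r) x
    linarith

theorem AF.dl_sq (h : AF P C) (r : ℕ) (w : ℤ) (x : V) :
    ‖Dl P r w x‖ ^ 2 ≤ inner ℝ x (Dl P r w x) +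
      2 * inner ℝ x (P (w + r) x - P (w - r) (P (w + r) x)) := by
  have h1 := h.sq_le (w - r) x
  have h2 := h.sq_le (w + r) x
  simp only [Dl, LinearMap.sub_apply, inner_sub_right]
  rw [norm_sub_sq_real]
  have e1 : inner ℝ x (P (w - r) (P (w + r) x)) = inner ℝ (P (w - r) x) (P (w + r) x) := by
    rw [h.symm]
  have e2 : inner ℝ x (P (w - r) x) = inner ℝ (P (w - r) x) x := real_inner_comm _ _
  have e3 : inner ℝ x (P (w + r) x) = inner ℝ (P (w + r) x) x := real_inner_comm _ _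
  rw [e1, e2, e3]
  linarith

end

end NPG
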