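import Pool.Agent.NPG.ESqf

set_option autoImplicit false

/-!
# NPG / EAbs : sums of pairings

PROOF.  `r` = the maximum of the `r0` of `walk` and `sqf`.  The term `k = K` vanishes (`y (K+1) = 0`); for `k < K` put
`k' = k + 1 ∈ Icc k1 K`: `walk` (at the levels `kl = kr = k = k' - 1`) bounds it by
`A (eV PL r n k (x k') eV PR r n k (y k') + 7 2^(-n) ‖x k'‖ ‖y k'‖)`.  Cauchy-Schwarz over `k`, `eV_sq_le` and `sqf` (with the shifts
`s = j r - 1`): `∑_k eV^2 ≤ 36 * 8 r t`.  So the sum is at most `A (288 r √(tx ty) + 7 2^(-n) ∑ ..)`; `n → ∞`.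
(`tx, ty ≥ 0` follows from `sqf`.)
-/

namespace NPG
open Finset

private lemma ab_sum_Icc_succ (f : ℤ → ℝ) (n : ℕ) : ∑ j ∈ Icc (-((n + 1 : ℕ) : ℤ)) ((n + 1 : ℕ) : ℤ), f j =
    ∑ j ∈ Icc (-(n : ℤ)) n, f j + f ((n : ℤ) + 1) + f (-((n : ℤ) + 1)) := by
  have h : Icc (-((n + 1 : ℕ) : ℤ)) ((n + 1 : ℕ) : ℤ) =
      insert (-((n : ℤ) + 1)) (insert ((n : ℤ) + 1) (Icc (-(n : ℤ)) n)) := by
    ext j
    simp only [Finset.mem_Icc, Finset.mem_insert]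
    push_cast
    omega
  rw [h, Finset.sum_insert, Finset.sum_insert]
  · ring
  · simp
  · simp only [Finset.mem_insert, Finset.mem_Icc]
    omega

private lemma ab_sum_cw (n : ℕ) : ∑ j ∈ Icc (-(n : ℤ)) n, 2 * ((2 : ℝ) ^ j.natAbs)⁻¹ = 6 - 4 * ((2 : ℝ) ^ n)⁻¹ := by
  induction n with
  | zero => simp; norm_num
  | succ n ih =>
    rw [ab_sum_Icc_succ, ih, Int.natAbs_neg]
    have e : (n : ℤ) + 1 = ((n + 1 : ℕ) : ℤ) := by push_cast; ring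
    rw [e, Int.natAbs_natCast, pow_succ, mul_inv]
    ring

private lemma ab_sum_cw_le (n : ℕ) : ∑ j ∈ Icc (-(n : ℤ)) n, 2 * ((2 : ℝ) ^ j.natAbs)⁻¹ ≤ 6 := by
  rw [ab_sum_cw]
  have : (0 : ℝ) < ((2 : ℝ) ^ n)⁻¹ := by positivity
  linarith

/-- the square sum of the shifted process -/
private lemma ab_sq {V : Type} [NormedAddCommGroup V] [InnerProductSpace ℝ V] {P : ℤ → (V →ₗ[ℝ] V)} {r : ℕ}
    {x : ℕ → V} {k1 K : ℕ} {t : ℝ}
    (h : ∀ s : ℤ, ∑ k ∈ Icc k1 K, ‖Dl P r (k + s) (x k)‖ ^ 2 ≤ 8 * r * t) (n : ℕ) :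
    ∑ k ∈ Ico k1 K, eV P r n k (x (k + 1)) ^ 2 ≤ 288 * r * t := by
  have h0 : 0 ≤ 8 * (r : ℝ) * t := (Finset.sum_nonneg fun k _ => sq_nonneg _).trans (h 0)
  have h1 : ∑ k ∈ Ico k1 K, eV P r n k (x (k + 1)) ^ 2 ≤
      ∑ k ∈ Ico k1 K, 6 * ∑ j ∈ Icc (-(n : ℤ)) n, 2 * ((2 : ℝ) ^ j.natAbs)⁻¹ *
        ‖Dl P r (k + j * r) (x (k + 1))‖ ^ 2 := Finset.sum_le_sum fun k _ => eV_sq_le P r n k (x (k + 1))
  have h2 : ∑ k ∈ Ico k1 K, 6 * ∑ j ∈ Icc (-(n : ℤ)) n, 2 * ((2 : ℝ) ^ j.natAbs)⁻¹ *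
        ‖Dl P r (k + j * r) (x (k + 1))‖ ^ 2 =
      6 * ∑ j ∈ Icc (-(n : ℤ)) n, 2 * ((2 : ℝ) ^ j.natAbs)⁻¹ *
        ∑ k ∈ Ico k1 K, ‖Dl P r (k + j * r) (x (k + 1))‖ ^ 2 := by
    rw [← Finset.mul_sum, Finset.sum_comm]
    congr 1
    refine Finset.sum_congr rfl fun j _ => ?_
    rw [Finset.mul_sum]
  have h3 : ∀ j : ℤ, ∑ k ∈ Ico k1 K, ‖Dl P r (k + j * r) (x (k + 1))‖ ^ 2 ≤ 8 * r * t := by
    intro j
    refine le_trans ?_ (h (j * r - 1))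
    have e1 : ∑ k ∈ Ico k1 K, ‖Dl P r (k + j * r) (x (k + 1))‖ ^ 2 =
        ∑ k ∈ (Ico k1 K).image (fun k : ℕ => (k + 1 : ℕ)), ‖Dl P r ((k : ℤ) + (j * r - 1)) (x k)‖ ^ 2 := by
      rw [Finset.sum_image fun a _ b _ hab => by
        have : a + 1 = b + 1 := hab
        omega]
      refine Finset.sum_congr rfl fun k _ => ?_
      have e2 : ((k + 1 : ℕ) : ℤ) + (j * r - 1) = k + j * r := by push_cast; ring
      rw [e2]
    rw [e1]
    refine Finset.sum_le_sum_of_subset_of_nonneg ?_ fun _ _ _ => sq_nonneg _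
    intro k hk
    obtain ⟨m, hm, rfl⟩ := Finset.mem_image.1 hk
    rw [Finset.mem_Ico] at hm
    rw [Finset.mem_Icc]
    omega
  have h4 : ∑ j ∈ Icc (-(n : ℤ)) n, 2 * ((2 : ℝ) ^ j.natAbs)⁻¹ *
        ∑ k ∈ Ico k1 K, ‖Dl P r (k + j * r) (x (k + 1))‖ ^ 2 ≤
      ∑ j ∈ Icc (-(n : ℤ)) n, 2 * ((2 : ℝ) ^ j.natAbs)⁻¹ * (8 * r * t) :=
    Finset.sum_le_sum fun j _ => mul_le_mul_of_nonneg_left (h3 j) (by positivity)
  rw [← Finset.sum_mul] at h4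
  have h5 := mul_le_mul_of_nonneg_right (ab_sum_cw_le n) h0
  rw [h2] at h1
  refine h1.trans ?_
  nlinarith

theorem abs_total (C : ℝ) (hC : 1 ≤ C) : ∃ C' : ℝ, 1 ≤ C' ∧ ∀ (V : Type)
    [NormedAddCommGroup V] [InnerProductSpace ℝ V] (PL PR : ℤ → (V →ₗ[ℝ] V)), AF PL C → AF PR C →
    ∀ (x y : ℕ → V) (k1 K : ℕ) (tx ty A : ℝ) (D : ℕ → (V →ₗ[ℝ] V)), k1 ≤ K →
      En PL x k1 K tx → En PR y k1 K ty → 0 ≤ A →
      (∀ k, k1 ≤ k → k < K → Cls PL PR k k A (D k)) →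
      |∑ k ∈ Icc k1 K, inner ℝ (x (k + 1)) (D k (y (k + 1)))| ≤
        C' * A * (Real.sqrt tx * Real.sqrt ty) := by
  obtain ⟨r1, hr1, hw⟩ := walk C
  obtain ⟨r2, hr2, hs⟩ := sqf C hC
  set r := max r1 r2 with hr
  have hr1' : r1 ≤ r := le_max_left _ _
  have hr2' : r2 ≤ r := le_max_right _ _
  have hrpos : (1 : ℝ) ≤ r := by exact_mod_cast hr1.trans hr1'
  refine ⟨288 * r, by linarith, ?_⟩
  intro V _ _ PL PR hPL hPR x y k1 K tx ty A D hk hx hy hA hD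
  have sx := hs V PL hPL r hr2' x k1 K tx hk hx
  have sy := hs V PR hPR r hr2' y k1 K ty hk hy
  have htx : 0 ≤ tx := by
    have h1 := (Finset.sum_nonneg fun k _ => sq_nonneg _).trans (sx 0)
    by_contra hneg
    have : 8 * (r : ℝ) * tx < 0 := mul_neg_of_pos_of_neg (by linarith) (not_le.mp hneg)
    linarith
  have hty : 0 ≤ ty := by
    have h1 := (Finset.sum_nonneg fun k _ => sq_nonneg _).trans (sy 0)
    by_contra hneg
    have : 8 * (r : ℝ) * ty < 0 := mul_neg_of_pos_of_neg (by linarith) (not_le.mp hneg)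
    linarith
  -- the last term vanishes
  have hlast : ∑ k ∈ Icc k1 K, inner ℝ (x (k + 1)) (D k (y (k + 1))) =
      ∑ k ∈ Ico k1 K, inner ℝ (x (k + 1)) (D k (y (k + 1))) := by
    rw [← Finset.Ico_insert_right hk, Finset.sum_insert Finset.right_notMem_Ico, hx.1, inner_zero_left, zero_add]
  rw [hlast]
  set R := ∑ k ∈ Ico k1 K, ‖x (k + 1)‖ * ‖y (k + 1)‖ with hR
  have hR0 : 0 ≤ R := Finset.sum_nonneg fun k _ => mul_nonneg (norm_nonneg _) (norm_nonneg _)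
  have key : ∀ n : ℕ, |∑ k ∈ Ico k1 K, inner ℝ (x (k + 1)) (D k (y (k + 1)))| ≤
      288 * r * A * (Real.sqrt tx * Real.sqrt ty) + 7 * A * R * ((2 : ℝ) ^ n)⁻¹ := by
    intro n
    have a1 : |∑ k ∈ Ico k1 K, inner ℝ (x (k + 1)) (D k (y (k + 1)))| ≤
        ∑ k ∈ Ico k1 K, A * (eV PL r n k (x (k + 1)) * eV PR r n k (y (k + 1)) +
          7 * ((2 : ℝ) ^ n)⁻¹ * ‖x (k + 1)‖ * ‖y (k + 1)‖) := by
      refine (Finset.abs_sum_le_sum_abs _ _).trans (Finset.sum_le_sum fun k hk' => ?_)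
      rw [Finset.mem_Ico] at hk'
      exact hw V PL PR hPL hPR r hr1' k k A (D k) hA (hD k hk'.1 hk'.2) n _ _
    have a2 : ∑ k ∈ Ico k1 K, A * (eV PL r n k (x (k + 1)) * eV PR r n k (y (k + 1)) +
          7 * ((2 : ℝ) ^ n)⁻¹ * ‖x (k + 1)‖ * ‖y (k + 1)‖) =
        A * ∑ k ∈ Ico k1 K, eV PL r n k (x (k + 1)) * eV PR r n k (y (k + 1)) +
          7 * A * R * ((2 : ℝ) ^ n)⁻¹ := by
      rw [hR, Finset.mul_sum, Finset.mul_sum, Finset.sum_mul, ← Finset.sum_add_distrib]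
      refine Finset.sum_congr rfl fun k _ => ?_
      ring
    have bx := ab_sq sx n
    have by' := ab_sq sy n
    have a3 : ∑ k ∈ Ico k1 K, eV PL r n k (x (k + 1)) * eV PR r n k (y (k + 1)) ≤
        288 * r * (Real.sqrt tx * Real.sqrt ty) := by
      have h1 := Finset.sum_mul_sq_le_sq_mul_sq (Ico k1 K) (fun k => eV PL r n k (x (k + 1)))
        (fun k => eV PR r n k (y (k + 1)))
      have h2 : (∑ k ∈ Ico k1 K, eV PL r n k (x (k + 1)) * eV PR r n k (y (k + 1))) ^ 2 ≤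
          (288 * r * tx) * (288 * r * ty) := by
        refine h1.trans (mul_le_mul bx by' (Finset.sum_nonneg fun k _ => sq_nonneg _) ?_)
        positivity
      refine (Real.le_sqrt_of_sq_le h2).trans (le_of_eq ?_)
      have e : (288 * (r : ℝ) * tx) * (288 * r * ty) = (288 * r) ^ 2 * (tx * ty) := by ring
      rw [e, Real.sqrt_mul (by positivity), Real.sqrt_sq (by positivity), Real.sqrt_mul htx]
    rw [a2] at a1
    refine a1.trans (add_le_add_left ?_ _)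
    calc A * ∑ k ∈ Ico k1 K, eV PL r n k (x (k + 1)) * eV PR r n k (y (k + 1))
        ≤ A * (288 * r * (Real.sqrt tx * Real.sqrt ty)) := mul_le_mul_of_nonneg_left a3 hA
      _ = _ := by ring
  have hlim : Filter.Tendsto (fun n : ℕ => 288 * r * A * (Real.sqrt tx * Real.sqrt ty) +
      7 * A * R * ((2 : ℝ) ^ n)⁻¹) Filter.atTop (nhds (288 * r * A * (Real.sqrt tx * Real.sqrt ty) + 7 * A * R * 0)) := by
    refine tendsto_const_nhds.add (Filter.Tendsto.const_mul _ ?_)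
    have := tendsto_inv_atTop_zero.comp (tendsto_pow_atTop_atTop_of_one_lt (one_lt_two : (1 : ℝ) < 2))
    exact this
  have h := ge_of_tendsto' hlim key
  rw [mul_zero, add_zero] at h
  exact h

end NPG
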