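import Pool.Agent.NPG.Defs

set_option autoImplicit false

/-!
# NPG / EDefs : the input of the energy part

* `op κ α f v = ∑ x, κ x • f (α x * v)` : smoothing in the frame `α` (positions `v`).
* `tie M k f p` : mean over `m < 2^k` of `f (th m * p)`.
* `Frm M n` : the frames `s^m`, `(aT 1)^m`, `|m| ≤ 2^n`.
* `Fam M C κ` : symmetric probability kernels `κ k`, `κ 0 = δ`, positive, almost orthogonal.
* `Inp M C a Q n1 κ cd` : the input for the parameter `a`.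
All statements are for real functions; `EVec` transfers them to functions with values in a real
inner product space.
-/

namespace NPG
open Finset

noncomputable section

variable {A : Type} [Group A] [Fintype A]

/-- smoothing in the frame `α` -/
def op {E : Type} [AddCommGroup E] [Module ℝ E] (κ : A → ℝ) (α : MulAut A) (f : A → E) (v : A) :
    E := ∑ x : A, κ x • f (α x * v)

/-- mean over the tied objects -/
def tie {E : Type} [AddCommGroup E] [Module ℝ E] (M : Mod A) (k : ℕ) (f : A → E) (p : A) : E :=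
  ((2 : ℝ) ^ k)⁻¹ • ∑ m ∈ range (2 ^ k), f (M.th m * p)

/-- frames -/
def Frm (M : Mod A) (n : ℕ) : Set (MulAut A) :=
  {α | ∃ m : ℤ, |m| ≤ 2 ^ n ∧ (α = M.s ^ m ∨ α = (M.aT 1) ^ m)}

/-- a family of kernels -/
structure Fam (M : Mod A) (C : ℕ) (κ : ℕ → A → ℝ) : Prop where
  nonneg : ∀ k x, 0 ≤ κ k x
  sum_one : ∀ k, ∑ x, κ k x = 1
  symm : ∀ k x, κ k x⁻¹ = κ k x
  zero : ∀ x, κ 0 x = @ite ℝ (x = 1) (Classical.propDecidable _) 1 0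
  psd : ∀ (k : ℕ) (f : A → ℝ), 0 ≤ ∑ v, f v * op (κ k) 1 f v
  ao1 : ∀ k k' : ℕ, k ≤ k' → ∀ α ∈ Frm M k', ∀ β ∈ Frm M k', ∀ f : A → ℝ,
    ∑ v, (op (κ k') α (fun u => f u - op (κ k) β f u) v) ^ 2 ≤
      (C * ((2 : ℝ) ^ k / 2 ^ k')) ^ 2 * ∑ v, f v ^ 2
  ao2 : ∀ k k' : ℕ, k ≤ k' → ∀ α ∈ Frm M k', ∀ β ∈ Frm M k', ∀ f : A → ℝ,
    ∑ v, (op (κ k') α f v - op (κ k) β (op (κ k') α f) v) ^ 2 ≤
      (C * ((2 : ℝ) ^ k / 2 ^ k')) ^ 2 * ∑ v, f v ^ 2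

/-- the input for the parameter `a` -/
structure Inp (M : Mod A) (C a Q n1 : ℕ) (κ : ℕ → ℕ → A → ℝ) (cd : ℕ → ℝ) : Prop where
  one_le : 1 ≤ C
  fam : ∀ d, 1 ≤ d → d ≤ Q → Fam M C (κ d)
  cd_le : ∑ d ∈ Icc 1 Q, |cd d| ≤ 2 ^ n1
  gain : ∀ d, 1 ≤ d → d ≤ Q → ∀ k, C * a ≤ k → ∀ j : ℕ, (j = 0 ∨ j = 2 ^ k) → ∀ f : A → ℝ,
    ∑ p, (tie M k (fun v => op (κ d k) 1 f v - op (κ d (k + 1)) (M.s ^ j) f v) p) ^ 2 ≤
      (((2 : ℝ) ^ (3 * (n1 + a)))⁻¹) ^ 2 * ∑ v, f v ^ 2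
  single : ∀ k, C * a ≤ k → ∀ f : A → ℝ,
    ∑ p, (tie M k (fun v => f v - ∑ d ∈ Icc 1 Q, cd d * op (κ d k) 1 f v) p) ^ 2 ≤
      (C / Real.sqrt (2 ^ a)) ^ 2 * ∑ v, f v ^ 2

/-- the kernel built from the input -/
def krI (Q : ℕ) (κ : ℕ → ℕ → A → ℝ) (cd : ℕ → ℝ) (k : ℕ) (x : A) : ℝ :=
  ∑ d ∈ Icc 1 Q, cd d * κ d k x

end

end NPG
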