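import Pool.Agent.NPG.EHsp

set_option autoImplicit false
set_option linter.unusedSectionVars false

/-!
# NPG / EGam : the class of the difference operator

`DK M κ k = E_k Ξ (K_k - K_(k+1)) E_k` on functions of time and label.

PROOF of `cls_DK`.  Facts (blocks of level `k`; `k < K`):
(a) `EB k` is a symmetric projection, `‖EB k F‖ ≤ ‖F‖`; `XI M` is an isometry; `EB k` commutes with `KS M κ w`, `KT M κ w`
for `w ≥ k` (the frame `lev w c` is constant on the blocks of level `k`).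
(b) `‖DK F‖ ≤ g ‖F‖`, `g = 2^(-3m)`: on the block `b`, `l = b 2^k`, write `EB k F (c, v) = f (M.s^l v)`.  Then
`((KS k - KS (k+1)) EB k F) (c, v) = h (M.s^l v)`, `h = op (κ k) 1 f - op (κ (k+1)) (M.s^j) f`, `j = l - lev (k+1) l ∈ {0, 2^k}`
(`op_frame`), and `DK F (c, u) = tie M k h (M.pT u l)` (`pS_tied`).  Sum of squares with `hg`.
(c) right tests, `‖DK R F‖ ≤ 3 C 2^(-yr) ‖F‖`: `DK = EB Ξ EB (KS k - KS (k+1))` by (a).  `R = 1 - KS (k - y)`: `AF.ao` twice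
(`2 C 2^(-y)`).  `R = KS (k + y)`: `DK R = EB Ξ (KS k - KS (k+1)) KS (k+y) EB`, `KS k - KS (k+1) = (1 - KS (k+1)) - (1 - KS k)`, `AF.ao'`
(`C 2^(-y) + C 2^(-(y-1)) = 3 C 2^(-y)` for `y ≥ 1`; `y = 0`: trivial bound `2 ≤ 3 C`).
(d) left tests, `‖L DK F‖ ≤ 3 C 2^(-yl) ‖F‖`.  `L = KT (k + y)`: commutes with `EB k`; on the slice `c` in the positions at the
time `c` (`y = M.s^c v = M.pT u c` for tied `v`, `u`) `KT (k+y) Ξ` is `op (κ (k+y)) ((M.aT 1)^(c - lev))` and `KS k`, `KS (k+1)` are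
`op (κ k) (M.s^(c - lev))`, ..: `Fam.ao1E` with `k' = k + y` (for `y ≥ 1`).
`L = 1 - KT (k - y)`: `(L EB G)(c, u)` is the average over `c'` in the block of `c` of `G (c', u) - ∑ x, κ x • G (c', (M.aT l)⁻¹ x * u)`,
`l = lev (k-y) c`, with `G = Ξ (KS k - KS (k+1)) EB k F`; in the positions at the time `c'` this is `(1 - op (κ (k-y)) α)
(op (κ k) β - op (κ (k+1)) β') f`, `α = (M.aT 1)^(c' - l)`, `|c' - l| ≤ 2^k`, `β, β'` powers of `M.s` with exponents in `[0, 2^k)`,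
`[0, 2^(k+1))`: `Fam.ao2E` (`2 C 2^(-y)`); the square of an average is at most the average of the squares.
(e) two sided: the norm is at most `min (2 g, 3 C 2^(-yl), 3 C 2^(-yr))`-like: precisely `≤ g`, since `‖L‖, ‖R‖ ≤ 1`, and
`min (a, b, c) ≤ a^(1/3) b^(1/3) c^(1/3) ≤ 2^(-m) (3 C)^(2/3) 2^(-yl/3) 2^(-yr/3) ≤ 3 C 2^(-m) rho^yl rho^yr`.
-/

namespace NPG
open Finset

noncomputable section

variable {K : ℕ} {A E : Type} [Group A] [Fintype A] [NormedAddCommGroup E] [InnerProductSpace ℝ E]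

/-- the difference operator -/
def DK (M : Mod A) (κ : ℕ → A → ℝ) (k : ℕ) : HK K A E →ₗ[ℝ] HK K A E :=
  EB k ∘ₗ XI M ∘ₗ (KS M κ k - KS M κ (k + 1)) ∘ₗ EB k

/-! ### values, norms -/

private theorem eg_nsq (F : HK K A E) : ‖F‖ ^ 2 = ∑ c : Fin (2 ^ K), ∑ v : A, ‖F (c, v)‖ ^ 2 := by
  rw [PiLp.norm_sq_eq_of_L2, Fintype.sum_prod_type]

private theorem eg_KS (M : Mod A) (κ : ℕ → A → ℝ) (w : ℤ) (F : HK K A E) (c : Fin (2 ^ K)) (v : A) :
    KS M κ w F (c, v) = ∑ x, κ w.toNat x • F (c, (M.s ^ lev w.toNat c)⁻¹ x * v) := rfl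

private theorem eg_KT (M : Mod A) (κ : ℕ → A → ℝ) (w : ℤ) (F : HK K A E) (c : Fin (2 ^ K)) (v : A) :
    KT M κ w F (c, v) = ∑ x, κ w.toNat x • F (c, (M.aT (lev w.toNat c))⁻¹ x * v) := rfl

private theorem eg_XI (M : Mod A) (F : HK K A E) (c : Fin (2 ^ K)) (v : A) :
    XI M F (c, v) = F (c, M.th c * v) := rfl

private theorem eg_DK (M : Mod A) (κ : ℕ → A → ℝ) (k : ℕ) (F : HK K A E) :
    DK M κ k F = EB k (XI M (KS M κ (k : ℤ) (EB k F) - KS M κ ((k : ℤ) + 1) (EB k F))) := rfl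

private theorem eg_EB (k : ℕ) (F : HK K A E) (c : Fin (2 ^ K)) (v : A) :
    EB k F (c, v) = ∑ c' : Fin (2 ^ K), sb k c' c • F (c', v) := rfl

private theorem sb_comm (k c c' : ℕ) : sb k c c' = sb k c' c := by
  unfold sb
  by_cases h : c / 2 ^ k = c' / 2 ^ k
  · rw [if_pos h, if_pos h.symm]
  · rw [if_neg h, if_neg (fun h' => h h'.symm)]

private theorem sb_nonneg (k c c' : ℕ) : 0 ≤ sb k c c' := by
  unfold sb
  split_ifs
  · positivity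
  · exact le_rfl

private theorem div_of_le {k w c c' : ℕ} (hw : k ≤ w) (h : c / 2 ^ k = c' / 2 ^ k) :
    c / 2 ^ w = c' / 2 ^ w := by
  have e : 2 ^ w = 2 ^ k * 2 ^ (w - k) := by rw [← pow_add]; congr 1; omega
  rw [e, ← Nat.div_div_eq_div_mul, ← Nat.div_div_eq_div_mul, h]

private theorem lev_of_le {k w c c' : ℕ} (hw : k ≤ w) (h : c / 2 ^ k = c' / 2 ^ k) :
    lev w c = lev w c' := by
  unfold lev
  rw [div_of_le hw h]

/-- a sum over the block -/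
private theorem eg_block {k : ℕ} (hk : k ≤ K) (c : Fin (2 ^ K)) {V : Type} [AddCommGroup V] [Module ℝ V]
    (H : ℕ → V) : ∑ c' : Fin (2 ^ K), sb k c' c • H c' =
      ((2 : ℝ) ^ k)⁻¹ • ∑ m ∈ range (2 ^ k), H (lev k c + m) := by
  rw [Fin.sum_univ_eq_sum_range (fun c' => sb k c' c • H c') (2 ^ K)]
  have h1 : ∀ c' ∈ range (2 ^ K), sb k c' c • H c' =
      if c' / 2 ^ k = c / 2 ^ k then ((2 : ℝ) ^ k)⁻¹ • H c' else 0 := by
    intro c' _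
    unfold sb
    split_ifs
    · rfl
    · rw [zero_smul]
  rw [sum_congr rfl h1, ← sum_filter]
  have h2 : (range (2 ^ K)).filter (fun c' => c' / 2 ^ k = (c : ℕ) / 2 ^ k) =
      Ico (lev k c) (lev k c + 2 ^ k) := by
    ext c'
    rw [mem_filter, mem_range, mem_Ico]
    have hp : 0 < 2 ^ k := by positivity
    unfold lev
    constructor
    · rintro ⟨-, h⟩
      rw [← h]
      exact ⟨Nat.div_mul_le_self _ _, Nat.lt_div_mul_add hp⟩
    · rintro ⟨h3, h4⟩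
      have h5 : c' / 2 ^ k = (c : ℕ) / 2 ^ k := by
        apply Nat.div_eq_of_lt_le h3
        rw [Nat.succ_mul]
        exact h4
      refine ⟨?_, h5⟩
      have e : 2 ^ K = 2 ^ (K - k) * 2 ^ k := by rw [← pow_add]; congr 1; omega
      have h6 : (c : ℕ) / 2 ^ k < 2 ^ (K - k) := by
        rw [Nat.div_lt_iff_lt_mul hp, ← e]
        exact c.2
      calc c' < (c : ℕ) / 2 ^ k * 2 ^ k + 2 ^ k := h4
        _ = ((c : ℕ) / 2 ^ k + 1) * 2 ^ k := by ring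
        _ ≤ 2 ^ (K - k) * 2 ^ k := Nat.mul_le_mul_right _ h6
        _ = 2 ^ K := e.symm
  rw [h2, sum_Ico_eq_sum_range, ← smul_sum, Nat.add_sub_cancel_left]

private theorem eg_sb_sum {k : ℕ} (hk : k ≤ K) (c : Fin (2 ^ K)) : ∑ c' : Fin (2 ^ K), sb k c' c = 1 := by
  have h := eg_block hk c (V := ℝ) (fun _ => 1)
  simp only [smul_eq_mul, mul_one, sum_const, card_range, nsmul_eq_mul, Nat.cast_pow, Nat.cast_ofNat] at h
  rw [h, inv_mul_cancel₀ (by positivity)]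

private theorem eg_sb_sum' {k : ℕ} (hk : k ≤ K) (c : Fin (2 ^ K)) : ∑ c' : Fin (2 ^ K), sb k c c' = 1 := by
  rw [← eg_sb_sum hk c]
  exact sum_congr rfl fun c' _ => sb_comm _ _ _

/-- only the values in the block matter -/
private theorem eg_sb_congr {k : ℕ} {c : Fin (2 ^ K)} {V : Type} [AddCommGroup V] [Module ℝ V]
    {f g : Fin (2 ^ K) → V} (h : ∀ c' : Fin (2 ^ K), (c' : ℕ) / 2 ^ k = (c : ℕ) / 2 ^ k → f c' = g c') :
    ∑ c' : Fin (2 ^ K), sb k c' c • f c' = ∑ c' : Fin (2 ^ K), sb k c' c • g c' := by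
  refine sum_congr rfl fun c' _ => ?_
  by_cases hc : (c' : ℕ) / 2 ^ k = (c : ℕ) / 2 ^ k
  · rw [h c' hc]
  · unfold sb
    rw [if_neg hc, zero_smul, zero_smul]

/-- the square of an average is at most the average of the squares -/
private theorem eg_avg_sq {ι : Type} [Fintype ι] {w : ι → ℝ} (h0 : ∀ i, 0 ≤ w i) (h1 : ∑ i, w i = 1) (f : ι → E) :
    ‖∑ i, w i • f i‖ ^ 2 ≤ ∑ i, w i * ‖f i‖ ^ 2 := by
  have e1 : ‖∑ i, w i • f i‖ ≤ ∑ i, w i * ‖f i‖ := by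
    refine (norm_sum_le _ _).trans (le_of_eq (sum_congr rfl fun x _ => ?_))
    rw [norm_smul, Real.norm_eq_abs, abs_of_nonneg (h0 x)]
  have e2 := (Even.convexOn_pow (𝕜 := ℝ) even_two).map_sum_le (t := univ) (w := w)
    (p := fun x => ‖f x‖) (fun x _ => h0 x) h1 (fun x _ => Set.mem_univ _)
  simp only [smul_eq_mul] at e2
  exact (pow_le_pow_left₀ (norm_nonneg _) e1 2).trans e2

/-- average over the blocks of a kernel with values in functions of the label -/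
private theorem eg_avg_blk {k : ℕ} (hk : k ≤ K) (T : Fin (2 ^ K) → Fin (2 ^ K) → A → E) (b : Fin (2 ^ K) → ℝ)
    (h : ∀ c c' : Fin (2 ^ K), (c' : ℕ) / 2 ^ k = (c : ℕ) / 2 ^ k → ∑ v, ‖T c c' v‖ ^ 2 ≤ b c') :
    ∑ c : Fin (2 ^ K), ∑ v : A, ‖∑ c' : Fin (2 ^ K), sb k c' c • T c c' v‖ ^ 2 ≤ ∑ c', b c' := by
  calc ∑ c : Fin (2 ^ K), ∑ v : A, ‖∑ c' : Fin (2 ^ K), sb k c' c • T c c' v‖ ^ 2
      ≤ ∑ c : Fin (2 ^ K), ∑ v : A, ∑ c' : Fin (2 ^ K), sb k c' c * ‖T c c' v‖ ^ 2 :=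
        sum_le_sum fun c _ => sum_le_sum fun v _ =>
          eg_avg_sq (fun c' => sb_nonneg _ _ _) (eg_sb_sum hk c) _
    _ = ∑ c : Fin (2 ^ K), ∑ c' : Fin (2 ^ K), sb k c' c * ∑ v : A, ‖T c c' v‖ ^ 2 := by
        refine sum_congr rfl fun c _ => ?_
        rw [sum_comm]
        exact sum_congr rfl fun c' _ => (mul_sum _ _ _).symm
    _ ≤ ∑ c : Fin (2 ^ K), ∑ c' : Fin (2 ^ K), sb k c' c * b c' := by
        refine sum_le_sum fun c _ => sum_le_sum fun c' _ => ?_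
        by_cases hc : (c' : ℕ) / 2 ^ k = (c : ℕ) / 2 ^ k
        · exact mul_le_mul_of_nonneg_left (h c c' hc) (sb_nonneg _ _ _)
        · unfold sb
          rw [if_neg hc, zero_mul, zero_mul]
    _ = ∑ c', b c' := by
        rw [sum_comm]
        refine sum_congr rfl fun c' _ => ?_
        rw [← sum_mul, eg_sb_sum' hk c', one_mul]

/-! ### the averages over the blocks, the tie -/

theorem EB_lft {k k' : ℕ} (h : k ≤ k') (hK : k' ≤ K) (f : ℕ → A → E) :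
    EB k (lft k' f : HK K A E) = lft k' f := by
  ext p
  obtain ⟨c, v⟩ := p
  rw [eg_EB]
  have h1 : ∑ c' : Fin (2 ^ K), sb k c' c • (lft k' f : HK K A E) (c', v) =
      ∑ c' : Fin (2 ^ K), sb k c' c • (lft k' f : HK K A E) (c, v) := by
    refine eg_sb_congr fun c' hc => ?_
    show f ((c' : ℕ) / 2 ^ k') v = f ((c : ℕ) / 2 ^ k') v
    rw [div_of_le h hc]
  rw [h1, ← sum_smul, eg_sb_sum (h.trans hK) c, one_smul]

theorem EB_symm (k : ℕ) (F F' : HK K A E) : inner ℝ (EB k F) F' = inner ℝ F (EB k F') := by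
  rw [PiLp.inner_apply, PiLp.inner_apply, Fintype.sum_prod_type, Fintype.sum_prod_type]
  have h1 : ∀ (c : Fin (2 ^ K)) (v : A), inner ℝ (EB k F (c, v)) (F' (c, v)) =
      ∑ c' : Fin (2 ^ K), sb k c' c * inner ℝ (F (c', v)) (F' (c, v)) := by
    intro c v
    rw [eg_EB, sum_inner]
    exact sum_congr rfl fun c' _ => real_inner_smul_left _ _ _
  have h2 : ∀ (c : Fin (2 ^ K)) (v : A), inner ℝ (F (c, v)) (EB k F' (c, v)) =
      ∑ c' : Fin (2 ^ K), sb k c' c * inner ℝ (F (c, v)) (F' (c', v)) := by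
    intro c v
    rw [eg_EB, inner_sum]
    exact sum_congr rfl fun c' _ => real_inner_smul_right _ _ _
  simp only [h1, h2]
  rw [sum_comm, sum_comm (s := univ (α := Fin (2 ^ K))) (t := univ (α := A))
    (f := fun c v => ∑ c' : Fin (2 ^ K), sb k c' c * inner ℝ (F (c, v)) (F' (c', v)))]
  refine sum_congr rfl fun v _ => ?_
  rw [sum_comm]
  exact sum_congr rfl fun c _ => sum_congr rfl fun c' _ => by rw [sb_comm]

theorem EB_norm {k : ℕ} (hk : k ≤ K) (F : HK K A E) : ‖EB k F‖ ≤ ‖F‖ := by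
  refine le_of_sq_le_sq ?_ (norm_nonneg _)
  rw [eg_nsq, eg_nsq]
  exact eg_avg_blk hk (fun _ c' v => F (c', v)) (fun c' => ∑ v, ‖F (c', v)‖ ^ 2) fun _ _ _ => le_rfl

theorem XI_norm (M : Mod A) (F : HK K A E) : ‖XI M F‖ = ‖F‖ := by
  have h : ‖XI M F‖ ^ 2 = ‖F‖ ^ 2 := by
    rw [eg_nsq, eg_nsq]
    refine sum_congr rfl fun c _ => ?_
    exact Equiv.sum_comp (Equiv.mulLeft (M.th c)) (fun v => ‖F (c, v)‖ ^ 2)
  exact (sq_eq_sq₀ (norm_nonneg _) (norm_nonneg _)).1 h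

theorem EB_KS {k : ℕ} {M : Mod A} {κ : ℕ → A → ℝ} {w : ℤ} (hw : (k : ℤ) ≤ w) (F : HK K A E) :
    EB k (KS M κ w F) = KS M κ w (EB k F) := by
  have hw' : k ≤ w.toNat := by omega
  ext p
  obtain ⟨c, v⟩ := p
  rw [eg_EB, eg_KS]
  have h1 : ∑ c' : Fin (2 ^ K), sb k c' c • KS M κ w F (c', v) = ∑ c' : Fin (2 ^ K), sb k c' c •
      ∑ x, κ w.toNat x • F (c', (M.s ^ lev w.toNat c)⁻¹ x * v) := by
    refine eg_sb_congr fun c' hc => ?_
    rw [eg_KS, lev_of_le hw' hc]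
  rw [h1]
  simp only [eg_EB, smul_sum]
  rw [sum_comm]
  exact sum_congr rfl fun x _ => sum_congr rfl fun c' _ => smul_comm _ _ _

theorem EB_KT {k : ℕ} {M : Mod A} {κ : ℕ → A → ℝ} {w : ℤ} (hw : (k : ℤ) ≤ w) (F : HK K A E) :
    EB k (KT M κ w F) = KT M κ w (EB k F) := by
  have hw' : k ≤ w.toNat := by omega
  ext p
  obtain ⟨c, v⟩ := p
  rw [eg_EB, eg_KT]
  have h1 : ∑ c' : Fin (2 ^ K), sb k c' c • KT M κ w F (c', v) = ∑ c' : Fin (2 ^ K), sb k c' c •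
      ∑ x, κ w.toNat x • F (c', (M.aT (lev w.toNat c))⁻¹ x * v) := by
    refine eg_sb_congr fun c' hc => ?_
    rw [eg_KT, lev_of_le hw' hc]
  rw [h1]
  simp only [eg_EB, smul_sum]
  rw [sum_comm]
  exact sum_congr rfl fun x _ => sum_congr rfl fun c' _ => smul_comm _ _ _

/-- the averages are constant on the blocks -/
private theorem eg_EB_blk {k : ℕ} (F : HK K A E) {c c' : Fin (2 ^ K)} (h : (c' : ℕ) / 2 ^ k = (c : ℕ) / 2 ^ k)
    (v : A) : EB k F (c', v) = EB k F (c, v) := by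
  rw [eg_EB, eg_EB]
  refine sum_congr rfl fun c'' _ => ?_
  unfold sb
  rw [h]

/-! ### the frames -/

private theorem eg_s_zpow (M : Mod A) (c l : ℕ) (x : A) :
    (M.s ^ c)⁻¹ ((M.s ^ ((c : ℤ) - (l : ℤ))) x) = (M.s ^ l)⁻¹ x := by
  rw [← MulAut.mul_apply, zpow_sub, zpow_natCast, zpow_natCast, inv_mul_cancel_left]

private theorem eg_aT_zpow (M : Mod A) (c l : ℕ) (x : A) :
    M.aT c ((M.aT l)⁻¹ x) = ((M.aT 1) ^ ((c : ℤ) - (l : ℤ))) x := by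
  rw [← MulAut.mul_apply, zpow_sub, zpow_natCast, zpow_natCast, aT_one_pow, aT_one_pow]

private theorem eg_inv_s (M : Mod A) (c : ℕ) (v : A) : (M.s ^ c)⁻¹ ((M.s ^ c) v) = v := by
  rw [← MulAut.mul_apply, inv_mul_cancel, MulAut.one_apply]

/-- a function on the slice `c` in the positions at the time `l` -/
private def pos (M : Mod A) (l : ℕ) (G : HK K A E) (c : Fin (2 ^ K)) (z : A) : E := G (c, (M.s ^ l)⁻¹ z)

private theorem pos_apply (M : Mod A) (l : ℕ) (G : HK K A E) (c : Fin (2 ^ K)) (v : A) :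
    pos M l G c ((M.s ^ l) v) = G (c, v) := by
  unfold pos
  rw [eg_inv_s]

private theorem pos_sum (M : Mod A) (l : ℕ) (G : HK K A E) (c : Fin (2 ^ K)) :
    ∑ z, ‖pos M l G c z‖ ^ 2 = ∑ v, ‖G (c, v)‖ ^ 2 :=
  Equiv.sum_comp ((M.s ^ l)⁻¹).toEquiv (fun v => ‖G (c, v)‖ ^ 2)

/-- the `S`-family in the positions at the time `l` -/
private theorem eg_KS_pos (M : Mod A) (κ : ℕ → A → ℝ) (w l : ℕ) (G : HK K A E) (c : Fin (2 ^ K)) (v : A) :
    KS M κ w G (c, v) = op (κ w) (M.s ^ ((l : ℤ) - (lev w c : ℤ))) (pos M l G c) ((M.s ^ l) v) := by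
  rw [eg_KS]
  unfold op
  refine sum_congr rfl fun x _ => ?_
  unfold pos
  rw [map_mul, eg_s_zpow, eg_inv_s, Int.toNat_natCast]

private theorem eg_pT (M : Mod A) (l : ℕ) (u : A) : (M.s ^ l) (M.th l * u) = M.pT u l := rfl

private theorem eg_pT_sum (M : Mod A) (l : ℕ) (g : A → ℝ) : ∑ u, g (M.pT u l) = ∑ p, g p :=
  Equiv.sum_comp ((Equiv.mulLeft (M.th l)).trans (M.s ^ l).toEquiv) g

private theorem eg_frm_s (M : Mod A) {n : ℕ} {m : ℤ} (h : |m| ≤ 2 ^ n) : M.s ^ m ∈ Frm M n :=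
  ⟨m, h, Or.inl rfl⟩

private theorem eg_frm_T (M : Mod A) {n : ℕ} {m : ℤ} (h : |m| ≤ 2 ^ n) : (M.aT 1) ^ m ∈ Frm M n :=
  ⟨m, h, Or.inr rfl⟩

private theorem lev_le (w c : ℕ) : lev w c ≤ c := Nat.div_mul_le_self _ _

private theorem lt_lev (w c : ℕ) : c < lev w c + 2 ^ w := Nat.lt_div_mul_add (by positivity)

private theorem eg_abs_lev {w n : ℕ} (h : w ≤ n) (c : ℕ) : |(c : ℤ) - (lev w c : ℤ)| ≤ 2 ^ n := by
  have h1 := lev_le w c
  have h2 := lt_lev w c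
  have h3 : (2 : ℤ) ^ w ≤ 2 ^ n := pow_le_pow_right₀ (by norm_num) h
  have h4 : ((lev w c + 2 ^ w : ℕ) : ℤ) = (lev w c : ℤ) + 2 ^ w := by push_cast; ring
  have h5 : (c : ℤ) < (lev w c : ℤ) + 2 ^ w := by rw [← h4]; exact_mod_cast h2
  rw [abs_le]
  constructor <;> linarith [(by exact_mod_cast h1 : (lev w c : ℤ) ≤ c), (by positivity : (0 : ℤ) ≤ 2 ^ n)]

/-- two points of the same block of level `k` -/
private theorem eg_abs_blk {w k n : ℕ} (hw : w ≤ k) (hn : k ≤ n) {c c' : ℕ} (h : c' / 2 ^ k = c / 2 ^ k) :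
    |(c' : ℤ) - (lev w c : ℤ)| ≤ 2 ^ n := by
  have h0 : lev k c' = lev k c := lev_of_le le_rfl h
  have h1 := lev_le k c'
  have h2 := lt_lev k c'
  have h3 : lev k c ≤ lev w c := by
    unfold lev
    have e : 2 ^ k = 2 ^ w * 2 ^ (k - w) := by rw [← pow_add]; congr 1; omega
    rw [e, ← Nat.div_div_eq_div_mul]
    calc c / 2 ^ w / 2 ^ (k - w) * (2 ^ w * 2 ^ (k - w))
        = c / 2 ^ w / 2 ^ (k - w) * 2 ^ (k - w) * 2 ^ w := by ring
      _ ≤ c / 2 ^ w * 2 ^ w := Nat.mul_le_mul_right _ (Nat.div_mul_le_self _ _)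
  have h4 := lev_le w c
  have h5 := lt_lev k c
  rw [h0] at h1 h2
  have h6 : (2 : ℤ) ^ k ≤ 2 ^ n := pow_le_pow_right₀ (by norm_num) hn
  have h7 : ((lev k c + 2 ^ k : ℕ) : ℤ) = (lev k c : ℤ) + 2 ^ k := by push_cast; ring
  have h8 : (c' : ℤ) < (lev k c : ℤ) + 2 ^ k := by rw [← h7]; exact_mod_cast h2
  have h9 : (c : ℤ) < (lev k c : ℤ) + 2 ^ k := by rw [← h7]; exact_mod_cast h5
  have h10 : (lev k c : ℤ) ≤ lev w c := by exact_mod_cast h3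
  have h11 : (lev w c : ℤ) ≤ c := by exact_mod_cast h4
  have h12 : (lev k c : ℤ) ≤ c' := by exact_mod_cast h1
  rw [abs_le]
  constructor <;> linarith

/-! ### the gain -/

theorem DK_gain {M : Mod A} {κ : ℕ → A → ℝ} {k : ℕ} (hk : k < K) {g : ℝ} (hg0 : 0 ≤ g)
    (hg : ∀ j : ℕ, (j = 0 ∨ j = 2 ^ k) → ∀ f : A → E,
      ∑ p, ‖tie M k (fun v => op (κ k) 1 f v - op (κ (k + 1)) (M.s ^ j) f v) p‖ ^ 2 ≤
        g ^ 2 * ∑ v, ‖f v‖ ^ 2) (F : HK K A E) : ‖DK M κ k F‖ ≤ g * ‖F‖ := by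
  set G : HK K A E := EB k F with hG
  have hGn : ‖G‖ ≤ ‖F‖ := EB_norm hk.le F
  -- the difference of the two levels
  have hj : ∀ c : ℕ, ∃ j : ℕ, (j = 0 ∨ j = 2 ^ k) ∧ lev k c = lev (k + 1) c + j := by
    intro c
    refine ⟨(c / 2 ^ k % 2) * 2 ^ k, ?_, ?_⟩
    · rcases Nat.mod_two_eq_zero_or_one (c / 2 ^ k) with h | h
      · left; rw [h, zero_mul]
      · right; rw [h, one_mul]
    · unfold lev
      rw [pow_succ, ← Nat.div_div_eq_div_mul]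
      have := Nat.div_add_mod (c / 2 ^ k) 2
      calc c / 2 ^ k * 2 ^ k = (2 * (c / 2 ^ k / 2) + c / 2 ^ k % 2) * 2 ^ k := by rw [this]
        _ = _ := by ring
  -- pointwise form
  have hpt : ∀ c : Fin (2 ^ K), ∃ j : ℕ, (j = 0 ∨ j = 2 ^ k) ∧ ∀ u : A, DK M κ k F (c, u) =
      tie M k (fun v => op (κ k) 1 (pos M (lev k c) G c) v -
        op (κ (k + 1)) (M.s ^ j) (pos M (lev k c) G c) v) (M.pT u (lev k c)) := by
    intro c
    obtain ⟨j, hj0, hj1⟩ := hj c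
    refine ⟨j, hj0, fun u => ?_⟩
    rw [eg_DK, eg_EB, ← hG]
    set h : A → E := fun v => op (κ k) 1 (pos M (lev k c) G c) v -
        op (κ (k + 1)) (M.s ^ j) (pos M (lev k c) G c) v with hh
    have h1 : ∑ c' : Fin (2 ^ K), sb k c' c •
        XI M (KS M κ (k : ℤ) G - KS M κ ((k : ℤ) + 1) G) (c', u) =
        ∑ c' : Fin (2 ^ K), sb k c' c • (fun n : ℕ => h ((M.s ^ lev k c) (M.th n * u))) (c' : ℕ) := by
      refine eg_sb_congr fun c' hc => ?_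
      rw [eg_XI]
      show KS M κ (k : ℤ) G (c', M.th c' * u) - KS M κ ((k : ℤ) + 1) G (c', M.th c' * u) = _
      have e1 : ((k : ℤ) + 1) = ((k + 1 : ℕ) : ℤ) := by push_cast; ring
      rw [e1, eg_KS_pos M κ k (lev k c), eg_KS_pos M κ (k + 1) (lev k c)]
      have e2 : pos M (lev k c) G c' = pos M (lev k c) G c := by
        funext z
        unfold pos
        exact eg_EB_blk F hc _
      have e3 : lev k c' = lev k c := lev_of_le le_rfl hc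
      have e4 : lev (k + 1) c' = lev (k + 1) c := lev_of_le (Nat.le_succ k) hc
      have e5 : ((lev k c : ℕ) : ℤ) - ((lev (k + 1) c : ℕ) : ℤ) = ((j : ℕ) : ℤ) := by
        rw [hj1]; push_cast; ring
      rw [e2, e3, e4, e5, sub_self, zpow_zero, zpow_natCast]
    rw [h1]
    refine (eg_block hk.le c (fun n : ℕ => h ((M.s ^ lev k c) (M.th n * u)))).trans ?_
    unfold tie
    congr 1
    refine sum_congr rfl fun m _ => ?_
    show h ((M.s ^ lev k c) (M.th (lev k c + m) * u)) = h (M.th m * M.pT u (lev k c))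
    have := pS_tied M (lev k c) m u
    unfold Mod.pS at this
    rw [this]
  -- sum of squares
  have hsq : ‖DK M κ k F‖ ^ 2 ≤ (g * ‖G‖) ^ 2 := by
    rw [mul_pow, eg_nsq, eg_nsq, mul_sum]
    refine sum_le_sum fun c _ => ?_
    obtain ⟨j, hj0, hj1⟩ := hpt c
    simp only [hj1]
    rw [eg_pT_sum M (lev k c) (fun p => ‖tie M k (fun v => op (κ k) 1 (pos M (lev k c) G c) v -
        op (κ (k + 1)) (M.s ^ j) (pos M (lev k c) G c) v) p‖ ^ 2), ← pos_sum M (lev k c) G c]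
    exact hg j hj0 _
  exact (le_of_sq_le_sq hsq (mul_nonneg hg0 (norm_nonneg _))).trans (mul_le_mul_of_nonneg_left hGn hg0)

/-! ### tests -/

/-- the difference of the two levels is at most two contractions -/
private theorem eg_D_norm {M : Mod A} {C : ℕ} (hC : 1 ≤ C) {κ : ℕ → A → ℝ} (hF : Fam M C κ) {k : ℕ}
    (hk : k < K) (F : HK K A E) : ‖DK M κ k F‖ ≤ 2 * ‖F‖ := by
  have hS := af_S (K := K) (E := E) hC hF
  rw [eg_DK]
  have a1 := EB_norm hk.le (XI M (KS M κ (k : ℤ) (EB k F) - KS M κ ((k : ℤ) + 1) (EB k F)))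
  rw [XI_norm] at a1
  have a2 := norm_sub_le (KS M κ (k : ℤ) (EB k F)) (KS M κ ((k : ℤ) + 1) (EB k F))
  have a3 := hS.norm_le (k : ℤ) (EB k F)
  have a4 := hS.norm_le ((k : ℤ) + 1) (EB k F)
  have a5 := EB_norm hk.le F
  linarith

private theorem pow_half (y : ℕ) : ((2 : ℝ) ^ y)⁻¹ = 2 * ((2 : ℝ) ^ (y + 1))⁻¹ := by
  rw [pow_succ, mul_inv]; ring

/-- right tests -/
private theorem eg_right {M : Mod A} {C : ℕ} (hC : 1 ≤ C) {κ : ℕ → A → ℝ} (hF : Fam M C κ) {k : ℕ}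
    (hk : k < K) (y : ℕ) (R : HK K A E →ₗ[ℝ] HK K A E) (hR : Tst (KS M κ) k y R) (F : HK K A E) :
    ‖DK M κ k (R F)‖ ≤ 3 * C * ((2 : ℝ) ^ y)⁻¹ * ‖F‖ := by
  have hS := af_S (K := K) (E := E) hC hF
  have hC' : (1 : ℝ) ≤ C := by exact_mod_cast hC
  have hn : ∀ w, ‖KS M κ w F‖ ≤ ‖F‖ := fun w => hS.norm_le w F
  have hcomm : ∀ G : HK K A E, DK M κ k G = EB k (XI M (EB k (KS M κ (k : ℤ) G - KS M κ ((k : ℤ) + 1) G))) := by
    intro G
    rw [eg_DK, map_sub (EB k) (KS M κ (k : ℤ) G), EB_KS (k := k) (w := (k : ℤ)) le_rfl G,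
      EB_KS (k := k) (w := (k : ℤ) + 1) (by omega) G]
  have hle : ∀ G : HK K A E, ‖DK M κ k G‖ ≤ ‖KS M κ (k : ℤ) G - KS M κ ((k : ℤ) + 1) G‖ := by
    intro G
    rw [hcomm]
    exact (EB_norm hk.le _).trans ((XI_norm M _).le.trans (EB_norm hk.le _))
  rcases Nat.eq_zero_or_pos y with hy | hy
  · -- the trivial bound
    have hRn : ‖R F‖ ≤ ‖F‖ := by
      rcases hR with ⟨-, h⟩ | h | h
      · rw [h]; exact le_rfl
      · rw [h]; exact hS.norm_le _ _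
      · rw [h]; exact hS.norm_sub_le _ _
    rw [hy, pow_zero, inv_one, mul_one]
    calc ‖DK M κ k (R F)‖ ≤ 2 * ‖R F‖ := eg_D_norm hC hF hk _
      _ ≤ 2 * ‖F‖ := by linarith
      _ ≤ 3 * C * ‖F‖ := mul_le_mul_of_nonneg_right (by linarith) (norm_nonneg _)
  rcases hR with ⟨h0, -⟩ | h | h
  · omega
  · -- `R = KS (k + y)`
    have e1 : DK M κ k (R F) = EB k (XI M (KS M κ (k : ℤ) (KS M κ ((k : ℤ) + y) (EB k F)) -
        KS M κ ((k : ℤ) + 1) (KS M κ ((k : ℤ) + y) (EB k F)))) := by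
      rw [eg_DK, h, EB_KS (k := k) (w := (k : ℤ) + y) (by omega) F]
    set G : HK K A E := EB k F
    have hG : ‖G‖ ≤ ‖F‖ := EB_norm hk.le F
    have a1 := hS.ao' (k : ℤ) y G
    have a2 := hS.ao' ((k : ℤ) + 1) (y - 1) G
    have e2 : (k : ℤ) + 1 + ((y - 1 : ℕ) : ℤ) = (k : ℤ) + y := by omega
    rw [e2] at a2
    have e3 : ((2 : ℝ) ^ (y - 1))⁻¹ = 2 * ((2 : ℝ) ^ y)⁻¹ := by
      have := pow_half (y - 1)
      rwa [show y - 1 + 1 = y by omega] at this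
    rw [e3] at a2
    rw [e1]
    set Z : HK K A E := KS M κ ((k : ℤ) + y) G
    have e4 : KS M κ (k : ℤ) Z - KS M κ ((k : ℤ) + 1) Z =
        (Z - KS M κ ((k : ℤ) + 1) Z) - (Z - KS M κ (k : ℤ) Z) := by abel
    have e5 := norm_sub_le (Z - KS M κ ((k : ℤ) + 1) Z) (Z - KS M κ (k : ℤ) Z)
    rw [← e4] at e5
    have e6 := EB_norm hk.le (XI M (KS M κ (k : ℤ) Z - KS M κ ((k : ℤ) + 1) Z))
    rw [XI_norm] at e6
    have e7 : 3 * C * ((2 : ℝ) ^ y)⁻¹ * ‖G‖ ≤ 3 * C * ((2 : ℝ) ^ y)⁻¹ * ‖F‖ :=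
      mul_le_mul_of_nonneg_left hG (by positivity)
    have e8 : C * (2 * ((2 : ℝ) ^ y)⁻¹) * ‖G‖ + C * ((2 : ℝ) ^ y)⁻¹ * ‖G‖ = 3 * C * ((2 : ℝ) ^ y)⁻¹ * ‖G‖ := by
      ring
    linarith
  · -- `R = 1 - KS (k - y)`
    have a1 := hS.ao ((k : ℤ) - y) y F
    have a2 := hS.ao ((k : ℤ) - y) (y + 1) F
    have e1 : (k : ℤ) - y + ((y : ℕ) : ℤ) = k := by ring
    have e2 : (k : ℤ) - y + ((y + 1 : ℕ) : ℤ) = k + 1 := by push_cast; ring
    rw [e1] at a1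
    rw [e2] at a2
    have e3 : R F = F - KS M κ ((k : ℤ) - y) F := by rw [h]; rfl
    rw [← e3] at a1 a2
    have hp : (0 : ℝ) ≤ ((2 : ℝ) ^ (y + 1))⁻¹ := by positivity
    have hp2 := pow_half y
    have e4 := hle (R F)
    have e5 := norm_sub_le (KS M κ (k : ℤ) (R F)) (KS M κ ((k : ℤ) + 1) (R F))
    have e6 : C * ((2 : ℝ) ^ (y + 1))⁻¹ * ‖F‖ ≤ C * ((2 : ℝ) ^ y)⁻¹ * ‖F‖ :=
      mul_le_mul_of_nonneg_right (mul_le_mul_of_nonneg_left (by linarith) (by linarith)) (norm_nonneg _)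
    have e7 : 0 ≤ C * ((2 : ℝ) ^ y)⁻¹ * ‖F‖ := by positivity
    have e8 : 3 * C * ((2 : ℝ) ^ y)⁻¹ * ‖F‖ = 3 * (C * ((2 : ℝ) ^ y)⁻¹ * ‖F‖) := by ring
    linarith

/-- `KT` after the tie against `1 - KS`, slice by slice -/
private theorem eg_TS {M : Mod A} {C : ℕ} {κ : ℕ → A → ℝ} (hF : Fam M C κ) {w w' : ℕ}
    (hw : w ≤ w') (G : HK K A E) :
    ‖KT M κ (w' : ℤ) (XI M (G - KS M κ (w : ℤ) G))‖ ≤ C * ((2 : ℝ) ^ w / 2 ^ w') * ‖G‖ := by
  have hpt : ∀ (c : Fin (2 ^ K)) (u : A), KT M κ (w' : ℤ) (XI M (G - KS M κ (w : ℤ) G)) (c, u) =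
      op (κ w') ((M.aT 1) ^ (((c : ℕ) : ℤ) - (lev w' c : ℤ))) (fun z => pos M c G c z -
        op (κ w) (M.s ^ (((c : ℕ) : ℤ) - (lev w c : ℤ))) (pos M c G c) z) (M.pT u c) := by
    intro c u
    rw [eg_KT, Int.toNat_natCast]
    unfold op
    refine sum_congr rfl fun x _ => ?_
    congr 1
    rw [eg_XI, ← eg_aT_zpow, ← pT_mul, ← eg_pT]
    show G (c, M.th c * ((M.aT (lev w' c))⁻¹ x * u)) - KS M κ (w : ℤ) G (c, M.th c * ((M.aT (lev w' c))⁻¹ x * u)) = _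
    rw [eg_KS_pos M κ w c]
    show _ = pos M c G c ((M.s ^ (c : ℕ)) (M.th c * ((M.aT (lev w' c))⁻¹ x * u))) - _
    rw [pos_apply]
    rfl
  have hsq : ‖KT M κ (w' : ℤ) (XI M (G - KS M κ (w : ℤ) G))‖ ^ 2 ≤ (C * ((2 : ℝ) ^ w / 2 ^ w') * ‖G‖) ^ 2 := by
    rw [mul_pow, eg_nsq, eg_nsq, mul_sum]
    refine sum_le_sum fun c _ => ?_
    simp only [hpt]
    rw [eg_pT_sum M c (fun p => ‖op (κ w') ((M.aT 1) ^ (((c : ℕ) : ℤ) - (lev w' c : ℤ))) (fun z => pos M c G c z -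
        op (κ w) (M.s ^ (((c : ℕ) : ℤ) - (lev w c : ℤ))) (pos M c G c) z) p‖ ^ 2), ← pos_sum M c G c]
    exact hF.ao1E hw (eg_frm_T M (eg_abs_lev le_rfl _)) (eg_frm_s M (eg_abs_lev hw _)) _
  exact le_of_sq_le_sq hsq (by positivity)

/-- `1 - KT` against `KS` after the tie, two times of the same block -/
private theorem eg_ST {M : Mod A} {C : ℕ} {κ : ℕ → A → ℝ} (hF : Fam M C κ) {w k k' : ℕ}
    (hw : w ≤ k) (hk : k ≤ k') (G : HK K A E) {c c' : Fin (2 ^ K)} (hc : (c' : ℕ) / 2 ^ k = (c : ℕ) / 2 ^ k) :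
    ∑ u, ‖XI M (KS M κ (k' : ℤ) G) (c', u) -
        ∑ x, κ w x • XI M (KS M κ (k' : ℤ) G) (c', (M.aT (lev w c))⁻¹ x * u)‖ ^ 2 ≤
      (C * ((2 : ℝ) ^ w / 2 ^ k')) ^ 2 * ∑ v, ‖G (c', v)‖ ^ 2 := by
  set β : MulAut A := M.s ^ (((c' : ℕ) : ℤ) - (lev k' c' : ℤ)) with hβ
  set f : A → E := pos M c' G c' with hf
  have h1 : ∀ u, XI M (KS M κ (k' : ℤ) G) (c', u) = op (κ k') β f (M.pT u c') := by
    intro u
    rw [eg_XI, eg_KS_pos M κ k' c', ← eg_pT]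
  have h2 : ∀ u, ∑ x, κ w x • XI M (KS M κ (k' : ℤ) G) (c', (M.aT (lev w c))⁻¹ x * u) =
      op (κ w) ((M.aT 1) ^ (((c' : ℕ) : ℤ) - (lev w c : ℤ))) (op (κ k') β f) (M.pT u c') := by
    intro u
    show _ = ∑ x, κ w x • op (κ k') β f (((M.aT 1) ^ (((c' : ℕ) : ℤ) - (lev w c : ℤ))) x * M.pT u c')
    refine sum_congr rfl fun x _ => ?_
    rw [h1, pT_mul, eg_aT_zpow]
  have h3 : ∀ u, XI M (KS M κ (k' : ℤ) G) (c', u) -
        ∑ x, κ w x • XI M (KS M κ (k' : ℤ) G) (c', (M.aT (lev w c))⁻¹ x * u) =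
      op (κ k') β f (M.pT u c') -
        op (κ w) ((M.aT 1) ^ (((c' : ℕ) : ℤ) - (lev w c : ℤ))) (op (κ k') β f) (M.pT u c') := by
    intro u
    rw [h2, h1]
  rw [sum_congr rfl fun u _ => by rw [h3 u]]
  rw [eg_pT_sum M c' (fun p => ‖op (κ k') β f p -
    op (κ w) ((M.aT 1) ^ (((c' : ℕ) : ℤ) - (lev w c : ℤ))) (op (κ k') β f) p‖ ^ 2), ← pos_sum M c' G c']
  exact hF.ao2E (hw.trans hk) (eg_frm_s M (eg_abs_lev le_rfl _)) (eg_frm_T M (eg_abs_blk hw hk hc)) _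

/-- `κ 0` is the identity -/
private theorem eg_KT_neg {M : Mod A} {C : ℕ} {κ : ℕ → A → ℝ} (hF : Fam M C κ) {w : ℤ} (hw : w ≤ 0)
    (F : HK K A E) : KT M κ w F = F := by
  classical
  ext p
  obtain ⟨c, v⟩ := p
  rw [eg_KT, show w.toNat = 0 by omega]
  have h1 : ∀ x, κ 0 x • F (c, (M.aT (lev 0 c))⁻¹ x * v) = if x = 1 then F (c, v) else 0 := by
    intro x
    rw [hF.zero]
    by_cases hx : x = 1
    · rw [if_pos hx, if_pos hx, one_smul, hx, map_one, one_mul]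
    · rw [if_neg hx, if_neg hx, zero_smul]
  rw [sum_congr rfl fun x _ => h1 x, sum_ite_eq' univ (1 : A), if_pos (mem_univ _)]

/-- left tests -/
private theorem eg_left {M : Mod A} {C : ℕ} (hC : 1 ≤ C) {κ : ℕ → A → ℝ} (hF : Fam M C κ) {k : ℕ}
    (hk : k < K) (y : ℕ) (L : HK K A E →ₗ[ℝ] HK K A E) (hL : Tst (KT M κ) k y L) (F : HK K A E) :
    ‖L (DK M κ k F)‖ ≤ 3 * C * ((2 : ℝ) ^ y)⁻¹ * ‖F‖ := by
  have hT := af_T (K := K) (E := E) hC hF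
  have hC' : (1 : ℝ) ≤ C := by exact_mod_cast hC
  rcases Nat.eq_zero_or_pos y with hy | hy
  · have hLn : ∀ z, ‖L z‖ ≤ ‖z‖ := by
      intro z
      rcases hL with ⟨-, h⟩ | h | h
      · rw [h]; exact le_rfl
      · rw [h]; exact hT.norm_le _ _
      · rw [h]; exact hT.norm_sub_le _ _
    rw [hy, pow_zero, inv_one, mul_one]
    calc ‖L (DK M κ k F)‖ ≤ ‖DK M κ k F‖ := hLn _
      _ ≤ 2 * ‖F‖ := eg_D_norm hC hF hk _
      _ ≤ 3 * C * ‖F‖ := mul_le_mul_of_nonneg_right (by linarith) (norm_nonneg _)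
  set G : HK K A E := EB k F with hGd
  have hG : ‖G‖ ≤ ‖F‖ := EB_norm hk.le F
  have e1 : ((k : ℤ) + 1) = ((k + 1 : ℕ) : ℤ) := by push_cast; ring
  have hD : DK M κ k F = EB k (XI M (KS M κ (k : ℤ) G) - XI M (KS M κ ((k + 1 : ℕ) : ℤ) G)) := by
    rw [eg_DK, e1, map_sub (XI M)]
  rcases hL with ⟨h0, -⟩ | h | h
  · omega
  · -- `L = KT (k + y)`
    have e2 : ((k : ℤ) + (y : ℤ)) = ((k + y : ℕ) : ℤ) := by push_cast; ring
    have e3 : L (DK M κ k F) = EB k (KT M κ ((k + y : ℕ) : ℤ) (XI M (G - KS M κ ((k + 1 : ℕ) : ℤ) G)) -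
        KT M κ ((k + y : ℕ) : ℤ) (XI M (G - KS M κ (k : ℤ) G))) := by
      have e9 : KS M κ (k : ℤ) G - KS M κ ((k + 1 : ℕ) : ℤ) G =
          (G - KS M κ ((k + 1 : ℕ) : ℤ) G) - (G - KS M κ (k : ℤ) G) := by abel
      rw [h, hD, e2, ← EB_KT (by push_cast; omega), ← map_sub (XI M), e9, map_sub (XI M),
        map_sub (KT M κ ((k + y : ℕ) : ℤ))]
    have a1 := eg_TS hF (show k + 1 ≤ k + y by omega) G
    have a2 := eg_TS hF (show k ≤ k + y by omega) G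
    have e4 : (2 : ℝ) ^ (k + 1) / 2 ^ (k + y) = 2 * ((2 : ℝ) ^ y)⁻¹ := by
      rw [pow_add, pow_add]; field_simp
    have e5 : (2 : ℝ) ^ k / 2 ^ (k + y) = ((2 : ℝ) ^ y)⁻¹ := by
      rw [pow_add]; field_simp
    rw [e4] at a1
    rw [e5] at a2
    rw [e3]
    set Z1 : HK K A E := KT M κ ((k + y : ℕ) : ℤ) (XI M (G - KS M κ ((k + 1 : ℕ) : ℤ) G))
    set Z2 : HK K A E := KT M κ ((k + y : ℕ) : ℤ) (XI M (G - KS M κ (k : ℤ) G))
    have e6 := EB_norm hk.le (Z1 - Z2)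
    have e7 := norm_sub_le Z1 Z2
    have e8 : C * (2 * ((2 : ℝ) ^ y)⁻¹) * ‖G‖ + C * ((2 : ℝ) ^ y)⁻¹ * ‖G‖ = 3 * C * ((2 : ℝ) ^ y)⁻¹ * ‖G‖ := by
      ring
    have e9 : 3 * C * ((2 : ℝ) ^ y)⁻¹ * ‖G‖ ≤ 3 * C * ((2 : ℝ) ^ y)⁻¹ * ‖F‖ :=
      mul_le_mul_of_nonneg_left hG (by positivity)
    linarith
  · -- `L = 1 - KT (k - y)`
    by_cases hyk : (k : ℤ) - y ≤ 0 ∧ k < y
    · have : L (DK M κ k F) = 0 := by
        have e7 : L (DK M κ k F) = DK M κ k F - KT M κ ((k : ℤ) - y) (DK M κ k F) := by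
          rw [h]
          rfl
        rw [e7, eg_KT_neg hF hyk.1, sub_self]
      rw [this, norm_zero]
      positivity
    have hyk' : y ≤ k := by omega
    obtain ⟨w, hw⟩ : ∃ w : ℕ, (k : ℤ) - y = (w : ℤ) := ⟨k - y, by omega⟩
    have hwk : w + y = k := by omega
    set Q1 : HK K A E := XI M (KS M κ (k : ℤ) G) with hQ1
    set Q2 : HK K A E := XI M (KS M κ ((k + 1 : ℕ) : ℤ) G) with hQ2
    -- the two kernels
    set T : HK K A E → Fin (2 ^ K) → Fin (2 ^ K) → A → E := fun Q c c' u =>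
      Q (c', u) - ∑ x, κ w x • Q (c', (M.aT (lev w c))⁻¹ x * u) with hTd
    have hLQ : ∀ (Q : HK K A E) (c : Fin (2 ^ K)) (u : A), (EB k Q - KT M κ (w : ℤ) (EB k Q)) (c, u) =
        ∑ c' : Fin (2 ^ K), sb k c' c • T Q c c' u := by
      intro Q c u
      show EB k Q (c, u) - KT M κ (w : ℤ) (EB k Q) (c, u) = _
      rw [eg_KT, Int.toNat_natCast]
      simp only [eg_EB, hTd, smul_sub, sum_sub_distrib, smul_sum]
      congr 1
      rw [sum_comm]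
      exact sum_congr rfl fun c' _ => sum_congr rfl fun x _ => smul_comm _ _ _
    have hfin : ∀ (k' : ℕ) (hk' : k ≤ k'), ‖EB k (XI M (KS M κ (k' : ℤ) G)) -
        KT M κ (w : ℤ) (EB k (XI M (KS M κ (k' : ℤ) G)))‖ ≤ C * ((2 : ℝ) ^ w / 2 ^ k') * ‖G‖ := by
      intro k' hk'
      refine le_of_sq_le_sq ?_ (by positivity)
      rw [mul_pow, eg_nsq, eg_nsq, mul_sum]
      simp only [hLQ]
      exact eg_avg_blk hk.le _ _ fun c c' hc => eg_ST hF (by omega) hk' G hc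
    have a1 := hfin k le_rfl
    have a2 := hfin (k + 1) (Nat.le_succ k)
    have e4 : (2 : ℝ) ^ w / 2 ^ k = ((2 : ℝ) ^ y)⁻¹ := by
      rw [← hwk, pow_add]; field_simp
    have e5 : (2 : ℝ) ^ w / 2 ^ (k + 1) ≤ ((2 : ℝ) ^ y)⁻¹ := by
      rw [← e4]
      exact div_le_div_of_nonneg_left (by positivity) (by positivity)
        (pow_le_pow_right₀ (by norm_num) (Nat.le_succ k))
    rw [e4] at a1
    have a3 : ‖EB k Q2 - KT M κ (w : ℤ) (EB k Q2)‖ ≤ C * ((2 : ℝ) ^ y)⁻¹ * ‖G‖ :=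
      a2.trans (mul_le_mul_of_nonneg_right (mul_le_mul_of_nonneg_left e5 (by linarith)) (norm_nonneg _))
    have e6 : L (DK M κ k F) = (EB k Q1 - KT M κ (w : ℤ) (EB k Q1)) - (EB k Q2 - KT M κ (w : ℤ) (EB k Q2)) := by
      have e7 : L (DK M κ k F) = EB k (Q1 - Q2) - KT M κ ((k : ℤ) - y) (EB k (Q1 - Q2)) := by
        rw [h, hD]
        rfl
      rw [e7, hw, map_sub (EB k), map_sub (KT M κ (w : ℤ))]
      abel
    rw [e6]
    have e7 := norm_sub_le (EB k Q1 - KT M κ (w : ℤ) (EB k Q1)) (EB k Q2 - KT M κ (w : ℤ) (EB k Q2))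
    have e8 : 3 * C * ((2 : ℝ) ^ y)⁻¹ * ‖G‖ ≤ 3 * C * ((2 : ℝ) ^ y)⁻¹ * ‖F‖ :=
      mul_le_mul_of_nonneg_left hG (by positivity)
    have e9 : 0 ≤ C * ((2 : ℝ) ^ y)⁻¹ * ‖G‖ := by positivity
    have e10 : 3 * C * ((2 : ℝ) ^ y)⁻¹ * ‖G‖ = 3 * (C * ((2 : ℝ) ^ y)⁻¹ * ‖G‖) := by ring
    linarith

private theorem rho_cube : (1 : ℝ) / 2 ≤ rho ^ 3 := by
  unfold rho
  rw [← Real.rpow_natCast, ← Real.rpow_mul (by norm_num)]
  have h : (1 : ℝ) / 2 = (2 : ℝ) ^ (-1 : ℝ) := by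
    rw [Real.rpow_neg_one]; norm_num
  rw [h]
  exact Real.rpow_le_rpow_of_exponent_le (by norm_num) (by norm_num)

private theorem rho_nn : 0 ≤ rho := by
  unfold rho
  positivity

theorem cls_DK {M : Mod A} {C : ℕ} (hC : 1 ≤ C) {κ : ℕ → A → ℝ} (hF : Fam M C κ) {k : ℕ}
    (hk : k < K) (m : ℕ)
    (hg : ∀ j : ℕ, (j = 0 ∨ j = 2 ^ k) → ∀ f : A → E,
      ∑ p, ‖tie M k (fun v => op (κ k) 1 f v - op (κ (k + 1)) (M.s ^ j) f v) p‖ ^ 2 ≤
        (((2 : ℝ) ^ (3 * m))⁻¹) ^ 2 * ∑ v, ‖f v‖ ^ 2) :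
    Cls (KT M κ) (KS M κ) k k (3 * C * ((2 : ℝ) ^ m)⁻¹) (DK M κ k : HK K A E →ₗ[ℝ] HK K A E) := by
  intro yl yr L R hL hR x
  have hS := af_S (K := K) (E := E) hC hF
  have hT := af_T (K := K) (E := E) hC hF
  have hC' : (1 : ℝ) ≤ C := by exact_mod_cast hC
  have hLn : ∀ z, ‖L z‖ ≤ ‖z‖ := by
    intro z
    rcases hL with ⟨-, h⟩ | h | h
    · rw [h]; exact le_rfl
    · rw [h]; exact hT.norm_le _ _
    · rw [h]; exact hT.norm_sub_le _ _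
  have hRn : ∀ z, ‖R z‖ ≤ ‖z‖ := by
    intro z
    rcases hR with ⟨-, h⟩ | h | h
    · rw [h]; exact le_rfl
    · rw [h]; exact hS.norm_le _ _
    · rw [h]; exact hS.norm_sub_le _ _
  set t : ℝ := ‖L (DK M κ k (R x))‖ with ht
  set X : ℝ := ‖x‖ with hX
  have hX0 : 0 ≤ X := norm_nonneg _
  have ht0 : 0 ≤ t := norm_nonneg _
  have b1 : t ≤ ((2 : ℝ) ^ (3 * m))⁻¹ * X :=
    (hLn _).trans ((DK_gain hk (by positivity) hg _).trans
      (mul_le_mul_of_nonneg_left (hRn x) (by positivity)))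
  have b2 : t ≤ 3 * C * ((2 : ℝ) ^ yr)⁻¹ * X := (hLn _).trans (eg_right hC hF hk yr R hR x)
  have b3 : t ≤ 3 * C * ((2 : ℝ) ^ yl)⁻¹ * X :=
    (eg_left hC hF hk yl L hL _).trans (mul_le_mul_of_nonneg_left (hRn x) (by positivity))
  have hr := rho_nn
  have hr3 := rho_cube
  have hcube : t ^ 3 ≤ (3 * C * ((2 : ℝ) ^ m)⁻¹ * rho ^ yl * rho ^ yr * X) ^ 3 := by
    have e0 : t ^ 3 = t * t * t := by ring
    have e1 : t * t * t ≤ (((2 : ℝ) ^ (3 * m))⁻¹ * X) * (3 * C * ((2 : ℝ) ^ yr)⁻¹ * X) *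
        (3 * C * ((2 : ℝ) ^ yl)⁻¹ * X) :=
      mul_le_mul (mul_le_mul b1 b2 ht0 (by positivity)) b3 ht0 (by positivity)
    have e2 : ((2 : ℝ) ^ yl)⁻¹ ≤ (rho ^ 3) ^ yl := by
      rw [← inv_pow]
      exact pow_le_pow_left₀ (by norm_num) (by linarith [hr3]) _
    have e3 : ((2 : ℝ) ^ yr)⁻¹ ≤ (rho ^ 3) ^ yr := by
      rw [← inv_pow]
      exact pow_le_pow_left₀ (by norm_num) (by linarith [hr3]) _
    have e4 : ((2 : ℝ) ^ (3 * m))⁻¹ = (((2 : ℝ) ^ m)⁻¹) ^ 3 := by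
      rw [inv_pow, ← pow_mul, mul_comm]
    have e5 : ((2 : ℝ) ^ yl)⁻¹ * ((2 : ℝ) ^ yr)⁻¹ ≤ (rho ^ 3) ^ yl * (rho ^ 3) ^ yr :=
      mul_le_mul e2 e3 (by positivity) (by positivity)
    have e6 : (3 * (C : ℝ)) ^ 2 ≤ (3 * C) ^ 3 := pow_le_pow_right₀ (by linarith) (by norm_num)
    calc t ^ 3 ≤ _ := e0 ▸ e1
      _ = ((((2 : ℝ) ^ m)⁻¹) ^ 3 * X ^ 3) * ((3 * C) ^ 2 * (((2 : ℝ) ^ yl)⁻¹ * ((2 : ℝ) ^ yr)⁻¹)) := by
          rw [e4]; ring
      _ ≤ ((((2 : ℝ) ^ m)⁻¹) ^ 3 * X ^ 3) * ((3 * C) ^ 3 * ((rho ^ 3) ^ yl * (rho ^ 3) ^ yr)) :=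
          mul_le_mul_of_nonneg_left (mul_le_mul e6 e5 (by positivity) (by positivity)) (by positivity)
      _ = _ := by
          rw [← pow_mul, ← pow_mul, mul_comm 3 yl, mul_comm 3 yr, pow_mul, pow_mul]
          ring
  exact le_of_pow_le_pow_left₀ (by norm_num) (by positivity) hcube

end

end NPG
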