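import Pool.Agent.NPG.EVec
import Pool.Agent.NPG.EAF

set_option autoImplicit false

/-!
# NPG / EHsp : the space of functions of time and label

`HK K A E` = functions on `Fin (2^K) × A` with values in `E`, `l²` norm.  `slop κ α` acts on the slice of the
time `c` by `F (c, v) ↦ ∑ x, κ x • F (c, α c x * v)`.
`KS M κ w` : the `S`-family, frame `(s^l)⁻¹`, `l = c / 2^w * 2^w`; `KT M κ w` : the `T`-family, frame `(aT l)⁻¹`.
(`w : ℤ`, negative levels are level `0`, i.e. the identity.)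
`EB k` : average over the block of level `k` at fixed label; `XI M` : the tie, `F (c, u) ↦ F (c, th c * u)`;
`lft k f` : the function `(c, v) ↦ f (c / 2^k) v`.

PROOF of `af_S`, `af_T`.  Everything is done slice by slice (`PiLp.norm_sq_eq_of_L2` or `EuclideanSpace`-like lemmas,
`Fintype.sum_prod_type`).  Slice `c`: for `S` put `F (c, v) = f (M.s^c v)`: the operator becomes `op κ (M.s^(c - l)) f` at
`M.s^c v` (`op_frame`), `0 ≤ c - l < 2^w`; for `T` put `F (c, u) = f (M.pT u c)`, then `M.pT ((M.aT l)⁻¹ x * u) c =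
(M.aT 1)^(c - l) x * M.pT u c` (`pT_mul`, `aT_one_pow`).  `v ↦ M.s^c v` and `u ↦ M.pT u c` are bijections of `A`.  So for
`0 ≤ w ≤ w'` both operators have frames in `Frm M w'`, and `Fam.ao1E`, `Fam.ao2E` apply.  For `w < 0` (or `w = 0`) `P w = 1`
(`Fam.zero`).  `symm`: `op_symm`; `nonneg`: `Fam.psdE`; `le_one`: `op_norm` and Cauchy-Schwarz.
-/

namespace NPG
open Finset

noncomputable section

/-- functions of time and label -/
abbrev HK (K : ℕ) (A E : Type) [NormedAddCommGroup E] [InnerProductSpace ℝ E] [Fintype A] : Type :=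
  PiLp 2 (fun _ : Fin (2 ^ K) × A => E)

variable {K : ℕ} {A E : Type} [Group A] [Fintype A] [NormedAddCommGroup E] [InnerProductSpace ℝ E]

/-- smoothing slice by slice -/
def slop (κ : A → ℝ) (α : ℕ → MulAut A) : HK K A E →ₗ[ℝ] HK K A E where
  toFun F := WithLp.toLp 2 (fun p => ∑ x, κ x • F (p.1, α p.1 x * p.2))
  map_add' F F' := by
    ext p
    simp [smul_add, sum_add_distrib]
  map_smul' r F := by
    ext p
    simp [smul_sum, smul_comm r]

/-- left end of the block of level `w` -/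
def lev (w c : ℕ) : ℕ := c / 2 ^ w * 2 ^ w

/-- the `S`-family -/
def KS (M : Mod A) (κ : ℕ → A → ℝ) (w : ℤ) : HK K A E →ₗ[ℝ] HK K A E :=
  slop (κ w.toNat) (fun c => (M.s ^ lev w.toNat c)⁻¹)

/-- the `T`-family -/
def KT (M : Mod A) (κ : ℕ → A → ℝ) (w : ℤ) : HK K A E →ₗ[ℝ] HK K A E :=
  slop (κ w.toNat) (fun c => (M.aT (lev w.toNat c))⁻¹)

/-- the tie -/
def XI (M : Mod A) : HK K A E →ₗ[ℝ] HK K A E where
  toFun F := WithLp.toLp 2 (fun p => F (p.1, M.th p.1 * p.2))
  map_add' F F' := by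
    ext p
    simp
  map_smul' r F := by
    ext p
    simp

/-- kernel of the average over the block -/
def sb (k c c' : ℕ) : ℝ := if c / 2 ^ k = c' / 2 ^ k then ((2 : ℝ) ^ k)⁻¹ else 0

/-- average over the block of level `k` at fixed label (`k ≤ K`) -/
def EB (k : ℕ) : HK K A E →ₗ[ℝ] HK K A E where
  toFun F := WithLp.toLp 2 (fun p => ∑ c : Fin (2 ^ K), sb k c p.1 • F (c, p.2))
  map_add' F F' := by
    ext p
    simp [smul_add, sum_add_distrib]
  map_smul' r F := by
    ext p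
    simp [smul_sum, smul_comm r]

/-- a function of block and label as a function of time and label -/
def lft (k : ℕ) (f : ℕ → A → E) : HK K A E := WithLp.toLp 2 (fun p => f ((p.1 : ℕ) / 2 ^ k) p.2)

private theorem ehsp_slop (κ : A → ℝ) (α : ℕ → MulAut A) (F : HK K A E) (c : Fin (2 ^ K))
    (v : A) : slop κ α F (c, v) = op κ (α c) (fun u => F (c, u)) v := rfl

private theorem ehsp_key (κ : A → ℝ) (a : MulAut A) (φ : ℕ → A ≃ A)
    (hφ : ∀ c y u, φ c (y * u) = (a ^ c) y * φ c u) {l c : ℕ} (h : l ≤ c) (f : A → E) (v : A) :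
    op κ (a ^ l)⁻¹ (fun u => f (φ c u)) v = op κ (a ^ (c - l)) f (φ c v) := by
  unfold op
  refine sum_congr rfl fun x _ => ?_
  have e : (a ^ c) ((a ^ l)⁻¹ x) = (a ^ (c - l)) x := by
    rw [← MulAut.mul_apply, pow_sub a h]
  simp only [hφ, e]

private theorem ehsp_lev_le (w c : ℕ) : lev w c ≤ c := Nat.div_mul_le_self _ _

private theorem ehsp_lev_sub (w c : ℕ) : c - lev w c ≤ 2 ^ w := by
  unfold lev
  have h := Nat.mod_lt c (y := 2 ^ w) (by positivity)
  have h2 := Nat.div_add_mod' c (2 ^ w)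
  omega

private theorem ehsp_normsq (F : HK K A E) : ‖F‖ ^ 2 = ∑ c, ∑ v, ‖F (c, v)‖ ^ 2 := by
  rw [PiLp.norm_sq_eq_of_L2, Fintype.sum_prod_type]

private theorem ehsp_of_sq (F G : HK K A E) (r : ℝ) (hr : 0 ≤ r)
    (h : ∀ c, ∑ v, ‖F (c, v)‖ ^ 2 ≤ r ^ 2 * ∑ v, ‖G (c, v)‖ ^ 2) : ‖F‖ ≤ r * ‖G‖ := by
  refine le_of_sq_le_sq ?_ (mul_nonneg hr (norm_nonneg _))
  rw [mul_pow, ehsp_normsq, ehsp_normsq, mul_sum]
  exact sum_le_sum fun c _ => h c

private theorem ehsp_zero {M : Mod A} {C : ℕ} {κ : ℕ → A → ℝ} (hF : Fam M C κ)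
    (α : ℕ → MulAut A) (F : HK K A E) : slop (κ 0) α F = F := by
  classical
  ext p
  obtain ⟨c, v⟩ := p
  rw [ehsp_slop]
  unfold op
  rw [sum_eq_single 1]
  · rw [hF.zero, if_pos rfl, one_smul, map_one, one_mul]
  · intro b _ hb
    rw [hF.zero, if_neg hb, zero_smul]
  · intro h
    exact absurd (mem_univ _) h

private theorem ehsp_af {M : Mod A} {C : ℕ} {κ : ℕ → A → ℝ} (hF : Fam M C κ) (a : MulAut A)
    (ha : ∀ n m : ℕ, m ≤ 2 ^ n → a ^ m ∈ Frm M n) (φ : ℕ → A ≃ A)
    (hφ : ∀ c y u, φ c (y * u) = (a ^ c) y * φ c u) :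
    AF (fun w : ℤ => (slop (κ w.toNat) (fun c => (a ^ lev w.toNat c)⁻¹) :
      HK K A E →ₗ[ℝ] HK K A E)) C := by
  have hnorm : ∀ (w : ℤ) (x : HK K A E),
      ‖slop (κ w.toNat) (fun c => (a ^ lev w.toNat c)⁻¹) x‖ ≤ ‖x‖ := by
    intro w x
    have h := ehsp_of_sq (slop (κ w.toNat) (fun c => (a ^ lev w.toNat c)⁻¹) x) x 1 zero_le_one
      (fun c => by
        simp only [ehsp_slop, one_pow, one_mul]
        have h1 := op_norm (hF.nonneg w.toNat) (hF.sum_one w.toNat) ((a ^ lev w.toNat c)⁻¹)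
          (fun u => x (c, u))
        exact h1)
    rwa [one_mul] at h
  -- a slice in the frame `φ c`
  have hsl : ∀ (k k' : ℕ), k ≤ k' → ∀ (c : ℕ) (g : A → E) (v : A),
      op (κ k) (a ^ lev k c)⁻¹ g v =
        op (κ k) (a ^ (c - lev k c)) (fun u => g ((φ c).symm u)) (φ c v) := by
    intro k k' _ c g v
    rw [← ehsp_key (κ k) a φ hφ (ehsp_lev_le k c)]
    simp only [Equiv.symm_apply_apply]
  have hfr : ∀ (k k' : ℕ), k ≤ k' → ∀ c : ℕ, a ^ (c - lev k c) ∈ Frm M k' := by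
    intro k k' hk c
    exact ha k' _ ((ehsp_lev_sub k c).trans (Nat.pow_le_pow_right (by norm_num) hk))
  have hpow : ∀ k n : ℕ, (2 : ℝ) ^ k / 2 ^ (k + n) = ((2 : ℝ) ^ n)⁻¹ := by
    intro k n
    rw [pow_add]
    field_simp
  refine ⟨?_, ?_, ?_, ?_, ?_⟩
  · intro w x y
    rw [PiLp.inner_apply, PiLp.inner_apply, Fintype.sum_prod_type, Fintype.sum_prod_type]
    refine sum_congr rfl fun c _ => ?_
    simp only [ehsp_slop]
    have h1 := op_symm (hF.symm w.toNat) ((a ^ lev w.toNat c)⁻¹) (fun u => x (c, u))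
      (fun u => y (c, u))
    exact h1
  · intro w x
    rw [PiLp.inner_apply, Fintype.sum_prod_type]
    refine sum_nonneg fun c _ => ?_
    have h := hF.psdE w.toNat ((a ^ lev w.toNat c)⁻¹) (fun u => x (c, u))
    refine h.trans (le_of_eq (sum_congr rfl fun v _ => ?_))
    simp only [ehsp_slop]
    exact real_inner_comm _ _
  · intro w x
    refine (real_inner_le_norm _ _).trans ?_
    rw [sq]
    exact mul_le_mul_of_nonneg_right (hnorm w x) (norm_nonneg _)
  · intro w n x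
    rcases lt_or_ge w 0 with hw | hw
    · have e : w.toNat = 0 := Int.toNat_of_nonpos hw.le
      have e1 : slop (κ w.toNat) (fun c => (a ^ lev w.toNat c)⁻¹) x = x := by
        rw [e]
        exact ehsp_zero hF _ x
      simp only [e1, sub_self, map_zero, norm_zero]
      positivity
    · obtain ⟨k, rfl⟩ := Int.eq_ofNat_of_zero_le hw
      have e1 : ((k : ℤ) + n).toNat = k + n := by omega
      have e2 : ((k : ℤ)).toNat = k := by omega
      simp only [e1, e2]
      refine ehsp_of_sq _ x _ (by positivity) fun c => ?_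
      have h := hF.ao1E (k := k) (k' := k + n) (Nat.le_add_right _ _)
        (hfr (k + n) (k + n) le_rfl c) (hfr k (k + n) (Nat.le_add_right _ _) c)
        (fun u => x (c, (φ c).symm u))
      rw [hpow] at h
      have e3 : ∑ v, ‖x (c, (φ c).symm v)‖ ^ 2 = ∑ v, ‖x (c, v)‖ ^ 2 :=
        Equiv.sum_comp (φ c).symm (fun v => ‖x (c, v)‖ ^ 2)
      rw [e3, ← Equiv.sum_comp (φ c)] at h
      refine le_trans (le_of_eq ?_) h
      refine sum_congr rfl fun v _ => ?_
      rw [ehsp_slop, hsl (k + n) (k + n) le_rfl]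
      congr 3
      funext u
      have e4 : (x - slop (κ k) (fun c => (a ^ lev k c)⁻¹) x) (c, (φ c).symm u) =
          x (c, (φ c).symm u) -
            (slop (κ k) (fun c => (a ^ lev k c)⁻¹) x) (c, (φ c).symm u) := rfl
      rw [e4, ehsp_slop, hsl k (k + n) (Nat.le_add_right _ _), Equiv.apply_symm_apply]
  · intro w n x
    rcases lt_or_ge w 0 with hw | hw
    · have e : w.toNat = 0 := Int.toNat_of_nonpos hw.le
      have e1 : ∀ y : HK K A E, slop (κ w.toNat) (fun c => (a ^ lev w.toNat c)⁻¹) y = y := by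
        intro y
        rw [e]
        exact ehsp_zero hF _ y
      simp only [e1, sub_self, norm_zero]
      positivity
    · obtain ⟨k, rfl⟩ := Int.eq_ofNat_of_zero_le hw
      have e1 : ((k : ℤ) + n).toNat = k + n := by omega
      have e2 : ((k : ℤ)).toNat = k := by omega
      simp only [e1, e2]
      refine ehsp_of_sq _ x _ (by positivity) fun c => ?_
      have h := hF.ao2E (k := k) (k' := k + n) (Nat.le_add_right _ _)
        (hfr (k + n) (k + n) le_rfl c) (hfr k (k + n) (Nat.le_add_right _ _) c)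
        (fun u => x (c, (φ c).symm u))
      rw [hpow] at h
      have e3 : ∑ v, ‖x (c, (φ c).symm v)‖ ^ 2 = ∑ v, ‖x (c, v)‖ ^ 2 :=
        Equiv.sum_comp (φ c).symm (fun v => ‖x (c, v)‖ ^ 2)
      rw [e3, ← Equiv.sum_comp (φ c)] at h
      refine le_trans (le_of_eq ?_) h
      refine sum_congr rfl fun v _ => ?_
      have e4 : (slop (κ (k + n)) (fun c => (a ^ lev (k + n) c)⁻¹) x -
          slop (κ k) (fun c => (a ^ lev k c)⁻¹)
            (slop (κ (k + n)) (fun c => (a ^ lev (k + n) c)⁻¹) x)) (c, v) =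
          slop (κ (k + n)) (fun c => (a ^ lev (k + n) c)⁻¹) x (c, v) -
          slop (κ k) (fun c => (a ^ lev k c)⁻¹)
            (slop (κ (k + n)) (fun c => (a ^ lev (k + n) c)⁻¹) x) (c, v) := rfl
      rw [e4, ehsp_slop, ehsp_slop, hsl (k + n) (k + n) le_rfl,
        hsl k (k + n) (Nat.le_add_right _ _)]
      congr 4
      funext u
      rw [ehsp_slop, hsl (k + n) (k + n) le_rfl, Equiv.apply_symm_apply]

theorem af_S {M : Mod A} {C : ℕ} (hC : 1 ≤ C) {κ : ℕ → A → ℝ} (hF : Fam M C κ) :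
    AF (KS M κ : ℤ → (HK K A E →ₗ[ℝ] HK K A E)) C := by
  refine ehsp_af hF M.s (fun n m hm => ⟨(m : ℤ), ?_, Or.inl (zpow_natCast _ _).symm⟩)
    (fun c => (M.s ^ c).toEquiv) (fun c y u => ?_)
  · rw [abs_of_nonneg (by positivity)]
    exact_mod_cast hm
  · exact map_mul (M.s ^ c) y u

theorem af_T {M : Mod A} {C : ℕ} (hC : 1 ≤ C) {κ : ℕ → A → ℝ} (hF : Fam M C κ) :
    AF (KT M κ : ℤ → (HK K A E →ₗ[ℝ] HK K A E)) C := by
  have h := ehsp_af (K := K) (E := E) hF (M.aT 1)
    (fun n m hm => ⟨(m : ℤ), ?_, Or.inr (zpow_natCast _ _).symm⟩)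
    (fun c => (Equiv.mulLeft (M.th c)).trans (M.s ^ c).toEquiv) (fun c y u => ?_)
  · have e : (KT M κ : ℤ → (HK K A E →ₗ[ℝ] HK K A E)) =
        (fun w : ℤ => (slop (κ w.toNat) (fun c => ((M.aT 1) ^ lev w.toNat c)⁻¹) :
          HK K A E →ₗ[ℝ] HK K A E)) := by
      funext w
      unfold KT
      simp only [aT_one_pow]
    rw [e]
    exact h
  · rw [abs_of_nonneg (by positivity)]
    exact_mod_cast hm
  · have h2 := pT_mul M y u c
    rw [← aT_one_pow] at h2
    exact h2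

end

end NPG
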