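import Pool.Agent.NPG.EWlk

set_option autoImplicit false

/-!
# NPG / ESqf : the square function of a moving process

`En P x k1 K t` : `x k` is a process (`k1 ≤ k ≤ K + 1`, `x (K+1) = 0`) whose quadratic forms `⟪x k, P w (x k)⟫` move little:
`∑_k τ k ≤ t`.

PROOF of `cls_mid`: `T = (1 - P (w - r)) P (w + r)`, one sided tests with number `y`:
 `‖T‖ ≤ C 2^(-2r)` (`ao'`, `n = 2 r`); `‖P (w+y) T‖ ≤ C 2^(-(y+r))` (`ao`);
 `(1 - P (w-y)) T`: if `y ≤ r` use `‖T‖`; if `y > r`: `T = P (w+r) - P (w-r) P (w+r)`, so `≤ C 2^(-(y+r)) + C 2^(-(y-r))`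
 (`ao'` for `(1 - P (w-y)) P (w+r)` and `(1 - P (w-y)) P (w-r)`).
 `T P (w+y)`: `y ≤ r`: `‖T‖`; `y > r`: `P (w+r) P (w+y) = P (w+y) - (1 - P (w+r)) P (w+y)`: `≤ C 2^(-(y+r)) + C 2^(-(y-r))`.
 `T (1 - P (w-y))`: `≤ C 2^(-(y+r))` (`ao`).
 In all cases `≤ 2 C min (2^(-2r), 2^(r-y))` for `y > r` or `≤ C 2^(-2r)` for `y ≤ r`, or `C 2^(-(y+r))`, so
 `≤ 2 C 2^(-r) 2^(-y/3)` (`(2^(-2r))^(2/3) (2^(r-y))^(1/3) = 2^(-r) 2^(-y/3)`).  Two sided: the geometric mean of the two one sided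
 bounds: `2 C 2^(-r) 2^(-yl/6) 2^(-yr/6)` (`‖(1 - P)‖, ‖P‖ ≤ 1`).
PROOF of `sqf`.  Let `r` be large: `r ≥ r0` (walk) and `144 (2 C 2^(-r)) ≤ 1`.  `X_s = ∑_(k1 ≤ k ≤ K) ‖Dl P r (k + s) (x k)‖^2`, all `X_s ≤
∑ ‖x k‖^2`; let `X = sup_s X_s`.  By `dl_sq`: `X_s ≤ ∑ ⟪x k, Dl (k+s) (x k)⟫ + 2 ∑ |⟪x k, T_(k+s) (x k)⟫|`.  First sum: with
`a_k(w) = ⟪x k, P w (x k)⟫`: `a_k(k+s-r) - a_k(k+s+r) = ∑_(i=-r)^(r-1) (a_k(k+s+i) - a_k(k+s+i+1))`; for fixed `i`: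
`∑_k (a_k(k+s+i) - a_(k+1)(k+1+s+i)) = a_(k1)(k1+s+i) ≤ t` (telescoping to `x (K+1) = 0` with fixed `w`: `a_(k1)(w) ≤ ∑ τ ≤ t`) and
`∑_k (a_(k+1)(k+s+i+1) - a_k(k+s+i+1)) ≤ ∑ τ ≤ t`.  Total `≤ 4 r t`.  Second sum: `walk` with `PL = PR = P`, `cls_mid`, `eV_sq_le`:
`∑_k |..| ≤ 2 C 2^(-r) (∑_k (eV (x k))^2 + 7 2^(-n) ∑ ‖x k‖^2) ≤ 2 C 2^(-r) (36 X + 7 2^(-n) ∑ ‖x k‖^2)` (`6 * 6 = 36`).  `n → ∞`:
`X ≤ 4 r t + (1/2) X`.  So `X ≤ 8 r t`.
-/

namespace NPG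
open Finset

/-- processes with small variation -/
def En {V : Type} [NormedAddCommGroup V] [InnerProductSpace ℝ V] (P : ℤ → (V →ₗ[ℝ] V))
    (x : ℕ → V) (k1 K : ℕ) (t : ℝ) : Prop :=
  x (K + 1) = 0 ∧ ∃ τ : ℕ → ℝ, (∀ k, k1 ≤ k → k ≤ K → ∀ w : ℤ,
    |inner ℝ (x k) (P w (x k)) - inner ℝ (x (k + 1)) (P w (x (k + 1)))| ≤ τ k) ∧
    ∑ k ∈ Icc k1 K, τ k ≤ t

private theorem ESqf_rho (y : ℕ) : (rho ^ y) ^ 2 = (2 : ℝ) ^ (-((y : ℝ) / 3)) := by
  unfold rho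
  rw [← Real.rpow_natCast ((2 : ℝ) ^ (-(1 / 6) : ℝ)) y, ← Real.rpow_mul (by norm_num : (0 : ℝ) ≤ 2),
    ← Real.rpow_natCast _ 2, ← Real.rpow_mul (by norm_num : (0 : ℝ) ≤ 2)]
  congr 1
  push_cast
  ring

private theorem ESqf_inv (n : ℕ) : ((2 : ℝ) ^ n)⁻¹ = (2 : ℝ) ^ (-(n : ℝ)) := by
  rw [Real.rpow_neg (by norm_num), Real.rpow_natCast]

private theorem ESqf_rho_pos (y : ℕ) : 0 < rho ^ y := by
  unfold rho
  positivity

/-- small number of the test -/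
private theorem ESqf_n1 {r y : ℕ} (h : y ≤ 3 * r) :
    ((2 : ℝ) ^ (2 * r))⁻¹ ≤ ((2 : ℝ) ^ r)⁻¹ * (rho ^ y) ^ 2 := by
  rw [ESqf_rho, ESqf_inv, ESqf_inv, ← Real.rpow_add (by norm_num)]
  refine Real.rpow_le_rpow_of_exponent_le (by norm_num) ?_
  have h1 : (y : ℝ) ≤ 3 * r := by exact_mod_cast h
  push_cast
  linarith

/-- large number of the test -/
private theorem ESqf_n2 {r y : ℕ} (h : 3 * r ≤ y) :
    ((2 : ℝ) ^ (y - r))⁻¹ ≤ ((2 : ℝ) ^ r)⁻¹ * (rho ^ y) ^ 2 := by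
  rw [ESqf_rho, ESqf_inv, ESqf_inv, ← Real.rpow_add (by norm_num)]
  refine Real.rpow_le_rpow_of_exponent_le (by norm_num) ?_
  have h1 : (3 : ℝ) * r ≤ y := by exact_mod_cast h
  rw [Nat.cast_sub (by omega)]
  linarith

private theorem ESqf_n3 (r y : ℕ) :
    ((2 : ℝ) ^ (y + r))⁻¹ ≤ ((2 : ℝ) ^ r)⁻¹ * (rho ^ y) ^ 2 := by
  rw [ESqf_rho, ESqf_inv, ESqf_inv, ← Real.rpow_add (by norm_num)]
  refine Real.rpow_le_rpow_of_exponent_le (by norm_num) ?_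
  have h1 : (0 : ℝ) ≤ y := Nat.cast_nonneg _
  push_cast
  linarith

section mid
variable {V : Type} [NormedAddCommGroup V] [InnerProductSpace ℝ V] {P : ℤ → (V →ₗ[ℝ] V)} {C : ℝ}

private theorem ESqf_tst (h : AF P C) {w : ℤ} {y : ℕ} {L : V →ₗ[ℝ] V} (hL : Tst P w y L) (x : V) :
    ‖L x‖ ≤ ‖x‖ := by
  rcases hL with ⟨-, rfl⟩ | rfl | rfl
  · simp
  · exact h.norm_le _ _
  · simpa using h.norm_sub_le (w - y) x

private theorem ESqf_T (h : AF P C) (r : ℕ) (w : ℤ) (x : V) :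
    ‖P (w + r) x - P (w - r) (P (w + r) x)‖ ≤ C * ((2 : ℝ) ^ (2 * r))⁻¹ * ‖x‖ := by
  have h1 := h.ao' (w - r) (2 * r) x
  have e : w - r + ((2 * r : ℕ) : ℤ) = w + r := by push_cast; ring
  rwa [e] at h1

private theorem ESqf_aux {C X : ℝ} (hC : 1 ≤ C) (hX : 0 ≤ X) {a b : ℝ} (h : a ≤ b) : C * a * X ≤ C * b * X := by
  refine mul_le_mul_of_nonneg_right (mul_le_mul_of_nonneg_left h (by linarith)) hX

private theorem ESqf_right (hC : 1 ≤ C) (h : AF P C) (r : ℕ) (w : ℤ) {y : ℕ} {R : V →ₗ[ℝ] V}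
    (hR : Tst P w y R) (x : V) : ‖P (w + r) (R x) - P (w - r) (P (w + r) (R x))‖ ≤
      2 * C * ((2 : ℝ) ^ r)⁻¹ * (rho ^ y) ^ 2 * ‖x‖ := by
  have hx : 0 ≤ ‖x‖ := norm_nonneg x
  have hC0 : 0 ≤ C := by linarith
  have hq : 0 ≤ C * (((2 : ℝ) ^ r)⁻¹ * (rho ^ y) ^ 2) * ‖x‖ := by positivity
  rcases le_total y (3 * r) with hy | hy
  · have h1 := ESqf_T h r w (R x)
    have h2 : C * ((2 : ℝ) ^ (2 * r))⁻¹ * ‖R x‖ ≤ C * ((2 : ℝ) ^ (2 * r))⁻¹ * ‖x‖ :=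
      mul_le_mul_of_nonneg_left (ESqf_tst h hR x) (by positivity)
    have h3 := ESqf_aux hC hx (ESqf_n1 hy)
    linarith
  · rcases hR with ⟨hy0, rfl⟩ | rfl | rfl
    · subst hy0
      have hr : r = 0 := by omega
      subst hr
      have h1 := ESqf_T h 0 w x
      simp only [LinearMap.id_apply, pow_zero, mul_zero, inv_one, mul_one, one_pow] at h1 ⊢
      refine h1.trans ?_
      nlinarith
    · -- `P (w + y)`
      set z := P (w + y) x with hz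
      have e1 : w + r + ((y - r : ℕ) : ℤ) = w + y := by
        rw [Nat.cast_sub (by omega)]; ring
      have e2 : w - r + ((y + r : ℕ) : ℤ) = w + y := by push_cast; ring
      have h1 := h.ao' (w + r) (y - r) x
      have h2 := h.ao' (w - r) (y + r) x
      rw [e1, ← hz] at h1
      rw [e2, ← hz] at h2
      have h3 := h.norm_sub_le (w - r) (z - P (w + r) z)
      have e3 : P (w + r) z - P (w - r) (P (w + r) z) =
          (z - P (w - r) z) - ((z - P (w + r) z) - P (w - r) (z - P (w + r) z)) := by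
        rw [map_sub]; abel
      rw [e3]
      refine (norm_sub_le _ _).trans ?_
      have h4 := ESqf_aux hC hx (ESqf_n2 hy)
      have h5 := ESqf_aux hC hx (ESqf_n3 r y)
      linarith
    · -- `1 - P (w - y)`
      have e1 : w - y + ((y + r : ℕ) : ℤ) = w + r := by push_cast; ring
      have h1 := h.ao (w - y) (y + r) x
      rw [e1] at h1
      have h3 := h.norm_sub_le (w - r) (P (w + r) (x - P (w - y) x))
      have h5 := ESqf_aux hC hx (ESqf_n3 r y)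
      simp only [LinearMap.sub_apply, LinearMap.id_apply]
      linarith

private theorem ESqf_left (hC : 1 ≤ C) (h : AF P C) (r : ℕ) (w : ℤ) {y : ℕ} {L : V →ₗ[ℝ] V}
    (hL : Tst P w y L) (x : V) : ‖L (P (w + r) x - P (w - r) (P (w + r) x))‖ ≤
      2 * C * ((2 : ℝ) ^ r)⁻¹ * (rho ^ y) ^ 2 * ‖x‖ := by
  have hx : 0 ≤ ‖x‖ := norm_nonneg x
  have hC0 : 0 ≤ C := by linarith
  have hq : 0 ≤ C * (((2 : ℝ) ^ r)⁻¹ * (rho ^ y) ^ 2) * ‖x‖ := by positivity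
  rcases le_total y (3 * r) with hy | hy
  · have h1 := ESqf_T h r w x
    have h2 := ESqf_tst h hL (P (w + r) x - P (w - r) (P (w + r) x))
    have h3 := ESqf_aux hC hx (ESqf_n1 hy)
    linarith
  · have hn := h.norm_le (w + r) x
    rcases hL with ⟨hy0, rfl⟩ | rfl | rfl
    · subst hy0
      have hr : r = 0 := by omega
      subst hr
      have h1 := ESqf_T h 0 w x
      simp only [LinearMap.id_apply, pow_zero, mul_zero, inv_one, mul_one, one_pow] at h1 ⊢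
      refine h1.trans ?_
      nlinarith
    · have e1 : w - r + ((y + r : ℕ) : ℤ) = w + y := by push_cast; ring
      have h1 := h.ao (w - r) (y + r) (P (w + r) x)
      rw [e1] at h1
      have h2 : C * ((2 : ℝ) ^ (y + r))⁻¹ * ‖P (w + r) x‖ ≤ C * ((2 : ℝ) ^ (y + r))⁻¹ * ‖x‖ :=
        mul_le_mul_of_nonneg_left hn (by positivity)
      have h5 := ESqf_aux hC hx (ESqf_n3 r y)
      linarith
    · have e1 : w - y + ((y + r : ℕ) : ℤ) = w + r := by push_cast; ring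
      have e2 : w - y + ((y - r : ℕ) : ℤ) = w - r := by
        rw [Nat.cast_sub (by omega)]; ring
      have h1 := h.ao' (w - y) (y + r) x
      have h2 := h.ao' (w - y) (y - r) (P (w + r) x)
      rw [e1] at h1
      rw [e2] at h2
      have h3 : C * ((2 : ℝ) ^ (y - r))⁻¹ * ‖P (w + r) x‖ ≤ C * ((2 : ℝ) ^ (y - r))⁻¹ * ‖x‖ :=
        mul_le_mul_of_nonneg_left hn (by positivity)
      have h4 := ESqf_aux hC hx (ESqf_n2 hy)
      have h5 := ESqf_aux hC hx (ESqf_n3 r y)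
      have e3 : ((LinearMap.id : V →ₗ[ℝ] V) - P (w - y)) (P (w + r) x - P (w - r) (P (w + r) x)) =
          (P (w + r) x - P (w - y) (P (w + r) x)) -
            (P (w - r) (P (w + r) x) - P (w - y) (P (w - r) (P (w + r) x))) := by
        simp only [LinearMap.sub_apply, LinearMap.id_apply, map_sub]
      rw [e3]
      refine (norm_sub_le _ _).trans ?_
      linarith

end mid

theorem cls_mid {V : Type} [NormedAddCommGroup V] [InnerProductSpace ℝ V]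
    {P : ℤ → (V →ₗ[ℝ] V)} {C : ℝ} (hC : 1 ≤ C) (h : AF P C) (r : ℕ) (w : ℤ) :
    Cls P P w w (2 * C * ((2 : ℝ) ^ r)⁻¹)
      ((LinearMap.id - P (w - r)) ∘ₗ P (w + r)) := by
  intro yl yr L R hL hR x
  have e : ((LinearMap.id - P (w - r)) ∘ₗ P (w + r)) (R x) =
      P (w + r) (R x) - P (w - r) (P (w + r) (R x)) := by
    simp only [LinearMap.comp_apply, LinearMap.sub_apply, LinearMap.id_apply]
  rw [e]
  have hC0 : 0 ≤ C := by linarith
  have h1 := (ESqf_tst h hL _).trans (ESqf_right hC h r w hR x)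
  have h2 := (ESqf_left hC h r w hL (R x)).trans
    (mul_le_mul_of_nonneg_left (ESqf_tst h hR x) (by positivity))
  have p1 := ESqf_rho_pos yl
  have p2 := ESqf_rho_pos yr
  refine le_of_sq_le_sq (a := ‖L (P (w + r) (R x) - P (w - r) (P (w + r) (R x)))‖) ?_ (by positivity)
  have h3 := mul_le_mul h1 h2 (norm_nonneg _) (by positivity)
  refine (le_of_eq (sq _)).trans (h3.trans (le_of_eq ?_))
  ring

private theorem ESqf_tel (f : ℕ → ℝ) {k1 K : ℕ} (h : k1 ≤ K) :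
    ∑ k ∈ Icc k1 K, (f k - f (k + 1)) = f k1 - f (K + 1) := by
  induction K, h using Nat.le_induction with
  | base => simp
  | succ K hK ih =>
    rw [Finset.sum_Icc_succ_top (by omega), ih]
    ring

private theorem ESqf_cw (n : ℕ) : ∑ j ∈ Icc (-(n : ℤ)) n, 2 * ((2 : ℝ) ^ j.natAbs)⁻¹ =
    6 - 4 * ((2 : ℝ) ^ n)⁻¹ := by
  induction n with
  | zero => simp; norm_num
  | succ n ih =>
    have h : Icc (-((n + 1 : ℕ) : ℤ)) ((n + 1 : ℕ) : ℤ) =
        insert (-((n : ℤ) + 1)) (insert ((n : ℤ) + 1) (Icc (-(n : ℤ)) n)) := by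
      ext j
      simp only [Finset.mem_Icc, Finset.mem_insert]
      push_cast
      omega
    have e : (n : ℤ) + 1 = ((n + 1 : ℕ) : ℤ) := by push_cast; ring
    rw [h, Finset.sum_insert, Finset.sum_insert, ih, Int.natAbs_neg, e, Int.natAbs_natCast, pow_succ, mul_inv]
    · ring
    · simp
    · simp only [Finset.mem_insert, Finset.mem_Icc]
      omega

/-- the sum of the forms -/
private theorem ESqf_form {V : Type} [NormedAddCommGroup V] [InnerProductSpace ℝ V] (P : ℤ → (V →ₗ[ℝ] V))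
    (r : ℕ) (x : ℕ → V) {k1 K : ℕ} {t : ℝ} (hK : k1 ≤ K) (h : En P x k1 K t) (s : ℤ) :
    ∑ k ∈ Icc k1 K, inner ℝ (x k) (Dl P r (k + s) (x k)) ≤ 4 * r * t := by
  obtain ⟨h0, τ, h1, h2⟩ := h
  set a : ℕ → ℤ → ℝ := fun k w => inner ℝ (x k) (P w (x k)) with ha
  have ha0 : ∀ w, a (K + 1) w = 0 := fun w => by
    rw [ha]
    simp only [h0, inner_zero_left]
  have step : ∀ k ∈ Icc k1 K, ∀ w, a k w - a (k + 1) w ≤ τ k ∧ a (k + 1) w - a k w ≤ τ k := by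
    intro k hk w
    rw [Finset.mem_Icc] at hk
    have := abs_le.1 (h1 k hk.1 hk.2 w)
    exact ⟨this.2, by linarith [this.1]⟩
  -- the first one
  have first : ∀ w, a k1 w ≤ t := by
    intro w
    have h3 := ESqf_tel (fun k => a k w) hK
    simp only [ha0, sub_zero] at h3
    rw [← h3]
    exact (Finset.sum_le_sum fun k hk => (step k hk w).1).trans h2
  have inner1 : ∀ i : ℕ, ∑ k ∈ Icc k1 K, (a k (k + s - r + i) - a k (k + s - r + i + 1)) ≤ 2 * t := by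
    intro i
    have h3 := ESqf_tel (fun k => a k (k + s - r + i)) hK
    simp only [ha0, sub_zero] at h3
    have h4 : ∑ k ∈ Icc k1 K, (a k (k + s - r + i) - a k (k + s - r + i + 1)) ≤
        ∑ k ∈ Icc k1 K, ((a k (k + s - r + i) - a (k + 1) (((k + 1 : ℕ) : ℤ) + s - r + i)) + τ k) := by
      refine Finset.sum_le_sum fun k hk => ?_
      have h5 := (step k hk (k + s - r + i + 1)).2
      have e : ((k + 1 : ℕ) : ℤ) + s - r + i = k + s - r + i + 1 := by push_cast; ring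
      rw [e]
      linarith
    rw [Finset.sum_add_distrib, h3] at h4
    have h6 := first ((k1 : ℤ) + s - r + i)
    linarith
  have e1 : ∑ k ∈ Icc k1 K, inner ℝ (x k) (Dl P r (k + s) (x k)) =
      ∑ i ∈ range (2 * r), ∑ k ∈ Icc k1 K, (a k (k + s - r + i) - a k (k + s - r + i + 1)) := by
    rw [Finset.sum_comm]
    refine Finset.sum_congr rfl fun k _ => ?_
    have h3 := Finset.sum_range_sub' (fun i : ℕ => a k (k + s - r + i)) (2 * r)
    have e2 : ∀ i : ℕ, ((k : ℤ) + s - r + ((i + 1 : ℕ) : ℤ)) = k + s - r + i + 1 := fun i => by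
      push_cast; ring
    simp only [e2] at h3
    rw [h3]
    have e3 : (k : ℤ) + s - r + ((0 : ℕ) : ℤ) = k + s - r := by push_cast; ring
    have e4 : (k : ℤ) + s - r + ((2 * r : ℕ) : ℤ) = k + s + r := by push_cast; ring
    rw [e3, e4]
    simp only [Dl, LinearMap.sub_apply, inner_sub_right, ha]
  rw [e1]
  refine (Finset.sum_le_card_nsmul _ _ (2 * t) fun i _ => inner1 i).trans (le_of_eq ?_)
  rw [Finset.card_range, nsmul_eq_mul]
  push_cast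
  ring

theorem sqf (C : ℝ) (hC : 1 ≤ C) : ∃ r0 : ℕ, 1 ≤ r0 ∧ ∀ (V : Type) [NormedAddCommGroup V]
    [InnerProductSpace ℝ V] (P : ℤ → (V →ₗ[ℝ] V)), AF P C → ∀ r : ℕ, r0 ≤ r →
    ∀ (x : ℕ → V) (k1 K : ℕ) (t : ℝ), k1 ≤ K → En P x k1 K t → ∀ s : ℤ,
      ∑ k ∈ Icc k1 K, ‖Dl P r (k + s) (x k)‖ ^ 2 ≤ 8 * r * t := by
  obtain ⟨r0, hr0, hwalk⟩ := walk C
  refine ⟨max r0 ⌈288 * C⌉₊, le_max_of_le_left hr0, ?_⟩
  intro V _ _ P h r hr x k1 K t hK hE
  have hr1 : r0 ≤ r := (le_max_left _ _).trans hr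
  have hC0 : 0 ≤ C := by linarith
  have hr2 : 288 * C ≤ (2 : ℝ) ^ r := by
    have h1 : 288 * C ≤ (r : ℝ) := (Nat.le_ceil _).trans (by exact_mod_cast (le_max_right _ _).trans hr)
    have h2 : (r : ℝ) ≤ (2 : ℝ) ^ r := by exact_mod_cast (Nat.lt_two_pow_self (n := r)).le
    linarith
  set A : ℝ := 2 * C * ((2 : ℝ) ^ r)⁻¹ with hA
  have hA0 : 0 ≤ A := by positivity
  have hA1 : 144 * A ≤ 1 := by
    rw [hA, ← div_eq_mul_inv, ← mul_div_assoc, div_le_one (by positivity)]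
    linarith
  set X : ℤ → ℝ := fun s => ∑ k ∈ Icc k1 K, ‖Dl P r (k + s) (x k)‖ ^ 2 with hX
  set N2 : ℝ := ∑ k ∈ Icc k1 K, ‖x k‖ ^ 2 with hN2
  have hXN : ∀ s, X s ≤ N2 := fun s => Finset.sum_le_sum fun k _ =>
    pow_le_pow_left₀ (norm_nonneg _) (h.norm_Dl r _ _) 2
  have hbdd : BddAbove (Set.range X) := ⟨N2, by rintro _ ⟨s, rfl⟩; exact hXN s⟩
  have hle : ∀ s, X s ≤ ⨆ s, X s := fun s => le_ciSup hbdd s
  set S : ℝ := ⨆ s, X s with hS
  have hX0 : ∀ s, 0 ≤ X s := fun s => Finset.sum_nonneg fun k _ => sq_nonneg _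
  have hS0 : 0 ≤ S := (hX0 0).trans (hle 0)
  -- the sum of the squares of `eV`
  have hev : ∀ (n : ℕ) (s : ℤ), ∑ k ∈ Icc k1 K, eV P r n (k + s) (x k) ^ 2 ≤ 36 * S := by
    intro n s
    have h1 : ∑ k ∈ Icc k1 K, eV P r n (k + s) (x k) ^ 2 ≤
        ∑ k ∈ Icc k1 K, 6 * ∑ j ∈ Icc (-(n : ℤ)) n, 2 * ((2 : ℝ) ^ j.natAbs)⁻¹ *
          ‖Dl P r (k + (s + j * r)) (x k)‖ ^ 2 := by
      refine Finset.sum_le_sum fun k _ => (eV_sq_le P r n _ _).trans (le_of_eq ?_)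
      refine congrArg _ (Finset.sum_congr rfl fun j _ => ?_)
      rw [add_assoc]
    refine h1.trans ?_
    rw [← Finset.mul_sum, Finset.sum_comm]
    have h2 : ∑ j ∈ Icc (-(n : ℤ)) n, ∑ k ∈ Icc k1 K, 2 * ((2 : ℝ) ^ j.natAbs)⁻¹ *
          ‖Dl P r (k + (s + j * r)) (x k)‖ ^ 2 ≤ ∑ j ∈ Icc (-(n : ℤ)) n, 2 * ((2 : ℝ) ^ j.natAbs)⁻¹ * S := by
      refine Finset.sum_le_sum fun j _ => ?_
      rw [← Finset.mul_sum]
      exact mul_le_mul_of_nonneg_left (hle (s + j * r)) (by positivity)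
    rw [← Finset.sum_mul, ESqf_cw] at h2
    have h3 : (0 : ℝ) < ((2 : ℝ) ^ n)⁻¹ := by positivity
    nlinarith
  have key : ∀ s, X s ≤ 4 * r * t + S / 2 := by
    intro s
    have hn : ∀ n : ℕ, X s ≤ (4 * r * t + S / 2) + (14 * A * N2) * ((2 : ℝ) ^ n)⁻¹ := by
      intro n
      have h1 : X s ≤ ∑ k ∈ Icc k1 K, (inner ℝ (x k) (Dl P r (k + s) (x k)) +
          2 * (A * (eV P r n (k + s) (x k) ^ 2 + 7 * ((2 : ℝ) ^ n)⁻¹ * ‖x k‖ ^ 2))) := by
        refine Finset.sum_le_sum fun k _ => (h.dl_sq r _ _).trans ?_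
        have h2 := hwalk V P P h h r hr1 (k + s) (k + s) A _ hA0 (cls_mid hC h r (k + s)) n (x k) (x k)
        have h3 := (le_abs_self _).trans h2
        simp only [LinearMap.comp_apply, LinearMap.sub_apply, LinearMap.id_apply] at h3
        have e : A * (eV P r n (k + s) (x k) * eV P r n (k + s) (x k) + 7 * ((2 : ℝ) ^ n)⁻¹ * ‖x k‖ * ‖x k‖) =
            A * (eV P r n (k + s) (x k) ^ 2 + 7 * ((2 : ℝ) ^ n)⁻¹ * ‖x k‖ ^ 2) := by ring
        rw [e] at h3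
        linarith
      rw [Finset.sum_add_distrib, ← Finset.mul_sum, ← Finset.mul_sum, Finset.sum_add_distrib,
        ← Finset.mul_sum] at h1
      have h4 := ESqf_form P r x hK hE s
      have h5 := hev n s
      have h6 : A * (∑ k ∈ Icc k1 K, eV P r n (k + s) (x k) ^ 2) ≤ A * (36 * S) :=
        mul_le_mul_of_nonneg_left h5 hA0
      have h7 : 144 * A * S ≤ 1 * S := mul_le_mul_of_nonneg_right hA1 hS0
      rw [← hN2] at h1
      nlinarith
    have lim : Filter.Tendsto (fun n : ℕ => (4 * r * t + S / 2) + (14 * A * N2) * ((2 : ℝ) ^ n)⁻¹)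
        Filter.atTop (nhds ((4 * r * t + S / 2) + (14 * A * N2) * 0)) := by
      refine Filter.Tendsto.const_add _ (Filter.Tendsto.const_mul _ ?_)
      exact tendsto_inv_atTop_zero.comp (tendsto_pow_atTop_atTop_of_one_lt (by norm_num))
    have h8 := ge_of_tendsto' lim hn
    linarith
  intro s
  have h9 : S ≤ 4 * r * t + S / 2 := ciSup_le key
  have h10 := hle s
  have h11 : X s ≤ 8 * r * t := by linarith
  exact h11

end NPG
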