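import Pool.Agent.NPG.EHsp
import Pool.Agent.NPG.ESqf

set_option autoImplicit false
set_option linter.unusedSectionVars false

/-!
# NPG / EL1 : accumulated processes have small variation

PROOF.  `x k = lft k (acc K q k)`; `x (K + 1) = 0` (empty sum).  For `k ≤ K`: `x k - x (k + 1) = lft k (q k)`
(`acc K q k b u - acc K q (k + 1) (b / 2) u = q k b u`, `c / 2^(k+1) = c / 2^k / 2`).  For a symmetric `P = slop κ α` with
`κ ≥ 0`, `∑ κ = 1`: `⟪x, P x⟫ - ⟪x', P x'⟫ = ⟪x - x', P x⟫ + ⟪P x', x - x'⟫`, and `‖P x (p)‖ ≤ B` if all `‖x p‖ ≤ B`; so it is at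
most `2 B ∑_p ‖(x - x') p‖ = 2 B (2^K card A) nv K k q`.  `‖acc K q k (c / 2^k) v‖ ≤ B` for `k1 ≤ k ≤ K` (`c / 2^k < 2^(K-k)`), and
`x (K+1) = 0`.  Sum over `k`: `tot`.
-/

namespace NPG
open Finset

variable {K : ℕ} {A E : Type} [Group A] [Fintype A] [NormedAddCommGroup E] [InnerProductSpace ℝ E]

private theorem el1_slop (κ : A → ℝ) (α : ℕ → MulAut A) (F : HK K A E) (c : Fin (2 ^ K))
    (v : A) : slop κ α F (c, v) = op κ (α c) (fun u => F (c, u)) v := rfl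

/-- smoothing is symmetric -/
private theorem el1_symm {κ : A → ℝ} (hs : ∀ x, κ x⁻¹ = κ x) (α : ℕ → MulAut A)
    (x y : HK K A E) : inner ℝ (slop κ α x) y = inner ℝ x (slop κ α y) := by
  rw [PiLp.inner_apply, PiLp.inner_apply, Fintype.sum_prod_type, Fintype.sum_prod_type]
  refine sum_congr rfl fun c _ => ?_
  simp only [el1_slop]
  exact op_symm hs (α c) (fun u => x (c, u)) (fun u => y (c, u))

/-- smoothing keeps a pointwise bound -/
private theorem el1_bd {κ : A → ℝ} (h0 : ∀ x, 0 ≤ κ x) (h1 : ∑ x, κ x = 1)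
    (α : ℕ → MulAut A) {B : ℝ} (x : HK K A E) (hx : ∀ p, ‖x p‖ ≤ B) (p : Fin (2 ^ K) × A) :
    ‖slop κ α x p‖ ≤ B := by
  obtain ⟨c, v⟩ := p
  rw [el1_slop]
  unfold op
  refine (norm_sum_le _ _).trans ?_
  have h2 : ∀ y ∈ (univ : Finset A), ‖κ y • x (c, (α c) y * v)‖ ≤ κ y * B := by
    intro y _
    rw [norm_smul, Real.norm_eq_abs, abs_of_nonneg (h0 y)]
    exact mul_le_mul_of_nonneg_left (hx _) (h0 y)
  refine (sum_le_sum h2).trans (le_of_eq ?_)
  rw [← sum_mul, h1, one_mul]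

/-- pairing with a bounded function -/
private theorem el1_pair {B : ℝ} (d y : HK K A E) (hy : ∀ p, ‖y p‖ ≤ B) :
    |inner ℝ d y| ≤ B * ∑ p, ‖d p‖ := by
  rw [PiLp.inner_apply, mul_sum]
  refine (abs_sum_le_sum_abs _ _).trans (sum_le_sum fun p _ => ?_)
  refine (abs_real_inner_le_norm _ _).trans ?_
  rw [mul_comm]
  exact mul_le_mul_of_nonneg_right (hy p) (norm_nonneg _)

private theorem el1_acc (q : ℕ → ℕ → A → E) {k : ℕ} (hk : k ≤ K) (b : ℕ) (u : A) :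
    acc K q k b u = q k b u + acc K q (k + 1) (b / 2) u := by
  unfold acc
  rw [← Finset.add_sum_Ioc_eq_sum_Icc hk]
  congr 1
  · simp
  · have h : Ioc k K = Icc (k + 1) K := by
      ext j
      simp only [Finset.mem_Ioc, Finset.mem_Icc]
      omega
    rw [h]
    refine sum_congr rfl fun w hw => ?_
    rw [Finset.mem_Icc] at hw
    have e : w - k = (w - (k + 1)) + 1 := by omega
    rw [e, pow_succ', Nat.div_div_eq_div_mul]

private theorem el1_acc_top (q : ℕ → ℕ → A → E) (b : ℕ) (u : A) :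
    acc K q (K + 1) b u = 0 := by
  unfold acc
  rw [Finset.Icc_eq_empty (by omega), sum_empty]

private theorem el1_top (q : ℕ → ℕ → A → E) :
    (lft (K + 1) (acc K q (K + 1)) : HK K A E) = 0 := by
  ext p
  change acc K q (K + 1) ((p.1 : ℕ) / 2 ^ (K + 1)) p.2 = 0
  exact el1_acc_top q _ _

private theorem el1_diff (q : ℕ → ℕ → A → E) {k : ℕ} (hk : k ≤ K) (p : Fin (2 ^ K) × A) :
    (lft k (acc K q k) - lft (k + 1) (acc K q (k + 1)) : HK K A E) p =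
      q k ((p.1 : ℕ) / 2 ^ k) p.2 := by
  change acc K q k ((p.1 : ℕ) / 2 ^ k) p.2 - acc K q (k + 1) ((p.1 : ℕ) / 2 ^ (k + 1)) p.2 = _
  rw [el1_acc q hk, pow_succ, ← Nat.div_div_eq_div_mul, add_sub_cancel_right]

private theorem el1_sum (q : ℕ → ℕ → A → E) (k : ℕ) :
    ∑ p : Fin (2 ^ K) × A, ‖q k ((p.1 : ℕ) / 2 ^ k) p.2‖ =
      nv K k q * (2 ^ K * Fintype.card A) := by
  unfold nv ex
  rw [div_mul_cancel₀, Fintype.sum_prod_type, Finset.sum_range]
  have h1 : (0 : ℝ) < Fintype.card A := by exact_mod_cast Fintype.card_pos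
  positivity

private theorem el1_en {κ : ℕ → A → ℝ} (h0 : ∀ k x, 0 ≤ κ k x) (h1 : ∀ k, ∑ x, κ k x = 1)
    (hs : ∀ k x, κ k x⁻¹ = κ k x) (α : ℕ → ℕ → MulAut A) {k1 : ℕ} (hk : k1 ≤ K)
    {q : ℕ → ℕ → A → E} {B : ℝ}
    (hB : ∀ k, k1 ≤ k → k ≤ K → ∀ b < 2 ^ (K - k), ∀ u, ‖acc K q k b u‖ ≤ B) :
    En (fun w : ℤ => (slop (κ w.toNat) (α w.toNat) : HK K A E →ₗ[ℝ] HK K A E))
      (fun k => (lft k (acc K q k) : HK K A E)) k1 K
      (2 * B * tot K k1 q * (2 ^ K * Fintype.card A)) := by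
  have hB0 : 0 ≤ B := (norm_nonneg _).trans (hB k1 le_rfl hk 0 (by positivity) 1)
  have hbd : ∀ k, k1 ≤ k → k ≤ K + 1 → ∀ p, ‖(lft k (acc K q k) : HK K A E) p‖ ≤ B := by
    intro k hk1 hk2 p
    change ‖acc K q k ((p.1 : ℕ) / 2 ^ k) p.2‖ ≤ B
    rcases Nat.lt_or_ge K k with h | h
    · have e : k = K + 1 := by omega
      subst e
      rw [el1_acc_top, norm_zero]
      exact hB0
    · refine hB k hk1 h _ ?_ _
      rw [Nat.div_lt_iff_lt_mul (by positivity), ← pow_add, Nat.sub_add_cancel h]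
      exact p.1.isLt
  refine ⟨el1_top q, fun k => 2 * B * nv K k q * (2 ^ K * Fintype.card A), ?_, ?_⟩
  · intro k hk1 hk2 w
    set P : HK K A E →ₗ[ℝ] HK K A E := slop (κ w.toNat) (α w.toNat) with hP
    set x : HK K A E := lft k (acc K q k) with hx
    set x' : HK K A E := lft (k + 1) (acc K q (k + 1)) with hx'
    have hPx : ∀ p, ‖P x p‖ ≤ B := el1_bd (h0 _) (h1 _) _ x (hbd k hk1 (by omega))
    have hPx' : ∀ p, ‖P x' p‖ ≤ B := el1_bd (h0 _) (h1 _) _ x' (hbd (k + 1) (by omega) (by omega))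
    have hsy : inner ℝ (P x') (x - x') = inner ℝ x' (P (x - x')) := el1_symm (hs _) _ _ _
    have e1 : inner ℝ x (P x) - inner ℝ x' (P x') =
        inner ℝ (x - x') (P x) + inner ℝ (x - x') (P x') := by
      rw [real_inner_comm (P x') (x - x'), hsy, map_sub, inner_sub_left, inner_sub_right]
      ring
    have hd : ∑ p, ‖(x - x') p‖ = nv K k q * (2 ^ K * Fintype.card A) := by
      rw [← el1_sum]
      exact sum_congr rfl fun p _ => by rw [hx, hx', el1_diff q hk2 p]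
    have h3 := el1_pair (x - x') (P x) hPx
    have h4 := el1_pair (x - x') (P x') hPx'
    rw [hd] at h3 h4
    change |inner ℝ x (P x) - inner ℝ x' (P x')| ≤ _
    rw [e1]
    refine (abs_add_le _ _).trans ?_
    linarith
  · refine le_of_eq ?_
    unfold tot
    rw [mul_sum, sum_mul]

theorem en_S {M : Mod A} {C : ℕ} {κ : ℕ → A → ℝ} (hF : Fam M C κ) {k1 : ℕ} (hk : k1 ≤ K)
    {q : ℕ → ℕ → A → E} {B : ℝ}
    (hB : ∀ k, k1 ≤ k → k ≤ K → ∀ b < 2 ^ (K - k), ∀ u, ‖acc K q k b u‖ ≤ B) :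
    En (KS M κ) (fun k => (lft k (acc K q k) : HK K A E)) k1 K
      (2 * B * tot K k1 q * (2 ^ K * Fintype.card A)) :=
  el1_en hF.nonneg hF.sum_one hF.symm (fun w c => (M.s ^ lev w c)⁻¹) hk hB

theorem en_T {M : Mod A} {C : ℕ} {κ : ℕ → A → ℝ} (hF : Fam M C κ) {k1 : ℕ} (hk : k1 ≤ K)
    {q : ℕ → ℕ → A → E} {B : ℝ}
    (hB : ∀ k, k1 ≤ k → k ≤ K → ∀ b < 2 ^ (K - k), ∀ u, ‖acc K q k b u‖ ≤ B) :
    En (KT M κ) (fun k => (lft k (acc K q k) : HK K A E)) k1 K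
      (2 * B * tot K k1 q * (2 ^ K * Fintype.card A)) :=
  el1_en hF.nonneg hF.sum_one hF.symm (fun w c => (M.aT (lev w c))⁻¹) hk hB

end NPG
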