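import Pool.Agent.NPG.EVec

set_option autoImplicit false

/-!
# NPG / ESin : the single scale inequality

PROOF.  `tp M K k f (ro ..) * (2^K card A) = ∑_b ∑_(m < 2^k) ∑_u ⟪f b u, h_b (th (l + m) u)⟫`, `b < 2^(K-k)`, `l = b 2^k`,
`h_b v = g b v - ∑ x, krI x • g b ((M.s^l)⁻¹ x * v)`.  Put `g' v = g b ((M.s^l)⁻¹ v)`; then `h_b v = h' (M.s^l v)` with
`h' = g' - ∑_d cd d • op (κ d k) 1 g'` (`krI`), and `M.s^l (th (l + m) u) = th m * M.pT u l` (`pS_tied`), so the sum over `m` is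
`2^k ⟪f b u, tie M k h' (M.pT u l)⟫`.  `u ↦ M.pT u l` is a bijection.  Cauchy-Schwarz over `u`, `Inp.singleE`:
`≤ 2^k (C/√(2^a)) (∑_u ‖f b u‖^2)^(1/2) (∑_v ‖g b v‖^2)^(1/2)`; Cauchy-Schwarz over `b`; the right side of `SingH` times
`2^K card A` is the same (`ex K (fun c u => ‖f (c / 2^k) u‖^2) (2^K card A) = 2^k ∑_b ∑_u ‖f b u‖^2`).
-/

namespace NPG
open Finset

variable {A : Type} [Group A] [Fintype A]

private theorem ESin_sum_range_mul (m n : ℕ) (F : ℕ → ℝ) :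
    ∑ c ∈ range (n * m), F c = ∑ b ∈ range n, ∑ c ∈ range m, F (b * m + c) := by
  induction n with
  | zero => simp
  | succ n ih => rw [Nat.succ_mul, Finset.sum_range_add, ih, Finset.sum_range_succ]

private theorem ESin_sum_blocks (K k : ℕ) (hkK : k ≤ K) (F : ℕ → ℕ → ℝ) :
    ∑ c ∈ range (2 ^ K), F (c / 2 ^ k) c
      = ∑ b ∈ range (2 ^ (K - k)), ∑ c ∈ range (2 ^ k), F b (b * 2 ^ k + c) := by
  have e : 2 ^ K = 2 ^ (K - k) * 2 ^ k := by rw [← pow_add]; congr 1; omega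
  rw [e, ESin_sum_range_mul]
  refine Finset.sum_congr rfl fun b _ => Finset.sum_congr rfl fun c hc => ?_
  rw [Finset.mem_range] at hc
  have h2 : 0 < 2 ^ k := by positivity
  have e2 : (b * 2 ^ k + c) / 2 ^ k = b := by
    rw [add_comm, Nat.add_mul_div_right _ _ h2, Nat.div_eq_of_lt hc, zero_add]
  rw [e2]

private theorem ESin_cs_sqrt {ι : Type*} (s : Finset ι) (F G : ι → ℝ) (hF : ∀ t ∈ s, 0 ≤ F t)
    (hG : ∀ t ∈ s, 0 ≤ G t) :
    ∑ t ∈ s, Real.sqrt (F t) * Real.sqrt (G t) ≤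
      Real.sqrt (∑ t ∈ s, F t) * Real.sqrt (∑ t ∈ s, G t) := by
  have h := Finset.sum_mul_sq_le_sq_mul_sq s (fun t => Real.sqrt (F t)) (fun t => Real.sqrt (G t))
  have e1 : ∑ t ∈ s, Real.sqrt (F t) ^ 2 = ∑ t ∈ s, F t :=
    Finset.sum_congr rfl fun t ht => Real.sq_sqrt (hF t ht)
  have e2 : ∑ t ∈ s, Real.sqrt (G t) ^ 2 = ∑ t ∈ s, G t :=
    Finset.sum_congr rfl fun t ht => Real.sq_sqrt (hG t ht)
  rw [e1, e2] at h
  rw [← Real.sqrt_mul (Finset.sum_nonneg hF)]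
  exact Real.le_sqrt_of_sq_le h

variable {E : Type} [NormedAddCommGroup E] [InnerProductSpace ℝ E]

omit [Fintype A] in
private theorem ESin_symm_apply (α : MulAut A) (x : A) : α⁻¹ (α x) = x := by
  rw [← MulAut.mul_apply, inv_mul_cancel, MulAut.one_apply]

omit [Fintype A] in
private theorem ESin_apply_symm (α : MulAut A) (x : A) : α (α⁻¹ x) = x := by
  rw [← MulAut.mul_apply, mul_inv_cancel, MulAut.one_apply]

/-- the rough part in the frame of the block -/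
private theorem ESin_ro (M : Mod A) (Q : ℕ) (κ : ℕ → ℕ → A → ℝ) (cd : ℕ → ℝ) (k : ℕ)
    (g : ℕ → A → E) (b : ℕ) (v : A) :
    ro M (krI Q κ cd) k g b v =
      (fun w : A => (fun w : A => g b ((M.s ^ (b * 2 ^ k))⁻¹ w)) w - ∑ d ∈ Icc 1 Q, cd d •
        op (κ d k) 1 (fun w : A => g b ((M.s ^ (b * 2 ^ k))⁻¹ w)) w) (M.pS v (b * 2 ^ k)) := by
  unfold ro sm krI op Mod.pS
  simp only [ESin_symm_apply, MulAut.one_apply, map_mul]
  congr 1
  simp only [Finset.sum_smul, Finset.smul_sum, smul_smul]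
  rw [Finset.sum_comm]

/-- one block -/
private theorem ESin_block {M : Mod A} {C a Q n1 : ℕ} {κ : ℕ → ℕ → A → ℝ} {cd : ℕ → ℝ}
    (h : Inp M C a Q n1 κ cd) {k : ℕ} (hk : C * a ≤ k) (f g : ℕ → A → E) (b : ℕ) :
    |∑ c ∈ range (2 ^ k), ∑ u : A, inner ℝ (f b u)
      (ro M (krI Q κ cd) k g b (M.th (b * 2 ^ k + c) * u))| ≤
      2 ^ k * (C / Real.sqrt (2 ^ a)) *
        (Real.sqrt (∑ u, ‖f b u‖ ^ 2) * Real.sqrt (∑ u, ‖g b u‖ ^ 2)) := by
  set l : ℕ := b * 2 ^ k with hl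
  set g' : A → E := fun w => g b ((M.s ^ l)⁻¹ w) with hg'
  set h' : A → E := fun w => g' w - ∑ d ∈ Icc 1 Q, cd d • op (κ d k) 1 g' w with hh'
  have h1 : ∀ c u, ro M (krI Q κ cd) k g b (M.th (l + c) * u) = h' (M.th c * M.pT u l) := by
    intro c u
    rw [ESin_ro, ← hl, pS_tied]
  have h2 : ∑ c ∈ range (2 ^ k), ∑ u : A, inner ℝ (f b u)
      (ro M (krI Q κ cd) k g b (M.th (l + c) * u))
      = 2 ^ k * ∑ u : A, inner ℝ (f b u) (tie M k h' (M.pT u l)) := by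
    rw [Finset.sum_comm, Finset.mul_sum]
    refine Finset.sum_congr rfl fun u _ => ?_
    unfold tie
    rw [real_inner_smul_right, inner_sum, ← mul_assoc, mul_inv_cancel₀ (by positivity), one_mul]
    refine Finset.sum_congr rfl fun c _ => ?_
    rw [h1]
  have h3 : ∑ u : A, ‖tie M k h' (M.pT u l)‖ ^ 2 = ∑ p : A, ‖tie M k h' p‖ ^ 2 := by
    have := Equiv.sum_comp ((Equiv.mulLeft (M.th l)).trans (M.s ^ l).toEquiv)
      (fun p => ‖tie M k h' p‖ ^ 2)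
    rw [← this]
    rfl
  have h4 : ∑ v : A, ‖g' v‖ ^ 2 = ∑ v : A, ‖g b v‖ ^ 2 := by
    have := Equiv.sum_comp ((M.s ^ l)⁻¹ : MulAut A).toEquiv (fun v => ‖g b v‖ ^ 2)
    rw [← this]
    rfl
  have h5 := h.singleE hk g'
  have h6 : Real.sqrt (∑ p : A, ‖tie M k h' p‖ ^ 2) ≤
      C / Real.sqrt (2 ^ a) * Real.sqrt (∑ v : A, ‖g b v‖ ^ 2) := by
    rw [← h4]
    refine (Real.sqrt_le_sqrt h5).trans (le_of_eq ?_)
    rw [Real.sqrt_mul (by positivity), Real.sqrt_sq (by positivity)]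
  have h7 : |∑ u : A, inner ℝ (f b u) (tie M k h' (M.pT u l))| ≤
      Real.sqrt (∑ u, ‖f b u‖ ^ 2) * Real.sqrt (∑ p : A, ‖tie M k h' p‖ ^ 2) := by
    rw [← h3]
    refine (Finset.abs_sum_le_sum_abs _ _).trans ?_
    refine le_trans (Finset.sum_le_sum fun u _ => ?_)
      (ESin_cs_sqrt univ (fun u => ‖f b u‖ ^ 2) (fun u => ‖tie M k h' (M.pT u l)‖ ^ 2)
        (fun u _ => by positivity) (fun u _ => by positivity))
    rw [Real.sqrt_sq (norm_nonneg _), Real.sqrt_sq (norm_nonneg _)]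
    exact abs_real_inner_le_norm _ _
  rw [h2, abs_mul, abs_of_pos (by positivity : (0 : ℝ) < 2 ^ k), mul_assoc]
  refine mul_le_mul_of_nonneg_left ?_ (by positivity)
  refine h7.trans ?_
  calc Real.sqrt (∑ u, ‖f b u‖ ^ 2) * Real.sqrt (∑ p : A, ‖tie M k h' p‖ ^ 2)
      ≤ Real.sqrt (∑ u, ‖f b u‖ ^ 2) *
        (C / Real.sqrt (2 ^ a) * Real.sqrt (∑ v : A, ‖g b v‖ ^ 2)) :=
        mul_le_mul_of_nonneg_left h6 (Real.sqrt_nonneg _)
    _ = _ := by ring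

theorem single_main {M : Mod A} {C a Q n1 : ℕ} {κ : ℕ → ℕ → A → ℝ} {cd : ℕ → ℝ}
    (h : Inp M C a Q n1 κ cd) : SingH M (krI Q κ cd) C a := by
  intro E _ _ K k hk hkK f g
  have hA : (0 : ℝ) < (Fintype.card A : ℝ) := by exact_mod_cast Fintype.card_pos
  have hD : (0 : ℝ) < 2 ^ K * (Fintype.card A : ℝ) := by positivity
  have hPE : ∀ V : A → E, 0 ≤ ∑ u, ‖V u‖ ^ 2 := fun V => Finset.sum_nonneg fun u _ => by positivity
  have e2 : tp M K k f (ro M (krI Q κ cd) k g) = (∑ b ∈ range (2 ^ (K - k)),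
      ∑ c ∈ range (2 ^ k), ∑ u : A, inner ℝ (f b u)
        (ro M (krI Q κ cd) k g b (M.th (b * 2 ^ k + c) * u))) /
          (2 ^ K * (Fintype.card A : ℝ)) := by
    unfold tp ex
    rw [ESin_sum_blocks K k hkK (fun b c => ∑ u : A,
      inner ℝ (f b u) (ro M (krI Q κ cd) k g b (M.th c * u)))]
  have e3 : ∀ G : ℕ → A → E, ex K (fun c u => ‖G (c / 2 ^ k) u‖ ^ 2)
      = (2 ^ k * ∑ b ∈ range (2 ^ (K - k)), ∑ u, ‖G b u‖ ^ 2) /
        (2 ^ K * (Fintype.card A : ℝ)) := by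
    intro G
    unfold ex
    rw [ESin_sum_blocks K k hkK (fun b _ => ∑ u : A, ‖G b u‖ ^ 2), Finset.mul_sum]
    congr 1
    refine Finset.sum_congr rfl fun b _ => ?_
    rw [Finset.sum_const, Finset.card_range, nsmul_eq_mul]
    push_cast
    ring
  rw [e2, abs_div, abs_of_pos hD, e3, e3, div_le_iff₀ hD]
  set X : ℝ := ∑ b ∈ range (2 ^ (K - k)), ∑ u, ‖f b u‖ ^ 2 with hX
  set Y : ℝ := ∑ b ∈ range (2 ^ (K - k)), ∑ u, ‖g b u‖ ^ 2 with hY
  have hX0 : 0 ≤ X := Finset.sum_nonneg fun b _ => hPE _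
  have hY0 : 0 ≤ Y := Finset.sum_nonneg fun b _ => hPE _
  have h6 : |∑ b ∈ range (2 ^ (K - k)), ∑ c ∈ range (2 ^ k), ∑ u : A, inner ℝ (f b u)
        (ro M (krI Q κ cd) k g b (M.th (b * 2 ^ k + c) * u))| ≤
      2 ^ k * (C / Real.sqrt (2 ^ a)) * (Real.sqrt X * Real.sqrt Y) := by
    refine (Finset.abs_sum_le_sum_abs _ _).trans
      ((Finset.sum_le_sum fun b _ => ESin_block h hk f g b).trans ?_)
    rw [← Finset.mul_sum]
    refine mul_le_mul_of_nonneg_left ?_ (by positivity)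
    exact ESin_cs_sqrt _ _ _ (fun b _ => hPE _) (fun b _ => hPE _)
  refine h6.trans (le_of_eq ?_)
  have f1 : ∀ Z : ℝ, 0 ≤ Z → Real.sqrt (2 ^ k * Z / (2 ^ K * (Fintype.card A : ℝ)))
      = Real.sqrt ((2 : ℝ) ^ k) * Real.sqrt Z / Real.sqrt (2 ^ K * (Fintype.card A : ℝ)) := by
    intro Z hZ
    rw [Real.sqrt_div (by positivity), Real.sqrt_mul (by positivity)]
  rw [f1 X hX0, f1 Y hY0]
  have e4 : Real.sqrt ((2 : ℝ) ^ k) * Real.sqrt ((2 : ℝ) ^ k) = 2 ^ k :=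
    Real.mul_self_sqrt (by positivity)
  have e5 : Real.sqrt (2 ^ K * (Fintype.card A : ℝ)) * Real.sqrt (2 ^ K * (Fintype.card A : ℝ))
      = 2 ^ K * (Fintype.card A : ℝ) := Real.mul_self_sqrt (by positivity)
  have e6 : Real.sqrt (2 ^ K * (Fintype.card A : ℝ)) ≠ 0 := (Real.sqrt_pos.2 hD).ne'
  set s := Real.sqrt (2 ^ K * (Fintype.card A : ℝ)) with hs
  set r := Real.sqrt ((2 : ℝ) ^ k) with hr
  rw [← e5, ← e4]
  field_simp

end NPG
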