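import Pool.Agent.NPG.Defs

/-!
# NPG / Proc : elementary lemmas on averages, accumulation, pairings
-/

namespace NPG
open Finset

noncomputable section

variable {A : Type} [Group A] [Fintype A] {E : Type} [NormedAddCommGroup E]
  [InnerProductSpace ℝ E]

theorem card_pos' : (0 : ℝ) < (Fintype.card A : ℝ) := by
  exact_mod_cast Fintype.card_pos_iff.2 ⟨(1 : A)⟩

theorem ex_nonneg (K : ℕ) (f : ℕ → A → ℝ) (h : ∀ c u, 0 ≤ f c u) : 0 ≤ ex K f :=
  div_nonneg (sum_nonneg fun c _ => sum_nonneg fun u _ => h c u) (by positivity)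

theorem ex_mono (K : ℕ) (f g : ℕ → A → ℝ) (h : ∀ c < 2 ^ K, ∀ u, f c u ≤ g c u) :
    ex K f ≤ ex K g :=
  div_le_div_of_nonneg_right
    (sum_le_sum fun c hc => sum_le_sum fun u _ => h c (mem_range.1 hc) u) (by positivity)

theorem ex_add (K : ℕ) (f g : ℕ → A → ℝ) :
    ex K (fun c u => f c u + g c u) = ex K f + ex K g := by
  unfold ex
  rw [← add_div]
  congr 1
  rw [← sum_add_distrib]
  exact sum_congr rfl fun c _ => sum_add_distrib

theorem ex_smul (K : ℕ) (a : ℝ) (f : ℕ → A → ℝ) :
    ex K (fun c u => a * f c u) = a * ex K f := by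
  unfold ex
  rw [← mul_div_assoc]
  congr 1
  rw [mul_sum]
  exact sum_congr rfl fun c _ => by rw [mul_sum]

theorem ex_const (K : ℕ) (a : ℝ) : ex K (fun _ (_ : A) => a) = a := by
  have hM : (Fintype.card A : ℝ) ≠ 0 := (card_pos' (A := A)).ne'
  unfold ex
  rw [sum_const, sum_const, card_univ, card_range]
  simp only [nsmul_eq_mul]
  push_cast
  field_simp

theorem ex_sum {ι : Type*} (s : Finset ι) (K : ℕ) (f : ι → ℕ → A → ℝ) :
    ex K (fun c u => ∑ i ∈ s, f i c u) = ∑ i ∈ s, ex K (f i) := by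
  unfold ex
  rw [← sum_div]
  congr 1
  have h : ∀ c ∈ range (2 ^ K), ∑ u : A, ∑ i ∈ s, f i c u = ∑ i ∈ s, ∑ u : A, f i c u :=
    fun c _ => sum_comm
  rw [sum_congr rfl h, sum_comm]

/-- the object may be multiplied from the left by an element depending on the time -/
theorem ex_shift (K : ℕ) (f : ℕ → A → ℝ) (a : ℕ → A) :
    ex K (fun c u => f c (a c * u)) = ex K f := by
  unfold ex
  congr 1
  exact sum_congr rfl fun c _ => Fintype.sum_equiv (Equiv.mulLeft (a c)) _ _ fun u => rfl

/-- Cauchy-Schwarz -/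
theorem ex_cs (K : ℕ) (f g : ℕ → A → ℝ) :
    |ex K (fun c u => f c u * g c u)| ≤
      Real.sqrt (ex K (fun c u => f c u ^ 2)) * Real.sqrt (ex K (fun c u => g c u ^ 2)) := by
  have hM := card_pos' (A := A)
  have hpos : (0 : ℝ) < 2 ^ K * (Fintype.card A : ℝ) := by positivity
  rw [← Real.sqrt_mul (ex_nonneg K _ fun c u => sq_nonneg _)]
  refine Real.abs_le_sqrt ?_
  unfold ex
  rw [div_mul_div_comm, div_pow, pow_two (2 ^ K * (Fintype.card A : ℝ))]
  refine div_le_div_of_nonneg_right ?_ (by positivity)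
  have h := sum_mul_sq_le_sq_mul_sq (range (2 ^ K) ×ˢ (univ : Finset A))
    (fun p => f p.1 p.2) (fun p => g p.1 p.2)
  rw [sum_product, sum_product, sum_product] at h
  exact h

/-- absolute value of an average -/
theorem ex_abs_le (K : ℕ) (f g : ℕ → A → ℝ) (h : ∀ c < 2 ^ K, ∀ u, |f c u| ≤ g c u) :
    |ex K f| ≤ ex K g := by
  rw [abs_le]
  constructor
  · have h1 : ex K (fun c u => (-1 : ℝ) * g c u) ≤ ex K f := by
      apply ex_mono
      intro c hc u
      have := (abs_le.1 (h c hc u)).1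
      linarith
    rw [ex_smul] at h1
    linarith
  · apply ex_mono
    intro c hc u
    exact (abs_le.1 (h c hc u)).2

theorem blk_lt {K k c : ℕ} (hk : k ≤ K) (hc : c < 2 ^ K) : c / 2 ^ k < 2 ^ (K - k) := by
  rw [Nat.div_lt_iff_lt_mul (by positivity), ← pow_add, Nat.sub_add_cancel hk]
  exact hc

theorem acc_top {F : Type} [AddCommMonoid F] (K : ℕ) (p : ℕ → ℕ → A → F) (b : ℕ) (u : A) :
    acc K p (K + 1) b u = 0 := by
  unfold acc
  rw [Icc_eq_empty (by omega), sum_empty]

theorem acc_step {F : Type} [AddCommMonoid F] (K k : ℕ) (hk : k ≤ K) (p : ℕ → ℕ → A → F)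
    (b : ℕ) (u : A) : acc K p k b u = p k b u + acc K p (k + 1) (b / 2) u := by
  unfold acc
  have h : Icc k K = insert k (Icc (k + 1) K) := by
    ext w
    simp only [mem_Icc, mem_insert]
    omega
  rw [h, sum_insert (by simp)]
  congr 1
  · simp
  · refine sum_congr rfl fun w hw => ?_
    rw [mem_Icc] at hw
    congr 1
    rw [Nat.div_div_eq_div_mul, ← pow_succ', show w - k = w - (k + 1) + 1 by omega]

/-- on the path of `c` -/
theorem acc_path {F : Type} [AddCommMonoid F] (K k : ℕ) (p : ℕ → ℕ → A → F) (c : ℕ)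
    (u : A) : acc K p k (c / 2 ^ k) u = ∑ w ∈ Icc k K, p w (c / 2 ^ w) u := by
  unfold acc
  refine sum_congr rfl fun w hw => ?_
  rw [mem_Icc] at hw
  congr 1
  rw [Nat.div_div_eq_div_mul, ← pow_add, show k + (w - k) = w by omega]

theorem acc_add {F : Type} [AddCommMonoid F] (K : ℕ) (p q : ℕ → ℕ → A → F) (k b : ℕ)
    (u : A) :
    acc K (fun k b u => p k b u + q k b u) k b u = acc K p k b u + acc K q k b u := by
  unfold acc
  exact sum_add_distrib

/-- a process is the accumulation of its increments -/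
theorem acc_incr (K : ℕ) (V : ℕ → ℕ → A → E) (hV : ∀ b u, V (K + 1) b u = 0) (k : ℕ)
    (hk : k ≤ K) (b : ℕ) (u : A) :
    acc K (fun k b u => V k b u - V (k + 1) (b / 2) u) k b u = V k b u := by
  induction' hn : K - k with n ih generalizing k b
  · obtain rfl : k = K := by omega
    rw [acc_step k k le_rfl, acc_top, hV, sub_zero, add_zero]
  · rw [acc_step K k hk, ih (k + 1) (by omega) (b / 2) (by omega)]
    abel

omit [Fintype A] [InnerProductSpace ℝ E] in
theorem up_path (f : ℕ → A → E) (k c : ℕ) (u : A) :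
    up f (c / 2 ^ k) u = f (c / 2 ^ (k + 1)) u := by
  unfold up
  rw [Nat.div_div_eq_div_mul, ← pow_succ]

theorem tp_up (M : Mod A) (K k : ℕ) (f g : ℕ → A → E) :
    tp M K k (up f) (up g) = tp M K (k + 1) f g := by
  unfold tp
  simp only [up_path]

theorem tp_add_left (M : Mod A) (K k : ℕ) (f f' g : ℕ → A → E) :
    tp M K k (fun b u => f b u + f' b u) g = tp M K k f g + tp M K k f' g := by
  unfold tp
  rw [← ex_add]
  simp only [inner_add_left]

theorem tp_add_right (M : Mod A) (K k : ℕ) (f g g' : ℕ → A → E) :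
    tp M K k f (fun b u => g b u + g' b u) = tp M K k f g + tp M K k f g' := by
  unfold tp
  rw [← ex_add]
  simp only [inner_add_right]

theorem tp_sub_right (M : Mod A) (K k : ℕ) (f g g' : ℕ → A → E) :
    tp M K k f (fun b u => g b u - g' b u) = tp M K k f g - tp M K k f g' := by
  have h := tp_add_right M K k f (fun b u => g b u - g' b u) g'
  simp only [sub_add_cancel] at h
  rw [show tp M K k f g = tp M K k f (fun b u => g b u) from rfl, h]
  ring

/-- a process at level `k` is bounded on average by the total mass of its increments -/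
theorem nv_acc_le (K k k1 : ℕ) (hk : k1 ≤ k) (p : ℕ → ℕ → A → E) :
    nv K k (acc K p) ≤ tot K k1 p := by
  unfold nv tot
  have h1 : ex K (fun c u => ‖acc K p k (c / 2 ^ k) u‖) ≤
      ex K (fun c u => ∑ w ∈ Icc k K, ‖p w (c / 2 ^ w) u‖) := by
    refine ex_mono K _ _ fun c _ u => ?_
    rw [acc_path]
    exact norm_sum_le _ _
  refine h1.trans ?_
  rw [ex_sum]
  exact sum_le_sum_of_subset_of_nonneg (Icc_subset_Icc_left hk) fun w _ _ =>
    ex_nonneg K _ fun c u => norm_nonneg _

theorem sm_add (M : Mod A) (κ : A → ℝ) (l : ℕ) (V V' : A → E) (v : A) :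
    sm M κ l (fun v => V v + V' v) v = sm M κ l V v + sm M κ l V' v := by
  unfold sm
  rw [← sum_add_distrib]
  exact sum_congr rfl fun x _ => smul_add _ _ _

end

end NPG
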