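import Pool.Agent.NPG.EGam
import Pool.Agent.NPG.EL1
import Pool.Agent.NPG.ESin
import Pool.Agent.NPG.EAbs
import Pool.Agent.NPG.Proc

set_option autoImplicit false

/-!
# NPG / EMain : the total identity

`N0 = 2^K card A`.

PROOFS.  `tp_lft`: definition of `ex`, `tp` (`Fin (2^K) × A` against `range (2^K)` and `A`).
`ro_lft`: definitions (`sm`, `krI`; `lev k c = c / 2^k * 2^k`).
`tid`: with `x k = lft k (acc K p k)`, `y k = lft k (acc K q k)`, `y (K+1) = x (K+1) = 0`, `x k - x (k+1) = lft k (p k)`,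
`R k = 1 - ∑_d cd d KS (κ d) k`:
`N0 (FT + FS) = ∑_k (⟪x k - x (k+1), Ξ R k (y k)⟫ + ⟪x (k+1), Ξ R k (y k - y (k+1))⟫) = ∑_k (⟪x k, Ξ R k (y k)⟫ -
⟪x (k+1), Ξ R k (y (k+1))⟫)`, and `R k = R (k+1) - ∑_d cd d (KS (κ d) k - KS (κ d) (k+1))`, so it telescopes to
`⟪x k1, Ξ R k1 (y k1)⟫ + ∑_k ∑_d cd d ⟪x (k+1), Ξ (KS (κ d) k - KS (κ d) (k+1)) (y (k+1))⟫`, and for `k < K` the last pairing is
`⟪x (k+1), DK M (κ d) k (y (k+1))⟫` (`EB_lft`, `EB_symm`).
`ti_main`: the first term is `N0 tp M K k1 (acc K p k1) (ro .. (acc K q k1))`: `single_main` and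
`ex ‖acc K p k1‖^2 ≤ BS ex ‖acc K p k1‖ ≤ BS tot K k1 p`.  The second: for every `d`: `abs_total` with `PL = KT M (κ d)`,
`PR = KS M (κ d)` (`af_T`, `af_S`), `en_T`, `en_S`, `cls_DK` with `m = n1 + a` (`Inp.gainE`): at most
`C' 3 C 2^(-(n1+a)) √(2 BS tot p N0) √(2 BV tot q N0) = 6 C C' 2^(-(n1+a)) N0 √(BS tot p) √(BV tot q)`; sum over `d` with
`∑ |cd| ≤ 2^n1`; `2^(-a) ≤ 1/√(2^a)`.
-/

namespace NPG
open Finset

variable {K : ℕ} {A E : Type} [Group A] [Fintype A] [NormedAddCommGroup E] [InnerProductSpace ℝ E]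

theorem tp_lft (M : Mod A) {k : ℕ} (f g : ℕ → A → E) :
    tp M K k f g * (2 ^ K * Fintype.card A) =
      inner ℝ (lft k f : HK K A E) (XI M (lft k g : HK K A E)) := by
  have hN : (2 ^ K * (Fintype.card A : ℝ)) ≠ 0 := by
    have := card_pos' (A := A)
    positivity
  unfold tp ex
  rw [div_mul_cancel₀ _ hN, PiLp.inner_apply, Fintype.sum_prod_type,
    Finset.sum_range (fun c => ∑ u : A, inner ℝ (f (c / 2 ^ k) u) (g (c / 2 ^ k) (M.th c * u)))]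
  rfl

theorem ro_lft (M : Mod A) (Q : ℕ) (κ : ℕ → ℕ → A → ℝ) (cd : ℕ → ℝ) (k : ℕ) (g : ℕ → A → E) :
    (lft k (ro M (krI Q κ cd) k g) : HK K A E) =
      lft k g - ∑ d ∈ Icc 1 Q, cd d • KS M (κ d) k (lft k g) := by
  ext p
  have h1 : (∑ d ∈ Icc 1 Q, cd d • KS M (κ d) (k : ℤ) (lft k g : HK K A E)) p =
      ∑ d ∈ Icc 1 Q, cd d • (KS M (κ d) (k : ℤ) (lft k g : HK K A E)) p := by
    simp only [WithLp.ofLp_sum, Finset.sum_apply, PiLp.smul_apply]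
  have h2 : ∀ d, (KS M (κ d) (k : ℤ) (lft k g : HK K A E)) p =
      ∑ x, κ d k x • g ((p.1 : ℕ) / 2 ^ k) ((M.s ^ ((p.1 : ℕ) / 2 ^ k * 2 ^ k))⁻¹ x * p.2) := by
    intro d
    rfl
  rw [PiLp.sub_apply, h1]
  simp only [h2]
  change g ((p.1 : ℕ) / 2 ^ k) p.2 - sm M (krI Q κ cd k) ((p.1 : ℕ) / 2 ^ k * 2 ^ k)
    (g ((p.1 : ℕ) / 2 ^ k)) p.2 = g ((p.1 : ℕ) / 2 ^ k) p.2 - _
  congr 1
  unfold sm krI
  simp only [sum_smul, smul_sum, mul_smul]
  rw [sum_comm]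

private theorem em_step (p : ℕ → ℕ → A → E) {k : ℕ} (hk : k ≤ K) :
    (lft k (p k) : HK K A E) = lft k (acc K p k) - lft (k + 1) (acc K p (k + 1)) := by
  ext z
  rw [PiLp.sub_apply]
  change p k ((z.1 : ℕ) / 2 ^ k) z.2 = acc K p k ((z.1 : ℕ) / 2 ^ k) z.2 -
    acc K p (k + 1) ((z.1 : ℕ) / 2 ^ (k + 1)) z.2
  rw [acc_step K k hk, pow_succ, ← Nat.div_div_eq_div_mul]
  abel

omit [Group A] [InnerProductSpace ℝ E] in
private theorem em_up [InnerProductSpace ℝ E] (f : ℕ → A → E) (k : ℕ) :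
    (lft k (up f) : HK K A E) = lft (k + 1) f := by
  ext z
  change f ((z.1 : ℕ) / 2 ^ k / 2) z.2 = f ((z.1 : ℕ) / 2 ^ (k + 1)) z.2
  rw [pow_succ, ← Nat.div_div_eq_div_mul]

private theorem em_top (p : ℕ → ℕ → A → E) :
    (lft (K + 1) (acc K p (K + 1)) : HK K A E) = 0 := by
  ext z
  change acc K p (K + 1) ((z.1 : ℕ) / 2 ^ (K + 1)) z.2 = 0
  rw [acc_top]

private theorem em_DK (M : Mod A) (κ : ℕ → A → ℝ) (p q : ℕ → ℕ → A → E) {k : ℕ} (hk : k ≤ K) :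
    inner ℝ (lft (k + 1) (acc K p (k + 1)) : HK K A E)
        (XI M ((KS M κ k - KS M κ (k + 1) : HK K A E →ₗ[ℝ] HK K A E)
          (lft (k + 1) (acc K q (k + 1)) : HK K A E))) =
      inner ℝ (lft (k + 1) (acc K p (k + 1)) : HK K A E)
        (DK M κ k (lft (k + 1) (acc K q (k + 1)) : HK K A E)) := by
  rcases hk.eq_or_lt with rfl | hk
  · rw [em_top p, inner_zero_left, inner_zero_left]
  · unfold DK
    simp only [LinearMap.comp_apply]
    rw [EB_lft (Nat.le_succ k) hk, ← EB_symm, EB_lft (Nat.le_succ k) hk]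

theorem tid (M : Mod A) (Q : ℕ) (κ : ℕ → ℕ → A → ℝ) (cd : ℕ → ℝ) {k1 : ℕ} (hk : k1 ≤ K)
    (p q : ℕ → ℕ → A → E) :
    (FT M (krI Q κ cd) K k1 p (acc K q) + FS M (krI Q κ cd) K k1 (acc K p) q) *
        (2 ^ K * Fintype.card A) =
      tp M K k1 (acc K p k1) (ro M (krI Q κ cd) k1 (acc K q k1)) * (2 ^ K * Fintype.card A) +
      ∑ d ∈ Icc 1 Q, cd d * ∑ k ∈ Icc k1 K, inner ℝ
        (lft (k + 1) (acc K p (k + 1)) : HK K A E)
          (DK M (κ d) k (lft (k + 1) (acc K q (k + 1)) : HK K A E)) := by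
  set X : ℕ → HK K A E := fun k => lft k (acc K p k) with hX
  set Y : ℕ → HK K A E := fun k => lft k (acc K q k) with hY
  set R : ℕ → HK K A E → HK K A E :=
    fun k F => F - ∑ d ∈ Icc 1 Q, cd d • KS M (κ d) k F with hR
  set a : ℕ → ℝ := fun k => inner ℝ (X k) (XI M (R k (Y k))) with ha
  have hRs : ∀ k F G, R k (F - G) = R k F - R k G := by
    intro k F G
    simp only [hR, map_sub, smul_sub, sum_sub_distrib]
    abel
  have hRd : ∀ (k : ℕ) F, R k F = R (k + 1) F -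
      ∑ d ∈ Icc 1 Q, cd d •
        (KS M (κ d) k - KS M (κ d) (k + 1) : HK K A E →ₗ[ℝ] HK K A E) F := by
    intro k F
    simp only [hR, LinearMap.sub_apply, smul_sub, sum_sub_distrib, Nat.cast_add, Nat.cast_one]
    abel
  have hFT : FT M (krI Q κ cd) K k1 p (acc K q) * (2 ^ K * Fintype.card A) =
      ∑ k ∈ Icc k1 K, inner ℝ (X k - X (k + 1)) (XI M (R k (Y k))) := by
    unfold FT
    rw [sum_mul]
    refine sum_congr rfl fun k hk' => ?_
    rw [tp_lft, em_step p (mem_Icc.1 hk').2, ro_lft]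
  have hFS : FS M (krI Q κ cd) K k1 (acc K p) q * (2 ^ K * Fintype.card A) =
      ∑ k ∈ Icc k1 K, inner ℝ (X (k + 1)) (XI M (R k (Y k - Y (k + 1)))) := by
    unfold FS
    rw [sum_mul]
    refine sum_congr rfl fun k hk' => ?_
    rw [tp_lft, em_up, ro_lft, em_step q (mem_Icc.1 hk').2]
  have hterm : ∀ k ∈ Icc k1 K, inner ℝ (X k - X (k + 1)) (XI M (R k (Y k))) +
      inner ℝ (X (k + 1)) (XI M (R k (Y k - Y (k + 1)))) =
      (a k - a (k + 1)) + ∑ d ∈ Icc 1 Q, cd d *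
        inner ℝ (X (k + 1)) (DK M (κ d) k (Y (k + 1))) := by
    intro k hk'
    have e1 : ∀ d, inner ℝ (X (k + 1)) (DK M (κ d) k (Y (k + 1))) =
        inner ℝ (X (k + 1)) (XI M
          ((KS M (κ d) k - KS M (κ d) (k + 1) : HK K A E →ₗ[ℝ] HK K A E) (Y (k + 1)))) := fun d =>
      (em_DK M (κ d) p q (mem_Icc.1 hk').2).symm
    have e2 : R k (Y k - Y (k + 1)) = R k (Y k) - (R (k + 1) (Y (k + 1)) -
        ∑ d ∈ Icc 1 Q, cd d •
          (KS M (κ d) k - KS M (κ d) (k + 1) : HK K A E →ₗ[ℝ] HK K A E) (Y (k + 1))) := by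
      rw [hRs, hRd k (Y (k + 1))]
    rw [e2]
    simp only [e1, ha]
    generalize R k (Y k) = U
    generalize R (k + 1) (Y (k + 1)) = W
    simp only [map_sub, inner_sub_left, inner_sub_right, map_sum, inner_sum, map_smul,
      inner_smul_right]
    ring
  rw [add_mul, hFT, hFS, ← sum_add_distrib, sum_congr rfl hterm, sum_add_distrib]
  have htel : ∑ k ∈ Icc k1 K, (a k - a (k + 1)) = a k1 := by
    have h1 : ∀ n, k1 ≤ n → n ≤ K → ∑ k ∈ Icc k1 n, (a k - a (k + 1)) = a k1 - a (n + 1) := by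
      intro n hn
      induction' n, hn using Nat.le_induction with n hn ih
      · intro _
        rw [Icc_self, sum_singleton]
      · intro hn'
        rw [sum_Icc_succ_top (by omega), ih (by omega)]
        ring
    rw [h1 K hk le_rfl]
    have h2 : a (K + 1) = 0 := by
      simp only [ha, hX, em_top p, inner_zero_left]
    rw [h2, sub_zero]
  rw [htel, sum_comm, tp_lft, ro_lft]
  simp only [mul_sum]
  rfl

theorem ti_main (C : ℕ) : ∃ C' : ℕ, C ≤ C' ∧ ∀ {A : Type} [Group A] [Fintype A] (M : Mod A)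
    (a Q n1 : ℕ) (κ : ℕ → ℕ → A → ℝ) (cd : ℕ → ℝ), Inp M C a Q n1 κ cd →
      TIH M (krI Q κ cd) C' a := by
  by_cases hC0 : C = 0
  · refine ⟨C, le_rfl, ?_⟩
    intro A _ _ M a Q n1 κ cd h
    have := h.one_le
    omega
  have hC1 : 1 ≤ C := by omega
  have hC1' : (1 : ℝ) ≤ (C : ℝ) := by exact_mod_cast hC1
  obtain ⟨C1, hC1a, habs⟩ := abs_total (C : ℝ) hC1'
  refine ⟨C + ⌈6 * (C : ℝ) * C1⌉₊, Nat.le_add_right _ _, ?_⟩
  intro A _ _ M a Q n1 κ cd h E _ _ K k1 hk1 hkK p q BS BV hp hq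
  have hCa : C * a ≤ k1 := le_trans (Nat.mul_le_mul_right a (Nat.le_add_right _ _)) hk1
  have hcard := card_pos' (A := A)
  set N : ℝ := 2 ^ K * (Fintype.card A : ℝ) with hN
  have hN0 : 0 < N := by positivity
  have hBS : 0 ≤ BS := (norm_nonneg _).trans (hp k1 le_rfl hkK 0 (by positivity) 1)
  have hBV : 0 ≤ BV := (norm_nonneg _).trans (hq k1 le_rfl hkK 0 (by positivity) 1)
  have htot : ∀ r : ℕ → ℕ → A → E, 0 ≤ tot K k1 r := fun r =>
    sum_nonneg fun k _ => ex_nonneg K _ fun c u => norm_nonneg _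
  have hsq : ∀ (r : ℕ → ℕ → A → E) (B : ℝ), 0 ≤ B →
      (∀ k, k1 ≤ k → k ≤ K → ∀ b < 2 ^ (K - k), ∀ u, ‖acc K r k b u‖ ≤ B) →
      ex K (fun c u => ‖acc K r k1 (c / 2 ^ k1) u‖ ^ 2) ≤ B * tot K k1 r := by
    intro r B hB hr
    calc ex K (fun c u => ‖acc K r k1 (c / 2 ^ k1) u‖ ^ 2)
        ≤ ex K (fun c u => B * ‖acc K r k1 (c / 2 ^ k1) u‖) := by
          refine ex_mono K _ _ fun c hc u => ?_
          rw [sq]
          exact mul_le_mul_of_nonneg_right (hr k1 le_rfl hkK _ (blk_lt hkK hc) u) (norm_nonneg _)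
      _ = B * nv K k1 (acc K r) := by
          rw [ex_smul]
          rfl
      _ ≤ B * tot K k1 r := mul_le_mul_of_nonneg_left (nv_acc_le K k1 k1 le_rfl r) hB
  set SP : ℝ := Real.sqrt (BS * tot K k1 p) with hSP
  set SQ : ℝ := Real.sqrt (BV * tot K k1 q) with hSQ
  have hS0 : 0 ≤ SP * SQ := mul_nonneg (Real.sqrt_nonneg _) (Real.sqrt_nonneg _)
  have hsa : 0 < Real.sqrt (2 ^ a) := Real.sqrt_pos.2 (by positivity)
  -- first term
  have h1 : |tp M K k1 (acc K p k1) (ro M (krI Q κ cd) k1 (acc K q k1))| ≤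
      C / Real.sqrt (2 ^ a) * (SP * SQ) := by
    refine (single_main h E K k1 hCa hkK (acc K p k1) (acc K q k1)).trans ?_
    refine mul_le_mul_of_nonneg_left ?_ (by positivity)
    exact mul_le_mul (Real.sqrt_le_sqrt (hsq p BS hBS hp)) (Real.sqrt_le_sqrt (hsq q BV hBV hq))
      (Real.sqrt_nonneg _) (Real.sqrt_nonneg _)
  -- second term
  have h2 : ∀ d ∈ Icc 1 Q, |∑ k ∈ Icc k1 K, inner ℝ
        (lft (k + 1) (acc K p (k + 1)) : HK K A E)
          (DK M (κ d) k (lft (k + 1) (acc K q (k + 1)) : HK K A E))| ≤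
      6 * C * C1 * ((2 : ℝ) ^ (n1 + a))⁻¹ * N * (SP * SQ) := by
    intro d hd
    rw [mem_Icc] at hd
    have hF := h.fam d hd.1 hd.2
    have h3 := habs (HK K A E) (KT M (κ d)) (KS M (κ d)) (af_T hC1 hF) (af_S hC1 hF)
      (fun k => lft k (acc K p k)) (fun k => lft k (acc K q k)) k1 K _ _
      (3 * C * ((2 : ℝ) ^ (n1 + a))⁻¹) (fun k => DK M (κ d) k) hkK
      (en_T hF hkK hp) (en_S hF hkK hq) (by positivity)
      (fun k hk hk' => cls_DK hC1 hF hk' (n1 + a) fun j hj f =>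
        h.gainE hd.1 hd.2 (hCa.trans hk) hj f)
    refine h3.trans (le_of_eq ?_)
    have e1 : ∀ (B t : ℝ), 0 ≤ B → 0 ≤ t → Real.sqrt (2 * B * t * (2 ^ K * Fintype.card A)) =
        Real.sqrt (2 * N) * Real.sqrt (B * t) := by
      intro B t hB ht
      rw [← Real.sqrt_mul (by positivity)]
      congr 1
      rw [hN]
      ring
    rw [e1 BS _ hBS (htot p), e1 BV _ hBV (htot q)]
    have e2 : Real.sqrt (2 * N) * Real.sqrt (2 * N) = 2 * N := Real.mul_self_sqrt (by positivity)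
    calc C1 * (3 * C * ((2 : ℝ) ^ (n1 + a))⁻¹) * (Real.sqrt (2 * N) * SP * (Real.sqrt (2 * N) * SQ))
        = C1 * (3 * C * ((2 : ℝ) ^ (n1 + a))⁻¹) * ((Real.sqrt (2 * N) * Real.sqrt (2 * N)) *
            (SP * SQ)) := by ring
      _ = 6 * C * C1 * ((2 : ℝ) ^ (n1 + a))⁻¹ * N * (SP * SQ) := by
          rw [e2]
          ring
  have h4 : |∑ d ∈ Icc 1 Q, cd d * ∑ k ∈ Icc k1 K, inner ℝ
        (lft (k + 1) (acc K p (k + 1)) : HK K A E)
          (DK M (κ d) k (lft (k + 1) (acc K q (k + 1)) : HK K A E))| ≤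
      6 * C * C1 * ((2 : ℝ) ^ a)⁻¹ * N * (SP * SQ) := by
    calc |∑ d ∈ Icc 1 Q, cd d * ∑ k ∈ Icc k1 K, inner ℝ
          (lft (k + 1) (acc K p (k + 1)) : HK K A E)
            (DK M (κ d) k (lft (k + 1) (acc K q (k + 1)) : HK K A E))|
        ≤ ∑ d ∈ Icc 1 Q, |cd d| * (6 * C * C1 * ((2 : ℝ) ^ (n1 + a))⁻¹ * N * (SP * SQ)) := by
          refine (abs_sum_le_sum_abs _ _).trans (sum_le_sum fun d hd => ?_)
          rw [abs_mul]
          exact mul_le_mul_of_nonneg_left (h2 d hd) (abs_nonneg _)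
      _ = (∑ d ∈ Icc 1 Q, |cd d|) * (6 * C * C1 * ((2 : ℝ) ^ (n1 + a))⁻¹ * N * (SP * SQ)) := by
          rw [sum_mul]
      _ ≤ 2 ^ n1 * (6 * C * C1 * ((2 : ℝ) ^ (n1 + a))⁻¹ * N * (SP * SQ)) :=
          mul_le_mul_of_nonneg_right h.cd_le (by positivity)
      _ = 6 * C * C1 * ((2 : ℝ) ^ a)⁻¹ * N * (SP * SQ) := by
          rw [pow_add, mul_inv]
          have h5 : (2 : ℝ) ^ n1 * ((2 : ℝ) ^ n1)⁻¹ = 1 := mul_inv_cancel₀ (by positivity)
          linear_combination (6 * C * C1 * ((2 : ℝ) ^ a)⁻¹ * N * (SP * SQ)) * h5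
  have h5 : ((2 : ℝ) ^ a)⁻¹ ≤ 1 / Real.sqrt (2 ^ a) := by
    rw [← one_div]
    refine one_div_le_one_div_of_le hsa ?_
    rw [Real.sqrt_le_left (by positivity), sq]
    exact le_mul_of_one_le_left (by positivity) (one_le_pow₀ (by norm_num))
  have h6 := tid M Q κ cd hkK p q
  have h7 : |FT M (krI Q κ cd) K k1 p (acc K q) + FS M (krI Q κ cd) K k1 (acc K p) q| * N ≤
      C / Real.sqrt (2 ^ a) * (SP * SQ) * N + 6 * C * C1 * ((2 : ℝ) ^ a)⁻¹ * N * (SP * SQ) := by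
    rw [← abs_of_pos hN0, ← abs_mul, hN, h6, ← hN]
    refine (abs_add_le _ _).trans (add_le_add ?_ ?_)
    · rw [abs_mul]
      exact mul_le_mul_of_nonneg_right h1 (abs_nonneg _)
    · rw [abs_of_pos hN0]
      exact h4
  have h8 : |FT M (krI Q κ cd) K k1 p (acc K q) + FS M (krI Q κ cd) K k1 (acc K p) q| ≤
      C / Real.sqrt (2 ^ a) * (SP * SQ) + 6 * C * C1 * ((2 : ℝ) ^ a)⁻¹ * (SP * SQ) := by
    refine le_of_mul_le_mul_right (h7.trans (le_of_eq ?_)) hN0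
    ring
  refine h8.trans ?_
  push_cast
  have h9 : 6 * C * C1 * ((2 : ℝ) ^ a)⁻¹ * (SP * SQ) ≤
      6 * C * C1 * (1 / Real.sqrt (2 ^ a)) * (SP * SQ) :=
    mul_le_mul_of_nonneg_right (mul_le_mul_of_nonneg_left h5 (by positivity)) hS0
  have h10 : 6 * (C : ℝ) * C1 ≤ ⌈6 * (C : ℝ) * C1⌉₊ := Nat.le_ceil _
  calc C / Real.sqrt (2 ^ a) * (SP * SQ) + 6 * C * C1 * ((2 : ℝ) ^ a)⁻¹ * (SP * SQ)
      ≤ C / Real.sqrt (2 ^ a) * (SP * SQ) + 6 * C * C1 * (1 / Real.sqrt (2 ^ a)) * (SP * SQ) := by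
        linarith
    _ = (C + 6 * C * C1) / Real.sqrt (2 ^ a) * (SP * SQ) := by ring
    _ ≤ (C + ⌈6 * (C : ℝ) * C1⌉₊) / Real.sqrt (2 ^ a) * (SP * SQ) := by
        refine mul_le_mul_of_nonneg_right ?_ hS0
        exact div_le_div_of_nonneg_right (by linarith) hsa.le

theorem e_main (C : ℕ) : ∃ C' : ℕ, C ≤ C' ∧ ∀ {A : Type} [Group A] [Fintype A] (M : Mod A)
    (a Q n1 : ℕ) (κ : ℕ → ℕ → A → ℝ) (cd : ℕ → ℝ), Inp M C a Q n1 κ cd →
      SingH M (krI Q κ cd) C' a ∧ TIH M (krI Q κ cd) C' a := by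
  obtain ⟨C', hC', h⟩ := ti_main C
  refine ⟨C', hC', ?_⟩
  intro A _ _ M a Q n1 κ cd hI
  refine ⟨?_, h M a Q n1 κ cd hI⟩
  intro E _ _ K k hk hkK f g
  have h1 := single_main hI E K k (le_trans (Nat.mul_le_mul_right a hC') hk) hkK f g
  refine h1.trans ?_
  refine mul_le_mul_of_nonneg_right ?_ (mul_nonneg (Real.sqrt_nonneg _) (Real.sqrt_nonneg _))
  refine div_le_div_of_nonneg_right ?_ (Real.sqrt_nonneg _)
  exact_mod_cast hC'

end NPG
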