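import Pool.Agent.NPG.EDefs

set_option autoImplicit false

/-!
# NPG / EVec : functions with values in an inner product space

PROOF of `vec_transfer`: the matrix `P = c^2 I - t^T t` is positive semidefinite (`h`); so
`∑_(v,v') P v v' ⟪f v, f v'⟫ ≥ 0`: write `P v v' = ∑_i b_i v * b_i v'` (e.g. `P = B^T B`, `Matrix.PosSemidef`), then the sum is
`∑_i ‖∑_v b_i v • f v‖^2`.  (Or: choose an orthonormal basis of the finite dimensional span of the
values of `f` and apply `h` to the coordinates.)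
PROOFS of the rest: all maps are given by real matrices; `psdE` the same way.  `op_norm`: `op κ α` is an average of
the norm preserving maps `f ↦ (v ↦ f (α x * v))` with weights `κ x ≥ 0`, `∑ κ x = 1`.
-/

namespace NPG
open Finset

variable {E : Type} [NormedAddCommGroup E] [InnerProductSpace ℝ E]

private theorem evec_coords {J : Type} [Finite J] (x : J → E) :
    ∃ (n : ℕ) (e : Fin n → E), ∀ j k, inner ℝ (x j) (x k) =
      ∑ i, inner ℝ (e i) (x j) * inner ℝ (e i) (x k) := by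
  classical
  set S : Submodule ℝ E := Submodule.span ℝ (Set.range x) with hS
  have hfd : FiniteDimensional ℝ S := FiniteDimensional.span_of_finite ℝ (Set.finite_range x)
  let b := stdOrthonormalBasis ℝ S
  refine ⟨Module.finrank ℝ S, fun i => (b i : E), fun j k => ?_⟩
  have hj : x j ∈ S := Submodule.subset_span ⟨j, rfl⟩
  have hk : x k ∈ S := Submodule.subset_span ⟨k, rfl⟩
  have h := b.sum_inner_mul_inner (⟨x j, hj⟩ : S) (⟨x k, hk⟩ : S)
  simp only [Submodule.coe_inner] at h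
  rw [← h]
  refine sum_congr rfl fun i _ => ?_
  rw [real_inner_comm (b i : E) (x j)]

/-- transfer of an inequality by naturality -/
private theorem evec_nat {Ω Ω' : Type} [Fintype Ω] [Fintype Ω'] (c : ℝ) (LR : (Ω → ℝ) → Ω' → ℝ)
    (h : ∀ g : Ω → ℝ, ∑ w, (LR g w) ^ 2 ≤ c ^ 2 * ∑ v, g v ^ 2) (f : Ω → E) (LE : Ω' → E)
    (hn : ∀ (e : E) (w : Ω'), inner ℝ e (LE w) = LR (fun v => inner ℝ e (f v)) w) :
    ∑ w, ‖LE w‖ ^ 2 ≤ c ^ 2 * ∑ v, ‖f v‖ ^ 2 := by
  obtain ⟨n, e, he⟩ := evec_coords (Sum.elim f LE)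
  have h1 : ∀ w, ‖LE w‖ ^ 2 = ∑ i, (LR (fun v => inner ℝ (e i) (f v)) w) ^ 2 := by
    intro w
    rw [← real_inner_self_eq_norm_sq]
    have := he (Sum.inr w) (Sum.inr w)
    simp only [Sum.elim_inr] at this
    rw [this]
    refine sum_congr rfl fun i _ => ?_
    rw [hn, sq]
  have h2 : ∀ v, ‖f v‖ ^ 2 = ∑ i, (inner ℝ (e i) (f v)) ^ 2 := by
    intro v
    rw [← real_inner_self_eq_norm_sq]
    have := he (Sum.inl v) (Sum.inl v)
    simp only [Sum.elim_inl] at this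
    rw [this]
    refine sum_congr rfl fun i _ => ?_
    rw [sq]
  simp only [h1, h2]
  rw [sum_comm, sum_comm (s := univ (α := Ω)), mul_sum]
  exact sum_le_sum fun i _ => h _

/-- transfer of positivity by naturality -/
private theorem evec_pos {Ω : Type} [Fintype Ω] (LR : (Ω → ℝ) → Ω → ℝ)
    (h : ∀ g : Ω → ℝ, 0 ≤ ∑ v, g v * LR g v) (f LE : Ω → E)
    (hn : ∀ (e : E) (w : Ω), inner ℝ e (LE w) = LR (fun v => inner ℝ e (f v)) w) :
    0 ≤ ∑ v, inner ℝ (f v) (LE v) := by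
  obtain ⟨n, e, he⟩ := evec_coords (Sum.elim f LE)
  have h1 : ∀ v, inner ℝ (f v) (LE v) =
      ∑ i, inner ℝ (e i) (f v) * LR (fun v => inner ℝ (e i) (f v)) v := by
    intro v
    have := he (Sum.inl v) (Sum.inr v)
    simp only [Sum.elim_inl, Sum.elim_inr] at this
    rw [this]
    refine sum_congr rfl fun i _ => ?_
    rw [hn]
  simp only [h1]
  rw [sum_comm]
  exact sum_nonneg fun i _ => h _

theorem vec_transfer {Ω Ω' : Type} [Fintype Ω] [Fintype Ω'] (t : Ω' → Ω → ℝ) (c : ℝ)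
    (h : ∀ f : Ω → ℝ, ∑ w, (∑ v, t w v * f v) ^ 2 ≤ c ^ 2 * ∑ v, f v ^ 2) (f : Ω → E) :
    ∑ w, ‖∑ v, t w v • f v‖ ^ 2 ≤ c ^ 2 * ∑ v, ‖f v‖ ^ 2 := by
  refine evec_nat c (fun g w => ∑ v, t w v * g v) h f _ fun e w => ?_
  simp only [inner_sum, inner_smul_right]

theorem vec_psd {Ω : Type} [Fintype Ω] (t : Ω → Ω → ℝ)
    (hs : ∀ v w, t v w = t w v) (h : ∀ f : Ω → ℝ, 0 ≤ ∑ v, f v * ∑ w, t v w * f w) (f : Ω → E) :
    0 ≤ ∑ v, inner ℝ (f v) (∑ w, t v w • f w) := by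
  refine evec_pos (fun g v => ∑ w, t v w * g w) h f _ fun e w => ?_
  simp only [inner_sum, inner_smul_right]

variable {A : Type} [Group A] [Fintype A] {M : Mod A} {C : ℕ}

private theorem evec_op (κ : A → ℝ) (α : MulAut A) (f : A → E) (e : E) (v : A) :
    inner ℝ e (op κ α f v) = op κ α (fun u => inner ℝ e (f u)) v := by
  unfold op
  simp only [inner_sum, inner_smul_right, smul_eq_mul]

private theorem evec_tie (k : ℕ) (f : A → E) (e : E) (p : A) :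
    inner ℝ e (tie M k f p) = tie M k (fun u => inner ℝ e (f u)) p := by
  unfold tie
  simp only [inner_sum, inner_smul_right, smul_eq_mul]

theorem op_norm {κ : A → ℝ} (h0 : ∀ x, 0 ≤ κ x) (h1 : ∑ x, κ x = 1) (α : MulAut A) (f : A → E) :
    ∑ v, ‖op κ α f v‖ ^ 2 ≤ ∑ v, ‖f v‖ ^ 2 := by
  have hpt : ∀ v, ‖op κ α f v‖ ^ 2 ≤ ∑ x, κ x * ‖f (α x * v)‖ ^ 2 := by
    intro v
    have e1 : ‖op κ α f v‖ ≤ ∑ x, κ x * ‖f (α x * v)‖ := by
      unfold op
      refine (norm_sum_le _ _).trans (le_of_eq (sum_congr rfl fun x _ => ?_))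
      rw [norm_smul, Real.norm_eq_abs, abs_of_nonneg (h0 x)]
    have e2 := (Even.convexOn_pow (𝕜 := ℝ) even_two).map_sum_le (t := univ) (w := κ)
      (p := fun x => ‖f (α x * v)‖) (fun x _ => h0 x) h1 (fun x _ => Set.mem_univ _)
    simp only [smul_eq_mul] at e2
    exact (pow_le_pow_left₀ (norm_nonneg _) e1 2).trans e2
  refine (sum_le_sum fun v _ => hpt v).trans ?_
  rw [sum_comm]
  have e3 : ∀ x, ∑ v, κ x * ‖f (α x * v)‖ ^ 2 = κ x * ∑ v, ‖f v‖ ^ 2 := by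
    intro x
    rw [← mul_sum]
    congr 1
    exact Equiv.sum_comp (Equiv.mulLeft (α x)) (fun v => ‖f v‖ ^ 2)
  simp only [e3]
  rw [← sum_mul, h1, one_mul]

theorem op_symm {κ : A → ℝ} (hs : ∀ x, κ x⁻¹ = κ x) (α : MulAut A) (f f' : A → E) :
    ∑ v, inner ℝ (op κ α f v) (f' v) = ∑ v, inner ℝ (f v) (op κ α f' v) := by
  have e1 : ∀ v, inner ℝ (op κ α f v) (f' v) = ∑ x, κ x * inner ℝ (f (α x * v)) (f' v) := by
    intro v
    unfold op
    simp only [sum_inner, real_inner_smul_left]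
  have e2 : ∀ v, inner ℝ (f v) (op κ α f' v) = ∑ x, κ x * inner ℝ (f v) (f' (α x * v)) := by
    intro v
    unfold op
    simp only [inner_sum, inner_smul_right]
  simp only [e1, e2]
  rw [sum_comm, sum_comm (s := univ (α := A)) (t := univ (α := A))
    (f := fun v x => κ x * inner ℝ (f v) (f' (α x * v)))]
  rw [← Equiv.sum_comp (Equiv.inv A) (fun x => ∑ v, κ x * inner ℝ (f v) (f' (α x * v)))]
  refine sum_congr rfl fun x _ => ?_
  rw [← Equiv.sum_comp (Equiv.mulLeft (α x)) (fun v => κ ((Equiv.inv A) x) *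
    inner ℝ (f v) (f' (α ((Equiv.inv A) x) * v)))]
  refine sum_congr rfl fun v _ => ?_
  simp only [Equiv.inv_apply, Equiv.coe_mulLeft, hs, map_inv, inv_mul_cancel_left]

/-- change of the frame: `α` is an automorphism -/
theorem op_frame {κ : A → ℝ} (α β : MulAut A) (f : A → E) (v : A) :
    op κ α (fun u => f (β u)) v = op κ (β * α) f (β v) := by
  unfold op
  simp only [MulAut.mul_apply, map_mul]

theorem Fam.psdE {κ : ℕ → A → ℝ} (hF : Fam M C κ) (k : ℕ) (α : MulAut A) (f : A → E) :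
    0 ≤ ∑ v, inner ℝ (f v) (op (κ k) α f v) := by
  refine evec_pos (fun g v => op (κ k) α g v) (fun g => ?_) f _ fun e w => evec_op _ _ _ _ _
  have h1 := hF.psd k (fun u => g (α u))
  have h2 : ∀ v, op (κ k) 1 (fun u => g (α u)) v = op (κ k) α g (α v) := by
    intro v
    unfold op
    simp only [MulAut.one_apply, map_mul]
  simp only [h2] at h1
  rw [← Equiv.sum_comp α.toEquiv]
  exact h1

theorem Fam.ao1E {κ : ℕ → A → ℝ} (hF : Fam M C κ) {k k' : ℕ} (hk : k ≤ k') {α β : MulAut A}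
    (hα : α ∈ Frm M k') (hβ : β ∈ Frm M k') (f : A → E) :
    ∑ v, ‖op (κ k') α (fun u => f u - op (κ k) β f u) v‖ ^ 2 ≤
      (C * ((2 : ℝ) ^ k / 2 ^ k')) ^ 2 * ∑ v, ‖f v‖ ^ 2 := by
  refine evec_nat _ (fun g v => op (κ k') α (fun u => g u - op (κ k) β g u) v)
    (hF.ao1 k k' hk α hα β hβ) f _ fun e w => ?_
  rw [evec_op]
  simp only [inner_sub_right, evec_op]

theorem Fam.ao2E {κ : ℕ → A → ℝ} (hF : Fam M C κ) {k k' : ℕ} (hk : k ≤ k') {α β : MulAut A}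
    (hα : α ∈ Frm M k') (hβ : β ∈ Frm M k') (f : A → E) :
    ∑ v, ‖op (κ k') α f v - op (κ k) β (op (κ k') α f) v‖ ^ 2 ≤
      (C * ((2 : ℝ) ^ k / 2 ^ k')) ^ 2 * ∑ v, ‖f v‖ ^ 2 := by
  refine evec_nat _ (fun g v => op (κ k') α g v - op (κ k) β (op (κ k') α g) v)
    (hF.ao2 k k' hk α hα β hβ) f _ fun e w => ?_
  have e1 : (fun u => inner ℝ e (op (κ k') α f u)) = op (κ k') α fun u => inner ℝ e (f u) := by
    funext u
    exact evec_op _ _ _ _ _
  rw [inner_sub_right, evec_op, evec_op, e1]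

theorem Inp.gainE {a Q n1 : ℕ} {κ : ℕ → ℕ → A → ℝ} {cd : ℕ → ℝ} (h : Inp M C a Q n1 κ cd)
    {d : ℕ} (hd : 1 ≤ d) (hd' : d ≤ Q) {k : ℕ} (hk : C * a ≤ k) {j : ℕ} (hj : j = 0 ∨ j = 2 ^ k)
    (f : A → E) :
    ∑ p, ‖tie M k (fun v => op (κ d k) 1 f v - op (κ d (k + 1)) (M.s ^ j) f v) p‖ ^ 2 ≤
      (((2 : ℝ) ^ (3 * (n1 + a)))⁻¹) ^ 2 * ∑ v, ‖f v‖ ^ 2 := by
  refine evec_nat _ (fun g p => tie M k (fun v => op (κ d k) 1 g v -
    op (κ d (k + 1)) (M.s ^ j) g v) p) (h.gain d hd hd' k hk j hj) f _ fun e w => ?_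
  rw [evec_tie]
  simp only [inner_sub_right, evec_op]

theorem Inp.singleE {a Q n1 : ℕ} {κ : ℕ → ℕ → A → ℝ} {cd : ℕ → ℝ} (h : Inp M C a Q n1 κ cd)
    {k : ℕ} (hk : C * a ≤ k) (f : A → E) :
    ∑ p, ‖tie M k (fun v => f v - ∑ d ∈ Icc 1 Q, cd d • op (κ d k) 1 f v) p‖ ^ 2 ≤
      (C / Real.sqrt (2 ^ a)) ^ 2 * ∑ v, ‖f v‖ ^ 2 := by
  refine evec_nat _ (fun g p => tie M k (fun v => g v - ∑ d ∈ Icc 1 Q, cd d * op (κ d k) 1 g v) p)
    (h.single k hk) f _ fun e w => ?_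
  rw [evec_tie]
  simp only [inner_sub_right, inner_sum, inner_smul_right, evec_op]

end NPG
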