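import Pool.Agent.NPG.EWst

set_option autoImplicit false

/-!
# NPG / EWlk : the walk lemma

PROOF.  One sided lemma (right): fix `S`, `x`, `kl`, `B ≥ 0` and `F : ℤ → ℝ` such that for all `k`, `A ≥ 0` and
`D` with `Cls PL PR kl k A D`: `|⟪S, D (Dl PR r k x)⟫| ≤ A F k`, and `|⟪S, D x⟫| ≤ A B`.  Then for all `n`, `k`, `A`, `D` in the class:
`|⟪S, D x⟫| ≤ A (∑_(|j| ≤ n) 2 2^(-|j|) F (k + j r) + 2^(-n) B)`.  Induction on `n`: `x = Dl x + (1 - PR (k-r)) x + PR (k+r) x`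
and `cls_step`: `≤ A F k + (A/4) (bound n at k - r) + (A/4) (bound n at k + r)`; for `c_j = 2 2^(-|j|)`:
`1 + (c_1 + c_(-1)) / 4 = 3/2 ≤ c_0` and `(c_(j-1) + c_(j+1)) / 4 = (5/8) c_j ≤ c_j` for `j ≠ 0`; the error: `2^(-n) / 4 + 2^(-n) / 4 =
2^(-(n+1))`.  (`F ≥ 0`.)  The base `n = 0` : `c_0 F k ≥ 0` and `A B`.
The left lemma is the same with `⟪S, D y⟫ = ⟪Dl PL S, D y⟫ + ⟪S, (1 - PL (kl-r)) D y⟫ + ⟪S, PL (kl+r) D y⟫` (symmetry).
Apply the right lemma with `F k = ‖Dl PR r k x‖ (eV PL r n kl S + 2^(-n) ‖S‖)` (left lemma with `y = Dl PR r k x`, where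
`|⟪Dl PL S, D y⟫| ≤ A ‖Dl PL S‖ ‖y‖`, tests `1`), `B = ‖S‖ ‖x‖`.  Total:
`A (eR eL + 2^(-n) ‖S‖ eR + 2^(-n) ‖S‖ ‖x‖)` and `eR ≤ 6 ‖x‖` (`norm_Dl`, `∑ 2 2^(-|j|) ≤ 6`).
-/

namespace NPG
open Finset

private noncomputable def cw (j : ℤ) : ℝ := 2 * ((2 : ℝ) ^ j.natAbs)⁻¹

private lemma cw_pos (j : ℤ) : 0 < cw j := by
  unfold cw
  positivity

private lemma cw_nat (m : ℕ) : cw (m : ℤ) = 2 * ((2 : ℝ) ^ m)⁻¹ := by
  unfold cw
  rw [Int.natAbs_natCast]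

private lemma cw_neg (j : ℤ) : cw (-j) = cw j := by
  unfold cw
  rw [Int.natAbs_neg]

private lemma cw_step_pos (m : ℕ) : cw ((m : ℤ) + 1 + 1) + cw ((m : ℤ) + 1 - 1) ≤ 4 * cw ((m : ℤ) + 1) := by
  have e1 : (m : ℤ) + 1 + 1 = ((m + 2 : ℕ) : ℤ) := by push_cast; ring
  have e2 : (m : ℤ) + 1 - 1 = (m : ℤ) := by ring
  have e3 : (m : ℤ) + 1 = ((m + 1 : ℕ) : ℤ) := by push_cast; ring
  rw [e1, e2, e3, cw_nat, cw_nat, cw_nat, pow_succ, pow_succ, mul_inv, mul_inv]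
  have h : (0 : ℝ) < ((2 : ℝ) ^ m)⁻¹ := by positivity
  nlinarith

private lemma cw_step {i : ℤ} (hi : i ≠ 0) : cw (i + 1) + cw (i - 1) ≤ 4 * cw i := by
  obtain ⟨m, rfl | rfl⟩ := i.eq_nat_or_neg
  · obtain ⟨q, rfl⟩ := Nat.exists_eq_succ_of_ne_zero (show m ≠ 0 by rintro rfl; exact hi rfl)
    have := cw_step_pos q
    rw [Nat.succ_eq_add_one]
    push_cast
    exact this
  · obtain ⟨q, rfl⟩ := Nat.exists_eq_succ_of_ne_zero (show m ≠ 0 by rintro rfl; exact hi rfl)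
    have h := cw_step_pos q
    rw [Nat.succ_eq_add_one]
    push_cast
    have e1 : -((q : ℤ) + 1) + 1 = -((q : ℤ) + 1 - 1) := by ring
    have e2 : -((q : ℤ) + 1) - 1 = -((q : ℤ) + 1 + 1) := by ring
    rw [e1, e2, cw_neg, cw_neg, cw_neg]
    linarith

private lemma cw_zero : cw 0 = 2 := by
  unfold cw
  simp

private lemma cw_one : cw 1 = 1 := by
  unfold cw
  simp

private lemma sum_Icc_succ (f : ℤ → ℝ) (n : ℕ) : ∑ j ∈ Icc (-((n + 1 : ℕ) : ℤ)) ((n + 1 : ℕ) : ℤ), f j =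
    ∑ j ∈ Icc (-(n : ℤ)) n, f j + f ((n : ℤ) + 1) + f (-((n : ℤ) + 1)) := by
  have h : Icc (-((n + 1 : ℕ) : ℤ)) ((n + 1 : ℕ) : ℤ) =
      insert (-((n : ℤ) + 1)) (insert ((n : ℤ) + 1) (Icc (-(n : ℤ)) n)) := by
    ext j
    simp only [Finset.mem_Icc, Finset.mem_insert]
    push_cast
    omega
  rw [h, Finset.sum_insert, Finset.sum_insert]
  · ring
  · simp
  · simp only [Finset.mem_insert, Finset.mem_Icc]
    omega

private lemma sum_cw (n : ℕ) : ∑ j ∈ Icc (-(n : ℤ)) n, cw j = 6 - 4 * ((2 : ℝ) ^ n)⁻¹ := by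
  induction n with
  | zero => simp [cw_zero]; norm_num
  | succ n ih =>
    rw [sum_Icc_succ, ih, cw_neg]
    have e : (n : ℤ) + 1 = ((n + 1 : ℕ) : ℤ) := by push_cast; ring
    rw [e, cw_nat, pow_succ, mul_inv]
    ring

private lemma sum_cw_le (n : ℕ) : ∑ j ∈ Icc (-(n : ℤ)) n, cw j ≤ 6 := by
  rw [sum_cw]
  have : (0 : ℝ) < ((2 : ℝ) ^ n)⁻¹ := by positivity
  linarith

private lemma shift_le (G : ℤ → ℝ) (hG : ∀ i, 0 ≤ G i) (n : ℕ) (σ : ℤ) (hσ : σ = 1 ∨ σ = -1) :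
    ∑ j ∈ Icc (-(n : ℤ)) n, cw j * G (j + σ) ≤
      ∑ i ∈ Icc (-((n + 1 : ℕ) : ℤ)) ((n + 1 : ℕ) : ℤ), cw (i - σ) * G i := by
  have h1 : ∑ j ∈ Icc (-(n : ℤ)) n, cw j * G (j + σ) =
      ∑ i ∈ (Icc (-(n : ℤ)) n).image (fun j => j + σ), cw (i - σ) * G i := by
    rw [Finset.sum_image fun a _ b _ h => by
      have : a + σ = b + σ := h
      linarith]
    refine Finset.sum_congr rfl fun j _ => ?_
    rw [add_sub_cancel_right]
  rw [h1]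
  refine Finset.sum_le_sum_of_subset_of_nonneg ?_ fun i _ _ => mul_nonneg (cw_pos _).le (hG i)
  intro i hi
  obtain ⟨j, hj, rfl⟩ := Finset.mem_image.1 hi
  rw [Finset.mem_Icc] at hj ⊢
  push_cast
  rcases hσ with rfl | rfl <;> constructor <;> omega

private lemma wsum_step (G : ℤ → ℝ) (hG : ∀ i, 0 ≤ G i) (n : ℕ) :
    G 0 + (1 / 4) * (∑ j ∈ Icc (-(n : ℤ)) n, cw j * G (j + -1)) +
      (1 / 4) * (∑ j ∈ Icc (-(n : ℤ)) n, cw j * G (j + 1)) ≤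
      ∑ j ∈ Icc (-((n + 1 : ℕ) : ℤ)) ((n + 1 : ℕ) : ℤ), cw j * G j := by
  have h1 := shift_le G hG n (-1) (Or.inr rfl)
  have h2 := shift_le G hG n 1 (Or.inl rfl)
  have h3 : G 0 = ∑ i ∈ Icc (-((n + 1 : ℕ) : ℤ)) ((n + 1 : ℕ) : ℤ), (if i = 0 then 1 else 0) * G i := by
    rw [Finset.sum_eq_single 0]
    · simp
    · intro b _ hb
      rw [if_neg hb, zero_mul]
    · intro h
      exact absurd (Finset.mem_Icc.2 ⟨by push_cast; omega, by push_cast; omega⟩) h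
  have h4 : G 0 + (1 / 4) * (∑ i ∈ Icc (-((n + 1 : ℕ) : ℤ)) ((n + 1 : ℕ) : ℤ), cw (i - -1) * G i) +
      (1 / 4) * (∑ i ∈ Icc (-((n + 1 : ℕ) : ℤ)) ((n + 1 : ℕ) : ℤ), cw (i - 1) * G i) ≤
      ∑ j ∈ Icc (-((n + 1 : ℕ) : ℤ)) ((n + 1 : ℕ) : ℤ), cw j * G j := by
    conv_lhs => rw [h3]
    rw [Finset.mul_sum, Finset.mul_sum, ← Finset.sum_add_distrib, ← Finset.sum_add_distrib]
    refine Finset.sum_le_sum fun i _ => ?_
    by_cases hi : i = 0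
    · subst hi
      rw [if_pos rfl]
      have e1 : (0 : ℤ) - -1 = 1 := by norm_num
      have e2 : (0 : ℤ) - 1 = -1 := by norm_num
      rw [e1, e2, cw_neg, cw_one, cw_zero]
      have := hG 0
      linarith
    · rw [if_neg hi]
      have h5 := cw_step hi
      have e1 : i - -1 = i + 1 := by ring
      rw [e1]
      have := hG i
      nlinarith
  have h5 : (0 : ℝ) ≤ 1 / 4 := by norm_num
  linarith [mul_le_mul_of_nonneg_left h1 h5, mul_le_mul_of_nonneg_left h2 h5]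

/-- the abstract walk -/
private lemma walk1 {𝒟 : Type*} (K : ℤ → ℝ → 𝒟 → Prop) (φ : 𝒟 → ℝ) (F : ℤ → ℝ) (B : ℝ) (r : ℕ)
    (hF : ∀ k, 0 ≤ F k) (h1 : ∀ k A D, 0 ≤ A → K k A D → |φ D| ≤ A * B)
    (h2 : ∀ k A D, 0 ≤ A → K k A D → ∃ D' D'', K (k - r) (A / 4) D' ∧ K (k + r) (A / 4) D'' ∧
      |φ D| ≤ A * F k + |φ D'| + |φ D''|) (n : ℕ) :
    ∀ k A D, 0 ≤ A → K k A D →
      |φ D| ≤ A * (∑ j ∈ Icc (-(n : ℤ)) n, cw j * F (k + j * r) + ((2 : ℝ) ^ n)⁻¹ * B) := by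
  induction n with
  | zero =>
    intro k A D hA hK
    have h3 := h1 k A D hA hK
    have h4 : ∑ j ∈ Icc (-((0 : ℕ) : ℤ)) ((0 : ℕ) : ℤ), cw j * F (k + j * r) = 2 * F k := by
      simp [cw_zero]
    rw [h4, pow_zero, inv_one, one_mul, mul_add]
    have h5 : 0 ≤ A * (2 * F k) := mul_nonneg hA (mul_nonneg (by norm_num) (hF k))
    linarith
  | succ n ih =>
    intro k A D hA hK
    obtain ⟨D', D'', hD', hD'', h3⟩ := h2 k A D hA hK
    have h4 := ih (k - r) (A / 4) D' (by positivity) hD'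
    have h5 := ih (k + r) (A / 4) D'' (by positivity) hD''
    have h6 := wsum_step (fun j => F (k + j * r)) (fun j => hF _) n
    have e1 : ∑ j ∈ Icc (-(n : ℤ)) n, cw j * F (k - r + j * r) =
        ∑ j ∈ Icc (-(n : ℤ)) n, cw j * F (k + (j + -1) * r) := by
      refine Finset.sum_congr rfl fun j _ => ?_
      congr 2
      ring
    have e2 : ∑ j ∈ Icc (-(n : ℤ)) n, cw j * F (k + r + j * r) =
        ∑ j ∈ Icc (-(n : ℤ)) n, cw j * F (k + (j + 1) * r) := by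
      refine Finset.sum_congr rfl fun j _ => ?_
      congr 2
      ring
    rw [e1] at h4
    rw [e2] at h5
    simp only [zero_mul, add_zero] at h6
    have h7 := mul_le_mul_of_nonneg_left h6 hA
    rw [pow_succ, mul_inv]
    have h8 : |φ D| ≤ A * F k + A / 4 * (∑ j ∈ Icc (-(n : ℤ)) n, cw j * F (k + (j + -1) * r) + ((2 : ℝ) ^ n)⁻¹ * B) +
        A / 4 * (∑ j ∈ Icc (-(n : ℤ)) n, cw j * F (k + (j + 1) * r) + ((2 : ℝ) ^ n)⁻¹ * B) := by linarith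
    refine h8.trans ?_
    rw [mul_add A (∑ j ∈ Icc (-((n + 1 : ℕ) : ℤ)) ((n + 1 : ℕ) : ℤ), cw j * F (k + j * r))]
    nlinarith [h7]

theorem eV_le {V : Type} [NormedAddCommGroup V] [InnerProductSpace ℝ V] {P : ℤ → (V →ₗ[ℝ] V)}
    {C : ℝ} (h : AF P C) (r n : ℕ) (k : ℤ) (x : V) : eV P r n k x ≤ 6 * ‖x‖ := by
  have h1 : eV P r n k x ≤ ∑ j ∈ Icc (-(n : ℤ)) n, cw j * ‖x‖ :=
    Finset.sum_le_sum fun j _ => mul_le_mul_of_nonneg_left (h.norm_Dl r _ x) (cw_pos j).le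
  rw [← Finset.sum_mul] at h1
  exact h1.trans (mul_le_mul_of_nonneg_right (sum_cw_le n) (norm_nonneg x))

theorem eV_sq_le {V : Type} [NormedAddCommGroup V] [InnerProductSpace ℝ V]
    (P : ℤ → (V →ₗ[ℝ] V)) (r n : ℕ) (k : ℤ) (x : V) : eV P r n k x ^ 2 ≤
      6 * ∑ j ∈ Icc (-(n : ℤ)) n, 2 * ((2 : ℝ) ^ j.natAbs)⁻¹ * ‖Dl P r (k + j * r) x‖ ^ 2 := by
  have h1 : eV P r n k x ^ 2 ≤ (∑ j ∈ Icc (-(n : ℤ)) n, cw j) *
      ∑ j ∈ Icc (-(n : ℤ)) n, cw j * ‖Dl P r (k + j * r) x‖ ^ 2 := by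
    unfold eV
    refine Finset.sum_sq_le_sum_mul_sum_of_sq_le_mul _ (fun j _ => (cw_pos j).le)
      (fun j _ => mul_nonneg (cw_pos j).le (sq_nonneg _)) fun j _ => le_of_eq ?_
    unfold cw
    ring
  refine h1.trans (mul_le_mul_of_nonneg_right (sum_cw_le n) ?_)
  exact Finset.sum_nonneg fun j _ => mul_nonneg (cw_pos j).le (sq_nonneg _)

private lemma cls_norm {V : Type} [NormedAddCommGroup V] [InnerProductSpace ℝ V] {PL PR : ℤ → (V →ₗ[ℝ] V)}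
    {kl kr : ℤ} {A : ℝ} {D : V →ₗ[ℝ] V} (h : Cls PL PR kl kr A D) (x : V) : ‖D x‖ ≤ A * ‖x‖ := by
  have h1 := h 0 0 LinearMap.id LinearMap.id (Or.inl ⟨rfl, rfl⟩) (Or.inl ⟨rfl, rfl⟩) x
  simpa using h1

theorem walk (C : ℝ) : ∃ r0 : ℕ, 1 ≤ r0 ∧ ∀ (V : Type) [NormedAddCommGroup V]
    [InnerProductSpace ℝ V] (PL PR : ℤ → (V →ₗ[ℝ] V)), AF PL C → AF PR C →
    ∀ r : ℕ, r0 ≤ r → ∀ (kl kr : ℤ) (A : ℝ) (D : V →ₗ[ℝ] V), 0 ≤ A → Cls PL PR kl kr A D →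
      ∀ (n : ℕ) (S x : V), |inner ℝ S (D x)| ≤
        A * (eV PL r n kl S * eV PR r n kr x + 7 * ((2 : ℝ) ^ n)⁻¹ * ‖S‖ * ‖x‖) := by
  obtain ⟨r0, hr0, hstep⟩ := cls_step C
  refine ⟨r0, hr0, ?_⟩
  intro V _ _ PL PR hPL hPR r hr kl kr A D hA hD n S x
  have hc : ∀ (kl kr : ℤ) (A : ℝ) (D : V →ₗ[ℝ] V), Cls PL PR kl kr A D → ∀ S y : V,
      |inner ℝ S (D y)| ≤ A * (‖S‖ * ‖y‖) := by
    intro kl kr A D h S y
    refine (abs_real_inner_le_norm S (D y)).trans ?_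
    refine (mul_le_mul_of_nonneg_left (cls_norm h y) (norm_nonneg S)).trans (le_of_eq ?_)
    ring
  -- the left lemma
  have left : ∀ (kr : ℤ) (y : V) (A : ℝ) (D : V →ₗ[ℝ] V), 0 ≤ A → Cls PL PR kl kr A D →
      |inner ℝ S (D y)| ≤ A * (‖y‖ * (eV PL r n kl S + ((2 : ℝ) ^ n)⁻¹ * ‖S‖)) := by
    intro kr y A D hA hD
    have h := walk1 (fun k A (D : V →ₗ[ℝ] V) => Cls PL PR k kr A D) (fun D => inner ℝ S (D y))
      (fun k => ‖Dl PL r k S‖ * ‖y‖) (‖S‖ * ‖y‖) r (fun k => by positivity)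
      (fun k A D _ h => hc k kr A D h S y) ?_ n kl A D hA hD
    · refine h.trans (le_of_eq ?_)
      congr 1
      have e : ∑ j ∈ Icc (-(n : ℤ)) n, cw j * (‖Dl PL r (kl + j * r) S‖ * ‖y‖) = eV PL r n kl S * ‖y‖ := by
        unfold eV
        rw [Finset.sum_mul]
        refine Finset.sum_congr rfl fun j _ => ?_
        unfold cw
        ring
      rw [e]
      ring
    · intro k A D hA hD
      obtain ⟨_, _, h3, h4⟩ := hstep V PL PR hPL hPR r hr k kr A D hA hD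
      refine ⟨_, _, h3, h4, ?_⟩
      have e : inner ℝ S (D y) = inner ℝ (Dl PL r k S) (D y) +
          inner ℝ S (((LinearMap.id - PL (k - r)) ∘ₗ D) y) + inner ℝ S ((PL (k + r) ∘ₗ D) y) := by
        simp only [LinearMap.comp_apply, LinearMap.sub_apply, LinearMap.id_apply, Dl]
        rw [inner_sub_right, inner_sub_left, hPL.symm, hPL.symm]
        ring
      rw [e]
      refine (abs_add_three _ _ _).trans ?_
      have h5 := hc k kr A D hD (Dl PL r k S) y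
      linarith
  -- the right lemma
  have hE : 0 ≤ eV PL r n kl S + ((2 : ℝ) ^ n)⁻¹ * ‖S‖ := by
    have : 0 ≤ eV PL r n kl S := Finset.sum_nonneg fun j _ => mul_nonneg (by positivity) (norm_nonneg _)
    positivity
  have h := walk1 (fun k A (D : V →ₗ[ℝ] V) => Cls PL PR kl k A D) (fun D => inner ℝ S (D x))
    (fun k => ‖Dl PR r k x‖ * (eV PL r n kl S + ((2 : ℝ) ^ n)⁻¹ * ‖S‖)) (‖S‖ * ‖x‖) r
    (fun k => mul_nonneg (norm_nonneg _) hE)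
    (fun k A D _ h => hc kl k A D h S x) ?_ n kr A D hA hD
  · refine h.trans (mul_le_mul_of_nonneg_left ?_ hA)
    have e : ∑ j ∈ Icc (-(n : ℤ)) n, cw j * (‖Dl PR r (kr + j * r) x‖ *
        (eV PL r n kl S + ((2 : ℝ) ^ n)⁻¹ * ‖S‖)) = eV PR r n kr x * (eV PL r n kl S + ((2 : ℝ) ^ n)⁻¹ * ‖S‖) := by
      unfold eV
      rw [Finset.sum_mul]
      refine Finset.sum_congr rfl fun j _ => ?_
      unfold cw
      ring
    rw [e]
    have h1 := eV_le hPR r n kr x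
    have h2 : 0 ≤ ((2 : ℝ) ^ n)⁻¹ * ‖S‖ := by positivity
    nlinarith [mul_le_mul_of_nonneg_right h1 h2]
  · intro k A D hA hD
    obtain ⟨h3, h4, _, _⟩ := hstep V PL PR hPL hPR r hr kl k A D hA hD
    refine ⟨_, _, h3, h4, ?_⟩
    have e : inner ℝ S (D x) = inner ℝ S (D (Dl PR r k x)) +
        inner ℝ S ((D ∘ₗ (LinearMap.id - PR (k - r))) x) + inner ℝ S ((D ∘ₗ PR (k + r)) x) := by
      rw [← inner_add_right, ← inner_add_right]
      congr 1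
      simp only [LinearMap.comp_apply, LinearMap.sub_apply, LinearMap.id_apply, Dl]
      rw [← map_add, ← map_add]
      congr 1
      abel
    rw [e]
    refine (abs_add_three _ _ _).trans ?_
    have h5 := left k (Dl PR r k x) A D hA hD
    linarith

end NPG
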