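import Pool.Agent.NPG.EAF

set_option autoImplicit false

/-!
# NPG / EWst : one step of the walk

PROOF of `cls_step` (right side; `y` is the number of the test relative to the new level).  Choose `y0` with
`C 2^(-y) ≤ rho^y / 8` for all `y ≥ y0` (`rho^y = 2^(-y/6)`), and `r0 = y0 + 18` (`rho^18 = 1/8`).  Let `L` be a test with number
`yl` and `F = A rho^yl`; we know `‖L D‖ ≤ F`, `‖L D (1 - PR w)‖ ≤ F rho^(kr - w)` (`w ≤ kr`), `‖L D PR w‖ ≤ F rho^(w - kr)` (`w ≥ kr`).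
`D' = D (1 - PR (kr - r))`, new level `kr - r`:
 `R = 1`: `F rho^r ≤ F / 4`.
 `R = PR (kr - r + y)`: for `y ≤ y0`: `‖L D'‖ ‖R‖ ≤ F rho^r ≤ (F/4) rho^y`; for `y ≥ y0`: `‖L D‖ ‖(1 - PR (kr-r)) PR (kr-r+y)‖ ≤ F C 2^(-y)`
 (`ao'`).
 `R = 1 - PR (kr - r - y)`: for `y ≤ y0`: `F rho^r`.  For `y ≥ y0`: `(1 - PR (kr-r)) (1 - PR (kr-r-y)) = (1 - PR (kr-r-y)) -
 PR (kr-r) (1 - PR (kr-r-y))`, so `≤ F rho^(r+y) + F C 2^(-y)` (`ao`).
`D'' = D PR (kr + r)`, new level `kr + r`: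
 `R = 1`: `F rho^r`.
 `R = PR (kr+r+y)`: `y ≤ y0`: `F rho^r`; `y ≥ y0`: `PR (kr+r) PR (kr+r+y) = PR (kr+r+y) - (1 - PR (kr+r)) PR (kr+r+y)`: `≤ F rho^(r+y) +
 F C 2^(-y)` (`ao'`).
 `R = 1 - PR (kr+r-y)`: `y ≤ y0`: `F rho^r`; `y ≥ y0`: `‖PR (kr+r) (1 - PR (kr+r-y))‖ ≤ C 2^(-y)` (`ao`).
The left side is the mirror image (`ao` and `ao'` exchanged).
-/

namespace NPG
open Finset

private theorem rho_pos : 0 < rho := by
  unfold rho
  positivity

private theorem rho_lt_one : rho < 1 := by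
  unfold rho
  exact Real.rpow_lt_one_of_one_lt_of_neg (by norm_num) (by norm_num)

private theorem rho_pow_18 : rho ^ 18 = 1 / 8 := by
  unfold rho
  rw [← Real.rpow_natCast, ← Real.rpow_mul (by norm_num)]
  have : (-(1 / 6) : ℝ) * ((18 : ℕ) : ℝ) = ((-3 : ℤ) : ℝ) := by norm_num
  rw [this, Real.rpow_intCast]
  norm_num

private theorem one_lt_two_rho : 1 < 2 * rho := by
  have h1 : (2 : ℝ) ^ (-1 : ℝ) < rho := by
    unfold rho
    exact Real.rpow_lt_rpow_of_exponent_lt (by norm_num) (by norm_num)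
  rw [Real.rpow_neg_one] at h1
  linarith

private theorem exists_y0 (C : ℝ) : ∃ y0 : ℕ, ∀ y ≥ y0, C * ((2 : ℝ) ^ y)⁻¹ ≤ rho ^ y / 8 := by
  obtain ⟨m, hm⟩ := pow_unbounded_of_one_lt (8 * C) one_lt_two_rho
  refine ⟨m, fun y hy => ?_⟩
  have h1 : (2 * rho) ^ m ≤ (2 * rho) ^ y := pow_le_pow_right₀ one_lt_two_rho.le hy
  have h2 : 8 * C ≤ 2 ^ y * rho ^ y := by
    rw [← mul_pow]; linarith
  have h3 : (0 : ℝ) < 2 ^ y := by positivity
  rw [← div_eq_mul_inv, div_le_div_iff₀ h3 (by norm_num)]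
  linarith

private theorem rho_pow_le {a b : ℕ} (h : a ≤ b) : rho ^ b ≤ rho ^ a :=
  pow_le_pow_of_le_one rho_pos.le rho_lt_one.le h

section side

variable {V : Type} [NormedAddCommGroup V] [InnerProductSpace ℝ V] {P : ℤ → (V →ₗ[ℝ] V)} {C : ℝ}

/-- the numbers -/
private structure Nm (C : ℝ) (y0 r : ℕ) : Prop where
  h : ∀ y ≥ y0, C * ((2 : ℝ) ^ y)⁻¹ ≤ rho ^ y / 8
  hr : y0 + 18 ≤ r

private theorem Nm.small {y0 r : ℕ} (hN : Nm C y0 r) {y : ℕ} (hy : y ≤ y0) :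
    rho ^ r ≤ rho ^ y / 4 := by
  have h1 : rho ^ r ≤ rho ^ (y + 18) := rho_pow_le (by have := hN.hr; omega)
  rw [pow_add, rho_pow_18] at h1
  have := pow_pos rho_pos y
  linarith

private theorem Nm.big {y0 r : ℕ} (hN : Nm C y0 r) {y : ℕ} (hy : y0 ≤ y) :
    C * ((2 : ℝ) ^ y)⁻¹ ≤ rho ^ y / 4 := by
  have h1 := hN.h y hy
  have := pow_pos rho_pos y
  linarith

private theorem Nm.both {y0 r : ℕ} (hN : Nm C y0 r) {y : ℕ} (hy : y0 ≤ y) :
    rho ^ (r + y) + C * ((2 : ℝ) ^ y)⁻¹ ≤ rho ^ y / 4 := by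
  have h1 := hN.h y hy
  have h2 : rho ^ (r + y) ≤ rho ^ (18 + y) := rho_pow_le (by have := hN.hr; omega)
  rw [pow_add rho 18, rho_pow_18] at h2
  linarith

/-- vectors: the left side, low cut -/
private theorem vec_lo (hP : AF P C) {y0 r : ℕ} (hN : Nm C y0 r) (k : ℤ) (u : V) {G : ℝ}
    (hG : 0 ≤ G) (h0 : ‖u‖ ≤ G) (h1 : ∀ y : ℕ, ‖u - P (k - y) u‖ ≤ G * rho ^ y)
    {y : ℕ} {L : V →ₗ[ℝ] V} (hL : Tst P (k - r) y L) :
    ‖L (u - P (k - r) u)‖ ≤ G * (rho ^ y / 4) := by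
  have hu : ‖u - P (k - r) u‖ ≤ G * rho ^ r := h1 r
  have hsm : y ≤ y0 → ‖u - P (k - r) u‖ ≤ G * (rho ^ y / 4) := fun hy =>
    hu.trans (mul_le_mul_of_nonneg_left (hN.small hy) hG)
  rcases hL with ⟨rfl, rfl⟩ | rfl | rfl
  · exact hsm (Nat.zero_le _)
  · rcases le_total y y0 with hy | hy
    · exact (hP.norm_le _ _).trans (hsm hy)
    · refine (hP.ao (k - r) y u).trans ?_
      calc C * ((2 : ℝ) ^ y)⁻¹ * ‖u‖ ≤ rho ^ y / 4 * ‖u‖ :=
            mul_le_mul_of_nonneg_right (hN.big hy) (norm_nonneg _)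
        _ ≤ rho ^ y / 4 * G := mul_le_mul_of_nonneg_left h0 (by have := pow_pos rho_pos y; positivity)
        _ = _ := by ring
  · rcases le_total y y0 with hy | hy
    · exact (hP.norm_sub_le _ _).trans (hsm hy)
    · have e : (LinearMap.id - P (k - r - y) : V →ₗ[ℝ] V) (u - P (k - r) u) =
          (u - P (k - (r + y : ℕ)) u) - (P (k - r - y + y) u - P (k - r - y) (P (k - r - y + y) u)) := by
        have e1 : k - r - (y : ℤ) + y = k - r := by ring
        have e2 : k - ((r + y : ℕ) : ℤ) = k - r - y := by push_cast; ring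
        rw [e1, e2]
        simp only [LinearMap.sub_apply, LinearMap.id_apply, map_sub]
      rw [e]
      refine (norm_sub_le _ _).trans ((add_le_add (h1 (r + y)) (hP.ao' (k - r - y) y u)).trans ?_)
      by_cases hC : 0 ≤ C * ((2 : ℝ) ^ y)⁻¹
      · have h3 := mul_le_mul_of_nonneg_left h0 hC
        have h4 := mul_le_mul_of_nonneg_left (hN.both hy) hG
        nlinarith
      · have h3 : C * ((2 : ℝ) ^ y)⁻¹ * ‖u‖ ≤ 0 :=
          mul_nonpos_of_nonpos_of_nonneg (le_of_not_ge hC) (norm_nonneg _)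
        have h5 : rho ^ (r + y) ≤ rho ^ y / 4 := by
          have h6 : rho ^ (r + y) ≤ rho ^ (18 + y) := rho_pow_le (by have := hN.hr; omega)
          rw [pow_add rho 18, rho_pow_18] at h6
          have := pow_pos rho_pos y
          linarith
        have h7 := mul_le_mul_of_nonneg_left h5 hG
        linarith

/-- vectors: the left side, high cut -/
private theorem vec_hi (hP : AF P C) {y0 r : ℕ} (hN : Nm C y0 r) (k : ℤ) (u : V) {G : ℝ}
    (hG : 0 ≤ G) (h0 : ‖u‖ ≤ G) (h2 : ∀ y : ℕ, ‖P (k + y) u‖ ≤ G * rho ^ y)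
    {y : ℕ} {L : V →ₗ[ℝ] V} (hL : Tst P (k + r) y L) :
    ‖L (P (k + r) u)‖ ≤ G * (rho ^ y / 4) := by
  have hu : ‖P (k + r) u‖ ≤ G * rho ^ r := h2 r
  have hsm : y ≤ y0 → ‖P (k + r) u‖ ≤ G * (rho ^ y / 4) := fun hy =>
    hu.trans (mul_le_mul_of_nonneg_left (hN.small hy) hG)
  rcases hL with ⟨rfl, rfl⟩ | rfl | rfl
  · exact hsm (Nat.zero_le _)
  · rcases le_total y y0 with hy | hy
    · exact (hP.norm_le _ _).trans (hsm hy)
    · have e : P (k + r + y) (P (k + r) u) =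
          P (k + (r + y : ℕ)) u - P (k + r + y) (u - P (k + r) u) := by
        have e2 : k + ((r + y : ℕ) : ℤ) = k + r + y := by push_cast; ring
        rw [e2]
        simp only [map_sub]
        abel
      rw [e]
      refine (norm_sub_le _ _).trans ((add_le_add (h2 (r + y)) (hP.ao (k + r) y u)).trans ?_)
      by_cases hC : 0 ≤ C * ((2 : ℝ) ^ y)⁻¹
      · have h3 := mul_le_mul_of_nonneg_left h0 hC
        have h4 := mul_le_mul_of_nonneg_left (hN.both hy) hG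
        nlinarith
      · have h3 : C * ((2 : ℝ) ^ y)⁻¹ * ‖u‖ ≤ 0 :=
          mul_nonpos_of_nonpos_of_nonneg (le_of_not_ge hC) (norm_nonneg _)
        have h5 : rho ^ (r + y) ≤ rho ^ y / 4 := by
          have h6 : rho ^ (r + y) ≤ rho ^ (18 + y) := rho_pow_le (by have := hN.hr; omega)
          rw [pow_add rho 18, rho_pow_18] at h6
          have := pow_pos rho_pos y
          linarith
        have h7 := mul_le_mul_of_nonneg_left h5 hG
        linarith
  · rcases le_total y y0 with hy | hy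
    · exact (hP.norm_sub_le _ _).trans (hsm hy)
    · have e : (LinearMap.id - P (k + r - y) : V →ₗ[ℝ] V) (P (k + r) u) =
          P (k + r - y + y) u - P (k + r - y) (P (k + r - y + y) u) := by
        have e1 : k + r - (y : ℤ) + y = k + r := by ring
        rw [e1]
        simp only [LinearMap.sub_apply, LinearMap.id_apply]
      rw [e]
      refine (hP.ao' (k + r - y) y u).trans ?_
      calc C * ((2 : ℝ) ^ y)⁻¹ * ‖u‖ ≤ rho ^ y / 4 * ‖u‖ :=
            mul_le_mul_of_nonneg_right (hN.big hy) (norm_nonneg _)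
        _ ≤ rho ^ y / 4 * G := mul_le_mul_of_nonneg_left h0 (by have := pow_pos rho_pos y; positivity)
        _ = _ := by ring

/-- maps: the right side, low cut -/
private theorem map_lo (hP : AF P C) {y0 r : ℕ} (hN : Nm C y0 r) (k : ℤ) (M : V →ₗ[ℝ] V) {F : ℝ}
    (hF : 0 ≤ F) (h0 : ∀ x, ‖M x‖ ≤ F * ‖x‖)
    (h1 : ∀ (y : ℕ) (x : V), ‖M (x - P (k - y) x)‖ ≤ F * rho ^ y * ‖x‖)
    {y : ℕ} {R : V →ₗ[ℝ] V} (hR : Tst P (k - r) y R) (x : V) :
    ‖M (R x - P (k - r) (R x))‖ ≤ F * (rho ^ y / 4) * ‖x‖ := by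
  have hsm : y ≤ y0 → ‖R x‖ ≤ ‖x‖ →
      ‖M (R x - P (k - r) (R x))‖ ≤ F * (rho ^ y / 4) * ‖x‖ := fun hy hx =>
    (h1 r (R x)).trans (mul_le_mul (mul_le_mul_of_nonneg_left (hN.small hy) hF) hx (norm_nonneg _)
      (by have := pow_pos rho_pos y; positivity))
  rcases hR with ⟨rfl, rfl⟩ | rfl | rfl
  · exact hsm (Nat.zero_le _) le_rfl
  · rcases le_total y y0 with hy | hy
    · exact hsm hy (hP.norm_le _ _)
    · refine (h0 _).trans ?_
      have h3 := hP.ao' (k - r) y x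
      have h4 : ‖P (k - r + y) x - P (k - r) (P (k - r + y) x)‖ ≤ rho ^ y / 4 * ‖x‖ :=
        h3.trans (mul_le_mul_of_nonneg_right (hN.big hy) (norm_nonneg _))
      calc F * ‖P (k - r + y) x - P (k - r) (P (k - r + y) x)‖ ≤ F * (rho ^ y / 4 * ‖x‖) :=
            mul_le_mul_of_nonneg_left h4 hF
        _ = _ := by ring
  · rcases le_total y y0 with hy | hy
    · exact hsm hy (hP.norm_sub_le _ _)
    · have e : (LinearMap.id - P (k - r - y) : V →ₗ[ℝ] V) x - P (k - r) ((LinearMap.id - P (k - r - y) : V →ₗ[ℝ] V) x) =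
          (x - P (k - (r + y : ℕ)) x) - P (k - r - y + y) (x - P (k - r - y) x) := by
        have e1 : k - r - (y : ℤ) + y = k - r := by ring
        have e2 : k - ((r + y : ℕ) : ℤ) = k - r - y := by push_cast; ring
        rw [e1, e2]
        simp only [LinearMap.sub_apply, LinearMap.id_apply]
      rw [e, map_sub]
      have h3 := (h0 (P (k - r - y + y) (x - P (k - r - y) x))).trans
        (mul_le_mul_of_nonneg_left (hP.ao (k - r - y) y x) hF)
      refine (norm_sub_le _ _).trans ((add_le_add (h1 (r + y) x) h3).trans ?_)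
      have h4 := mul_le_mul_of_nonneg_left (hN.both hy) (mul_nonneg hF (norm_nonneg x))
      nlinarith

/-- maps: the right side, high cut -/
private theorem map_hi (hP : AF P C) {y0 r : ℕ} (hN : Nm C y0 r) (k : ℤ) (M : V →ₗ[ℝ] V) {F : ℝ}
    (hF : 0 ≤ F) (h0 : ∀ x, ‖M x‖ ≤ F * ‖x‖)
    (h2 : ∀ (y : ℕ) (x : V), ‖M (P (k + y) x)‖ ≤ F * rho ^ y * ‖x‖)
    {y : ℕ} {R : V →ₗ[ℝ] V} (hR : Tst P (k + r) y R) (x : V) :
    ‖M (P (k + r) (R x))‖ ≤ F * (rho ^ y / 4) * ‖x‖ := by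
  have hsm : y ≤ y0 → ‖R x‖ ≤ ‖x‖ →
      ‖M (P (k + r) (R x))‖ ≤ F * (rho ^ y / 4) * ‖x‖ := fun hy hx =>
    (h2 r (R x)).trans (mul_le_mul (mul_le_mul_of_nonneg_left (hN.small hy) hF) hx (norm_nonneg _)
      (by have := pow_pos rho_pos y; positivity))
  rcases hR with ⟨rfl, rfl⟩ | rfl | rfl
  · exact hsm (Nat.zero_le _) le_rfl
  · rcases le_total y y0 with hy | hy
    · exact hsm hy (hP.norm_le _ _)
    · have e : P (k + r) (P (k + r + y) x) =
          P (k + (r + y : ℕ)) x - (P (k + r + y) x - P (k + r) (P (k + r + y) x)) := by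
        have e2 : k + ((r + y : ℕ) : ℤ) = k + r + y := by push_cast; ring
        rw [e2]
        abel
      rw [e, map_sub]
      have h3 := (h0 (P (k + r + y) x - P (k + r) (P (k + r + y) x))).trans
        (mul_le_mul_of_nonneg_left (hP.ao' (k + r) y x) hF)
      refine (norm_sub_le _ _).trans ((add_le_add (h2 (r + y) x) h3).trans ?_)
      have h4 := mul_le_mul_of_nonneg_left (hN.both hy) (mul_nonneg hF (norm_nonneg x))
      nlinarith
  · rcases le_total y y0 with hy | hy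
    · exact hsm hy (hP.norm_sub_le _ _)
    · refine (h0 _).trans ?_
      have e1 : k + r - (y : ℤ) + y = k + r := by ring
      have h3 := hP.ao (k + r - y) y x
      rw [e1] at h3
      have h4 : ‖P (k + r) ((LinearMap.id - P (k + r - y) : V →ₗ[ℝ] V) x)‖ ≤ rho ^ y / 4 * ‖x‖ :=
        h3.trans (mul_le_mul_of_nonneg_right (hN.big hy) (norm_nonneg _))
      calc F * ‖P (k + r) ((LinearMap.id - P (k + r - y) : V →ₗ[ℝ] V) x)‖ ≤ F * (rho ^ y / 4 * ‖x‖) :=
            mul_le_mul_of_nonneg_left h4 hF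
        _ = _ := by ring

end side

theorem cls_step (C : ℝ) : ∃ r0 : ℕ, 1 ≤ r0 ∧ ∀ (V : Type) [NormedAddCommGroup V]
    [InnerProductSpace ℝ V] (PL PR : ℤ → (V →ₗ[ℝ] V)), AF PL C → AF PR C →
    ∀ r : ℕ, r0 ≤ r → ∀ (kl kr : ℤ) (A : ℝ) (D : V →ₗ[ℝ] V), 0 ≤ A → Cls PL PR kl kr A D →
      Cls PL PR kl (kr - r) (A / 4) (D ∘ₗ (LinearMap.id - PR (kr - r))) ∧
      Cls PL PR kl (kr + r) (A / 4) (D ∘ₗ PR (kr + r)) ∧
      Cls PL PR (kl - r) kr (A / 4) ((LinearMap.id - PL (kl - r)) ∘ₗ D) ∧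
      Cls PL PR (kl + r) kr (A / 4) (PL (kl + r) ∘ₗ D) := by
  obtain ⟨y0, hy0⟩ := exists_y0 C
  refine ⟨y0 + 18, by omega, ?_⟩
  intro V _ _ PL PR hL hR r hr kl kr A D hA hD
  have hN : Nm C y0 r := ⟨hy0, hr⟩
  have hid : ∀ (P : ℤ → (V →ₗ[ℝ] V)) (k : ℤ), Tst P k 0 LinearMap.id := fun P k =>
    Or.inl ⟨rfl, rfl⟩
  have hp : ∀ (P : ℤ → (V →ₗ[ℝ] V)) (k : ℤ) (y : ℕ), Tst P k y (P (k + y)) := fun P k y =>
    Or.inr (Or.inl rfl)
  have hm : ∀ (P : ℤ → (V →ₗ[ℝ] V)) (k : ℤ) (y : ℕ), Tst P k y (LinearMap.id - P (k - y)) :=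
    fun P k y => Or.inr (Or.inr rfl)
  refine ⟨?_, ?_, ?_, ?_⟩
  · intro yl yr L R hTL hTR x
    have h := map_lo hR hN kr (L ∘ₗ D) (F := A * rho ^ yl)
      (mul_nonneg hA (pow_pos rho_pos _).le)
      (fun x => by simpa using hD yl 0 L _ hTL (hid PR kr) x)
      (fun y x => by simpa using hD yl y L _ hTL (hm PR kr y) x) hTR x
    have e : L ((D ∘ₗ (LinearMap.id - PR (kr - r))) (R x)) =
        (L ∘ₗ D) (R x - PR (kr - r) (R x)) := rfl
    rw [e]
    refine h.trans (le_of_eq ?_)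
    ring
  · intro yl yr L R hTL hTR x
    have h := map_hi hR hN kr (L ∘ₗ D) (F := A * rho ^ yl)
      (mul_nonneg hA (pow_pos rho_pos _).le)
      (fun x => by simpa using hD yl 0 L _ hTL (hid PR kr) x)
      (fun y x => by simpa using hD yl y L _ hTL (hp PR kr y) x) hTR x
    refine (le_of_eq rfl).trans (h.trans (le_of_eq ?_))
    ring
  · intro yl yr L R hTL hTR x
    have h := vec_lo hL hN kl (D (R x)) (G := A * rho ^ yr * ‖x‖)
      (mul_nonneg (mul_nonneg hA (pow_pos rho_pos _).le) (norm_nonneg _))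
      (by simpa using hD 0 yr _ R (hid PL kl) hTR x)
      (fun y => by
        have := hD y yr _ R (hm PL kl y) hTR x
        refine (le_of_eq rfl).trans (this.trans (le_of_eq ?_))
        ring) hTL
    refine (le_of_eq rfl).trans (h.trans (le_of_eq ?_))
    ring
  · intro yl yr L R hTL hTR x
    have h := vec_hi hL hN kl (D (R x)) (G := A * rho ^ yr * ‖x‖)
      (mul_nonneg (mul_nonneg hA (pow_pos rho_pos _).le) (norm_nonneg _))
      (by simpa using hD 0 yr _ R (hid PL kl) hTR x)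
      (fun y => by
        have := hD y yr _ R (hp PL kl y) hTR x
        refine (le_of_eq rfl).trans (this.trans (le_of_eq ?_))
        ring) hTL
    refine (le_of_eq rfl).trans (h.trans (le_of_eq ?_))
    ring

end NPG
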