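import Pool.Agent.NPG.ThDef
import Pool.Agent.NP2.EndFin

/-!
# NPG / EndC : transference, the integrated statement

`Emb T S C K` : a model with constant `C` which contains a Folner set of objects: `W ⊆ W'`
finite subsets of the group, `|W'| ≤ 2 |W|`, `φ` injective on `W'`, and for `u ∈ W`, `c < 2^K` the
`S`-object `S^(-c) T^c u` tied to `u` belongs to `W'` and is mapped to `M.th c * φ u`.
-/

namespace NPG
open Finset Filter MeasureTheory
open NP2 (NJ bt jn jc ph MI)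

noncomputable section

/-- finite models for the times `c < 2^K` -/
def Emb {G : Type} [Group G] (T S : G) (C K : ℕ) : Prop :=
  ∃ (A : Type) (_ : Group A) (_ : Fintype A) (M : Mod A) (nu : ℕ → A → ℝ)
    (kr : ℕ → ℕ → A → ℝ) (W W' : Finset G) (φ : G → A),
    Geo M nu C ∧ (∀ a, 1 ≤ a → Krn M nu C a (kr a)) ∧ (∀ a, 1 ≤ a → Krn M.sw nu C a (kr a)) ∧
    W.Nonempty ∧ W ⊆ W' ∧ W'.card ≤ 2 * W.card ∧ Set.InjOn φ W' ∧
    ∀ u ∈ W, ∀ c < 2 ^ K, (S ^ c)⁻¹ * T ^ c * u ∈ W' ∧ M.th c * φ u = φ ((S ^ c)⁻¹ * T ^ c * u)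

section values
variable {G A X : Type} [Group G]

/-- values of a function along the orbits of the objects -/
def FF (ι : G →* Equiv.Perm X) (T : G) (W' : Finset G) (φ : G → A) (f : X → ℝ) (x : X) (a : A)
    (t : ℕ) : ℝ :=
  @dite ℝ (∃ u ∈ W', φ u = a) (Classical.propDecidable _)
    (fun h => f (ι (T ^ t * h.choose) x)) (fun _ => 0)

lemma FF_of {ι : G →* Equiv.Perm X} {T : G} {W' : Finset G} {φ : G → A} {f : X → ℝ}
    (hφ : Set.InjOn φ W') {u : G} (hu : u ∈ W') (x : X) (t : ℕ) :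
    FF ι T W' φ f x (φ u) t = f (ι (T ^ t * u) x) := by
  have h : ∃ v ∈ W', φ v = φ u := ⟨u, hu, rfl⟩
  unfold FF
  rw [@dif_pos _ (Classical.propDecidable _) h]
  have h1 := h.choose_spec
  rw [hφ (mem_coe.2 h1.1) (mem_coe.2 hu) h1.2]

lemma FF_abs {ι : G →* Equiv.Perm X} {T : G} {W' : Finset G} {φ : G → A} {f : X → ℝ}
    (hf : ∀ x, |f x| ≤ 1) (x : X) (a : A) (t : ℕ) : |FF ι T W' φ f x a t| ≤ 1 := by
  unfold FF
  by_cases h : ∃ u ∈ W', φ u = a
  · rw [@dif_pos _ (Classical.propDecidable _) h]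
    exact hf _
  · rw [@dif_neg _ (Classical.propDecidable _) h, abs_zero]
    exact zero_le_one

lemma FF_zero {ι : G →* Equiv.Perm X} {T : G} {W' : Finset G} {φ : G → A} {f : X → ℝ}
    (x : X) (a : A) (t : ℕ) (h : ¬ ∃ u ∈ W', φ u = a) : FF ι T W' φ f x a t = 0 := by
  unfold FF
  rw [@dif_neg _ (Classical.propDecidable _) h]

end values

lemma XX_eq {G A X : Type} [Group G] [Group A] (M : Mod A) (ι : G →* Equiv.Perm X) (T S : G)
    (W' : Finset G) (φ : G → A) (f g : X → ℝ) (hφ : Set.InjOn φ W') {u : G} (hu : u ∈ W')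
    {c : ℕ} (h1 : (S ^ c)⁻¹ * T ^ c * u ∈ W') (h2 : M.th c * φ u = φ ((S ^ c)⁻¹ * T ^ c * u))
    (x : X) (k : ℕ) :
    XX M (FF ι T W' φ f x) (FF ι S W' φ g x) k c (φ u) =
      bt (ph (ι T) (ι S) f g (ι (T ^ c * u) x)) k (c % 2 ^ k) := by
  unfold XX bt
  congr 1
  refine sum_congr rfl fun s _ => ?_
  rw [h2, FF_of hφ hu, FF_of hφ h1]
  have hdm := Nat.div_add_mod c (2 ^ k)
  have ht : ∀ V : G, V ^ (c / 2 ^ k * 2 ^ k + s) =
      V ^ ((s : ℤ) - ((c % 2 ^ k : ℕ) : ℤ)) * V ^ c := by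
    intro V
    rw [← zpow_natCast V c, ← zpow_add, ← zpow_natCast]
    congr 1
    have : ((c : ℕ) : ℤ) = 2 ^ k * ((c / 2 ^ k : ℕ) : ℤ) + ((c % 2 ^ k : ℕ) : ℤ) := by
      exact_mod_cast hdm.symm
    push_cast at this ⊢
    linarith
  unfold ph
  have e1 : ι (T ^ (c / 2 ^ k * 2 ^ k + s) * u) x =
      (ι T ^ ((s : ℤ) - ((c % 2 ^ k : ℕ) : ℤ))) (ι (T ^ c * u) x) := by
    rw [ht T, mul_assoc, map_mul, map_zpow]
    rfl
  have e2 : ι (S ^ (c / 2 ^ k * 2 ^ k + s) * ((S ^ c)⁻¹ * T ^ c * u)) x =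
      (ι S ^ ((s : ℤ) - ((c % 2 ^ k : ℕ) : ℤ))) (ι (T ^ c * u) x) := by
    have : S ^ (c / 2 ^ k * 2 ^ k + s) * ((S ^ c)⁻¹ * T ^ c * u) =
        S ^ ((s : ℤ) - ((c % 2 ^ k : ℕ) : ℤ)) * (T ^ c * u) := by
      rw [ht S]
      group
    rw [this, map_mul, map_zpow]
    rfl
  rw [e1, e2]

theorem endC {X : Type} [MeasurableSpace X] {μ : Measure X} [IsProbabilityMeasure μ]
    {G : Type} [Group G] (ι : G →* Equiv.Perm X) (hι : ∀ γ, MI μ (ι γ)) (T S : G) (C : ℕ)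
    (hA : ThmA C) (hE : ∀ K, Emb T S C K) {f g : X → ℝ} (hf : Measurable f) (hg : Measurable g)
    (hf1 : ∀ x, |f x| ≤ 1) (hg1 : ∀ x, |g x| ≤ 1) :
    ∀ δ : ℝ, 0 < δ → ∀ η : ℝ, 0 < η → ∃ R : ℕ, ∀ K : ℕ,
      ∫ x, jc (ph (ι T) (ι S) f g x) δ R K ∂μ ≤ η * 2 ^ K := by
  classical
  intro δ hδ η hη
  obtain ⟨R, hR⟩ := hA δ hδ (η / 2) (by positivity)
  refine ⟨R, fun K => ?_⟩
  obtain ⟨A, _, _, M, nu, kr, W, W', φ, hgeo, hk1, hk2, hW, hWW, hcard, hφ, hmem⟩ := hE K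
  have hphm := fun n => NP2.meas_ph (μ := μ) (hι T) (hι S) hf hg n
  have hWc : (0 : ℝ) < W.card := by exact_mod_cast hW.card_pos
  -- pointwise
  have hpt : ∀ x : X, ∑ c ∈ range (2 ^ K), ∑ u ∈ W,
      jn (ph (ι T) (ι S) f g (ι (T ^ c * u) x)) δ R K c ≤ η * 2 ^ K * W.card := by
    intro x
    have h3 := hR A M nu kr hgeo hk1 hk2 K (FF ι T W' φ f x) (FF ι S W' φ g x) (W'.image φ)
      (fun a t => FF_abs hf1 x a t) (fun a t => FF_abs hg1 x a t)
      (fun a t ha => FF_zero x a t fun ⟨u, hu, e⟩ => ha (mem_image.2 ⟨u, hu, e⟩))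
      (fun a t ha => FF_zero x a t fun ⟨u, hu, e⟩ => ha (mem_image.2 ⟨u, hu, e⟩))
    have h4 : η / 2 * 2 ^ K * ((W'.image φ).card : ℝ) ≤ η * 2 ^ K * W.card := by
      have h5 : ((W'.image φ).card : ℝ) ≤ 2 * W.card := by
        exact_mod_cast card_image_le.trans hcard
      calc η / 2 * 2 ^ K * ((W'.image φ).card : ℝ) ≤ η / 2 * 2 ^ K * (2 * W.card) := by gcongr
        _ = η * 2 ^ K * W.card := by ring
    refine le_trans ?_ (h3.trans h4)
    refine sum_le_sum fun c hc => ?_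
    have hc' := mem_range.1 hc
    have hstep : ∀ u ∈ W, jn (ph (ι T) (ι S) f g (ι (T ^ c * u) x)) δ R K c =
        @ite ℝ (NJ δ (fun k => XX M (FF ι T W' φ f x) (FF ι S W' φ g x) k c (φ u)) R K)
          (Classical.propDecidable _) 1 0 := by
      intro u hu
      obtain ⟨h6, h7⟩ := hmem u hu c hc'
      unfold jn
      have e : (fun k => XX M (FF ι T W' φ f x) (FF ι S W' φ g x) k c (φ u)) =
          fun k => bt (ph (ι T) (ι S) f g (ι (T ^ c * u) x)) k (c % 2 ^ k) := by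
        funext k
        exact XX_eq M ι T S W' φ f g hφ (hWW hu) h6 h7 x k
      rw [e]
    rw [sum_congr rfl hstep,
      ← sum_image (f := fun a : A => @ite ℝ (NJ δ (fun k => XX M (FF ι T W' φ f x)
        (FF ι S W' φ g x) k c a) R K) (Classical.propDecidable _) 1 0)
        (hφ.mono (coe_subset.2 hWW))]
    refine sum_le_sum_of_subset_of_nonneg (subset_univ _) fun u _ _ => ?_
    split_ifs <;> norm_num
  -- integrate
  have hint : ∀ (c : ℕ) (v : G), Integrable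
      (fun x => jn (ph (ι T) (ι S) f g (ι v x)) δ R K c) μ ∧
      ∫ x, jn (ph (ι T) (ι S) f g (ι v x)) δ R K c ∂μ =
        ∫ x, jn (ph (ι T) (ι S) f g x) δ R K c ∂μ := by
    intro c v
    have hmi : MI μ (ι v) := hι v
    have hm := NP2.meas_jn hphm δ R K c
    constructor
    · refine Integrable.of_bound (hm.comp hmi.1.measurable).aestronglyMeasurable 1 ?_
      refine Filter.Eventually.of_forall fun x => ?_
      show ‖jn (ph (ι T) (ι S) f g (ι v x)) δ R K c‖ ≤ 1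
      rw [Real.norm_eq_abs, abs_of_nonneg (NP2.jn_nonneg _ _ _ _ _)]
      exact NP2.jn_le_one _ _ _ _ _
    · have h4 := hmi.1.map_eq
      have h5 := integral_map (μ := μ) hmi.1.measurable.aemeasurable
        (f := fun x => jn (ph (ι T) (ι S) f g x) δ R K c) (by
          rw [h4]; exact hm.aestronglyMeasurable)
      rw [h4] at h5
      exact h5.symm
  have hint0 : ∀ c : ℕ, Integrable (fun x => jn (ph (ι T) (ι S) f g x) δ R K c) μ := by
    intro c
    refine Integrable.of_bound (NP2.meas_jn hphm δ R K c).aestronglyMeasurable 1 ?_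
    refine Filter.Eventually.of_forall fun x => ?_
    rw [Real.norm_eq_abs, abs_of_nonneg (NP2.jn_nonneg _ _ _ _ _)]
    exact NP2.jn_le_one _ _ _ _ _
  have hI : ∫ x, (∑ c ∈ range (2 ^ K), ∑ u ∈ W,
      jn (ph (ι T) (ι S) f g (ι (T ^ c * u) x)) δ R K c) ∂μ =
      (W.card : ℝ) * ∫ x, jc (ph (ι T) (ι S) f g x) δ R K ∂μ := by
    rw [integral_finsetSum _ fun c _ => integrable_finsetSum _ fun u _ => (hint c _).1]
    have e1 : ∀ c ∈ range (2 ^ K), ∫ x, (∑ u ∈ W,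
        jn (ph (ι T) (ι S) f g (ι (T ^ c * u) x)) δ R K c) ∂μ =
        (W.card : ℝ) * ∫ x, jn (ph (ι T) (ι S) f g x) δ R K c ∂μ := by
      intro c _
      rw [integral_finsetSum _ fun u _ => (hint c _).1,
        sum_congr rfl fun u _ => (hint c (T ^ c * u)).2, sum_const, nsmul_eq_mul]
    rw [sum_congr rfl e1, ← mul_sum]
    congr 1
    unfold jc
    rw [integral_finsetSum]
    intro c _
    exact hint0 c
  have hle : (W.card : ℝ) * ∫ x, jc (ph (ι T) (ι S) f g x) δ R K ∂μ ≤ η * 2 ^ K * W.card := by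
    rw [← hI]
    have h6 := integral_mono (μ := μ) (integrable_finsetSum _ fun c _ =>
      integrable_finsetSum _ fun u _ => (hint c _).1)
      (integrable_const (η * 2 ^ K * (W.card : ℝ))) hpt
    refine h6.trans (le_of_eq ?_)
    simp
  have h8 : (W.card : ℝ) * ∫ x, jc (ph (ι T) (ι S) f g x) δ R K ∂μ ≤
      (W.card : ℝ) * (η * 2 ^ K) := by
    rw [mul_comm (W.card : ℝ) (η * 2 ^ K)]
    exact hle
  exact le_of_mul_le_mul_left h8 hWc

/-- real functions bounded by one -/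
theorem fin_real {X : Type} [MeasurableSpace X] {μ : Measure X} [IsProbabilityMeasure μ]
    {G : Type} [Group G] (ι : G →* Equiv.Perm X) (hι : ∀ γ, MI μ (ι γ)) (T S : G) (C : ℕ)
    (hA : ThmA C) (hE : ∀ K, Emb T S C K) {f g : X → ℝ} (hf : Measurable f) (hg : Measurable g)
    (hf1 : ∀ x, |f x| ≤ 1) (hg1 : ∀ x, |g x| ≤ 1) :
    ∀ᵐ x ∂μ, ∃ β : ℝ, Tendsto (fun N : ℕ => (((2 * N + 1 : ℕ) : ℝ))⁻¹ *
      ∑ n ∈ Icc (-(N : ℤ)) N, ph (ι T) (ι S) f g x n) atTop (nhds β) := by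
  have hC := endC ι hι T S C hA hE hf hg hf1 hg1
  have hB := NP2.endB (fun n => NP2.meas_ph (μ := μ) (hι T) (hι S) hf hg n) μ hC
  filter_upwards [hB] with x hx
  exact NP2.endA (fun n => NP2.ph_abs hf1 hg1 x n) hx

end

end NPG
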