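import Pool.Agent.NPG.EndC
import Pool.Agent.NP2.ThA
import Pool.Agent.NP2.Fin4

/-!
# NPG / EndF : the final statement, conditional on Theorem A and on the finite models

`ModH` : for `T`, `S` generating a nilpotent group there is `C` such that all the finite models
`Emb T S C K` exist.

`fin_cplx` : from real functions bounded by one to bounded complex functions.
`fin_pow` : `f_1(V_1^n x) f_2(V_2^n x)`, `V_1`, `V_2` generating a nilpotent group.
`fin5` : the final theorem (`f_j` in the closed span for the commutator subgroup, or `g_j = V^n`).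
-/

namespace NPG
open Finset Filter MeasureTheory
open scoped ENNReal Topology
open NP2 (NJ bt jn jc ph MI clampE clampA InEK)

noncomputable section

/-- existence of the finite models -/
def ModH : Prop :=
  ∀ (G : Type) [Group G], Group.IsNilpotent G → ∀ T S : G, Subgroup.closure {T, S} = ⊤ →
    ∃ C : ℕ, ∀ K : ℕ, Emb T S C K

variable {X : Type} [MeasurableSpace X] {μ : Measure X}

/-- from real functions bounded by one to bounded complex functions -/
theorem fin_cplx (μ : Measure X) [IsProbabilityMeasure μ] (V : Fin 2 → Equiv.Perm X)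
    (hU : ∀ j, MI μ (V j))
    (hreal : ∀ f g : X → ℝ, Measurable f → Measurable g → (∀ x, |f x| ≤ 1) → (∀ x, |g x| ≤ 1) →
      ∀ᵐ x ∂μ, ∃ β : ℝ, Tendsto (fun N : ℕ => (((2 * N + 1 : ℕ) : ℝ))⁻¹ *
        ∑ n ∈ Icc (-(N : ℤ)) N, ph (V 0) (V 1) f g x n) atTop (nhds β))
    (f : Fin 2 → X → ℂ) (hf : ∀ j, MemLp (f j) ∞ μ) :
    ∀ᵐ x ∂μ, ∃ L : ℂ, Filter.Tendsto
      (fun N : ℕ => ((2 * N + 1 : ℕ) : ℂ)⁻¹ *
        ∑ n ∈ Finset.Icc (-(N : ℤ)) (N : ℤ), ∏ j : Fin 2, f j ((V j ^ n) x))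
      Filter.atTop (nhds L) := by
  -- bounded representatives
  have hrep : ∀ j, ∃ (f' : X → ℂ) (M : ℝ), Measurable f' ∧ 0 < M ∧
      ∀ᵐ x ∂μ, f j x = f' x ∧ ‖f j x‖ ≤ M := by
    intro j
    refine ⟨(hf j).1.mk (f j), (eLpNorm (f j) ∞ μ).toReal + 1,
      (hf j).1.stronglyMeasurable_mk.measurable, by positivity, ?_⟩
    have h1 := (hf j).1.ae_eq_mk
    have h2 : ∀ᵐ x ∂μ, ‖f j x‖ₑ ≤ eLpNorm (f j) ∞ μ := by
      rw [eLpNorm_exponent_top]
      exact ae_le_eLpNormEssSup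
    filter_upwards [h1, h2] with x hx1 hx2
    refine ⟨hx1, ?_⟩
    have h3 : (‖f j x‖ₑ).toReal ≤ (eLpNorm (f j) ∞ μ).toReal :=
      ENNReal.toReal_mono (hf j).2.ne hx2
    rw [toReal_enorm] at h3
    linarith
  choose f' M hf'm hM hae using hrep
  let w : Fin 2 → Fin 2 → X → ℝ := fun j e x =>
    max (-1) (min 1 ((if e = 0 then (f' j x).re else (f' j x).im) / M j))
  have hwm : ∀ j e, Measurable (w j e) := by
    intro j e
    refine measurable_const.max (measurable_const.min (Measurable.div_const ?_ _))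
    by_cases he : e = 0
    · simp only [he, if_true]; exact Complex.measurable_re.comp (hf'm j)
    · simp only [he, if_false]; exact Complex.measurable_im.comp (hf'm j)
  have hw1 : ∀ j e x, |w j e x| ≤ 1 := fun j e x => clampA _
  let κ : Fin 2 → ℂ := fun e => if e = 0 then 1 else Complex.I
  have hval : ∀ j, ∀ᵐ x ∂μ, f j x = ∑ e : Fin 2, (M j : ℂ) * κ e * (w j e x : ℂ) := by
    intro j
    filter_upwards [hae j] with x hx
    obtain ⟨hx1, hx2⟩ := hx
    rw [hx1] at hx2 ⊢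
    have e1 : M j * w j 0 x = (f' j x).re := by
      have := clampE (hM j) ((Complex.abs_re_le_norm _).trans hx2)
      simpa [w] using this
    have e2 : M j * w j 1 x = (f' j x).im := by
      have := clampE (hM j) ((Complex.abs_im_le_norm _).trans hx2)
      simpa [w] using this
    rw [Fin.sum_univ_two]
    have e3 : (M j : ℂ) * κ 0 * (w j 0 x : ℂ) + (M j : ℂ) * κ 1 * (w j 1 x : ℂ) =
        ((M j * w j 0 x : ℝ) : ℂ) + ((M j * w j 1 x : ℝ) : ℂ) * Complex.I := by
      have k0 : κ 0 = 1 := rfl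
      have k1 : κ 1 = Complex.I := rfl
      rw [k0, k1]
      push_cast; ring
    rw [e3, e1, e2, Complex.re_add_im]
  have hall : ∀ᵐ x ∂μ, ∀ j, ∀ n : ℤ, f j ((V j ^ n) x) =
      ∑ e : Fin 2, (M j : ℂ) * κ e * (w j e ((V j ^ n) x) : ℂ) := by
    rw [ae_all_iff]
    intro j
    rw [ae_all_iff]
    intro n
    exact ((hU j).zpow n).1.quasiMeasurePreserving.ae (hval j)
  have hcore : ∀ᵐ x ∂μ, ∀ ε : Fin 2 → Fin 2, ∃ L : ℝ,
      Tendsto (fun N : ℕ => (((2 * N + 1 : ℕ) : ℝ))⁻¹ * ∑ n ∈ Icc (-(N : ℤ)) N,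
        ph (V 0) (V 1) (w 0 (ε 0)) (w 1 (ε 1)) x n) atTop (𝓝 L) := by
    rw [ae_all_iff]
    intro ε
    exact hreal _ _ (hwm _ _) (hwm _ _) (hw1 _ _) (hw1 _ _)
  filter_upwards [hall, hcore] with x hx hL
  choose L hL using hL
  refine ⟨∑ ε : Fin 2 → Fin 2, (∏ j, (M j : ℂ) * κ (ε j)) * (L ε : ℂ), ?_⟩
  have k : Tendsto (fun N : ℕ => ∑ ε : Fin 2 → Fin 2, (∏ j, (M j : ℂ) * κ (ε j)) *
      (((((2 * N + 1 : ℕ) : ℝ))⁻¹ * ∑ n ∈ Icc (-(N : ℤ)) N,
        ph (V 0) (V 1) (w 0 (ε 0)) (w 1 (ε 1)) x n : ℝ) : ℂ)) atTop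
      (𝓝 (∑ ε : Fin 2 → Fin 2, (∏ j, (M j : ℂ) * κ (ε j)) * (L ε : ℂ))) := by
    refine tendsto_finsetSum _ fun ε _ => ?_
    exact ((Complex.continuous_ofReal.tendsto (L ε)).comp (hL ε)).const_mul _
  refine k.congr ?_
  intro N
  have e : ∀ n : ℤ, ∏ j : Fin 2, f j ((V j ^ n) x) = ∑ ε : Fin 2 → Fin 2,
      (∏ j, (M j : ℂ) * κ (ε j)) * ((ph (V 0) (V 1) (w 0 (ε 0)) (w 1 (ε 1)) x n : ℝ) : ℂ) := by
    intro n
    rw [Finset.prod_congr rfl fun j _ => hx j n, Finset.prod_univ_sum, Fintype.piFinset_univ]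
    refine Finset.sum_congr rfl fun ε _ => ?_
    rw [Finset.prod_mul_distrib]
    congr 1
    unfold ph
    rw [Fin.prod_univ_two, Complex.ofReal_mul]
  rw [Finset.sum_congr rfl fun n _ => e n, Finset.sum_comm, Finset.mul_sum]
  refine Finset.sum_congr rfl fun ε _ => ?_
  rw [← Finset.mul_sum]
  push_cast
  ring

/-- two powers -/
theorem fin_pow (hM : ModH) (hA : ∀ C, ThmA C) (μ : Measure X) [IsProbabilityMeasure μ]
    (V : Fin 2 → Equiv.Perm X) (hU : ∀ j, MI μ (V j))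
    (hn : Group.IsNilpotent (Subgroup.closure {V 0, V 1}))
    (f : Fin 2 → X → ℂ) (hf : ∀ j, MemLp (f j) ∞ μ) :
    ∀ᵐ x ∂μ, ∃ L : ℂ, Filter.Tendsto
      (fun N : ℕ => ((2 * N + 1 : ℕ) : ℂ)⁻¹ *
        ∑ n ∈ Finset.Icc (-(N : ℤ)) (N : ℤ), ∏ j : Fin 2, f j ((V j ^ n) x))
      Filter.atTop (nhds L) := by
  have h0 : V 0 ∈ Subgroup.closure {V 0, V 1} := Subgroup.subset_closure (by simp)
  have h1 : V 1 ∈ Subgroup.closure {V 0, V 1} := Subgroup.subset_closure (by simp)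
  have hmi : ∀ γ : Subgroup.closure {V 0, V 1}, MI μ ((Subgroup.closure {V 0, V 1}).subtype γ) := by
    rintro ⟨γ, hγ⟩
    show MI μ γ
    induction hγ using Subgroup.closure_induction with
    | mem x hx =>
      simp only [Set.mem_insert_iff, Set.mem_singleton_iff] at hx
      rcases hx with rfl | rfl
      · exact hU 0
      · exact hU 1
    | one => exact MI.one
    | mul a b _ _ iha ihb => exact iha.mul ihb
    | inv a _ iha => exact iha.inv
  have hcl : Subgroup.closure {(⟨V 0, h0⟩ : Subgroup.closure {V 0, V 1}), ⟨V 1, h1⟩} = ⊤ := by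
    have h2 := Subgroup.closure_closure_coe_preimage (k := ({V 0, V 1} : Set (Equiv.Perm X)))
    rw [← h2]
    congr 1
    ext ⟨γ, hγ⟩
    simp only [Set.mem_insert_iff, Set.mem_singleton_iff, Set.mem_preimage, Subtype.mk.injEq]
  obtain ⟨C, hC⟩ := hM _ hn ⟨V 0, h0⟩ ⟨V 1, h1⟩ hcl
  refine fin_cplx μ V hU (fun f g hf hg hf1 hg1 => ?_) f hf
  exact fin_real (Subgroup.closure {V 0, V 1}).subtype hmi ⟨V 0, h0⟩ ⟨V 1, h1⟩ C (hA C) hC hf hg
    hf1 hg1

/-- **the final theorem**, conditional on Theorem A and the finite models -/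
theorem fin5 (hM : ModH) (hA : ∀ C, ThmA C) (X : Type) [MeasurableSpace X] (μ : Measure X)
    [IsProbabilityMeasure μ] (d : ℕ) (T : Fin d → Equiv.Perm X)
    (hs : ∀ i, Measurable ⇑(T i).symm)
    (hT : ∀ i, MeasurePreserving (⇑(T i)) μ μ)
    (hnil : Group.IsNilpotent (Subgroup.closure (Set.range T)))
    (P : Fin d → Fin 2 → Polynomial ℤ) (hP0 : ∀ i j, (P i j).eval 0 = 0)
    (hP1 : ∀ i j, (P i j).natDegree ≤ 1)
    (f : Fin 2 → X → ℂ) (hf : ∀ j, MemLp (f j) ∞ μ)
    (h1 : ∀ j, InEK μ (Subgroup.closure (Set.range T)) 1 (f j) ∨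
      ∃ V : Equiv.Perm X, ∀ n : ℤ,
        (List.ofFn fun l : Fin d => T l ^ (P l j).eval n).prod = V ^ n) :
    ∀ᵐ x ∂μ, ∃ L : ℂ, Filter.Tendsto
      (fun N : ℕ => ((2 * N + 1 : ℕ) : ℂ)⁻¹ *
        ∑ n ∈ Finset.Icc (-(N : ℤ)) (N : ℤ),
          ∏ j : Fin 2, f j ((List.ofFn fun i : Fin d => T i ^ (P i j).eval n).prod x))
      Filter.atTop (nhds L) := by
  by_cases hE : ∃ j, InEK μ (Subgroup.closure (Set.range T)) 1 (f j)
  · obtain ⟨j, hj⟩ := hE
    exact NP2.fin3 NP2.thm_A X μ d T hs hT P hP0 f hf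
      (Or.inr ⟨hnil, hP1, j, hj, fun i _ => h1 i⟩)
  · have h3 : ∀ j, ∃ V : Equiv.Perm X, ∀ n : ℤ,
        (List.ofFn fun l : Fin d => T l ^ (P l j).eval n).prod = V ^ n := by
      intro j
      rcases h1 j with h4 | h4
      · exact (hE ⟨j, h4⟩).elim
      · exact h4
    choose V hV using h3
    have hVT : ∀ j, V j ∈ Subgroup.closure (Set.range T) := by
      intro j
      have h5 := hV j 1
      rw [zpow_one] at h5
      rw [← h5]
      refine Subgroup.list_prod_mem _ fun g hg => ?_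
      rw [List.mem_ofFn] at hg
      obtain ⟨l, rfl⟩ := hg
      have hTl : T l ∈ Subgroup.closure (Set.range T) := Subgroup.subset_closure ⟨l, rfl⟩
      exact Subgroup.zpow_mem _ hTl _
    have hU : ∀ j, MI μ (V j) := by
      intro j
      have h5 := hV j 1
      rw [zpow_one] at h5
      rw [← h5]
      refine NP2.MI.lprod _ fun g hg => ?_
      rw [List.mem_ofFn] at hg
      obtain ⟨i, rfl⟩ := hg
      exact (MI.of (hs i) (hT i)).zpow _
    have hle : Subgroup.closure {V 0, V 1} ≤ Subgroup.closure (Set.range T) := by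
      rw [Subgroup.closure_le]
      intro x hx
      simp only [Set.mem_insert_iff, Set.mem_singleton_iff] at hx
      rcases hx with rfl | rfl
      · exact hVT 0
      · exact hVT 1
    have hn2 : Group.IsNilpotent (Subgroup.closure {V 0, V 1}) := by
      haveI := hnil
      refine Subgroup.isNilpotent_of_ker_le_center (Subgroup.inclusion hle) ?_
      intro x hx
      rw [MonoidHom.mem_ker] at hx
      have h6 : x = 1 := Subgroup.inclusion_injective hle (hx.trans (map_one _).symm)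
      rw [h6]
      exact Subgroup.one_mem _
    have h := fin_pow hM hA μ V hU hn2 f hf
    filter_upwards [h] with x hx
    obtain ⟨L, hL⟩ := hx
    refine ⟨L, hL.congr fun N => ?_⟩
    simp only [hV]

end

end NPG
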