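import Pool.Agent.NPG.Defs

/-!
# NPG / FDef : the statement of the flux lemma (interface between part F and part R)

`p` is a `T`-process, `V` an `S`-process, smoothing in the `S`-frame.  For the mirrored lemma use
`FluxH M.sw`.
-/

namespace NPG
open Finset

noncomputable section

/-- the flux lemma with constant `CF` for the kernels `kr` of the parameter `a` -/
def FluxH {A : Type} [Group A] [Fintype A] (M : Mod A) (kr : ℕ → A → ℝ) (CF a : ℕ) : Prop :=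
  ∀ (E : Type) [NormedAddCommGroup E] [InnerProductSpace ℝ E] (K k1 : ℕ), CF * a ≤ k1 → k1 ≤ K →
    ∀ (mT mS : ℕ → ℕ → A → ℝ) (p V : ℕ → ℕ → A → E) (Bp BV R : ℝ), 1 ≤ R → 0 ≤ Bp → 0 ≤ BV →
      (∀ k b u, 0 ≤ mT k b u) → (∀ k b u, 0 ≤ mS k b u) →
      (∀ k b u, mT k b u ≤ 1) → (∀ k b u, mS k b u ≤ 1) →
      (∀ k, k1 ≤ k → k ≤ K → ∀ b < 2 ^ (K - k), ∀ u, acc K mT k b u ≤ R) →
      (∀ k, k1 ≤ k → k ≤ K → ∀ b < 2 ^ (K - k), ∀ u, acc K mS k b u ≤ R) →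
      (∀ k, k1 ≤ k → k ≤ K → ∀ b < 2 ^ (K - k), ∀ u, ‖p k b u‖ ≤ Bp * mT k b u) →
      (∀ k, k1 ≤ k → k ≤ K → ∀ b < 2 ^ (K - k), ∀ u, ‖V k b u‖ ≤ BV) →
      (∀ b u, V (K + 1) b u = 0) →
      (∀ k, k1 ≤ k → k ≤ K → ∀ b < 2 ^ (K - k), ∀ u,
        ‖V k b u - V (k + 1) (b / 2) u‖ ≤ 2 * BV * mS k b u) →
      |FT M kr K k1 p V| ≤ CF * Bp * BV * R * (a + 1) / Real.sqrt (2 ^ a) *
        (totr K k1 mT + totr K k1 mS)

end

end NPG
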