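import Pool.Agent.NPG.Flux
import Pool.Agent.NPG.FDef

/-!
# NPG / FEnd : the flux lemma in the form used by part R
-/

namespace NPG
open Finset

noncomputable section

theorem le_CF (C : ℕ) : C ≤ CF C := by
  unfold CF
  nlinarith [Nat.zero_le (24 * Wc C), Nat.zero_le ((C + 1) * (2 * D0 C + 5))]

/-- the flux lemma with the explicit constant -/
theorem fluxH {A : Type} [Group A] [Fintype A] (M : Mod A) (nu : ℕ → A → ℝ) (C a : ℕ)
    (kr : ℕ → A → ℝ) (hg : Geo M nu C) (hkr : Krn M nu C a kr) : FluxH M kr (CF C) a := by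
  intro E _ _ K k1 hk1 hK mT mS p V Bp BV R hR hBp hBV mT0 mS0 mT1 mS1 accT accS hp hV hVt hq
  exact flux_main hg hkr K k1 hK ((Nat.mul_le_mul_right a (le_CF C)).trans hk1) mT mS p V Bp BV R
    hR hBp hBV mT0 mS0 mT1 mS1 accT accS hp hV hVt hq

/-- the flux lemma, the constant depends on `C` only -/
theorem fluxH_exists (C : ℕ) : ∃ CF : ℕ, ∀ {A : Type} [Group A] [Fintype A] (M : Mod A)
    (nu : ℕ → A → ℝ) (kr : ℕ → A → ℝ) (a : ℕ), Geo M nu C → Krn M nu C a kr →
      FluxH M kr CF a :=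
  ⟨CF C, fun M nu kr a hg hkr => fluxH M nu C a kr hg hkr⟩

end

end NPG
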