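import Pool.Agent.NPG.Near
import Pool.Agent.NP2.Dya

/-!
# NPG / Far : Rademacher-Menshov in clock time

Adaptation of `NP2/Far` (import `NP2.Dya`, generic; open `NP2` for `dL`, `dR`, `dyadic_*`).
The kernel moves the object by `(M.s^l)⁻¹ x` with `nu k x ≤ 1` (`Krn.supp`), so `ordT`, `ordS`
apply to all objects involved; `M.s^l ((M.s^l)⁻¹ x) = x`.
-/

namespace NPG
open Finset
open NP2 (dL dR dyadic_tri dyadic_mid dyadic_sum_R dyadic_sum_L)

set_option linter.unusedSectionVars false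

noncomputable section

variable {A : Type} [Group A] [Fintype A] {E : Type} [NormedAddCommGroup E]
  [InnerProductSpace ℝ E]

/-! ### additivity -/

private theorem Far_rs_insert {F : Type} [AddCommGroup F] (w : ℕ → ℕ → A → ℕ) (m : ℕ)
    (I : Finset ℕ) (hm : m ∉ I) (p : ℕ → ℕ → A → F) :
    rs w (insert m I) p = rs w {m} p + rs w I p := by
  funext k b u
  simp only [Pi.add_apply, rs, Finset.mem_insert, Finset.mem_singleton]
  by_cases h1 : w k b u = m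
  · simp [h1, hm]
  · simp [h1]

private theorem Far_sum {F : Type} [AddCommGroup F] (w : ℕ → ℕ → A → ℕ)
    (p : ℕ → ℕ → A → F) (G : (ℕ → ℕ → A → F) → ℝ) (hG : ∀ a b, G (a + b) = G a + G b)
    (I : Finset ℕ) : G (rs w I p) = ∑ m ∈ I, G (rs w {m} p) := by
  induction I using Finset.induction_on with
  | empty =>
    have h0 : G 0 = 0 := by
      have := hG 0 0
      rw [add_zero] at this
      linarith
    have h1 : rs w ∅ p = 0 := by
      funext k b u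
      simp [rs]
    rw [h1, h0, Finset.sum_empty]
  | insert m I hm ih =>
    rw [Far_rs_insert w m I hm p, hG, ih, Finset.sum_insert hm]

private theorem Far_ro_add (M : Mod A) (kr : ℕ → A → ℝ) (k : ℕ) (g g' : ℕ → A → E) :
    ro M kr k (g + g') = fun b v => ro M kr k g b v + ro M kr k g' b v := by
  funext b v
  unfold ro
  have h : sm M (kr k) (b * 2 ^ k) ((g + g') b) v =
      sm M (kr k) (b * 2 ^ k) (g b) v + sm M (kr k) (b * 2 ^ k) (g' b) v :=
    sm_add M (kr k) (b * 2 ^ k) (g b) (g' b) v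
  rw [h]
  simp only [Pi.add_apply]
  abel

private theorem Far_acc_add {F : Type} [AddCommGroup F] (K : ℕ) (p p' : ℕ → ℕ → A → F) :
    acc K (p + p') = acc K p + acc K p' := by
  funext k b u
  exact acc_add K p p' k b u

private theorem Far_FT_left (M : Mod A) (kr : ℕ → A → ℝ) (K k1 : ℕ)
    (p p' V : ℕ → ℕ → A → E) :
    FT M kr K k1 (p + p') V = FT M kr K k1 p V + FT M kr K k1 p' V := by
  unfold FT
  rw [← Finset.sum_add_distrib]
  refine Finset.sum_congr rfl fun k _ => ?_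
  exact tp_add_left M K k (p k) (p' k) _

private theorem Far_FT_right (M : Mod A) (kr : ℕ → A → ℝ) (K k1 : ℕ)
    (p V V' : ℕ → ℕ → A → E) :
    FT M kr K k1 p (V + V') = FT M kr K k1 p V + FT M kr K k1 p V' := by
  unfold FT
  rw [← Finset.sum_add_distrib]
  refine Finset.sum_congr rfl fun k _ => ?_
  have h : ro M kr k ((V + V') k) =
    fun b v => ro M kr k (V k) b v + ro M kr k (V' k) b v :=
    Far_ro_add M kr k (V k) (V' k)
  rw [h]
  exact tp_add_right M K k (p k) _ _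

private theorem Far_FS_left (M : Mod A) (kr : ℕ → A → ℝ) (K k1 : ℕ)
    (S S' q : ℕ → ℕ → A → E) :
    FS M kr K k1 (S + S') q = FS M kr K k1 S q + FS M kr K k1 S' q := by
  unfold FS
  rw [← Finset.sum_add_distrib]
  refine Finset.sum_congr rfl fun k _ => ?_
  exact tp_add_left M K k (up (S (k + 1))) (up (S' (k + 1))) _

private theorem Far_FS_right (M : Mod A) (kr : ℕ → A → ℝ) (K k1 : ℕ)
    (S q q' : ℕ → ℕ → A → E) :
    FS M kr K k1 S (q + q') = FS M kr K k1 S q + FS M kr K k1 S q' := by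
  unfold FS
  rw [← Finset.sum_add_distrib]
  refine Finset.sum_congr rfl fun k _ => ?_
  have h : ro M kr k ((q + q') k) =
    fun b v => ro M kr k (q k) b v + ro M kr k (q' k) b v :=
    Far_ro_add M kr k (q k) (q' k)
  rw [h]
  exact tp_add_right M K k _ _ _

private theorem Far_A (M : Mod A) (kr : ℕ → A → ℝ) (K k1 : ℕ) (wT wS : ℕ → ℕ → A → ℕ)
    (p q : ℕ → ℕ → A → E) (I I' : Finset ℕ) :
    FT M kr K k1 (rs wT I p) (acc K (rs wS I' q)) =
      ∑ m ∈ I, ∑ m' ∈ I', FT M kr K k1 (rs wT {m} p) (acc K (rs wS {m'} q)) := by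
  refine (Far_sum wT p (fun p => FT M kr K k1 p (acc K (rs wS I' q)))
    (fun a b => Far_FT_left M kr K k1 a b _) I).trans ?_
  refine Finset.sum_congr rfl fun m _ => ?_
  refine Far_sum wS q (fun q => FT M kr K k1 (rs wT {m} p) (acc K q)) (fun a b => ?_) I'
  show FT M kr K k1 (rs wT {m} p) (acc K (a + b)) = _
  rw [Far_acc_add, Far_FT_right]

private theorem Far_S (M : Mod A) (kr : ℕ → A → ℝ) (K k1 : ℕ) (wT wS : ℕ → ℕ → A → ℕ)
    (p q : ℕ → ℕ → A → E) (I I' : Finset ℕ) :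
    FS M kr K k1 (acc K (rs wT I p)) (rs wS I' q) =
      ∑ m ∈ I, ∑ m' ∈ I', FS M kr K k1 (acc K (rs wT {m} p)) (rs wS {m'} q) := by
  refine (Far_sum wT p (fun p => FS M kr K k1 (acc K p) (rs wS I' q)) (fun a b => ?_) I).trans ?_
  · show FS M kr K k1 (acc K (a + b)) _ = _
    rw [Far_acc_add, Far_FS_left]
  refine Finset.sum_congr rfl fun m _ => ?_
  exact Far_sum wS q (fun q => FS M kr K k1 (acc K (rs wT {m} p)) q)
    (fun a b => Far_FS_right M kr K k1 _ a b) I'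

private theorem Far_totr_sum (K k1 : ℕ) (w : ℕ → ℕ → A → ℕ) (p : ℕ → ℕ → A → ℝ)
    (I : Finset ℕ) :
    totr K k1 (rs w I p) = ∑ m ∈ I, totr K k1 (rs w {m} p) := by
  refine Far_sum w p (fun p => totr K k1 p) (fun a b => ?_) I
  show totr K k1 (a + b) = totr K k1 a + totr K k1 b
  unfold totr
  rw [← Finset.sum_add_distrib]
  refine Finset.sum_congr rfl fun k _ => ?_
  exact ex_add K (fun c u => a k (c / 2 ^ k) u) (fun c u => b k (c / 2 ^ k) u)

/-! ### vanishing -/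

private theorem Far_sinv (M : Mod A) (l : ℕ) (x : A) : (M.s ^ l) ((M.s ^ l)⁻¹ x) = x := by
  rw [← MulAut.mul_apply, mul_inv_cancel, MulAut.one_apply]

private theorem Far_ro_zero {M : Mod A} {nu : ℕ → A → ℝ} {C a : ℕ} {kr : ℕ → A → ℝ}
    (hg : Geo M nu C) (hk : Krn M nu C a kr) (k : ℕ) (hak : C * a ≤ k) (g : ℕ → A → E)
    (b : ℕ) (v : A) (h : ∀ x : A, nu k ((M.s ^ (b * 2 ^ k)) x) ≤ 1 → g b (x * v) = 0) :
    ro M kr k g b v = 0 := by
  have h1 : g b v = 0 := by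
    have := h 1 (by rw [map_one, hg.one]; norm_num)
    rwa [one_mul] at this
  have h2 : sm M (kr k) (b * 2 ^ k) (g b) v = 0 := by
    unfold sm
    refine Finset.sum_eq_zero fun x _ => ?_
    by_cases hx : kr k x = 0
    · rw [hx, zero_smul]
    · rw [h _ (by rw [Far_sinv]; exact hk.supp k hak x hx), smul_zero]
  unfold ro
  rw [h1, h2, sub_zero]

private theorem Far_rs_ne {F : Type} [Zero F] (w : ℕ → ℕ → A → ℕ) (m k b : ℕ) (u : A)
    (p : ℕ → ℕ → A → F) (h : w k b u ≠ m) : rs w {m} p k b u = 0 := by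
  unfold rs
  rw [if_neg]
  rw [mem_singleton]
  exact h

private theorem Far_a {M : Mod A} {nu : ℕ → A → ℝ} {C a K k1 : ℕ} {kr : ℕ → A → ℝ}
    (hg : Geo M nu C) (hkr : Krn M nu C a kr) (hbig : C * a ≤ k1) {κ : ℝ}
    {mT mS : ℕ → ℕ → A → ℝ} {wT wS : ℕ → ℕ → A → ℕ}
    (hw : Windows M nu C a K k1 kr κ mT mS wT wS) (p q : ℕ → ℕ → A → E)
    (m m' : ℕ) (hm : m + 2 ≤ m') :
    FT M kr K k1 (rs wT {m} p) (acc K (rs wS {m'} q)) = 0 := by
  unfold FT
  refine Finset.sum_eq_zero fun k hk => ?_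
  rw [mem_Icc] at hk
  unfold tp ex
  rw [Finset.sum_eq_zero, zero_div]
  intro c hc
  rw [mem_range] at hc
  refine Finset.sum_eq_zero fun u _ => ?_
  beta_reduce
  by_cases h1 : wT k (c / 2 ^ k) u = m
  · have h2 : ro M kr k (acc K (rs wS {m'} q) k) (c / 2 ^ k) (M.th c * u) = 0 := by
      refine Far_ro_zero hg hkr k (hbig.trans hk.1) _ _ _ fun x hx => ?_
      rw [acc_path]
      refine Finset.sum_eq_zero fun w hw' => ?_
      rw [mem_Icc] at hw'
      have h3 := hw.ordT k w hw'.1 hw'.2 c hc u x hx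
      refine Far_rs_ne _ _ _ _ _ _ ?_
      omega
    rw [h2, inner_zero_right]
  · rw [Far_rs_ne _ _ _ _ _ _ h1, inner_zero_left]

private theorem Far_s {M : Mod A} {nu : ℕ → A → ℝ} {C a K k1 : ℕ} {kr : ℕ → A → ℝ}
    (hg : Geo M nu C) (hkr : Krn M nu C a kr) (hbig : C * a ≤ k1) {κ : ℝ}
    {mT mS : ℕ → ℕ → A → ℝ} {wT wS : ℕ → ℕ → A → ℕ}
    (hw : Windows M nu C a K k1 kr κ mT mS wT wS) (p q : ℕ → ℕ → A → E)
    (m m' : ℕ) (hm : m' + 2 ≤ m) :
    FS M kr K k1 (acc K (rs wT {m} p)) (rs wS {m'} q) = 0 := by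
  unfold FS
  refine Finset.sum_eq_zero fun k hk => ?_
  rw [mem_Icc] at hk
  unfold tp ex
  rw [Finset.sum_eq_zero, zero_div]
  intro c hc
  rw [mem_range] at hc
  refine Finset.sum_eq_zero fun u _ => ?_
  beta_reduce
  rw [up_path]
  by_cases h1 : ∃ w, k ≤ w ∧ w ≤ K ∧ wT w (c / 2 ^ w) u = m
  · obtain ⟨w, hkw, hwK, h1⟩ := h1
    have h2 : ro M kr k (rs wS {m'} q k) (c / 2 ^ k) (M.th c * u) = 0 := by
      refine Far_ro_zero hg hkr k (hbig.trans hk.1) _ _ _ fun x hx => ?_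
      have h3 := hw.ordS k w hkw hwK c hc u x hx
      refine Far_rs_ne _ _ _ _ _ _ ?_
      omega
    rw [h2, inner_zero_right]
  · have h2 : acc K (rs wT {m} p) (k + 1) (c / 2 ^ (k + 1)) u = 0 := by
      rw [acc_path]
      refine Finset.sum_eq_zero fun w hw' => ?_
      rw [mem_Icc] at hw'
      refine Far_rs_ne _ _ _ _ _ _ fun h3 => h1 ⟨w, by omega, hw'.2, h3⟩
    rw [h2, inner_zero_left]

/-! ### restriction to finitely many windows -/

private theorem Far_cut (M : Mod A) (kr : ℕ → A → ℝ) (K k1 N : ℕ) (wS : ℕ → ℕ → A → ℕ)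
    (P q : ℕ → ℕ → A → E)
    (hN : ∀ w ≤ K, ∀ c < 2 ^ K, ∀ u, wS w (c / 2 ^ w) u < N) :
    FT M kr K k1 P (acc K q) = FT M kr K k1 P (acc K (rs wS (range N) q)) := by
  unfold FT
  refine Finset.sum_congr rfl fun k hk => ?_
  rw [mem_Icc] at hk
  unfold tp ex
  congr 1
  refine Finset.sum_congr rfl fun c hc => ?_
  rw [mem_range] at hc
  refine Finset.sum_congr rfl fun u _ => ?_
  beta_reduce
  have h : acc K q k (c / 2 ^ k) = acc K (rs wS (range N) q) k (c / 2 ^ k) := by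
    funext v
    rw [acc_path, acc_path]
    refine Finset.sum_congr rfl fun w hw => ?_
    rw [mem_Icc] at hw
    unfold rs
    rw [if_pos]
    rw [mem_range]
    exact hN w hw.2 c hc v
  unfold ro
  rw [h]

private theorem Far_bound (K : ℕ) (wS : ℕ → ℕ → A → ℕ) :
    ∃ N, ∀ w ≤ K, ∀ c < 2 ^ K, ∀ u : A, wS w (c / 2 ^ w) u < N := by
  refine ⟨(∑ w ∈ range (K + 1), ∑ c ∈ range (2 ^ K), ∑ u : A, wS w (c / 2 ^ w) u) + 1,
    fun w hw c hc u => ?_⟩
  rw [Nat.lt_succ_iff]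
  refine le_trans ?_ (Finset.single_le_sum (f := fun w => ∑ c ∈ range (2 ^ K), ∑ u : A,
    wS w (c / 2 ^ w) u) (fun i _ => Nat.zero_le _) (mem_range.2 (Nat.lt_succ_of_le hw)))
  refine le_trans ?_ (Finset.single_le_sum (f := fun c => ∑ u : A,
    wS w (c / 2 ^ w) u) (fun i _ => Nat.zero_le _) (mem_range.2 hc))
  exact Finset.single_le_sum (f := fun u => wS w (c / 2 ^ w) u) (fun i _ => Nat.zero_le _)
    (Finset.mem_univ u)

/-! ### the combinatorial identity -/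

private theorem Far_corner (i j : ℕ) (s : ℕ → ℕ → ℝ)
    (hs : ∀ m m', m' + 2 ≤ m → s m m' = 0) :
    ∑ m ∈ dR i j, ∑ m' ∈ dL i j, s m m' = s ((2 * j + 1) * 2 ^ i) ((2 * j + 1) * 2 ^ i - 1) := by
  have hp : 0 < 2 ^ i := by positivity
  obtain ⟨t, ht⟩ : ∃ t, t = 2 ^ i := ⟨_, rfl⟩
  have e1 : (2 * j + 1) * 2 ^ i = 2 * j * 2 ^ i + 2 ^ i := by ring
  have e2 : (2 * j + 2) * 2 ^ i = 2 * j * 2 ^ i + 2 ^ i + 2 ^ i := by ring
  obtain ⟨c, hc⟩ : ∃ c, c = 2 * j * 2 ^ i := ⟨_, rfl⟩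
  unfold dR dL
  rw [e1, e2, ← hc, ← ht]
  rw [← ht] at hp
  rw [Finset.sum_eq_single (c + t)]
  · rw [Finset.sum_eq_single (c + t - 1)]
    · intro m' hm' hne
      rw [mem_Ico] at hm'
      exact hs _ _ (by omega)
    · intro h
      exact absurd (mem_Ico.2 ⟨by omega, by omega⟩) h
  · intro m hm hne
    rw [mem_Ico] at hm
    refine Finset.sum_eq_zero fun m' hm' => ?_
    rw [mem_Ico] at hm'
    exact hs _ _ (by omega)
  · intro h
    exact absurd (mem_Ico.2 ⟨by omega, by omega⟩) h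

private theorem Far_comb (n N : ℕ) (hN : 2 ^ n + 1 ≤ N) (a s : ℕ → ℕ → ℝ)
    (ha : ∀ m m', m + 2 ≤ m' → a m m' = 0) (hs : ∀ m m', m' + 2 ≤ m → s m m' = 0) :
    ∑ m ∈ range (2 ^ n), ∑ m' ∈ range N, a m m' =
      ∑ i ∈ range n, ∑ j ∈ range (2 ^ (n - 1 - i)),
        (∑ m ∈ dR i j, ∑ m' ∈ dL i j, a m m' + ∑ m ∈ dR i j, ∑ m' ∈ dL i j, s m m')
      + ∑ m ∈ range (2 ^ n), a m m + ∑ m ∈ range (2 ^ n), a m (m + 1)
      - ∑ m ∈ Ico 1 (2 ^ n), s m (m - 1) := by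
  have h1 : ∑ m ∈ range (2 ^ n), ∑ m' ∈ range N, a m m' =
      ∑ m ∈ range (2 ^ n), ∑ m' ∈ range m, a m m' +
        ∑ m ∈ range (2 ^ n), a m m + ∑ m ∈ range (2 ^ n), a m (m + 1) := by
    rw [← Finset.sum_add_distrib, ← Finset.sum_add_distrib]
    refine Finset.sum_congr rfl fun m hm => ?_
    rw [mem_range] at hm
    rw [← Finset.sum_range_succ, ← Finset.sum_range_succ]
    symm
    refine Finset.sum_subset (fun x hx => ?_) fun x _ hx => ?_
    · rw [mem_range] at hx ⊢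
      omega
    · rw [mem_range] at hx
      exact ha _ _ (by omega)
  have h2 : ∑ i ∈ range n, ∑ j ∈ range (2 ^ (n - 1 - i)),
      (∑ m ∈ dR i j, ∑ m' ∈ dL i j, a m m' + ∑ m ∈ dR i j, ∑ m' ∈ dL i j, s m m') =
      ∑ m ∈ range (2 ^ n), ∑ m' ∈ range m, a m m' + ∑ m ∈ Ico 1 (2 ^ n), s m (m - 1) := by
    rw [dyadic_tri n a, ← dyadic_mid n (fun m => s m (m - 1)), ← Finset.sum_add_distrib]
    refine Finset.sum_congr rfl fun i _ => ?_
    rw [← Finset.sum_add_distrib]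
    refine Finset.sum_congr rfl fun j _ => ?_
    rw [Far_corner i j s hs]
  rw [h1, h2]
  ring

/-! ### norms and masses -/

private theorem Far_div (K k w b : ℕ) (hkw : k ≤ w) (hw : w ≤ K) (hb : b < 2 ^ (K - k)) :
    b / 2 ^ (w - k) < 2 ^ (K - w) := by
  refine Nat.div_lt_of_lt_mul ?_
  rw [← pow_add, show w - k + (K - w) = K - k by omega]
  exact hb

private theorem Far_div0 (K k c : ℕ) (hk : k ≤ K) (hc : c < 2 ^ K) : c / 2 ^ k < 2 ^ (K - k) := by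
  refine Nat.div_lt_of_lt_mul ?_
  rw [← pow_add, show k + (K - k) = K by omega]
  exact hc

private theorem Far_norm_rs (w : ℕ → ℕ → A → ℕ) (I : Finset ℕ) (p : ℕ → ℕ → A → E)
    (m : ℕ → ℕ → A → ℝ) (B : ℝ) (k b : ℕ) (u : A) (h : ‖p k b u‖ ≤ B * m k b u) :
    ‖rs w I p k b u‖ ≤ B * rs w I m k b u := by
  unfold rs
  split_ifs
  · exact h
  · simp

private theorem Far_rs_le (w : ℕ → ℕ → A → ℕ) (I : Finset ℕ) (m : ℕ → ℕ → A → ℝ)
    (m0 : ∀ k b u, 0 ≤ m k b u) (k b : ℕ) (u : A) : rs w I m k b u ≤ m k b u := by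
  unfold rs
  split_ifs
  · exact le_rfl
  · exact m0 k b u

private theorem Far_rs_nonneg (w : ℕ → ℕ → A → ℕ) (I : Finset ℕ) (m : ℕ → ℕ → A → ℝ)
    (m0 : ∀ k b u, 0 ≤ m k b u) (k b : ℕ) (u : A) : 0 ≤ rs w I m k b u := by
  unfold rs
  split_ifs
  · exact m0 k b u
  · exact le_rfl

private theorem Far_acc_norm (K k1 : ℕ) (w : ℕ → ℕ → A → ℕ) (I : Finset ℕ)
    (p : ℕ → ℕ → A → E) (m : ℕ → ℕ → A → ℝ) (B R : ℝ) (hB : 0 ≤ B)
    (m0 : ∀ k b u, 0 ≤ m k b u)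
    (hm : ∀ k, k1 ≤ k → k ≤ K → ∀ b < 2 ^ (K - k), ∀ u, acc K m k b u ≤ R)
    (hp : ∀ k, k1 ≤ k → k ≤ K → ∀ b < 2 ^ (K - k), ∀ u, ‖p k b u‖ ≤ B * m k b u) :
    ∀ k, k1 ≤ k → k ≤ K → ∀ b < 2 ^ (K - k), ∀ u, ‖acc K (rs w I p) k b u‖ ≤ B * R := by
  intro k hk1 hk b hb u
  refine le_trans ?_ (mul_le_mul_of_nonneg_left (hm k hk1 hk b hb u) hB)
  unfold acc
  refine (norm_sum_le _ _).trans ?_
  rw [Finset.mul_sum]
  refine Finset.sum_le_sum fun l hl => ?_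
  rw [mem_Icc] at hl
  refine (Far_norm_rs w I p m B l _ u (hp l (by omega) hl.2 _
    (Far_div K k l b hl.1 hl.2 hb) u)).trans ?_
  exact mul_le_mul_of_nonneg_left (Far_rs_le w I m m0 _ _ _) hB

private theorem Far_tot (K k1 : ℕ) (w : ℕ → ℕ → A → ℕ) (I : Finset ℕ)
    (p : ℕ → ℕ → A → E) (m : ℕ → ℕ → A → ℝ) (B : ℝ)
    (hp : ∀ k, k1 ≤ k → k ≤ K → ∀ b < 2 ^ (K - k), ∀ u, ‖p k b u‖ ≤ B * m k b u) :
    tot K k1 (rs w I p) ≤ B * totr K k1 (rs w I m) := by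
  unfold tot totr
  rw [Finset.mul_sum]
  refine Finset.sum_le_sum fun k hk => ?_
  rw [mem_Icc] at hk
  unfold nv
  rw [← ex_smul]
  refine ex_mono K _ _ fun c hc u => ?_
  exact Far_norm_rs w I p m B k _ u (hp k hk.1 hk.2 _ (Far_div0 K k c hk.2 hc) u)

private theorem Far_totr_nonneg (K k1 : ℕ) (m : ℕ → ℕ → A → ℝ) (m0 : ∀ k b u, 0 ≤ m k b u) :
    0 ≤ totr K k1 m := by
  unfold totr
  exact Finset.sum_nonneg fun k _ => ex_nonneg K _ fun c u => m0 _ _ _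

private theorem Far_totr_le (K k1 : ℕ) (w : ℕ → ℕ → A → ℕ) (I : Finset ℕ)
    (m : ℕ → ℕ → A → ℝ) (m0 : ∀ k b u, 0 ≤ m k b u) :
    ∑ i ∈ I, totr K k1 (rs w {i} m) ≤ totr K k1 m := by
  rw [← Far_totr_sum]
  unfold totr
  refine Finset.sum_le_sum fun k _ => ?_
  exact ex_mono K _ _ fun c _ u => Far_rs_le w I m m0 _ _ _

private theorem Far_totr_inj (K k1 : ℕ) (w : ℕ → ℕ → A → ℕ) (I : Finset ℕ)
    (m : ℕ → ℕ → A → ℝ) (m0 : ∀ k b u, 0 ≤ m k b u) (σ : ℕ → ℕ)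
    (hσ : ∀ i ∈ I, ∀ j ∈ I, σ i = σ j → i = j) :
    ∑ i ∈ I, totr K k1 (rs w {σ i} m) ≤ totr K k1 m := by
  have h := Finset.sum_image (s := I) (g := σ) (f := fun i => totr K k1 (rs w {i} m))
    (fun i hi j hj => hσ i hi j hj)
  rw [← h]
  exact Far_totr_le K k1 w _ m m0

private theorem Far_gg (C a : ℕ) : 0 ≤ gg C a := by
  unfold gg
  positivity

/-- Cauchy-Schwarz over the windows for the near diagonal bound -/
private theorem Far_NB (C a : ℕ) (R κ : ℝ) (hR : 0 ≤ R) (hκ : 0 ≤ κ) (I : Finset ℕ)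
    (x y : ℕ → ℝ) (hx : ∀ m, 0 ≤ x m) (hy : ∀ m, 0 ≤ y m) (X Y : ℝ)
    (hX : ∑ m ∈ I, x m ≤ X) (hY : ∑ m ∈ I, y m ≤ Y) :
    ∑ m ∈ I, NB C a R κ (x m) (y m) ≤ NB C a R κ X Y := by
  unfold NB
  rw [Finset.sum_add_distrib, ← Finset.mul_sum, ← Finset.mul_sum, Finset.sum_add_distrib]
  refine add_le_add (mul_le_mul_of_nonneg_left ?_ ?_) (mul_le_mul_of_nonneg_left ?_ ?_)
  · refine (Real.sum_sqrt_mul_sqrt_le I hx hy).trans ?_
    exact mul_le_mul (Real.sqrt_le_sqrt hX) (Real.sqrt_le_sqrt hY) (Real.sqrt_nonneg _)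
      (Real.sqrt_nonneg _)
  · exact mul_nonneg (mul_nonneg (by norm_num) (Far_gg C a)) hR
  · exact add_le_add hX hY
  · positivity

/-! ### the total identity for two sets of windows -/

private theorem Far_ti {M : Mod A} {nu : ℕ → A → ℝ} {C a K k1 : ℕ} {kr : ℕ → A → ℝ}
    {mT mS : ℕ → ℕ → A → ℝ} {p q : ℕ → ℕ → A → E} {Bp Bq R : ℝ}
    (h : FluxHyp M nu C a K k1 kr E mT mS p q Bp Bq R)
    (wT wS : ℕ → ℕ → A → ℕ) (I I' : Finset ℕ) :
    |FT M kr K k1 (rs wT I p) (acc K (rs wS I' q)) +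
        FS M kr K k1 (acc K (rs wT I p)) (rs wS I' q)| ≤
      gg C a * (Bp * Bq * R *
        (Real.sqrt (totr K k1 (rs wT I mT)) * Real.sqrt (totr K k1 (rs wS I' mS)))) := by
  have hR : 0 ≤ R := by linarith [h.Rpos]
  have h1 := h.krn.ti E K k1 h.big h.k1K (rs wT I p) (rs wS I' q) (Bp * R) (Bq * R)
    (Far_acc_norm K k1 wT I p mT Bp R h.Bp0 h.mT0 h.accT h.hp)
    (Far_acc_norm K k1 wS I' q mS Bq R h.Bq0 h.mS0 h.accS h.hq)
  refine h1.trans (mul_le_mul_of_nonneg_left ?_ (Far_gg C a))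
  have key : ∀ (B t x : ℝ), 0 ≤ B → t ≤ B * x →
      Real.sqrt (B * R * t) ≤ B * Real.sqrt R * Real.sqrt x := by
    intro B t x hB ht
    have e1 : B * R * t ≤ B ^ 2 * (R * x) := by
      have := mul_le_mul_of_nonneg_left ht (mul_nonneg hB hR)
      calc B * R * t ≤ B * R * (B * x) := this
        _ = B ^ 2 * (R * x) := by ring
    refine (Real.sqrt_le_sqrt e1).trans ?_
    rw [Real.sqrt_mul (sq_nonneg B), Real.sqrt_sq hB, Real.sqrt_mul hR, mul_assoc]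
  have k1' := key Bp _ _ h.Bp0 (Far_tot K k1 wT I p mT Bp h.hp)
  have k2' := key Bq _ _ h.Bq0 (Far_tot K k1 wS I' q mS Bq h.hq)
  have k0 : 0 ≤ Bp * Real.sqrt R * Real.sqrt (totr K k1 (rs wT I mT)) :=
    mul_nonneg (mul_nonneg h.Bp0 (Real.sqrt_nonneg _)) (Real.sqrt_nonneg _)
  refine (mul_le_mul k1' k2' (Real.sqrt_nonneg _) k0).trans (le_of_eq ?_)
  have hs := Real.mul_self_sqrt hR
  calc Bp * Real.sqrt R * Real.sqrt (totr K k1 (rs wT I mT)) *
        (Bq * Real.sqrt R * Real.sqrt (totr K k1 (rs wS I' mS)))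
      = Bp * Bq * (Real.sqrt R * Real.sqrt R) *
        (Real.sqrt (totr K k1 (rs wT I mT)) * Real.sqrt (totr K k1 (rs wS I' mS))) := by ring
    _ = _ := by rw [hs]

theorem far_main {M : Mod A} {nu : ℕ → A → ℝ} {C a K k1 : ℕ} {kr : ℕ → A → ℝ}
    {mT mS : ℕ → ℕ → A → ℝ} {p q : ℕ → ℕ → A → E} {Bp Bq R κ : ℝ}
    (h : FluxHyp M nu C a K k1 kr E mT mS p q Bp Bq R) {wT wS : ℕ → ℕ → A → ℕ}
    (hw : Windows M nu C a K k1 kr κ mT mS wT wS) (hκ : 0 < κ) (n : ℕ) :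
    |FT M kr K k1 (rs wT (range (2 ^ n)) p) (acc K q)| ≤
      Bp * Bq * ((n + 15) * gg C a * R * (Real.sqrt (totr K k1 mT) * Real.sqrt (totr K k1 mS))
        + 12 * (Wc C * 2 ^ (C * a) * κ) * (totr K k1 mT + totr K k1 mS)) := by
  have hR : 0 ≤ R := by linarith [h.Rpos]
  have hB : 0 ≤ Bp * Bq := mul_nonneg h.Bp0 h.Bq0
  obtain ⟨N0, hN0⟩ := Far_bound K wS
  obtain ⟨N, hN⟩ : ∃ N, N = N0 + (2 ^ n + 1) := ⟨_, rfl⟩
  have hcut := Far_cut M kr K k1 N wS (rs wT (range (2 ^ n)) p) q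
    (fun w hw c hc u => lt_of_lt_of_le (hN0 w hw c hc u) (by rw [hN]; exact Nat.le_add_right _ _))
  obtain ⟨aa, ha⟩ : ∃ aa : ℕ → ℕ → ℝ,
    aa = fun m m' => FT M kr K k1 (rs wT {m} p) (acc K (rs wS {m'} q)) := ⟨_, rfl⟩
  obtain ⟨s, hs⟩ : ∃ s : ℕ → ℕ → ℝ,
    s = fun m m' => FS M kr K k1 (acc K (rs wT {m} p)) (rs wS {m'} q) := ⟨_, rfl⟩
  obtain ⟨x, hx⟩ : ∃ x : ℕ → ℝ, x = fun m => totr K k1 (rs wT {m} mT) := ⟨_, rfl⟩
  obtain ⟨y, hy⟩ : ∃ y : ℕ → ℝ, y = fun m => totr K k1 (rs wS {m} mS) := ⟨_, rfl⟩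
  have hx0 : ∀ m, 0 ≤ x m := by
    intro m
    rw [hx]
    exact Far_totr_nonneg K k1 _ (Far_rs_nonneg wT {m} mT h.mT0)
  have hy0 : ∀ m, 0 ≤ y m := by
    intro m
    rw [hy]
    exact Far_totr_nonneg K k1 _ (Far_rs_nonneg wS {m} mS h.mS0)
  have hcomb := Far_comb n N (by omega) aa s
    (fun m m' hm => by rw [ha]; exact Far_a h.geo h.krn h.big hw p q m m' hm)
    (fun m m' hm => by rw [hs]; exact Far_s h.geo h.krn h.big hw p q m m' hm)
  have hA : FT M kr K k1 (rs wT (range (2 ^ n)) p) (acc K q) =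
      ∑ m ∈ range (2 ^ n), ∑ m' ∈ range N, aa m m' := by
    rw [hcut, Far_A, ha]
  -- the dyadic part
  have hD : |∑ i ∈ range n, ∑ j ∈ range (2 ^ (n - 1 - i)),
      (∑ m ∈ dR i j, ∑ m' ∈ dL i j, aa m m' + ∑ m ∈ dR i j, ∑ m' ∈ dL i j, s m m')| ≤
      Bp * Bq * (n * gg C a * R *
        (Real.sqrt (totr K k1 mT) * Real.sqrt (totr K k1 mS))) := by
    refine (Finset.abs_sum_le_sum_abs _ _).trans ?_
    have hlev : ∀ i ∈ range n, |∑ j ∈ range (2 ^ (n - 1 - i)),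
        (∑ m ∈ dR i j, ∑ m' ∈ dL i j, aa m m' + ∑ m ∈ dR i j, ∑ m' ∈ dL i j, s m m')| ≤
        gg C a * (Bp * Bq * R *
          (Real.sqrt (totr K k1 mT) * Real.sqrt (totr K k1 mS))) := by
      intro i hi
      rw [mem_range] at hi
      refine (Finset.abs_sum_le_sum_abs _ _).trans ?_
      have h1 : ∀ j ∈ range (2 ^ (n - 1 - i)),
          |∑ m ∈ dR i j, ∑ m' ∈ dL i j, aa m m' + ∑ m ∈ dR i j, ∑ m' ∈ dL i j, s m m'| ≤
          gg C a * (Bp * Bq * R *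
            (Real.sqrt (∑ m ∈ dR i j, x m) * Real.sqrt (∑ m ∈ dL i j, y m))) := by
        intro j _
        have h2 := Far_ti h wT wS (dR i j) (dL i j)
        rw [Far_A, Far_S, Far_totr_sum, Far_totr_sum] at h2
        rw [ha, hs, hx, hy]
        exact h2
      refine (Finset.sum_le_sum h1).trans ?_
      rw [← Finset.mul_sum, ← Finset.mul_sum]
      refine mul_le_mul_of_nonneg_left ?_ (Far_gg C a)
      refine mul_le_mul_of_nonneg_left ?_ (mul_nonneg hB hR)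
      refine (Real.sum_sqrt_mul_sqrt_le _ (fun j => Finset.sum_nonneg fun m _ => hx0 m)
        (fun j => Finset.sum_nonneg fun m _ => hy0 m)).trans ?_
      refine mul_le_mul (Real.sqrt_le_sqrt ?_) (Real.sqrt_le_sqrt ?_) (Real.sqrt_nonneg _)
        (Real.sqrt_nonneg _)
      · refine (dyadic_sum_R n i hi x hx0).trans ?_
        rw [hx]
        exact Far_totr_le K k1 wT _ mT h.mT0
      · refine (dyadic_sum_L n i hi y hy0).trans ?_
        rw [hy]
        exact Far_totr_le K k1 wS _ mS h.mS0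
    refine (Finset.sum_le_sum hlev).trans (le_of_eq ?_)
    rw [Finset.sum_const, card_range, nsmul_eq_mul]
    ring
  -- the near terms
  have hN1 : |∑ m ∈ range (2 ^ n), aa m m| ≤
      Bp * Bq * NB C a R κ (totr K k1 mT) (totr K k1 mS) := by
    refine (Finset.abs_sum_le_sum_abs _ _).trans ?_
    have h1 : ∀ m ∈ range (2 ^ n), |aa m m| ≤ Bp * Bq * NB C a R κ (x m) (y m) := by
      intro m _
      rw [ha, hx, hy]
      exact near_FT h hw hκ m m (by omega) (by omega)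
    refine (Finset.sum_le_sum h1).trans ?_
    rw [← Finset.mul_sum]
    refine mul_le_mul_of_nonneg_left ?_ hB
    refine Far_NB C a R κ hR hκ.le _ x y hx0 hy0 _ _ ?_ ?_
    · rw [hx]
      exact Far_totr_le K k1 wT _ mT h.mT0
    · rw [hy]
      exact Far_totr_le K k1 wS _ mS h.mS0
  have hN2 : |∑ m ∈ range (2 ^ n), aa m (m + 1)| ≤
      Bp * Bq * NB C a R κ (totr K k1 mT) (totr K k1 mS) := by
    refine (Finset.abs_sum_le_sum_abs _ _).trans ?_
    have h1 : ∀ m ∈ range (2 ^ n), |aa m (m + 1)| ≤ Bp * Bq * NB C a R κ (x m) (y (m + 1)) := by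
      intro m _
      rw [ha, hx, hy]
      exact near_FT h hw hκ m (m + 1) (by omega) (by omega)
    refine (Finset.sum_le_sum h1).trans ?_
    rw [← Finset.mul_sum]
    refine mul_le_mul_of_nonneg_left ?_ hB
    refine Far_NB C a R κ hR hκ.le _ x (fun m => y (m + 1)) hx0 (fun m => hy0 _) _ _ ?_ ?_
    · rw [hx]
      exact Far_totr_le K k1 wT _ mT h.mT0
    · rw [hy]
      exact Far_totr_inj K k1 wS _ mS h.mS0 (fun m => m + 1) (fun i _ j _ hij => by omega)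
  have hN3 : |∑ m ∈ Ico 1 (2 ^ n), s m (m - 1)| ≤
      Bp * Bq * NB C a R κ (totr K k1 mT) (totr K k1 mS) := by
    refine (Finset.abs_sum_le_sum_abs _ _).trans ?_
    have h1 : ∀ m ∈ Ico 1 (2 ^ n), |s m (m - 1)| ≤ Bp * Bq * NB C a R κ (x m) (y (m - 1)) := by
      intro m hm
      rw [mem_Ico] at hm
      rw [hs, hx, hy]
      exact near_FS h hw hκ m (m - 1) (by omega) (by omega)
    refine (Finset.sum_le_sum h1).trans ?_
    rw [← Finset.mul_sum]
    refine mul_le_mul_of_nonneg_left ?_ hB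
    refine Far_NB C a R κ hR hκ.le _ x (fun m => y (m - 1)) hx0 (fun m => hy0 _) _ _ ?_ ?_
    · rw [hx]
      exact Far_totr_le K k1 wT _ mT h.mT0
    · rw [hy]
      refine Far_totr_inj K k1 wS _ mS h.mS0 (fun m => m - 1) (fun i hi j hj hij => ?_)
      rw [mem_Ico] at hi hj
      have : i - 1 = j - 1 := hij
      omega
  rw [hA, hcomb]
  have habs : ∀ a1 a2 a3 a4 : ℝ, |a1 + a2 + a3 - a4| ≤ |a1| + |a2| + |a3| + |a4| := by
    intro a1 a2 a3 a4
    have t1 := abs_sub (a1 + a2 + a3) a4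
    have t2 := abs_add_le (a1 + a2) a3
    have t3 := abs_add_le a1 a2
    linarith
  refine (habs _ _ _ _).trans ?_
  refine (add_le_add (add_le_add (add_le_add hD hN1) hN2) hN3).trans (le_of_eq ?_)
  unfold NB
  ring

end

end NPG
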