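import Pool.Agent.NPG.Far

/-!
# NPG / Flux : the flux lemma (localised)

Adaptation of `NP2/Flux`: `κ = (1/2)^((C+1) a)`, `n = (2C+2) a`;
`2^(C a) κ = 1/2^a ≤ 1/√(2^a)`, `κ 2^n = 2^((C+1) a)`;
`√x √y ≤ x + y`;
rest: `∑_x |kr k x| ≤ C 2^(C a)` (`supp`, `bound`, growth with `r = 1`), `count`, `accT`:
`≤ Bp (1 + C 2^(C a)) BV R (2 D0 + 5) (totT + totS) / 2^((C+1) a)`.
Total: `2 ((2C+2) a + 15) C + 24 Wc C + (C+1) (2 D0 C + 5)` times `(a+1)/√(2^a)`, at most `CF C`.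
-/

namespace NPG
open Finset

noncomputable section

variable {A : Type} [Group A] [Fintype A] {E : Type} [NormedAddCommGroup E]
  [InnerProductSpace ℝ E]

/-- the constant of the flux lemma -/
def CF (C : ℕ) : ℕ := 34 * (C + 1) ^ 2 + 24 * Wc C + (C + 1) * (2 * D0 C + 5)

private theorem fx_totr_nonneg (K k1 : ℕ) (m : ℕ → ℕ → A → ℝ) (h : ∀ k b u, 0 ≤ m k b u) :
    0 ≤ totr K k1 m := by
  unfold totr
  exact sum_nonneg fun k _ => ex_nonneg K _ fun c u => h _ _ _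

/-- the total mass of the kernel -/
private theorem fx_kr {M : Mod A} {nu : ℕ → A → ℝ} {C a : ℕ} {kr : ℕ → A → ℝ}
    (hg : Geo M nu C) (hkr : Krn M nu C a kr) (k : ℕ) (hk : C * a ≤ k) :
    ∑ x : A, |kr k x| ≤ C * 2 ^ (C * a) := by
  classical
  have hv : 1 ≤ vol nu k := vol_pos hg k
  have hv0 : 0 < vol nu k := by linarith
  have h1 : ∀ x : A, |kr k x| ≤ if nu k x ≤ 1 then 2 ^ (C * a) / vol nu k else 0 := by
    intro x
    split_ifs with hx
    · exact hkr.bound k hk x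
    · by_contra hne
      apply hx
      apply hkr.supp k hk x
      intro h0
      apply hne
      rw [h0, abs_zero]
  have hcard : (Nat.card {x : A // nu k x ≤ 1} : ℝ) = ∑ x : A, if nu k x ≤ 1 then (1 : ℝ) else 0 := by
    rw [Nat.card_eq_fintype_card, Fintype.card_subtype, Finset.sum_ite]
    simp
  have hgr := hg.growth k 1 le_rfl
  rw [hcard, one_pow, mul_one] at hgr
  calc ∑ x : A, |kr k x| ≤ ∑ x : A, if nu k x ≤ 1 then 2 ^ (C * a) / vol nu k else 0 :=
        sum_le_sum fun x _ => h1 x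
    _ = 2 ^ (C * a) / vol nu k * ∑ x : A, if nu k x ≤ 1 then (1 : ℝ) else 0 := by
        rw [mul_sum]
        refine sum_congr rfl fun x _ => ?_
        split_ifs <;> ring
    _ ≤ 2 ^ (C * a) / vol nu k * (C * vol nu k) := by
        apply mul_le_mul_of_nonneg_left _ (by positivity)
        exact hgr
    _ = C * 2 ^ (C * a) := by
        field_simp

/-- norm of the rough part -/
private theorem fx_ro {M : Mod A} {nu : ℕ → A → ℝ} {C a : ℕ} {kr : ℕ → A → ℝ}
    (hg : Geo M nu C) (hkr : Krn M nu C a kr) (k : ℕ) (hk : C * a ≤ k) (g : ℕ → A → E) (b : ℕ)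
    (BV : ℝ) (hBV : 0 ≤ BV) (h : ∀ v, ‖g b v‖ ≤ BV) (v : A) :
    ‖ro M kr k g b v‖ ≤ (1 + C * 2 ^ (C * a)) * BV := by
  unfold ro
  have h2 : ‖sm M (kr k) (b * 2 ^ k) (g b) v‖ ≤ C * 2 ^ (C * a) * BV := by
    unfold sm
    refine (norm_sum_le _ _).trans ?_
    calc ∑ x : A, ‖kr k x • g b ((M.s ^ (b * 2 ^ k))⁻¹ x * v)‖
        ≤ ∑ x : A, |kr k x| * BV := by
          refine sum_le_sum fun x _ => ?_
          rw [norm_smul, Real.norm_eq_abs]
          exact mul_le_mul_of_nonneg_left (h _) (abs_nonneg _)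
      _ = (∑ x : A, |kr k x|) * BV := (sum_mul _ _ _).symm
      _ ≤ C * 2 ^ (C * a) * BV := mul_le_mul_of_nonneg_right (fx_kr hg hkr k hk) hBV
  calc ‖g b v - sm M (kr k) (b * 2 ^ k) (g b) v‖
      ≤ ‖g b v‖ + ‖sm M (kr k) (b * 2 ^ k) (g b) v‖ := norm_sub_le _ _
    _ ≤ BV + C * 2 ^ (C * a) * BV := add_le_add (h v) h2
    _ = (1 + C * 2 ^ (C * a)) * BV := by ring

theorem flux_main {M : Mod A} {nu : ℕ → A → ℝ} {C a : ℕ} {kr : ℕ → A → ℝ}
    (hg : Geo M nu C) (hkr : Krn M nu C a kr) (K k1 : ℕ) (hk1 : k1 ≤ K) (ha : C * a ≤ k1)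
    (mT mS : ℕ → ℕ → A → ℝ) (p V : ℕ → ℕ → A → E) (Bp BV R : ℝ)
    (hR : 1 ≤ R) (hBp : 0 ≤ Bp) (hBV : 0 ≤ BV)
    (mT0 : ∀ k b u, 0 ≤ mT k b u) (mS0 : ∀ k b u, 0 ≤ mS k b u)
    (mT1 : ∀ k b u, mT k b u ≤ 1) (mS1 : ∀ k b u, mS k b u ≤ 1)
    (accT : ∀ k, k1 ≤ k → k ≤ K → ∀ b < 2 ^ (K - k), ∀ u, acc K mT k b u ≤ R)
    (accS : ∀ k, k1 ≤ k → k ≤ K → ∀ b < 2 ^ (K - k), ∀ u, acc K mS k b u ≤ R)
    (hp : ∀ k, k1 ≤ k → k ≤ K → ∀ b < 2 ^ (K - k), ∀ u, ‖p k b u‖ ≤ Bp * mT k b u)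
    (hV : ∀ k, k1 ≤ k → k ≤ K → ∀ b < 2 ^ (K - k), ∀ u, ‖V k b u‖ ≤ BV)
    (hVt : ∀ b u, V (K + 1) b u = 0)
    (hq : ∀ k, k1 ≤ k → k ≤ K → ∀ b < 2 ^ (K - k), ∀ u,
      ‖V k b u - V (k + 1) (b / 2) u‖ ≤ 2 * BV * mS k b u) :
    |FT M kr K k1 p V| ≤
      CF C * Bp * BV * R * (a + 1) / Real.sqrt (2 ^ a) * (totr K k1 mT + totr K k1 mS) := by
  classical
  set q : ℕ → ℕ → A → E := fun k b u => V k b u - V (k + 1) (b / 2) u with hqdef
  have hκ : (0 : ℝ) < (1 / 2 : ℝ) ^ ((C + 1) * a) := by positivity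
  obtain ⟨wT, wS, hw⟩ := windows_exist hg hkr K k1 hk1 ha ((1 / 2 : ℝ) ^ ((C + 1) * a)) hκ
    mT mS mT0 mS0
  have hF : FluxHyp M nu C a K k1 kr E mT mS p q Bp (2 * BV) R :=
    { geo := hg
      krn := hkr
      k1K := hk1
      big := ha
      Rpos := hR
      Bp0 := hBp
      Bq0 := by positivity
      mT0 := mT0
      mS0 := mS0
      mT1 := mT1
      mS1 := mS1
      accT := accT
      accS := accS
      hp := hp
      hq := hq }
  have hfar := far_main hF hw hκ ((2 * C + 2) * a)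
  have htT0 := fx_totr_nonneg K k1 mT mT0
  have htS0 := fx_totr_nonneg K k1 mS mS0
  set x := totr K k1 mT with hx
  set y := totr K k1 mS with hy
  -- the rest
  set rest : ℕ → ℕ → A → E :=
    fun k b u => if wT k b u ∈ range (2 ^ ((2 * C + 2) * a)) then 0 else p k b u with hrest
  have hsplit : FT M kr K k1 p V =
      FT M kr K k1 (rs wT (range (2 ^ ((2 * C + 2) * a))) p) (acc K q)
        + FT M kr K k1 rest V := by
    unfold FT
    rw [← sum_add_distrib]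
    apply sum_congr rfl
    intro k hk
    have hkK : k ≤ K := (mem_Icc.1 hk).2
    have e1 : acc K q k = V k := by
      funext b u
      exact acc_incr K V hVt k hkK b u
    rw [e1, ← tp_add_left]
    congr 1
    funext b u
    simp only [rs, hrest]
    split_ifs <;> simp
  have h2a : (1 : ℝ) ≤ 2 ^ a := one_le_pow₀ (by norm_num)
  have hs0 : 0 < Real.sqrt ((2 : ℝ) ^ a) := Real.sqrt_pos.2 (by positivity)
  have hs1 : Real.sqrt ((2 : ℝ) ^ a) ≤ 2 ^ a := by
    rw [Real.sqrt_le_left (by positivity)]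
    nlinarith
  have hinv : 1 / (2 : ℝ) ^ a ≤ 1 / Real.sqrt (2 ^ a) := one_div_le_one_div_of_le hs0 hs1
  set σ := 1 / Real.sqrt ((2 : ℝ) ^ a) with hσ
  have hσ0 : 0 ≤ σ := by positivity
  have ha0 : (0 : ℝ) ≤ a := Nat.cast_nonneg a
  have hC0 : (0 : ℝ) ≤ C := Nat.cast_nonneg C
  have hWc0 : (0 : ℝ) ≤ Wc C := Nat.cast_nonneg _
  have hD0 : (0 : ℝ) ≤ D0 C := Nat.cast_nonneg _
  have hxy : 0 ≤ x + y := by positivity
  -- first part
  have hA : |FT M kr K k1 (rs wT (range (2 ^ ((2 * C + 2) * a))) p) (acc K q)| ≤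
      Bp * BV * R * (x + y) * σ * (2 * ((2 * C + 2) * a + 15) * C + 24 * Wc C) := by
    refine hfar.trans ?_
    have hk4 : (2 : ℝ) ^ (C * a) * (1 / 2 : ℝ) ^ ((C + 1) * a) = 1 / 2 ^ a := by
      rw [show (C + 1) * a = C * a + a by ring, pow_add, ← mul_assoc, ← mul_pow, one_div_pow]
      norm_num
    have hsq : Real.sqrt x * Real.sqrt y ≤ x + y := by
      have h1 := Real.sq_sqrt htT0
      have h2 := Real.sq_sqrt htS0
      nlinarith [sq_nonneg (Real.sqrt x - Real.sqrt y), Real.sqrt_nonneg x, Real.sqrt_nonneg y]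
    have hsq0 : 0 ≤ Real.sqrt x * Real.sqrt y := by positivity
    have hgg : gg C a = C * σ := by
      unfold gg
      rw [hσ]
      ring
    have h1 : ((((2 * C + 2) * a : ℕ) : ℝ) + 15) * gg C a * R * (Real.sqrt x * Real.sqrt y) ≤
        ((2 * C + 2) * a + 15) * (C * σ) * R * (x + y) := by
      rw [hgg]
      push_cast
      gcongr
    have h2 : 12 * (Wc C * 2 ^ (C * a) * (1 / 2 : ℝ) ^ ((C + 1) * a)) * (x + y) ≤
        12 * Wc C * σ * R * (x + y) := by
      have e : 12 * (Wc C * 2 ^ (C * a) * (1 / 2 : ℝ) ^ ((C + 1) * a)) =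
          12 * Wc C * (1 / 2 ^ a) := by
        rw [← hk4]
        ring
      rw [e]
      have h3 : 12 * (Wc C : ℝ) * (1 / 2 ^ a) ≤ 12 * Wc C * σ * R := by
        calc 12 * (Wc C : ℝ) * (1 / 2 ^ a) ≤ 12 * Wc C * σ := by gcongr
          _ = 12 * Wc C * σ * 1 := by ring
          _ ≤ 12 * Wc C * σ * R := by gcongr
      exact mul_le_mul_of_nonneg_right h3 hxy
    calc Bp * (2 * BV) * (((((2 * C + 2) * a : ℕ) : ℝ) + 15) * gg C a * R *
          (Real.sqrt x * Real.sqrt y)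
        + 12 * (Wc C * 2 ^ (C * a) * (1 / 2 : ℝ) ^ ((C + 1) * a)) * (x + y))
        ≤ Bp * (2 * BV) * (((2 * C + 2) * a + 15) * (C * σ) * R * (x + y)
          + 12 * Wc C * σ * R * (x + y)) := by
          gcongr
      _ = Bp * BV * R * (x + y) * σ * (2 * ((2 * C + 2) * a + 15) * C + 24 * Wc C) := by ring
  -- second part
  have hB : |FT M kr K k1 rest V| ≤
      Bp * BV * R * (x + y) * σ * ((C + 1) * (2 * D0 C + 5)) := by
    set ind : ℕ → A → ℝ :=
      fun c u => if 2 ^ ((2 * C + 2) * a) ≤ wT k1 (c / 2 ^ k1) u then (1 : ℝ) else 0 with hind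
    have hind0 : ∀ c u, 0 ≤ ind c u := by
      intro c u
      simp only [hind]
      split_ifs <;> norm_num
    have hG0 : (0 : ℝ) ≤ (1 + C * 2 ^ (C * a)) * BV := by positivity
    have hterm : ∀ k ∈ Icc k1 K, |tp M K k (rest k) (ro M kr k (V k))| ≤
        ex K (fun c u => (Bp * ((1 + C * 2 ^ (C * a)) * BV)) *
          (mT k (c / 2 ^ k) u * ind c u)) := by
      intro k hk
      obtain ⟨hk1k, hkK⟩ := mem_Icc.1 hk
      unfold tp
      apply ex_abs_le
      intro c hc u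
      have hb := blk_lt hkK hc
      refine (abs_real_inner_le_norm _ _).trans ?_
      have h1 : ‖rest k (c / 2 ^ k) u‖ ≤ Bp * (mT k (c / 2 ^ k) u * ind c u) := by
        simp only [hrest]
        split_ifs with hm
        · rw [norm_zero]
          exact mul_nonneg hBp (mul_nonneg (mT0 _ _ _) (hind0 _ _))
        · have h2 : ind c u = 1 := by
            simp only [hind]
            rw [if_pos]
            rw [mem_range, not_lt] at hm
            exact hm.trans (hw.mono k1 k hk1k hkK c u)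
          rw [h2, mul_one]
          exact hp k hk1k hkK _ hb u
      have h2 := fx_ro hg hkr k (ha.trans hk1k) (V k) (c / 2 ^ k) BV hBV
        (fun v => hV k hk1k hkK _ hb v) (M.th c * u)
      calc ‖rest k (c / 2 ^ k) u‖ * ‖ro M kr k (V k) (c / 2 ^ k) (M.th c * u)‖
          ≤ (Bp * (mT k (c / 2 ^ k) u * ind c u)) * ((1 + C * 2 ^ (C * a)) * BV) := by
            have h3 : 0 ≤ Bp * (mT k (c / 2 ^ k) u * ind c u) :=
              mul_nonneg hBp (mul_nonneg (mT0 _ _ _) (hind0 _ _))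
            gcongr
        _ = (Bp * ((1 + C * 2 ^ (C * a)) * BV)) * (mT k (c / 2 ^ k) u * ind c u) := by ring
    have hcount := hw.count (2 ^ ((2 * C + 2) * a)) Nat.one_le_two_pow
    have hsum : ∑ k ∈ Icc k1 K,
        ex K (fun c u => (Bp * ((1 + C * 2 ^ (C * a)) * BV)) *
          (mT k (c / 2 ^ k) u * ind c u)) ≤
        (Bp * ((1 + C * 2 ^ (C * a)) * BV)) * (R * ex K ind) := by
      calc ∑ k ∈ Icc k1 K,
          ex K (fun c u => (Bp * ((1 + C * 2 ^ (C * a)) * BV)) *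
            (mT k (c / 2 ^ k) u * ind c u))
          = (Bp * ((1 + C * 2 ^ (C * a)) * BV)) *
            ex K (fun c u => ∑ k ∈ Icc k1 K, mT k (c / 2 ^ k) u * ind c u) := by
            rw [ex_sum, mul_sum]
            apply sum_congr rfl
            intro k _
            rw [ex_smul]
        _ ≤ (Bp * ((1 + C * 2 ^ (C * a)) * BV)) * (R * ex K ind) := by
            have h1 : ex K (fun c u => ∑ k ∈ Icc k1 K, mT k (c / 2 ^ k) u * ind c u) ≤
                ex K (fun c u => R * ind c u) := by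
              apply ex_mono
              intro c hc u
              rw [← sum_mul, ← acc_path]
              have := accT k1 le_rfl hk1 _ (blk_lt hk1 hc) u
              exact mul_le_mul_of_nonneg_right this (hind0 c u)
            rw [ex_smul] at h1
            have h2 : 0 ≤ Bp * ((1 + C * 2 ^ (C * a)) * BV) := mul_nonneg hBp hG0
            exact mul_le_mul_of_nonneg_left h1 h2
    have hex : ex K ind ≤ (2 * D0 C + 5) * (x + y) / 2 ^ ((C + 1) * a) := by
      refine hcount.trans (le_of_eq ?_)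
      have e : (1 / 2 : ℝ) ^ ((C + 1) * a) * ((2 ^ ((2 * C + 2) * a) : ℕ) : ℝ) =
          2 ^ ((C + 1) * a) := by
        rw [Nat.cast_pow, Nat.cast_ofNat, show (2 * C + 2) * a = (C + 1) * a + (C + 1) * a by ring,
          pow_add, ← mul_assoc, ← mul_pow]
        norm_num
      rw [e]
    have hfin : (1 + C * 2 ^ (C * a)) * ((2 * D0 C + 5) * (x + y) / 2 ^ ((C + 1) * a)) ≤
        (C + 1) * (2 * D0 C + 5) * (x + y) * σ := by
      have h1 : (1 : ℝ) ≤ 2 ^ (C * a) := one_le_pow₀ (by norm_num)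
      have h2 : (1 + (C : ℝ) * 2 ^ (C * a)) ≤ (C + 1) * 2 ^ (C * a) := by nlinarith
      have hpos : (0 : ℝ) ≤ (2 * D0 C + 5) * (x + y) / 2 ^ ((C + 1) * a) := by positivity
      calc (1 + (C : ℝ) * 2 ^ (C * a)) * ((2 * D0 C + 5) * (x + y) / 2 ^ ((C + 1) * a))
          ≤ ((C + 1) * 2 ^ (C * a)) * ((2 * D0 C + 5) * (x + y) / 2 ^ ((C + 1) * a)) :=
            mul_le_mul_of_nonneg_right h2 hpos
        _ = (C + 1) * (2 * D0 C + 5) * (x + y) * (1 / 2 ^ a) := by
            rw [show (C + 1) * a = C * a + a by ring, pow_add]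
            field_simp
        _ ≤ (C + 1) * (2 * D0 C + 5) * (x + y) * σ := by gcongr
    calc |FT M kr K k1 rest V|
        ≤ ∑ k ∈ Icc k1 K, |tp M K k (rest k) (ro M kr k (V k))| := by
          unfold FT
          exact abs_sum_le_sum_abs _ _
      _ ≤ ∑ k ∈ Icc k1 K, ex K (fun c u =>
            (Bp * ((1 + C * 2 ^ (C * a)) * BV)) * (mT k (c / 2 ^ k) u * ind c u)) :=
          sum_le_sum hterm
      _ ≤ (Bp * ((1 + C * 2 ^ (C * a)) * BV)) * (R * ex K ind) := hsum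
      _ ≤ (Bp * ((1 + C * 2 ^ (C * a)) * BV)) *
            (R * ((2 * D0 C + 5) * (x + y) / 2 ^ ((C + 1) * a))) := by
          gcongr
      _ = Bp * BV * R *
            ((1 + C * 2 ^ (C * a)) * ((2 * D0 C + 5) * (x + y) / 2 ^ ((C + 1) * a))) := by ring
      _ ≤ Bp * BV * R * ((C + 1) * (2 * D0 C + 5) * (x + y) * σ) := by gcongr
      _ = Bp * BV * R * (x + y) * σ * ((C + 1) * (2 * D0 C + 5)) := by ring
  rw [hsplit]
  refine (abs_add_le _ _).trans ?_
  have hP : 0 ≤ Bp * BV * R * (x + y) * σ := by positivity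
  have hCF : (2 * ((2 * (C : ℝ) + 2) * a + 15) * C + 24 * Wc C) + ((C + 1) * (2 * D0 C + 5)) ≤
      CF C * (a + 1) := by
    unfold CF
    push_cast
    have e1 : 2 * ((2 * (C : ℝ) + 2) * a + 15) * C ≤ 34 * (C + 1) ^ 2 * (a + 1) := by
      nlinarith [mul_nonneg hC0 ha0, mul_nonneg (mul_nonneg hC0 hC0) ha0, mul_nonneg hC0 hC0]
    have e2 : 24 * (Wc C : ℝ) ≤ 24 * Wc C * (a + 1) := by nlinarith
    have e3 : ((C : ℝ) + 1) * (2 * D0 C + 5) ≤ (C + 1) * (2 * D0 C + 5) * (a + 1) := by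
      have : 0 ≤ ((C : ℝ) + 1) * (2 * D0 C + 5) * a := by positivity
      nlinarith
    calc (2 * ((2 * (C : ℝ) + 2) * a + 15) * C + 24 * Wc C) + ((C + 1) * (2 * D0 C + 5))
        ≤ 34 * (C + 1) ^ 2 * (a + 1) + 24 * Wc C * (a + 1)
          + (C + 1) * (2 * D0 C + 5) * (a + 1) := by linarith
      _ = (34 * (C + 1) ^ 2 + 24 * Wc C + (C + 1) * (2 * D0 C + 5)) * (a + 1) := by ring
  calc |FT M kr K k1 (rs wT (range (2 ^ ((2 * C + 2) * a))) p) (acc K q)|
        + |FT M kr K k1 rest V|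
      ≤ Bp * BV * R * (x + y) * σ * (2 * ((2 * C + 2) * a + 15) * C + 24 * Wc C)
        + Bp * BV * R * (x + y) * σ * ((C + 1) * (2 * D0 C + 5)) := add_le_add hA hB
    _ = (Bp * BV * R * (x + y) * σ) *
        ((2 * ((2 * C + 2) * a + 15) * C + 24 * Wc C) + ((C + 1) * (2 * D0 C + 5))) := by ring
    _ ≤ (Bp * BV * R * (x + y) * σ) * (CF C * (a + 1)) := mul_le_mul_of_nonneg_left hCF hP
    _ = CF C * Bp * BV * R * (a + 1) / Real.sqrt (2 ^ a) * (x + y) := by
        rw [hσ]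
        ring

end

end NPG
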