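import Pool.Agent.Nil.Frame

set_option autoImplicit false

/-!
# NPG / GConB : the automorphism raises the weight

`σ` is an automorphism with `g (l + m) = g l * σ^l (g m)`, `F = FB (bb g)`.

PROOF.  `dz g n = (g n)⁻¹ * g (n + 1) = σ^n (g 1)`, so `dz g (n + 1) = σ (dz g n)`; `dz` commutes with
`σ`, so `dz^[k] g (n + 1) = σ (dz^[k] g n)` for `k ≥ 1`, and `σ (bb g k) = dz^[k] g 1 =
dz^[k] g 0 * dz^[k+1] g 0 = bb g k * bb g (k + 1)`.
Let `F i` be `FB (bb g) i`.  All `F i` are normal (`hF`, `h0`: `Filt.conj`).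
(1) `Br (bb g) i x → x⁻¹ * σ x ∈ F (i + 1)`: induction on `Br`; for a commutator of `x` (weight `i`)
and `y` (weight `j`) with `σ x = x u`, `σ y = y v`, `u ∈ F (i + 1)`, `v ∈ F (j + 1)`: modulo
`F (i + j + 1)` the element `u` commutes with `y` and `v`, and `v` commutes with `x`, so
`[x u, y v] = [x, y]` (work in the quotient by the normal subgroup `F (i + j + 1)`).
(2) for `i ≥ 1` (and `i = 0`, as `F 0 = F 1`, `FB_one`) the set `{x ∈ F i | x⁻¹ * σ x ∈ F (i + 1)}` is a subgroup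
(normality of `F (i + 1)`) which contains the generators of `F i`.
(3) `σ.symm` : downward induction on `i` from `N` for `σ⁻¹ (F i) ≤ F i` and the second claim: for
`x ∈ F i`, `σ x = x u`, `u ∈ F (i + 1)`, so `σ⁻¹ x = x * (σ⁻¹ u)⁻¹` and `σ⁻¹ u ∈ F (i + 1)`.
-/

namespace NPG
open Finset Pool.Nil

private theorem gcon_dz {G : Type} [Group G] {g : ℤ → G} (σ : MulAut G)
    (hadd : ∀ l m : ℤ, g (l + m) = g l * (σ ^ l) (g m)) :
    ∀ (k : ℕ) (n : ℤ), dz^[k + 1] g (n + 1) = σ (dz^[k + 1] g n) := by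
  have h1 : ∀ n : ℤ, dz g n = (σ ^ n) (g 1) := by
    intro n
    unfold dz
    rw [hadd n 1]
    group
  intro k
  induction k with
  | zero =>
    intro n
    show dz g (n + 1) = σ (dz g n)
    rw [h1, h1, add_comm, zpow_one_add, MulAut.mul_apply]
  | succ k ih =>
    intro n
    rw [Function.iterate_succ_apply' dz (k + 1) g]
    show (dz^[k + 1] g (n + 1))⁻¹ * dz^[k + 1] g (n + 1 + 1) = σ ((dz^[k + 1] g n)⁻¹ * dz^[k + 1] g (n + 1))
    rw [ih (n + 1), ih n, map_mul, map_inv]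

theorem sig_bb {G : Type} [Group G] {g : ℤ → G} (σ : MulAut G)
    (hadd : ∀ l m : ℤ, g (l + m) = g l * (σ ^ l) (g m)) (k : ℕ) (hk : 1 ≤ k) :
    σ (bb g k) = bb g k * bb g (k + 1) := by
  obtain ⟨j, rfl⟩ : ∃ j, k = j + 1 := ⟨k - 1, by omega⟩
  unfold bb
  rw [Function.iterate_succ_apply' dz (j + 1) g]
  show σ (dz^[j + 1] g 0) = dz^[j + 1] g 0 * ((dz^[j + 1] g 0)⁻¹ * dz^[j + 1] g (0 + 1))
  rw [mul_inv_cancel_left, gcon_dz σ hadd j 0]

private theorem gcon_comm {G : Type} [Group G] {F : ℕ → Subgroup G} (hF : Filt F) (h0 : F 0 = ⊤) {i j : ℕ}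
    {x y u v : G} (hx : x ∈ F i) (hy : y ∈ F j) (hu : u ∈ F (i + 1)) (hv : v ∈ F (j + 1)) :
    (x * y * x⁻¹ * y⁻¹)⁻¹ * (x * u * (y * v) * (x * u)⁻¹ * (y * v)⁻¹) ∈ F (i + j + 1) := by
  have hn : (F (i + j + 1)).Normal := ⟨fun z hz w => hF.conj hz (by rw [h0]; exact Subgroup.mem_top w)⟩
  let π := QuotientGroup.mk' (F (i + j + 1))
  have hc : ∀ {a b : G}, a * b * a⁻¹ * b⁻¹ ∈ F (i + j + 1) → π a * π b = π b * π a := by
    intro a b h
    have h1 : π (a * b * a⁻¹ * b⁻¹) = 1 := (QuotientGroup.eq_one_iff _).2 h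
    rw [map_mul, map_mul, map_mul, map_inv, map_inv, mul_inv_eq_one, mul_inv_eq_iff_eq_mul] at h1
    exact h1
  have c1 : π u * π y = π y * π u := hc (by
    have h := hF.comm _ _ _ hu _ hy
    rwa [show i + 1 + j = i + j + 1 by ring] at h)
  have c2 : π u * π v = π v * π u := hc (hF.anti _ (by
    have h := hF.comm _ _ _ hu _ hv
    rwa [show i + 1 + (j + 1) = i + j + 1 + 1 by ring] at h))
  have c3 : π v * π x = π x * π v := hc (by
    have h := hF.comm _ _ _ hv _ hx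
    rwa [show j + 1 + i = i + j + 1 by ring] at h)
  have key : π (x * y * x⁻¹ * y⁻¹) = π (x * u * (y * v) * (x * u)⁻¹ * (y * v)⁻¹) := by
    simp only [map_mul, map_inv]
    have e1 : π u * (π y * π v) = (π y * π v) * π u := by
      rw [← mul_assoc, c1, mul_assoc, c2, ← mul_assoc]
    have e2 : π v * (π x)⁻¹ = (π x)⁻¹ * π v := by
      rw [mul_inv_eq_iff_eq_mul, mul_assoc, c3, inv_mul_cancel_left]
    calc π x * π y * (π x)⁻¹ * (π y)⁻¹ = π x * π y * ((π x)⁻¹ * π v) * (π v)⁻¹ * (π y)⁻¹ := by group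
      _ = π x * π y * (π v * (π x)⁻¹) * (π v)⁻¹ * (π y)⁻¹ := by rw [e2]
      _ = π x * ((π y * π v) * π u) * (π u)⁻¹ * (π x)⁻¹ * (π v)⁻¹ * (π y)⁻¹ := by group
      _ = π x * (π u * (π y * π v)) * (π u)⁻¹ * (π x)⁻¹ * (π v)⁻¹ * (π y)⁻¹ := by rw [e1]
      _ = π x * π u * (π y * π v) * (π x * π u)⁻¹ * (π y * π v)⁻¹ := by group
  exact QuotientGroup.eq.1 key

theorem sig_raise {G : Type} [Group G] {g : ℤ → G} (σ : MulAut G)
    (hF : Filt (FB (bb g))) (h0 : FB (bb g) 0 = ⊤) {N : ℕ} (hN : ∀ i, N ≤ i → FB (bb g) i = ⊥)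
    (hadd : ∀ l m : ℤ, g (l + m) = g l * (σ ^ l) (g m)) :
    ∀ i, ∀ x ∈ FB (bb g) i, x⁻¹ * σ x ∈ FB (bb g) (i + 1) ∧ x⁻¹ * σ.symm x ∈ FB (bb g) (i + 1) := by
  have h1 : ∀ (i : ℕ) (x : G), Br (bb g) i x → x⁻¹ * σ x ∈ FB (bb g) (i + 1) := by
    intro i x hx
    induction hx with
    | base k hk =>
      rw [sig_bb σ hadd k hk, inv_mul_cancel_left]
      exact mem_FB (Br.base (k + 1) (by omega)) le_rfl
    | @comm i j x y hx hy ih1 ih2 =>
      have h := gcon_comm hF h0 (mem_FB hx le_rfl) (mem_FB hy le_rfl) ih1 ih2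
      rw [mul_inv_cancel_left, mul_inv_cancel_left] at h
      simp only [map_mul, map_inv]
      exact h
  have h2 : ∀ i, ∀ x ∈ FB (bb g) i, x⁻¹ * σ x ∈ FB (bb g) (i + 1) := by
    intro i x hx
    induction hx using Subgroup.closure_induction with
    | mem x hx =>
      obtain ⟨m, hm, hxm⟩ := hx
      exact hF.le (by omega) (h1 m x hxm)
    | one =>
      rw [map_one, mul_one, inv_one]
      exact one_mem _
    | mul x y _ _ ihx ihy =>
      have e : (x * y)⁻¹ * σ (x * y) = (y⁻¹ * (x⁻¹ * σ x) * (y⁻¹)⁻¹) * (y⁻¹ * σ y) := by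
        rw [map_mul]
        group
      rw [e]
      exact (FB (bb g) (i + 1)).mul_mem (hF.conj ihx (by rw [h0]; exact Subgroup.mem_top _)) ihy
    | inv x _ ih =>
      have e : (x⁻¹)⁻¹ * σ x⁻¹ = x * (x⁻¹ * σ x)⁻¹ * x⁻¹ := by
        rw [map_inv]
        group
      rw [e]
      exact hF.conj ((FB (bb g) (i + 1)).inv_mem ih) (by rw [h0]; exact Subgroup.mem_top _)
  have h3 : ∀ m i : ℕ, N ≤ i + m → ∀ x ∈ FB (bb g) i, σ.symm x ∈ FB (bb g) i ∧
      x⁻¹ * σ.symm x ∈ FB (bb g) (i + 1) := by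
    intro m
    induction m with
    | zero =>
      intro i hi x hx
      rw [hN i (by omega), Subgroup.mem_bot] at hx
      rw [hx, map_one, inv_one, one_mul]
      exact ⟨one_mem _, one_mem _⟩
    | succ m ih =>
      intro i hi x hx
      have hu := h2 i x hx
      have hsu := (ih (i + 1) (by omega) _ hu).1
      have e : x⁻¹ * σ.symm x = (σ.symm (x⁻¹ * σ x))⁻¹ := by
        rw [map_mul, map_inv, MulEquiv.symm_apply_apply]
        group
      have h4 : x⁻¹ * σ.symm x ∈ FB (bb g) (i + 1) := by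
        rw [e]
        exact (FB (bb g) (i + 1)).inv_mem hsu
      refine ⟨?_, h4⟩
      have e2 : σ.symm x = x * (x⁻¹ * σ.symm x) := by group
      rw [e2]
      exact (FB (bb g) i).mul_mem hx (hF.anti i h4)
  intro i x hx
  exact ⟨h2 i x hx, (h3 N i (by omega) x hx).2⟩

end NPG
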