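import Pool.Agent.Nil.Frame

set_option autoImplicit false

/-!
# NPG / GConP : coordinates of the conjugated elements

`c`, `w` adapted generators of the filtration `F` with `F 0 = F 1 = ⊤`, `σ` an automorphism with
`x⁻¹ * σ^(±1) x ∈ F (i + 1)` for `x ∈ F i`.

PROOF of `sig_pol`.  Let `P = G ⋊[φ] Multiplicative ℤ`, `φ = zpowersHom (MulAut G) σ` (or `G ⋊ MulAut G`
with the element `inr σ`), `S = inr (ofAdd 1)`, so `S * inl x * S⁻¹ = inl (σ x)`.  Filtration of `P`:
`Fp i = ⊤` for `i ≤ 1` and `Fp i = (F i).map inl` for `i ≥ 2`.  It is a `Filt`: `x⁻¹ * σ^n x ∈ F (i + 1)` for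
`x ∈ F i` and all `n : ℤ`; the commutator of `inl a * S^m` and `inl b * S^n` is in `inl (F 2)`, the
commutator of `inl a * S^m` and `inl b`, `b ∈ F j`, is in `inl (F (j + 1))` (`a σ^m(b) a⁻¹ b⁻¹`,
`σ^m b ∈ b F (j + 1)`, `F (j + 1)` is normal).  Variables `V = Unit ⊕ Fin r`, weights
`om = Sum.elim (fun _ => 1) w`.  The map `x ↦ S ^ (x (inl ()))` is polynomial of level `0` (`isPol_zpow`, `i = 0`,
`d = 1`, `var_mem`), `x ↦ inl (kap c (x ∘ inr))` too (`isPol_kap` with `inl (c i) ∈ Fp (w i)`, `kap_map`), so is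
`S^j * inl (kap) * (S^j)⁻¹ = inl (σ^j (kap))` (`IsPol.conj`).  Back to `G`: if `x ↦ inl (f x)` is in
`PQ Fp om k i` then `f ∈ PQ F om k i` (induction on `k`; `(Fp i).comap inl ≤ F i` because `F 0 = F 1 = ⊤`; compare
`Frame.isSeq_comap`).
PROOF of `sig_coord`.  `coord` with `V`, `om` as above, `f x = σ^(x (inl ())) (kap c (x ∘ inr))`, `j = 0`,
`P0 i x = x (inr i)` (`var_mem`), `H = {{inl ()}, Set.range inr}`: for `x (inl ()) = 0` and for `x ∘ inr = 0` both
sides agree.  `q j y i = s i (Sum.elim (fun _ => j) y)`.  Divisibility: `WP_dvd` with `S = range inr`.  Size: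
`WP_size1` with `S = range inr`, `X = R`; take the maximum (or the sum) of the constants, and `1`.
-/

namespace NPG
open Finset Pool.Nil

variable {G : Type} [Group G] {F : ℕ → Subgroup G} {D r : ℕ} {c : Fin r → G} {w : Fin r → ℕ}

namespace GConP

open SemidirectProduct Multiplicative

/-- the action of `Multiplicative ℤ` by the powers of `σ` -/
def ph (σ : MulAut G) : Multiplicative ℤ →* MulAut G := zpowersHom (MulAut G) σ

lemma ph_apply (σ : MulAut G) (n : Multiplicative ℤ) (x : G) :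
    ph σ n x = (σ ^ (n.toAdd)) x := rfl

lemma zpow_mem (σ : MulAut G)
    (hs : ∀ i, ∀ x ∈ F i, x⁻¹ * σ x ∈ F (i + 1) ∧ x⁻¹ * σ.symm x ∈ F (i + 1))
    (hF : Filt F) (n : ℤ) : ∀ i, ∀ x ∈ F i, x⁻¹ * (σ ^ n) x ∈ F (i + 1) := by
  induction n using Int.induction_on with
  | zero =>
    intro i x hx
    simp only [zpow_zero, MulAut.one_apply, inv_mul_cancel]
    exact one_mem _
  | succ n ih =>
    intro i x hx
    have h1 := (hs i x hx).1
    have hz : σ x ∈ F i := by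
      have h2 : σ x = x * (x⁻¹ * σ x) := by group
      rw [h2]
      exact mul_mem hx (hF.anti i h1)
    have h3 := ih i _ hz
    have e : x⁻¹ * (σ ^ ((n : ℤ) + 1)) x = (x⁻¹ * σ x) * ((σ x)⁻¹ * (σ ^ (n : ℤ)) (σ x)) := by
      rw [zpow_add_one, MulAut.mul_apply]
      group
    rw [e]
    exact mul_mem h1 h3
  | pred n ih =>
    intro i x hx
    have h1 := (hs i x hx).2
    have hz : σ.symm x ∈ F i := by
      have h2 : σ.symm x = x * (x⁻¹ * σ.symm x) := by group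
      rw [h2]
      exact mul_mem hx (hF.anti i h1)
    have h3 := ih i _ hz
    have e : x⁻¹ * (σ ^ (-(n : ℤ) - 1)) x =
        (x⁻¹ * σ.symm x) * ((σ.symm x)⁻¹ * (σ ^ (-(n : ℤ))) (σ.symm x)) := by
      rw [zpow_sub_one, MulAut.mul_apply]
      have : (σ⁻¹ : MulAut G) x = σ.symm x := rfl
      rw [this]
      group
    rw [e]
    exact mul_mem h1 h3

/-- the filtration of the semidirect product -/
def Fp (F : ℕ → Subgroup G) (σ : MulAut G) (i : ℕ) : Subgroup (G ⋊[ph σ] Multiplicative ℤ) :=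
  if i ≤ 1 then ⊤ else (F i).map inl

lemma mem_Fp (h0 : F 0 = ⊤) (h1 : F 1 = ⊤) (σ : MulAut G) {i : ℕ}
    {x : G ⋊[ph σ] Multiplicative ℤ} :
    x ∈ Fp F σ i ↔ x.left ∈ F i ∧ (2 ≤ i → x.right = 1) := by
  unfold Fp
  split_ifs with h
  · have hi : F i = ⊤ := by
      rcases Nat.le_one_iff_eq_zero_or_eq_one.1 h with rfl | rfl
      · exact h0
      · exact h1
    rw [hi]
    simp only [Subgroup.mem_top, true_and, true_iff]
    intro h2
    omega
  · constructor
    · rintro ⟨g, hg, rfl⟩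
      exact ⟨by simpa using hg, fun _ => by simp⟩
    · rintro ⟨hg, hr⟩
      refine ⟨x.left, hg, ?_⟩
      ext
      · simp
      · simp [hr (by omega)]

lemma comm_left (σ : MulAut G) (x y : G ⋊[ph σ] Multiplicative ℤ) :
    (x * y * x⁻¹ * y⁻¹).left = x.left * ph σ x.right y.left * (ph σ y.right x.left)⁻¹ * y.left⁻¹ := by
  simp only [mul_left, mul_right, inv_left, inv_right]
  have e1 : ph σ (x.right * y.right) (ph σ x.right⁻¹ x.left⁻¹) = (ph σ y.right x.left)⁻¹ := by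
    rw [← MulAut.mul_apply, ← map_mul, mul_comm x.right, mul_inv_cancel_right, map_inv]
  have e2 : ph σ (x.right * y.right * x.right⁻¹) (ph σ y.right⁻¹ y.left⁻¹) = y.left⁻¹ := by
    rw [← MulAut.mul_apply, ← map_mul, mul_comm x.right, mul_inv_cancel_right, mul_inv_cancel,
      map_one, MulAut.one_apply]
  rw [e1, e2]

lemma comm_right (σ : MulAut G) (x y : G ⋊[ph σ] Multiplicative ℤ) :
    (x * y * x⁻¹ * y⁻¹).right = 1 := by
  simp only [mul_right, inv_right]
  rw [mul_comm x.right, mul_inv_cancel_right, mul_inv_cancel]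

lemma filt_Fp (hF : Filt F) (h0 : F 0 = ⊤) (h1 : F 1 = ⊤) (σ : MulAut G)
    (hs : ∀ i, ∀ x ∈ F i, x⁻¹ * σ x ∈ F (i + 1) ∧ x⁻¹ * σ.symm x ∈ F (i + 1)) :
    Filt (Fp F σ) where
  anti i x hx := by
    rw [mem_Fp h0 h1] at hx ⊢
    exact ⟨hF.anti i hx.1, fun h => hx.2 (by omega)⟩
  comm i j x hx y hy := by
    rw [mem_Fp h0 h1] at hx hy ⊢
    refine ⟨?_, fun _ => comm_right σ x y⟩
    rw [comm_left]
    obtain ⟨ha, hs'⟩ := hx
    obtain ⟨hb, ht⟩ := hy
    set a := x.left with hadef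
    set b := y.left with hbdef
    have hbe : b⁻¹ * ph σ x.right b ∈ F (i + j) := by
      by_cases h : 2 ≤ i
      · rw [hs' h, map_one, MulAut.one_apply, inv_mul_cancel]
        exact one_mem _
      · exact hF.le (by omega) (zpow_mem σ hs hF _ j b hb)
    have hal : a⁻¹ * ph σ y.right a ∈ F (i + j) := by
      by_cases h : 2 ≤ j
      · rw [ht h, map_one, MulAut.one_apply, inv_mul_cancel]
        exact one_mem _
      · exact hF.le (by omega) (zpow_mem σ hs hF _ i a ha)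
    have e : a * ph σ x.right b * (ph σ y.right a)⁻¹ * b⁻¹ =
        (a * b * a⁻¹ * b⁻¹) * ((b * a) * ((b⁻¹ * ph σ x.right b) * (a⁻¹ * ph σ y.right a)⁻¹) *
          (b * a)⁻¹) := by
      group
    rw [e]
    exact mul_mem (hF.comm i j a ha b hb)
      (hF.conj (mul_mem hbe (inv_mem hal)) (by rw [h0]; exact Subgroup.mem_top _))

variable {V : Type} [DecidableEq V] {om : V → ℕ}

lemma PQ_back (h0 : F 0 = ⊤) (h1 : F 1 = ⊤) (σ : MulAut G) (k : ℕ) :
    ∀ (i : ℕ) (f : (V → ℤ) → G),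
      (fun x => (inl (f x) : G ⋊[ph σ] Multiplicative ℤ)) ∈ PQ (Fp F σ) om k i → f ∈ PQ F om k i := by
  induction k with
  | zero =>
    intro i f hf x
    have h := (mem_Fp h0 h1 σ).1 (hf x)
    simpa using h.1
  | succ k ih =>
    intro i f hf
    refine ⟨fun x => ?_, fun v => ih _ _ ?_⟩
    · have h := (mem_Fp h0 h1 σ).1 (hf.1 x)
      simpa using h.1
    · have h := hf.2 v
      have e : dv v (fun x => (inl (f x) : G ⋊[ph σ] Multiplicative ℤ)) = fun x => inl (dv v f x) := by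
        funext x
        simp only [dv, map_mul, map_inv]
      rw [e] at h
      exact h

end GConP

open GConP SemidirectProduct Multiplicative in
theorem sig_pol (hA : Adapted F D c w) (h0 : F 0 = ⊤) (h1 : F 1 = ⊤) (σ : MulAut G)
    (hs : ∀ i, ∀ x ∈ F i, x⁻¹ * σ x ∈ F (i + 1) ∧ x⁻¹ * σ.symm x ∈ F (i + 1)) :
    IsPol F (Sum.elim (fun _ : Unit => 1) w) 0
      (fun x : Unit ⊕ Fin r → ℤ => (σ ^ (x (Sum.inl ()))) (kap c (fun i => x (Sum.inr i)))) := by
  have hFp := filt_Fp hA.filt h0 h1 σ hs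
  intro k
  apply PQ_back h0 h1 σ
  set S : G ⋊[ph σ] Multiplicative ℤ := inr (ofAdd 1) with hS
  have hS1 : S ∈ Fp F σ (0 + 1) := by
    rw [mem_Fp h0 h1]
    refine ⟨?_, fun h => by omega⟩
    rw [zero_add, h1]
    exact Subgroup.mem_top _
  have hp1 : IsPol (Fp F σ) (Sum.elim (fun _ : Unit => 1) w) 0
      (fun x : Unit ⊕ Fin r → ℤ => S ^ x (Sum.inl ())) :=
    isPol_zpow hFp hS1 (WP_mono (Set.empty_subset _) le_rfl
      (var_mem (om := Sum.elim (fun _ : Unit => 1) w) (Sum.inl ())))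
  have hp2 : IsPol (Fp F σ) (Sum.elim (fun _ : Unit => 1) w) 0
      (fun x : Unit ⊕ Fin r → ℤ =>
        kap (fun i => (inl (c i) : G ⋊[ph σ] Multiplicative ℤ)) (fun i => x (Sum.inr i))) :=
    isPol_kap hFp (c := fun i => inl (c i)) (w := w) (fun i => by
      rw [mem_Fp h0 h1]
      exact ⟨by simpa using hA.mem i, fun _ => by simp⟩)
      (fun i => WP_mono (Set.empty_subset _) le_rfl
        (var_mem (om := Sum.elim (fun _ : Unit => 1) w) (Sum.inr i)))
  have hp := (hp1.conj hFp hp2) k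
  have e : (fun x : Unit ⊕ Fin r → ℤ => (inl ((σ ^ (x (Sum.inl ())))
      (kap c (fun i => x (Sum.inr i)))) : G ⋊[ph σ] Multiplicative ℤ)) =
      (fun x : Unit ⊕ Fin r → ℤ => S ^ x (Sum.inl ())) *
      (fun x : Unit ⊕ Fin r → ℤ =>
        kap (fun i => (inl (c i) : G ⋊[ph σ] Multiplicative ℤ)) (fun i => x (Sum.inr i))) *
      (fun x : Unit ⊕ Fin r → ℤ => S ^ x (Sum.inl ()))⁻¹ := by
    funext x
    simp only [Pi.mul_apply, Pi.inv_apply]
    have h2 : S ^ x (Sum.inl ()) = inr (ofAdd (x (Sum.inl ()))) := by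
      rw [hS, ← map_zpow, ← ofAdd_zsmul, smul_eq_mul, mul_one]
    rw [h2, ← Frame.kap_map inl, ← map_inv, ← inl_aut]
    rfl
  rw [e]
  exact hp

theorem sig_coord (hA : Adapted F D c w) (h0 : F 0 = ⊤) (h1 : F 1 = ⊤) (σ : MulAut G)
    (hs : ∀ i, ∀ x ∈ F i, x⁻¹ * σ x ∈ F (i + 1) ∧ x⁻¹ * σ.symm x ∈ F (i + 1))
    {W : ℕ} (hW : ∀ k : ℕ, 1 ≤ k → k ≤ D → k ∣ W) :
    ∃ (q : ℤ → (Fin r → ℤ) → Fin r → ℤ) (C : ℝ), 1 ≤ C ∧
      (∀ (j : ℤ) y, (σ ^ j) (kap c y) = kap c (y + q j y)) ∧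
      (∀ (Q : ℕ) (j : ℤ) y, (∀ i, ((md W D Q (w i) : ℕ) : ℤ) ∣ y i) →
        ∀ i, ((md W D Q (w i) : ℕ) : ℤ) ∣ q j y i) ∧
      (∀ (R del : ℝ) (j : ℤ) (y : Fin r → ℤ), 1 ≤ R → 0 ≤ del → del ≤ 1 → |(j : ℝ)| ≤ R →
        (∀ i, |(y i : ℝ)| ≤ del * R ^ w i) → ∀ i, |(q j y i : ℝ)| ≤ C * del * R ^ w i) := by
  classical
  have hom : ∀ v : Unit ⊕ Fin r, 1 ≤ Sum.elim (fun _ : Unit => 1) w v := by
    rintro (v | v)
    · exact le_rfl
    · exact hA.one_le v
  have hr : ∀ i, (fun x : Unit ⊕ Fin r → ℤ => x (Sum.inr i)) ∈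
      WP (Sum.elim (fun _ : Unit => 1) w) ∅ (w i) :=
    fun i => WP_mono (Set.empty_subset _) le_rfl
      (var_mem (om := Sum.elim (fun _ : Unit => 1) w) (Sum.inr i))
  obtain ⟨s, hs', -, hfs⟩ := coord hA hom _ (sig_pol hA h0 h1 σ hs) 0
    (fun x => by rw [zero_add, h1]; exact Subgroup.mem_top _)
    {{Sum.inl ()}, Set.range Sum.inr}
    (fun i x => x (Sum.inr i)) hr (fun i hi => absurd (hA.one_le i) (by omega)) (by
      intro S hS x hx
      rcases hS with rfl | hS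
      · have h2 : x (Sum.inl ()) = 0 := hx _ rfl
        rw [h2, zpow_zero, MulAut.one_apply]
      · rw [Set.mem_singleton_iff] at hS
        subst hS
        have h2 : (fun i => x (Sum.inr i)) = fun _ : Fin r => (0 : ℤ) := by
          funext i
          exact hx _ ⟨i, rfl⟩
        rw [h2]
        rw [show kap c (fun _ => 0) = 1 from kap_zero c, map_one])
  have hH2 : Set.range Sum.inr ∈
      ({{Sum.inl ()}, Set.range Sum.inr} : Set (Set (Unit ⊕ Fin r))) := Or.inr rfl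
  choose C hC0 hC using fun i => WP_size1 (hs' i) hH2
  have hsum : 0 ≤ ∑ i, C i := Finset.sum_nonneg fun i _ => hC0 i
  refine ⟨fun j y i => s i (Sum.elim (fun _ => j) y), 1 + ∑ i, C i, by linarith, ?_, ?_, ?_⟩
  · intro j y
    exact hfs (Sum.elim (fun _ => j) y)
  · intro Q j y hy i
    refine WP_dvd hom hW (hA.le_D i) (hs' i) hH2 ?_
    rintro _ ⟨v, rfl⟩
    exact hy v
  · intro R del j y hR hd hd1 hj hy i
    have hR0 : (0 : ℝ) ≤ R := by linarith
    refine (hC i R del (Sum.elim (fun _ => j) y) hR hd hd1 ?_ ?_).trans ?_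
    · rintro (v | v)
      · simp only [Sum.elim_inl, pow_one]
        exact hj
      · simp only [Sum.elim_inr]
        refine (hy v).trans ?_
        have e3 : 0 ≤ R ^ w v := pow_nonneg hR0 _
        nlinarith
    · rintro _ ⟨v, rfl⟩
      exact hy v
    · have e1 : C i ≤ ∑ j, C j := Finset.single_le_sum (fun j _ => hC0 j) (Finset.mem_univ i)
      have e3 : 0 ≤ R ^ w i := pow_nonneg hR0 _
      exact mul_le_mul_of_nonneg_right (mul_le_mul_of_nonneg_right (by linarith) hd) e3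

end NPG
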