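import Pool.Agent.NPG.Defs
import Pool.Agent.Nil.PackEx
import Pool.Agent.Nil.Frame

set_option autoImplicit false

/-!
# NPG / GDefs : frames with an automorphism, finite quotients, word lengths, kernels

`G` is the group generated by `g n = T^(-n) S^n`, `σ` the conjugation `x ↦ S⁻¹ x S`; then
`g (l + m) = g l * σ^l (g m)`.

* `SFr σ g` : a frame (`Pool.Nil.Frame g`), adapted also to `σ`: in coordinates
  `σ^j (kap y) = kap (y + q j y)` with `q` divisible and of size `≤ C1 del R^w` for `|j| ≤ R`.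
* `mkMod` : the model of a finite quotient `φ : G → A`, `s = σ⁻¹`, `th c = φ (g c)⁻¹`.
* `nul` : weighted word length at level `k`; a letter `c_i^(±1)` costs `2^(-k w_i)`.
* `FrG σ g n` : the frames, conjugations by `S^(-m)` or `T^(-m)`, `|m| ≤ 2^n`.
* `Mb`, `zz`, `Db`, `Kop` : box, elements, operator `Db = b_(k,d)` and `Kop α = b* b` in the frame `α`.
* `kka` : the kernel of `Kop` in a finite quotient.
-/

namespace NPG
open Finset Pool.Nil

noncomputable section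

/-- frame with an automorphism -/
structure SFr {G : Type} [Group G] (σ : MulAut G) (g : ℤ → G) where
  fr : Frame g
  gen : Subgroup.closure (Set.range fr.c) = ⊤
  add : ∀ l m : ℤ, g (l + m) = g l * (σ ^ l) (g m)
  q : ℤ → (Fin fr.r → ℤ) → Fin fr.r → ℤ
  C1 : ℝ
  one_le_C1 : 1 ≤ C1
  conj : ∀ (j : ℤ) (y : Fin fr.r → ℤ), (σ ^ j) (kap fr.c y) = kap fr.c (y + q j y)
  q_dvd : ∀ (Q : ℕ) (j : ℤ) (y : Fin fr.r → ℤ), (∀ i, (fr.mo Q i : ℤ) ∣ y i) →
    ∀ i, (fr.mo Q i : ℤ) ∣ q j y i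
  q_size : ∀ (R del : ℝ) (j : ℤ) (y : Fin fr.r → ℤ), 1 ≤ R → 0 ≤ del → del ≤ 1 → |(j : ℝ)| ≤ R →
    (∀ i, |(y i : ℝ)| ≤ del * R ^ fr.w i) → ∀ i, |(q j y i : ℝ)| ≤ C1 * del * R ^ fr.w i

lemma SFr.g_zero {G : Type} [Group G] {σ : MulAut G} {g : ℤ → G} (sf : SFr σ g) : g 0 = 1 := by
  have h := sf.add 0 0
  rw [add_zero, zpow_zero, MulAut.one_apply] at h
  exact (mul_eq_left.1 h.symm)

lemma pow_sig {G A : Type} [Group G] [Group A] {σ : MulAut G} {φ : G →* A} {s : MulAut A}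
    (hs : ∀ x, s (φ (σ x)) = φ x) (l : ℕ) (x : G) : (s ^ l) (φ ((σ ^ l) x)) = φ x := by
  induction l generalizing x with
  | zero => simp
  | succ l ih =>
    rw [pow_succ, pow_succ', MulAut.mul_apply, MulAut.mul_apply, hs, ih]

/-- the model of a finite quotient -/
def mkMod {G A : Type} [Group G] [Group A] {σ : MulAut G} {g : ℤ → G} (sf : SFr σ g)
    (φ : G →* A) (s : MulAut A) (hs : ∀ x, s (φ (σ x)) = φ x) : Mod A where
  s := s
  th := fun c => (φ (g c))⁻¹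
  th_zero := by rw [Nat.cast_zero, sf.g_zero, map_one, inv_one]
  th_add := fun l m => by
    have h : (s ^ l)⁻¹ (φ (g m)) = φ ((σ ^ l) (g m)) := by
      rw [MulAut.inv_apply, MulEquiv.symm_apply_eq, pow_sig hs]
    rw [map_inv, h, Nat.cast_add, sf.add, map_mul, mul_inv_rev, zpow_natCast]

/-! ### word length -/

/-- letters -/
def lt {A : Type} [Group A] {r : ℕ} (c : Fin r → A) (p : Fin r × Bool) : A :=
  if p.2 then c p.1 else (c p.1)⁻¹

/-- cost of a word at level `k`, times `2^(k D)` -/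
def wcost {r : ℕ} (w : Fin r → ℕ) (D k : ℕ) (L : List (Fin r × Bool)) : ℕ :=
  (L.map fun p => 2 ^ (k * (D - w p.1))).sum

/-- integer word length -/
def nun {A : Type} [Group A] {r : ℕ} (c : Fin r → A) (w : Fin r → ℕ) (D k : ℕ) (x : A) : ℕ :=
  sInf {n | ∃ L : List (Fin r × Bool), wcost w D k L = n ∧ (L.map (lt c)).prod = x}

/-- weighted word length at level `k` -/
def nul {A : Type} [Group A] {r : ℕ} (c : Fin r → A) (w : Fin r → ℕ) (D k : ℕ) (x : A) : ℝ :=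
  nun c w D k x / 2 ^ (k * D)

/-! ### frames -/

/-- the conjugations by `S^(-m)` and `T^(-m)`, `|m| ≤ 2^n` -/
def FrG {G : Type} [Group G] (σ : MulAut G) (g : ℤ → G) (n : ℕ) : Set (MulAut G) :=
  {α | ∃ m : ℤ, |m| ≤ 2 ^ n ∧ (α = σ ^ m ∨ α = MulAut.conj (g m) * σ ^ m)}

/-! ### kernels -/

section kern
variable {G : Type} [Group G] {g : ℤ → G} (fr : Frame g)

/-- sides of the box at level `k` : `|mo_i t_i| ≤ 2^(-b) 2^(k w_i)` -/
def Mb (k b d : ℕ) : Fin fr.r → ℕ := fun i => 2 ^ (k * fr.w i) / (2 ^ b * fr.mo d i)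

/-- the elements of `b* b` -/
def zz (d : ℕ) (p : (Fin fr.r → ℤ) × (Fin fr.r → ℤ)) : G :=
  (kap fr.c (fun i => (fr.mo d i : ℤ) * p.2 i))⁻¹ * kap fr.c (fun i => (fr.mo d i : ℤ) * p.1 i)

/-- the kernel of `b* b` in the quotient `A` -/
def kka {A : Type} (φ : G → A) (k b d : ℕ) (x : A) : ℝ :=
  Nat.card {p : (Fin fr.r → ℤ) × (Fin fr.r → ℤ) //
    p.1 ∈ bx (Mb fr k b d) ∧ p.2 ∈ bx (Mb fr k b d) ∧ φ (zz fr d p) = x} /
      ((bx (Mb fr k b d)).card : ℝ) ^ 2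

variable {H : Type} [NormedAddCommGroup H] [InnerProductSpace ℂ H] [CompleteSpace H]
  (U : G →* (H ≃ₗᵢ[ℂ] H))

/-- the operator `b_(k,d)` -/
def Db (k b d : ℕ) : H →L[ℂ] H := BM U fr.c (fr.mo d) (Mb fr k b d)

/-- the operator `b* b` in the frame `α` -/
def Kop (α : MulAut G) (k b d : ℕ) : H →L[ℂ] H :=
  avg (bx (Mb fr k b d) ×ˢ bx (Mb fr k b d)) (fun p => Uo U (α (zz fr d p)))

end kern

end

end NPG
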