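import Pool.Agent.Nil.Frame

set_option autoImplicit false

/-!
# NPG / GFrA : frames with their adapted filtration

PROOF: copy of the proof of `Pool.Nil.Frame.main` (file `Nil/Frame.lean`); there `D = N`,
`Adapted (FB (bb g)) N c w` is proved as `hA`, and `hFB`, `htop`, `hs` are the other facts.
-/

namespace NPG
open Finset Pool.Nil

/-- frame together with the adapted filtration `FB (bb g)` -/
theorem exists_frA {G : Type} [Group G] {Fc : ℕ → Subgroup G} (hF : Filt Fc) (h0 : Fc 0 = ⊤)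
    {N : ℕ} (hN : Fc N = ⊥) (g : ℤ → G) (hg : IsSeq Fc 0 g) (hg0 : g 0 = 1)
    (hgen : Subgroup.closure (Set.range g) = ⊤) :
    ∃ fr : Frame g, Adapted (FB (bb g)) fr.D fr.c fr.w ∧ FB (bb g) 0 = ⊤ ∧
      FB (bb g) 1 = ⊤ ∧ IsSeq (FB (bb g)) 0 g := by
  have hs : IsSeq (FB (bb g)) 0 g := isSeq_FB hF h0 hN hg hg0 0
  have htop : FB (bb g) 0 = ⊤ := by
    rw [eq_top_iff, ← hgen, Subgroup.closure_le]
    rintro _ ⟨n, rfl⟩
    exact hs.val n
  have hiter : ∀ k, IsSeq Fc k (dz^[k] g) := by
    intro k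
    induction k with
    | zero => exact hg
    | succ k ih =>
      rw [Function.iterate_succ_apply']
      exact ih.diff
  have hb : ∀ k, bb g k ∈ Fc k := fun k => (hiter k).val 0
  have hgen' : Subgroup.closure {x | ∃ k, 1 ≤ k ∧ x = bb g k} = ⊤ := by
    rw [eq_top_iff, ← htop]
    unfold FB
    rw [Subgroup.closure_le]
    rintro x ⟨i, -, hx⟩
    induction hx with
    | base k hk => exact Subgroup.subset_closure ⟨k, hk, rfl⟩
    | comm _ _ h1 h2 =>
      exact mul_mem (mul_mem (mul_mem h1 h2) (inv_mem h1)) (inv_mem h2)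
  have hFB : Filt (FB (bb g)) := filt_FB hF hb hN hgen'
  have hbot : FB (bb g) (N + 1) = ⊥ := by
    rw [eq_bot_iff, ← hN]
    exact (FB_le hF hb (N + 1)).trans (hF.anti N)
  obtain ⟨r, c, w, hw, h1, hD, hTa, hall⟩ := Frame.exists_list g N
  have hA : Adapted (FB (bb g)) N c w :=
    { filt := hFB
      bot := hbot
      mono := hw
      one_le := h1
      le_D := hD
      mem := fun i => Ta_mem hFB htop hs (hTa i)
      gen := fun u hu hu' => by
        refine (gen_Ta hFB htop hs u hu).trans (sup_le_sup_right ?_ _)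
        refine Subgroup.closure_mono fun x hx => ?_
        exact hall u hu hu' x hx }
  have hW : ∀ k : ℕ, 1 ≤ k → k ≤ N → k ∣ N.factorial := fun k hk hk' =>
    Nat.dvd_factorial hk hk'
  have hNs : N ≤ 2 ^ N := Nat.lt_two_pow_self.le
  obtain ⟨p, C, hC, hmul, hdep, hdvd, hsize, hwt⟩ := mul_coord hA hW
  obtain ⟨ga, hga⟩ := seq_coord hA FB_one hs hg0
  choose dirs Ck hlen hCk hkc using fun i =>
    kc_coord hA FB_one hW hs hg0 hNs i (hTa i)
  have hsum : 0 ≤ ∑ i, Ck i := Finset.sum_nonneg fun i _ => hCk i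
  refine ⟨{ r := r, D := N, W := N.factorial, s := 2 ^ N, e := N, w := w, c := c, p := p,
            ga := ga, dirs := dirs, C0 := 1 + C + ∑ i, Ck i, one_le_C0 := by linarith,
            W_pos := Nat.one_le_iff_ne_zero.2 (Nat.factorial_ne_zero N), W_dvd := hW,
            s_eq := rfl, w_mono := hw, one_le_w := h1, w_le := hD, mul := hmul, p_dep := hdep,
            p_dvd := hdvd, p_size := ?_, p_wt := hwt, seq := hga, dirs_len := hlen,
            kc := ?_ }, hA, htop, by rw [← FB_one, htop], hs⟩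
  · intro R del del' x y hR hd hd1 hd' hd1' hx hy i
    refine (hsize R del del' x y hR hd hd1 hd' hd1' hx hy i).trans ?_
    have h2 : 0 ≤ del * del' := mul_nonneg hd hd'
    have h3 : 0 ≤ R ^ w i := pow_nonneg (by linarith) _
    exact mul_le_mul_of_nonneg_right (mul_le_mul_of_nonneg_right (by linarith) h2) h3
  · intro i n m t a ha
    obtain ⟨y, hy1, hy2, hy3, hy4⟩ := hkc i n m t a ha
    refine ⟨y, hy1, hy2, hy3, fun M ze hM hz hz1 hn hm ht hb j => ?_⟩
    refine (hy4 M ze hM hz hz1 hn hm ht hb j).trans ?_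
    have h3 : 0 ≤ M ^ w j := pow_nonneg (by linarith) _
    have h4 : Ck i ≤ ∑ i, Ck i := Finset.single_le_sum (fun i _ => hCk i) (Finset.mem_univ i)
    exact mul_le_mul_of_nonneg_right (mul_le_mul_of_nonneg_right (by linarith) hz) h3

end NPG
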