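import Pool.Agent.NPG.GWl

set_option autoImplicit false

/-!
# NPG / GGro : words of small cost have small coordinates; covering of boxes

PROOF of `nul_coord`.  Let `A = 4 C0` (`C0 = fr.C0 ≥ 1`), `R = A (1 + r0) 2^k`.  For `x = kap X` put
`|X| = max_i |X i| / R^(w i)` (or work with a bound `del`).  If `|X i| ≤ del R^w`, `|Y i| ≤ del' R^w`, `del, del' ≤ 1` then
`kap X * kap Y = kap Z` with `|Z i| ≤ (del + del' + C0 del del') R^w` (`mul`, `p_size`), and
`1 + C0 (del + del' + C0 del del') = (1 + C0 del) (1 + C0 del')`.  A letter `c_i^(±1) = kap (Pi.single i (±1))` has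
`del = R^(-w_i) ≤ 2^(-k w_i) / (A (1 + r0))`.  By induction over the word: the value of a word with letters
`l_1, ..., l_n` is `kap Z` with `|Z i| ≤ del R^w`, `1 + C0 del = prod (1 + C0 R^(-w_(l_j))) ≤
exp (C0 * sum R^(-w)) ≤ exp (C0 * cost / (A (1 + r0))) ≤ exp (1/4) ≤ 2 ≤ 1 + C0`, so always `del ≤ 1`.
Take an optimal word of `x` (`exists_word`).

PROOF of `cover`.  `m i = max 1 ⌊2^(k w_i) / (2 r + 2)⌋`.  Given `X`, define `Z`, `u` by recursion on the weight:
`X i - p Z u i = Z i + u i`, `m i ∣ Z i`, `0 ≤ u i < m i` (`p Z u i` only depends on the coordinates of smaller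
weight, `p_dep`; Euclidean division).  Then `kap Z * kap u = kap (Z + u + p Z u) = kap X`; `|u i| ≤ 2^(k w_i) / (2 r + 2)`
(if `m i = 1` then `u i = 0`), so `nul k (kap u) ≤ 1/2` (`nul_kap`).  Size: by induction on the weight
`|Z i| ≤ B_w (R 2^k)^(w i)` with constants `B_w` of the frame (`Frame.p_size'` with `del = del' = 1`, `R 2^k` for `R`; compare
`size_aux` in `Nil/Small.lean`).  So `Z` belongs to the set of all `Z` with `m i ∣ Z i`, `|Z i| ≤ B (R 2^k)^(w i)`, which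
has at most `∏ (2 B (R 2^k)^(w i) / m i + 1) ≤ (C R)^C` elements (`m i ≥ 2^(k w_i) / (4 r + 4)`).
The set of `z` is the image of this set under `kap c`.
-/

namespace NPG
open Finset Pool.Nil

variable {G : Type} [Group G] {g : ℤ → G} (fr : Frame g)

private theorem GGro_one (fr : Frame g) {R : ℝ} (hR : 1 ≤ R) (p : Fin fr.r × Bool) :
    ∃ y : Fin fr.r → ℤ, lt fr.c p = kap fr.c y ∧ ∀ j, |(y j : ℝ)| ≤ (R ^ fr.w p.1)⁻¹ * R ^ fr.w j := by
  have hR0 : 0 < R := by linarith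
  have key : ∀ e : ℤ, |(e : ℝ)| = 1 → ∀ j,
      |((Pi.single p.1 e : Fin fr.r → ℤ) j : ℝ)| ≤ (R ^ fr.w p.1)⁻¹ * R ^ fr.w j := by
    intro e he j
    by_cases h : j = p.1
    · subst h
      rw [Pi.single_eq_same, he, inv_mul_cancel₀ (pow_pos hR0 _).ne']
    · rw [Pi.single_eq_of_ne h, Int.cast_zero, abs_zero]
      positivity
  cases hb : p.2 with
  | true =>
    refine ⟨Pi.single p.1 1, ?_, key 1 (by norm_num)⟩
    rw [kap_single, zpow_one]
    unfold lt
    rw [hb]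
    rfl
  | false =>
    refine ⟨Pi.single p.1 (-1), ?_, key (-1) (by norm_num)⟩
    rw [kap_single, zpow_neg, zpow_one]
    unfold lt
    rw [hb]
    rfl

private theorem GGro_word (fr : Frame g) {R : ℝ} (hR : 1 ≤ R) (L : List (Fin fr.r × Bool))
    (hL : Real.exp (fr.C0 * (L.map fun p => (R ^ fr.w p.1)⁻¹).sum) ≤ 2) :
    ∃ (Z : Fin fr.r → ℤ) (del : ℝ), (L.map (lt fr.c)).prod = kap fr.c Z ∧ 0 ≤ del ∧
      1 + fr.C0 * del ≤ Real.exp (fr.C0 * (L.map fun p => (R ^ fr.w p.1)⁻¹).sum) ∧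
      ∀ i, |(Z i : ℝ)| ≤ del * R ^ fr.w i := by
  have hC0 := fr.one_le_C0
  have hR0 : 0 < R := by linarith
  induction L with
  | nil =>
    refine ⟨0, 0, ?_, le_rfl, ?_, fun i => ?_⟩
    · rw [List.map_nil, List.prod_nil, kap_zero]
    · rw [List.map_nil, List.sum_nil, mul_zero, Real.exp_zero, add_zero]
    · rw [Pi.zero_apply, Int.cast_zero, abs_zero, zero_mul]
  | cons p L ih =>
    set S := (L.map fun p => (R ^ fr.w p.1)⁻¹).sum with hS
    set d := (R ^ fr.w p.1)⁻¹ with hd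
    have hd0 : 0 ≤ d := inv_nonneg.2 (pow_nonneg hR0.le _)
    have hd1 : d ≤ 1 := inv_le_one_of_one_le₀ (one_le_pow₀ hR)
    have hs : (((p :: L).map fun p => (R ^ fr.w p.1)⁻¹)).sum = d + S := by
      rw [List.map_cons, List.sum_cons]
    rw [hs] at hL ⊢
    have hle : Real.exp (fr.C0 * S) ≤ Real.exp (fr.C0 * (d + S)) :=
      Real.exp_le_exp.2 (mul_le_mul_of_nonneg_left (by linarith) (by linarith))
    obtain ⟨Z, del, h1, h2, h3, h4⟩ := ih (hle.trans hL)
    obtain ⟨y, h5, h6⟩ := GGro_one fr hR p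
    have hdel1 : del ≤ 1 := by
      have h7 : fr.C0 * del ≤ 1 := by linarith
      nlinarith
    refine ⟨y + Z + fr.p y Z, d + del + fr.C0 * (d * del), ?_, by positivity, ?_, fun i => ?_⟩
    · rw [List.map_cons, List.prod_cons, h1, h5, fr.mul]
    · calc 1 + fr.C0 * (d + del + fr.C0 * (d * del)) = (1 + fr.C0 * d) * (1 + fr.C0 * del) := by ring
        _ ≤ Real.exp (fr.C0 * d) * Real.exp (fr.C0 * S) := by
            have h8 : 1 + fr.C0 * d ≤ Real.exp (fr.C0 * d) := by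
              have := Real.add_one_le_exp (fr.C0 * d)
              linarith
            exact mul_le_mul h8 h3 (by positivity) (Real.exp_pos _).le
        _ = Real.exp (fr.C0 * (d + S)) := by rw [← Real.exp_add]; ring_nf
    · have h7 := fr.p_size R d del y Z hR hd0 hd1 h2 hdel1 h6 h4 i
      have h8 := h6 i
      have h9 := h4 i
      have h10 : |(((y + Z + fr.p y Z) i : ℤ) : ℝ)| ≤ |(y i : ℝ)| + |(Z i : ℝ)| + |(fr.p y Z i : ℝ)| := by
        simp only [Pi.add_apply, Int.cast_add]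
        exact (abs_add_le _ _).trans (add_le_add_left (abs_add_le _ _) _)
      have h11 : (d + del + fr.C0 * (d * del)) * R ^ fr.w i =
          d * R ^ fr.w i + del * R ^ fr.w i + fr.C0 * (d * del) * R ^ fr.w i := by ring
      rw [h11]
      linarith

private theorem GGro_sum (fr : Frame g) (k : ℕ) (L : List (Fin fr.r × Bool)) :
    (L.map fun p => ((2 : ℝ) ^ (k * fr.w p.1))⁻¹).sum = (wcost fr.w fr.D k L : ℝ) / 2 ^ (k * fr.D) := by
  unfold wcost
  induction L with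
  | nil => simp
  | cons p L ih =>
    rw [List.map_cons, List.sum_cons, ih, List.map_cons, List.sum_cons, Nat.cast_add, add_div]
    congr 1
    rw [Nat.cast_pow, Nat.cast_ofNat, inv_eq_one_div, div_eq_div_iff (by positivity) (by positivity), one_mul,
      ← pow_add]
    congr 1
    have := fr.w_le p.1
    rw [← Nat.mul_add]
    congr 1
    omega

/-- elements of length at most `r0` are in a box -/
theorem nul_coord (hgen : Subgroup.closure (Set.range fr.c) = ⊤) :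
    ∃ C : ℝ, 1 ≤ C ∧ ∀ (k : ℕ) (r0 : ℝ), 0 ≤ r0 → ∀ x : G, nul fr.c fr.w fr.D k x ≤ r0 →
      ∃ X : Fin fr.r → ℤ, x = kap fr.c X ∧ ∀ i, |(X i : ℝ)| ≤ (C * (1 + r0) * 2 ^ k) ^ fr.w i := by
  have hC0 := fr.one_le_C0
  refine ⟨4 * fr.C0, by linarith, fun k r0 hr0 x hx => ?_⟩
  obtain ⟨L, hL1, hL2⟩ := exists_word (w := fr.w) (D := fr.D) hgen k x
  have h2k : (1 : ℝ) ≤ 2 ^ k := one_le_pow₀ (by norm_num)
  have hA : 1 ≤ 4 * fr.C0 * (1 + r0) := by nlinarith
  set R := 4 * fr.C0 * (1 + r0) * 2 ^ k with hRdef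
  have hR : 1 ≤ R := by nlinarith
  have hR0 : 0 < R := by linarith
  have hsum : (L.map fun p => (R ^ fr.w p.1)⁻¹).sum ≤
      (4 * fr.C0 * (1 + r0))⁻¹ * (L.map fun p => ((2 : ℝ) ^ (k * fr.w p.1))⁻¹).sum := by
    rw [← List.sum_map_mul_left]
    refine List.sum_le_sum fun p _ => ?_
    rw [← mul_inv]
    refine inv_anti₀ (by positivity) ?_
    rw [hRdef, mul_pow, ← pow_mul]
    refine mul_le_mul_of_nonneg_right ?_ (by positivity)
    exact le_self_pow₀ hA (by have := fr.one_le_w p.1; omega)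
  have hcost : (L.map fun p => ((2 : ℝ) ^ (k * fr.w p.1))⁻¹).sum ≤ r0 := by
    rw [GGro_sum fr k L, hL1]
    exact hx
  have hS : fr.C0 * (L.map fun p => (R ^ fr.w p.1)⁻¹).sum ≤ 1 / 4 := by
    calc fr.C0 * (L.map fun p => (R ^ fr.w p.1)⁻¹).sum
        ≤ fr.C0 * ((4 * fr.C0 * (1 + r0))⁻¹ * r0) := by
          refine mul_le_mul_of_nonneg_left (hsum.trans ?_) (by linarith)
          exact mul_le_mul_of_nonneg_left hcost (by positivity)
      _ = r0 / (4 * (1 + r0)) := by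
          field_simp
      _ ≤ 1 / 4 := by
          rw [div_le_div_iff₀ (by positivity) (by norm_num)]
          linarith
  have hexp : Real.exp (fr.C0 * (L.map fun p => (R ^ fr.w p.1)⁻¹).sum) ≤ 2 := by
    calc Real.exp (fr.C0 * (L.map fun p => (R ^ fr.w p.1)⁻¹).sum) ≤ Real.exp (1 / 4) :=
          Real.exp_le_exp.2 hS
      _ ≤ 2 := by
          have h1 : Real.exp (1 / 4) ^ 4 = Real.exp 1 := by
            rw [← Real.exp_nat_mul]
            norm_num
          have h2 : Real.exp 1 < 2.7182818286 := Real.exp_one_lt_d9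
          by_contra hc
          push Not at hc
          have h3 : (2 : ℝ) ^ 4 < Real.exp (1 / 4) ^ 4 := pow_lt_pow_left₀ hc (by norm_num) (by norm_num)
          rw [h1] at h3
          norm_num at h3
          linarith
  obtain ⟨Z, del, h1, h2, h3, h4⟩ := GGro_word fr hR L hexp
  have hdel1 : del ≤ 1 := by
    have h7 : fr.C0 * del ≤ 1 := by linarith
    nlinarith
  refine ⟨Z, by rw [← hL2, h1], fun i => (h4 i).trans ?_⟩
  have : 0 ≤ R ^ fr.w i := pow_nonneg hR0.le _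
  nlinarith

/-! ### covering -/

private theorem GGro_rec (fr : Frame g) (m : Fin fr.r → ℤ) (X : Fin fr.r → ℤ) :
    ∃ Z u : Fin fr.r → ℤ, ∀ i, u i = (X i - fr.p Z u i) % m i ∧ Z i = (X i - fr.p Z u i) - u i := by
  let v : ℕ → (Fin fr.r → ℤ) × (Fin fr.r → ℤ) := fun n => Nat.rec (fun _ => 0, fun _ => 0)
    (fun _ q => (fun i => (X i - fr.p q.1 q.2 i) - (X i - fr.p q.1 q.2 i) % m i,
      fun i => (X i - fr.p q.1 q.2 i) % m i)) n
  have hv : ∀ n, v (n + 1) = (fun i => (X i - fr.p (v n).1 (v n).2 i) - (X i - fr.p (v n).1 (v n).2 i) % m i,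
      fun i => (X i - fr.p (v n).1 (v n).2 i) % m i) := fun n => rfl
  have key : ∀ n i, fr.w i ≤ n → (v (n + 1)).1 i = (v n).1 i ∧ (v (n + 1)).2 i = (v n).2 i := by
    intro n
    induction n with
    | zero =>
      intro i hi
      have := fr.one_le_w i
      omega
    | succ n ih =>
      intro i hi
      have h1 : fr.p (v (n + 1)).1 (v (n + 1)).2 i = fr.p (v n).1 (v n).2 i :=
        fr.p_dep _ _ _ _ i (fun j hj => ih j (by omega))
      rw [hv (n + 1)]
      simp only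
      rw [h1]
      rw [hv n]
      exact ⟨rfl, rfl⟩
  refine ⟨(v fr.D).1, (v fr.D).2, fun i => ?_⟩
  have h1 := key fr.D i (fr.w_le i)
  rw [hv fr.D] at h1
  simp only at h1
  exact ⟨h1.2.symm, by rw [← h1.2]; exact h1.1.symm⟩

private theorem GGro_size (fr : Frame g) (n : ℕ) : ∃ B : ℝ, 1 ≤ B ∧
    ∀ (S : ℝ) (X Z u : Fin fr.r → ℤ), 1 ≤ S → (∀ i, |(X i : ℝ)| ≤ S ^ fr.w i) →
    (∀ i, |(u i : ℝ)| ≤ S ^ fr.w i) → (∀ i, Z i = (X i - fr.p Z u i) - u i) →
    ∀ i, fr.w i ≤ n → |(Z i : ℝ)| ≤ B * S ^ fr.w i := by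
  induction n with
  | zero =>
    refine ⟨1, le_rfl, fun S X Z u _ _ _ _ i hi => ?_⟩
    have := fr.one_le_w i
    omega
  | succ n ih =>
    obtain ⟨B, hB, h⟩ := ih
    have hC0 := fr.one_le_C0
    have hP : 0 ≤ fr.C0 * (B + 1) ^ fr.D :=
      mul_nonneg (by linarith) (pow_nonneg (by linarith) _)
    refine ⟨B + 2 + fr.C0 * (B + 1) ^ fr.D, by linarith, ?_⟩
    intro S X Z u hS hX hu hZ i hi
    have hSw : 0 ≤ S ^ fr.w i := pow_nonneg (by linarith) _
    rcases Nat.lt_or_ge n (fr.w i) with hni | hni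
    · have h1 := Frame.SmallAux.p_size' fr hB le_rfl (R := S) (del := 1) (del' := 1) Z u hS zero_le_one le_rfl
        zero_le_one le_rfl i
        (fun j hj => by rw [mul_one]; exact h S X Z u hS hX hu hZ j (by omega))
        (fun j _ => by rw [mul_one, one_mul]; exact hu j)
      have h2 : |(Z i : ℝ)| ≤ |(X i : ℝ)| + |(fr.p Z u i : ℝ)| + |(u i : ℝ)| := by
        rw [hZ i, Int.cast_sub, Int.cast_sub]
        exact (abs_sub _ _).trans (add_le_add_left (abs_sub _ _) _)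
      have h3 := hX i
      have h4 := hu i
      calc |(Z i : ℝ)| ≤ S ^ fr.w i + fr.C0 * (B + 1) ^ fr.D * (1 * 1) * S ^ fr.w i + S ^ fr.w i := by linarith
        _ = (2 + fr.C0 * (B + 1) ^ fr.D) * S ^ fr.w i := by ring
        _ ≤ (B + 2 + fr.C0 * (B + 1) ^ fr.D) * S ^ fr.w i :=
            mul_le_mul_of_nonneg_right (by linarith) hSw
    · exact (h S X Z u hS hX hu hZ i hni).trans (mul_le_mul_of_nonneg_right (by linarith) hSw)

/-- modulus -/
private def GGro_m (fr : Frame g) (k : ℕ) (i : Fin fr.r) : ℕ := max 1 (2 ^ (k * fr.w i) / (2 * fr.r + 2))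

private theorem GGro_m_pos (fr : Frame g) (k : ℕ) (i : Fin fr.r) : 1 ≤ GGro_m fr k i := le_max_left _ _

private theorem GGro_m_ge (fr : Frame g) (k : ℕ) (i : Fin fr.r) :
    (2 : ℝ) ^ (k * fr.w i) ≤ (4 * fr.r + 4) * GGro_m fr k i := by
  have h1 : 2 ^ (k * fr.w i) < (2 ^ (k * fr.w i) / (2 * fr.r + 2) + 1) * (2 * fr.r + 2) := by
    have := Nat.lt_succ_iff.1 (Nat.lt_succ_self (2 ^ (k * fr.w i) / (2 * fr.r + 2)))
    have h := Nat.div_add_mod (2 ^ (k * fr.w i)) (2 * fr.r + 2)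
    have h' := Nat.mod_lt (2 ^ (k * fr.w i)) (show 0 < 2 * fr.r + 2 by omega)
    nlinarith
  have h2 : 2 ^ (k * fr.w i) / (2 * fr.r + 2) + 1 ≤ 2 * GGro_m fr k i := by
    have := GGro_m_pos fr k i
    have h3 : 2 ^ (k * fr.w i) / (2 * fr.r + 2) ≤ GGro_m fr k i := le_max_right _ _
    omega
  have h3 : 2 ^ (k * fr.w i) ≤ (4 * fr.r + 4) * GGro_m fr k i := by
    calc 2 ^ (k * fr.w i) ≤ (2 ^ (k * fr.w i) / (2 * fr.r + 2) + 1) * (2 * fr.r + 2) := h1.le
      _ ≤ (2 * GGro_m fr k i) * (2 * fr.r + 2) := Nat.mul_le_mul_right _ h2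
      _ = (4 * fr.r + 4) * GGro_m fr k i := by ring
  exact_mod_cast h3

private theorem GGro_u_le (fr : Frame g) (k : ℕ) (i : Fin fr.r) (a : ℤ) :
    |((a % (GGro_m fr k i : ℤ) : ℤ) : ℝ)| ≤ 2 ^ (k * fr.w i) / (2 * fr.r + 2) := by
  have hm := GGro_m_pos fr k i
  have h0 : 0 ≤ a % (GGro_m fr k i : ℤ) := Int.emod_nonneg _ (by omega)
  have h1 : a % (GGro_m fr k i : ℤ) < (GGro_m fr k i : ℤ) := Int.emod_lt_of_pos _ (by omega)
  rw [abs_of_nonneg (by exact_mod_cast h0)]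
  rcases Nat.eq_zero_or_pos (2 ^ (k * fr.w i) / (2 * fr.r + 2)) with h | h
  · have h2 : GGro_m fr k i = 1 := by
      unfold GGro_m
      rw [h]
      rfl
    have h3 : a % (GGro_m fr k i : ℤ) = 0 := by
      rw [h2] at h1 ⊢
      rw [h2] at h0
      omega
    rw [h3, Int.cast_zero]
    positivity
  · have h2 : GGro_m fr k i = 2 ^ (k * fr.w i) / (2 * fr.r + 2) := max_eq_right h
    have h3 : ((GGro_m fr k i : ℕ) : ℝ) ≤ 2 ^ (k * fr.w i) / (2 * fr.r + 2) := by
      rw [h2]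
      have := @Nat.cast_div_le ℝ _ _ _ (2 ^ (k * fr.w i)) (2 * fr.r + 2)
      push_cast at this
      exact this
    have h4 : ((a % (GGro_m fr k i : ℤ) : ℤ) : ℝ) ≤ ((GGro_m fr k i : ℕ) : ℝ) := by
      exact_mod_cast h1.le
    exact h4.trans h3

/-- covering of a box by translates of the small ball -/
theorem cover (hgen : Subgroup.closure (Set.range fr.c) = ⊤) :
    ∃ C : ℕ, 1 ≤ C ∧ ∀ (k : ℕ) (R : ℝ), 1 ≤ R → ∃ Z : Finset G, (Z.card : ℝ) ≤ C * R ^ C ∧
      ∀ X : Fin fr.r → ℤ, (∀ i, |(X i : ℝ)| ≤ (R * 2 ^ k) ^ fr.w i) →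
        ∃ z ∈ Z, ∃ u : Fin fr.r → ℤ, kap fr.c X = z * kap fr.c u ∧
          (∀ i, |(u i : ℝ)| ≤ 2 ^ (k * fr.w i) / (2 * fr.r + 2)) ∧
          nul fr.c fr.w fr.D k (kap fr.c u) ≤ 1 / 2 := by
  classical
  obtain ⟨B, hB, hsize⟩ := GGro_size fr fr.D
  set K : ℝ := 2 * B * (4 * fr.r + 4) + 1 with hK
  have hK1 : 1 ≤ K := by
    have : 0 ≤ 2 * B * (4 * (fr.r : ℝ) + 4) := by positivity
    linarith
  refine ⟨⌈K ^ fr.r⌉₊ + fr.D * fr.r + 1, by omega, fun k R hR => ?_⟩
  have h2k : (1 : ℝ) ≤ 2 ^ k := one_le_pow₀ (by norm_num)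
  have hR0 : 0 < R := by linarith
  have hS : 1 ≤ R * 2 ^ k := by nlinarith
  let N : Fin fr.r → ℕ := fun i => ⌊B * (R * 2 ^ k) ^ fr.w i / GGro_m fr k i⌋₊
  let P : Finset (Fin fr.r → ℤ) := Fintype.piFinset fun i => Finset.Icc (-(N i : ℤ)) (N i)
  refine ⟨P.image fun y => kap fr.c fun i => (GGro_m fr k i : ℤ) * y i, ?_, fun X hX => ?_⟩
  · have h1 : ((P.image fun y => kap fr.c fun i => (GGro_m fr k i : ℤ) * y i).card : ℝ) ≤ P.card := by
      exact_mod_cast Finset.card_image_le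
    refine h1.trans ?_
    have h2 : (P.card : ℝ) = ∏ i, ((2 * N i + 1 : ℕ) : ℝ) := by
      rw [Fintype.card_piFinset, Nat.cast_prod]
      refine Finset.prod_congr rfl fun i _ => ?_
      rw [Int.card_Icc]
      congr 1
      omega
    rw [h2]
    have h3 : ∀ i ∈ (Finset.univ : Finset (Fin fr.r)), ((2 * N i + 1 : ℕ) : ℝ) ≤ K * R ^ fr.D := by
      intro i _
      have hm := GGro_m_pos fr k i
      have hm0 : (0 : ℝ) < GGro_m fr k i := by exact_mod_cast hm
      have h4 : ((N i : ℕ) : ℝ) ≤ B * (R * 2 ^ k) ^ fr.w i / GGro_m fr k i :=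
        Nat.floor_le (by positivity)
      have h5 : B * (R * 2 ^ k) ^ fr.w i / GGro_m fr k i ≤ B * (4 * fr.r + 4) * R ^ fr.w i := by
        rw [div_le_iff₀ hm0, mul_pow, ← pow_mul]
        have h6 := GGro_m_ge fr k i
        calc B * (R ^ fr.w i * 2 ^ (k * fr.w i)) = (B * R ^ fr.w i) * 2 ^ (k * fr.w i) := by ring
          _ ≤ (B * R ^ fr.w i) * ((4 * fr.r + 4) * GGro_m fr k i) :=
              mul_le_mul_of_nonneg_left h6 (by positivity)
          _ = _ := by ring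
      have h6 : R ^ fr.w i ≤ R ^ fr.D := pow_le_pow_right₀ hR (fr.w_le i)
      have h7 : 1 ≤ R ^ fr.D := one_le_pow₀ hR
      push_cast
      calc 2 * (N i : ℝ) + 1 ≤ 2 * (B * (4 * fr.r + 4) * R ^ fr.w i) + 1 := by linarith
        _ ≤ 2 * (B * (4 * fr.r + 4) * R ^ fr.D) + R ^ fr.D := by
            have : B * (4 * fr.r + 4) * R ^ fr.w i ≤ B * (4 * fr.r + 4) * R ^ fr.D :=
              mul_le_mul_of_nonneg_left h6 (by positivity)
            linarith
        _ = K * R ^ fr.D := by rw [hK]; ring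
    have h3' : ∏ i, ((2 * N i + 1 : ℕ) : ℝ) ≤ ∏ _i : Fin fr.r, K * R ^ fr.D :=
      Finset.prod_le_prod (fun i _ => Nat.cast_nonneg _) h3
    refine h3'.trans ?_
    rw [Finset.prod_const, Finset.card_univ, Fintype.card_fin, mul_pow, ← pow_mul]
    have h8 : K ^ fr.r ≤ ((⌈K ^ fr.r⌉₊ + fr.D * fr.r + 1 : ℕ) : ℝ) := by
      refine (Nat.le_ceil (K ^ fr.r)).trans ?_
      exact_mod_cast (by omega : ⌈K ^ fr.r⌉₊ ≤ ⌈K ^ fr.r⌉₊ + fr.D * fr.r + 1)
    have h9 : R ^ (fr.D * fr.r) ≤ R ^ (⌈K ^ fr.r⌉₊ + fr.D * fr.r + 1) :=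
      pow_le_pow_right₀ hR (by omega)
    exact mul_le_mul h8 h9 (by positivity) (by positivity)
  · obtain ⟨Z, u, hZu⟩ := GGro_rec fr (fun i => (GGro_m fr k i : ℤ)) X
    have hu : ∀ i, |(u i : ℝ)| ≤ 2 ^ (k * fr.w i) / (2 * fr.r + 2) := fun i => by
      rw [(hZu i).1]
      exact GGro_u_le fr k i _
    have hu' : ∀ i, |(u i : ℝ)| ≤ (R * 2 ^ k) ^ fr.w i := fun i => by
      refine (hu i).trans ?_
      rw [mul_pow, ← pow_mul]
      have h1 : (1 : ℝ) ≤ R ^ fr.w i := one_le_pow₀ hR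
      have h2 : (0 : ℝ) ≤ 2 ^ (k * fr.w i) := by positivity
      calc (2 : ℝ) ^ (k * fr.w i) / (2 * fr.r + 2) ≤ 2 ^ (k * fr.w i) := by
            refine div_le_self h2 ?_
            have : (0 : ℝ) ≤ fr.r := Nat.cast_nonneg _
            linarith
        _ ≤ R ^ fr.w i * 2 ^ (k * fr.w i) := by nlinarith
    have hZ := hsize (R * 2 ^ k) X Z u hS hX hu' (fun i => (hZu i).2)
    have hdvd : ∀ i, (GGro_m fr k i : ℤ) ∣ Z i := fun i => by
      rw [(hZu i).2, (hZu i).1]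
      exact Int.dvd_self_sub_emod
    choose y hy using hdvd
    have hXe : kap fr.c X = kap fr.c Z * kap fr.c u := by
      rw [fr.mul]
      congr 1
      funext i
      rw [Pi.add_apply, Pi.add_apply, (hZu i).2]
      ring
    refine ⟨kap fr.c Z, ?_, u, hXe, hu, ?_⟩
    · rw [Finset.mem_image]
      refine ⟨y, ?_, ?_⟩
      · rw [Fintype.mem_piFinset]
        intro i
        have hm := GGro_m_pos fr k i
        have hm0 : (0 : ℝ) < GGro_m fr k i := by exact_mod_cast hm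
        have h1 : |(y i : ℝ)| ≤ B * (R * 2 ^ k) ^ fr.w i / GGro_m fr k i := by
          rw [le_div_iff₀ hm0]
          have h2 := hZ i (fr.w_le i)
          rw [hy i, Int.cast_mul, abs_mul, Int.cast_natCast, abs_of_pos hm0] at h2
          linarith
        have h2 : (y i).natAbs ≤ N i := by
          refine Nat.le_floor ?_
          rw [Nat.cast_natAbs, Int.cast_abs]
          exact h1
        rw [Finset.mem_Icc]
        omega
      · congr 1
        funext i
        exact (hy i).symm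
    · refine (nul_kap hgen fr.w_le k u).trans ?_
      have h1 : ∀ i ∈ (Finset.univ : Finset (Fin fr.r)), |(u i : ℝ)| / 2 ^ (k * fr.w i) ≤
          1 / (2 * fr.r + 2) := by
        intro i _
        rw [div_le_iff₀ (by positivity)]
        refine (hu i).trans (le_of_eq ?_)
        ring
      refine (Finset.sum_le_card_nsmul _ _ _ h1).trans ?_
      rw [Finset.card_univ, Fintype.card_fin, nsmul_eq_mul, mul_one_div, div_le_div_iff₀ (by positivity) (by norm_num)]
      linarith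

end NPG
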