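import Pool.Agent.NPG.GWlS
import Pool.Agent.NPG.GGro

set_option autoImplicit false

/-!
# NPG / GGeo : the geometry of the finite quotients

PROOF of `growthA`: if `nul r0 ≥` length of `y ∈ A` take the preimage `x` of `nul_lift`; `nul_coord`, `cover` with
`R = C (1 + r0)`: `y ∈ φ z * {nul ≤ 1/2}` (`nul_map`), so the ball of radius `r0` is covered by `C' R^(C')` left translates
of `{nul ≤ 1/2}`; a left translate has the same cardinality.  `vol_succ`: `nul (k+1) y ≤ 1/2` gives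
`|X i| ≤ (C 2^(k+1))^w`, cover at level `k`.
PROOF of `geo_of`: `nul_nonneg`, `nul_one`, `nul_inv`, `nul_mul`, `nul_up` in `A` (`c' = φ ∘ c` generates `A` because `φ` is
surjective).  `s_le`, ...: take the preimage of `x` from `nul_lift`, apply `nul_sig` (`s^j (φ x) = φ (σ^(-j) x)`),
`nul_conj` (`th j = φ (g j)⁻¹`), `nul_g` in `G`, and `nul_map`.
PROOF of `Geo.sw'`: `M.sw.s = M.aT 1`, `(M.aT 1)^j = M.aT j = M.s^j * conj (th j)` (`aT_one_pow`), `M.sw.th j = (th j)⁻¹`;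
`(M.aT j)⁻¹ x = (th j)⁻¹ * (M.s^j)⁻¹ x * th j`.
-/

namespace NPG
open Finset Pool.Nil

/-- covering by left translates -/
private theorem GGeo_cov {G A : Type} [Group A] [Fintype A] (φ : G → A) (Z : Finset G) {P Q : A → Prop}
    (h : ∀ y, P y → ∃ z ∈ Z, ∃ b, Q b ∧ y = φ z * b) :
    (Nat.card {y : A // P y} : ℝ) ≤ (Z.card : ℝ) * Nat.card {y : A // Q y} := by
  classical
  choose z hz b hb hy using h
  have h1 : Function.Injective (fun y : {y : A // P y} =>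
      ((⟨z y.1 y.2, hz y.1 y.2⟩, ⟨b y.1 y.2, hb y.1 y.2⟩) : Z × {y : A // Q y})) := by
    intro y1 y2 h12
    rw [Prod.mk.injEq, Subtype.mk.injEq, Subtype.mk.injEq] at h12
    apply Subtype.ext
    rw [hy y1.1 y1.2, hy y2.1 y2.2, h12.1, h12.2]
  have h2 := Nat.card_le_card_of_injective _ h1
  have h3 : Nat.card Z = Z.card := by
    rw [Nat.card_eq_fintype_card, Fintype.card_coe]
  rw [Nat.card_prod, h3] at h2
  exact_mod_cast h2

private theorem GGeo_gen {G A : Type} [Group G] [Group A] {r : ℕ} {c : Fin r → G}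
    (hgen : Subgroup.closure (Set.range c) = ⊤) (φ : G →* A) (hφ : Function.Surjective φ) :
    Subgroup.closure (Set.range fun i => φ (c i)) = ⊤ := by
  have h1 : (Set.range fun i => φ (c i)) = φ '' Set.range c := by
    rw [← Set.range_comp]
    rfl
  rw [h1, ← MonoidHom.map_closure, hgen, Subgroup.map_top_of_surjective φ hφ]

theorem growthA {G : Type} [Group G] {g : ℤ → G} (fr : Frame g)
    (hgen : Subgroup.closure (Set.range fr.c) = ⊤) : ∃ C : ℕ, 1 ≤ C ∧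
    ∀ (A : Type) [Group A] [Fintype A] (φ : G →* A), Function.Surjective φ →
      (∀ (k : ℕ) (r0 : ℝ), 1 ≤ r0 →
        (Nat.card {x : A // nul (fun i => φ (fr.c i)) fr.w fr.D k x ≤ r0} : ℝ) ≤
          C * r0 ^ C * Nat.card {x : A // nul (fun i => φ (fr.c i)) fr.w fr.D k x ≤ 1 / 2}) ∧
      ∀ k : ℕ, (Nat.card {x : A // nul (fun i => φ (fr.c i)) fr.w fr.D (k + 1) x ≤ 1 / 2} : ℝ) ≤
          C * Nat.card {x : A // nul (fun i => φ (fr.c i)) fr.w fr.D k x ≤ 1 / 2} := by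
  obtain ⟨C1, hC1, hco⟩ := nul_coord fr hgen
  obtain ⟨C2, hC2, hcov⟩ := cover fr hgen
  have hC2' : (1 : ℝ) ≤ C2 := by exact_mod_cast hC2
  have h3 : (1 : ℝ) ≤ (3 * C1) ^ C2 := one_le_pow₀ (by linarith)
  have hK : (C2 : ℝ) * (3 * C1) ^ C2 ≤ ⌈(C2 : ℝ) * (3 * C1) ^ C2⌉₊ := Nat.le_ceil _
  have hK1 : (C2 : ℝ) ≤ ⌈(C2 : ℝ) * (3 * C1) ^ C2⌉₊ := by nlinarith
  have hK2 : C2 ≤ ⌈(C2 : ℝ) * (3 * C1) ^ C2⌉₊ := by exact_mod_cast hK1
  refine ⟨⌈(C2 : ℝ) * (3 * C1) ^ C2⌉₊, le_trans hC2 hK2, ?_⟩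
  set K : ℕ := ⌈(C2 : ℝ) * (3 * C1) ^ C2⌉₊
  intro A _ _ φ hφ
  constructor
  · intro k r0 hr0
    obtain ⟨Z, hZ, hZ2⟩ := hcov k (C1 * (1 + r0)) (by nlinarith)
    refine (GGeo_cov φ Z (Q := fun x => nul (fun i => φ (fr.c i)) fr.w fr.D k x ≤ 1 / 2) ?_).trans ?_
    · intro y hy
      obtain ⟨x, rfl, hx⟩ := nul_lift hgen φ hφ k y
      obtain ⟨X, rfl, hX⟩ := hco k r0 (by linarith) x (hx.trans hy)
      obtain ⟨z, hz, u, hu, -, hu2⟩ := hZ2 X hX
      refine ⟨z, hz, φ (kap fr.c u), (nul_map hgen φ k _).trans hu2, ?_⟩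
      rw [hu, map_mul]
    · refine mul_le_mul_of_nonneg_right (hZ.trans ?_) (Nat.cast_nonneg _)
      have h4 : (C1 * (1 + r0)) ^ C2 ≤ (3 * C1) ^ C2 * r0 ^ C2 := by
        rw [← mul_pow]
        refine pow_le_pow_left₀ (by nlinarith) ?_ _
        nlinarith
      have h5 : r0 ^ C2 ≤ r0 ^ K := pow_le_pow_right₀ hr0 hK2
      calc (C2 : ℝ) * (C1 * (1 + r0)) ^ C2 ≤ C2 * ((3 * C1) ^ C2 * r0 ^ C2) :=
            mul_le_mul_of_nonneg_left h4 (by linarith)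
        _ = (C2 * (3 * C1) ^ C2) * r0 ^ C2 := by ring
        _ ≤ K * r0 ^ K := mul_le_mul hK h5 (by positivity) (Nat.cast_nonneg _)
  · intro k
    obtain ⟨Z, hZ, hZ2⟩ := hcov k (3 * C1) (by linarith)
    refine (GGeo_cov φ Z (Q := fun x => nul (fun i => φ (fr.c i)) fr.w fr.D k x ≤ 1 / 2) ?_).trans ?_
    · intro y hy
      obtain ⟨x, rfl, hx⟩ := nul_lift hgen φ hφ (k + 1) y
      obtain ⟨X, rfl, hX⟩ := hco (k + 1) (1 / 2) (by norm_num) x (hx.trans hy)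
      obtain ⟨z, hz, u, hu, -, hu2⟩ := hZ2 X (fun i => by
        refine (hX i).trans (le_of_eq ?_)
        congr 1
        rw [pow_succ]
        ring)
      refine ⟨z, hz, φ (kap fr.c u), (nul_map hgen φ k _).trans hu2, ?_⟩
      rw [hu, map_mul]
    · exact mul_le_mul_of_nonneg_right (hZ.trans hK) (Nat.cast_nonneg _)

theorem geo_of {G : Type} [Group G] {σ : MulAut G} {g : ℤ → G} (sf : SFr σ g) :
    ∃ C : ℕ, 1 ≤ C ∧ ∀ (A : Type) [Group A] [Fintype A] (φ : G →* A) (_ : Function.Surjective φ)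
      (s : MulAut A) (hs : ∀ x, s (φ (σ x)) = φ x),
      Geo (mkMod sf φ s hs) (nul (fun i => φ (sf.fr.c i)) sf.fr.w sf.fr.D) C := by
  obtain ⟨Cg, hCg, hgr⟩ := growthA sf.fr sf.gen
  obtain ⟨C1, hC1, h1⟩ := nul_sig sf
  obtain ⟨C2, hC2, h2⟩ := nul_conj sf
  obtain ⟨C3, hC3, h3⟩ := nul_g sf
  refine ⟨Cg + ⌈C1⌉₊ + ⌈C2⌉₊ + ⌈C3⌉₊, by omega, ?_⟩
  intro A _ _ φ hφ s hs
  have hgen' := GGeo_gen sf.gen φ hφ
  set K : ℕ := Cg + ⌈C1⌉₊ + ⌈C2⌉₊ + ⌈C3⌉₊ with hKdef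
  have hKr : (K : ℝ) = Cg + ⌈C1⌉₊ + ⌈C2⌉₊ + ⌈C3⌉₊ := by
    rw [hKdef]
    push_cast
    ring
  have e1 := Nat.le_ceil C1
  have e2 := Nat.le_ceil C2
  have e3 := Nat.le_ceil C3
  have e0 : (0 : ℝ) ≤ Cg := Nat.cast_nonneg _
  have e1' : (0 : ℝ) ≤ ⌈C1⌉₊ := Nat.cast_nonneg _
  have e2' : (0 : ℝ) ≤ ⌈C2⌉₊ := Nat.cast_nonneg _
  have e3' : (0 : ℝ) ≤ ⌈C3⌉₊ := Nat.cast_nonneg _
  have k0 : (Cg : ℝ) ≤ K := by linarith
  have k0' : Cg ≤ K := by exact_mod_cast k0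
  have k1 : C1 ≤ K := by linarith
  have k2 : C2 ≤ K := by linarith
  have k3 : C3 ≤ K := by linarith
  obtain ⟨g1, g2⟩ := hgr A φ hφ
  -- transport of a bound in `G`
  have tr : ∀ (k : ℕ) (C : ℝ) (f : G → G) (F : A → A), 0 ≤ C → C ≤ K → (∀ x, F (φ x) = φ (f x)) →
      (∀ x, nul sf.fr.c sf.fr.w sf.fr.D k (f x) ≤ C * nul sf.fr.c sf.fr.w sf.fr.D k x) → ∀ y : A,
      nul (fun i => φ (sf.fr.c i)) sf.fr.w sf.fr.D k (F y) ≤
        K * nul (fun i => φ (sf.fr.c i)) sf.fr.w sf.fr.D k y := by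
    intro k C f F hC0 hCK hF hf y
    obtain ⟨x, rfl, hx⟩ := nul_lift sf.gen φ hφ k y
    rw [hF]
    refine (nul_map sf.gen φ k (f x)).trans ((hf x).trans ?_)
    exact mul_le_mul hCK hx (nul_nonneg k x) (by linarith)
  refine
    { one_le := by omega
      nonneg := fun k x => nul_nonneg k x
      one := fun k => nul_one k
      inv := fun k x => nul_inv k x
      mul := fun k x y => nul_mul hgen' k x y
      up := fun k x => nul_up hgen' sf.fr.one_le_w sf.fr.w_le k x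
      s_le := ?_
      s_inv_le := ?_
      conj_le := ?_
      conj_inv_le := ?_
      th_le := ?_
      growth := ?_
      vol_succ := ?_ }
  · intro k j hj
    refine tr k C1 (fun x => (σ ^ (-(j : ℤ))) x) (fun y => (s ^ j) y) (by linarith) k1 ?_ ?_
    · intro x
      have h4 := pow_sig hs j ((σ ^ (-(j : ℤ))) x)
      rw [← zpow_natCast σ j, ← MulAut.mul_apply, ← zpow_add, add_neg_cancel, zpow_zero, MulAut.one_apply] at h4
      exact h4
    · intro x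
      refine h1 k (-(j : ℤ)) ?_ x
      rw [abs_neg, Nat.abs_cast]
      exact_mod_cast hj
  · intro k j hj
    refine tr k C1 (fun x => (σ ^ (j : ℤ)) x) (fun y => (s ^ j)⁻¹ y) (by linarith) k1 ?_ ?_
    · intro x
      show (s ^ j)⁻¹ (φ x) = φ ((σ ^ (j : ℤ)) x)
      rw [MulAut.inv_apply, MulEquiv.symm_apply_eq, zpow_natCast, pow_sig hs]
    · intro x
      refine h1 k (j : ℤ) ?_ x
      rw [Nat.abs_cast]
      exact_mod_cast hj
  · intro k j hj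
    refine tr k C2 (fun x => (g j)⁻¹ * x * g j) (fun y => (φ (g j))⁻¹ * y * ((φ (g j))⁻¹)⁻¹) (by linarith) k2 ?_ ?_
    · intro x
      simp only [map_mul, map_inv, inv_inv]
    · intro x
      refine (h2 k (j : ℤ) ?_ x).2
      rw [Nat.abs_cast]
      exact_mod_cast hj
  · intro k j hj
    refine tr k C2 (fun x => g j * x * (g j)⁻¹) (fun y => ((φ (g j))⁻¹)⁻¹ * y * (φ (g j))⁻¹) (by linarith) k2 ?_ ?_
    · intro x
      simp only [map_mul, map_inv, inv_inv]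
    · intro x
      refine (h2 k (j : ℤ) ?_ x).1
      rw [Nat.abs_cast]
      exact_mod_cast hj
  · intro k j hj
    show nul (fun i => φ (sf.fr.c i)) sf.fr.w sf.fr.D k (φ (g (j : ℤ)))⁻¹ ≤ K
    rw [nul_inv]
    refine (nul_map sf.gen φ k _).trans ((h3 k (j : ℤ) ?_).trans k3)
    rw [Nat.abs_cast]
    exact_mod_cast hj
  · intro k r0 hr0
    refine (g1 k r0 hr0).trans (mul_le_mul_of_nonneg_right ?_ (Nat.cast_nonneg _))
    exact mul_le_mul k0 (pow_le_pow_right₀ hr0 k0') (by positivity) (by linarith)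
  · intro k
    exact (g2 k).trans (mul_le_mul_of_nonneg_right k0 (Nat.cast_nonneg _))

end NPG
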