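import Pool.Agent.NPG.GGro

set_option autoImplicit false

/-!
# NPG / GKd : the kernels in a finite quotient

`kka φ k b d x` = probability that `φ ((kap y')⁻¹ * kap y) = x`, `y = mo t`, `y' = mo t'`, `t`, `t'` independent and
uniform in `bx (Mb k b d)`.

PROOFS.  `kka_basic`: counting; symmetry: exchange `t` and `t'` (`zz (t, t') ⁻¹ = zz (t', t)`).
`kka_psd`: `kka x = sum_y mu y * mu (y * x)` with `mu y = #{t | φ (kap (mo t)) = y} / card`, so
`sum_v f v * sum_x kka x * f (x * v) = sum_v (sum_y mu y * f (y⁻¹ ... v))^2`-like: precisely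
`sum_x kka x f (x v) = E_(t,t') f (φ(kap t')⁻¹ φ(kap t) v)`; substitute `v -> φ(kap t)⁻¹ v`: the sum over `v` is
`sum_v (E_t f (φ(kap t)⁻¹ v))^2` (`b` applied to `f`).
`kka_zero`: for `k = 0`, `b ≥ 1` all sides are `1 / (2^b mo) = 0`, the box is `{0}`, `kap 0 = 1`.
`kka_supp`: `|mo t_i| ≤ 2^(-b) 2^(k w_i)`, `nul_kap`, `nul_mul`, `nul_inv`, `nul_map`: `nul ≤ 2 r 2^(-b) ≤ 1`.
`kka_bound`: it is enough to bound `mu y`.  Let `B0 = {kap u : |u i| ≤ 2^(k w_i) / (2 r + 2)}` (as in `cover`).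
For `z = kap u ∈ B0` the map `s ↦ s + u + p s u` is injective (recursion on the weight, `psi_inj`) and
`kap s * z = kap (s + u + p s u)`; for `|s i| ≤ 2^(k w_i)` the new coordinates are `≤ (2 + C0) 2^(k w_i)` (`p_size`).  So
`#{s : |s i| ≤ 2^(k w_i), φ (kap s) = y} ≤ #{s : |s i| ≤ (2 + C0) 2^(k w_i), φ (kap s) = y * φ z}`; sum over the distinct
values `φ z`: `#φ(B0) * #{s ..., φ (kap s) = y} ≤ ∏ (2 (2 + C0) 2^(k w_i) + 1)`.  `t ↦ mo t` is injective from the box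
into `{|s i| ≤ 2^(k w_i)}`; `card bx ≥ ∏ 2^(k w_i) / (2^b mo_i)` (`le_two_floor`), `mo_i ≤ W^D d`.  So
`mu y ≤ (C 2^b d)^C / #φ(B0)`.  `nul_coord` with `r0 = 1/2` and `cover` (`R = 3 C / 2`): the ball `{nul ≤ 1/2}` of `A` is
covered by `C'` translates of `φ(B0)`, so `#{nul ≤ 1/2} ≤ C' #φ(B0)` (`nul_lift`).
-/

namespace NPG
open Finset Pool.Nil

variable {G : Type} [Group G] {g : ℤ → G} (fr : Frame g)

namespace KdAux

open Classical in
lemma kka_eq {A : Type} (φ : G → A) (k b d : ℕ) (x : A) :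
    kka fr φ k b d x =
      (((bx (Mb fr k b d) ×ˢ bx (Mb fr k b d)).filter fun p => φ (zz fr d p) = x).card : ℝ) /
        ((bx (Mb fr k b d)).card : ℝ) ^ 2 := by
  unfold kka
  congr 2
  refine Nat.subtype_card _ fun p => ?_
  rw [mem_filter, mem_product, and_assoc]

lemma card_pos (k b d : ℕ) : (0 : ℝ) < ((bx (Mb fr k b d)).card : ℝ) := by
  exact_mod_cast (bx_nonempty _).card_pos

/-- the elements of the box -/
def yy (d : ℕ) (t : Fin fr.r → ℤ) : G := kap fr.c (fun i => (fr.mo d i : ℤ) * t i)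

lemma zz_eq (d : ℕ) (p : (Fin fr.r → ℤ) × (Fin fr.r → ℤ)) :
    zz fr d p = (yy fr d p.2)⁻¹ * yy fr d p.1 := rfl

lemma sum_kka {A : Type} [Fintype A] (φ : G → A) (k b d : ℕ) (F : A → ℝ) :
    ∑ x, kka fr φ k b d x * F x =
      (∑ p ∈ bx (Mb fr k b d) ×ˢ bx (Mb fr k b d), F (φ (zz fr d p))) /
        ((bx (Mb fr k b d)).card : ℝ) ^ 2 := by
  classical
  rw [← Finset.sum_fiberwise (bx (Mb fr k b d) ×ˢ bx (Mb fr k b d)) (fun p => φ (zz fr d p))
    (fun p => F (φ (zz fr d p))), Finset.sum_div]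
  refine Finset.sum_congr rfl fun x _ => ?_
  rw [kka_eq, Finset.sum_congr rfl (g := fun _ => F x)
    (fun p hp => by rw [(mem_filter.1 hp).2]), sum_const, nsmul_eq_mul]
  ring

end KdAux

open KdAux

theorem kka_basic {A : Type} [Group A] [Fintype A] (φ : G →* A) (k b d : ℕ) :
    (∀ x, 0 ≤ kka fr φ k b d x) ∧ ∑ x, kka fr φ k b d x = 1 ∧
      ∀ x, kka fr φ k b d x⁻¹ = kka fr φ k b d x := by
  classical
  refine ⟨fun x => by unfold kka; positivity, ?_, fun x => ?_⟩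
  · have h := sum_kka fr φ k b d (fun _ => 1)
    simp only [mul_one] at h
    have hc := card_pos fr k b d
    rw [h, sum_const, card_product, nsmul_eq_mul, mul_one, Nat.cast_mul, ← sq, div_self]
    positivity
  · rw [kka_eq, kka_eq]
    congr 2
    have hz : ∀ p : (Fin fr.r → ℤ) × (Fin fr.r → ℤ), φ (zz fr d p.swap) = (φ (zz fr d p))⁻¹ :=
      fun p => by
        rw [zz_eq, zz_eq, ← map_inv, mul_inv_rev, inv_inv, Prod.snd_swap, Prod.fst_swap]
    refine Finset.card_bij' (fun p _ => p.swap) (fun p _ => p.swap) ?_ ?_ (fun p _ => rfl)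
      (fun p _ => rfl)
    · intro p hp
      rw [mem_filter, mem_product] at hp ⊢
      exact ⟨⟨hp.1.2, hp.1.1⟩, by rw [hz, hp.2, inv_inv]⟩
    · intro p hp
      rw [mem_filter, mem_product] at hp ⊢
      exact ⟨⟨hp.1.2, hp.1.1⟩, by rw [hz, hp.2]⟩

theorem kka_psd {A : Type} [Group A] [Fintype A] (φ : G →* A) (k b d : ℕ) (f : A → ℝ) :
    0 ≤ ∑ v, f v * ∑ x, kka fr φ k b d x * f (x * v) := by
  have e : ∑ v, f v * ∑ x, kka fr φ k b d x * f (x * v) =
      (∑ v, (∑ t ∈ bx (Mb fr k b d), f ((φ (yy fr d t))⁻¹ * v)) ^ 2) /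
        ((bx (Mb fr k b d)).card : ℝ) ^ 2 := by
    have h1 : ∀ v, f v * ∑ x, kka fr φ k b d x * f (x * v) =
        (∑ p ∈ bx (Mb fr k b d) ×ˢ bx (Mb fr k b d), f v * f (φ (zz fr d p) * v)) /
          ((bx (Mb fr k b d)).card : ℝ) ^ 2 := fun v => by
      rw [sum_kka fr φ k b d (fun x => f (x * v)), ← mul_div_assoc, Finset.mul_sum]
    rw [Finset.sum_congr rfl fun v _ => h1 v, ← Finset.sum_div, Finset.sum_comm]
    congr 1
    have h2 : ∀ p : (Fin fr.r → ℤ) × (Fin fr.r → ℤ), ∑ v, f v * f (φ (zz fr d p) * v) =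
        ∑ v, f ((φ (yy fr d p.1))⁻¹ * v) * f ((φ (yy fr d p.2))⁻¹ * v) := fun p => by
      rw [← Equiv.sum_comp (Equiv.mulLeft (φ (yy fr d p.1))⁻¹)
        (fun v => f v * f (φ (zz fr d p) * v))]
      refine Finset.sum_congr rfl fun v _ => ?_
      simp only [Equiv.coe_mulLeft]
      congr 2
      rw [zz_eq, map_mul, map_inv]
      group
    rw [Finset.sum_congr rfl fun p _ => h2 p, Finset.sum_comm]
    refine Finset.sum_congr rfl fun v _ => ?_
    rw [sq, Finset.sum_mul_sum, ← Finset.sum_product']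
  rw [e]
  positivity

theorem kka_zero {A : Type} [Group A] [Fintype A] (φ : G →* A) (b d : ℕ) (hb : 1 ≤ b)
    (hd : 1 ≤ d) (x : A) :
    kka fr φ 0 b d x = @ite ℝ (x = 1) (Classical.propDecidable _) 1 0 := by
  classical
  have hM : Mb fr 0 b d = 0 := by
    funext i
    have h1 : 1 ≤ fr.mo d i := RepAux.mo_pos fr hd i
    have h2 : 2 ^ 1 ≤ 2 ^ b := Nat.pow_le_pow_right (by norm_num) hb
    unfold Mb
    rw [zero_mul, pow_zero, Pi.zero_apply]
    exact Nat.div_eq_of_lt (by nlinarith)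
  have hB : bx (Mb fr 0 b d) = {0} := by
    rw [hM]
    ext t
    rw [mem_bx, mem_singleton]
    constructor
    · intro h
      funext i
      have := h i
      simpa using this
    · rintro rfl i
      simp
  have h1 : φ (zz fr d ((0 : Fin fr.r → ℤ), (0 : Fin fr.r → ℤ))) = 1 := by
    rw [zz_eq, inv_mul_cancel, map_one]
  rw [kka_eq, hB, singleton_product_singleton, filter_singleton, h1]
  by_cases hx : x = 1
  · rw [if_pos hx, if_pos hx.symm]
    simp
  · rw [if_neg hx, if_neg (fun h => hx h.symm)]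
    simp

namespace KdAux

/-- sizes in the box -/
lemma box_le {k b d : ℕ} {t : Fin fr.r → ℤ} (ht : t ∈ bx (Mb fr k b d))
    (i : Fin fr.r) : |(((fr.mo d i : ℤ) * t i : ℤ) : ℝ)| ≤ 2 ^ (k * fr.w i) / 2 ^ b := by
  have h1 := mem_bx.1 ht i
  have h2 : Mb fr k b d i * (2 ^ b * fr.mo d i) ≤ 2 ^ (k * fr.w i) := Nat.div_mul_le_self _ _
  have h3 : |(t i : ℝ)| ≤ Mb fr k b d i := by exact_mod_cast h1
  have h4 : (0 : ℝ) ≤ fr.mo d i := Nat.cast_nonneg _
  rw [le_div_iff₀ (by positivity), Int.cast_mul, Int.cast_natCast, abs_mul, abs_of_nonneg h4]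
  calc (fr.mo d i : ℝ) * |(t i : ℝ)| * 2 ^ b ≤ (fr.mo d i : ℝ) * Mb fr k b d i * 2 ^ b :=
        mul_le_mul_of_nonneg_right (mul_le_mul_of_nonneg_left h3 h4) (by positivity)
    _ = ((Mb fr k b d i * (2 ^ b * fr.mo d i) : ℕ) : ℝ) := by push_cast; ring
    _ ≤ ((2 ^ (k * fr.w i) : ℕ) : ℝ) := by exact_mod_cast h2
    _ = _ := by push_cast; rfl

lemma nul_yy (hgen : Subgroup.closure (Set.range fr.c) = ⊤) {k b d : ℕ}
    {t : Fin fr.r → ℤ} (ht : t ∈ bx (Mb fr k b d)) :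
    nul fr.c fr.w fr.D k (yy fr d t) ≤ fr.r / 2 ^ b := by
  refine (nul_kap hgen fr.w_le k _).trans ?_
  calc ∑ i, |(((fr.mo d i : ℤ) * t i : ℤ) : ℝ)| / 2 ^ (k * fr.w i)
      ≤ ∑ _i : Fin fr.r, (1 : ℝ) / 2 ^ b := Finset.sum_le_sum fun i _ => by
        rw [div_le_iff₀ (by positivity)]
        refine (box_le fr ht i).trans (le_of_eq ?_)
        ring
    _ = fr.r / 2 ^ b := by
        rw [sum_const, card_univ, Fintype.card_fin, nsmul_eq_mul]
        ring

end KdAux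

theorem kka_supp (hgen : Subgroup.closure (Set.range fr.c) = ⊤) :
    ∃ b0 : ℕ, ∀ (A : Type) [Group A] [Fintype A] (φ : G →* A), Function.Surjective φ →
      ∀ k b d : ℕ, b0 ≤ b → 1 ≤ d → ∀ x : A, kka fr φ k b d x ≠ 0 →
        nul (fun i => φ (fr.c i)) fr.w fr.D k x ≤ 1 := by
  classical
  refine ⟨2 * fr.r, fun A _ _ φ _ k b d hb hd x hx => ?_⟩
  rw [kka_eq] at hx
  obtain ⟨p, hp⟩ : ((bx (Mb fr k b d) ×ˢ bx (Mb fr k b d)).filter
      fun p => φ (zz fr d p) = x).Nonempty := by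
    by_contra h
    rw [Finset.not_nonempty_iff_eq_empty] at h
    rw [h] at hx
    simp at hx
  rw [mem_filter, mem_product] at hp
  have h1 : 2 * (fr.r : ℝ) ≤ 2 ^ b := by
    have h : 2 * fr.r ≤ 2 ^ b :=
      (Nat.lt_two_pow_self.le).trans (Nat.pow_le_pow_right (by norm_num) hb)
    exact_mod_cast h
  rw [← hp.2]
  calc nul (fun i => φ (fr.c i)) fr.w fr.D k (φ (zz fr d p))
      ≤ nul fr.c fr.w fr.D k (zz fr d p) := nul_map hgen φ k _
    _ ≤ nul fr.c fr.w fr.D k (yy fr d p.2)⁻¹ + nul fr.c fr.w fr.D k (yy fr d p.1) :=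
        nul_mul hgen k _ _
    _ ≤ fr.r / 2 ^ b + fr.r / 2 ^ b :=
        add_le_add (by rw [nul_inv]; exact nul_yy fr hgen hp.1.2) (nul_yy fr hgen hp.1.1)
    _ ≤ 1 := by
        rw [← add_div, div_le_one (by positivity)]
        linarith

namespace KdAux

lemma mem_fl {r : ℕ} {a : Fin r → ℝ} (ha : ∀ i, 0 ≤ a i) {t : Fin r → ℤ} :
    t ∈ bx (fun i => ⌊a i⌋₊) ↔ ∀ i, |(t i : ℝ)| ≤ a i := by
  rw [mem_bx]
  refine forall_congr' fun i => ?_
  have h1 : |(t i : ℝ)| = ((t i).natAbs : ℝ) := by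
    rw [Nat.cast_natAbs, Int.cast_abs]
  rw [h1, ← Nat.le_floor_iff (ha i), Int.abs_eq_natAbs]
  exact Int.ofNat_le

/-- sides of the small box -/
noncomputable def bu (k : ℕ) : Fin fr.r → ℝ := fun i => 2 ^ (k * fr.w i) / (2 * fr.r + 2)

/-- the small box -/
noncomputable def Ub (k : ℕ) : Finset (Fin fr.r → ℤ) := bx (fun i => ⌊bu fr k i⌋₊)

/-- sides of the large box -/
noncomputable def bl (k : ℕ) : Fin fr.r → ℝ := fun i => (2 + fr.C0) * 2 ^ (k * fr.w i)

/-- the large box -/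
noncomputable def Lb (k : ℕ) : Finset (Fin fr.r → ℤ) := bx (fun i => ⌊bl fr k i⌋₊)

lemma bu_nonneg (k : ℕ) (i : Fin fr.r) : 0 ≤ bu fr k i := by
  unfold bu
  positivity

lemma bl_nonneg (k : ℕ) (i : Fin fr.r) : 0 ≤ bl fr k i := by
  have := fr.one_le_C0
  unfold bl
  positivity

lemma mem_Ub {k : ℕ} {u : Fin fr.r → ℤ} :
    u ∈ Ub fr k ↔ ∀ i, |(u i : ℝ)| ≤ 2 ^ (k * fr.w i) / (2 * fr.r + 2) :=
  mem_fl (bu_nonneg fr k)

lemma mem_Lb {k : ℕ} {u : Fin fr.r → ℤ} :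
    u ∈ Lb fr k ↔ ∀ i, |(u i : ℝ)| ≤ (2 + fr.C0) * 2 ^ (k * fr.w i) :=
  mem_fl (bl_nonneg fr k)

lemma card_Lb (k : ℕ) : ((Lb fr k).card : ℝ) ≤
    (5 + 2 * fr.C0) ^ fr.r * ∏ i, (2 : ℝ) ^ (k * fr.w i) := by
  have hC0 := fr.one_le_C0
  unfold Lb
  rw [BoxAux.card_bx]
  push_cast
  calc ∏ i, (2 * (⌊bl fr k i⌋₊ : ℝ) + 1)
      ≤ ∏ i : Fin fr.r, (5 + 2 * fr.C0) * (2 : ℝ) ^ (k * fr.w i) :=
        Finset.prod_le_prod (fun i _ => by positivity) fun i _ => by
          have h1 := Nat.floor_le (bl_nonneg fr k i)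
          have h2 : (1 : ℝ) ≤ 2 ^ (k * fr.w i) := one_le_pow₀ (by norm_num)
          have h3 : bl fr k i = (2 + fr.C0) * 2 ^ (k * fr.w i) := rfl
          have h4 : (⌊bl fr k i⌋₊ : ℝ) ≤ (2 + fr.C0) * 2 ^ (k * fr.w i) := h1.trans h3.le
          linarith
    _ = _ := by
        rw [Finset.prod_mul_distrib, Finset.prod_const, Finset.card_univ, Fintype.card_fin]

lemma le_card_bx {k b d : ℕ} (hd : 1 ≤ d) : ∏ i, (2 : ℝ) ^ (k * fr.w i) ≤
    ((2 : ℝ) ^ b * (fr.W ^ fr.D * d)) ^ fr.r * (bx (Mb fr k b d)).card := by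
  have hW : 1 ≤ fr.W := fr.W_pos
  rw [BoxAux.card_bx]
  push_cast
  calc ∏ i, (2 : ℝ) ^ (k * fr.w i)
      ≤ ∏ i : Fin fr.r, ((2 : ℝ) ^ b * (fr.W ^ fr.D * d)) * (2 * (Mb fr k b d i : ℝ) + 1) :=
        Finset.prod_le_prod (fun i _ => by positivity) fun i _ => by
          have hm : 1 ≤ fr.mo d i := RepAux.mo_pos fr hd i
          have hm' : (0 : ℝ) < fr.mo d i := by exact_mod_cast hm
          have h1 : fr.mo d i ≤ fr.W ^ fr.D * d :=
            Nat.mul_le_mul_right _ (Nat.pow_le_pow_right hW (Nat.sub_le _ _))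
          have h1' : (fr.mo d i : ℝ) ≤ fr.W ^ fr.D * d := by exact_mod_cast h1
          have h2 : 2 ^ (k * fr.w i) < (Mb fr k b d i + 1) * (2 ^ b * fr.mo d i) :=
            Nat.lt_mul_of_div_lt (Nat.lt_succ_self _) (by positivity)
          have h2' : (2 : ℝ) ^ (k * fr.w i) < (Mb fr k b d i + 1) * (2 ^ b * fr.mo d i) := by
            exact_mod_cast h2
          have h3 : (0 : ℝ) ≤ Mb fr k b d i := Nat.cast_nonneg _
          calc (2 : ℝ) ^ (k * fr.w i) ≤ (Mb fr k b d i + 1) * (2 ^ b * fr.mo d i) := h2'.le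
            _ = (2 ^ b * fr.mo d i) * (Mb fr k b d i + 1) := by ring
            _ ≤ ((2 : ℝ) ^ b * (fr.W ^ fr.D * d)) * (2 * (Mb fr k b d i : ℝ) + 1) :=
                mul_le_mul (mul_le_mul_of_nonneg_left h1' (by positivity)) (by linarith)
                  (by positivity) (by positivity)
    _ = _ := by
        rw [Finset.prod_mul_distrib, Finset.prod_const, Finset.card_univ, Fintype.card_fin]

open Classical in
/-- fibres times translates -/
lemma pack_card {A : Type} [Group A] (φ : G →* A) (k b d : ℕ) (hd : 1 ≤ d) (y : A) :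
    (((Ub fr k).image fun u => φ (kap fr.c u)).card : ℝ) *
      ((bx (Mb fr k b d)).filter fun t => φ (yy fr d t) = y).card ≤ (Lb fr k).card := by
  obtain ⟨P, hP⟩ : ∃ P, P = (Ub fr k).image fun u => φ (kap fr.c u) := ⟨_, rfl⟩
  obtain ⟨N, hN⟩ : ∃ N, N = (bx (Mb fr k b d)).filter fun t => φ (yy fr d t) = y := ⟨_, rfl⟩
  rw [← hP, ← hN]
  have h0 : ∀ z : A, ∃ u : Fin fr.r → ℤ, z ∈ P → u ∈ Ub fr k ∧ φ (kap fr.c u) = z := fun z => by
    by_cases hz : z ∈ P
    · rw [hP, mem_image] at hz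
      obtain ⟨u, hu, hu'⟩ := hz
      exact ⟨u, fun _ => ⟨hu, hu'⟩⟩
    · exact ⟨0, fun h => absurd h hz⟩
  choose uu huu using h0
  have hmo : ∀ i, (0 : ℤ) < fr.mo d i := fun i => by exact_mod_cast RepAux.mo_pos fr hd i
  have h1 : (P ×ˢ N).card ≤ (Lb fr k).card := by
    refine Finset.card_le_card_of_injOn
      (fun q => (fun i => (fr.mo d i : ℤ) * q.2 i) + uu q.1 +
        fr.p (fun i => (fr.mo d i : ℤ) * q.2 i) (uu q.1)) ?_ ?_
    · rintro ⟨z, t⟩ hq
      rw [Finset.mem_coe, mem_product, hN, mem_filter] at hq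
      obtain ⟨hz, ht, -⟩ := hq
      obtain ⟨hu, -⟩ := huu z hz
      rw [mem_Ub] at hu
      rw [Finset.mem_coe, mem_Lb]
      intro i
      have hpw : ∀ j, ((2 : ℝ) ^ k) ^ fr.w j = 2 ^ (k * fr.w j) := fun j => (pow_mul _ _ _).symm
      have e1 : ∀ j, |(((fr.mo d j : ℤ) * t j : ℤ) : ℝ)| ≤ 1 * ((2 : ℝ) ^ k) ^ fr.w j := fun j => by
        rw [hpw, one_mul]
        refine (box_le fr ht j).trans (div_le_self (by positivity) (one_le_pow₀ (by norm_num)))
      have e2 : ∀ j, |((uu z j : ℤ) : ℝ)| ≤ 1 * ((2 : ℝ) ^ k) ^ fr.w j := fun j => by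
        rw [hpw, one_mul]
        refine (hu j).trans (div_le_self (by positivity) ?_)
        have : (0 : ℝ) ≤ fr.r := Nat.cast_nonneg _
        linarith
      have e3 := fr.p_size ((2 : ℝ) ^ k) 1 1 (fun i => (fr.mo d i : ℤ) * t i) (uu z)
        (one_le_pow₀ (by norm_num)) zero_le_one le_rfl zero_le_one le_rfl e1 e2 i
      have e4 := e1 i
      have e5 := e2 i
      rw [hpw] at e3 e4 e5
      simp only [Pi.add_apply, Int.cast_add]
      refine (abs_add_three _ _ _).trans ?_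
      linarith
    · rintro ⟨z, t⟩ hq ⟨z', t'⟩ hq' he
      rw [Finset.mem_coe, mem_product, hN, mem_filter] at hq hq'
      obtain ⟨hz, ht, hty⟩ := hq
      obtain ⟨hz', ht', hty'⟩ := hq'
      obtain ⟨-, hu⟩ := huu z hz
      obtain ⟨-, hu'⟩ := huu z' hz'
      have e1 := congrArg (fun v => φ (kap fr.c v)) he
      simp only [← fr.mul, map_mul] at e1
      have e2 : φ (kap fr.c (fun i => (fr.mo d i : ℤ) * t i)) = y := hty
      have e3 : φ (kap fr.c (fun i => (fr.mo d i : ℤ) * t' i)) = y := hty'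
      rw [e2, e3, hu, hu'] at e1
      have e4 : z = z' := mul_left_cancel e1
      subst e4
      have hinj := BoxAux.psi_inj fr.w (fun s => uu z + fr.p s (uu z)) (by
        intro s s' i h
        simp only [Pi.add_apply]
        rw [fr.p_dep s s' (uu z) (uu z) i (fun j hj => ⟨h j hj, rfl⟩)])
      have e5 : (fun i => (fr.mo d i : ℤ) * t i) = (fun i => (fr.mo d i : ℤ) * t' i) := by
        refine hinj ?_
        simp only [← add_assoc]
        exact he
      have e6 : t = t' := by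
        funext i
        exact mul_left_cancel₀ (hmo i).ne' (congrFun e5 i)
      rw [e6]
  rw [card_product] at h1
  exact_mod_cast h1

open Classical in
lemma kka_le {A : Type} [Group A] (φ : G →* A) (k b d : ℕ) (x : A) {N : ℝ}
    (hN : ∀ y : A, (((bx (Mb fr k b d)).filter fun t => φ (yy fr d t) = y).card : ℝ) ≤ N) :
    kka fr φ k b d x ≤ N / (bx (Mb fr k b d)).card := by
  rw [kka_eq]
  have hc := card_pos fr k b d
  obtain ⟨B, hB⟩ : ∃ B, B = bx (Mb fr k b d) := ⟨_, rfl⟩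
  rw [← hB] at hN hc ⊢
  have h1 : (((B ×ˢ B).filter fun p => φ (zz fr d p) = x).card : ℝ) ≤ B.card * N := by
    have h2 : ((B ×ˢ B).filter fun p => φ (zz fr d p) = x).card =
        ∑ t' ∈ B, (((B ×ˢ B).filter fun p => φ (zz fr d p) = x).filter fun p => p.2 = t').card :=
      Finset.card_eq_sum_card_fiberwise fun p hp => by
        rw [Finset.mem_coe, mem_filter, mem_product] at hp
        exact hp.1.2
    rw [h2]
    push_cast
    calc ∑ t' ∈ B, ((((B ×ˢ B).filter fun p => φ (zz fr d p) = x).filter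
          fun p => p.2 = t').card : ℝ) ≤ ∑ _t' ∈ B, N := Finset.sum_le_sum fun t' _ => by
          refine le_trans ?_ (hN (φ (yy fr d t') * x))
          have h3 : (((B ×ˢ B).filter fun p => φ (zz fr d p) = x).filter
              fun p => p.2 = t').card ≤
              (B.filter fun t => φ (yy fr d t) = φ (yy fr d t') * x).card := by
            refine Finset.card_le_card_of_injOn (fun p => p.1) ?_ ?_
            · intro p hp
              rw [Finset.mem_coe, mem_filter, mem_filter, mem_product] at hp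
              rw [Finset.mem_coe, mem_filter]
              refine ⟨hp.1.1.1, ?_⟩
              have h4 := hp.1.2
              rw [zz_eq, map_mul, map_inv, hp.2] at h4
              rw [← h4]
              group
            · intro p hp p' hp' he
              rw [Finset.mem_coe, mem_filter] at hp hp'
              exact Prod.ext he (hp.2.trans hp'.2.symm)
          exact_mod_cast h3
      _ = B.card * N := by rw [sum_const, nsmul_eq_mul]
  rw [div_le_div_iff₀ (by positivity) hc]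
  calc _ ≤ (B.card * N) * (B.card : ℝ) := mul_le_mul_of_nonneg_right h1 hc.le
    _ = _ := by ring

open Classical in
lemma vol_le (hgen : Subgroup.closure (Set.range fr.c) = ⊤) :
    ∃ K : ℝ, 0 ≤ K ∧ ∀ (A : Type) [Group A] [Fintype A] (φ : G →* A), Function.Surjective φ →
      ∀ k : ℕ, vol (nul (fun i => φ (fr.c i)) fr.w fr.D) k ≤
        K * ((Ub fr k).image fun u => φ (kap fr.c u)).card := by
  obtain ⟨C1, hC1, h1⟩ := nul_coord fr hgen
  obtain ⟨C2, hC2, h2⟩ := cover fr hgen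
  have hR : 1 ≤ C1 * (1 + 1 / 2) := by linarith
  refine ⟨C2 * (C1 * (1 + 1 / 2)) ^ C2, by positivity, fun A _ _ φ hφ k => ?_⟩
  obtain ⟨Z, hZ, hZ'⟩ := h2 k _ hR
  have h3 : Nat.card {x : A // nul (fun i => φ (fr.c i)) fr.w fr.D k x ≤ 1 / 2} =
      (Finset.univ.filter fun x : A => nul (fun i => φ (fr.c i)) fr.w fr.D k x ≤ 1 / 2).card :=
    Nat.subtype_card _ fun x => by rw [mem_filter]; exact ⟨fun h => h.2, fun h => ⟨mem_univ _, h⟩⟩
  have h4 : (Finset.univ.filter fun x : A => nul (fun i => φ (fr.c i)) fr.w fr.D k x ≤ 1 / 2) ⊆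
      (Z ×ˢ ((Ub fr k).image fun u => φ (kap fr.c u))).image fun q => φ q.1 * q.2 := by
    intro x hx
    rw [mem_filter] at hx
    obtain ⟨X, hX, hX'⟩ := nul_lift (w := fr.w) (D := fr.D) hgen φ hφ k x
    obtain ⟨Y, hY, hY'⟩ := h1 k (1 / 2) (by norm_num) X (hX'.trans hx.2)
    obtain ⟨z, hz, u, hu, hu', -⟩ := hZ' Y hY'
    rw [mem_image]
    refine ⟨(z, φ (kap fr.c u)), ?_, ?_⟩
    · rw [mem_product]
      exact ⟨hz, mem_image_of_mem _ ((mem_Ub fr).2 hu')⟩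
    · rw [← hX, hY, hu, map_mul]
  have h5 := (Finset.card_le_card h4).trans Finset.card_image_le
  rw [card_product] at h5
  unfold vol
  rw [h3]
  calc ((Finset.univ.filter fun x : A =>
        nul (fun i => φ (fr.c i)) fr.w fr.D k x ≤ 1 / 2).card : ℝ)
      ≤ Z.card * ((Ub fr k).image fun u => φ (kap fr.c u)).card := by exact_mod_cast h5
    _ ≤ _ := mul_le_mul_of_nonneg_right hZ (Nat.cast_nonneg _)

end KdAux

theorem kka_bound (hgen : Subgroup.closure (Set.range fr.c) = ⊤) :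
    ∃ C : ℕ, 1 ≤ C ∧ ∀ (A : Type) [Group A] [Fintype A] (φ : G →* A), Function.Surjective φ →
      ∀ k b d : ℕ, 1 ≤ d → ∀ x : A, kka fr φ k b d x ≤
        C * ((2 : ℝ) ^ b * d) ^ C / vol (nul (fun i => φ (fr.c i)) fr.w fr.D) k := by
  classical
  obtain ⟨K, hK0, hK⟩ := vol_le fr hgen
  have hC0 := fr.one_le_C0
  obtain ⟨K1, hK1⟩ : ∃ K1 : ℝ, K1 = K * ((5 + 2 * fr.C0) ^ fr.r * ((fr.W : ℝ) ^ fr.D) ^ fr.r) :=
    ⟨_, rfl⟩
  refine ⟨⌈K1⌉₊ + fr.r + 1, by omega, fun A _ _ φ hφ k b d hd x => ?_⟩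
  have hv := hK A φ hφ k
  obtain ⟨V, hV⟩ : ∃ V, V = vol (nul (fun i => φ (fr.c i)) fr.w fr.D) k := ⟨_, rfl⟩
  obtain ⟨P, hP⟩ : ∃ P : ℝ, P = ((Ub fr k).image fun u => φ (kap fr.c u)).card := ⟨_, rfl⟩
  rw [← hV, ← hP] at hv
  rw [← hV]
  have hVpos : 0 < V := by
    rw [hV]
    unfold vol
    have : 0 < Nat.card {x : A // nul (fun i => φ (fr.c i)) fr.w fr.D k x ≤ 1 / 2} := by
      have : Nonempty {x : A // nul (fun i => φ (fr.c i)) fr.w fr.D k x ≤ 1 / 2} :=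
        ⟨⟨1, by rw [nul_one]; norm_num⟩⟩
      exact Nat.card_pos
    exact_mod_cast this
  have hPpos : 0 < P := by
    have h : 0 ≤ P := by rw [hP]; exact Nat.cast_nonneg _
    rcases h.eq_or_lt with h | h
    · rw [← h, mul_zero] at hv
      linarith
    · exact h
  have hc := card_pos fr k b d
  have hd' : (1 : ℝ) ≤ d := by exact_mod_cast hd
  have h2b : (1 : ℝ) ≤ 2 ^ b := one_le_pow₀ (by norm_num)
  have hbd : (1 : ℝ) ≤ 2 ^ b * d := by nlinarith
  have h1 : ∀ y : A, (((bx (Mb fr k b d)).filter fun t => φ (yy fr d t) = y).card : ℝ) ≤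
      (5 + 2 * fr.C0) ^ fr.r * (((2 : ℝ) ^ b * (fr.W ^ fr.D * d)) ^ fr.r *
        (bx (Mb fr k b d)).card) / P := fun y => by
    have e1 := pack_card fr φ k b d hd y
    rw [← hP] at e1
    have e2 := card_Lb fr k
    have e3 := le_card_bx fr (k := k) (b := b) hd
    rw [le_div_iff₀ hPpos]
    calc _ = P * (((bx (Mb fr k b d)).filter fun t => φ (yy fr d t) = y).card : ℝ) := by ring
      _ ≤ _ := e1
      _ ≤ _ := e2
      _ ≤ _ := mul_le_mul_of_nonneg_left e3 (by positivity)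
  have h2 := kka_le fr φ k b d x h1
  refine h2.trans ?_
  have h3 : (5 + 2 * fr.C0) ^ fr.r * (((2 : ℝ) ^ b * (fr.W ^ fr.D * d)) ^ fr.r *
        (bx (Mb fr k b d)).card) / P / (bx (Mb fr k b d)).card =
      ((5 + 2 * fr.C0) ^ fr.r * ((fr.W : ℝ) ^ fr.D) ^ fr.r) * ((2 : ℝ) ^ b * d) ^ fr.r / P := by
    have e : (2 : ℝ) ^ b * (fr.W ^ fr.D * d) = (fr.W : ℝ) ^ fr.D * ((2 : ℝ) ^ b * d) := by ring
    rw [e, mul_pow]
    field_simp
  rw [h3, div_le_div_iff₀ hPpos hVpos]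
  have h4 : ((2 : ℝ) ^ b * d) ^ fr.r ≤ ((2 : ℝ) ^ b * d) ^ (⌈K1⌉₊ + fr.r + 1) :=
    pow_le_pow_right₀ hbd (by omega)
  have h5 : K1 ≤ ((⌈K1⌉₊ + fr.r + 1 : ℕ) : ℝ) := by
    have := Nat.le_ceil K1
    push_cast
    have h6 : (0 : ℝ) ≤ fr.r := Nat.cast_nonneg _
    linarith
  have hE : 0 ≤ (5 + 2 * fr.C0) ^ fr.r * ((fr.W : ℝ) ^ fr.D) ^ fr.r := by positivity
  calc (5 + 2 * fr.C0) ^ fr.r * ((fr.W : ℝ) ^ fr.D) ^ fr.r * ((2 : ℝ) ^ b * d) ^ fr.r * V
      ≤ (5 + 2 * fr.C0) ^ fr.r * ((fr.W : ℝ) ^ fr.D) ^ fr.r * ((2 : ℝ) ^ b * d) ^ fr.r * (K * P) :=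
        mul_le_mul_of_nonneg_left hv (by positivity)
    _ = (K1 * ((2 : ℝ) ^ b * d) ^ fr.r) * P := by rw [hK1]; ring
    _ ≤ (((⌈K1⌉₊ + fr.r + 1 : ℕ) : ℝ) * ((2 : ℝ) ^ b * d) ^ (⌈K1⌉₊ + fr.r + 1)) * P :=
        mul_le_mul_of_nonneg_right (mul_le_mul h5 h4 (by positivity) (Nat.cast_nonneg _)) hPpos.le

end NPG
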