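import Pool.Agent.NPG.GGro

set_option autoImplicit false

/-!
# NPG / GPig : a power of a finite set which grows little

PROOF.  Let `E` be finite, `1 ∈ E`, `r0 ≥ nul 0 x` for all `x ∈ E`.  `nul 0 (x_1 ... x_n) ≤ n r0` (`nul_mul`), so by
`nul_coord` (with `k = 0`) `E^n` is contained in the image under `kap c` of `{X : |X i| ≤ (C (1 + n r0))^(w i)}`, which has
at most `∏ (2 (C (1 + n r0))^(w i) + 1) ≤ (C' (n + 1))^(C')` elements.  If `|E^(n+1)| > 2 |E^n|` for all `n` then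
`|E^n| ≥ 2^n`, a contradiction for large `n`.
(`E ^ n` is the pointwise power of finsets, `open Pointwise`.)
-/

namespace NPG
open Finset Pool.Nil
open scoped Pointwise

theorem pig_pow_nul {G : Type} [Group G] [DecidableEq G] {g : ℤ → G} (fr : Frame g)
    (hgen : Subgroup.closure (Set.range fr.c) = ⊤) (E : Finset G) (r0 : ℝ)
    (hr0 : ∀ x ∈ E, nul fr.c fr.w fr.D 0 x ≤ r0) (n : ℕ) :
    ∀ x ∈ E ^ n, nul fr.c fr.w fr.D 0 x ≤ n * r0 := by
  induction n with
  | zero =>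
    intro x hx
    rw [pow_zero, Finset.mem_one] at hx
    rw [hx, nul_one]; simp
  | succ n ih =>
    intro x hx
    rw [pow_succ, Finset.mem_mul] at hx
    obtain ⟨y, hy, z, hz, rfl⟩ := hx
    have h1 := nul_mul (D := fr.D) (w := fr.w) hgen 0 y z
    have h2 := ih y hy
    have h3 := hr0 z hz
    push_cast
    linarith

theorem pig_card {G : Type} [Group G] [DecidableEq G] {g : ℤ → G} (fr : Frame g)
    (hgen : Subgroup.closure (Set.range fr.c) = ⊤) (E : Finset G) :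
    ∃ (K : ℝ) (W : ℕ), 0 < K ∧ ∀ n : ℕ, ((E ^ n).card : ℝ) ≤ K * ((n : ℝ) + 1) ^ W := by
  classical
  obtain ⟨C, hC1, hC⟩ := nul_coord fr hgen
  set r0 : ℝ := ∑ x ∈ E, nul fr.c fr.w fr.D 0 x with hr0
  have hr0n : 0 ≤ r0 := Finset.sum_nonneg fun x _ => nul_nonneg 0 x
  have hE : ∀ x ∈ E, nul fr.c fr.w fr.D 0 x ≤ r0 := fun x hx =>
    Finset.single_le_sum (f := fun x => nul fr.c fr.w fr.D 0 x) (fun y _ => nul_nonneg 0 y) hx
  refine ⟨3 ^ fr.r * (C * (1 + r0)) ^ (∑ i, fr.w i), ∑ i, fr.w i, by positivity, fun n => ?_⟩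
  set R : ℝ := C * (1 + n * r0) * 2 ^ 0 with hR
  have hR1 : 1 ≤ R := by
    rw [hR, pow_zero, mul_one]
    have : (0 : ℝ) ≤ n * r0 := by positivity
    nlinarith
  have hR0 : 0 ≤ R := by linarith
  have hsub : E ^ n ⊆ (Fintype.piFinset fun i : Fin fr.r =>
      Finset.Icc (-(⌊R ^ fr.w i⌋₊ : ℤ)) (⌊R ^ fr.w i⌋₊ : ℤ)).image (kap fr.c) := by
    intro x hx
    obtain ⟨X, hX, hb⟩ := hC 0 (n * r0) (by positivity) x (pig_pow_nul fr hgen E r0 hE n x hx)
    rw [Finset.mem_image]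
    refine ⟨X, ?_, hX.symm⟩
    rw [Fintype.mem_piFinset]
    intro i
    have h1 : |(X i : ℝ)| ≤ R ^ fr.w i := hb i
    have h2 : ((X i).natAbs : ℝ) ≤ R ^ fr.w i := by
      rw [Nat.cast_natAbs]; push_cast; exact h1
    have h3 : (X i).natAbs ≤ ⌊R ^ fr.w i⌋₊ := Nat.le_floor h2
    rw [Finset.mem_Icc]
    omega
  have hcard : (E ^ n).card ≤ ∏ i : Fin fr.r, (2 * ⌊R ^ fr.w i⌋₊ + 1) := by
    refine (Finset.card_le_card hsub).trans (Finset.card_image_le.trans ?_)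
    rw [Fintype.card_piFinset]
    refine Finset.prod_le_prod' fun i _ => ?_
    rw [Int.card_Icc]
    omega
  calc ((E ^ n).card : ℝ) ≤ ((∏ i : Fin fr.r, (2 * ⌊R ^ fr.w i⌋₊ + 1) : ℕ) : ℝ) := by
        exact_mod_cast hcard
    _ = ∏ i : Fin fr.r, (2 * (⌊R ^ fr.w i⌋₊ : ℝ) + 1) := by push_cast; rfl
    _ ≤ ∏ i : Fin fr.r, (3 * R ^ fr.w i) := by
        refine Finset.prod_le_prod (fun i _ => by positivity) fun i _ => ?_
        have h1 : (⌊R ^ fr.w i⌋₊ : ℝ) ≤ R ^ fr.w i := Nat.floor_le (by positivity)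
        have h2 : 1 ≤ R ^ fr.w i := one_le_pow₀ hR1
        linarith
    _ = 3 ^ fr.r * R ^ (∑ i, fr.w i) := by
        rw [Finset.prod_mul_distrib, Finset.prod_const, Finset.card_univ, Fintype.card_fin,
          Finset.prod_pow_eq_pow_sum]
    _ ≤ 3 ^ fr.r * ((C * (1 + r0)) * ((n : ℝ) + 1)) ^ (∑ i, fr.w i) := by
        refine mul_le_mul_of_nonneg_left (pow_le_pow_left₀ hR0 ?_ _) (by positivity)
        rw [hR, pow_zero, mul_one, mul_assoc]
        refine mul_le_mul_of_nonneg_left ?_ (by linarith)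
        have : (0 : ℝ) ≤ n := by positivity
        nlinarith
    _ = 3 ^ fr.r * (C * (1 + r0)) ^ (∑ i, fr.w i) * ((n : ℝ) + 1) ^ (∑ i, fr.w i) := by
        rw [mul_pow, mul_assoc]

theorem pig {G : Type} [Group G] [DecidableEq G] {g : ℤ → G} (fr : Frame g)
    (hgen : Subgroup.closure (Set.range fr.c) = ⊤) (E : Finset G) (hE : (1 : G) ∈ E) :
    ∃ n : ℕ, (E ^ (n + 1)).card ≤ 2 * (E ^ n).card := by
  obtain ⟨K, W, hK, hKW⟩ := pig_card fr hgen E
  by_contra hcon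
  push Not at hcon
  have hpow : ∀ n : ℕ, 2 ^ n ≤ (E ^ n).card := by
    intro n
    induction n with
    | zero => simp
    | succ n ih =>
      have := hcon n
      rw [pow_succ]
      omega
  have ht := (tendsto_pow_const_div_const_pow_of_one_lt W (one_lt_two (α := ℝ)))
  have hev := ht.eventually (gt_mem_nhds (show (0 : ℝ) < 1 / (2 * K) by positivity))
  obtain ⟨N, hN⟩ := Filter.eventually_atTop.1 hev
  have h1 := hN (N + 1) (Nat.le_succ N)
  rw [div_lt_div_iff₀ (by positivity) (by positivity), one_mul] at h1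
  have h2 : ((2 : ℝ) ^ N) ≤ K * ((N : ℝ) + 1) ^ W := by
    refine le_trans ?_ (hKW N)
    exact_mod_cast hpow N
  rw [pow_succ] at h1
  push_cast at h1
  nlinarith

end NPG
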