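import Mathlib
import Pool.Agent.PinskerA.ResFin

set_option autoImplicit false

/-!
# NPG / GResF : finitely generated nilpotent groups are residually finite

PROOF of `res_fin`.  (0) Subgroups of a finitely generated nilpotent group are finitely generated:
induction along the lower central series; the factors are finitely generated abelian groups, their
subgroups are finitely generated, and an extension of finitely generated groups is finitely
generated.  (Any other proof is fine; look first what Mathlib has.)
(1) By Zorn there is a normal subgroup `N` maximal among those which do not contain `x`.  `P = G ⧸ N` is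
finitely generated nilpotent, and every nontrivial normal subgroup of `P` contains `x̄ ≠ 1`.
(2) The centre `Z` of `P` is torsion: if `z ∈ Z` has infinite order then all `⟨z^n⟩`, `n ≥ 1`, are nontrivial and
normal, so contain `x̄`; but their intersection is trivial.
(3) `Z` is finitely generated (0), so finite, of exponent `e ≥ 1`.  In the upper central series every factor
`Z_(i+1) / Z_i` has exponent dividing `e`: for `u ∈ Z_(i+1)` and `y ∈ P`, `[u^e, y] ≡ [u, y]^e` modulo `Z_(i-1)`.
So `P` has finite exponent, and a finitely generated nilpotent group of finite exponent is finite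
(all factors of the lower central series are finitely generated abelian of finite exponent).
So `N` has finite index.

PROOF of `res_fin_sig`.  For every `x` in the finite set `F` take `N_x` from `res_fin`.  For a finite index normal
subgroup `N0` the intersection `N1` of the kernels of all homomorphisms `G → G ⧸ N0` is normal, of finite index
(`G` is finitely generated and `G ⧸ N0` finite, so there are finitely many homomorphisms), contained in `N0`
(kernel of the quotient map) and invariant under `σ` (`ψ ∘ σ` is again a homomorphism).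
Intersect over `x`; `A = G ⧸ N`, `φ` the quotient map, `s` induced by `σ⁻¹` (`QuotientGroup.congr`).
Injectivity on `E`: apply this to the finite set `{x⁻¹ y : x ≠ y ∈ E}`.
-/

namespace NPG

theorem res_fin {G : Type} [Group G] [Group.IsNilpotent G] (hfg : Group.FG G) (x : G)
    (hx : x ≠ 1) : ∃ N : Subgroup G, N.Normal ∧ N.FiniteIndex ∧ x ∉ N := by
  have := hfg
  exact Pool.PinskerA.rf_nilpotent G x hx

/-- Finitely many homomorphisms from a finitely generated group to a finite group. -/
theorem finite_hom {G : Type} [Group G] (hfg : Group.FG G) (H : Type) [Group H] [Finite H] :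
    Finite (G →* H) := by
  obtain ⟨S, hS⟩ := hfg.1
  refine Finite.of_injective (β := (S → H)) (fun f => fun s => f s) ?_
  intro f g hfg'
  refine MonoidHom.eq_of_eqOn_dense hS ?_
  intro s hs
  exact congrFun hfg' ⟨s, hs⟩

theorem res_fin_sig {G : Type} [Group G] [Group.IsNilpotent G] (hfg : Group.FG G) (σ : MulAut G)
    (E : Finset G) : ∃ (A : Type) (_ : Group A) (_ : Fintype A) (φ : G →* A) (s : MulAut A),
      Function.Surjective φ ∧ (∀ x, s (φ (σ x)) = φ x) ∧ Set.InjOn φ (E : Set G) := by
  classical
  -- a finite index normal subgroup which separates the points of `E`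
  have hsep : ∀ p : G × G, ∃ N : Subgroup G, N.Normal ∧ N.FiniteIndex ∧
      (p.1 ≠ p.2 → p.1⁻¹ * p.2 ∉ N) := by
    intro p
    by_cases h : p.1 = p.2
    · exact ⟨⊤, inferInstance, inferInstance, fun h' => absurd h h'⟩
    · obtain ⟨N, h1, h2, h3⟩ := res_fin hfg (p.1⁻¹ * p.2) (by
        intro h'
        exact h (inv_mul_eq_one.1 h'))
      exact ⟨N, h1, h2, fun _ => h3⟩
  choose K hKn hKf hKs using hsep
  set N0 : Subgroup G := ⨅ p : {p : G × G // p ∈ E ×ˢ E}, K p.1 with hN0
  have hN0n : N0.Normal := by
    rw [hN0]
    exact Subgroup.normal_iInf_normal fun p => hKn p.1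
  have hN0f : N0.FiniteIndex := by
    rw [hN0]
    exact Subgroup.finiteIndex_iInf fun p => hKf p.1
  have : Finite (G ⧸ N0) := Subgroup.finite_quotient_of_finiteIndex
  have : Finite (G →* G ⧸ N0) := finite_hom hfg (G ⧸ N0)
  set N1 : Subgroup G := ⨅ ψ : G →* G ⧸ N0, ψ.ker with hN1
  have hN1n : N1.Normal := by
    rw [hN1]
    exact Subgroup.normal_iInf_normal fun ψ => inferInstance
  have hN1f : N1.FiniteIndex := by
    rw [hN1]
    exact Subgroup.finiteIndex_iInf fun ψ => inferInstance
  have hle : N1 ≤ N0 := by
    intro x hx
    rw [hN1, Subgroup.mem_iInf] at hx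
    have := hx (QuotientGroup.mk' N0)
    rw [MonoidHom.mem_ker] at this
    exact (QuotientGroup.eq_one_iff x).1 this
  have hinv : ∀ (τ : MulAut G) (x : G), x ∈ N1 → τ x ∈ N1 := by
    intro τ x hx
    rw [hN1, Subgroup.mem_iInf] at hx ⊢
    intro ψ
    have := hx (ψ.comp τ.toMonoidHom)
    rw [MonoidHom.mem_ker] at this ⊢
    exact this
  have hmap : N1.map ((σ⁻¹ : MulAut G) : G →* G) = N1 := by
    ext y
    rw [Subgroup.mem_map]
    constructor
    · rintro ⟨x, hx, rfl⟩
      exact hinv σ⁻¹ x hx
    · intro hy
      refine ⟨σ y, hinv σ y hy, ?_⟩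
      change (σ⁻¹ : MulAut G) (σ y) = y
      exact MulAut.inv_apply_self G σ y
  have : Finite (G ⧸ N1) := Subgroup.finite_quotient_of_finiteIndex
  refine ⟨G ⧸ N1, inferInstance, Fintype.ofFinite _, QuotientGroup.mk' N1,
    QuotientGroup.congr N1 N1 (σ⁻¹ : MulAut G) hmap, QuotientGroup.mk'_surjective N1, ?_, ?_⟩
  · intro x
    change ((((σ⁻¹ : MulAut G) (σ x)) : G) : G ⧸ N1) = (x : G ⧸ N1)
    rw [MulAut.inv_apply_self G σ x]
  · intro x hx y hy hxy
    by_contra hne
    have h1 : x⁻¹ * y ∈ N1 := QuotientGroup.eq.1 hxy
    have h2 : x⁻¹ * y ∈ N0 := hle h1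
    rw [hN0, Subgroup.mem_iInf] at h2
    exact hKs (x, y) hne (h2 ⟨(x, y), Finset.mk_mem_product hx hy⟩)

end NPG
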