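import Pool.Agent.NPG.GDefs
import Pool.Agent.NPG.GFrA
import Pool.Agent.NPG.GConB
import Pool.Agent.NPG.GConP
import Pool.Agent.Nil.NilSeq

set_option autoImplicit false

/-!
# NPG / GSfr : existence of frames with an automorphism

PROOF of `exists_sfr`: `exists_frA`, `sig_raise` (`N = fr.D + 1`, `Adapted.bot`, `Filt.le`), `sig_coord`;
`gen`: downward induction on `u`: `F u ≤ closure (range c)` (`Adapted.gen`), `F 1 = ⊤`.
(`g 0 = 1` follows from `hadd 0 0`.)

PROOF of `exists_grp`: `G = Subgroup.closure (range (fun n => T^(-n) * S^n))` (as a type), `ι` the inclusion,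
`g n = ⟨T^(-n) * S^n, _⟩`.  Conjugation by `S` preserves `G`: `S⁻¹ g(n) S = g(1)⁻¹ g(n+1)` and
`S g(n) S⁻¹ = (S g(-1) S⁻¹)... `: put `n := -1` in `g (l + m) = g l * S^(-l) g(m) S^l` : `S g(m) S⁻¹ = g(-1)⁻¹ g(m-1)`.
So `σ x = S⁻¹ x S` is an automorphism of `G`; `g (l + m) = g l * σ^l (g m)`.
Filtration: `Fc i = (lcF Γ 1 i).comap ι` with `lcF` from `Pool.Lib.PolySeq` as in `Nil/NilSeq.lean`
(`filt_lcF`, `lcF_self` : `lcF Γ 1 1 = ⊤`, hence `lcF Γ 1 0 = ⊤`, `lcF_bot`); the sequence `T^(-n) S^n` is polynomial: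
`isSeq_pseq` with `d = 2`, `![T⁻¹, S]`, `![X, X]`; `Frame.isSeq_comap`.
-/

namespace NPG
open Finset Pool.Nil

theorem exists_sfr {G : Type} [Group G] (σ : MulAut G) (g : ℤ → G)
    (hadd : ∀ l m : ℤ, g (l + m) = g l * (σ ^ l) (g m))
    (hgen : Subgroup.closure (Set.range g) = ⊤) {Fc : ℕ → Subgroup G} (hF : Filt Fc)
    (h0 : Fc 0 = ⊤) {N : ℕ} (hN : Fc N = ⊥) (hg : IsSeq Fc 0 g) : Nonempty (SFr σ g) := by
  have hg0 : g 0 = 1 := by
    have h := hadd 0 0
    rw [add_zero, zpow_zero, MulAut.one_apply] at h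
    exact (mul_eq_left.1 h.symm)
  obtain ⟨fr, hA, h0', h1', hs⟩ := exists_frA hF h0 hN g hg hg0 hgen
  have hraise := sig_raise σ hA.filt h0' (N := fr.D + 1)
    (fun i hi => by
      rw [eq_bot_iff, ← hA.bot]
      exact hA.filt.le hi) hadd
  obtain ⟨q, C, hC, hconj, hdvd, hsize⟩ := sig_coord hA h0' h1' σ hraise fr.W_dvd
  have hgenc : ∀ n u : ℕ, 1 ≤ u → fr.D + 1 ≤ u + n →
      FB (bb g) u ≤ Subgroup.closure (Set.range fr.c) := by
    intro n
    induction n with
    | zero =>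
      intro u _ hu
      refine (hA.filt.le (i := fr.D + 1) (by omega)).trans ?_
      rw [hA.bot]
      exact bot_le
    | succ n ih =>
      intro u hu1 hu
      by_cases hD : u ≤ fr.D
      · refine (hA.gen u hu1 hD).trans (sup_le ?_ (ih (u + 1) (by omega) (by omega)))
        refine Subgroup.closure_mono ?_
        rintro x ⟨i, -, rfl⟩
        exact ⟨i, rfl⟩
      · refine (hA.filt.le (i := fr.D + 1) (by omega)).trans ?_
        rw [hA.bot]
        exact bot_le
  refine ⟨{ fr := fr, gen := ?_, add := hadd, q := q, C1 := C, one_le_C1 := hC, conj := hconj,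
            q_dvd := hdvd, q_size := hsize }⟩
  rw [eq_top_iff, ← h1']
  exact hgenc (fr.D + 1) 1 le_rfl (by omega)

theorem exists_grp {Γ : Type} [Group Γ] [Group.IsNilpotent Γ] (T S : Γ) :
    ∃ (G : Type) (_ : Group G) (σ : MulAut G) (g : ℤ → G) (ι : G →* Γ),
      Function.Injective ι ∧ Group.IsNilpotent G ∧ (∀ n : ℤ, ι (g n) = T ^ (-n) * S ^ n) ∧
      (∀ x, ι (σ x) = S⁻¹ * ι x * S) ∧ Nonempty (SFr σ g) := by
  classical
  set γ : ℤ → Γ := fun n => T ^ (-n) * S ^ n with hγ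
  set H : Subgroup Γ := Subgroup.closure (Set.range γ) with hH
  have hmem : ∀ n, γ n ∈ H := fun n => Subgroup.subset_closure ⟨n, rfl⟩
  have hc1 : ∀ x ∈ H, S⁻¹ * x * S ∈ H := by
    intro x hx
    induction hx using Subgroup.closure_induction with
    | mem y hy =>
      obtain ⟨n, rfl⟩ := hy
      have e : S⁻¹ * γ n * S = (γ 1)⁻¹ * γ (n + 1) := by
        simp only [hγ]
        rw [neg_add, zpow_add, zpow_add, zpow_one, zpow_neg_one, mul_inv_rev, inv_inv]
        have h1 : T ^ (-n) * T⁻¹ = T⁻¹ * T ^ (-n) := by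
          rw [← zpow_neg_one, ← zpow_add, ← zpow_add, add_comm]
        rw [h1]
        group
      rw [e]
      exact mul_mem (inv_mem (hmem 1)) (hmem _)
    | one => simp [one_mem]
    | mul a b ha hb h1 h2 =>
      have e : S⁻¹ * (a * b) * S = (S⁻¹ * a * S) * (S⁻¹ * b * S) := by group
      rw [e]
      exact mul_mem h1 h2
    | inv a ha h1 =>
      have e : S⁻¹ * a⁻¹ * S = (S⁻¹ * a * S)⁻¹ := by group
      rw [e]
      exact inv_mem h1
  have hc2 : ∀ x ∈ H, S * x * S⁻¹ ∈ H := by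
    intro x hx
    induction hx using Subgroup.closure_induction with
    | mem y hy =>
      obtain ⟨n, rfl⟩ := hy
      have e : S * γ n * S⁻¹ = (γ (-1))⁻¹ * γ (n - 1) := by
        simp only [hγ]
        rw [neg_neg, zpow_one, zpow_neg_one, mul_inv_rev, inv_inv, neg_sub,
          sub_eq_add_neg 1 n, zpow_add, zpow_sub, zpow_one, zpow_one]
        group
      rw [e]
      exact mul_mem (inv_mem (hmem (-1))) (hmem _)
    | one => simp [one_mem]
    | mul a b ha hb h1 h2 =>
      have e : S * (a * b) * S⁻¹ = (S * a * S⁻¹) * (S * b * S⁻¹) := by group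
      rw [e]
      exact mul_mem h1 h2
    | inv a ha h1 =>
      have e : S * a⁻¹ * S⁻¹ = (S * a * S⁻¹)⁻¹ := by group
      rw [e]
      exact inv_mem h1
  let σ : MulAut H :=
    { toFun := fun x => ⟨S⁻¹ * x * S, hc1 _ x.2⟩
      invFun := fun x => ⟨S * x * S⁻¹, hc2 _ x.2⟩
      left_inv := fun x => Subtype.ext (by
        show S * (S⁻¹ * (x : Γ) * S) * S⁻¹ = x
        group)
      right_inv := fun x => Subtype.ext (by
        show S⁻¹ * (S * (x : Γ) * S⁻¹) * S = x
        group)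
      map_mul' := fun x y => Subtype.ext (by
        show S⁻¹ * ((x : Γ) * y) * S = (S⁻¹ * x * S) * (S⁻¹ * y * S)
        group) }
  have hσ : ∀ x : H, ((σ x : H) : Γ) = S⁻¹ * x * S := fun x => rfl
  have hσi : ∀ x : H, ((σ⁻¹ x : H) : Γ) = S * x * S⁻¹ := fun x => rfl
  have hσz : ∀ (l : ℤ) (x : H), (((σ ^ l) x : H) : Γ) = S ^ (-l) * x * S ^ l := by
    intro l
    induction l using Int.induction_on with
    | zero => intro x; simp
    | succ n ih =>
      intro x
      rw [zpow_add, MulAut.mul_apply, ih, zpow_one, hσ, neg_add, zpow_add, zpow_add, zpow_neg_one,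
        zpow_one]
      group
    | pred n ih =>
      intro x
      rw [sub_eq_add_neg, zpow_add, MulAut.mul_apply, ih, zpow_neg_one, hσi, neg_add, zpow_add,
        zpow_add, neg_neg (1 : ℤ), zpow_neg_one, zpow_one]
      group
  set g : ℤ → H := fun n => ⟨γ n, hmem n⟩ with hg
  have hadd : ∀ l m : ℤ, g (l + m) = g l * (σ ^ l) (g m) := by
    intro l m
    refine Subtype.ext ?_
    rw [Subgroup.coe_mul, hσz]
    show γ (l + m) = γ l * (S ^ (-l) * γ m * S ^ l)
    simp only [hγ]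
    rw [neg_add, zpow_add, add_comm l m, zpow_add]
    group
  have hgen : Subgroup.closure (Set.range g) = ⊤ := by
    rw [eq_top_iff]
    rintro ⟨x, hx⟩ -
    induction hx using Subgroup.closure_induction with
    | mem y hy =>
      obtain ⟨n, rfl⟩ := hy
      exact Subgroup.subset_closure ⟨n, rfl⟩
    | one => exact one_mem _
    | mul a b ha hb h1 h2 => exact mul_mem h1 h2
    | inv a ha h1 => exact inv_mem h1
  refine ⟨H, inferInstance, σ, g, H.subtype, H.subtype_injective, inferInstance, fun n => rfl,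
    fun x => rfl, ?_⟩
  have hFl := NilSeq.filt_lcF (G := Γ) 1
  refine exists_sfr σ g hadd hgen
    (Fc := fun i => (Pool.Lib.PolySeq.lcF Γ 1 i).comap H.subtype)
    ⟨fun i x hx => hFl.anti i hx, fun i j x hx y hy => hFl.comm i j _ hx _ hy⟩ ?_
    (N := (1 + 1) * 2 ^ Group.nilpotencyClass Γ) ?_ ?_
  · rw [eq_top_iff]
    intro x _
    have h1 : Pool.Lib.PolySeq.lcF Γ 1 1 ≤ Pool.Lib.PolySeq.lcF Γ 1 0 := hFl.anti 0
    rw [NilSeq.lcF_self] at h1
    exact h1 (Subgroup.mem_top (x : Γ))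
  · rw [eq_bot_iff]
    intro x hx
    have h1 : (x : Γ) ∈ Pool.Lib.PolySeq.lcF Γ 1 ((1 + 1) * 2 ^ Group.nilpotencyClass Γ) := hx
    rw [NilSeq.lcF_bot, Subgroup.mem_bot] at h1
    rw [Subgroup.mem_bot]
    exact Subtype.ext h1
  · refine Frame.isSeq_comap H.subtype ?_
    have e : (fun n => H.subtype (g n)) = pseq ![T⁻¹, S] ![Polynomial.X, Polynomial.X] := by
      funext n
      show T ^ (-n) * S ^ n = _
      simp [pseq, zpow_neg]
    rw [e]
    refine NilSeq.isSeq_pseq hFl (NilSeq.lcF_self 1) _ _ ?_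
    intro i
    fin_cases i <;> simp

end NPG
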