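import Pool.Agent.NPG.GDefs

set_option autoImplicit false

/-!
# NPG / GWl : elementary properties of the weighted word length

`nun c w D k x` is the minimal cost of a word with value `x` (`gen`: every element is the value of a
word, so the minimum is attained: `exists_word`, `Nat.sInf_mem`).  `wcost` is additive under concatenation.

PROOFS.  `nul_inv`: reverse the word and invert the letters (`(i, b) ↦ (i, !b)`).
`nul_mul`: concatenate.  `nul_up`: `2^((k+1) (D - w)) / 2^((k+1) D) = 2^(-w) 2^(-k w)` for `w ≤ D`, and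
`2^(-w) ≤ 1/2`; take an optimal word for level `k`.
`nul_map`: the image of an optimal word.  `nul_lift`: an optimal word for `y`, read in `G`.
`nul_letters`: if every letter `c i` is mapped by the homomorphism `α` to an element of length at most
`B 2^(-k w_i)` then `nul (α x) ≤ B nul x` (optimal word of `x`, `nul_mul`, `nul_inv`).
`nul_kap`: `kap c y` is a product of powers; `nul (c i ^ n) ≤ |n| 2^(-k w_i)`.
-/

namespace NPG
open Finset Pool.Nil

variable {A : Type} [Group A] {r : ℕ} {c : Fin r → A} {w : Fin r → ℕ} {D : ℕ}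

private lemma lt_flip (c : Fin r → A) (p : Fin r × Bool) : lt c (p.1, !p.2) = (lt c p)⁻¹ := by
  unfold lt
  cases p.2 <;> simp

private lemma inv_word (c : Fin r → A) (w : Fin r → ℕ) (D k : ℕ) (L : List (Fin r × Bool)) :
    ∃ L' : List (Fin r × Bool), wcost w D k L' = wcost w D k L ∧
      (L'.map (lt c)).prod = ((L.map (lt c)).prod)⁻¹ := by
  refine ⟨(L.map fun p => (p.1, !p.2)).reverse, ?_, ?_⟩
  · unfold wcost
    rw [List.map_reverse, List.sum_reverse, List.map_map]
    rfl
  · rw [List.map_reverse, List.map_map, List.prod_inv_reverse, List.map_map]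
    congr 2
    refine List.map_congr_left fun p _ => ?_
    exact lt_flip c p

private lemma wcost_append (w : Fin r → ℕ) (D k : ℕ) (L L' : List (Fin r × Bool)) :
    wcost w D k (L ++ L') = wcost w D k L + wcost w D k L' := by
  unfold wcost
  rw [List.map_append, List.sum_append]

private lemma word_of_gen (hgen : Subgroup.closure (Set.range c) = ⊤) (x : A) :
    ∃ L : List (Fin r × Bool), (L.map (lt c)).prod = x := by
  have hx : x ∈ Subgroup.closure (Set.range c) := by
    rw [hgen]
    exact Subgroup.mem_top x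
  induction hx using Subgroup.closure_induction with
  | mem y hy =>
    obtain ⟨i, rfl⟩ := hy
    exact ⟨[(i, true)], by simp [lt]⟩
  | one => exact ⟨[], by simp⟩
  | mul y z _ _ h1 h2 =>
    obtain ⟨L, hL⟩ := h1
    obtain ⟨L', hL'⟩ := h2
    exact ⟨L ++ L', by rw [List.map_append, List.prod_append, hL, hL']⟩
  | inv y _ h1 =>
    obtain ⟨L, hL⟩ := h1
    obtain ⟨L', _, hL'⟩ := inv_word c (fun _ => 0) 0 0 L
    exact ⟨L', by rw [hL', hL]⟩

private lemma word_min (k : ℕ) {x : A} (h : ∃ L : List (Fin r × Bool), (L.map (lt c)).prod = x) :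
    ∃ L : List (Fin r × Bool), wcost w D k L = nun c w D k x ∧ (L.map (lt c)).prod = x := by
  have hne : {n | ∃ L : List (Fin r × Bool), wcost w D k L = n ∧ (L.map (lt c)).prod = x}.Nonempty :=
    h.elim fun L hL => ⟨wcost w D k L, L, rfl, hL⟩
  exact Nat.sInf_mem hne

theorem exists_word (hgen : Subgroup.closure (Set.range c) = ⊤) (k : ℕ) (x : A) :
    ∃ L : List (Fin r × Bool), wcost w D k L = nun c w D k x ∧ (L.map (lt c)).prod = x :=
  word_min k (word_of_gen hgen x)

theorem nul_le_word (k : ℕ) (L : List (Fin r × Bool)) :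
    nul c w D k (L.map (lt c)).prod ≤ (wcost w D k L : ℝ) / 2 ^ (k * D) := by
  unfold nul
  refine div_le_div_of_nonneg_right ?_ (by positivity)
  have h : nun c w D k (L.map (lt c)).prod ≤ wcost w D k L := Nat.sInf_le ⟨L, rfl, rfl⟩
  exact_mod_cast h

theorem nul_nonneg (k : ℕ) (x : A) : 0 ≤ nul c w D k x := by
  unfold nul
  positivity

theorem nul_one (k : ℕ) : nul c w D k (1 : A) = 0 := by
  refine le_antisymm ?_ (nul_nonneg k 1)
  have h := nul_le_word (c := c) (w := w) (D := D) k []
  simpa [wcost] using h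

theorem nul_inv (k : ℕ) (x : A) : nul c w D k x⁻¹ = nul c w D k x := by
  have key : ∀ y : A, {n | ∃ L : List (Fin r × Bool), wcost w D k L = n ∧ (L.map (lt c)).prod = y} ⊆
      {n | ∃ L : List (Fin r × Bool), wcost w D k L = n ∧ (L.map (lt c)).prod = y⁻¹} := by
    rintro y n ⟨L, hL, hL2⟩
    obtain ⟨L', h1, h2⟩ := inv_word c w D k L
    exact ⟨L', h1.trans hL, by rw [h2, hL2]⟩
  have h : {n | ∃ L : List (Fin r × Bool), wcost w D k L = n ∧ (L.map (lt c)).prod = x⁻¹} =
      {n | ∃ L : List (Fin r × Bool), wcost w D k L = n ∧ (L.map (lt c)).prod = x} := by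
    refine Set.Subset.antisymm ?_ (key x)
    have := key x⁻¹
    rwa [inv_inv] at this
  unfold nul nun
  rw [h]

theorem nul_mul (hgen : Subgroup.closure (Set.range c) = ⊤) (k : ℕ) (x y : A) :
    nul c w D k (x * y) ≤ nul c w D k x + nul c w D k y := by
  obtain ⟨L, h1, h2⟩ := exists_word (w := w) (D := D) hgen k x
  obtain ⟨L', h1', h2'⟩ := exists_word (w := w) (D := D) hgen k y
  have h := nul_le_word (c := c) (w := w) (D := D) k (L ++ L')
  rw [List.map_append, List.prod_append, h2, h2', wcost_append, h1, h1', Nat.cast_add, add_div] at h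
  exact h

private lemma cost_term (hwD : ∀ i, w i ≤ D) (k : ℕ) (i : Fin r) :
    ((2 ^ (k * (D - w i)) : ℕ) : ℝ) / 2 ^ (k * D) = ((2 : ℝ) ^ (k * w i))⁻¹ := by
  have h : k * D = k * (D - w i) + k * w i := by
    rw [← mul_add, Nat.sub_add_cancel (hwD i)]
  rw [h, pow_add]
  push_cast
  field_simp

private lemma cost_sum (hwD : ∀ i, w i ≤ D) (k : ℕ) (L : List (Fin r × Bool)) :
    (wcost w D k L : ℝ) / 2 ^ (k * D) = (L.map fun p => ((2 : ℝ) ^ (k * w p.1))⁻¹).sum := by
  induction L with
  | nil => simp [wcost]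
  | cons p L ih =>
    have h : wcost w D k (p :: L) = 2 ^ (k * (D - w p.1)) + wcost w D k L := by
      unfold wcost
      rw [List.map_cons, List.sum_cons]
    rw [h, Nat.cast_add, add_div, ih, List.map_cons, List.sum_cons, cost_term hwD]

theorem nul_up (hgen : Subgroup.closure (Set.range c) = ⊤) (hw1 : ∀ i, 1 ≤ w i)
    (hwD : ∀ i, w i ≤ D) (k : ℕ) (x : A) : nul c w D (k + 1) x ≤ nul c w D k x / 2 := by
  obtain ⟨L, h1, h2⟩ := exists_word (w := w) (D := D) hgen k x
  have h := nul_le_word (c := c) (w := w) (D := D) (k + 1) L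
  rw [h2] at h
  refine h.trans ?_
  have h3 : nul c w D k x = (wcost w D k L : ℝ) / 2 ^ (k * D) := by
    unfold nul
    rw [h1]
  rw [h3, cost_sum hwD, cost_sum hwD]
  clear h h1 h2 h3
  induction L with
  | nil => simp
  | cons p L ih =>
    rw [List.map_cons, List.sum_cons, List.map_cons, List.sum_cons, add_div]
    refine add_le_add ?_ ih
    have h4 : (k + 1) * w p.1 = k * w p.1 + w p.1 := by ring
    rw [h4, pow_add, mul_inv]
    have h5 : ((2 : ℝ) ^ w p.1)⁻¹ ≤ 2⁻¹ := by
      apply inv_anti₀ (by norm_num)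
      calc (2 : ℝ) = 2 ^ 1 := by norm_num
        _ ≤ 2 ^ w p.1 := pow_le_pow_right₀ (by norm_num) (hw1 p.1)
    have h6 : (0 : ℝ) ≤ ((2 : ℝ) ^ (k * w p.1))⁻¹ := by positivity
    calc ((2 : ℝ) ^ (k * w p.1))⁻¹ * ((2 : ℝ) ^ w p.1)⁻¹ ≤ ((2 : ℝ) ^ (k * w p.1))⁻¹ * 2⁻¹ :=
          mul_le_mul_of_nonneg_left h5 h6
      _ = ((2 : ℝ) ^ (k * w p.1))⁻¹ / 2 := by ring

theorem nul_letter (hwD : ∀ i, w i ≤ D) (k : ℕ) (i : Fin r) :
    nul c w D k (c i) ≤ ((2 : ℝ) ^ (k * w i))⁻¹ := by
  have h := nul_le_word (c := c) (w := w) (D := D) k [(i, true)]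
  rw [cost_sum hwD] at h
  simpa [lt] using h

private lemma nul_prod (hgen : Subgroup.closure (Set.range c) = ⊤) (k : ℕ) (l : List A) :
    nul c w D k l.prod ≤ (l.map (nul c w D k)).sum := by
  induction l with
  | nil => simp [nul_one]
  | cons x l ih =>
    rw [List.prod_cons, List.map_cons, List.sum_cons]
    exact (nul_mul hgen k _ _).trans (add_le_add le_rfl ih)

private lemma nul_pow (hgen : Subgroup.closure (Set.range c) = ⊤) (k : ℕ) (x : A) (n : ℕ) :
    nul c w D k (x ^ n) ≤ n * nul c w D k x := by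
  induction n with
  | zero => simp [nul_one]
  | succ n ih =>
    rw [pow_succ, Nat.cast_add, Nat.cast_one, add_mul, one_mul]
    exact (nul_mul hgen k _ _).trans (add_le_add ih le_rfl)

private lemma nul_zpow (hgen : Subgroup.closure (Set.range c) = ⊤) (k : ℕ) (x : A) (n : ℤ) :
    nul c w D k (x ^ n) ≤ |(n : ℝ)| * nul c w D k x := by
  obtain ⟨m, rfl | rfl⟩ := n.eq_nat_or_neg
  · rw [zpow_natCast]
    have h : |((m : ℤ) : ℝ)| = m := by
      rw [Int.cast_natCast, abs_of_nonneg (Nat.cast_nonneg m)]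
    rw [h]
    exact nul_pow hgen k x m
  · rw [zpow_neg, nul_inv, zpow_natCast]
    have h : |((-(m : ℤ) : ℤ) : ℝ)| = m := by
      rw [Int.cast_neg, Int.cast_natCast, abs_neg, abs_of_nonneg (Nat.cast_nonneg m)]
    rw [h]
    exact nul_pow hgen k x m

theorem nul_kap (hgen : Subgroup.closure (Set.range c) = ⊤) (hwD : ∀ i, w i ≤ D) (k : ℕ)
    (y : Fin r → ℤ) : nul c w D k (kap c y) ≤ ∑ i, |(y i : ℝ)| / 2 ^ (k * w i) := by
  unfold kap
  refine (nul_prod hgen k _).trans ?_
  rw [List.map_ofFn, List.sum_ofFn]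
  refine Finset.sum_le_sum fun i _ => ?_
  refine (nul_zpow hgen k (c i) (y i)).trans ?_
  rw [div_eq_mul_inv]
  exact mul_le_mul_of_nonneg_left (nul_letter hwD k i) (abs_nonneg _)

/-- images under a homomorphism which does not increase the letters much -/
theorem nul_letters {A' : Type} [Group A'] {c' : Fin r → A'}
    (hgen : Subgroup.closure (Set.range c) = ⊤) (hgen' : Subgroup.closure (Set.range c') = ⊤)
    (hwD : ∀ i, w i ≤ D) (k : ℕ) (α : A →* A') {B : ℝ} (hB : 0 ≤ B)
    (h : ∀ i, nul c' w D k (α (c i)) ≤ B * ((2 : ℝ) ^ (k * w i))⁻¹) (x : A) :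
    nul c' w D k (α x) ≤ B * nul c w D k x := by
  obtain ⟨L, h1, h2⟩ := exists_word (w := w) (D := D) hgen k x
  have h3 : nul c w D k x = (wcost w D k L : ℝ) / 2 ^ (k * D) := by
    unfold nul
    rw [h1]
  rw [h3, cost_sum hwD, ← h2]
  clear h1 h2 h3
  induction L with
  | nil => simp [nul_one]
  | cons p L ih =>
    rw [List.map_cons, List.prod_cons, map_mul, List.map_cons, List.sum_cons, mul_add]
    refine (nul_mul hgen' k _ _).trans (add_le_add ?_ ih)
    unfold lt
    split_ifs with hp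
    · exact h p.1
    · rw [map_inv, nul_inv]
      exact h p.1

private lemma map_word {G : Type} [Group G] (cG : Fin r → G) (φ : G →* A) (L : List (Fin r × Bool)) :
    φ (L.map (lt cG)).prod = (L.map (lt fun i => φ (cG i))).prod := by
  rw [map_list_prod, List.map_map]
  congr 1
  refine List.map_congr_left fun p _ => ?_
  simp only [Function.comp_apply, lt]
  split_ifs
  · rfl
  · rw [map_inv]

theorem nul_map {G : Type} [Group G] {cG : Fin r → G}
    (hgen : Subgroup.closure (Set.range cG) = ⊤) (φ : G →* A) (k : ℕ) (x : G) :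
    nul (fun i => φ (cG i)) w D k (φ x) ≤ nul cG w D k x := by
  obtain ⟨L, h1, h2⟩ := exists_word (w := w) (D := D) hgen k x
  have h := nul_le_word (c := fun i => φ (cG i)) (w := w) (D := D) k L
  rw [← map_word, h2, h1] at h
  exact h

/-- every element of the quotient has a preimage of the same length -/
theorem nul_lift {G : Type} [Group G] {cG : Fin r → G}
    (hgen : Subgroup.closure (Set.range cG) = ⊤) (φ : G →* A) (hφ : Function.Surjective φ)
    (k : ℕ) (y : A) : ∃ x : G, φ x = y ∧ nul cG w D k x ≤ nul (fun i => φ (cG i)) w D k y := by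
  obtain ⟨x0, hx0⟩ := hφ y
  obtain ⟨L0, hL0⟩ := word_of_gen hgen x0
  obtain ⟨L, h1, h2⟩ := word_min (c := fun i => φ (cG i)) (w := w) (D := D) k (x := y)
    ⟨L0, by rw [← map_word, hL0, hx0]⟩
  refine ⟨(L.map (lt cG)).prod, by rw [map_word, h2], ?_⟩
  have h := nul_le_word (c := cG) (w := w) (D := D) k L
  rw [h1] at h
  exact h

end NPG
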