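import Pool.Agent.NPG.GWl

set_option autoImplicit false

/-!
# NPG / GWlS : word length and conjugations

`R = 2^k`.  Constants depend on `sf` only.

PROOFS.  `nul_sa`: `x ∈ Sa 1 (2^k) del` implies `nul k x ≤ r del` (`nul_kap`).
`nul_g`: `g n ∈ Sa 1 (2^k) K` for `|n| ≤ 2^k` (`seq_small` with `N = 2^k`, `ze = 1`).
`nul_sig`: `nul_letters` with `α = σ^j`: `c i = kap (Pi.single i 1)` (`kap_single`), `|y| ≤ del R^w` with `y = Pi.single i 1`,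
`del = 2^(-k w_i)`, `R = 2^k`; `conj`, `q_size`, `nul_kap`: `nul (σ^j (c i)) ≤ r (1 + C1) 2^(-k w_i)`.
`nul_conj`: `nul_letters` with `α = MulAut.conj (g n)`: `comm_all` (with `R = A 2^k`, `A` a constant such that
`g n ∈ Sa 1 (A 2^k) 1` and the same for its inverse, `inv_all`, `Sa_up`-like: `K (2^k)^w ≤ (K 2^k)^w` for `w ≥ 1`) applied to
`a = Pi.single i 1` (`|a| ≤ del R^w` with `del = R^(-w_i) ≤ 2^(-k w_i)`) and the coordinates `b` of `(g n)⁻¹` : the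
commutator `x⁻¹ y⁻¹ x y`, `x = c i`, `y = (g n)⁻¹`, has coordinates `≤ K del R^w`, so `nul` of it at level `k` is
`≤ C del`; `g n * c i * (g n)⁻¹ = y⁻¹ x y = x * (x⁻¹ y⁻¹ x y)`; `nul_mul`.
-/

namespace NPG
open Finset Pool.Nil

variable {G : Type} [Group G] {σ : MulAut G} {g : ℤ → G} (sf : SFr σ g)

private theorem GWlS_two (k : ℕ) : (1 : ℝ) ≤ (2 : ℝ) ^ k := one_le_pow₀ (by norm_num)

theorem nul_sa (k : ℕ) {del : ℝ} (hd : 0 ≤ del) {x : G} (hx : x ∈ sf.fr.Sa 1 ((2 : ℝ) ^ k) del) :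
    nul sf.fr.c sf.fr.w sf.fr.D k x ≤ sf.fr.r * del := by
  obtain ⟨y, rfl, -, hy⟩ := hx
  refine (nul_kap sf.gen sf.fr.w_le k y).trans ?_
  have h1 : ∀ i ∈ (Finset.univ : Finset (Fin sf.fr.r)), |(y i : ℝ)| / 2 ^ (k * sf.fr.w i) ≤ del := by
    intro i _
    rw [div_le_iff₀ (by positivity), pow_mul]
    exact hy i
  refine (Finset.sum_le_card_nsmul _ _ del h1).trans (le_of_eq ?_)
  rw [Finset.card_univ, Fintype.card_fin, nsmul_eq_mul]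

private theorem GWlS_single (fr : Frame g) {R S : ℝ} (hR : 1 ≤ R) (hS : R ≤ S) (i j : Fin fr.r) :
    |((Pi.single i (1 : ℤ) : Fin fr.r → ℤ) j : ℝ)| ≤ (R ^ fr.w i)⁻¹ * S ^ fr.w j := by
  by_cases h : j = i
  · subst h
    rw [Pi.single_eq_same, Int.cast_one, abs_one, inv_mul_eq_div, le_div_iff₀ (by positivity), one_mul]
    exact pow_le_pow_left₀ (by linarith) hS _
  · rw [Pi.single_eq_of_ne h, Int.cast_zero, abs_zero]
    have : 0 < S := by linarith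
    positivity

private theorem GWlS_c (fr : Frame g) (i : Fin fr.r) : fr.c i = kap fr.c (Pi.single i 1) := by
  rw [kap_single, zpow_one]

theorem nul_sig : ∃ C : ℝ, 1 ≤ C ∧ ∀ (k : ℕ) (j : ℤ), |j| ≤ 2 ^ k → ∀ x : G,
    nul sf.fr.c sf.fr.w sf.fr.D k ((σ ^ j) x) ≤ C * nul sf.fr.c sf.fr.w sf.fr.D k x := by
  have hC1 := sf.one_le_C1
  have hr : (0 : ℝ) ≤ sf.fr.r := Nat.cast_nonneg _
  refine ⟨(sf.fr.r + 1) * (1 + sf.C1), by nlinarith, fun k j hj x => ?_⟩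
  have hR := GWlS_two k
  have hj' : |(j : ℝ)| ≤ (2 : ℝ) ^ k := by exact_mod_cast hj
  refine nul_letters sf.gen sf.gen sf.fr.w_le k ((σ ^ j : MulAut G).toMonoidHom) (by positivity) (fun i => ?_) x
  have h1 : ((σ ^ j : MulAut G).toMonoidHom) (sf.fr.c i) =
      kap sf.fr.c (Pi.single i 1 + sf.q j (Pi.single i 1)) := by
    rw [← sf.conj, ← GWlS_c]
    rfl
  set del : ℝ := (((2 : ℝ) ^ k) ^ sf.fr.w i)⁻¹ with hdel
  have hd0 : 0 ≤ del := by positivity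
  have hd1 : del ≤ 1 := inv_le_one_of_one_le₀ (one_le_pow₀ hR)
  have hy : ∀ i', |((Pi.single i (1 : ℤ) : Fin sf.fr.r → ℤ) i' : ℝ)| ≤ del * ((2 : ℝ) ^ k) ^ sf.fr.w i' :=
    fun i' => GWlS_single sf.fr hR le_rfl i i'
  have hq := sf.q_size ((2 : ℝ) ^ k) del j (Pi.single i 1) hR hd0 hd1 hj' hy
  have h2 : ((σ ^ j : MulAut G).toMonoidHom) (sf.fr.c i) ∈ sf.fr.Sa 1 ((2 : ℝ) ^ k) ((1 + sf.C1) * del) := by
    refine ⟨_, h1, fun i' hi' => ?_, fun i' => ?_⟩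
    · have := sf.fr.one_le_w i'
      omega
    · rw [Pi.add_apply, Int.cast_add]
      refine (abs_add_le _ _).trans ?_
      have := add_le_add (hy i') (hq i')
      refine this.trans (le_of_eq ?_)
      ring
  refine (nul_sa sf k (by positivity) h2).trans ?_
  rw [pow_mul, ← hdel]
  have h3 : 0 ≤ (1 + sf.C1) * del := by positivity
  nlinarith

theorem nul_g : ∃ C : ℝ, 1 ≤ C ∧ ∀ (k : ℕ) (n : ℤ), |n| ≤ 2 ^ k →
    nul sf.fr.c sf.fr.w sf.fr.D k (g n) ≤ C := by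
  obtain ⟨K, hK, h⟩ := sf.fr.seq_small
  have hr : (0 : ℝ) ≤ sf.fr.r := Nat.cast_nonneg _
  refine ⟨(sf.fr.r + 1) * K, by nlinarith, fun k n hn => ?_⟩
  have hR := GWlS_two k
  have hn' : |(n : ℝ)| ≤ 1 * (2 : ℝ) ^ k := by
    rw [one_mul]
    exact_mod_cast hn
  have h1 := (h ((2 : ℝ) ^ k) 1 n hR zero_le_one le_rfl hn').1
  rw [mul_one] at h1
  refine (nul_sa sf k (by linarith) h1).trans ?_
  nlinarith

/-- conjugation of a letter -/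
private theorem GWlS_conj {K0 : ℝ} (hK0 : 1 ≤ K0) : ∃ C : ℝ, 1 ≤ C ∧ ∀ (k : ℕ) (b : Fin sf.fr.r → ℤ),
    (∀ i, |(b i : ℝ)| ≤ K0 * ((2 : ℝ) ^ k) ^ sf.fr.w i) → ∀ x : G,
    nul sf.fr.c sf.fr.w sf.fr.D k ((kap sf.fr.c b)⁻¹ * x * kap sf.fr.c b) ≤
      C * nul sf.fr.c sf.fr.w sf.fr.D k x := by
  obtain ⟨K, hK, hcomm⟩ := Frame.SmallAux.comm_all sf.fr
  have hr : (0 : ℝ) ≤ sf.fr.r := Nat.cast_nonneg _
  have hKD : 0 ≤ (sf.fr.r : ℝ) * (K * K0 ^ sf.fr.D) := by positivity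
  refine ⟨1 + sf.fr.r * (K * K0 ^ sf.fr.D), by linarith, fun k b hb x => ?_⟩
  have hR := GWlS_two k
  have hRS : (2 : ℝ) ^ k ≤ K0 * (2 : ℝ) ^ k := by nlinarith
  have hS : 1 ≤ K0 * (2 : ℝ) ^ k := hR.trans hRS
  have hb' : ∀ i, |(b i : ℝ)| ≤ 1 * (K0 * (2 : ℝ) ^ k) ^ sf.fr.w i := fun i => by
    rw [one_mul, mul_pow]
    refine (hb i).trans ?_
    exact mul_le_mul_of_nonneg_right (le_self_pow₀ hK0 (by have := sf.fr.one_le_w i; omega)) (by positivity)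
  have key : ∀ z : G, (MulAut.conj (kap sf.fr.c b)⁻¹).toMonoidHom z =
      (kap sf.fr.c b)⁻¹ * z * kap sf.fr.c b := fun z => by
    show (MulAut.conj (kap sf.fr.c b)⁻¹) z = _
    rw [MulAut.conj_apply, inv_inv]
  rw [← key]
  refine nul_letters sf.gen sf.gen sf.fr.w_le k _ (by linarith) (fun i => ?_) x
  rw [key]
  set del : ℝ := (((2 : ℝ) ^ k) ^ sf.fr.w i)⁻¹ with hdel
  have hd0 : 0 ≤ del := by positivity
  have hd1 : del ≤ 1 := inv_le_one_of_one_le₀ (one_le_pow₀ hR)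
  obtain ⟨u, h1, h2, -, -⟩ := hcomm (K0 * (2 : ℝ) ^ k) del 1 (Pi.single i 1) b hS hd0 hd1 zero_le_one le_rfl
    (fun i' => GWlS_single sf.fr hR hRS i i') hb'
  rw [← GWlS_c] at h1
  have h3 : (kap sf.fr.c b)⁻¹ * sf.fr.c i * kap sf.fr.c b =
      sf.fr.c i * ((sf.fr.c i)⁻¹ * (kap sf.fr.c b)⁻¹ * sf.fr.c i * kap sf.fr.c b) := by group
  have h4 : kap sf.fr.c u ∈ sf.fr.Sa 1 ((2 : ℝ) ^ k) (K * K0 ^ sf.fr.D * del) := by
    refine ⟨u, rfl, fun i' hi' => ?_, fun i' => (h2 i').trans ?_⟩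
    · have := sf.fr.one_le_w i'
      omega
    · rw [mul_one, mul_pow]
      have h5 : K0 ^ sf.fr.w i' ≤ K0 ^ sf.fr.D := pow_le_pow_right₀ hK0 (sf.fr.w_le i')
      have h6 : 0 ≤ K * del * ((2 : ℝ) ^ k) ^ sf.fr.w i' := by positivity
      calc K * del * (K0 ^ sf.fr.w i' * ((2 : ℝ) ^ k) ^ sf.fr.w i')
          = (K * del * ((2 : ℝ) ^ k) ^ sf.fr.w i') * K0 ^ sf.fr.w i' := by ring
        _ ≤ (K * del * ((2 : ℝ) ^ k) ^ sf.fr.w i') * K0 ^ sf.fr.D := mul_le_mul_of_nonneg_left h5 h6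
        _ = K * K0 ^ sf.fr.D * del * ((2 : ℝ) ^ k) ^ sf.fr.w i' := by ring
  rw [h3, h1]
  refine (nul_mul sf.gen k _ _).trans ?_
  have h5 := nul_letter (c := sf.fr.c) sf.fr.w_le k i
  have h6 := nul_sa sf k (by positivity) h4
  rw [pow_mul] at h5
  rw [pow_mul, ← hdel]
  rw [← hdel] at h5
  calc nul sf.fr.c sf.fr.w sf.fr.D k (sf.fr.c i) + nul sf.fr.c sf.fr.w sf.fr.D k (kap sf.fr.c u)
      ≤ del + sf.fr.r * (K * K0 ^ sf.fr.D * del) := add_le_add h5 h6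
    _ = (1 + sf.fr.r * (K * K0 ^ sf.fr.D)) * del := by ring

theorem nul_conj : ∃ C : ℝ, 1 ≤ C ∧ ∀ (k : ℕ) (n : ℤ), |n| ≤ 2 ^ k → ∀ x : G,
    nul sf.fr.c sf.fr.w sf.fr.D k (g n * x * (g n)⁻¹) ≤ C * nul sf.fr.c sf.fr.w sf.fr.D k x ∧
    nul sf.fr.c sf.fr.w sf.fr.D k ((g n)⁻¹ * x * g n) ≤ C * nul sf.fr.c sf.fr.w sf.fr.D k x := by
  obtain ⟨Ks, hKs, hseq⟩ := sf.fr.seq_small
  obtain ⟨Ki, hKi, hinv⟩ := Frame.SmallAux.inv_all sf.fr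
  have hP : 0 ≤ Ki * Ks ^ sf.fr.D := by positivity
  obtain ⟨C, hC, hconj⟩ := GWlS_conj sf (K0 := Ks + Ki * Ks ^ sf.fr.D) (by linarith)
  refine ⟨C, hC, fun k n hn x => ?_⟩
  have hR := GWlS_two k
  have hn' : |(n : ℝ)| ≤ 1 * (2 : ℝ) ^ k := by
    rw [one_mul]
    exact_mod_cast hn
  obtain ⟨a, ha, -, ha2⟩ := (hseq ((2 : ℝ) ^ k) 1 n hR zero_le_one le_rfl hn').1
  rw [mul_one] at ha2
  have hKR : 1 ≤ Ks * (2 : ℝ) ^ k := by nlinarith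
  have ha3 : ∀ i, |(a i : ℝ)| ≤ 1 * (Ks * (2 : ℝ) ^ k) ^ sf.fr.w i := fun i => by
    rw [one_mul, mul_pow]
    refine (ha2 i).trans ?_
    exact mul_le_mul_of_nonneg_right (le_self_pow₀ hKs (by have := sf.fr.one_le_w i; omega)) (by positivity)
  obtain ⟨u, hu, hu2, -, -⟩ := hinv (Ks * (2 : ℝ) ^ k) 1 a hKR zero_le_one le_rfl ha3
  rw [← ha] at hu
  have hu3 : ∀ i, |(u i : ℝ)| ≤ (Ks + Ki * Ks ^ sf.fr.D) * ((2 : ℝ) ^ k) ^ sf.fr.w i := fun i => by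
    refine (hu2 i).trans ?_
    rw [mul_one, mul_pow]
    have h5 : Ks ^ sf.fr.w i ≤ Ks ^ sf.fr.D := pow_le_pow_right₀ hKs (sf.fr.w_le i)
    have h6 : 0 ≤ ((2 : ℝ) ^ k) ^ sf.fr.w i := by positivity
    have h7 : Ki * Ks ^ sf.fr.w i ≤ Ki * Ks ^ sf.fr.D := mul_le_mul_of_nonneg_left h5 (by linarith)
    have h8 : Ki * Ks ^ sf.fr.w i ≤ Ks + Ki * Ks ^ sf.fr.D := by linarith
    calc Ki * (Ks ^ sf.fr.w i * ((2 : ℝ) ^ k) ^ sf.fr.w i) =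
          (Ki * Ks ^ sf.fr.w i) * ((2 : ℝ) ^ k) ^ sf.fr.w i := by ring
      _ ≤ _ := mul_le_mul_of_nonneg_right h8 h6
  have ha4 : ∀ i, |(a i : ℝ)| ≤ (Ks + Ki * Ks ^ sf.fr.D) * ((2 : ℝ) ^ k) ^ sf.fr.w i := fun i =>
    (ha2 i).trans (mul_le_mul_of_nonneg_right (by linarith) (by positivity))
  constructor
  · have h1 := hconj k u hu3 x
    rw [← hu, inv_inv] at h1
    exact h1
  · have h1 := hconj k a ha4 x
    rw [← ha] at h1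
    exact h1

end NPG
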