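import Pool.Agent.NPG.Dic

/-!
# NPG / Grd : the greedy dictionary

`IsSys`: the rule holds at every block and every ball of radius `C + 1` for the residuals (parameter
`lam`) of the `T`-objects and of the `S`-objects, and the weight is at most `6/lam * 2^K * |Om|`.

Construction from the top level `K` down to `0`.  Claim for level `k`: given a dictionary `D` with
all elements at levels in `(k, K]` and the rule at the levels in `(k, K]`, there is `D'` obtained by
adding finitely many elements of level `k` such that the rule holds at the levels `[k, K]` and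
`(lam/3) vol k N ≤ P_k(D) - P_k(D')`, `N` = number of added elements,
`P_k(D) = ∑_{b < 2^(K-k)} (∑_u mc(u) + ∑_v mc(v))` (parameter `lam`) `≥ 0`.
If the rule fails at `(k,b)`, `p`, `w` (say for `T`-objects; scale `ip w w = 1`), add the element with
`blk = b`, `loc = p`, `psi = w`: for every `u` of the ball the column is `a w`,
`a^2 = exp(-τ dist) ≥ 0.8`, so its minimal cost drops by at least `<res,w>^2/3` (`mcs_cons_drop`).
-/

namespace NPG
open Finset
open NP2 (ip blk comb cst rid res mcs ip_comm ip_self_nonneg ip_cs ip_le_one ip_add_left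
  ip_smul_left ip_congr ip_comb_left rid_normal rid_unique cst_split mcs_le_cst mcs_nonneg mcs_le
  rid_sq_le res_sq_le rid_cons_zero res_cons_zero mcs_cons_le mcs_cons_drop)

noncomputable section

variable {A : Type} [Group A] [Fintype A]

open Classical in
/-- a system of parameter `lam` -/
structure IsSys (M : Mod A) (nu : ℕ → A → ℝ) (C K : ℕ) (F G : A → ℕ → ℝ) (Om : Finset A)
    (lam τ : ℝ) (D : Dict A) : Prop where
  hnu : D.nu = nu
  lev_le : ∀ i, (D.el i).lev ≤ K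
  blk_lt : ∀ i, (D.el i).blk < 2 ^ (K - (D.el i).lev)
  unit : ∀ i, ip (blk (D.el i).lev (D.el i).blk) (D.el i).psi (D.el i).psi ≤ 1
  ruleT : ∀ k ≤ K, ∀ b < 2 ^ (K - k), ∀ (p : A) (w : ℕ → ℝ),
    ∑ u : A, (if nu k (M.pT u (b * 2 ^ k) * p⁻¹) ≤ C + 1 then
        ip (blk k b) (rsd τ D lam k b (M.pT u) (F u)) w ^ 2 else 0) ≤
      lam * vol nu k * ip (blk k b) w w
  ruleS : ∀ k ≤ K, ∀ b < 2 ^ (K - k), ∀ (p : A) (w : ℕ → ℝ),
    ∑ v : A, (if nu k (M.pS v (b * 2 ^ k) * p⁻¹) ≤ C + 1 then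
        ip (blk k b) (rsd τ D lam k b (M.pS v) (G v)) w ^ 2 else 0) ≤
      lam * vol nu k * ip (blk k b) w w
  wt_le : wt D ≤ 6 / lam * 2 ^ K * Om.card

/-! ### adding one element -/

/-- add the element `x` in front -/
private def addE (x : Elem A) (D : Dict A) : Dict A := ⟨D.nu, D.n + 1, Fin.cons x D.el⟩

private theorem col_addE (τ : ℝ) (x : Elem A) (D : Dict A) (k b : ℕ) (y : ℕ → A) :
    col τ (addE x D) k b y =
      (Fin.cons (colE τ D.nu x k b y) (col τ D k b y) : Fin (D.n + 1) → ℕ → ℝ) := by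
  funext i
  refine Fin.cases ?_ (fun j => ?_) i
  · rfl
  · rfl

private theorem mc_addE_le (τ : ℝ) (x : Elem A) (D : Dict A) (μ : ℝ) (hμ : 0 < μ) (k b : ℕ)
    (y : ℕ → A) (f : ℕ → ℝ) : mc τ (addE x D) μ k b y f ≤ mc τ D μ k b y f := by
  have h := mcs_cons_le (blk k b) (col τ D k b y) (colE τ D.nu x k b y) μ hμ f
  have e : mc τ (addE x D) μ k b y f =
      mcs (blk k b) (Fin.cons (colE τ D.nu x k b y) (col τ D k b y) : Fin (D.n + 1) → ℕ → ℝ) μ f := by
    unfold mc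
    rw [col_addE]
    rfl
  rw [e]
  exact h

private theorem mc_addE_drop (τ : ℝ) (x : Elem A) (D : Dict A) (μ : ℝ) (hμ : 0 < μ) (k b : ℕ)
    (y : ℕ → A) (f : ℕ → ℝ) : mc τ (addE x D) μ k b y f ≤ mc τ D μ k b y f -
      ip (blk k b) (colE τ D.nu x k b y) (rsd τ D μ k b y f) ^ 2 /
        (ip (blk k b) (colE τ D.nu x k b y) (colE τ D.nu x k b y) + μ) := by
  have h := mcs_cons_drop (blk k b) (col τ D k b y) (colE τ D.nu x k b y) μ hμ f
  have e : mc τ (addE x D) μ k b y f =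
      mcs (blk k b) (Fin.cons (colE τ D.nu x k b y) (col τ D k b y) : Fin (D.n + 1) → ℕ → ℝ) μ f := by
    unfold mc
    rw [col_addE]
    rfl
  rw [e]
  exact h

private theorem rsd_addE (τ : ℝ) (x : Elem A) (D : Dict A) (μ : ℝ) (hμ : 0 < μ) (k b : ℕ)
    (y : ℕ → A) (f : ℕ → ℝ) (hx : x.lev < k) :
    rsd τ (addE x D) μ k b y f = rsd τ D μ k b y f := by
  have hz : ∀ t ∈ blk k b, colE τ D.nu x k b y t = 0 := by
    intro t _
    unfold colE
    rw [if_neg]
    rintro ⟨h, _⟩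
    omega
  have h := res_cons_zero (blk k b) (col τ D k b y) (colE τ D.nu x k b y) hz μ hμ f
  have e : rsd τ (addE x D) μ k b y f =
      res (blk k b) (Fin.cons (colE τ D.nu x k b y) (col τ D k b y) : Fin (D.n + 1) → ℕ → ℝ) μ f := by
    unfold rsd
    rw [col_addE]
    rfl
  rw [e]
  exact h

/-! ### rule and cost of one family -/

open Classical in
/-- the rule for one family at a block -/
private def Rl (τ lam r : ℝ) (D : Dict A) (pos : A → ℕ → A) (H : A → ℕ → ℝ)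
    (k b : ℕ) : Prop :=
  ∀ (q : A) (w : ℕ → ℝ),
    ∑ u : A, (if D.nu k (pos u (b * 2 ^ k) * q⁻¹) ≤ r then
        ip (blk k b) (rsd τ D lam k b (pos u) (H u)) w ^ 2 else 0) ≤
      lam * vol D.nu k * ip (blk k b) w w

/-- the cost of one family at a block -/
private def Cs (τ lam : ℝ) (D : Dict A) (pos : A → ℕ → A) (H : A → ℕ → ℝ)
    (k b : ℕ) : ℝ :=
  ∑ u : A, mc τ D lam k b (pos u) (H u)

private theorem Cs_nonneg (τ lam : ℝ) (hl : 0 < lam) (D : Dict A) (pos : A → ℕ → A)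
    (H : A → ℕ → ℝ) (k b : ℕ) : 0 ≤ Cs τ lam D pos H k b :=
  sum_nonneg fun u _ => mcs_nonneg _ _ _ hl _

private theorem Cs_addE_le (τ lam : ℝ) (hl : 0 < lam) (x : Elem A) (D : Dict A)
    (pos : A → ℕ → A) (H : A → ℕ → ℝ) (k b : ℕ) :
    Cs τ lam (addE x D) pos H k b ≤ Cs τ lam D pos H k b :=
  sum_le_sum fun u _ => mc_addE_le τ x D lam hl k b _ _

/-- if the rule fails, a new element lowers the cost -/
private theorem fail_step (τ lam : ℝ) (hl : 0 < lam) (hl1 : lam ≤ 1) (h0 : 0 < τ)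
    (r : ℝ) (h1 : τ * r ≤ 1 / 10) (D : Dict A) (pos : A → ℕ → A)
    (H : A → ℕ → ℝ) (k b : ℕ) (hf : ¬ Rl τ lam r D pos H k b) :
    ∃ x : Elem A, x.lev = k ∧ x.blk = b ∧ ip (blk k b) x.psi x.psi ≤ 1 ∧
      Cs τ lam (addE x D) pos H k b ≤ Cs τ lam D pos H k b - lam * vol D.nu k / 3 := by
  classical
  unfold Rl at hf
  push Not at hf
  obtain ⟨q, w, hqw⟩ := hf
  set J := blk k b with hJ
  have hw0 : 0 < ip J w w := by
    rcases (ip_self_nonneg J w).lt_or_eq with h | h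
    · exact h
    · exfalso
      have hs : ∑ u : A, (if D.nu k (pos u (b * 2 ^ k) * q⁻¹) ≤ r then
          ip J (rsd τ D lam k b (pos u) (H u)) w ^ 2 else 0) ≤ 0 := by
        refine sum_nonpos fun u _ => ?_
        split_ifs
        · have h2 := ip_cs J (rsd τ D lam k b (pos u) (H u)) w
          rw [← h, mul_zero] at h2
          exact h2
        · exact le_rfl
      rw [← h, mul_zero] at hqw
      linarith
  set c : ℝ := 1 / Real.sqrt (ip J w w) with hc
  have hc2 : c ^ 2 * ip J w w = 1 := by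
    rw [hc, div_pow, one_pow, Real.sq_sqrt hw0.le]
    field_simp
  set w' : ℕ → ℝ := fun t => c * w t with hw'
  have hip : ∀ f : ℕ → ℝ, ip J w' f = c * ip J w f := fun f => ip_smul_left J c w f
  have hww : ip J w' w' = 1 := by
    rw [hip, ip_comm, hip, ← mul_assoc, ← sq]
    exact hc2
  set x : Elem A := ⟨k, b, q, w'⟩ with hx
  refine ⟨x, rfl, rfl, by rw [show x.psi = w' from rfl, hww], ?_⟩
  have hterm : ∀ u : A, mc τ (addE x D) lam k b (pos u) (H u) ≤
      mc τ D lam k b (pos u) (H u) - (if D.nu k (pos u (b * 2 ^ k) * q⁻¹) ≤ r then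
        ip J (rsd τ D lam k b (pos u) (H u)) w ^ 2 else 0) * (c ^ 2 / 3) := by
    intro u
    by_cases hu : D.nu k (pos u (b * 2 ^ k) * q⁻¹) ≤ r
    · rw [if_pos hu]
      have hd : x.dist D.nu (pos u) ≤ r := hu
      have hdr := mc_addE_drop τ x D lam hl k b (pos u) (H u)
      set a : ℝ := Real.exp (-(τ / 2) * x.dist D.nu (pos u)) with ha
      have hcol : colE τ D.nu x k b (pos u) = fun t => a * w' t := by
        funext t
        unfold colE
        rw [if_pos]
        refine ⟨le_rfl, ?_⟩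
        show b / 2 ^ (k - k) = b
        simp
      have hip2 : ∀ f : ℕ → ℝ, ip J (colE τ D.nu x k b (pos u)) f = a * (c * ip J w f) := by
        intro f
        rw [hcol, ← hip]
        exact ip_smul_left J a w' f
      have hself : ip J (colE τ D.nu x k b (pos u)) (colE τ D.nu x k b (pos u)) = a ^ 2 := by
        have e1 : ip J (fun t => a * w' t) (fun t => a * w' t) = a * (a * ip J w' w') := by
          rw [ip_smul_left J a w' (fun t => a * w' t), ip_comm J w' (fun t => a * w' t),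
            ip_smul_left J a w' w']
        rw [hcol, e1, hww]
        ring
      rw [← hJ, hip2, hself] at hdr
      have ha9 : 9 / 10 ≤ a := by
        have e1 : 1 + (-(τ / 2) * x.dist D.nu (pos u)) ≤ a := by
          have := Real.add_one_le_exp (-(τ / 2) * x.dist D.nu (pos u))
          rw [← ha] at this
          linarith
        have e2 : τ / 2 * x.dist D.nu (pos u) ≤ 1 / 20 := by
          have := mul_le_mul_of_nonneg_left hd (by positivity : (0 : ℝ) ≤ τ / 2)
          linarith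
        have e3 : -(τ / 2) * x.dist D.nu (pos u) = - (τ / 2 * x.dist D.nu (pos u)) := by ring
        rw [e3] at e1
        linarith
      have hfr : 1 / 3 ≤ a ^ 2 / (a ^ 2 + lam) := by
        rw [div_le_div_iff₀ (by norm_num) (by positivity)]
        nlinarith [mul_self_nonneg (a - 9 / 10)]
      have e4 : (a * (c * ip J w (rsd τ D lam k b (pos u) (H u)))) ^ 2 / (a ^ 2 + lam) =
          a ^ 2 / (a ^ 2 + lam) *
            (ip J (rsd τ D lam k b (pos u) (H u)) w ^ 2 * c ^ 2) := by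
        rw [ip_comm J w]
        ring
      rw [e4] at hdr
      have e5 : 0 ≤ ip J (rsd τ D lam k b (pos u) (H u)) w ^ 2 * c ^ 2 := by positivity
      have e6 := mul_le_mul_of_nonneg_right hfr e5
      calc mc τ (addE x D) lam k b (pos u) (H u) ≤ _ := hdr
        _ ≤ _ := by linarith
    · rw [if_neg hu, zero_mul, sub_zero]
      exact mc_addE_le τ x D lam hl k b _ _
  have hsum := sum_le_sum fun u (_ : u ∈ (univ : Finset A)) => hterm u
  rw [sum_sub_distrib, ← sum_mul] at hsum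
  have hcp : 0 < c ^ 2 / 3 := by
    have : 0 < c := by rw [hc]; positivity
    positivity
  have h7 := mul_lt_mul_of_pos_right hqw hcp
  have h8 : lam * vol D.nu k * ip J w w * (c ^ 2 / 3) = lam * vol D.nu k / 3 := by
    have : lam * vol D.nu k * ip J w w * (c ^ 2 / 3) = lam * vol D.nu k * (c ^ 2 * ip J w w) / 3 := by ring
    rw [this, hc2, mul_one]
  rw [h8] at h7
  unfold Cs
  linarith

/-- total cost at level `k` -/
private def Pk (M : Mod A) (K : ℕ) (F G : A → ℕ → ℝ) (τ lam : ℝ) (D : Dict A) (k : ℕ) : ℝ :=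
  ∑ b ∈ range (2 ^ (K - k)), (Cs τ lam D M.pT F k b + Cs τ lam D M.pS G k b)

private theorem Pk_nonneg (M : Mod A) (K : ℕ) (F G : A → ℕ → ℝ) (τ lam : ℝ) (hl : 0 < lam) (D : Dict A)
    (k : ℕ) : 0 ≤ Pk M K F G τ lam D k :=
  sum_nonneg fun b _ => add_nonneg (Cs_nonneg τ lam hl D M.pT F k b)
    (Cs_nonneg τ lam hl D M.pS G k b)

private theorem Pk_addE (M : Mod A) (K : ℕ) (F G : A → ℕ → ℝ) (τ lam : ℝ) (hl : 0 < lam)
    (x : Elem A) (D : Dict A) (k b : ℕ) (hb : b < 2 ^ (K - k)) (δ : ℝ)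
    (h : Cs τ lam (addE x D) M.pT F k b ≤ Cs τ lam D M.pT F k b - δ ∨
      Cs τ lam (addE x D) M.pS G k b ≤ Cs τ lam D M.pS G k b - δ) :
    Pk M K F G τ lam (addE x D) k ≤ Pk M K F G τ lam D k - δ := by
  have hb' : b ∈ range (2 ^ (K - k)) := mem_range.2 hb
  unfold Pk
  rw [← add_sum_erase _ _ hb', ← add_sum_erase (range (2 ^ (K - k)))
    (fun b => Cs τ lam D M.pT F k b + Cs τ lam D M.pS G k b) hb']
  have h1 : ∑ x_1 ∈ (range (2 ^ (K - k))).erase b,
      (Cs τ lam (addE x D) M.pT F k x_1 + Cs τ lam (addE x D) M.pS G k x_1) ≤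
      ∑ x_1 ∈ (range (2 ^ (K - k))).erase b,
      (Cs τ lam D M.pT F k x_1 + Cs τ lam D M.pS G k x_1) :=
    sum_le_sum fun b' _ => add_le_add (Cs_addE_le τ lam hl x D M.pT F k b')
      (Cs_addE_le τ lam hl x D M.pS G k b')
  have h2 := Cs_addE_le τ lam hl x D M.pT F k b
  have h3 := Cs_addE_le τ lam hl x D M.pS G k b
  rcases h with h | h <;> linarith

private theorem wt_addE (x : Elem A) (D : Dict A) :
    wt (addE x D) = vol D.nu x.lev * 2 ^ x.lev + wt D := by
  unfold wt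
  show ∑ i : Fin (D.n + 1), vol D.nu ((Fin.cons x D.el : Fin (D.n + 1) → Elem A) i).lev *
    2 ^ ((Fin.cons x D.el : Fin (D.n + 1) → Elem A) i).lev = _
  rw [Fin.sum_univ_succ]
  simp only [Fin.cons_zero, Fin.cons_succ]

private theorem wt_ge (D : Dict A) (hv : ∀ k, 1 ≤ vol D.nu k) : (D.n : ℝ) ≤ wt D := by
  unfold wt
  have h : ∑ i : Fin D.n, (1 : ℝ) ≤ ∑ i, vol D.nu (D.el i).lev * 2 ^ (D.el i).lev := by
    refine sum_le_sum fun i _ => ?_
    have h1 := hv (D.el i).lev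
    have h2 : (1 : ℝ) ≤ 2 ^ (D.el i).lev := one_le_pow₀ (by norm_num)
    nlinarith
  simpa using h

/-- invariant: rules at the levels in `[r, K]`, weight bound at level `k` -/
private structure Good (M : Mod A) (nu : ℕ → A → ℝ) (ra : ℝ) (K : ℕ) (F G : A → ℕ → ℝ)
    (Om : Finset A) (τ lam : ℝ) (r k : ℕ) (D : Dict A) : Prop where
  hnu : D.nu = nu
  lev_le : ∀ i, (D.el i).lev ≤ K
  blk_lt : ∀ i, (D.el i).blk < 2 ^ (K - (D.el i).lev)
  unit : ∀ i, ip (blk (D.el i).lev (D.el i).blk) (D.el i).psi (D.el i).psi ≤ 1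
  ruleT : ∀ j, r ≤ j → j ≤ K → ∀ b < 2 ^ (K - j), Rl τ lam ra D M.pT F j b
  ruleS : ∀ j, r ≤ j → j ≤ K → ∀ b < 2 ^ (K - j), Rl τ lam ra D M.pS G j b
  wt : lam / 3 * wt D + 2 ^ k * Pk M K F G τ lam D k ≤ 2 * 2 ^ K * Om.card

/-- one more element -/
private theorem good_add (M : Mod A) (nu : ℕ → A → ℝ) (ra : ℝ) (Om : Finset A) (K : ℕ) (F G : A → ℕ → ℝ) (τ lam : ℝ) (hl : 0 < lam) (hl1 : lam ≤ 1)
    (h0 : 0 < τ) (h1 : τ * ra ≤ 1 / 10) (k : ℕ) (hk : k ≤ K) (D : Dict A)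
    (hD : Good M nu ra K F G Om τ lam (k + 1) k D) (hn : ¬ Good M nu ra K F G Om τ lam k k D) :
    ∃ D' : Dict A, Good M nu ra K F G Om τ lam (k + 1) k D' ∧ D'.n = D.n + 1 := by
  have hfail : ∃ b < 2 ^ (K - k), ¬ Rl τ lam ra D M.pT F k b ∨ ¬ Rl τ lam ra D M.pS G k b := by
    by_contra hcon
    push Not at hcon
    apply hn
    refine ⟨hD.hnu, hD.lev_le, hD.blk_lt, hD.unit, ?_, ?_, hD.wt⟩
    · intro j hj hjK b hb
      rcases hj.eq_or_lt with rfl | hj
      · exact (hcon b hb).1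
      · exact hD.ruleT j hj hjK b hb
    · intro j hj hjK b hb
      rcases hj.eq_or_lt with rfl | hj
      · exact (hcon b hb).2
      · exact hD.ruleS j hj hjK b hb
  obtain ⟨b, hb, hor⟩ := hfail
  have hx : ∃ x : Elem A, x.lev = k ∧ x.blk = b ∧ ip (blk k b) x.psi x.psi ≤ 1 ∧
      (Cs τ lam (addE x D) M.pT F k b ≤ Cs τ lam D M.pT F k b - lam * vol D.nu k / 3 ∨
      Cs τ lam (addE x D) M.pS G k b ≤ Cs τ lam D M.pS G k b - lam * vol D.nu k / 3) := by
    rcases hor with h | h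
    · obtain ⟨x, e1, e2, e3, e4⟩ := fail_step τ lam hl hl1 h0 ra h1 D M.pT F k b h
      exact ⟨x, e1, e2, e3, Or.inl e4⟩
    · obtain ⟨x, e1, e2, e3, e4⟩ := fail_step τ lam hl hl1 h0 ra h1 D M.pS G k b h
      exact ⟨x, e1, e2, e3, Or.inr e4⟩
  obtain ⟨x, e1, e2, e3, e4⟩ := hx
  have hP := Pk_addE M K F G τ lam hl x D k b hb (lam * vol D.nu k / 3) e4
  have hrule : ∀ (pos : A → ℕ → A) (H : A → ℕ → ℝ) (j b' : ℕ), k + 1 ≤ j →
      Rl τ lam ra D pos H j b' → Rl τ lam ra (addE x D) pos H j b' := by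
    intro pos H j b' hj hR q w
    have h2 := hR q w
    have h3 : ∀ u : A, rsd τ (addE x D) lam j b' (pos u) (H u) =
        rsd τ D lam j b' (pos u) (H u) := fun u =>
      rsd_addE τ x D lam hl j b' (pos u) (H u) (by omega)
    simp only [h3]
    exact h2
  refine ⟨addE x D, ⟨hD.hnu, ?_, ?_, ?_, ?_, ?_, ?_⟩, rfl⟩
  · intro i
    refine Fin.cases ?_ (fun j => ?_) i
    · show x.lev ≤ K
      omega
    · exact hD.lev_le j
  · intro i
    refine Fin.cases ?_ (fun j => ?_) i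
    · show x.blk < 2 ^ (K - x.lev)
      rw [e1, e2]
      exact hb
    · exact hD.blk_lt j
  · intro i
    refine Fin.cases ?_ (fun j => ?_) i
    · show ip (blk x.lev x.blk) x.psi x.psi ≤ 1
      rw [e1, e2]
      exact e3
    · exact hD.unit j
  · intro j hj hjK b' hb'
    exact hrule M.pT F j b' hj (hD.ruleT j hj hjK b' hb')
  · intro j hj hjK b' hb'
    exact hrule M.pS G j b' hj (hD.ruleS j hj hjK b' hb')
  · rw [wt_addE, e1]
    have h5 := hD.wt
    have h6 : (2 : ℝ) ^ k * Pk M K F G τ lam (addE x D) k ≤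
        2 ^ k * (Pk M K F G τ lam D k - lam * vol D.nu k / 3) :=
      mul_le_mul_of_nonneg_left hP (by positivity)
    have h7 : (2 : ℝ) ^ k * (Pk M K F G τ lam D k - lam * vol D.nu k / 3) =
        2 ^ k * Pk M K F G τ lam D k - lam / 3 * (vol D.nu k * 2 ^ k) := by ring
    rw [h7] at h6
    linarith

/-- one level -/
private theorem good_level (M : Mod A) (nu : ℕ → A → ℝ) (ra : ℝ) (Om : Finset A)
    (hv : ∀ k, 1 ≤ vol nu k) (K : ℕ) (F G : A → ℕ → ℝ) (τ lam : ℝ) (hl : 0 < lam)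
    (hl1 : lam ≤ 1) (h0 : 0 < τ) (h1 : τ * ra ≤ 1 / 10) (k : ℕ) (hk : k ≤ K) (D : Dict A)
    (hD : Good M nu ra K F G Om τ lam (k + 1) k D) : ∃ D' : Dict A, Good M nu ra K F G Om τ lam k k D' := by
  by_contra hcon
  push Not at hcon
  have hall : ∀ n : ℕ, ∃ D' : Dict A, Good M nu ra K F G Om τ lam (k + 1) k D' ∧ n ≤ D'.n := by
    intro n
    induction n with
    | zero => exact ⟨D, hD, Nat.zero_le _⟩
    | succ n ih =>
      obtain ⟨D', h2, h3⟩ := ih
      obtain ⟨D2, h4, h5⟩ := good_add M nu ra Om K F G τ lam hl hl1 h0 h1 k hk D' h2 (hcon D')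
      exact ⟨D2, h4, by omega⟩
  obtain ⟨n, hn⟩ := exists_nat_gt (6 * 2 ^ K * (Om.card : ℝ) / lam)
  obtain ⟨D', h2, h3⟩ := hall n
  have h4 := h2.wt
  have h5 := wt_ge D' (by rw [h2.hnu]; exact hv)
  have h6 : (0 : ℝ) ≤ 2 ^ k * Pk M K F G τ lam D' k :=
    mul_nonneg (by positivity) (Pk_nonneg M K F G τ lam hl D' k)
  have h7 : (n : ℝ) ≤ D'.n := by exact_mod_cast h3
  rw [div_lt_iff₀ hl] at hn
  have h8 : lam / 3 * (n : ℝ) ≤ lam / 3 * wt D' :=
    mul_le_mul_of_nonneg_left (h7.trans h5) (by positivity)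
  nlinarith

/-- the cost of the children -/
private theorem Pk_child (M : Mod A) (K : ℕ) (F G : A → ℕ → ℝ) (τ lam : ℝ) (hl : 0 < lam) (D : Dict A)
    (k : ℕ) (hk : k + 1 ≤ K) : Pk M K F G τ lam D k ≤ 2 * Pk M K F G τ lam D (k + 1) := by
  have hmc : ∀ (y : ℕ → A) (f : ℕ → ℝ) (b : ℕ),
      mc τ D lam k (2 * b) y f + mc τ D lam k (2 * b + 1) y f ≤ 2 * mc τ D lam (k + 1) b y f := by
    intro y f b
    have h1 := cst_children τ D lam k b y f (xi τ D lam (k + 1) b y f)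
      (fun i hi => xi_supp τ D lam hl (k + 1) b y f i hi)
    have h2 := mcs_le_cst (blk k (2 * b)) (col τ D k (2 * b) y) lam hl f
      (xi τ D lam (k + 1) b y f)
    have h3 := mcs_le_cst (blk k (2 * b + 1)) (col τ D k (2 * b + 1) y) lam hl f
      (xi τ D lam (k + 1) b y f)
    have h4 : mc τ D lam (k + 1) b y f =
        cst (blk (k + 1) b) (col τ D (k + 1) b y) lam f (xi τ D lam (k + 1) b y f) := rfl
    rw [h4, ← h1]
    unfold mc
    linarith
  have hCs : ∀ (pos : A → ℕ → A) (H : A → ℕ → ℝ) (b : ℕ),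
      Cs τ lam D pos H k (2 * b) + Cs τ lam D pos H k (2 * b + 1) ≤
        2 * Cs τ lam D pos H (k + 1) b := by
    intro pos H b
    unfold Cs
    rw [← sum_add_distrib, mul_sum]
    exact sum_le_sum fun u _ => hmc (pos u) (H u) b
  have hr : ∀ (n : ℕ) (φ : ℕ → ℝ), ∑ b ∈ range (2 * n), φ b =
      ∑ b ∈ range n, (φ (2 * b) + φ (2 * b + 1)) := by
    intro n φ
    induction n with
    | zero => simp
    | succ n ih =>
      rw [show 2 * (n + 1) = 2 * n + 1 + 1 by ring, sum_range_succ, sum_range_succ, ih,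
        sum_range_succ]
      ring
  have hp : 2 ^ (K - k) = 2 * 2 ^ (K - (k + 1)) := by
    rw [← pow_succ']
    congr 1
    omega
  unfold Pk
  rw [hp, hr, mul_sum]
  refine sum_le_sum fun b _ => ?_
  have h1 := hCs M.pT F b
  have h2 := hCs M.pS G b
  linarith

private theorem good_exists (M : Mod A) (nu : ℕ → A → ℝ) (ra : ℝ) (Om : Finset A)
    (hv : ∀ k, 1 ≤ vol nu k) (K : ℕ) (F G : A → ℕ → ℝ) (hF : ∀ u t, |F u t| ≤ 1)
    (hG : ∀ u t, |G u t| ≤ 1) (hF0 : ∀ u t, u ∉ Om → F u t = 0) (hG0 : ∀ u t, u ∉ Om → G u t = 0)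
    (lam τ : ℝ) (hl : 0 < lam) (hl1 : lam ≤ 1) (h0 : 0 < τ)
    (h1 : τ * ra ≤ 1 / 10) (j : ℕ) (hj : j ≤ K) :
    ∃ D : Dict A, Good M nu ra K F G Om τ lam (K - j) (K - j) D := by
  classical
  induction j with
  | zero =>
    refine good_level M nu ra Om hv K F G τ lam hl hl1 h0 h1 (K - 0) (by omega)
      ⟨nu, 0, Fin.elim0⟩
      ⟨rfl, fun i => i.elim0, fun i => i.elim0, fun i => i.elim0, ?_, ?_, ?_⟩
    · intro j hj hjK
      omega
    · intro j hj hjK
      omega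
    · have hW : wt (⟨nu, 0, Fin.elim0⟩ : Dict A) = 0 := by
        unfold wt
        exact Finset.sum_of_isEmpty _
      have hc : ∀ (pos : A → ℕ → A) (H : A → ℕ → ℝ), (∀ u t, |H u t| ≤ 1) →
          (∀ u t, u ∉ Om → H u t = 0) →
          Cs τ lam (⟨nu, 0, Fin.elim0⟩ : Dict A) pos H K 0 ≤ (Om.card : ℝ) := by
        intro pos H hH hH0
        unfold Cs
        calc ∑ u : A, mc τ (⟨nu, 0, Fin.elim0⟩ : Dict A) lam K 0 (pos u) (H u)
            ≤ ∑ u : A, (if u ∈ Om then (1 : ℝ) else 0) := by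
              refine sum_le_sum fun u _ => ?_
              split_ifs with hu
              · exact (mcs_le _ _ _ hl _).trans (ip_le_one _ _ (hH u))
              · exact (mc_zero τ _ lam hl K 0 (pos u) (H u) (fun t => hH0 u t hu)).le
          _ = (Om.card : ℝ) := by
              rw [sum_ite_mem, univ_inter, sum_const, nsmul_eq_mul, mul_one]
      have hT := hc M.pT F hF hF0
      have hS := hc M.pS G hG hG0
      have hP : Pk M K F G τ lam (⟨nu, 0, Fin.elim0⟩ : Dict A) (K - 0) ≤ 2 * (Om.card : ℝ) := by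
        unfold Pk
        rw [Nat.sub_zero, Nat.sub_self, pow_zero, sum_range_one]
        linarith
      rw [hW, mul_zero, zero_add]
      have h9 : (2 : ℝ) ^ (K - 0) * Pk M K F G τ lam (⟨nu, 0, Fin.elim0⟩ : Dict A) (K - 0) ≤
          2 ^ (K - 0) * (2 * (Om.card : ℝ)) := mul_le_mul_of_nonneg_left hP (by positivity)
      rw [Nat.sub_zero] at h9 ⊢
      linarith
  | succ j ih =>
    obtain ⟨D, hD⟩ := ih (by omega)
    have ek : K - j = K - (j + 1) + 1 := by omega
    rw [ek] at hD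
    refine good_level M nu ra Om hv K F G τ lam hl hl1 h0 h1 (K - (j + 1)) (by omega) D
      ⟨hD.hnu, hD.lev_le, hD.blk_lt, hD.unit, hD.ruleT, hD.ruleS, ?_⟩
    have h2 := hD.wt
    have h3 := Pk_child M K F G τ lam hl D (K - (j + 1)) (by omega)
    have h4 : (2 : ℝ) ^ (K - (j + 1)) * Pk M K F G τ lam D (K - (j + 1)) ≤
        2 ^ (K - (j + 1)) * (2 * Pk M K F G τ lam D (K - (j + 1) + 1)) :=
      mul_le_mul_of_nonneg_left h3 (by positivity)
    have h5 : (2 : ℝ) ^ (K - (j + 1)) * (2 * Pk M K F G τ lam D (K - (j + 1) + 1)) =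
        2 ^ (K - (j + 1) + 1) * Pk M K F G τ lam D (K - (j + 1) + 1) := by
      rw [pow_succ]
      ring
    rw [h5] at h4
    linarith

theorem sys_exists (M : Mod A) (nu : ℕ → A → ℝ) (C : ℕ) (hGe : Geo M nu C) (K : ℕ)
    (F G : A → ℕ → ℝ) (Om : Finset A) (hF : ∀ u t, |F u t| ≤ 1)
    (hG : ∀ u t, |G u t| ≤ 1) (hF0 : ∀ u t, u ∉ Om → F u t = 0) (hG0 : ∀ u t, u ∉ Om → G u t = 0)
    (lam τ : ℝ) (hl : 0 < lam) (hl1 : lam ≤ 1) (h0 : 0 < τ)
    (h1 : τ * (C + 1) ≤ 1 / 10) : ∃ D : Dict A, IsSys M nu C K F G Om lam τ D := by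
  obtain ⟨D, hD⟩ := good_exists M nu (C + 1) Om (vol_ge_one hGe) K F G hF hG hF0 hG0 lam τ hl hl1
    h0 h1 K le_rfl
  rw [Nat.sub_self] at hD
  have hnu := hD.hnu
  subst hnu
  refine ⟨D, rfl, hD.lev_le, hD.blk_lt, hD.unit, ?_, ?_, ?_⟩
  · intro k hk b hb
    exact hD.ruleT k (Nat.zero_le _) hk b hb
  · intro k hk b hb
    exact hD.ruleS k (Nat.zero_le _) hk b hb
  · have h2 := hD.wt
    have h3 : (0 : ℝ) ≤ 2 ^ 0 * Pk M K F G τ lam D 0 :=
      mul_nonneg (by positivity) (Pk_nonneg M K F G τ lam hl D 0)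
    have e : 6 / lam * 2 ^ K * (Om.card : ℝ) = (6 * 2 ^ K * (Om.card : ℝ)) / lam := by ring
    rw [e, le_div_iff₀ hl]
    nlinarith

end

end NPG
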