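import Pool.Agent.NPG.Proc

/-!
# NPG / Ker : the slowly varying averages

`av M nu C k l f u` is the average of `f (d * u)` with the weights
`exp (- nu (k + s0 C) (M.aT l d))` (`M.aT l` is a bijection of `A`).

Adaptation of `NP2/Ker`.  Plan:
* `ker_sum_w` : `Equiv.sum_comp (M.aT l).toEquiv`.
* `av_symm` : `d = w * u⁻¹`, `nu k x⁻¹ = nu k x`.
* `av_harnack` : substitute `w = d' * d`, `nu (aT l w) ≤ nu (aT l (w d⁻¹)) + nu (aT l d)`.
* `kz_le` : `exp (-x) ≤ ∑_{n < N} [x ≤ n + 1] exp (-n)` with `n = ⌊x⌋₊` (`N` larger than all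
  the floors), growth with `r = n + 1`: `#{nu ≤ n+1} ≤ C (n+1)^C vol`, and
  `n + 1 ≤ (2C+2) (1 + n/(2C+2)) ≤ (2C+2) exp (n/(2C+2))`, so `(n+1)^C ≤ (2C+2)^C exp (n/2)`;
  `∑ exp (-n/2) ≤ 1/(1 - exp (-1/2)) ≤ 8`.
* `av_mass` : the sum is at least `exp (-1/2) vol nu (k + s0 C)`, and `kz_le`
  (`0.6/Zc ≥ 1/(2 Zc)`).
* `vol_add_le` : iterate `vol_succ`.
* `sum_le_av` : every `w ∈ s` has weight at least `exp (-1)` because
  `nu (k + s0) ≤ 2^(-s0) nu k ≤ 1`, then `kz_le`, `vol_add_le`, `exp 1 ≤ 3`.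
-/

namespace NPG
open Finset

noncomputable section

variable {A : Type} [Group A] [Fintype A]

/-- normalisation -/
def kz (nu : ℕ → A → ℝ) (C k : ℕ) : ℝ := ∑ y : A, Real.exp (-nu (k + s0 C) y)

/-- weighted average at level `k`, left end `l` -/
def av (M : Mod A) (nu : ℕ → A → ℝ) (C k l : ℕ) (f : A → ℝ) (u : A) : ℝ :=
  (∑ d : A, Real.exp (-nu (k + s0 C) (M.aT l d)) * f (d * u)) / kz nu C k

/-- constant of `sum_le_av` -/
def Wk (C : ℕ) : ℕ := 3 * Zc C * C ^ s0 C

theorem s0_le {C : ℕ} : (10 : ℝ) ^ 6 * C ^ 4 * D0 C ≤ 2 ^ s0 C := by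
  have h : 10 ^ 6 * C ^ 4 * D0 C ≤ 2 ^ s0 C := Nat.le_pow_clog (by norm_num) _
  exact_mod_cast h

theorem Zc_pos {C : ℕ} (hC : 1 ≤ C) : 1 ≤ Zc C := by
  unfold Zc
  have h : 0 < 8 * C * (2 * C + 2) ^ C := by positivity
  omega

variable {M : Mod A} {nu : ℕ → A → ℝ} {C : ℕ}

theorem kz_pos (k : ℕ) : 0 < kz nu C k := by
  unfold kz
  exact Finset.sum_pos (fun y _ => Real.exp_pos _) ⟨1, mem_univ _⟩

/-- the weights sum to the normalisation -/
theorem ker_sum_w (k l : ℕ) : ∑ d : A, Real.exp (-nu (k + s0 C) (M.aT l d)) = kz nu C k := by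
  unfold kz
  exact Equiv.sum_comp (M.aT l).toEquiv (fun y => Real.exp (-nu (k + s0 C) y))

theorem nu_add (h : Geo M nu C) (k j : ℕ) (x : A) : nu (k + j) x ≤ nu k x / 2 ^ j := by
  induction j with
  | zero => simp
  | succ j ih =>
    have h1 := h.up (k + j) x
    rw [← add_assoc, pow_succ, ← div_div]
    refine h1.trans ?_
    exact div_le_div_of_nonneg_right ih (by norm_num)

theorem vol_pos (h : Geo M nu C) (k : ℕ) : 1 ≤ vol nu k := by
  unfold vol
  have h1 : 0 < Nat.card {x : A // nu k x ≤ 1 / 2} := by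
    have : Nonempty {x : A // nu k x ≤ 1 / 2} := ⟨⟨1, by rw [h.one]; norm_num⟩⟩
    exact Nat.card_pos
  exact_mod_cast h1

theorem vol_add_le (h : Geo M nu C) (k j : ℕ) : vol nu (k + j) ≤ (C : ℝ) ^ j * vol nu k := by
  induction j with
  | zero => simp
  | succ j ih =>
    have h1 : vol nu (k + j + 1) ≤ C * vol nu (k + j) := h.vol_succ (k + j)
    rw [← add_assoc, pow_succ]
    refine h1.trans ?_
    have hC : (0 : ℝ) ≤ C := Nat.cast_nonneg _
    nlinarith [mul_le_mul_of_nonneg_left ih hC]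

private theorem ker_geo (N : ℕ) : ∑ n ∈ range N, Real.exp (-((n : ℝ) / 2)) ≤ 8 := by
  set r : ℝ := Real.exp (-(1 / 2)) with hr
  have hr0 : 0 < r := Real.exp_pos _
  have hr1 : r ≤ 7 / 8 := by
    have h1 : (3 : ℝ) / 2 ≤ Real.exp (1 / 2) := by
      have := Real.add_one_le_exp (1 / 2 : ℝ)
      linarith
    have h2 : r * Real.exp (1 / 2) = 1 := by
      rw [hr, ← Real.exp_add]; simp
    nlinarith
  have hterm : ∀ n ∈ range N, Real.exp (-((n : ℝ) / 2)) = r ^ n := by
    intro n _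
    rw [hr, ← Real.exp_nat_mul]
    congr 1
    ring
  rw [Finset.sum_congr rfl hterm]
  have hs := Summable.sum_le_tsum (range N) (fun n _ => (by positivity : 0 ≤ r ^ n))
    (summable_geometric_of_lt_one hr0.le (by linarith))
  rw [tsum_geometric_of_lt_one hr0.le (by linarith)] at hs
  refine hs.trans ?_
  rw [inv_le_comm₀ (by linarith) (by norm_num)]
  linarith

private theorem ker_pow (C n : ℕ) :
    ((n : ℝ) + 1) ^ C ≤ (2 * C + 2) ^ C * Real.exp ((n : ℝ) / 2) := by
  have hD : (0 : ℝ) < 2 * C + 2 := by positivity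
  have h1 : (n : ℝ) + 1 ≤ (2 * C + 2) * Real.exp (n / (2 * C + 2)) := by
    have h := Real.add_one_le_exp ((n : ℝ) / (2 * C + 2))
    have h2 : (2 * (C : ℝ) + 2) * (n / (2 * C + 2) + 1) = n + (2 * C + 2) := by
      field_simp
    have h3 := mul_le_mul_of_nonneg_left h hD.le
    have hC : (0 : ℝ) ≤ C := Nat.cast_nonneg _
    linarith
  have h2 : ((n : ℝ) + 1) ^ C ≤ ((2 * C + 2) * Real.exp (n / (2 * C + 2))) ^ C :=
    pow_le_pow_left₀ (by positivity) h1 C
  refine h2.trans ?_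
  rw [mul_pow]
  refine mul_le_mul_of_nonneg_left ?_ (by positivity)
  rw [← Real.exp_nat_mul, Real.exp_le_exp]
  have hn : (0 : ℝ) ≤ n := Nat.cast_nonneg _
  rw [mul_div_assoc', div_le_div_iff₀ hD (by norm_num)]
  nlinarith

theorem kz_le (h : Geo M nu C) (k : ℕ) : kz nu C k ≤ Zc C * vol nu (k + s0 C) := by
  classical
  set m := k + s0 C with hm
  have hv : 0 ≤ vol nu m := le_trans (by norm_num) (vol_pos h m)
  obtain ⟨N, hN⟩ : ∃ N : ℕ, ∀ y : A, ⌊nu m y⌋₊ < N := by
    refine ⟨(∑ y : A, ⌊nu m y⌋₊) + 1, fun y => ?_⟩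
    have : ⌊nu m y⌋₊ ≤ ∑ y : A, ⌊nu m y⌋₊ :=
      Finset.single_le_sum (f := fun y : A => ⌊nu m y⌋₊) (fun _ _ => Nat.zero_le _) (mem_univ y)
    omega
  have h1 : kz nu C k ≤ ∑ y : A, Real.exp (-(⌊nu m y⌋₊ : ℝ)) := by
    unfold kz
    refine Finset.sum_le_sum fun y _ => ?_
    rw [Real.exp_le_exp, ← hm]
    have := Nat.floor_le (h.nonneg m y)
    linarith
  have h2 : ∑ y : A, Real.exp (-(⌊nu m y⌋₊ : ℝ)) = ∑ n ∈ range N,
      ∑ y ∈ (univ : Finset A).filter (fun y => ⌊nu m y⌋₊ = n), Real.exp (-(n : ℝ)) := by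
    rw [← Finset.sum_fiberwise_of_maps_to (s := univ) (t := range N)
      (g := fun y : A => ⌊nu m y⌋₊)]
    · refine Finset.sum_congr rfl fun n _ => Finset.sum_congr rfl fun y hy => ?_
      rw [(mem_filter.1 hy).2]
    · intro y _
      rw [mem_range]
      exact hN y
  have h3 : ∀ n ∈ range N,
      ∑ y ∈ (univ : Finset A).filter (fun y => ⌊nu m y⌋₊ = n), Real.exp (-(n : ℝ)) ≤
        (C * (2 * C + 2) ^ C * vol nu m) * Real.exp (-((n : ℝ) / 2)) := by
    intro n _
    rw [Finset.sum_const, nsmul_eq_mul]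
    have hc : (((univ : Finset A).filter (fun y => ⌊nu m y⌋₊ = n)).card : ℝ) ≤
        C * ((n : ℝ) + 1) ^ C * vol nu m := by
      have g1 := h.growth m ((n : ℝ) + 1) (by linarith [(Nat.cast_nonneg n : (0 : ℝ) ≤ n)])
      refine le_trans ?_ g1
      have g2 : ((univ : Finset A).filter (fun y => ⌊nu m y⌋₊ = n)).card ≤
          Nat.card {x : A // nu m x ≤ (n : ℝ) + 1} := by
        rw [Nat.card_eq_fintype_card, Fintype.card_subtype]
        refine card_le_card fun y hy => ?_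
        rw [mem_filter] at hy ⊢
        refine ⟨mem_univ _, ?_⟩
        rw [← hy.2]
        exact (Nat.lt_floor_add_one _).le
      exact_mod_cast g2
    have he := Real.exp_pos (-(n : ℝ))
    have hp := ker_pow C n
    calc (((univ : Finset A).filter (fun y => ⌊nu m y⌋₊ = n)).card : ℝ) * Real.exp (-(n : ℝ))
        ≤ (C * ((n : ℝ) + 1) ^ C * vol nu m) * Real.exp (-(n : ℝ)) :=
          mul_le_mul_of_nonneg_right hc he.le
      _ ≤ (C * ((2 * C + 2) ^ C * Real.exp ((n : ℝ) / 2)) * vol nu m) * Real.exp (-(n : ℝ)) := by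
          refine mul_le_mul_of_nonneg_right ?_ he.le
          refine mul_le_mul_of_nonneg_right ?_ hv
          exact mul_le_mul_of_nonneg_left hp (Nat.cast_nonneg _)
      _ = (C * (2 * C + 2) ^ C * vol nu m) * (Real.exp ((n : ℝ) / 2) * Real.exp (-(n : ℝ))) := by
          ring
      _ = _ := by
          rw [← Real.exp_add]
          congr 2
          ring
  have h4 := Finset.sum_le_sum h3
  rw [← h2, ← Finset.mul_sum] at h4
  have hK : (0 : ℝ) ≤ C * (2 * C + 2) ^ C * vol nu m := by positivity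
  have h5 := mul_le_mul_of_nonneg_left (ker_geo N) hK
  refine h1.trans (h4.trans (h5.trans (le_of_eq ?_)))
  unfold Zc
  push_cast
  ring

theorem av_const (k l : ℕ) (a : ℝ) (u : A) : av M nu C k l (fun _ => a) u = a := by
  unfold av
  rw [← Finset.sum_mul, ker_sum_w]
  have := (kz_pos (nu := nu) (C := C) k).ne'
  field_simp

theorem av_mono (k l : ℕ) (f g : A → ℝ) (h : ∀ u, f u ≤ g u) (u : A) :
    av M nu C k l f u ≤ av M nu C k l g u := by
  unfold av
  refine div_le_div_of_nonneg_right ?_ (kz_pos k).le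
  exact Finset.sum_le_sum fun d _ => mul_le_mul_of_nonneg_left (h _) (Real.exp_pos _).le

theorem av_add (k l : ℕ) (f g : A → ℝ) (u : A) :
    av M nu C k l (fun u => f u + g u) u = av M nu C k l f u + av M nu C k l g u := by
  unfold av
  rw [← add_div, ← Finset.sum_add_distrib]
  congr 1
  exact Finset.sum_congr rfl fun d _ => by ring

theorem av_nonneg (k l : ℕ) (f : A → ℝ) (h : ∀ u, 0 ≤ f u) (u : A) :
    0 ≤ av M nu C k l f u := by
  unfold av
  exact div_nonneg (Finset.sum_nonneg fun d _ => mul_nonneg (Real.exp_pos _).le (h _))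
    (kz_pos k).le

/-- average of a finite mean -/
theorem av_mean (k l : ℕ) (s : Finset ℕ) (f : ℕ → A → ℝ) (n : ℝ) (u : A) :
    (∑ c ∈ s, av M nu C k l (f c) u) / n = av M nu C k l (fun u => (∑ c ∈ s, f c u) / n) u := by
  unfold av
  rw [← Finset.sum_div, Finset.sum_comm, div_right_comm, Finset.sum_div]
  congr 1
  refine Finset.sum_congr rfl fun d _ => ?_
  rw [← Finset.mul_sum, mul_div_assoc]

theorem av_symm (h : Geo M nu C) (k l : ℕ) (f g : A → ℝ) :
    ∑ u : A, f u * av M nu C k l g u = ∑ u : A, av M nu C k l f u * g u := by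
  unfold av
  have h1 : ∀ u : A, f u * ((∑ d : A, Real.exp (-nu (k + s0 C) (M.aT l d)) * g (d * u)) /
      kz nu C k)
      = ∑ w : A, (f u * Real.exp (-nu (k + s0 C) (M.aT l (w * u⁻¹))) * g w) / kz nu C k := by
    intro u
    rw [← Equiv.sum_comp (Equiv.mulRight u⁻¹)
      (fun d => Real.exp (-nu (k + s0 C) (M.aT l d)) * g (d * u)), ← Finset.sum_div,
      mul_div_assoc', Finset.mul_sum]
    congr 1
    refine Finset.sum_congr rfl fun w _ => ?_
    simp only [Equiv.coe_mulRight, inv_mul_cancel_right]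
    ring
  have h2 : ∀ w : A, ((∑ d : A, Real.exp (-nu (k + s0 C) (M.aT l d)) * f (d * w)) /
      kz nu C k) * g w
      = ∑ u : A, (f u * Real.exp (-nu (k + s0 C) (M.aT l (w * u⁻¹))) * g w) / kz nu C k := by
    intro w
    rw [← Equiv.sum_comp (Equiv.mulRight w⁻¹)
      (fun d => Real.exp (-nu (k + s0 C) (M.aT l d)) * f (d * w)), ← Finset.sum_div,
      div_mul_eq_mul_div, Finset.sum_mul]
    congr 1
    refine Finset.sum_congr rfl fun u _ => ?_
    simp only [Equiv.coe_mulRight, inv_mul_cancel_right]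
    have : M.aT l (w * u⁻¹) = (M.aT l (u * w⁻¹))⁻¹ := by
      rw [← map_inv]
      congr 1
      group
    rw [this, h.inv]
    ring
  rw [Finset.sum_congr rfl (fun u _ => h1 u), Finset.sum_congr rfl (fun w _ => h2 w),
    Finset.sum_comm]

theorem av_sum (h : Geo M nu C) (k l : ℕ) (f : A → ℝ) :
    ∑ u : A, av M nu C k l f u = ∑ u : A, f u := by
  have h := av_symm h k l f (fun _ => 1)
  simp only [av_const, mul_one] at h
  exact h.symm

/-- Harnack -/
theorem av_harnack (hg : Geo M nu C) (k l : ℕ) (f : A → ℝ) (h : ∀ u, 0 ≤ f u) (u d : A) :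
    av M nu C k l f (d * u) ≤ Real.exp (nu (k + s0 C) (M.aT l d)) * av M nu C k l f u := by
  unfold av
  rw [mul_div_assoc']
  refine div_le_div_of_nonneg_right ?_ (kz_pos k).le
  rw [← Equiv.sum_comp (Equiv.mulRight d⁻¹)
      (fun d' => Real.exp (-nu (k + s0 C) (M.aT l d')) * f (d' * (d * u))), Finset.mul_sum]
  refine Finset.sum_le_sum fun w _ => ?_
  simp only [Equiv.coe_mulRight]
  have h1 : w * d⁻¹ * (d * u) = w * u := by group
  rw [h1, ← mul_assoc, ← Real.exp_add]
  refine mul_le_mul_of_nonneg_right ?_ (h _)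
  rw [Real.exp_le_exp]
  have h2 : M.aT l w = M.aT l (w * d⁻¹) * M.aT l d := by
    rw [← map_mul, inv_mul_cancel_right]
  have h3 := hg.mul (k + s0 C) (M.aT l (w * d⁻¹)) (M.aT l d)
  rw [← h2] at h3
  linarith

theorem av_lip (hg : Geo M nu C) (k l : ℕ) (f : A → ℝ) (h0 : ∀ u, 0 ≤ f u) (h1 : ∀ u, f u ≤ 1)
    (u d : A) :
    |av M nu C k l f (d * u) - av M nu C k l f u| ≤
      Real.exp (nu (k + s0 C) (M.aT l d)) - 1 := by
  have hle : ∀ v : A, av M nu C k l f v ≤ 1 := fun v =>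
    (av_mono k l f (fun _ => 1) h1 v).trans (le_of_eq (av_const k l 1 v))
  have hge : ∀ v : A, 0 ≤ av M nu C k l f v := fun v => av_nonneg k l f h0 v
  have hE : 1 ≤ Real.exp (nu (k + s0 C) (M.aT l d)) := Real.one_le_exp (hg.nonneg _ _)
  have ha := av_harnack hg k l f h0 u d
  have hb := av_harnack hg k l f h0 (d * u) d⁻¹
  rw [map_inv, hg.inv, inv_mul_cancel_left] at hb
  rw [abs_le]
  constructor
  · nlinarith [hle (d * u), hge (d * u)]
  · nlinarith [hle u, hge u]

theorem av_mass (hg : Geo M nu C) (k l : ℕ) (f : A → ℝ) (h0 : ∀ u, 0 ≤ f u) (u : A)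
    (h1 : ∀ d, nu (k + s0 C) (M.aT l d) ≤ 1 / 2 → 1 ≤ f (d * u)) :
    1 / (2 * (Zc C : ℝ)) ≤ av M nu C k l f u := by
  classical
  set G := (univ : Finset A).filter (fun d => nu (k + s0 C) (M.aT l d) ≤ 1 / 2) with hG
  have hGcard : (G.card : ℝ) = vol nu (k + s0 C) := by
    unfold vol
    rw [Nat.card_eq_fintype_card, Fintype.card_subtype]
    congr 1
    refine card_bij' (fun d _ => M.aT l d) (fun y _ => (M.aT l).symm y) ?_ ?_ ?_ ?_
    · intro d hd
      rw [hG, mem_filter] at hd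
      rw [mem_filter]
      exact ⟨mem_univ _, hd.2⟩
    · intro y hy
      rw [mem_filter] at hy
      rw [hG, mem_filter]
      refine ⟨mem_univ _, ?_⟩
      rw [MulEquiv.apply_symm_apply]
      exact hy.2
    · intro d _
      exact MulEquiv.symm_apply_apply _ _
    · intro y _
      exact MulEquiv.apply_symm_apply _ _
  have hkz := kz_le hg k
  have hexp : (0.6 : ℝ) ≤ Real.exp (-(1 / 2)) := by
    have h := Real.add_one_le_exp (1 / 2 : ℝ)
    have hs : Real.exp (1 / 2) * Real.exp (1 / 2) = Real.exp 1 := by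
      rw [← Real.exp_add]; norm_num
    have he := Real.exp_one_lt_d9
    have hp := Real.exp_pos (1 / 2 : ℝ)
    have hup : Real.exp (1 / 2) ≤ 1.65 := by
      by_contra hc
      push Not at hc
      nlinarith
    have hmul : Real.exp (-(1 / 2)) * Real.exp (1 / 2) = 1 := by
      rw [← Real.exp_add]; simp
    have hp2 := Real.exp_pos (-(1 / 2) : ℝ)
    by_contra hc
    push Not at hc
    nlinarith
  have hsum : Real.exp (-(1 / 2)) * G.card
      ≤ ∑ d : A, Real.exp (-nu (k + s0 C) (M.aT l d)) * f (d * u) := by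
    calc Real.exp (-(1 / 2)) * G.card = ∑ d ∈ G, Real.exp (-(1 / 2)) := by
          rw [Finset.sum_const, nsmul_eq_mul, mul_comm]
      _ ≤ ∑ d ∈ G, Real.exp (-nu (k + s0 C) (M.aT l d)) * f (d * u) := by
          refine Finset.sum_le_sum fun d hd => ?_
          have hd' := (mem_filter.1 hd).2
          have e1 : Real.exp (-(1 / 2)) ≤ Real.exp (-nu (k + s0 C) (M.aT l d)) := by
            rw [Real.exp_le_exp]; linarith
          have e2 := h1 d hd'
          have e3 := Real.exp_pos (-(1 / 2) : ℝ)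
          nlinarith [Real.exp_pos (-nu (k + s0 C) (M.aT l d))]
      _ ≤ ∑ d : A, Real.exp (-nu (k + s0 C) (M.aT l d)) * f (d * u) := by
          refine Finset.sum_le_sum_of_subset_of_nonneg (subset_univ _) fun d _ _ => ?_
          exact mul_nonneg (Real.exp_pos _).le (h0 _)
  unfold av
  have hkp := kz_pos (nu := nu) (C := C) k
  have hZ : (1 : ℝ) ≤ Zc C := by exact_mod_cast Zc_pos hg.one_le
  rw [div_le_div_iff₀ (by positivity) hkp]
  rw [hGcard] at hsum
  have hv : 1 ≤ vol nu (k + s0 C) := vol_pos hg _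
  have h2 : vol nu (k + s0 C) ≤
      2 * ∑ d : A, Real.exp (-nu (k + s0 C) (M.aT l d)) * f (d * u) := by
    nlinarith
  nlinarith

/-- a sum over a finite set of objects near `u` is controlled by the average -/
theorem sum_le_av (hg : Geo M nu C) (k l : ℕ) (f : A → ℝ) (h0 : ∀ u, 0 ≤ f u) (u : A)
    (s : Finset A) (hs : ∀ w ∈ s, nu k (M.aT l (w * u⁻¹)) ≤ 100 * (C : ℝ) ^ 2) :
    ∑ w ∈ s, f w ≤ Wk C * vol nu k * av M nu C k l f u := by
  have hC : (1 : ℝ) ≤ C := by exact_mod_cast hg.one_le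
  have hD : (1 : ℝ) ≤ D0 C := by
    have : 1 ≤ D0 C := by
      unfold D0
      have := Zc_pos hg.one_le
      omega
    exact_mod_cast this
  have hpow : 100 * (C : ℝ) ^ 2 ≤ 2 ^ s0 C := by
    refine le_trans ?_ (s0_le (C := C))
    have h2 : (C : ℝ) ^ 2 ≤ C ^ 4 := pow_le_pow_right₀ hC (by norm_num)
    have h3 : (0 : ℝ) ≤ (C : ℝ) ^ 4 := by positivity
    nlinarith [mul_le_mul_of_nonneg_left hD h3]
  have hkp := kz_pos (nu := nu) (C := C) k
  have hkl := kz_le hg k
  have hvl := vol_add_le hg k (s0 C)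
  have havn := av_nonneg (M := M) (nu := nu) (C := C) k l f h0 u
  have h1 : Real.exp (-1) * ∑ w ∈ s, f w ≤ kz nu C k * av M nu C k l f u := by
    unfold av
    rw [mul_div_cancel₀ _ hkp.ne',
      ← Equiv.sum_comp (Equiv.mulRight u⁻¹)
        (fun d => Real.exp (-nu (k + s0 C) (M.aT l d)) * f (d * u)),
      Finset.mul_sum]
    calc ∑ w ∈ s, Real.exp (-1) * f w
        ≤ ∑ w ∈ s, Real.exp (-nu (k + s0 C) (M.aT l (w * u⁻¹))) * f (w * u⁻¹ * u) := by
          refine Finset.sum_le_sum fun w hw => ?_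
          rw [inv_mul_cancel_right]
          refine mul_le_mul_of_nonneg_right ?_ (h0 _)
          rw [Real.exp_le_exp]
          have e1 := hs w hw
          have e2 := nu_add hg k (s0 C) (M.aT l (w * u⁻¹))
          have e3 : nu k (M.aT l (w * u⁻¹)) / 2 ^ s0 C ≤ 1 := by
            rw [div_le_one (by positivity)]
            exact e1.trans hpow
          linarith
      _ ≤ _ := by
          refine Finset.sum_le_sum_of_subset_of_nonneg (subset_univ _) fun d _ _ => ?_
          exact mul_nonneg (Real.exp_pos _).le (h0 _)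
  have h2 : ∑ w ∈ s, f w ≤ Real.exp 1 * (kz nu C k * av M nu C k l f u) := by
    have e1 : Real.exp 1 * Real.exp (-1) = 1 := by
      rw [← Real.exp_add]; simp
    calc ∑ w ∈ s, f w = Real.exp 1 * (Real.exp (-1) * ∑ w ∈ s, f w) := by
          rw [← mul_assoc, e1, one_mul]
      _ ≤ _ := mul_le_mul_of_nonneg_left h1 (Real.exp_pos _).le
  have he := Real.exp_one_lt_d9
  have hZ : (0 : ℝ) ≤ Zc C := Nat.cast_nonneg _
  have h3 : kz nu C k ≤ Zc C * (C ^ s0 C * vol nu k) :=
    hkl.trans (mul_le_mul_of_nonneg_left hvl hZ)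
  have h4 : kz nu C k * av M nu C k l f u ≤ Zc C * (C ^ s0 C * vol nu k) * av M nu C k l f u :=
    mul_le_mul_of_nonneg_right h3 havn
  have hv : 0 ≤ vol nu k := le_trans (by norm_num) (vol_pos hg k)
  have hP : 0 ≤ Zc C * (C ^ s0 C * vol nu k) * av M nu C k l f u := by positivity
  have hQ : 0 ≤ kz nu C k * av M nu C k l f u := by positivity
  have h5 : Real.exp 1 * (kz nu C k * av M nu C k l f u) ≤
      3 * (kz nu C k * av M nu C k l f u) :=
    mul_le_mul_of_nonneg_right (by linarith) hQ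
  have h6 : (Wk C : ℝ) * vol nu k * av M nu C k l f u =
      3 * (Zc C * (C ^ s0 C * vol nu k) * av M nu C k l f u) := by
    unfold Wk
    push_cast
    ring
  rw [h6]
  linarith

end

end NPG
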