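import Pool.Agent.NPG.KeyC

/-!
# NPG / KeyD : the smooth bounds of the key lemma
-/

namespace NPG
open Finset
open NP2 (ip blk comb cst rid res mcs ip_comm ip_self_nonneg ip_cs ip_le_one ip_add_left
  ip_smul_left ip_congr ip_comb_left rid_normal rid_unique cst_split mcs_le_cst mcs_nonneg mcs_le
  rid_sq_le res_sq_le rid_cons_zero res_cons_zero mcs_cons_le mcs_cons_drop)

noncomputable section

variable {A : Type} [Group A] [Fintype A]

theorem keyD_pow (x1 x2 e1 y : ℝ) (n : ℕ) (hn : 1 ≤ n) (h1 : |x1| ≤ 1) (h2 : |x2| ≤ 1)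
    (hy : |y| ≤ |x1| + |x2| + e1) :
    y ^ (2 * n) ≤ 4 ^ (2 * n) * (x1 ^ 2 + x2 ^ 2) + (2 * e1) ^ (2 * n) := by
  have hev : Even (2 * n) := even_two_mul n
  rw [← hev.pow_abs y]
  have ha1 := abs_nonneg x1
  have ha2 := abs_nonneg x2
  have hay := abs_nonneg y
  rcases le_total e1 (|x1| + |x2|) with h | h
  · have hm0 : 0 ≤ max |x1| |x2| := le_max_of_le_left ha1
    have hm1 : max |x1| |x2| ≤ 1 := max_le h1 h2
    have h3 : |y| ≤ 4 * max |x1| |x2| := by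
      have := le_max_left |x1| |x2|
      have := le_max_right |x1| |x2|
      linarith
    have h4 : (max |x1| |x2|) ^ (2 * n) ≤ (max |x1| |x2|) ^ 2 :=
      pow_le_pow_of_le_one hm0 hm1 (by omega)
    have h5 : (max |x1| |x2|) ^ 2 ≤ x1 ^ 2 + x2 ^ 2 := by
      rcases max_choice |x1| |x2| with h6 | h6
      · rw [h6, sq_abs]
        nlinarith [sq_nonneg x2]
      · rw [h6, sq_abs]
        nlinarith [sq_nonneg x1]
    have h6 : (0 : ℝ) ≤ (2 * e1) ^ (2 * n) := hev.pow_nonneg _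
    calc |y| ^ (2 * n) ≤ (4 * max |x1| |x2|) ^ (2 * n) := pow_le_pow_left₀ hay h3 _
      _ = 4 ^ (2 * n) * (max |x1| |x2|) ^ (2 * n) := mul_pow _ _ _
      _ ≤ 4 ^ (2 * n) * (x1 ^ 2 + x2 ^ 2) :=
          mul_le_mul_of_nonneg_left (h4.trans h5) (by positivity)
      _ ≤ 4 ^ (2 * n) * (x1 ^ 2 + x2 ^ 2) + (2 * e1) ^ (2 * n) := by linarith
  · have h3 : |y| ≤ 2 * e1 := by linarith
    have h6 : 0 ≤ 4 ^ (2 * n) * (x1 ^ 2 + x2 ^ 2) := by positivity
    have h7 := pow_le_pow_left₀ hay h3 (2 * n)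
    linarith

theorem keyD_comb (z1 z2 a1 a2 b x1 x2 c1 c2 d1 d2 : ℝ) (h1 : |z1 - a1| ≤ c1)
    (h2 : |z2 - a2| ≤ c2) (h3 : |a1 - b + x1| ≤ d1) (h4 : |a2 - b + x2| ≤ d2) :
    |z2 - z1| ≤ |x1| + |x2| + (c1 + c2 + d1 + d2) := by
  rw [abs_le] at h1 h2 h3 h4 ⊢
  have := le_abs_self x1
  have := neg_abs_le x1
  have := le_abs_self x2
  have := neg_abs_le x2
  constructor <;> linarith

theorem keyD_err (C e : ℕ) (hC : 1 ≤ C) (he : 1 ≤ e) :
    (10 * (3 * (C : ℝ) ^ 2 * tauE C e) * (mE C e : ℕ) + 5 * (3 * (C : ℝ) ^ 2 * tauE C e)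
      + Real.sqrt (GamE C e / (2 ^ (mE C e) * lamE C e))) +
    (10 * (3 * (C : ℝ) ^ 2 * tauE C (2 * e)) * (mE C (2 * e) : ℕ)
      + 5 * (3 * (C : ℝ) ^ 2 * tauE C (2 * e))
        + Real.sqrt (GamE C (2 * e) / (2 ^ (mE C (2 * e)) * lamE C (2 * e)))) ≤
      (1 / 2 : ℝ) ^ (3000 * e) := by
  have h1 := keyB_e1 C e hC he
  have h2 := keyB_e1 C (2 * e) hC (by omega)
  have h3 : (1 / 2 : ℝ) ^ (3000 * (2 * e)) ≤ (1 / 2 : ℝ) ^ (3000 * e) :=
    pow_le_pow_of_le_one (by norm_num) (by norm_num) (by omega)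
  unfold tauE mE GamE lamE
  linarith

theorem keyD_abs_le (J : Finset ℕ) (f r : ℕ → ℝ) (hf : ip J f f ≤ 1) (hr : ip J r r ≤ 1) :
    |ip J f r| ≤ 1 := by
  have h1 := ip_cs J f r
  have h2 := ip_self_nonneg J f
  have h3 := ip_self_nonneg J r
  have h4 : ip J f r ^ 2 ≤ 1 := h1.trans (by nlinarith)
  exact (sq_le_one_iff_abs_le_one _).1 h4

section
variable {M : Mod A} {nu : ℕ → A → ℝ} {C : ℕ} (hGe : Geo M nu C)
  (K e : ℕ) (he : 1 ≤ e) (ε : ℝ) (hε : 0 < ε) (D1 D2 : Dict A) (hn1 : D1.nu = nu)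
  (hn2 : D2.nu = nu) (F G : A → ℕ → ℝ)
  (hF : ∀ u t, |F u t| ≤ 1) (hG : ∀ u t, |G u t| ≤ 1)

include hGe he hε hn1 hn2 hF hG in
theorem keyD_xyT (k b : ℕ) (hk : k ≤ K) (u v : A) (hz : near M nu k b (C + 1) u v)
    (hv1 : tr (tauE C e) D1 k b (M.pS v) < GamE C e)
    (hv2 : tr (tauE C (2 * e)) D2 k b (M.pS v) < GamE C (2 * e)) :
    |∑ i, vF C (-1) 1 e K ε D1 D2 M.pT F k b u i * vF C 1 2 e K ε D1 D2 M.pS G k b v i| ≤
      |ip (blk k b) (F u) (rsd (tauE C e) D1 (lamE C e) k b (M.pS v) (G v))| +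
      |ip (blk k b) (F u) (rsd (tauE C (2 * e)) D2 (lamE C (2 * e)) k b (M.pS v) (G v))| +
      ((1 / 2 : ℝ) ^ (3000 * e) + 2 * ε * M0E C e) := by
  have hC := hGe.one_le
  rw [vF_inner]
  have c1 := Zfr_close (tauE C e) D1 (lamE C e) (keyC_lam_pos C e) (mE C e) ε hε K k b hk
    (M.pT u) (F u) (hF u) (M.pS v) (G v) (hG v)
  have c2 := Zfr_close (tauE C (2 * e)) D2 (lamE C (2 * e)) (keyC_lam_pos C (2 * e))
    (mE C (2 * e)) ε hε K k b hk (M.pT u) (F u) (hF u) (M.pS v) (G v) (hG v)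
  have d1 := Ztr_T hGe (tauE C e) (keyC_tau_pos C e).le (keyC_tau_le C e hC he) D1 hn1
    (lamE C e) (keyC_lam_pos C e) (mE C e) k b u v hz (F u) (G v) (hF u) (hG v)
  have d2 := Ztr_T hGe (tauE C (2 * e)) (keyC_tau_pos C (2 * e)).le
    (keyC_tau_le C (2 * e) hC (by omega)) D2 hn2
    (lamE C (2 * e)) (keyC_lam_pos C (2 * e)) (mE C (2 * e)) k b u v hz (F u) (G v) (hF u) (hG v)
  have s1 : Real.sqrt (tr (tauE C e) D1 k b (M.pS v) / (2 ^ (mE C e) * lamE C e)) ≤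
      Real.sqrt (GamE C e / (2 ^ (mE C e) * lamE C e)) := by
    refine Real.sqrt_le_sqrt (div_le_div_of_nonneg_right hv1.le ?_)
    have := keyC_lam_pos C e
    positivity
  have s2 : Real.sqrt (tr (tauE C (2 * e)) D2 k b (M.pS v) /
      (2 ^ (mE C (2 * e)) * lamE C (2 * e))) ≤
      Real.sqrt (GamE C (2 * e) / (2 ^ (mE C (2 * e)) * lamE C (2 * e))) := by
    refine Real.sqrt_le_sqrt (div_le_div_of_nonneg_right hv2.le ?_)
    have := keyC_lam_pos C (2 * e)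
    positivity
  have h0 := keyD_err C e hC he
  have t1 : 0 ≤ 5 * (3 * (C : ℝ) ^ 2 * tauE C e) := by
    have := keyC_tau_pos C e
    positivity
  have t2 : 0 ≤ 5 * (3 * (C : ℝ) ^ 2 * tauE C (2 * e)) := by
    have := keyC_tau_pos C (2 * e)
    positivity
  have hm : 2 * ε * ((mE C e : ℕ) : ℝ) + 2 * ε * ((mE C (2 * e) : ℕ) : ℝ) =
      2 * ε * M0E C e := by
    unfold mE M0E
    push_cast
    ring
  refine (keyD_comb _ _ _ _ _ _ _ _ _ _ _ c1 c2 d1 d2).trans ?_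
  linarith

include hGe he hε hn1 hn2 hF hG in
theorem keyD_xyS (k b : ℕ) (hk : k ≤ K) (u v : A) (hz : near M nu k b (C + 1) u v)
    (hv1 : tr (tauE C e) D1 k b (M.pS v) < GamE C e)
    (hv2 : tr (tauE C (2 * e)) D2 k b (M.pS v) < GamE C (2 * e)) :
    |∑ i, vF C (-1) 1 e K ε D1 D2 M.pT F k b u i * vF C 1 2 e K ε D1 D2 M.pS G k b v i| ≤
      |ip (blk k b) (G v) (rsd (tauE C e) D1 (lamE C e) k b (M.pT u) (F u))| +
      |ip (blk k b) (G v) (rsd (tauE C (2 * e)) D2 (lamE C (2 * e)) k b (M.pT u) (F u))| +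
      ((1 / 2 : ℝ) ^ (3000 * e) + 2 * ε * M0E C e) := by
  have hC := hGe.one_le
  rw [vF_inner]
  have c1 := Zfr_close (tauE C e) D1 (lamE C e) (keyC_lam_pos C e) (mE C e) ε hε K k b hk
    (M.pT u) (F u) (hF u) (M.pS v) (G v) (hG v)
  have c2 := Zfr_close (tauE C (2 * e)) D2 (lamE C (2 * e)) (keyC_lam_pos C (2 * e))
    (mE C (2 * e)) ε hε K k b hk (M.pT u) (F u) (hF u) (M.pS v) (G v) (hG v)
  have d1 := Ztr_S hGe (tauE C e) (keyC_tau_pos C e).le (keyC_tau_le C e hC he) D1 hn1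
    (lamE C e) (keyC_lam_pos C e) (mE C e) k b u v hz (F u) (G v) (hF u) (hG v)
  have d2 := Ztr_S hGe (tauE C (2 * e)) (keyC_tau_pos C (2 * e)).le
    (keyC_tau_le C (2 * e) hC (by omega)) D2 hn2
    (lamE C (2 * e)) (keyC_lam_pos C (2 * e)) (mE C (2 * e)) k b u v hz (F u) (G v) (hF u) (hG v)
  have s1 : Real.sqrt (tr (tauE C e) D1 k b (M.pS v) / (2 ^ (mE C e) * lamE C e)) ≤
      Real.sqrt (GamE C e / (2 ^ (mE C e) * lamE C e)) := by
    refine Real.sqrt_le_sqrt (div_le_div_of_nonneg_right hv1.le ?_)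
    have := keyC_lam_pos C e
    positivity
  have s2 : Real.sqrt (tr (tauE C (2 * e)) D2 k b (M.pS v) /
      (2 ^ (mE C (2 * e)) * lamE C (2 * e))) ≤
      Real.sqrt (GamE C (2 * e) / (2 ^ (mE C (2 * e)) * lamE C (2 * e))) := by
    refine Real.sqrt_le_sqrt (div_le_div_of_nonneg_right hv2.le ?_)
    have := keyC_lam_pos C (2 * e)
    positivity
  have h0 := keyD_err C e hC he
  have hm : 2 * ε * ((mE C e : ℕ) : ℝ) + 2 * ε * ((mE C (2 * e) : ℕ) : ℝ) =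
      2 * ε * M0E C e := by
    unfold mE M0E
    push_cast
    ring
  refine (keyD_comb _ _ _ _ _ _ _ _ _ _ _ c1 c2 d1 d2).trans ?_
  linarith

end

private theorem keyD_lam (C e : ℕ) : lamE C (2 * e) ≤ lamE C e := by
  unfold lamE
  refine pow_le_pow_of_le_one (by norm_num) (by norm_num) (Nat.mul_le_mul_left _ (by omega))

private theorem keyD_res1 (τ : ℝ) (D : Dict A) (lam : ℝ) (hl : 0 < lam) (k b : ℕ)
    (y : ℕ → A) (f : ℕ → ℝ) (hf : ∀ t, |f t| ≤ 1) :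
    ip (blk k b) (rsd τ D lam k b y f) (rsd τ D lam k b y f) ≤ 1 :=
  (res_sq_le (blk k b) (col τ D k b y) lam hl f).trans (ip_le_one (blk k b) f hf)

section
variable {M : Mod A} {nu : ℕ → A → ℝ} {C : ℕ}

open Classical in
/-- number of the near `S`-objects -/
theorem near_card_S (hGe : Geo M nu C) (k b : ℕ) (r : ℝ) (hr : 1 ≤ r) (u : A) :
    ∑ v : A, (if near M nu k b r u v then (1 : ℝ) else 0) ≤ C * r ^ C * vol nu k := by
  have e1 : ∑ v : A, (if near M nu k b r u v then (1 : ℝ) else 0) =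
      ∑ x : A, (if nu k (x * (M.pT u (b * 2 ^ k))⁻¹) ≤ r then (1 : ℝ) else 0) := by
    unfold near
    exact Function.Bijective.sum_comp (pS_bij M (b * 2 ^ k))
      (fun x : A => if nu k (x * (M.pT u (b * 2 ^ k))⁻¹) ≤ r then (1 : ℝ) else 0)
  have e2 : ∑ x : A, (if nu k (x * (M.pT u (b * 2 ^ k))⁻¹) ≤ r then (1 : ℝ) else 0) =
      ∑ x : A, (if nu k x ≤ r then (1 : ℝ) else 0) :=
    Equiv.sum_comp (Equiv.mulRight (M.pT u (b * 2 ^ k))⁻¹)
      (fun x : A => if nu k x ≤ r then (1 : ℝ) else 0)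
  have e3 : ∑ x : A, (if nu k x ≤ r then (1 : ℝ) else 0) = Nat.card {x : A // nu k x ≤ r} := by
    rw [← sum_filter, sum_const, nsmul_eq_mul, mul_one, Nat.card_eq_fintype_card,
      Fintype.card_subtype]
  rw [e1, e2, e3]
  exact hGe.growth k r hr

open Classical in
/-- number of the near `T`-objects -/
theorem near_card_T (hGe : Geo M nu C) (k b : ℕ) (r : ℝ) (hr : 1 ≤ r) (v : A) :
    ∑ u : A, (if near M nu k b r u v then (1 : ℝ) else 0) ≤ C * r ^ C * vol nu k := by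
  have e0 : ∀ u, near M nu k b r u v ↔
      nu k (M.pT u (b * 2 ^ k) * (M.pS v (b * 2 ^ k))⁻¹) ≤ r := by
    intro u
    unfold near
    rw [← hGe.inv, mul_inv_rev, inv_inv]
  have e1 : ∑ u : A, (if near M nu k b r u v then (1 : ℝ) else 0) =
      ∑ x : A, (if nu k (x * (M.pS v (b * 2 ^ k))⁻¹) ≤ r then (1 : ℝ) else 0) := by
    simp only [e0]
    exact Function.Bijective.sum_comp (pT_bij M (b * 2 ^ k))
      (fun x : A => if nu k (x * (M.pS v (b * 2 ^ k))⁻¹) ≤ r then (1 : ℝ) else 0)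
  have e2 : ∑ x : A, (if nu k (x * (M.pS v (b * 2 ^ k))⁻¹) ≤ r then (1 : ℝ) else 0) =
      ∑ x : A, (if nu k x ≤ r then (1 : ℝ) else 0) :=
    Equiv.sum_comp (Equiv.mulRight (M.pS v (b * 2 ^ k))⁻¹)
      (fun x : A => if nu k x ≤ r then (1 : ℝ) else 0)
  have e3 : ∑ x : A, (if nu k x ≤ r then (1 : ℝ) else 0) = Nat.card {x : A // nu k x ≤ r} := by
    rw [← sum_filter, sum_const, nsmul_eq_mul, mul_one, Nat.card_eq_fintype_card,
      Fintype.card_subtype]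
  rw [e1, e2, e3]
  exact hGe.growth k r hr

/-- the smooth bound for a general `ε` -/
def sG (C e n : ℕ) (ε : ℝ) : ℝ :=
  4 ^ (2 * n) * (2 * (1 / 2 : ℝ) ^ (8000 * C * e)) +
    (C : ℝ) * (C + 1) ^ C *
      (2 * ((1 / 2 : ℝ) ^ (3000 * e) + 2 * ε * M0E C e)) ^ (2 * n)

theorem sG_eps (C e n : ℕ) (δ : ℝ) : sG C e n (epsK C e δ) = sK C e n δ := rfl

open Classical in
omit [Group A] in
/-- abstract summation -/
private theorem keyD_abs (Pr : A → Prop) (al y x1 x2 : A → ℝ) (V l l2 N e1 : ℝ) (n : ℕ)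
    (hn : 1 ≤ n) (hl : l2 ≤ l) (hV : 0 ≤ V)
    (al01 : ∀ w, al w = 0 ∨ al w = 1) (h1 : ∀ w, |x1 w| ≤ 1) (h2 : ∀ w, |x2 w| ≤ 1)
    (hy : ∀ w, Pr w → al w = 1 → |y w| ≤ |x1 w| + |x2 w| + e1)
    (s1 : ∑ w, (if Pr w then x1 w ^ 2 else 0) ≤ l * V)
    (s2 : ∑ w, (if Pr w then x2 w ^ 2 else 0) ≤ l2 * V)
    (s3 : ∑ w, (if Pr w then (1 : ℝ) else 0) ≤ N * V) :
    ∑ w, (if Pr w then al w * y w ^ (2 * n) else 0) ≤
      (4 ^ (2 * n) * (2 * l) + N * (2 * e1) ^ (2 * n)) * V := by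
  have hev : Even (2 * n) := even_two_mul n
  have hpt : ∀ w, (if Pr w then al w * y w ^ (2 * n) else 0) ≤
      4 ^ (2 * n) * (if Pr w then x1 w ^ 2 else 0) + 4 ^ (2 * n) * (if Pr w then x2 w ^ 2 else 0) +
        (2 * e1) ^ (2 * n) * (if Pr w then (1 : ℝ) else 0) := by
    intro w
    by_cases hw : Pr w
    swap
    · simp [hw]
    simp only [if_pos hw, mul_one]
    rcases al01 w with ha | ha
    · rw [ha, zero_mul]
      have := hev.pow_nonneg (2 * e1)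
      positivity
    · rw [ha, one_mul]
      have := keyD_pow (x1 w) (x2 w) e1 (y w) n hn (h1 w) (h2 w) (hy w hw ha)
      rw [mul_add] at this
      exact this
  refine (sum_le_sum fun w _ => hpt w).trans ?_
  rw [sum_add_distrib, sum_add_distrib, ← mul_sum, ← mul_sum, ← mul_sum]
  have a1 := mul_le_mul_of_nonneg_left s1 (by positivity : (0 : ℝ) ≤ 4 ^ (2 * n))
  have a2 := mul_le_mul_of_nonneg_left (s2.trans (mul_le_mul_of_nonneg_right hl hV))
    (by positivity : (0 : ℝ) ≤ 4 ^ (2 * n))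
  have a3 := mul_le_mul_of_nonneg_left s3 (hev.pow_nonneg (2 * e1))
  calc _ ≤ 4 ^ (2 * n) * (l * V) + 4 ^ (2 * n) * (l * V) + (2 * e1) ^ (2 * n) * (N * V) :=
        add_le_add (add_le_add a1 a2) a3
    _ = _ := by ring

open Classical in
/-- the smooth bound seen from the `T`-objects -/
theorem keyD_smT (hGe : Geo M nu C) (K e n : ℕ) (he : 1 ≤ e) (hn : 1 ≤ n) (ε : ℝ) (hε : 0 < ε)
    (F G : A → ℕ → ℝ) (Om : Finset A) (hF : ∀ u t, |F u t| ≤ 1) (hG : ∀ u t, |G u t| ≤ 1)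
    (D1 D2 : Dict A) (hD1 : IsSys M nu C K F G Om (lamE C e) (tauE C e) D1)
    (hD2 : IsSys M nu C K F G Om (lamE C (2 * e)) (tauE C (2 * e)) D2)
    (R : ℝ) (k b : ℕ) (hk : k ≤ K) (hb : b < 2 ^ (K - k)) (u : A) :
    ∑ v : A, (if near M nu k b (C + 1) u v then
        alF C Om 2 e K ε D1 D2 M.pS G R k b v *
        (∑ i, vF C (-1) 1 e K ε D1 D2 M.pT F k b u i *
          vF C 1 2 e K ε D1 D2 M.pS G k b v i) ^ (2 * n) else 0) ≤
      sG C e n ε * vol nu k := by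
  have hC : (1 : ℝ) ≤ C := by exact_mod_cast hGe.one_le
  have hFu := ip_le_one (blk k b) (F u) (hF u)
  have hV := vol_nonneg nu k
  unfold sG
  refine keyD_abs (fun v => near M nu k b (C + 1) u v)
    (fun v => alF C Om 2 e K ε D1 D2 M.pS G R k b v)
    (fun v => ∑ i, vF C (-1) 1 e K ε D1 D2 M.pT F k b u i *
          vF C 1 2 e K ε D1 D2 M.pS G k b v i)
    (fun v => ip (blk k b) (F u) (rsd (tauE C e) D1 (lamE C e) k b (M.pS v) (G v)))
    (fun v => ip (blk k b) (F u) (rsd (tauE C (2 * e)) D2 (lamE C (2 * e)) k b (M.pS v) (G v)))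
    (vol nu k) ((1 / 2 : ℝ) ^ (8000 * C * e)) (lamE C (2 * e)) (C * (C + 1) ^ C)
    ((1 / 2 : ℝ) ^ (3000 * e) + 2 * ε * M0E C e) n hn (keyD_lam C e) hV ?_ ?_ ?_ ?_ ?_ ?_ ?_
  · exact fun v => alF_01 C Om 2 e K ε D1 D2 M.pS G R k b v
  · exact fun v => keyD_abs_le _ _ _ hFu
      (keyD_res1 (tauE C e) D1 (lamE C e) (keyC_lam_pos C e) k b (M.pS v) (G v) (hG v))
  · exact fun v => keyD_abs_le _ _ _ hFu
      (keyD_res1 (tauE C (2 * e)) D2 (lamE C (2 * e)) (keyC_lam_pos C (2 * e)) k b (M.pS v)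
        (G v) (hG v))
  · intro v hv ha
    have htr := alF_tr C Om 2 e K ε D1 D2 M.pS G R k b hk v ha
    exact keyD_xyT hGe K e he ε hε D1 D2 hD1.hnu hD2.hnu F G hF hG k b hk u v hv htr.1 htr.2
  · have hr := hD1.ruleS k hk b hb (M.pT u (b * 2 ^ k)) (F u)
    have hr2 : lamE C e * vol nu k * ip (blk k b) (F u) (F u) ≤ lamE C e * vol nu k := by
      have := keyC_lam_pos C e
      exact mul_le_of_le_one_right (by positivity) hFu
    refine (le_of_eq ?_).trans (hr.trans hr2)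
    refine sum_congr rfl fun v _ => ?_
    unfold near
    rw [ip_comm (blk k b) (F u)]
  · have hr := hD2.ruleS k hk b hb (M.pT u (b * 2 ^ k)) (F u)
    have hr2 : lamE C (2 * e) * vol nu k * ip (blk k b) (F u) (F u) ≤
        lamE C (2 * e) * vol nu k := by
      have := keyC_lam_pos C (2 * e)
      exact mul_le_of_le_one_right (by positivity) hFu
    refine (le_of_eq ?_).trans (hr.trans hr2)
    refine sum_congr rfl fun v _ => ?_
    unfold near
    rw [ip_comm (blk k b) (F u)]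
  · exact near_card_S hGe k b (C + 1) (by linarith) u

open Classical in
/-- the smooth bound seen from the `S`-objects -/
theorem keyD_smS (hGe : Geo M nu C) (K e n : ℕ) (he : 1 ≤ e) (hn : 1 ≤ n) (ε : ℝ) (hε : 0 < ε)
    (F G : A → ℕ → ℝ) (Om : Finset A) (hF : ∀ u t, |F u t| ≤ 1) (hG : ∀ u t, |G u t| ≤ 1)
    (D1 D2 : Dict A) (hD1 : IsSys M nu C K F G Om (lamE C e) (tauE C e) D1)
    (hD2 : IsSys M nu C K F G Om (lamE C (2 * e)) (tauE C (2 * e)) D2)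
    (R : ℝ) (k b : ℕ) (hk : k ≤ K) (hb : b < 2 ^ (K - k)) (v : A)
    (hav : alF C Om 2 e K ε D1 D2 M.pS G R k b v = 1) :
    ∑ u : A, (if near M nu k b (C + 1) u v then
        alF C Om 1 e K ε D1 D2 M.pT F R k b u *
        (∑ i, vF C (-1) 1 e K ε D1 D2 M.pT F k b u i *
          vF C 1 2 e K ε D1 D2 M.pS G k b v i) ^ (2 * n) else 0) ≤
      sG C e n ε * vol nu k := by
  have hC : (1 : ℝ) ≤ C := by exact_mod_cast hGe.one_le
  have hGv := ip_le_one (blk k b) (G v) (hG v)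
  have hV := vol_nonneg nu k
  have htr := alF_tr C Om 2 e K ε D1 D2 M.pS G R k b hk v hav
  have e0 : ∀ u, near M nu k b (C + 1) u v ↔
      nu k (M.pT u (b * 2 ^ k) * (M.pS v (b * 2 ^ k))⁻¹) ≤ C + 1 := by
    intro u
    unfold near
    rw [← hGe.inv, mul_inv_rev, inv_inv]
  unfold sG
  refine keyD_abs (fun u => near M nu k b (C + 1) u v)
    (fun u => alF C Om 1 e K ε D1 D2 M.pT F R k b u)
    (fun u => ∑ i, vF C (-1) 1 e K ε D1 D2 M.pT F k b u i *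
          vF C 1 2 e K ε D1 D2 M.pS G k b v i)
    (fun u => ip (blk k b) (G v) (rsd (tauE C e) D1 (lamE C e) k b (M.pT u) (F u)))
    (fun u => ip (blk k b) (G v) (rsd (tauE C (2 * e)) D2 (lamE C (2 * e)) k b (M.pT u) (F u)))
    (vol nu k) ((1 / 2 : ℝ) ^ (8000 * C * e)) (lamE C (2 * e)) (C * (C + 1) ^ C)
    ((1 / 2 : ℝ) ^ (3000 * e) + 2 * ε * M0E C e) n hn (keyD_lam C e) hV ?_ ?_ ?_ ?_ ?_ ?_ ?_
  · exact fun u => alF_01 C Om 1 e K ε D1 D2 M.pT F R k b u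
  · exact fun u => keyD_abs_le _ _ _ hGv
      (keyD_res1 (tauE C e) D1 (lamE C e) (keyC_lam_pos C e) k b (M.pT u) (F u) (hF u))
  · exact fun u => keyD_abs_le _ _ _ hGv
      (keyD_res1 (tauE C (2 * e)) D2 (lamE C (2 * e)) (keyC_lam_pos C (2 * e)) k b (M.pT u)
        (F u) (hF u))
  · intro u hu _
    exact keyD_xyS hGe K e he ε hε D1 D2 hD1.hnu hD2.hnu F G hF hG k b hk u v hu htr.1 htr.2
  · have hr := hD1.ruleT k hk b hb (M.pS v (b * 2 ^ k)) (G v)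
    have hr2 : lamE C e * vol nu k * ip (blk k b) (G v) (G v) ≤ lamE C e * vol nu k := by
      have := keyC_lam_pos C e
      exact mul_le_of_le_one_right (by positivity) hGv
    refine (le_of_eq ?_).trans (hr.trans hr2)
    refine sum_congr rfl fun u _ => ?_
    rw [if_congr (e0 u) rfl rfl, ip_comm (blk k b) (G v)]
  · have hr := hD2.ruleT k hk b hb (M.pS v (b * 2 ^ k)) (G v)
    have hr2 : lamE C (2 * e) * vol nu k * ip (blk k b) (G v) (G v) ≤
        lamE C (2 * e) * vol nu k := by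
      have := keyC_lam_pos C (2 * e)
      exact mul_le_of_le_one_right (by positivity) hGv
    refine (le_of_eq ?_).trans (hr.trans hr2)
    refine sum_congr rfl fun u _ => ?_
    rw [if_congr (e0 u) rfl rfl, ip_comm (blk k b) (G v)]
  · exact near_card_T hGe k b (C + 1) (by linarith) v

end

end

end NPG
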