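import Pool.Agent.NPG.KeyA
import Pool.Agent.NPG.KeyD

/-!
# NPG / Key : the key lemma

Two systems with parameters `e` and `2e`.  Apply `key_abs` with `a = 80 e`, `k1 = CF * (80 e)`,
threshold `δ/2`, `M0 = M0E C e`, `X = vF C (-1) 1`, `Y = vF C 1 2`, so `∑ X Y = Zfr2 - Zfr1`;
`ε = epsK C e δ`; `R = 2^(5e)`; `n` from `keyB_main`.  An object off `Om` has vector `0`, so the event
implies that both objects are in `Om`.
-/

namespace NPG
open Finset
open NP2 (ip blk comb cst rid res mcs ip_comm ip_self_nonneg ip_cs ip_le_one ip_add_left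
  ip_smul_left ip_congr ip_comb_left rid_normal rid_unique cst_split mcs_le_cst mcs_nonneg mcs_le
  rid_sq_le res_sq_le rid_cons_zero res_cons_zero mcs_cons_le mcs_cons_drop)

noncomputable section

variable {A : Type} [Group A] [Fintype A]

private theorem key_tri (z1 z2 a1 a2 c1 c2 δ : ℝ) (h1 : |z1 - a1| ≤ c1)
    (h2 : |z2 - a2| ≤ c2) (h : c1 + c2 ≤ δ / 2) (hd : δ ≤ |a2 - a1|) : δ / 2 ≤ |z2 - z1| := by
  rcases le_abs.1 hd with h3 | h3
  · refine le_trans ?_ (le_abs_self _)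
    rw [abs_le] at h1 h2
    linarith [h1.1, h1.2, h2.1, h2.2]
  · refine le_trans ?_ (neg_le_abs _)
    rw [abs_le] at h1 h2
    linarith [h1.1, h1.2, h2.1, h2.2]

omit [Fintype A] in
theorem Ztr_zero_left (τ : ℝ) (D : Dict A) (lam : ℝ) (hl : 0 < lam) (m k b : ℕ) (y : ℕ → A)
    (f : ℕ → ℝ) (y' : ℕ → A) (g : ℕ → ℝ) (hf : ∀ t, f t = 0) :
    Ztr τ D lam m k b y f y' g = 0 := by
  unfold Ztr
  refine sum_eq_zero fun j _ => ?_
  rw [sum_eq_zero fun i _ => by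
    rw [xi_zero τ D (2 ^ j * lam) (by positivity) k b y f hf i, zero_mul], mul_zero]

omit [Fintype A] in
theorem Ztr_zero_right (τ : ℝ) (D : Dict A) (lam : ℝ) (hl : 0 < lam) (m k b : ℕ) (y : ℕ → A)
    (f : ℕ → ℝ) (y' : ℕ → A) (g : ℕ → ℝ) (hg : ∀ t, g t = 0) :
    Ztr τ D lam m k b y f y' g = 0 := by
  unfold Ztr
  refine sum_eq_zero fun j _ => ?_
  rw [sum_eq_zero fun i _ => by
    rw [xi_zero τ D (2 * (2 ^ j * lam)) (by positivity) k b y' g hg i, mul_zero], mul_zero]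

open Classical in
theorem key_main (M : Mod A) (nu : ℕ → A → ℝ) (C CF : ℕ) (hGe : Geo M nu C)
    (K e : ℕ) (he : 1 ≤ e) (kr : ℕ → A → ℝ) (hkr : Krn M nu C (80 * e) kr) (hCF : C ≤ CF)
    (flux : FluxH M kr CF (80 * e)) (fluxS : FluxH M.sw kr CF (80 * e))
    (hCe : (CF : ℝ) ≤ 2 ^ e) (hW : (W0 C : ℝ) ≤ 2 ^ e) (hN : (C : ℝ) * (C + 1) ^ C ≤ 2 ^ e)
    (δ : ℝ) (hδ : 0 < δ) (hδ1 : δ ≤ 1)
    (hH : (10 ^ 6 * (C : ℝ) ^ 2 * e / δ) ^ (100 * C) ≤ (2 : ℝ) ^ e)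
    (hK : CF * (80 * e) ≤ K)
    (F G : A → ℕ → ℝ) (Om : Finset A) (hF : ∀ u t, |F u t| ≤ 1) (hG : ∀ u t, |G u t| ≤ 1)
    (hF0 : ∀ u t, u ∉ Om → F u t = 0) (hG0 : ∀ u t, u ∉ Om → G u t = 0)
    (D1 D2 : Dict A) (hD1 : IsSys M nu C K F G Om (lamE C e) (tauE C e) D1)
    (hD2 : IsSys M nu C K F G Om (lamE C (2 * e)) (tauE C (2 * e)) D2) :
    ex K (fun c (u : A) => if ∃ k, CF * (80 * e) ≤ k ∧ k ≤ K ∧
        δ ≤ |Ztr (tauE C (2 * e)) D2 (lamE C (2 * e)) (mE C (2 * e)) k (c / 2 ^ k)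
              (M.pT u) (F u) (M.pS (M.th c * u)) (G (M.th c * u))
            - Ztr (tauE C e) D1 (lamE C e) (mE C e) k (c / 2 ^ k)
              (M.pT u) (F u) (M.pS (M.th c * u)) (G (M.th c * u))| then (1 : ℝ) else 0) ≤
      10 ^ 4 * (1 / 2) ^ e * (Om.card / Fintype.card A) := by
  have hC := hGe.one_le
  obtain ⟨hε, hεm, hdead, n, hn1, hkey⟩ := keyB_main C CF e hC he δ hδ hδ1 hCe hN hH
  set ε : ℝ := epsK C e δ with hεdef
  set k1 : ℕ := CF * (80 * e) with hk1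
  have he' : (1 : ℝ) ≤ e := by exact_mod_cast he
  have hM0 := M0E_ge C e hC he
  have hom : (0 : ℝ) ≤ Om.card / Fintype.card A := by positivity
  set R : ℝ := 2 ^ (5 * e) with hR
  have hR1 : 1 ≤ R := one_le_pow₀ (by norm_num)
  have hR0 : 0 < R := by linarith
  -- the key event
  have hk := key_abs M nu C CF K k1 (80 * e) n hGe kr hkr hCF flux fluxS le_rfl hK Om
    (vF C (-1) 1 e K ε D1 D2 M.pT F) (vF C 1 2 e K ε D1 D2 M.pS G)
    (alF C Om 1 e K ε D1 D2 M.pT F R) (alF C Om 2 e K ε D1 D2 M.pS G R)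
    (mvF C 1 e K ε D1 D2 M.pT F) (mvF C 2 e K ε D1 D2 M.pS G)
    (M0E C e) R (δ / 2) (sK C e n δ) (by linarith) hR1 (by linarith)
    (by
      unfold sK
      have := (even_two_mul n).pow_nonneg
        (2 * ((1 / 2 : ℝ) ^ (3000 * e) + 2 * epsK C e δ * M0E C e))
      positivity)
    (alF_01 C Om 1 e K ε D1 D2 M.pT F R) (alF_01 C Om 2 e K ε D1 D2 M.pS G R)
    (mvF_01 C 1 e K ε D1 D2 M.pT F) (mvF_01 C 2 e K ε D1 D2 M.pS G)
    (fun k b u hu => (alF_01 C Om 1 e K ε D1 D2 M.pT F R k b u).resolve_right fun h =>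
      hu (alF_mem C Om 1 e K ε D1 D2 M.pT F R k b u h))
    (fun k b u hu => (alF_01 C Om 2 e K ε D1 D2 M.pS G R k b u).resolve_right fun h =>
      hu (alF_mem C Om 2 e K ε D1 D2 M.pS G R k b u h))
    (alF_mono C Om 1 e K ε D1 D2 M.pT F R) (alF_mono C Om 2 e K ε D1 D2 M.pS G R)
    (mvF_top C 1 e K ε D1 D2 M.pT F) (mvF_top C 2 e K ε D1 D2 M.pS G)
    (fun k _ hk b _ u h => vF_step C 1 e K ε D1 D2 M.pT F (-1) k b hk u h)
    (fun k _ hk b _ u h => vF_step C 2 e K ε D1 D2 M.pS G 1 k b hk u h)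
    (fun k _ hk b _ u => vF_norm C 1 e K ε D1 D2 M.pT F (-1) (by norm_num) (by norm_num) hF k b
      hk u)
    (fun k _ hk b _ u => vF_norm C 2 e K ε D1 D2 M.pS G 1 (by norm_num) (by norm_num) hG k b
      hk u)
    (fun k _ hk b _ u => alF_acc_le C Om 1 e K ε D1 D2 M.pT F R hR0.le (K + 1 - k) k (by omega)
      b u)
    (fun k _ hk b _ u => alF_acc_le C Om 2 e K ε D1 D2 M.pS G R hR0.le (K + 1 - k) k (by omega)
      b u)
    (fun k _ hk b hb u _ => keyD_smT hGe K e n he hn1 ε hε F G Om hF hG D1 D2 hD1 hD2 R k b hk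
      hb u)
    (fun k _ hk b hb v h => keyD_smS hGe K e n he hn1 ε hε F G Om hF hG D1 D2 hD1 hD2 R k b hk
      hb v h)
  have hk2 := hk.trans (mul_le_mul_of_nonneg_right hkey hom)
  -- the dead objects
  have dT := alF_dead C Om 1 e K ε D1 D2 M.pT F hGe he hW hε le_rfl F G F G hD1 hD2 (pT_bij M) hF
    R hR0 k1 hK
  have dS := alF_dead C Om 2 e K ε D1 D2 M.pS G hGe he hW hε (by norm_num) F G F G hD1 hD2
    (pS_bij M) hG R hR0 k1 hK
  have dS' : ex K (fun c (u : A) => (if M.th c * u ∈ Om then (1 : ℝ) else 0) -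
        alF C Om 2 e K ε D1 D2 M.pS G R k1 (c / 2 ^ k1) (M.th c * u)) ≤
      (6 * (1 / 2) ^ (80 * e) + 6 * (1 / 2) ^ (80 * (2 * e)) +
        (2 + M0E C e / ε ^ 2) / R) * (Om.card / Fintype.card A) := by
    rw [ex_shift K (fun c u => (if u ∈ Om then (1 : ℝ) else 0) -
        alF C Om 2 e K ε D1 D2 M.pS G R k1 (c / 2 ^ k1) u) (fun c => M.th c)]
    exact dS
  -- pointwise
  have hpt : ∀ c < 2 ^ K, ∀ u : A, (if ∃ k, k1 ≤ k ∧ k ≤ K ∧
        δ ≤ |Ztr (tauE C (2 * e)) D2 (lamE C (2 * e)) (mE C (2 * e)) k (c / 2 ^ k)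
              (M.pT u) (F u) (M.pS (M.th c * u)) (G (M.th c * u))
            - Ztr (tauE C e) D1 (lamE C e) (mE C e) k (c / 2 ^ k)
              (M.pT u) (F u) (M.pS (M.th c * u)) (G (M.th c * u))| then (1 : ℝ) else 0) ≤
      ((if ∃ k, k1 ≤ k ∧ k ≤ K ∧ alF C Om 1 e K ε D1 D2 M.pT F R k (c / 2 ^ k) u = 1 ∧
        alF C Om 2 e K ε D1 D2 M.pS G R k (c / 2 ^ k) (M.th c * u) = 1 ∧
        δ / 2 ≤ |∑ i, vF C (-1) 1 e K ε D1 D2 M.pT F k (c / 2 ^ k) u i *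
          vF C 1 2 e K ε D1 D2 M.pS G k (c / 2 ^ k) (M.th c * u) i| then (1 : ℝ) else 0) +
        ((if u ∈ Om then (1 : ℝ) else 0) -
          alF C Om 1 e K ε D1 D2 M.pT F R k1 (c / 2 ^ k1) u)) +
        ((if M.th c * u ∈ Om then (1 : ℝ) else 0) -
          alF C Om 2 e K ε D1 D2 M.pS G R k1 (c / 2 ^ k1) (M.th c * u)) := by
    intro c _ u
    have i0 : (0 : ℝ) ≤ (if ∃ k, k1 ≤ k ∧ k ≤ K ∧
        alF C Om 1 e K ε D1 D2 M.pT F R k (c / 2 ^ k) u = 1 ∧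
        alF C Om 2 e K ε D1 D2 M.pS G R k (c / 2 ^ k) (M.th c * u) = 1 ∧
        δ / 2 ≤ |∑ i, vF C (-1) 1 e K ε D1 D2 M.pT F k (c / 2 ^ k) u i *
          vF C 1 2 e K ε D1 D2 M.pS G k (c / 2 ^ k) (M.th c * u) i| then (1 : ℝ) else 0) := by
      split_ifs <;> norm_num
    have aT := alF_01 C Om 1 e K ε D1 D2 M.pT F R k1 (c / 2 ^ k1) u
    have aS := alF_01 C Om 2 e K ε D1 D2 M.pS G R k1 (c / 2 ^ k1) (M.th c * u)
    have iT : 0 ≤ (if u ∈ Om then (1 : ℝ) else 0) -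
        alF C Om 1 e K ε D1 D2 M.pT F R k1 (c / 2 ^ k1) u := by
      rcases aT with h | h
      · rw [h]
        split_ifs <;> norm_num
      · rw [h, if_pos (alF_mem C Om 1 e K ε D1 D2 M.pT F R _ _ u h)]
        norm_num
    have iS : 0 ≤ (if M.th c * u ∈ Om then (1 : ℝ) else 0) -
        alF C Om 2 e K ε D1 D2 M.pS G R k1 (c / 2 ^ k1) (M.th c * u) := by
      rcases aS with h | h
      · rw [h]
        split_ifs <;> norm_num
      · rw [h, if_pos (alF_mem C Om 2 e K ε D1 D2 M.pS G R _ _ _ h)]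
        norm_num
    by_cases hE : ∃ k, k1 ≤ k ∧ k ≤ K ∧
        δ ≤ |Ztr (tauE C (2 * e)) D2 (lamE C (2 * e)) (mE C (2 * e)) k (c / 2 ^ k)
              (M.pT u) (F u) (M.pS (M.th c * u)) (G (M.th c * u))
            - Ztr (tauE C e) D1 (lamE C e) (mE C e) k (c / 2 ^ k)
              (M.pT u) (F u) (M.pS (M.th c * u)) (G (M.th c * u))|
    swap
    · rw [if_neg hE]
      linarith
    rw [if_pos hE]
    obtain ⟨k, hkk1, hkK, hkd⟩ := hE
    have huO : u ∈ Om := by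
      by_contra hu
      rw [Ztr_zero_left _ _ _ (keyC_lam_pos C (2 * e)) _ _ _ _ _ _ _ (fun t => hF0 u t hu),
        Ztr_zero_left _ _ _ (keyC_lam_pos C e) _ _ _ _ _ _ _ (fun t => hF0 u t hu), sub_zero,
        abs_zero] at hkd
      linarith
    have hvO : M.th c * u ∈ Om := by
      by_contra hu
      rw [Ztr_zero_right _ _ _ (keyC_lam_pos C (2 * e)) _ _ _ _ _ _ _ (fun t => hG0 _ t hu),
        Ztr_zero_right _ _ _ (keyC_lam_pos C e) _ _ _ _ _ _ _ (fun t => hG0 _ t hu), sub_zero,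
        abs_zero] at hkd
      linarith
    rw [if_pos huO] at iT ⊢
    rw [if_pos hvO] at iS ⊢
    rcases aT with aT | aT
    · rw [aT]
      linarith
    rcases aS with aS | aS
    · rw [aS]
      linarith
    rw [aT, aS, if_pos]
    · norm_num
    refine ⟨k, hkk1, hkK, ?_, ?_, ?_⟩
    · have := alF_path C Om 1 e K ε D1 D2 M.pT F R k1 c u (k - k1) (by omega) aT
      have h2 : k1 + (k - k1) = k := by omega
      rw [h2] at this
      exact this
    · have := alF_path C Om 2 e K ε D1 D2 M.pS G R k1 c (M.th c * u) (k - k1)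
        (by omega) aS
      have h2 : k1 + (k - k1) = k := by omega
      rw [h2] at this
      exact this
    · rw [vF_inner]
      have c1 := Zfr_close (tauE C e) D1 (lamE C e) (keyC_lam_pos C e) (mE C e) ε hε K k
        (c / 2 ^ k) hkK (M.pT u) (F u) (hF u) (M.pS (M.th c * u)) (G (M.th c * u))
        (hG (M.th c * u))
      have c2 := Zfr_close (tauE C (2 * e)) D2 (lamE C (2 * e)) (keyC_lam_pos C (2 * e))
        (mE C (2 * e)) ε hε K k (c / 2 ^ k) hkK (M.pT u) (F u) (hF u) (M.pS (M.th c * u))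
        (G (M.th c * u)) (hG (M.th c * u))
      have hm : 2 * ε * ((mE C e : ℕ) : ℝ) + 2 * ε * ((mE C (2 * e) : ℕ) : ℝ) =
          2 * ε * M0E C e := by
        unfold mE M0E
        push_cast
        ring
      exact key_tri _ _ _ _ _ _ δ c1 c2 (by linarith) hkd
  refine (ex_mono K _ _ hpt).trans ?_
  rw [ex_add, ex_add]
  have hpow1 : ((1 : ℝ) / 2) ^ (80 * e) ≤ (1 / 2) ^ e :=
    pow_le_pow_of_le_one (by norm_num) (by norm_num) (by omega)
  have hpow2 : ((1 : ℝ) / 2) ^ (80 * (2 * e)) ≤ (1 / 2) ^ e :=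
    pow_le_pow_of_le_one (by norm_num) (by norm_num) (by omega)
  have hpos : (0 : ℝ) < (1 / 2) ^ e := by positivity
  have hd : (6 * (1 / 2) ^ (80 * e) + 6 * (1 / 2) ^ (80 * (2 * e)) +
        (2 + M0E C e / ε ^ 2) / R) * ((Om.card : ℝ) / Fintype.card A) ≤
      14 * (1 / 2) ^ e * (Om.card / Fintype.card A) :=
    mul_le_mul_of_nonneg_right (by linarith) hom
  have hfin : 2000 * (1 / 2) ^ e * ((Om.card : ℝ) / Fintype.card A) +
      14 * (1 / 2) ^ e * (Om.card / Fintype.card A) +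
      14 * (1 / 2) ^ e * (Om.card / Fintype.card A) ≤
      10 ^ 4 * (1 / 2) ^ e * (Om.card / Fintype.card A) := by
    have : 0 ≤ (1 / 2 : ℝ) ^ e * ((Om.card : ℝ) / Fintype.card A) := mul_nonneg hpos.le hom
    nlinarith
  linarith

end

end NPG
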