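import Pool.Agent.NPG.FDef
import Pool.Agent.NPG.Dic
import Pool.Agent.NP2.Ten

/-!
# NPG / KeyA : abstract key lemma

`X` a `T`-process, `Y` an `S`-process with values in `I → ℝ`, changing only at moves `mX`, `mY`
(`= 1` at the top level); `aT, aS` alive indicators, once dead always dead, `0` off `Om`; at most `R`
moves while alive.  `y_k = ∑ X Y`.

On the event: let `k` be the largest level in `[k1,K]` with `|y_k| ≥ δ`; both objects are alive at
`k` (monotonicity) and `k = K` or `y_k ≠ y_(k+1)`, so `mX k = 1` or `mY k = 1`.  Hence the probability is at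
most `∑_k E aT aS (mX + mY) (y_k/δ)^(2n)`.  `(y_k)^(2n) = inner (ten (2n) X) (ten (2n) Y)`.

`T`-part: `p = aT mX ten(2n) X`, `V = aS ten(2n) Y` (`0` at levels `> K`), `mT' = aT mX`,
`mS' k = max (aS mY) (aS (k+1) - aS k)` for `k < K`, `mS' K = aS mY`: at most `R + 1` on a path
(one death).  `‖ten (2n) X‖ ≤ M0^n`.  `FluxH`: `∑_k tp (p k) (ro (V k))` is small;
smooth part: for a fixed time the objects `(s^l)⁻¹ x * v` of the kernel are different and near `u`.
`S`-part: the same for the mirror model `M.sw`.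
-/

namespace NPG
open Finset
open NP2 (ten inner_ten norm_ten_sq)

noncomputable section

variable {A : Type} [Group A] [Fintype A]

private theorem norm_ten_le {I : Type} [Fintype I] (n : ℕ) (x : I → ℝ) (M0 : ℝ) (h0 : 0 ≤ M0)
    (h : ∑ i, x i ^ 2 ≤ M0) : ‖ten (2 * n) x‖ ≤ M0 ^ n := by
  have h1 : ‖ten (2 * n) x‖ ^ 2 ≤ (M0 ^ n) ^ 2 := by
    rw [norm_ten_sq, ← pow_mul, Nat.mul_comm n 2]
    exact pow_le_pow_left₀ (Finset.sum_nonneg (fun i _ => sq_nonneg _)) h _
  exact abs_le_of_sq_le_sq' h1 (by positivity) |>.2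

theorem near_shift0 {N : Mod A} {nu : ℕ → A → ℝ}
    (hmul : ∀ k x y, nu k (x * y) ≤ nu k x + nu k y) (k b : ℕ) (r r' : ℝ) (u v x : A)
    (h : near N nu k b r u v) (hx : nu k x ≤ r') :
    near N nu k b (r + r') u ((N.s ^ (b * 2 ^ k))⁻¹ x * v) := by
  unfold near at h ⊢
  have e : N.pS ((N.s ^ (b * 2 ^ k))⁻¹ x * v) (b * 2 ^ k) = x * N.pS v (b * 2 ^ k) := by
    rw [pS_mul]
    unfold Mod.aS
    rw [← MulAut.mul_apply, mul_inv_cancel, MulAut.one_apply]
  rw [e, mul_assoc]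
  have := hmul k x (N.pS v (b * 2 ^ k) * (N.pT u (b * 2 ^ k))⁻¹)
  linarith

open Classical in
/-- the smooth part of a flux at one scale -/
theorem smooth_part {E : Type} [NormedAddCommGroup E] [InnerProductSpace ℝ E]
    (N : Mod A) (nu : ℕ → A → ℝ) (C : ℕ) (Q s : ℝ)
    (hmul : ∀ k x y, nu k (x * y) ≤ nu k x + nu k y)
    (htied : ∀ k c u, near N nu k (c / 2 ^ k) C u (N.th c * u))
    (K k : ℕ) (hk : k ≤ K) (κ : A → ℝ) (hsupp : ∀ x, κ x ≠ 0 → nu k x ≤ 1) (hvol : 0 < vol nu k)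
    (hQ : 0 ≤ Q) (hbd : ∀ x, |κ x| ≤ Q / vol nu k)
    (p V : ℕ → A → E) (P : ℕ → A → ℝ)
    (h0 : ∀ b u v, 0 ≤ inner ℝ (p b u) (V b v))
    (h1 : ∀ b < 2 ^ (K - k), ∀ u, ∑ v : A, (if near N nu k b (C + 1) u v then
        inner ℝ (p b u) (V b v) else 0) ≤ P b u * s * vol nu k) :
    ex K (fun c u => inner ℝ (p (c / 2 ^ k) u)
        (sm N κ (c / 2 ^ k * 2 ^ k) (V (c / 2 ^ k)) (N.th c * u))) ≤
      Q * s * ex K (fun c u => P (c / 2 ^ k) u) := by
  rw [← ex_smul]
  refine ex_mono K _ _ fun c hc u => ?_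
  set b := c / 2 ^ k with hb
  have hbK : b < 2 ^ (K - k) := blk_lt hk hc
  set l := b * 2 ^ k with hl
  unfold sm
  rw [inner_sum]
  have hinj : Function.Bijective (fun x : A => (N.s ^ l)⁻¹ x * (N.th c * u)) :=
    (Group.mulRight_bijective (N.th c * u)).comp ((N.s ^ l)⁻¹).bijective
  calc ∑ x : A, inner ℝ (p b u) (κ x • V b ((N.s ^ l)⁻¹ x * (N.th c * u)))
      ≤ ∑ x : A, Q / vol nu k * (if near N nu k b (C + 1) u ((N.s ^ l)⁻¹ x * (N.th c * u)) then
          inner ℝ (p b u) (V b ((N.s ^ l)⁻¹ x * (N.th c * u))) else 0) := by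
        refine sum_le_sum fun x _ => ?_
        rw [inner_smul_right]
        have hin := h0 b u ((N.s ^ l)⁻¹ x * (N.th c * u))
        have hq : 0 ≤ Q / vol nu k := div_nonneg hQ hvol.le
        by_cases hx : κ x = 0
        · rw [hx, zero_mul]
          refine mul_nonneg hq ?_
          split_ifs
          · exact hin
          · exact le_rfl
        · have hn : near N nu k b (C + 1) u ((N.s ^ l)⁻¹ x * (N.th c * u)) :=
            near_shift0 hmul k b C 1 u (N.th c * u) x (htied k c u) (hsupp x hx)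
          rw [if_pos hn]
          exact mul_le_mul_of_nonneg_right ((le_abs_self _).trans (hbd x)) hin
    _ = Q / vol nu k * ∑ v : A, (if near N nu k b (C + 1) u v then
          inner ℝ (p b u) (V b v) else 0) := by
        rw [← mul_sum]
        congr 1
        exact Function.Bijective.sum_comp hinj (fun v => if near N nu k b (C + 1) u v then
          inner ℝ (p b u) (V b v) else 0)
    _ ≤ Q / vol nu k * (P b u * s * vol nu k) :=
        mul_le_mul_of_nonneg_left (h1 b hbK u) (div_nonneg hQ hvol.le)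
    _ = Q * s * P b u := by
        field_simp

open Classical in
/-- mean over `Om` -/
theorem ex_Om (K : ℕ) (Om : Finset A) (R : ℝ) (f : ℕ → A → ℝ)
    (h : ∀ c < 2 ^ K, ∀ u, f c u ≤ if u ∈ Om then R else 0) :
    ex K f ≤ R * (Om.card / Fintype.card A) := by
  refine (ex_mono K f (fun _ u => if u ∈ Om then R else 0) fun c hc u => ?_).trans (le_of_eq ?_)
  · exact h c hc u
  · have hA : (0 : ℝ) < Fintype.card A := card_pos'
    unfold ex
    have e : ∀ c ∈ range (2 ^ K), ∑ u : A, (if u ∈ Om then R else 0) = Om.card * R := by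
      intro c _
      rw [sum_ite_mem, univ_inter, sum_const, nsmul_eq_mul]
    rw [sum_congr rfl e, sum_const, card_range, nsmul_eq_mul]
    push_cast
    field_simp

/-- at most one death -/
private theorem acc_death (K k1 : ℕ) (aS mY : ℕ → ℕ → A → ℝ) (mS : ℕ → ℕ → A → ℝ)
    (aS01 : ∀ k b u, aS k b u = 0 ∨ aS k b u = 1)
    (h1 : ∀ b u, mS K b u ≤ aS K b u * mY K b u)
    (h2 : ∀ k < K, ∀ b u, mS k b u ≤ aS k b u * mY k b u + (aS (k + 1) (b / 2) u - aS k b u))
    (d : ℕ) : ∀ k, k1 ≤ k → k + d = K → ∀ b u,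
      acc K mS k b u ≤ acc K (fun k b u => aS k b u * mY k b u) k b u + (1 - aS k b u) := by
  induction d with
  | zero =>
    intro k _ hkd b u
    have hk : k = K := by omega
    subst hk
    rw [acc_step k k le_rfl, acc_step k k le_rfl, acc_top, acc_top]
    have := h1 b u
    have h3 : aS k b u ≤ 1 := by rcases aS01 k b u with h | h <;> rw [h] <;> norm_num
    linarith
  | succ d ih =>
    intro k hk hkd b u
    rw [acc_step K k (by omega), acc_step K k (by omega)]
    have h3 := ih (k + 1) (by omega) (by omega) (b / 2) u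
    have h4 := h2 k (by omega) b u
    linarith

open Classical in
private theorem part {I : Type} [Fintype I] (N : Mod A) (nu : ℕ → A → ℝ) (C CF K k1 a n : ℕ)
    (hmul : ∀ k x y, nu k (x * y) ≤ nu k x + nu k y)
    (htied : ∀ k c u, near N nu k (c / 2 ^ k) C u (N.th c * u))
    (kr : ℕ → A → ℝ) (hsupp : ∀ k, k1 ≤ k → ∀ x, kr k x ≠ 0 → nu k x ≤ 1)
    (hvol : ∀ k, 0 < vol nu k)
    (hbd : ∀ k, k1 ≤ k → ∀ x, |kr k x| ≤ 2 ^ (C * a) / vol nu k)
    (hk0 : CF * a ≤ k1) (hk1 : k1 ≤ K) (flux : FluxH N kr CF a)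
    (Om : Finset A) (X Y : ℕ → ℕ → A → I → ℝ)
    (aT aS mX mY : ℕ → ℕ → A → ℝ) (M0 R s : ℝ)
    (hM0 : 1 ≤ M0) (hR : 1 ≤ R) (hs : 0 ≤ s)
    (aT01 : ∀ k b u, aT k b u = 0 ∨ aT k b u = 1) (aS01 : ∀ k b u, aS k b u = 0 ∨ aS k b u = 1)
    (mX01 : ∀ k b u, mX k b u = 0 ∨ mX k b u = 1) (mY01 : ∀ k b u, mY k b u = 0 ∨ mY k b u = 1)
    (aTO : ∀ k b u, u ∉ Om → aT k b u = 0) (aSO : ∀ k b u, u ∉ Om → aS k b u = 0)
    (aSm : ∀ k < K, ∀ b u, aS k b u ≤ aS (k + 1) (b / 2) u)
    (mYK : ∀ b u, mY K b u = 1)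
    (hY : ∀ k, k1 ≤ k → k < K → ∀ b < 2 ^ (K - k), ∀ u, mY k b u = 0 →
      Y k b u = Y (k + 1) (b / 2) u)
    (nX : ∀ k, k1 ≤ k → k ≤ K → ∀ b < 2 ^ (K - k), ∀ u, ∑ i, X k b u i ^ 2 ≤ M0)
    (nY : ∀ k, k1 ≤ k → k ≤ K → ∀ b < 2 ^ (K - k), ∀ u, ∑ i, Y k b u i ^ 2 ≤ M0)
    (cX : ∀ k, k1 ≤ k → k ≤ K → ∀ b < 2 ^ (K - k), ∀ u,
      acc K (fun k b u => aT k b u * mX k b u) k b u ≤ R)
    (cY : ∀ k, k1 ≤ k → k ≤ K → ∀ b < 2 ^ (K - k), ∀ u,
      acc K (fun k b u => aS k b u * mY k b u) k b u ≤ R)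
    (sm1 : ∀ k, k1 ≤ k → k ≤ K → ∀ b < 2 ^ (K - k), ∀ u, aT k b u = 1 →
      ∑ v : A, (if near N nu k b (C + 1) u v then
        aS k b v * (∑ i, X k b u i * Y k b v i) ^ (2 * n) else 0) ≤ s * vol nu k) :
    ∑ k ∈ Icc k1 K, ex K (fun c u => aT k (c / 2 ^ k) u * mX k (c / 2 ^ k) u *
        aS k (c / 2 ^ k) (N.th c * u) *
        (∑ i, X k (c / 2 ^ k) u i * Y k (c / 2 ^ k) (N.th c * u) i) ^ (2 * n)) ≤
      (2 * CF * M0 ^ (2 * n) * (R + 1) ^ 2 * (a + 1) / Real.sqrt (2 ^ a)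
        + (2 : ℝ) ^ (C * a) * R * s) * (Om.card / Fintype.card A) := by
  set p : ℕ → ℕ → A → EuclideanSpace ℝ (Fin (2 * n) → I) :=
    fun k b u => (aT k b u * mX k b u) • ten (2 * n) (X k b u) with hp
  set V : ℕ → ℕ → A → EuclideanSpace ℝ (Fin (2 * n) → I) :=
    fun k b v => if k ≤ K then aS k b v • ten (2 * n) (Y k b v) else 0 with hV
  have hM0' : (0 : ℝ) ≤ M0 := by linarith
  have aT0 : ∀ k b u, 0 ≤ aT k b u := fun k b u => by
    rcases aT01 k b u with h | h <;> rw [h] <;> norm_num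
  have aS0 : ∀ k b u, 0 ≤ aS k b u := fun k b u => by
    rcases aS01 k b u with h | h <;> rw [h] <;> norm_num
  have mX0 : ∀ k b u, 0 ≤ mX k b u := fun k b u => by
    rcases mX01 k b u with h | h <;> rw [h] <;> norm_num
  have mY0 : ∀ k b u, 0 ≤ mY k b u := fun k b u => by
    rcases mY01 k b u with h | h <;> rw [h] <;> norm_num
  have aT1 : ∀ k b u, aT k b u ≤ 1 := fun k b u => by
    rcases aT01 k b u with h | h <;> rw [h] <;> norm_num
  have aS1 : ∀ k b u, aS k b u ≤ 1 := fun k b u => by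
    rcases aS01 k b u with h | h <;> rw [h] <;> norm_num
  have mX1 : ∀ k b u, mX k b u ≤ 1 := fun k b u => by
    rcases mX01 k b u with h | h <;> rw [h] <;> norm_num
  have mY1 : ∀ k b u, mY k b u ≤ 1 := fun k b u => by
    rcases mY01 k b u with h | h <;> rw [h] <;> norm_num
  have hin : ∀ k ≤ K, ∀ b u v, inner ℝ (p k b u) (V k b v) =
      aT k b u * mX k b u * aS k b v * (∑ i, X k b u i * Y k b v i) ^ (2 * n) := by
    intro k hk b u v
    simp only [hp, hV, if_pos hk]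
    rw [real_inner_smul_left, real_inner_smul_right, inner_ten]
    ring
  have hin0 : ∀ k ≤ K, ∀ b u v, 0 ≤ inner ℝ (p k b u) (V k b v) := by
    intro k hk b u v
    rw [hin k hk]
    exact mul_nonneg (mul_nonneg (mul_nonneg (aT0 _ _ _) (mX0 _ _ _)) (aS0 _ _ _))
      (Even.pow_nonneg (even_two_mul n) _)
  -- splitting
  have hsplit : ∀ k ∈ Icc k1 K, ex K (fun c u => aT k (c / 2 ^ k) u * mX k (c / 2 ^ k) u *
        aS k (c / 2 ^ k) (N.th c * u) *
        (∑ i, X k (c / 2 ^ k) u i * Y k (c / 2 ^ k) (N.th c * u) i) ^ (2 * n)) =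
      ex K (fun c u => inner ℝ (p k (c / 2 ^ k) u)
        (ro N kr k (V k) (c / 2 ^ k) (N.th c * u))) +
      ex K (fun c u => inner ℝ (p k (c / 2 ^ k) u)
        (sm N (kr k) (c / 2 ^ k * 2 ^ k) (V k (c / 2 ^ k)) (N.th c * u))) := by
    intro k hk
    rw [← ex_add]
    congr 1
    funext c u
    rw [← inner_add_right]
    unfold ro
    rw [sub_add_cancel, hin k (Finset.mem_Icc.1 hk).2]
  rw [Finset.sum_congr rfl hsplit, Finset.sum_add_distrib]
  -- the rough part
  have hrough : |∑ k ∈ Icc k1 K, ex K (fun c u => inner ℝ (p k (c / 2 ^ k) u)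
        (ro N kr k (V k) (c / 2 ^ k) (N.th c * u)))| ≤
        2 * CF * M0 ^ (2 * n) * (R + 1) ^ 2 * (a + 1) / Real.sqrt (2 ^ a) *
          (Om.card / Fintype.card A) := by
    set mS : ℕ → ℕ → A → ℝ := fun k b u =>
      if k < K then max (aS k b u * mY k b u) (aS (k + 1) (b / 2) u - aS k b u)
      else aS k b u * mY k b u with hmS
    have haY0 : ∀ k b u, 0 ≤ aS k b u * mY k b u := fun k b u => mul_nonneg (aS0 _ _ _) (mY0 _ _ _)
    have haY1 : ∀ k b u, aS k b u * mY k b u ≤ 1 := fun k b u =>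
      mul_le_one₀ (aS1 _ _ _) (mY0 _ _ _) (mY1 _ _ _)
    have hnp : ∀ k, k1 ≤ k → k ≤ K → ∀ b < 2 ^ (K - k), ∀ u,
        ‖p k b u‖ ≤ M0 ^ n * (aT k b u * mX k b u) := by
      intro k h1 h2 b hb u
      simp only [hp]
      rw [norm_smul, Real.norm_of_nonneg (mul_nonneg (aT0 _ _ _) (mX0 _ _ _)), mul_comm]
      exact mul_le_mul_of_nonneg_right (norm_ten_le n _ M0 hM0' (nX k h1 h2 b hb u))
        (mul_nonneg (aT0 _ _ _) (mX0 _ _ _))
    have hnV' : ∀ k, k1 ≤ k → k ≤ K → ∀ b < 2 ^ (K - k), ∀ u,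
        ‖V k b u‖ ≤ M0 ^ n * aS k b u := by
      intro k h1 h2 b hb u
      simp only [hV, if_pos h2]
      rw [norm_smul, Real.norm_of_nonneg (aS0 _ _ _), mul_comm]
      exact mul_le_mul_of_nonneg_right (norm_ten_le n _ M0 hM0' (nY k h1 h2 b hb u))
        (aS0 _ _ _)
    have hMn : (0 : ℝ) ≤ M0 ^ n := by positivity
    have hnV : ∀ k, k1 ≤ k → k ≤ K → ∀ b < 2 ^ (K - k), ∀ u, ‖V k b u‖ ≤ M0 ^ n := by
      intro k h1 h2 b hb u
      refine (hnV' k h1 h2 b hb u).trans ?_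
      calc M0 ^ n * aS k b u ≤ M0 ^ n * 1 := mul_le_mul_of_nonneg_left (aS1 _ _ _) hMn
        _ = M0 ^ n := mul_one _
    have hmS0 : ∀ k b u, 0 ≤ mS k b u := by
      intro k b u
      simp only [hmS]
      split_ifs
      · exact le_max_of_le_left (haY0 _ _ _)
      · exact haY0 _ _ _
    have hmS1 : ∀ k b u, mS k b u ≤ 1 := by
      intro k b u
      simp only [hmS]
      split_ifs
      · refine max_le (haY1 _ _ _) ?_
        have h1 := aS1 (k + 1) (b / 2) u
        have h2 := aS0 k b u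
        linarith
      · exact haY1 _ _ _
    have hmSO : ∀ k b u, u ∉ Om → mS k b u = 0 := by
      intro k b u hu
      simp only [hmS, aSO _ _ u hu]
      simp
    have haccS : ∀ k, k1 ≤ k → k ≤ K → ∀ b < 2 ^ (K - k), ∀ u, acc K mS k b u ≤ R + 1 := by
      intro k h1 h2 b hb u
      have h3 := acc_death K k1 aS mY mS aS01 (fun b u => by simp [hmS]) (fun k hk b u => by
        simp only [hmS, if_pos hk]
        refine max_le ?_ ?_
        · have := aSm k hk b u
          linarith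
        · have := haY0 k b u
          linarith) (K - k) k h1 (by omega) b u
      have h4 := cY k h1 h2 b hb u
      have h5 := aS0 k b u
      linarith
    have htT : totr K k1 (fun k b u => aT k b u * mX k b u) ≤
        (R + 1) * (Om.card / Fintype.card A) := by
      unfold totr
      rw [← ex_sum]
      refine ex_Om K Om (R + 1) _ fun c hc u => ?_
      by_cases hu : u ∈ Om
      · rw [if_pos hu]
        have h2 := cX k1 le_rfl hk1 (c / 2 ^ k1) (blk_lt hk1 hc) u
        rw [acc_path] at h2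
        exact h2.trans (by linarith)
      · rw [if_neg hu]
        exact (sum_eq_zero fun k _ => by
          show aT k (c / 2 ^ k) u * mX k (c / 2 ^ k) u = 0
          rw [aTO _ _ u hu, zero_mul]).le
    have htS : totr K k1 mS ≤ (R + 1) * (Om.card / Fintype.card A) := by
      unfold totr
      rw [← ex_sum]
      refine ex_Om K Om (R + 1) _ fun c hc u => ?_
      by_cases hu : u ∈ Om
      · rw [if_pos hu]
        have h2 := haccS k1 le_rfl hk1 (c / 2 ^ k1) (blk_lt hk1 hc) u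
        rw [acc_path] at h2
        exact h2
      · rw [if_neg hu]
        exact (sum_eq_zero fun k _ => hmSO _ _ u hu).le
    have hfl := flux (EuclideanSpace ℝ (Fin (2 * n) → I)) K k1 hk0 hk1
      (fun k b u => aT k b u * mX k b u) mS p V (M0 ^ n) (M0 ^ n) (R + 1)
      (by linarith) hMn hMn (fun k b u => mul_nonneg (aT0 _ _ _) (mX0 _ _ _)) hmS0
      (fun k b u => mul_le_one₀ (aT1 _ _ _) (mX0 _ _ _) (mX1 _ _ _)) hmS1
      (fun k h1 h2 b hb u => (cX k h1 h2 b hb u).trans (by linarith)) haccS hnp hnV ?_ ?_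
    · refine (le_of_eq ?_).trans (hfl.trans ?_)
      · rfl
      · have hco : (0 : ℝ) ≤ CF * M0 ^ n * M0 ^ n * (R + 1) * (a + 1) / Real.sqrt (2 ^ a) := by
          positivity
        calc _ ≤ CF * M0 ^ n * M0 ^ n * (R + 1) * (a + 1) / Real.sqrt (2 ^ a) *
              ((R + 1) * (Om.card / Fintype.card A) + (R + 1) * (Om.card / Fintype.card A)) :=
              mul_le_mul_of_nonneg_left (add_le_add htT htS) hco
          _ = _ := by
              rw [two_mul n, pow_add]
              ring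
    · intro b u
      simp only [hV]
      rw [if_neg (by omega)]
    · intro k h1 h2 b hb u
      rcases Nat.lt_or_ge k K with hk | hk
      · have hmSk : mS k b u = max (aS k b u * mY k b u) (aS (k + 1) (b / 2) u - aS k b u) := by
          simp only [hmS, if_pos hk]
        have hb2 : b / 2 < 2 ^ (K - (k + 1)) := by
          have : 2 ^ (K - k) = 2 * 2 ^ (K - (k + 1)) := by
            rw [← pow_succ']
            congr 1
            omega
          omega
        have e1 : V k b u = aS k b u • ten (2 * n) (Y k b u) := by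
          simp only [hV, if_pos h2]
        have e2 : V (k + 1) (b / 2) u =
            aS (k + 1) (b / 2) u • ten (2 * n) (Y (k + 1) (b / 2) u) := by
          simp only [hV]
          rw [if_pos (by omega)]
        have n1 := hnV k h1 h2 b hb u
        have n2 := hnV (k + 1) (by omega) (by omega) (b / 2) hb2 u
        have n3 : ‖V k b u - V (k + 1) (b / 2) u‖ ≤ 2 * M0 ^ n :=
          (norm_sub_le _ _).trans (by linarith)
        have big : mS k b u = 1 → ‖V k b u - V (k + 1) (b / 2) u‖ ≤ 2 * M0 ^ n * mS k b u := by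
          intro h
          rw [h, mul_one]
          exact n3
        have hm0 : 0 ≤ mS k b u := by
          rw [hmSk]
          exact le_max_of_le_left (haY0 _ _ _)
        have hbd : V k b u = V (k + 1) (b / 2) u →
            ‖V k b u - V (k + 1) (b / 2) u‖ ≤ 2 * M0 ^ n * mS k b u := by
          intro h
          rw [h, sub_self, norm_zero]
          positivity
        rcases aS01 k b u with ha | ha
        · rcases aS01 (k + 1) (b / 2) u with ha' | ha'
          · apply hbd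
            rw [e1, e2, ha, ha', zero_smul, zero_smul]
          · apply big
            rw [hmSk, ha, ha']
            norm_num
        · have ha' : aS (k + 1) (b / 2) u = 1 := by
            have := aSm k hk b u
            rcases aS01 (k + 1) (b / 2) u with h | h
            · rw [ha, h] at this
              norm_num at this
            · exact h
          rcases mY01 k b u with hm | hm
          · apply hbd
            rw [e1, e2, ha, ha', hY k h1 hk b hb u hm]
          · apply big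
            rw [hmSk, ha, ha', hm]
            norm_num
      · have hkK : k = K := le_antisymm h2 hk
        subst hkK
        have e2 : V (k + 1) (b / 2) u = 0 := by
          simp only [hV]
          rw [if_neg (by omega)]
        rw [e2, sub_zero]
        have hmSk : mS k b u = aS k b u := by
          simp only [hmS, lt_irrefl, if_false, mYK, mul_one]
        rw [hmSk]
        have := hnV' k h1 le_rfl b hb u
        have h6 : 0 ≤ M0 ^ n * aS k b u := mul_nonneg hMn (aS0 _ _ _)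
        linarith
  -- the smooth part
  have hsmooth : ∀ k ∈ Icc k1 K, ex K (fun c u => inner ℝ (p k (c / 2 ^ k) u)
        (sm N (kr k) (c / 2 ^ k * 2 ^ k) (V k (c / 2 ^ k)) (N.th c * u))) ≤
      2 ^ (C * a) * s * ex K (fun c u => aT k (c / 2 ^ k) u * mX k (c / 2 ^ k) u) := by
    intro k hk
    obtain ⟨h1, h2⟩ := Finset.mem_Icc.1 hk
    refine smooth_part N nu C (2 ^ (C * a)) s hmul htied K k h2 (kr k) (hsupp k h1) (hvol k)
      (by positivity) (hbd k h1) (p k) (V k)
      (fun b u => aT k b u * mX k b u) (hin0 k h2) (fun b hb u => ?_)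
    have h3 : ∑ v : A, (if near N nu k b (C + 1) u v then
        inner ℝ (p k b u) (V k b v) else 0) =
        (aT k b u * mX k b u) * ∑ v : A, (if near N nu k b (C + 1) u v then
        aS k b v * (∑ i, X k b u i * Y k b v i) ^ (2 * n) else 0) := by
      rw [Finset.mul_sum]
      refine Finset.sum_congr rfl fun v _ => ?_
      rw [hin k h2]
      split_ifs
      · ring
      · ring
    rw [h3, mul_assoc _ s]
    rcases aT01 k b u with h | h
    · rw [h]
      simp
    · exact mul_le_mul_of_nonneg_left (sm1 k h1 h2 b hb u h)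
        (mul_nonneg (aT0 _ _ _) (mX0 _ _ _))
  have hcount : ∑ k ∈ Icc k1 K, ex K (fun c u => aT k (c / 2 ^ k) u * mX k (c / 2 ^ k) u) ≤
      R * (Om.card / Fintype.card A) := by
    rw [← ex_sum]
    refine ex_Om K Om R _ fun c hc u => ?_
    by_cases hu : u ∈ Om
    · rw [if_pos hu]
      have h2 := cX k1 le_rfl hk1 (c / 2 ^ k1) (blk_lt hk1 hc) u
      rw [acc_path] at h2
      exact h2
    · rw [if_neg hu]
      exact (sum_eq_zero fun k _ => by rw [aTO _ _ u hu, zero_mul]).le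
  have hsm : ∑ k ∈ Icc k1 K, ex K (fun c u => inner ℝ (p k (c / 2 ^ k) u)
        (sm N (kr k) (c / 2 ^ k * 2 ^ k) (V k (c / 2 ^ k)) (N.th c * u))) ≤
      (2 : ℝ) ^ (C * a) * R * s * (Om.card / Fintype.card A) := by
    calc _ ≤ ∑ k ∈ Icc k1 K, 2 ^ (C * a) * s *
          ex K (fun c u => aT k (c / 2 ^ k) u * mX k (c / 2 ^ k) u) :=
          Finset.sum_le_sum hsmooth
      _ = 2 ^ (C * a) * s *
          ∑ k ∈ Icc k1 K, ex K (fun c u => aT k (c / 2 ^ k) u * mX k (c / 2 ^ k) u) := by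
          rw [Finset.mul_sum]
      _ ≤ 2 ^ (C * a) * s * (R * (Om.card / Fintype.card A)) :=
          mul_le_mul_of_nonneg_left hcount (by positivity)
      _ = _ := by ring
  have hr := (le_abs_self _).trans hrough
  rw [add_mul]
  exact add_le_add hr hsm

open Classical in
theorem key_abs {I : Type} [Fintype I] (M : Mod A) (nu : ℕ → A → ℝ) (C CF K k1 a n : ℕ)
    (hGe : Geo M nu C) (kr : ℕ → A → ℝ) (hkr : Krn M nu C a kr) (hCF : C ≤ CF)
    (flux : FluxH M kr CF a) (fluxS : FluxH M.sw kr CF a)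
    (hk0 : CF * a ≤ k1) (hk1 : k1 ≤ K)
    (Om : Finset A) (X Y : ℕ → ℕ → A → I → ℝ)
    (aT aS mX mY : ℕ → ℕ → A → ℝ) (M0 R δ s : ℝ)
    (hM0 : 1 ≤ M0) (hR : 1 ≤ R) (hδ : 0 < δ) (hs : 0 ≤ s)
    (aT01 : ∀ k b u, aT k b u = 0 ∨ aT k b u = 1) (aS01 : ∀ k b u, aS k b u = 0 ∨ aS k b u = 1)
    (mX01 : ∀ k b u, mX k b u = 0 ∨ mX k b u = 1) (mY01 : ∀ k b u, mY k b u = 0 ∨ mY k b u = 1)
    (aTO : ∀ k b u, u ∉ Om → aT k b u = 0) (aSO : ∀ k b u, u ∉ Om → aS k b u = 0)
    (aTm : ∀ k < K, ∀ b u, aT k b u ≤ aT (k + 1) (b / 2) u)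
    (aSm : ∀ k < K, ∀ b u, aS k b u ≤ aS (k + 1) (b / 2) u)
    (mXK : ∀ b u, mX K b u = 1) (mYK : ∀ b u, mY K b u = 1)
    (hX : ∀ k, k1 ≤ k → k < K → ∀ b < 2 ^ (K - k), ∀ u, mX k b u = 0 →
      X k b u = X (k + 1) (b / 2) u)
    (hY : ∀ k, k1 ≤ k → k < K → ∀ b < 2 ^ (K - k), ∀ u, mY k b u = 0 →
      Y k b u = Y (k + 1) (b / 2) u)
    (nX : ∀ k, k1 ≤ k → k ≤ K → ∀ b < 2 ^ (K - k), ∀ u, ∑ i, X k b u i ^ 2 ≤ M0)
    (nY : ∀ k, k1 ≤ k → k ≤ K → ∀ b < 2 ^ (K - k), ∀ u, ∑ i, Y k b u i ^ 2 ≤ M0)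
    (cX : ∀ k, k1 ≤ k → k ≤ K → ∀ b < 2 ^ (K - k), ∀ u,
      acc K (fun k b u => aT k b u * mX k b u) k b u ≤ R)
    (cY : ∀ k, k1 ≤ k → k ≤ K → ∀ b < 2 ^ (K - k), ∀ u,
      acc K (fun k b u => aS k b u * mY k b u) k b u ≤ R)
    (smT : ∀ k, k1 ≤ k → k ≤ K → ∀ b < 2 ^ (K - k), ∀ u, aT k b u = 1 →
      ∑ v : A, (if near M nu k b (C + 1) u v then
        aS k b v * (∑ i, X k b u i * Y k b v i) ^ (2 * n) else 0) ≤ s * vol nu k)
    (smS : ∀ k, k1 ≤ k → k ≤ K → ∀ b < 2 ^ (K - k), ∀ v, aS k b v = 1 →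
      ∑ u : A, (if near M nu k b (C + 1) u v then
        aT k b u * (∑ i, X k b u i * Y k b v i) ^ (2 * n) else 0) ≤ s * vol nu k) :
    ex K (fun c u => if ∃ k, k1 ≤ k ∧ k ≤ K ∧ aT k (c / 2 ^ k) u = 1 ∧
        aS k (c / 2 ^ k) (M.th c * u) = 1 ∧
        δ ≤ |∑ i, X k (c / 2 ^ k) u i * Y k (c / 2 ^ k) (M.th c * u) i| then (1 : ℝ) else 0) ≤
      2 * (2 * CF * M0 ^ (2 * n) * (R + 1) ^ 2 * (a + 1) / Real.sqrt (2 ^ a)
        + (2 : ℝ) ^ (C * a) * R * s) / δ ^ (2 * n) * (Om.card / Fintype.card A) := by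
  set z : ℕ → ℕ → A → ℝ := fun k c u =>
    ∑ i, X k (c / 2 ^ k) u i * Y k (c / 2 ^ k) (M.th c * u) i with hz
  have aT0 : ∀ k b u, 0 ≤ aT k b u := fun k b u => by
    rcases aT01 k b u with h | h <;> rw [h]; norm_num
  have aS0 : ∀ k b u, 0 ≤ aS k b u := fun k b u => by
    rcases aS01 k b u with h | h <;> rw [h]; norm_num
  have mX0 : ∀ k b u, 0 ≤ mX k b u := fun k b u => by
    rcases mX01 k b u with h | h <;> rw [h]; norm_num
  have mY0 : ∀ k b u, 0 ≤ mY k b u := fun k b u => by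
    rcases mY01 k b u with h | h <;> rw [h]; norm_num
  -- the pointwise bound
  have hpt : ∀ c < 2 ^ K, ∀ u : A, (if ∃ k, k1 ≤ k ∧ k ≤ K ∧ aT k (c / 2 ^ k) u = 1 ∧
        aS k (c / 2 ^ k) (M.th c * u) = 1 ∧
        δ ≤ |∑ i, X k (c / 2 ^ k) u i * Y k (c / 2 ^ k) (M.th c * u) i| then (1 : ℝ) else 0) ≤
      1 / δ ^ (2 * n) * ∑ k ∈ Icc k1 K,
        (aT k (c / 2 ^ k) u * mX k (c / 2 ^ k) u * aS k (c / 2 ^ k) (M.th c * u) *
          z k c u ^ (2 * n) +
        aT k (c / 2 ^ k) u * mY k (c / 2 ^ k) (M.th c * u) * aS k (c / 2 ^ k) (M.th c * u) *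
          z k c u ^ (2 * n)) := by
    intro c hc u
    have hterm : ∀ k, 0 ≤
        aT k (c / 2 ^ k) u * mX k (c / 2 ^ k) u * aS k (c / 2 ^ k) (M.th c * u) *
          z k c u ^ (2 * n) +
        aT k (c / 2 ^ k) u * mY k (c / 2 ^ k) (M.th c * u) * aS k (c / 2 ^ k) (M.th c * u) *
          z k c u ^ (2 * n) := fun k =>
      add_nonneg (mul_nonneg (mul_nonneg (mul_nonneg (aT0 _ _ _) (mX0 _ _ _)) (aS0 _ _ _))
        (Even.pow_nonneg (even_two_mul n) _))
        (mul_nonneg (mul_nonneg (mul_nonneg (aT0 _ _ _) (mY0 _ _ _)) (aS0 _ _ _))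
        (Even.pow_nonneg (even_two_mul n) _))
    split_ifs with hex
    · obtain ⟨k0, hk0⟩ := hex
      set F := (Icc k1 K).filter (fun k => aT k (c / 2 ^ k) u = 1 ∧
        aS k (c / 2 ^ k) (M.th c * u) = 1 ∧ δ ≤ |z k c u|) with hF
      have hFn : F.Nonempty := ⟨k0, by
        rw [hF, Finset.mem_filter, Finset.mem_Icc]
        exact ⟨⟨hk0.1, hk0.2.1⟩, hk0.2.2⟩⟩
      obtain ⟨k, hk, hmax⟩ := F.exists_max_image id hFn
      rw [hF, Finset.mem_filter, Finset.mem_Icc] at hk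
      obtain ⟨⟨h1, h2⟩, hT, hS, hd⟩ := hk
      have hbk : c / 2 ^ k < 2 ^ (K - k) := by
        rw [Nat.div_lt_iff_lt_mul (by positivity), ← pow_add, Nat.sub_add_cancel h2]
        exact hc
      have hdiv : c / 2 ^ k / 2 = c / 2 ^ (k + 1) := by
        rw [Nat.div_div_eq_div_mul, pow_succ]
      have hmove : mX k (c / 2 ^ k) u = 1 ∨ mY k (c / 2 ^ k) (M.th c * u) = 1 := by
        rcases Nat.lt_or_ge k K with hkK | hkK
        · by_contra hcon
          rw [not_or] at hcon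
          have hx : mX k (c / 2 ^ k) u = 0 := (mX01 _ _ _).resolve_right hcon.1
          have hy : mY k (c / 2 ^ k) (M.th c * u) = 0 := (mY01 _ _ _).resolve_right hcon.2
          have ex1 := hX k h1 hkK _ hbk u hx
          have ey1 := hY k h1 hkK _ hbk (M.th c * u) hy
          have ez : z k c u = z (k + 1) c u := by
            simp only [hz]
            rw [ex1, ey1, hdiv]
          have hT' : aT (k + 1) (c / 2 ^ (k + 1)) u = 1 := by
            have := aTm k hkK (c / 2 ^ k) u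
            rw [hT, hdiv] at this
            rcases aT01 (k + 1) (c / 2 ^ (k + 1)) u with h | h
            · rw [h] at this
              norm_num at this
            · exact h
          have hS' : aS (k + 1) (c / 2 ^ (k + 1)) (M.th c * u) = 1 := by
            have := aSm k hkK (c / 2 ^ k) (M.th c * u)
            rw [hS, hdiv] at this
            rcases aS01 (k + 1) (c / 2 ^ (k + 1)) (M.th c * u) with h | h
            · rw [h] at this
              norm_num at this
            · exact h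
          have hmem : k + 1 ∈ F := by
            rw [hF, Finset.mem_filter, Finset.mem_Icc]
            exact ⟨⟨by omega, hkK⟩, hT', hS', by rw [← ez]; exact hd⟩
          have := hmax (k + 1) hmem
          simp only [id] at this
          omega
        · left
          have : k = K := le_antisymm h2 hkK
          rw [this]
          exact mXK _ _
      have hzk : δ ^ (2 * n) ≤ z k c u ^ (2 * n) := by
        rw [← Even.pow_abs (even_two_mul n) (z k c u)]
        exact pow_le_pow_left₀ hδ.le hd _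
      have hz0 : 0 ≤ z k c u ^ (2 * n) := Even.pow_nonneg (even_two_mul n) _
      have hkterm : δ ^ (2 * n) ≤
          aT k (c / 2 ^ k) u * mX k (c / 2 ^ k) u * aS k (c / 2 ^ k) (M.th c * u) *
            z k c u ^ (2 * n) +
          aT k (c / 2 ^ k) u * mY k (c / 2 ^ k) (M.th c * u) * aS k (c / 2 ^ k) (M.th c * u) *
            z k c u ^ (2 * n) := by
        rw [hT, hS]
        rcases hmove with h | h
        · rw [h]
          have := mul_nonneg (mY0 k (c / 2 ^ k) (M.th c * u)) hz0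
          nlinarith
        · rw [h]
          have := mul_nonneg (mX0 k (c / 2 ^ k) u) hz0
          nlinarith
      have hsum := Finset.single_le_sum (fun k _ => hterm k) (Finset.mem_Icc.2 ⟨h1, h2⟩)
      have hδn : 0 < δ ^ (2 * n) := by positivity
      rw [one_div_mul_eq_div, le_div_iff₀ hδn, one_mul]
      exact hkterm.trans hsum
    · exact mul_nonneg (by positivity) (Finset.sum_nonneg (fun k _ => hterm k))
  -- the two parts
  have hsupp : ∀ k, k1 ≤ k → ∀ x, kr k x ≠ 0 → nu k x ≤ 1 := fun k hk x hx =>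
    hkr.supp k (((Nat.mul_le_mul_right a hCF).trans hk0).trans hk) x hx
  have hbd : ∀ k, k1 ≤ k → ∀ x, |kr k x| ≤ 2 ^ (C * a) / vol nu k := fun k hk x =>
    hkr.bound k (((Nat.mul_le_mul_right a hCF).trans hk0).trans hk) x
  have hvol : ∀ k, 0 < vol nu k := fun k => lt_of_lt_of_le one_pos (vol_ge_one hGe k)
  have hTpart : ∑ k ∈ Icc k1 K, ex K (fun c u => aT k (c / 2 ^ k) u * mX k (c / 2 ^ k) u *
        aS k (c / 2 ^ k) (M.th c * u) *
        (∑ i, X k (c / 2 ^ k) u i * Y k (c / 2 ^ k) (M.th c * u) i) ^ (2 * n)) ≤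
      (2 * CF * M0 ^ (2 * n) * (R + 1) ^ 2 * (a + 1) / Real.sqrt (2 ^ a)
        + (2 : ℝ) ^ (C * a) * R * s) * (Om.card / Fintype.card A) :=
    part M nu C CF K k1 a n hGe.mul (near_tied hGe) kr hsupp hvol hbd hk0 hk1 flux Om X Y aT aS
      mX mY M0 R s hM0 hR hs aT01 aS01 mX01 mY01 aTO aSO aSm mYK hY nX nY cX cY smT
  have hSpart : ∑ k ∈ Icc k1 K, ex K (fun c v => aS k (c / 2 ^ k) v * mY k (c / 2 ^ k) v *
        aT k (c / 2 ^ k) ((M.th c)⁻¹ * v) *
        (∑ i, Y k (c / 2 ^ k) v i * X k (c / 2 ^ k) ((M.th c)⁻¹ * v) i) ^ (2 * n)) ≤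
      (2 * CF * M0 ^ (2 * n) * (R + 1) ^ 2 * (a + 1) / Real.sqrt (2 ^ a)
        + (2 : ℝ) ^ (C * a) * R * s) * (Om.card / Fintype.card A) := by
    have htied : ∀ k c u, near M.sw nu k (c / 2 ^ k) C u (M.sw.th c * u) := by
      intro k c v
      have h := near_tied hGe k c ((M.th c)⁻¹ * v)
      rw [mul_inv_cancel_left] at h
      exact (near_sw hGe.inv k (c / 2 ^ k) C ((M.th c)⁻¹ * v) v).2 h
    refine part M.sw nu C CF K k1 a n hGe.mul htied kr hsupp hvol hbd hk0 hk1 fluxS Om Y X aS aT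
      mY mX M0 R s hM0 hR hs aS01 aT01 mY01 mX01 aSO aTO aTm mXK hX nY nX cY cX ?_
    intro k h1 h2 b hb v hv
    refine le_trans (le_of_eq ?_) (smS k h1 h2 b hb v hv)
    refine Finset.sum_congr rfl fun u _ => ?_
    rw [if_congr (near_sw hGe.inv k b (C + 1) u v) rfl rfl]
    have e : ∑ i, Y k b v i * X k b u i = ∑ i, X k b u i * Y k b v i :=
      Finset.sum_congr rfl (fun i _ => mul_comm _ _)
    rw [e]
  have hshift : ∀ k, ex K (fun c u => aT k (c / 2 ^ k) u * mY k (c / 2 ^ k) (M.th c * u) *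
        aS k (c / 2 ^ k) (M.th c * u) * z k c u ^ (2 * n)) =
      ex K (fun c v => aS k (c / 2 ^ k) v * mY k (c / 2 ^ k) v *
        aT k (c / 2 ^ k) ((M.th c)⁻¹ * v) *
        (∑ i, Y k (c / 2 ^ k) v i * X k (c / 2 ^ k) ((M.th c)⁻¹ * v) i) ^ (2 * n)) := by
    intro k
    rw [← ex_shift K (fun c v => aS k (c / 2 ^ k) v * mY k (c / 2 ^ k) v *
        aT k (c / 2 ^ k) ((M.th c)⁻¹ * v) *
        (∑ i, Y k (c / 2 ^ k) v i * X k (c / 2 ^ k) ((M.th c)⁻¹ * v) i) ^ (2 * n))
        (fun c => M.th c)]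
    congr 1
    funext c u
    simp only [inv_mul_cancel_left, hz]
    have : ∑ i, Y k (c / 2 ^ k) (M.th c * u) i * X k (c / 2 ^ k) u i =
        ∑ i, X k (c / 2 ^ k) u i * Y k (c / 2 ^ k) (M.th c * u) i :=
      Finset.sum_congr rfl (fun i _ => mul_comm _ _)
    rw [this]
    ring
  refine (ex_mono K _ _ hpt).trans ?_
  rw [ex_smul, ex_sum]
  have hsum : ∑ k ∈ Icc k1 K, ex K (fun c u =>
        (aT k (c / 2 ^ k) u * mX k (c / 2 ^ k) u * aS k (c / 2 ^ k) (M.th c * u) *
          z k c u ^ (2 * n) +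
        aT k (c / 2 ^ k) u * mY k (c / 2 ^ k) (M.th c * u) * aS k (c / 2 ^ k) (M.th c * u) *
          z k c u ^ (2 * n))) ≤
      2 * (2 * CF * M0 ^ (2 * n) * (R + 1) ^ 2 * (a + 1) / Real.sqrt (2 ^ a)
        + (2 : ℝ) ^ (C * a) * R * s) * (Om.card / Fintype.card A) := by
    have e1 : ∀ k ∈ Icc k1 K, ex K (fun c u =>
        (aT k (c / 2 ^ k) u * mX k (c / 2 ^ k) u * aS k (c / 2 ^ k) (M.th c * u) *
          z k c u ^ (2 * n) +
        aT k (c / 2 ^ k) u * mY k (c / 2 ^ k) (M.th c * u) * aS k (c / 2 ^ k) (M.th c * u) *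
          z k c u ^ (2 * n))) =
        ex K (fun c u => aT k (c / 2 ^ k) u * mX k (c / 2 ^ k) u *
          aS k (c / 2 ^ k) (M.th c * u) *
          (∑ i, X k (c / 2 ^ k) u i * Y k (c / 2 ^ k) (M.th c * u) i) ^ (2 * n)) +
        ex K (fun c v => aS k (c / 2 ^ k) v * mY k (c / 2 ^ k) v *
          aT k (c / 2 ^ k) ((M.th c)⁻¹ * v) *
          (∑ i, Y k (c / 2 ^ k) v i * X k (c / 2 ^ k) ((M.th c)⁻¹ * v) i) ^ (2 * n)) := by
      intro k _
      rw [ex_add, hshift k]
    rw [Finset.sum_congr rfl e1, Finset.sum_add_distrib]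
    linarith
  have hδn : 0 < δ ^ (2 * n) := by positivity
  rw [one_div_mul_eq_div, div_mul_eq_mul_div]
  exact div_le_div_of_nonneg_right hsum hδn.le

end

end NPG
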