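import Mathlib

/-!
# NPG / KeyB : arithmetic of the key lemma

`P = 2^e`, `M0 = 180000 C^2 e`, `B = M0/(δ/2)`, `B^(100 C) ≤ P`; `n` with
`P^8 ≤ B^(2n) ≤ P^9`; `ε = B^(-40 C - 1)/16`.
-/

namespace NPG

noncomputable section

/-- norm bound of the vectors -/
def M0E (C e : ℕ) : ℝ := 180000 * (C : ℝ) ^ 2 * e

/-- the parameter `ε` -/
def epsK (C e : ℕ) (δ : ℝ) : ℝ := 1 / (16 * (M0E C e / (δ / 2)) ^ (40 * C + 1))

/-- the smooth bound -/
def sK (C e n : ℕ) (δ : ℝ) : ℝ :=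
  4 ^ (2 * n) * (2 * (1 / 2 : ℝ) ^ (8000 * C * e)) +
    (C : ℝ) * (C + 1) ^ C *
      (2 * ((1 / 2 : ℝ) ^ (3000 * e) + 2 * epsK C e δ * M0E C e)) ^ (2 * n)

theorem keyB_n (B P : ℝ) (hB : 1 < B) (hBP : B ^ 2 ≤ P) (hP : 1 < P) :
    ∃ n : ℕ, 1 ≤ n ∧ P ^ 8 ≤ B ^ (2 * n) ∧ B ^ (2 * n) ≤ P ^ 9 := by
  have hB2 : 1 < B ^ 2 := one_lt_pow₀ hB (by norm_num)
  have hex : ∃ n : ℕ, P ^ 8 ≤ (B ^ 2) ^ n := by
    obtain ⟨n, hn⟩ := pow_unbounded_of_one_lt (P ^ 8) hB2
    exact ⟨n, hn.le⟩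
  classical
  have hspec := Nat.find_spec hex
  have hmin := fun m => @Nat.find_min _ _ hex m
  set n := Nat.find hex with hn
  have hn1 : 1 ≤ n := by
    rcases Nat.eq_zero_or_pos n with h | h
    · exfalso
      rw [h, pow_zero] at hspec
      have : 1 < P ^ 8 := one_lt_pow₀ hP (by norm_num)
      linarith
    · exact h
  refine ⟨n, hn1, ?_, ?_⟩
  · rw [pow_mul]
    exact hspec
  · rw [pow_mul]
    have h1 := hmin (n - 1) (by omega)
    rw [not_le] at h1
    have h2 : (B ^ 2) ^ n = (B ^ 2) ^ (n - 1) * B ^ 2 := by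
      rw [← pow_succ]
      congr 1
      omega
    rw [h2]
    calc (B ^ 2) ^ (n - 1) * B ^ 2 ≤ P ^ 8 * P := by
          apply mul_le_mul h1.le hBP (by positivity) (by positivity)
      _ = P ^ 9 := by ring

theorem M0E_ge (C e : ℕ) (hC : 1 ≤ C) (he : 1 ≤ e) : 180000 ≤ M0E C e := by
  have he' : (1 : ℝ) ≤ e := by exact_mod_cast he
  have hC' : (1 : ℝ) ≤ C := by exact_mod_cast hC
  have h2 : (1 : ℝ) ≤ (C : ℝ) ^ 2 := one_le_pow₀ hC'
  unfold M0E
  nlinarith [mul_le_mul h2 he' (by norm_num) (by positivity)]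

theorem keyB_basic (C e : ℕ) (hC : 1 ≤ C) (he : 1 ≤ e) (δ : ℝ) (hδ : 0 < δ) (hδ1 : δ ≤ 1)
    (hH : (10 ^ 6 * (C : ℝ) ^ 2 * e / δ) ^ (100 * C) ≤ (2 : ℝ) ^ e) :
    336000 ≤ M0E C e / (δ / 2) ∧ (M0E C e / (δ / 2)) ^ (100 * C) ≤ (2 : ℝ) ^ e ∧
      1 / (δ / 2) ≤ M0E C e / (δ / 2) ∧ M0E C e ≤ M0E C e / (δ / 2) := by
  have hd : 0 < δ / 2 := by linarith
  have hM := M0E_ge C e hC he
  refine ⟨?_, ?_, ?_, ?_⟩
  · rw [le_div_iff₀ hd]
    linarith
  · refine le_trans (pow_le_pow_left₀ (by positivity) ?_ _) hH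
    rw [div_le_div_iff₀ hd hδ]
    have h1 : 0 ≤ (C : ℝ) ^ 2 * e * δ := by positivity
    unfold M0E
    nlinarith
  · rw [div_le_div_iff_of_pos_right hd]
    linarith
  · rw [le_div_iff₀ hd]
    nlinarith

theorem keyB_main (C CF e : ℕ) (hC : 1 ≤ C) (he : 1 ≤ e) (δ : ℝ) (hδ : 0 < δ) (hδ1 : δ ≤ 1)
    (hCF : (CF : ℝ) ≤ 2 ^ e) (hN : (C : ℝ) * (C + 1) ^ C ≤ 2 ^ e)
    (hH : (10 ^ 6 * (C : ℝ) ^ 2 * e / δ) ^ (100 * C) ≤ (2 : ℝ) ^ e) :
    0 < epsK C e δ ∧ 2 * epsK C e δ * M0E C e ≤ δ / 2 ∧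
      (2 + M0E C e / epsK C e δ ^ 2) / 2 ^ (5 * e) ≤ 2 * (1 / 2 : ℝ) ^ e ∧
      ∃ n : ℕ, 1 ≤ n ∧
        2 * (2 * CF * M0E C e ^ (2 * n) * (2 ^ (5 * e) + 1) ^ 2 *
            (((80 * e : ℕ) : ℝ) + 1) / Real.sqrt (2 ^ (80 * e))
          + (2 : ℝ) ^ (C * (80 * e)) * 2 ^ (5 * e) * sK C e n δ) / (δ / 2) ^ (2 * n) ≤
        2000 * (1 / 2 : ℝ) ^ e := by
  obtain ⟨hB1, hB100, hdB, hMB⟩ := keyB_basic C e hC he δ hδ hδ1 hH
  have hMge := M0E_ge C e hC he
  have he' : (1 : ℝ) ≤ e := by exact_mod_cast he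
  set B : ℝ := M0E C e / (δ / 2) with hBdef
  have heps : epsK C e δ = 1 / (16 * B ^ (40 * C + 1)) := rfl
  set M0 : ℝ := M0E C e with hM0
  set d : ℝ := δ / 2 with hd
  set P : ℝ := (2 : ℝ) ^ e with hP
  have hd0 : 0 < d := by rw [hd]; linarith
  have hM0pos : 0 < M0 := by linarith
  have hM01 : 1 ≤ M0 := by linarith
  have hBpos : 0 < B := by linarith
  have hB1' : 1 ≤ B := by linarith
  have hP2 : 2 ≤ P := by
    rw [hP]
    calc (2 : ℝ) = 2 ^ 1 := by norm_num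
      _ ≤ 2 ^ e := pow_le_pow_right₀ (by norm_num) he
  have hPpos : 0 < P := by linarith
  have hP1 : 1 ≤ P := by linarith
  have hPe : (e : ℝ) ≤ P := by
    rw [hP]
    exact_mod_cast Nat.lt_two_pow_self.le
  have hBP : ∀ j ≤ 100 * C, B ^ j ≤ P := fun j hj =>
    (pow_le_pow_right₀ hB1' hj).trans hB100
  have hhalf : (1 / 2 : ℝ) ^ e = 1 / P := by
    rw [hP, div_pow, one_pow]
  have hpw : ∀ j : ℕ, (2 : ℝ) ^ (j * e) = P ^ j := by
    intro j
    rw [hP, ← pow_mul, mul_comm]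
  have hhw : ∀ j : ℕ, (1 / 2 : ℝ) ^ (j * e) = 1 / P ^ j := by
    intro j
    rw [div_pow, one_pow, hpw]
  have hepos : 0 < epsK C e δ := by
    rw [heps]
    positivity
  have hdM : M0 = B * d := by
    rw [hBdef]
    field_simp
  -- 2 eps M0
  have hem : 2 * epsK C e δ * M0 = d / 8 * (1 / B ^ (40 * C)) := by
    rw [heps, hdM, pow_succ]
    field_simp
    ring
  refine ⟨hepos, ?_, ?_, ?_⟩
  · rw [hem]
    have h1 : 1 / B ^ (40 * C) ≤ 1 := by
      rw [div_le_one (by positivity)]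
      exact one_le_pow₀ hB1'
    nlinarith
  · rw [hpw, hhalf, heps]
    have h1 : M0 / (1 / (16 * B ^ (40 * C + 1))) ^ 2 = 256 * M0 * B ^ (80 * C + 2) := by
      have : B ^ (80 * C + 2) = (B ^ (40 * C + 1)) ^ 2 := by
        rw [← pow_mul]
        congr 1
        ring
      rw [this]
      field_simp
      ring
    rw [h1]
    have h2 : 256 * M0 * B ^ (80 * C + 2) ≤ P := by
      calc 256 * M0 * B ^ (80 * C + 2) ≤ B * B * B ^ (80 * C + 2) := by
            refine mul_le_mul_of_nonneg_right ?_ (by positivity)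
            refine mul_le_mul (by linarith) hMB hM0pos.le hBpos.le
        _ = B ^ (80 * C + 4) := by ring
        _ ≤ P := hBP _ (by omega)
    rw [div_le_iff₀ (by positivity)]
    have h3 : 2 * (1 / P) * P ^ 5 = 2 * P ^ 4 := by
      field_simp
    rw [h3]
    have h4 : P ≤ P ^ 4 := le_self_pow₀ hP1 (by norm_num)
    linarith
  · obtain ⟨n, hn1, hn8, hn9⟩ := keyB_n B P (by linarith) (hBP 2 (by omega)) (by linarith)
    refine ⟨n, hn1, ?_⟩
    have hBd : B ^ (2 * n) = M0 ^ (2 * n) / d ^ (2 * n) := by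
      rw [hBdef, div_pow]
    have hd2 : 1 / d ^ (2 * n) ≤ P ^ 9 := by
      refine le_trans ?_ hn9
      rw [hBd]
      exact div_le_div_of_nonneg_right (one_le_pow₀ hM01) (by positivity)
    have h4n : (4 : ℝ) ^ (2 * n) ≤ P ^ 9 :=
      le_trans (pow_le_pow_left₀ (by norm_num) (by linarith) _) hn9
    have hsq : Real.sqrt (2 ^ (80 * e)) = P ^ 40 := by
      rw [hpw]
      have : P ^ 80 = (P ^ 40) ^ 2 := by ring
      rw [this]
      exact Real.sqrt_sq (by positivity)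
    -- the first term
    have hA : 2 * CF * M0 ^ (2 * n) * (2 ^ (5 * e) + 1) ^ 2 * (((80 * e : ℕ) : ℝ) + 1) /
        Real.sqrt (2 ^ (80 * e)) / d ^ (2 * n) ≤ 648 * (1 / P) := by
      rw [hsq, hpw]
      have e1 : 2 * CF * M0 ^ (2 * n) * (P ^ 5 + 1) ^ 2 * (((80 * e : ℕ) : ℝ) + 1) / P ^ 40 /
          d ^ (2 * n) = 2 * CF * B ^ (2 * n) * (P ^ 5 + 1) ^ 2 * (((80 * e : ℕ) : ℝ) + 1) /
            P ^ 40 := by
        rw [hBd]
        field_simp
      rw [e1]
      have e2 : (P ^ 5 + 1) ^ 2 ≤ (2 * P ^ 5) ^ 2 := by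
        refine pow_le_pow_left₀ (by positivity) ?_ 2
        have := one_le_pow₀ hP1 (n := 5)
        linarith
      have e3 : (((80 * e : ℕ) : ℝ) + 1) ≤ 81 * P := by
        push_cast
        linarith
      calc 2 * CF * B ^ (2 * n) * (P ^ 5 + 1) ^ 2 * (((80 * e : ℕ) : ℝ) + 1) / P ^ 40
          ≤ 2 * P * P ^ 9 * (2 * P ^ 5) ^ 2 * (81 * P) / P ^ 40 := by
            refine div_le_div_of_nonneg_right ?_ (by positivity)
            refine mul_le_mul ?_ e3 (by positivity) (by positivity)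
            refine mul_le_mul ?_ e2 (by positivity) (by positivity)
            refine mul_le_mul (by linarith) hn9 (by positivity) (by positivity)
        _ = 648 * (1 / P ^ 19) := by
            field_simp
            ring
        _ ≤ 648 * (1 / P) := by
            refine mul_le_mul_of_nonneg_left ?_ (by norm_num)
            exact one_div_le_one_div_of_le hPpos (le_self_pow₀ hP1 (by norm_num))
    -- the second term
    have hexp : ∀ (i j l : ℕ), i + l ≤ j → P ^ i * (1 / P ^ j) ≤ 1 / P ^ l := by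
      intro i j l h
      have : P ^ i * (1 / P ^ j) = P ^ i / P ^ j := by ring
      rw [this, div_le_div_iff₀ (by positivity) (by positivity), one_mul, ← pow_add]
      exact pow_le_pow_right₀ hP1 h
    have hS1 : (4 : ℝ) ^ (2 * n) * (2 * (1 / 2 : ℝ) ^ (8000 * C * e)) / d ^ (2 * n) ≤
        2 * (1 / P ^ (7000 * C)) := by
      rw [hhw]
      calc (4 : ℝ) ^ (2 * n) * (2 * (1 / P ^ (8000 * C))) / d ^ (2 * n)
          = (4 : ℝ) ^ (2 * n) * (1 / d ^ (2 * n)) * (2 * (1 / P ^ (8000 * C))) := by ring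
        _ ≤ P ^ 9 * P ^ 9 * (2 * (1 / P ^ (8000 * C))) := by
            refine mul_le_mul_of_nonneg_right ?_ (by positivity)
            exact mul_le_mul h4n hd2 (by positivity) (by positivity)
        _ = 2 * (P ^ 18 * (1 / P ^ (8000 * C))) := by ring
        _ ≤ 2 * (1 / P ^ (7000 * C)) :=
            mul_le_mul_of_nonneg_left (hexp 18 _ _ (by omega)) (by norm_num)
    have hS2 : (C : ℝ) * (C + 1) ^ C *
        (2 * ((1 / 2 : ℝ) ^ (3000 * e) + 2 * epsK C e δ * M0)) ^ (2 * n) / d ^ (2 * n) ≤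
        P * (1 / P ^ (320 * C)) := by
      rw [hhw, hem]
      have e1 : 1 / P ^ 3000 ≤ d / 8 * (1 / B ^ (40 * C)) := by
        have f1 : 1 / d * (8 * B ^ (40 * C)) ≤ P := by
          calc 1 / d * (8 * B ^ (40 * C)) ≤ B * (B * B ^ (40 * C)) := by
                refine mul_le_mul hdB ?_ (by positivity) hBpos.le
                exact mul_le_mul_of_nonneg_right (by linarith) (by positivity)
            _ = B ^ (40 * C + 2) := by ring
            _ ≤ P := hBP _ (by omega)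
        have f2 : 1 / d * (8 * B ^ (40 * C)) ≤ P ^ 3000 :=
          f1.trans (le_self_pow₀ hP1 (by norm_num))
        have f3 : d / 8 * (1 / B ^ (40 * C)) = 1 / (1 / d * (8 * B ^ (40 * C))) := by
          field_simp
        rw [f3]
        exact one_div_le_one_div_of_le (by positivity) f2
      have e2 : 2 * (1 / P ^ 3000 + d / 8 * (1 / B ^ (40 * C))) / d ≤ 1 / B ^ (40 * C) := by
        rw [div_le_iff₀ hd0]
        have : 0 < 1 / B ^ (40 * C) := by positivity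
        nlinarith
      have e3 : (2 * (1 / P ^ 3000 + d / 8 * (1 / B ^ (40 * C)))) ^ (2 * n) / d ^ (2 * n) ≤
          1 / P ^ (320 * C) := by
        rw [← div_pow]
        calc (2 * (1 / P ^ 3000 + d / 8 * (1 / B ^ (40 * C))) / d) ^ (2 * n)
            ≤ (1 / B ^ (40 * C)) ^ (2 * n) := pow_le_pow_left₀ (by positivity) e2 _
          _ = 1 / (B ^ (2 * n)) ^ (40 * C) := by
              rw [div_pow, one_pow, ← pow_mul, ← pow_mul]
              congr 2
              ring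
          _ ≤ 1 / (P ^ 8) ^ (40 * C) := by
              refine one_div_le_one_div_of_le (by positivity) ?_
              exact pow_le_pow_left₀ (by positivity) hn8 _
          _ = 1 / P ^ (320 * C) := by
              rw [← pow_mul]
              congr 2
              ring
      rw [mul_div_assoc]
      exact mul_le_mul hN e3 (by positivity) (by positivity)
    have hS : (2 : ℝ) ^ (C * (80 * e)) * 2 ^ (5 * e) * sK C e n δ / d ^ (2 * n) ≤
        3 * (1 / P) := by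
      unfold sK
      have e0 : (2 : ℝ) ^ (C * (80 * e)) = P ^ (80 * C) := by
        rw [← hpw]
        congr 1
        ring
      rw [e0, hpw]
      calc P ^ (80 * C) * P ^ 5 * (4 ^ (2 * n) * (2 * (1 / 2 : ℝ) ^ (8000 * C * e)) +
            (C : ℝ) * (C + 1) ^ C *
            (2 * ((1 / 2 : ℝ) ^ (3000 * e) + 2 * epsK C e δ * M0)) ^ (2 * n)) / d ^ (2 * n)
          = P ^ (80 * C + 5) * (4 ^ (2 * n) * (2 * (1 / 2 : ℝ) ^ (8000 * C * e)) /
              d ^ (2 * n) +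
            (C : ℝ) * (C + 1) ^ C *
            (2 * ((1 / 2 : ℝ) ^ (3000 * e) + 2 * epsK C e δ * M0)) ^ (2 * n) / d ^ (2 * n)) := by
            rw [pow_add]
            ring
        _ ≤ P ^ (80 * C + 5) * (2 * (1 / P ^ (7000 * C)) + P * (1 / P ^ (320 * C))) := by
            refine mul_le_mul_of_nonneg_left (add_le_add hS1 hS2) (by positivity)
        _ = 2 * (P ^ (80 * C + 5) * (1 / P ^ (7000 * C))) +
            P ^ (80 * C + 6) * (1 / P ^ (320 * C)) := by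
            rw [pow_succ P (80 * C + 5)]
            ring
        _ ≤ 2 * (1 / P ^ 1) + 1 / P ^ 1 := by
            refine add_le_add (mul_le_mul_of_nonneg_left (hexp _ _ _ ?_) (by norm_num))
              (hexp _ _ _ ?_) <;> omega
        _ = 3 * (1 / P) := by
            rw [pow_one]
            ring
    rw [hhalf]
    have hfin : 2 * (2 * CF * M0 ^ (2 * n) * (2 ^ (5 * e) + 1) ^ 2 *
            (((80 * e : ℕ) : ℝ) + 1) / Real.sqrt (2 ^ (80 * e))
          + (2 : ℝ) ^ (C * (80 * e)) * 2 ^ (5 * e) * sK C e n δ) / d ^ (2 * n) =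
        2 * (2 * CF * M0 ^ (2 * n) * (2 ^ (5 * e) + 1) ^ 2 *
            (((80 * e : ℕ) : ℝ) + 1) / Real.sqrt (2 ^ (80 * e)) / d ^ (2 * n)) +
        2 * ((2 : ℝ) ^ (C * (80 * e)) * 2 ^ (5 * e) * sK C e n δ / d ^ (2 * n)) := by ring
    rw [hfin]
    have hpp : 0 < 1 / P := by positivity
    linarith

/-- the errors of one system -/
theorem keyB_e1 (C e : ℕ) (hC : 1 ≤ C) (he : 1 ≤ e) :
    10 * (3 * (C : ℝ) ^ 2 * (1 / 2 : ℝ) ^ (16000 * C * e)) * (60000 * C ^ 2 * e : ℕ)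
        + 5 * (3 * (C : ℝ) ^ 2 * (1 / 2 : ℝ) ^ (16000 * C * e))
        + Real.sqrt (2 ^ (30000 * C ^ 2 * e) /
          (2 ^ (60000 * C ^ 2 * e) * (1 / 2 : ℝ) ^ (8000 * C * e))) ≤
      1 / 2 * (1 / 2 : ℝ) ^ (3000 * e) := by
  have he' : (1 : ℝ) ≤ e := by exact_mod_cast he
  have hC' : (1 : ℝ) ≤ C := by exact_mod_cast hC
  set P : ℝ := (2 : ℝ) ^ e with hP
  have hP2 : 2 ≤ P := by
    rw [hP]
    calc (2 : ℝ) = 2 ^ 1 := by norm_num
      _ ≤ 2 ^ e := pow_le_pow_right₀ (by norm_num) he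
  have hPpos : 0 < P := by linarith
  have hP1 : 1 ≤ P := by linarith
  have hPe : (e : ℝ) ≤ P := by
    rw [hP]
    exact_mod_cast Nat.lt_two_pow_self.le
  have hPC : (C : ℝ) ≤ P ^ C := by
    have h1 : (C : ℝ) ≤ 2 ^ C := by exact_mod_cast Nat.lt_two_pow_self.le
    exact h1.trans (pow_le_pow_left₀ (by norm_num) hP2 _)
  have hpw : ∀ j : ℕ, (2 : ℝ) ^ (j * e) = P ^ j := by
    intro j
    rw [hP, ← pow_mul, mul_comm]
  have hhw : ∀ j : ℕ, (1 / 2 : ℝ) ^ (j * e) = 1 / P ^ j := by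
    intro j
    rw [div_pow, one_pow, hpw]
  have hexp : ∀ (i j l : ℕ), i + l ≤ j → P ^ i * (1 / P ^ j) ≤ 1 / P ^ l := by
    intro i j l h
    have : P ^ i * (1 / P ^ j) = P ^ i / P ^ j := by ring
    rw [this, div_le_div_iff₀ (by positivity) (by positivity), one_mul, ← pow_add]
    exact pow_le_pow_right₀ hP1 h
  have hC2 : (C : ℝ) ^ 2 ≤ P ^ (2 * C) := by
    rw [mul_comm, pow_mul]
    exact pow_le_pow_left₀ (by positivity) hPC 2
  have hCC : C ≤ C ^ 2 := by nlinarith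
  simp only [hhw, hpw]
  push_cast
  have c1 : 10 * (3 * (C : ℝ) ^ 2 * (1 / P ^ (16000 * C))) * (60000 * (C : ℝ) ^ 2 * e) ≤
      1800000 * (1 / P ^ 3900) := by
    have h0 : 0 < 1 / P ^ (16000 * C) := by positivity
    have h1 : (C : ℝ) ^ 2 * (C : ℝ) ^ 2 * e ≤ P ^ (2 * C) * P ^ (2 * C) * P := by
      refine mul_le_mul (mul_le_mul hC2 hC2 (by positivity) (by positivity)) hPe (by positivity)
        (by positivity)
    calc 10 * (3 * (C : ℝ) ^ 2 * (1 / P ^ (16000 * C))) * (60000 * (C : ℝ) ^ 2 * e)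
        = 1800000 * (((C : ℝ) ^ 2 * (C : ℝ) ^ 2 * e) * (1 / P ^ (16000 * C))) := by ring
      _ ≤ 1800000 * ((P ^ (2 * C) * P ^ (2 * C) * P) * (1 / P ^ (16000 * C))) :=
          mul_le_mul_of_nonneg_left (mul_le_mul_of_nonneg_right h1 h0.le) (by norm_num)
      _ = 1800000 * (P ^ (4 * C + 1) * (1 / P ^ (16000 * C))) := by
          rw [← pow_add, ← pow_succ]
          congr 4
          ring
      _ ≤ 1800000 * (1 / P ^ 3900) :=
          mul_le_mul_of_nonneg_left (hexp _ _ _ (by omega)) (by norm_num)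
  have c2 : 5 * (3 * (C : ℝ) ^ 2 * (1 / P ^ (16000 * C))) ≤ 15 * (1 / P ^ 3900) := by
    have h0 : 0 < 1 / P ^ (16000 * C) := by positivity
    calc 5 * (3 * (C : ℝ) ^ 2 * (1 / P ^ (16000 * C)))
        = 15 * ((C : ℝ) ^ 2 * (1 / P ^ (16000 * C))) := by ring
      _ ≤ 15 * (P ^ (2 * C) * (1 / P ^ (16000 * C))) :=
          mul_le_mul_of_nonneg_left (mul_le_mul_of_nonneg_right hC2 h0.le) (by norm_num)
      _ ≤ 15 * (1 / P ^ 3900) :=
          mul_le_mul_of_nonneg_left (hexp _ _ _ (by omega)) (by norm_num)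
  have c3 : Real.sqrt (P ^ (30000 * C ^ 2) / (P ^ (60000 * C ^ 2) * (1 / P ^ (8000 * C)))) ≤
      1 / P ^ 3900 := by
    have h1 : P ^ (30000 * C ^ 2) / (P ^ (60000 * C ^ 2) * (1 / P ^ (8000 * C))) ≤
        (1 / P ^ 3900) ^ 2 := by
      have e1 : P ^ (30000 * C ^ 2) / (P ^ (60000 * C ^ 2) * (1 / P ^ (8000 * C))) =
          P ^ (30000 * C ^ 2 + 8000 * C) * (1 / P ^ (60000 * C ^ 2)) := by
        rw [pow_add]
        field_simp
      rw [e1]
      refine (hexp _ _ 7800 ?_).trans (le_of_eq ?_)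
      · nlinarith
      · rw [div_pow, one_pow, ← pow_mul P 3900 2]
    calc Real.sqrt (P ^ (30000 * C ^ 2) / (P ^ (60000 * C ^ 2) * (1 / P ^ (8000 * C))))
        ≤ Real.sqrt ((1 / P ^ 3900) ^ 2) := Real.sqrt_le_sqrt h1
      _ = 1 / P ^ 3900 := Real.sqrt_sq (by positivity)
  have c7 : 4000000 * (1 / P ^ 3900) ≤ 1 / P ^ 3000 := by
    have e1 : (4000000 : ℝ) ≤ P ^ 900 := by
      calc (4000000 : ℝ) ≤ 2 ^ 22 := by norm_num
        _ ≤ 2 ^ 900 := pow_le_pow_right₀ (by norm_num) (by norm_num)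
        _ ≤ P ^ 900 := pow_le_pow_left₀ (by norm_num) hP2 _
    calc 4000000 * (1 / P ^ 3900) ≤ P ^ 900 * (1 / P ^ 3900) :=
          mul_le_mul_of_nonneg_right e1 (by positivity)
      _ = 1 / P ^ 3000 := by
          have : P ^ 3900 = P ^ 900 * P ^ 3000 := by rw [← pow_add]
          rw [this]
          field_simp
  have h0 : 0 < 1 / P ^ 3900 := by positivity
  linarith

end

end NPG
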