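import Pool.Agent.NPG.Vec
import Pool.Agent.NPG.Grd
import Pool.Agent.NPG.KeyB
import Pool.Agent.NPG.Proc

/-!
# NPG / KeyC : parameters, vectors, moves and alive objects of the key lemma

`vF` : the combined vector of two systems; `mvF` : its moves; `alF` : alive objects.
-/

namespace NPG
open Finset
open NP2 (ip blk comb cst rid res mcs ip_comm ip_self_nonneg ip_cs ip_le_one ip_add_left
  ip_smul_left ip_congr ip_comb_left rid_normal rid_unique cst_split mcs_le_cst mcs_nonneg mcs_le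
  rid_sq_le res_sq_le rid_cons_zero res_cons_zero mcs_cons_le mcs_cons_drop)

noncomputable section

variable {A : Type} [Group A] [Fintype A]

def lamE (C e : ℕ) : ℝ := (1 / 2) ^ (8000 * C * e)

def tauE (C e : ℕ) : ℝ := (1 / 2) ^ (16000 * C * e)

def mE (C e : ℕ) : ℕ := 60000 * C ^ 2 * e

def GamE (C e : ℕ) : ℝ := 2 ^ (30000 * C ^ 2 * e)

theorem keyC_lam_pos (C e : ℕ) : 0 < lamE C e := by unfold lamE; positivity

theorem keyC_lam_le (C e : ℕ) : lamE C e ≤ 1 := by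
  unfold lamE
  exact pow_le_one₀ (by norm_num) (by norm_num)

theorem keyC_tau_pos (C e : ℕ) : 0 < tauE C e := by unfold tauE; positivity

theorem keyC_tau_le (C e : ℕ) (hC : 1 ≤ C) (he : 1 ≤ e) :
    3 * (C : ℝ) ^ 2 * tauE C e ≤ 1 / 10 := by
  have h1 : (C : ℝ) ≤ 2 ^ C := by exact_mod_cast Nat.lt_two_pow_self.le
  have h2 : (C : ℝ) ^ 2 ≤ 2 ^ (2 * C) := by
    rw [mul_comm, pow_mul]
    exact pow_le_pow_left₀ (by positivity) h1 2
  have h3 : tauE C e ≤ 1 / 2 ^ (2 * C + 5) := by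
    unfold tauE
    rw [div_pow, one_pow]
    refine one_div_le_one_div_of_le (by positivity) (pow_le_pow_right₀ (by norm_num) ?_)
    nlinarith
  have h4 := keyC_tau_pos C e
  calc 3 * (C : ℝ) ^ 2 * tauE C e ≤ 3 * 2 ^ (2 * C) * (1 / 2 ^ (2 * C + 5)) := by
        refine mul_le_mul (by linarith) h3 h4.le (by positivity)
    _ = 3 / 32 := by
        rw [pow_add]
        field_simp
        norm_num
    _ ≤ 1 / 10 := by norm_num

theorem keyC_tau_le1 (C e : ℕ) (hC : 1 ≤ C) (he : 1 ≤ e) : tauE C e ≤ 1 := by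
  unfold tauE
  exact pow_le_one₀ (by norm_num) (by norm_num)

theorem keyC_tau_le2 (C e : ℕ) (hC : 1 ≤ C) (he : 1 ≤ e) :
    tauE C e * ((C : ℝ) + 1) ≤ 1 / 10 := by
  have h := keyC_tau_le C e hC he
  have h4 := keyC_tau_pos C e
  have hC' : (1 : ℝ) ≤ C := by exact_mod_cast hC
  nlinarith

open Classical in
/-- objects with a large trace are rare -/
theorem keyC_dead {M : Mod A} {nu : ℕ → A → ℝ} {C : ℕ} (hGe : Geo M nu C) (K e : ℕ) (he : 1 ≤ e)
    (hW : (W0 C : ℝ) ≤ 2 ^ e) (F G : A → ℕ → ℝ) (Om : Finset A) (D : Dict A)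
    (hD : IsSys M nu C K F G Om (lamE C e) (tauE C e) D) (y : A → ℕ → A)
    (hy : ∀ l, Function.Bijective (fun u => y u l)) :
    ex K (fun c (u : A) =>
        if ∃ k ≤ K, GamE C e ≤ tr (tauE C e) D k (c / 2 ^ k) (y u) then (1 : ℝ) else 0) ≤
      6 * (1 / 2) ^ (80 * e) * (Om.card / Fintype.card A) := by
  have hC : 1 ≤ C := hGe.one_le
  have hΓ : 0 < GamE C e := by unfold GamE; positivity
  have h := tr_doob hGe K (tauE C e) (keyC_tau_pos C e) (keyC_tau_le1 C e hC he) D hD.hnu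
    hD.lev_le hD.blk_lt hD.unit y hy (GamE C e) hΓ
  have hA : (0 : ℝ) < Fintype.card A := card_pos'
  have hP : (1 : ℝ) ≤ 2 ^ e := one_le_pow₀ (by norm_num)
  have hb := hD.wt_le
  have hpw : ∀ j : ℕ, (2 : ℝ) ^ (j * e) = (2 ^ e) ^ j := by
    intro j
    rw [← pow_mul, mul_comm]
  have hhw : ∀ j : ℕ, (1 / 2 : ℝ) ^ (j * e) = 1 / (2 ^ e) ^ j := by
    intro j
    rw [div_pow, one_pow, hpw]
  have key : (W0 C : ℝ) / tauE C e ^ C * (6 / lamE C e) / GamE C e ≤ 6 * (1 / 2) ^ (80 * e) := by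
    unfold tauE lamE GamE
    rw [hhw, hhw, hhw, hpw]
    generalize hPdef : (2 : ℝ) ^ e = P at *
    have hP0 : 0 < P := by linarith
    have e1 : (W0 C : ℝ) / (1 / P ^ (16000 * C)) ^ C * (6 / (1 / P ^ (8000 * C))) /
        P ^ (30000 * C ^ 2) = W0 C * 6 * P ^ (16000 * C * C + 8000 * C) / P ^ (30000 * C ^ 2) := by
      rw [div_pow, one_pow, ← pow_mul, pow_add]
      field_simp
    rw [e1, div_le_iff₀ (by positivity)]
    calc (W0 C : ℝ) * 6 * P ^ (16000 * C * C + 8000 * C)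
        ≤ P * 6 * P ^ (16000 * C * C + 8000 * C) := by
          refine mul_le_mul_of_nonneg_right ?_ (by positivity)
          linarith
      _ = 6 * P ^ (16000 * C * C + 8000 * C + 1) := by
          rw [pow_succ]
          ring
      _ ≤ 6 * P ^ (30000 * C ^ 2 - 80) := by
          refine mul_le_mul_of_nonneg_left (pow_le_pow_right₀ hP ?_) (by norm_num)
          have hCC : C ≤ C * C := Nat.le_mul_self C
          have hC1 : 1 ≤ C * C := le_trans hC hCC
          have e2 : 16000 * C * C = 16000 * (C * C) := by ring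
          rw [sq, e2]
          generalize C * C = q at hCC hC1 ⊢
          omega
      _ = 6 * (1 / P ^ 80) * P ^ (30000 * C ^ 2) := by
          have e3 : P ^ (30000 * C ^ 2) = P ^ (30000 * C ^ 2 - 80) * P ^ 80 := by
            rw [← pow_add]
            congr 1
            have : 1 ≤ C ^ 2 := Nat.one_le_pow _ _ hC
            omega
          rw [e3]
          field_simp
  have h1 : ex K (fun c (u : A) =>
        if ∃ k ≤ K, GamE C e ≤ tr (tauE C e) D k (c / 2 ^ k) (y u) then (1 : ℝ) else 0) =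
      (∑ c ∈ range (2 ^ K), ∑ u : A,
        (if ∃ k ≤ K, GamE C e ≤ tr (tauE C e) D k (c / 2 ^ k) (y u) then (1 : ℝ) else 0)) /
      (2 ^ K * (Fintype.card A : ℝ)) := rfl
  rw [h1, div_le_iff₀ (by positivity)]
  have h2 : (W0 C : ℝ) / tauE C e ^ C * wt D / GamE C e ≤
      (W0 C : ℝ) / tauE C e ^ C * (6 / lamE C e) / GamE C e * (2 ^ K * Om.card) := by
    have h3 : (W0 C : ℝ) / tauE C e ^ C * (6 / lamE C e) / GamE C e * (2 ^ K * Om.card) =
        (W0 C : ℝ) / tauE C e ^ C * (6 / lamE C e * 2 ^ K * Om.card) / GamE C e := by ring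
    rw [h3]
    refine div_le_div_of_nonneg_right ?_ hΓ.le
    refine mul_le_mul_of_nonneg_left hb ?_
    have := keyC_tau_pos C e
    positivity
  have h4 := mul_le_mul_of_nonneg_right key (by positivity : (0 : ℝ) ≤ 2 ^ K * Om.card)
  refine (le_trans (le_of_eq ?_) h).trans ((h2.trans h4).trans (le_of_eq ?_))
  · congr 1
  · field_simp

/-- moves of the two systems -/
def mvF (C : ℕ) (s : ℝ) (e K : ℕ) (ε : ℝ) (D1 D2 : Dict A) (y : A → ℕ → A) (f : A → ℕ → ℝ) :
    ℕ → ℕ → A → ℝ :=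
  open Classical in
  fun k b u => if mvv s (tauE C e) D1 (lamE C e) (mE C e) ε K (y u) (f u) k b = 1 ∨
     mvv s (tauE C (2 * e)) D2 (lamE C (2 * e)) (mE C (2 * e)) ε K (y u) (f u) k b = 1 then 1 else 0

/-- alive objects -/
def alF (C : ℕ) (Om : Finset A) (s : ℝ) (e K : ℕ) (ε : ℝ) (D1 D2 : Dict A) (y : A → ℕ → A) (f : A → ℕ → ℝ)
    (R : ℝ) : ℕ → ℕ → A → ℝ :=
  open Classical in
  fun k b u => if u ∈ Om ∧ (∀ k', k ≤ k' → k' ≤ K →
      tr (tauE C e) D1 k' (b / 2 ^ (k' - k)) (y u) < GamE C e ∧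
      tr (tauE C (2 * e)) D2 k' (b / 2 ^ (k' - k)) (y u) < GamE C (2 * e)) ∧
      acc K (mvF C s e K ε D1 D2 y f) k b u ≤ R then 1 else 0

/-- the combined vector -/
def vF (C : ℕ) (σ s : ℝ) (e K : ℕ) (ε : ℝ) (D1 D2 : Dict A) (y : A → ℕ → A) (f : A → ℕ → ℝ) :
    ℕ → ℕ → A → ((Fin (mE C e) × Fin D1.n) ⊕ (Fin (mE C (2 * e)) × Fin D2.n)) → ℝ :=
  fun k b u => Sum.elim
    (fun p => σ * vec s (tauE C e) D1 (lamE C e) (mE C e) ε K (y u) (f u) k b p)
    (vec s (tauE C (2 * e)) D2 (lamE C (2 * e)) (mE C (2 * e)) ε K (y u) (f u) k b)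

section
variable (C : ℕ) (Om : Finset A) (s : ℝ) (e K : ℕ) (ε : ℝ) (D1 D2 : Dict A) (y : A → ℕ → A) (f : A → ℕ → ℝ)

theorem keyC_mvv_01 (τ : ℝ) (D : Dict A) (lam : ℝ) (m : ℕ) (y : ℕ → A) (f : ℕ → ℝ) (k b : ℕ) :
    mvv s τ D lam m ε K y f k b = 0 ∨ mvv s τ D lam m ε K y f k b = 1 := by
  unfold mvv
  split_ifs
  · right; rfl
  · left; rfl

theorem mvF_01 (k b : ℕ) (u : A) :
    mvF C s e K ε D1 D2 y f k b u = 0 ∨ mvF C s e K ε D1 D2 y f k b u = 1 := by
  unfold mvF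
  split_ifs
  · right; rfl
  · left; rfl

theorem mvF_nonneg (k b : ℕ) (u : A) : 0 ≤ mvF C s e K ε D1 D2 y f k b u := by
  rcases mvF_01 C s e K ε D1 D2 y f k b u with h | h
  · rw [h]
  · rw [h]
    norm_num

theorem mvF_top (b : ℕ) (u : A) : mvF C s e K ε D1 D2 y f K b u = 1 := by
  unfold mvF
  have h : mvv s (tauE C e) D1 (lamE C e) (mE C e) ε K (y u) (f u) K b = 1 := by
    unfold mvv
    rw [if_pos (Or.inl rfl)]
  rw [if_pos (Or.inl h)]

theorem mvF_le (k b : ℕ) (u : A) : mvF C s e K ε D1 D2 y f k b u ≤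
    mvv s (tauE C e) D1 (lamE C e) (mE C e) ε K (y u) (f u) k b +
      mvv s (tauE C (2 * e)) D2 (lamE C (2 * e)) (mE C (2 * e)) ε K (y u) (f u) k b := by
  have h1 := keyC_mvv_01 s K ε (tauE C e) D1 (lamE C e) (mE C e) (y u) (f u) k b
  have h2 := keyC_mvv_01 s K ε (tauE C (2 * e)) D2 (lamE C (2 * e)) (mE C (2 * e)) (y u) (f u) k b
  have n1 : 0 ≤ mvv s (tauE C e) D1 (lamE C e) (mE C e) ε K (y u) (f u) k b := by
    rcases h1 with h1 | h1 <;> rw [h1]
    norm_num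
  have n2 : 0 ≤ mvv s (tauE C (2 * e)) D2 (lamE C (2 * e)) (mE C (2 * e)) ε K (y u) (f u) k b := by
    rcases h2 with h2 | h2 <;> rw [h2]
    norm_num
  unfold mvF
  split_ifs with h
  · rcases h with h | h
    · rw [h]
      linarith
    · rw [h]
      linarith
  · linarith

theorem alF_01 (R : ℝ) (k b : ℕ) (u : A) :
    alF C Om s e K ε D1 D2 y f R k b u = 0 ∨ alF C Om s e K ε D1 D2 y f R k b u = 1 := by
  unfold alF
  split_ifs
  · right; rfl
  · left; rfl

theorem alF_mono (R : ℝ) (k : ℕ) (hk : k < K) (b : ℕ) (u : A) :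
    alF C Om s e K ε D1 D2 y f R k b u ≤ alF C Om s e K ε D1 D2 y f R (k + 1) (b / 2) u := by
  by_cases h : u ∈ Om ∧ (∀ k', k ≤ k' → k' ≤ K →
      tr (tauE C e) D1 k' (b / 2 ^ (k' - k)) (y u) < GamE C e ∧
      tr (tauE C (2 * e)) D2 k' (b / 2 ^ (k' - k)) (y u) < GamE C (2 * e)) ∧
      acc K (mvF C s e K ε D1 D2 y f) k b u ≤ R
  · have h' : u ∈ Om ∧ (∀ k', k + 1 ≤ k' → k' ≤ K →
      tr (tauE C e) D1 k' (b / 2 / 2 ^ (k' - (k + 1))) (y u) < GamE C e ∧
      tr (tauE C (2 * e)) D2 k' (b / 2 / 2 ^ (k' - (k + 1))) (y u) < GamE C (2 * e)) ∧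
      acc K (mvF C s e K ε D1 D2 y f) (k + 1) (b / 2) u ≤ R := by
      refine ⟨h.1, fun k' h1 h2 => ?_, ?_⟩
      · have h3 := h.2.1 k' (by omega) h2
        have h4 : b / 2 / 2 ^ (k' - (k + 1)) = b / 2 ^ (k' - k) := by
          rw [Nat.div_div_eq_div_mul]
          congr 1
          have : k' - k = (k' - (k + 1)) + 1 := by omega
          rw [this, pow_succ, mul_comm]
        rw [h4]
        exact h3
      · have h5 := acc_step K k hk.le (mvF C s e K ε D1 D2 y f) b u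
        have h6 := mvF_nonneg C s e K ε D1 D2 y f k b u
        linarith [h.2.2]
    unfold alF
    rw [if_pos h, if_pos h']
  · have h0 : alF C Om s e K ε D1 D2 y f R k b u = 0 := by
      unfold alF
      rw [if_neg h]
    rw [h0]
    rcases alF_01 C Om s e K ε D1 D2 y f R (k + 1) (b / 2) u with h1 | h1 <;> rw [h1]
    norm_num

theorem alF_acc_le (R : ℝ) (hR : 0 ≤ R) (n : ℕ) : ∀ k, k + n = K + 1 → ∀ (b : ℕ) (u : A),
    acc K (fun k b u => alF C Om s e K ε D1 D2 y f R k b u * mvF C s e K ε D1 D2 y f k b u) k b u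
      ≤ R := by
  induction n with
  | zero =>
    intro k hk b u
    have : k = K + 1 := by omega
    rw [this, acc_top]
    exact hR
  | succ n ih =>
    intro k hk b u
    rcases alF_01 C Om s e K ε D1 D2 y f R k b u with h | h
    · rw [acc_step K k (by omega)]
      rw [h, zero_mul, zero_add]
      exact ih (k + 1) (by omega) (b / 2) u
    · have h1 : acc K (mvF C s e K ε D1 D2 y f) k b u ≤ R := by
        unfold alF at h
        split_ifs at h with hc
        · exact hc.2.2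
        · norm_num at h
      refine le_trans ?_ h1
      unfold acc
      refine sum_le_sum fun w _ => ?_
      have h2 := mvF_nonneg C s e K ε D1 D2 y f w (b / 2 ^ (w - k)) u
      change alF C Om s e K ε D1 D2 y f R w (b / 2 ^ (w - k)) u *
        mvF C s e K ε D1 D2 y f w (b / 2 ^ (w - k)) u ≤ _
      rcases alF_01 C Om s e K ε D1 D2 y f R w (b / 2 ^ (w - k)) u with h3 | h3
      · rw [h3]
        linarith
      · rw [h3]
        linarith

theorem alF_path (R : ℝ) (k : ℕ) (c : ℕ) (u : A) (n : ℕ) (hn : k + n ≤ K)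
    (h : alF C Om s e K ε D1 D2 y f R k (c / 2 ^ k) u = 1) :
    alF C Om s e K ε D1 D2 y f R (k + n) (c / 2 ^ (k + n)) u = 1 := by
  induction n with
  | zero => exact h
  | succ n ih =>
    have h1 := ih (by omega)
    have h2 := alF_mono C Om s e K ε D1 D2 y f R (k + n) (by omega) (c / 2 ^ (k + n)) u
    rw [Nat.div_div_eq_div_mul, ← pow_succ, h1] at h2
    rcases alF_01 C Om s e K ε D1 D2 y f R (k + n + 1) (c / 2 ^ (k + n + 1)) u with h3 | h3
    · rw [h3] at h2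
      norm_num at h2
    · exact h3

theorem alF_tr (R : ℝ) (k b : ℕ) (hk : k ≤ K) (u : A)
    (h : alF C Om s e K ε D1 D2 y f R k b u = 1) :
    tr (tauE C e) D1 k b (y u) < GamE C e ∧ tr (tauE C (2 * e)) D2 k b (y u) < GamE C (2 * e) := by
  unfold alF at h
  split_ifs at h with hc
  · have := hc.2.1 k le_rfl hk
    rw [Nat.sub_self, pow_zero, Nat.div_one] at this
    exact this
  · norm_num at h

theorem vF_step (σ : ℝ) (k b : ℕ) (hk : k < K) (u : A)
    (h : mvF C s e K ε D1 D2 y f k b u = 0) :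
    vF C σ s e K ε D1 D2 y f k b u = vF C σ s e K ε D1 D2 y f (k + 1) (b / 2) u := by
  have h1 := keyC_mvv_01 s K ε (tauE C e) D1 (lamE C e) (mE C e) (y u) (f u) k b
  have h2 := keyC_mvv_01 s K ε (tauE C (2 * e)) D2 (lamE C (2 * e)) (mE C (2 * e)) (y u) (f u) k b
  unfold mvF at h
  split_ifs at h with hc
  · norm_num at h
  · rw [not_or] at hc
    have h1' := h1.resolve_right hc.1
    have h2' := h2.resolve_right hc.2
    unfold vF
    rw [vec_step s (tauE C e) D1 (lamE C e) (mE C e) ε K (y u) (f u) k b hk h1',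
      vec_step s (tauE C (2 * e)) D2 (lamE C (2 * e)) (mE C (2 * e)) ε K (y u) (f u) k b hk h2']

theorem vF_norm (σ : ℝ) (hσ : σ ^ 2 = 1) (hs : 1 ≤ s) (hf : ∀ u t, |f u t| ≤ 1) (k b : ℕ)
    (hk : k ≤ K) (u : A) :
    ∑ i, vF C σ s e K ε D1 D2 y f k b u i ^ 2 ≤ M0E C e := by
  rw [Fintype.sum_sum_type]
  unfold vF
  simp only [Sum.elim_inl, Sum.elim_inr, mul_pow, hσ, one_mul]
  have h1 := vec_norm s (tauE C e) hs D1 (lamE C e) (keyC_lam_pos C e) (mE C e) ε K (y u) (f u) (hf u) k b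
    hk
  have h2 := vec_norm s (tauE C (2 * e)) hs D2 (lamE C (2 * e)) (keyC_lam_pos C (2 * e)) (mE C (2 * e)) ε
    K (y u) (f u) (hf u) k b hk
  have h3 : ((mE C e : ℕ) : ℝ) + ((mE C (2 * e) : ℕ) : ℝ) = M0E C e := by
    unfold mE M0E
    push_cast
    ring
  linarith

theorem alF_mem (R : ℝ) (k b : ℕ) (u : A) (h : alF C Om s e K ε D1 D2 y f R k b u = 1) :
    u ∈ Om := by
  unfold alF at h
  split_ifs at h with hc
  · exact hc.1
  · norm_num at h

theorem vF_zero (σ : ℝ) (hs : 1 ≤ s) (u : A) (hf : ∀ t, f u t = 0) (k b : ℕ) (hk : k ≤ K)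
    (i : (Fin (mE C e) × Fin D1.n) ⊕ (Fin (mE C (2 * e)) × Fin D2.n)) :
    vF C σ s e K ε D1 D2 y f k b u i = 0 := by
  unfold vF
  rcases i with i | i
  · simp only [Sum.elim_inl]
    rw [vec_zero s (tauE C e) hs D1 (lamE C e) (keyC_lam_pos C e) (mE C e) ε K (y u) (f u) hf k b
      hk, mul_zero]
  · simp only [Sum.elim_inr]
    exact vec_zero s (tauE C (2 * e)) hs D2 (lamE C (2 * e)) (keyC_lam_pos C (2 * e))
      (mE C (2 * e)) ε K (y u) (f u) hf k b hk i

open Classical in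
theorem alF_dead {M : Mod A} {nu : ℕ → A → ℝ} (hGe : Geo M nu C) (he : 1 ≤ e)
    (hW : (W0 C : ℝ) ≤ 2 ^ e) (hε : 0 < ε) (hs : 1 ≤ s) (F1 G1 F2 G2 : A → ℕ → ℝ)
    (hD1 : IsSys M nu C K F1 G1 Om (lamE C e) (tauE C e) D1)
    (hD2 : IsSys M nu C K F2 G2 Om (lamE C (2 * e)) (tauE C (2 * e)) D2)
    (hy : ∀ l, Function.Bijective (fun u => y u l)) (hf : ∀ u t, |f u t| ≤ 1)
    (R : ℝ) (hR : 0 < R) (k1 : ℕ) (hk1 : k1 ≤ K) :
    ex K (fun c u => (if u ∈ Om then (1 : ℝ) else 0) -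
        alF C Om s e K ε D1 D2 y f R k1 (c / 2 ^ k1) u) ≤
      (6 * (1 / 2) ^ (80 * e) + 6 * (1 / 2) ^ (80 * (2 * e)) +
        (2 + M0E C e / ε ^ 2) / R) * (Om.card / Fintype.card A) := by
  have hW2 : (W0 C : ℝ) ≤ 2 ^ (2 * e) :=
    hW.trans (pow_le_pow_right₀ (by norm_num) (by omega))
  have d1 := keyC_dead hGe K e he hW F1 G1 Om D1 hD1 y hy
  have d2 := keyC_dead hGe K (2 * e) (by omega) hW2 F2 G2 Om D2 hD2 y hy
  have hA : 0 < (Fintype.card A : ℝ) := card_pos'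
  have hpt : ∀ (c : ℕ) (u : A), (if u ∈ Om then (1 : ℝ) else 0) -
      alF C Om s e K ε D1 D2 y f R k1 (c / 2 ^ k1) u ≤
      ((if ∃ k ≤ K, GamE C e ≤ tr (tauE C e) D1 k (c / 2 ^ k) (y u) then (1 : ℝ) else 0) +
      (if ∃ k ≤ K, GamE C (2 * e) ≤ tr (tauE C (2 * e)) D2 k (c / 2 ^ k) (y u) then (1 : ℝ) else 0)) +
      1 / R * (if u ∈ Om then ∑ w ∈ range (K + 1),
        (mvv s (tauE C e) D1 (lamE C e) (mE C e) ε K (y u) (f u) w (c / 2 ^ w) +
        mvv s (tauE C (2 * e)) D2 (lamE C (2 * e)) (mE C (2 * e)) ε K (y u) (f u) w (c / 2 ^ w))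
        else 0) := by
    intro c u
    have i1 : (0 : ℝ) ≤ (if ∃ k ≤ K, GamE C e ≤ tr (tauE C e) D1 k (c / 2 ^ k) (y u) then (1 : ℝ)
        else 0) := by
      split_ifs <;> norm_num
    have i2 : (0 : ℝ) ≤ (if ∃ k ≤ K, GamE C (2 * e) ≤ tr (tauE C (2 * e)) D2 k (c / 2 ^ k) (y u)
        then (1 : ℝ) else 0) := by
      split_ifs <;> norm_num
    by_cases hu : u ∈ Om
    swap
    · rw [if_neg hu, if_neg hu, mul_zero, zero_sub]
      rcases alF_01 C Om s e K ε D1 D2 y f R k1 (c / 2 ^ k1) u with h | h <;> rw [h] <;> linarith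
    rw [if_pos hu, if_pos hu]
    have hacc : acc K (mvF C s e K ε D1 D2 y f) k1 (c / 2 ^ k1) u ≤ ∑ w ∈ range (K + 1),
        (mvv s (tauE C e) D1 (lamE C e) (mE C e) ε K (y u) (f u) w (c / 2 ^ w) +
        mvv s (tauE C (2 * e)) D2 (lamE C (2 * e)) (mE C (2 * e)) ε K (y u) (f u) w (c / 2 ^ w)) := by
      rw [acc_path]
      have hsub : Icc k1 K ⊆ range (K + 1) := by
        intro w hw
        rw [mem_Icc] at hw
        rw [mem_range]
        omega
      refine le_trans (sum_le_sum fun w _ => mvF_le C s e K ε D1 D2 y f w (c / 2 ^ w) u) ?_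
      refine sum_le_sum_of_subset_of_nonneg hsub fun w _ _ => ?_
      have h1 := keyC_mvv_01 s K ε (tauE C e) D1 (lamE C e) (mE C e) (y u) (f u) w (c / 2 ^ w)
      have h2 := keyC_mvv_01 s K ε (tauE C (2 * e)) D2 (lamE C (2 * e)) (mE C (2 * e)) (y u) (f u) w
        (c / 2 ^ w)
      rcases h1 with h1 | h1 <;> rcases h2 with h2 | h2 <;> rw [h1, h2] <;> norm_num
    have hacc0 : 0 ≤ acc K (mvF C s e K ε D1 D2 y f) k1 (c / 2 ^ k1) u := by
      unfold acc
      exact sum_nonneg fun w _ => mvF_nonneg C s e K ε D1 D2 y f _ _ u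
    set S := ∑ w ∈ range (K + 1),
        (mvv s (tauE C e) D1 (lamE C e) (mE C e) ε K (y u) (f u) w (c / 2 ^ w) +
        mvv s (tauE C (2 * e)) D2 (lamE C (2 * e)) (mE C (2 * e)) ε K (y u) (f u) w (c / 2 ^ w)) with hS
    have hS0 : 0 ≤ 1 / R * S := by
      have : 0 ≤ S := hacc0.trans hacc
      positivity
    rcases alF_01 C Om s e K ε D1 D2 y f R k1 (c / 2 ^ k1) u with h | h
    swap
    · rw [h]
      linarith
    · rw [h]
      by_cases hA : ∃ k ≤ K, GamE C e ≤ tr (tauE C e) D1 k (c / 2 ^ k) (y u)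
      · rw [if_pos hA]
        linarith
      by_cases hB : ∃ k ≤ K, GamE C (2 * e) ≤ tr (tauE C (2 * e)) D2 k (c / 2 ^ k) (y u)
      · rw [if_pos hB]
        linarith
      rw [if_neg hA, if_neg hB]
      push Not at hA hB
      have hR1 : R < acc K (mvF C s e K ε D1 D2 y f) k1 (c / 2 ^ k1) u := by
        by_contra hcon
        rw [not_lt] at hcon
        have : alF C Om s e K ε D1 D2 y f R k1 (c / 2 ^ k1) u = 1 := by
          unfold alF
          rw [if_pos]
          refine ⟨hu, fun k' h1 h2 => ?_, hcon⟩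
          have h3 : c / 2 ^ k1 / 2 ^ (k' - k1) = c / 2 ^ k' := by
            rw [Nat.div_div_eq_div_mul, ← pow_add]
            congr 2
            omega
          rw [h3]
          exact ⟨hA k' h2, hB k' h2⟩
        rw [this] at h
        norm_num at h
      have : 1 ≤ 1 / R * S := by
        rw [one_div, ← div_eq_inv_mul, le_div_iff₀ hR]
        linarith
      linarith
  have h1 := ex_mono K _ _ fun c (_ : c < 2 ^ K) u => hpt c u
  refine h1.trans ?_
  rw [ex_add, ex_add, ex_smul]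
  have hcount : ex K (fun c u => if u ∈ Om then ∑ w ∈ range (K + 1),
        (mvv s (tauE C e) D1 (lamE C e) (mE C e) ε K (y u) (f u) w (c / 2 ^ w) +
        mvv s (tauE C (2 * e)) D2 (lamE C (2 * e)) (mE C (2 * e)) ε K (y u) (f u) w (c / 2 ^ w))
        else 0) ≤
      (2 + M0E C e / ε ^ 2) * (Om.card / Fintype.card A) := by
    unfold ex
    rw [sum_comm, div_le_iff₀ (by positivity)]
    have hu : ∀ u : A, ∑ c ∈ range (2 ^ K), (if u ∈ Om then ∑ w ∈ range (K + 1),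
        (mvv s (tauE C e) D1 (lamE C e) (mE C e) ε K (y u) (f u) w (c / 2 ^ w) +
        mvv s (tauE C (2 * e)) D2 (lamE C (2 * e)) (mE C (2 * e)) ε K (y u) (f u) w (c / 2 ^ w))
        else 0) ≤
        if u ∈ Om then (2 + M0E C e / ε ^ 2) * 2 ^ K else 0 := by
      intro u
      by_cases hu : u ∈ Om
      swap
      · rw [if_neg hu]
        simp [hu]
      simp only [if_pos hu]
      have c1 := mvv_count s (tauE C e) hs D1 (lamE C e) (keyC_lam_pos C e) (mE C e) ε hε K (y u)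
        (f u) (hf u)
      have c2 := mvv_count s (tauE C (2 * e)) hs D2 (lamE C (2 * e)) (keyC_lam_pos C (2 * e))
        (mE C (2 * e)) ε hε K (y u) (f u) (hf u)
      rw [div_le_iff₀ (by positivity)] at c1 c2
      have e3 : ∑ c ∈ range (2 ^ K), ∑ w ∈ range (K + 1),
        (mvv s (tauE C e) D1 (lamE C e) (mE C e) ε K (y u) (f u) w (c / 2 ^ w) +
        mvv s (tauE C (2 * e)) D2 (lamE C (2 * e)) (mE C (2 * e)) ε K (y u) (f u) w
          (c / 2 ^ w)) =
        ∑ c ∈ range (2 ^ K), ∑ w ∈ range (K + 1),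
          mvv s (tauE C e) D1 (lamE C e) (mE C e) ε K (y u) (f u) w (c / 2 ^ w) +
        ∑ c ∈ range (2 ^ K), ∑ w ∈ range (K + 1),
          mvv s (tauE C (2 * e)) D2 (lamE C (2 * e)) (mE C (2 * e)) ε K (y u) (f u) w
            (c / 2 ^ w) := by
        simp only [sum_add_distrib]
      rw [e3]
      have e4 : (2 + M0E C e / ε ^ 2) * 2 ^ K =
          (1 + ((mE C e : ℕ) : ℝ) / ε ^ 2) * 2 ^ K +
            (1 + ((mE C (2 * e) : ℕ) : ℝ) / ε ^ 2) * 2 ^ K := by
        unfold mE M0E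
        push_cast
        ring
      rw [e4]
      exact add_le_add c1 c2
    refine (sum_le_sum fun u _ => hu u).trans (le_of_eq ?_)
    rw [sum_ite_mem, univ_inter, sum_const, nsmul_eq_mul]
    field_simp
  have h2 : 1 / R * ex K (fun c u => if u ∈ Om then ∑ w ∈ range (K + 1),
        (mvv s (tauE C e) D1 (lamE C e) (mE C e) ε K (y u) (f u) w (c / 2 ^ w) +
        mvv s (tauE C (2 * e)) D2 (lamE C (2 * e)) (mE C (2 * e)) ε K (y u) (f u) w (c / 2 ^ w))
        else 0) ≤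
      (2 + M0E C e / ε ^ 2) / R * (Om.card / Fintype.card A) := by
    have e5 : (2 + M0E C e / ε ^ 2) / R * ((Om.card : ℝ) / Fintype.card A) =
        1 / R * ((2 + M0E C e / ε ^ 2) * (Om.card / Fintype.card A)) := by ring
    rw [e5]
    exact mul_le_mul_of_nonneg_left hcount (by positivity)
  rw [add_mul, add_mul]
  exact add_le_add (add_le_add d1 d2) h2

end

theorem vF_inner (M : Mod A) (C e K : ℕ) (ε : ℝ) (D1 D2 : Dict A) (F G : A → ℕ → ℝ)
    (k b : ℕ) (u v : A) :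
    ∑ i, vF C (-1) 1 e K ε D1 D2 M.pT F k b u i * vF C 1 2 e K ε D1 D2 M.pS G k b v i =
      Zfr (tauE C (2 * e)) D2 (lamE C (2 * e)) (mE C (2 * e)) ε K k b (M.pT u) (F u) (M.pS v)
          (G v) -
        Zfr (tauE C e) D1 (lamE C e) (mE C e) ε K k b (M.pT u) (F u) (M.pS v) (G v) := by
  rw [Fintype.sum_sum_type]
  unfold vF Zfr
  simp only [Sum.elim_inl, Sum.elim_inr, one_mul, neg_mul, sum_neg_distrib]
  ring

end

end NPG
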