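import Pool.Agent.NPG.GSfr
import Pool.Agent.NPG.GPig
import Pool.Agent.NPG.GResF
import Pool.Agent.NPG.EndF

set_option autoImplicit false

/-!
# NPG / Mdl : the finite models exist

`InpAll` : the models of all finite quotients satisfy the geometric properties and have kernels,
with a constant `C` which depends on the frame only.
-/

namespace NPG
open Finset Pool.Nil
open scoped Pointwise

noncomputable section

/-- the statement of the model theorem -/
def InpAll : Prop :=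
  ∀ {G : Type} [Group G] {σ : MulAut G} {g : ℤ → G} (sf : SFr σ g), ∃ C : ℕ,
    ∀ (A : Type) [Group A] [Fintype A] (φ : G →* A) (s : MulAut A)
      (hs : ∀ x, s (φ (σ x)) = φ x), Function.Surjective φ →
      ∃ (nu : ℕ → A → ℝ) (kr : ℕ → ℕ → A → ℝ), Geo (mkMod sf φ s hs) nu C ∧
        (∀ a, 1 ≤ a → Krn (mkMod sf φ s hs) nu C a (kr a)) ∧
        (∀ a, 1 ≤ a → Krn (mkMod sf φ s hs).sw nu C a (kr a))

theorem modH (hI : InpAll) : ModH := by
  classical
  intro Γ _ hΓ T S _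
  haveI := hΓ
  obtain ⟨G, _, σ, g, ι, hι, hG, hιg, -, ⟨sf⟩⟩ := exists_grp T S
  haveI := hG
  obtain ⟨C, hC⟩ := hI sf
  refine ⟨C, fun K => ?_⟩
  have hfg : Group.FG G := by
    rw [Group.fg_iff]
    exact ⟨Set.range sf.fr.c, sf.gen, Set.finite_range _⟩
  set E : Finset G := insert 1 ((range (2 ^ K)).image fun c : ℕ => (g c)⁻¹) with hE
  have hE1 : (1 : G) ∈ E := mem_insert_self _ _
  obtain ⟨n, hn⟩ := pig sf.fr sf.gen E hE1
  obtain ⟨A, _, _, φ, s, hsurj, hs, hinj⟩ := res_fin_sig hfg σ (E ^ (n + 1))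
  obtain ⟨nu, kr, hgeo, hk1, hk2⟩ := hC A φ s hs hsurj
  have hmap : ∀ D : Finset G, (D.map ⟨ι, hι⟩).card = D.card := fun D => card_map _
  have hinv : ∀ x : G, Function.invFun ι (ι x) = x := fun x => Function.leftInverse_invFun hι x
  refine ⟨A, inferInstance, inferInstance, mkMod sf φ s hs, nu, kr, (E ^ n).map ⟨ι, hι⟩,
    (E ^ (n + 1)).map ⟨ι, hι⟩, fun γ => φ (Function.invFun ι γ), hgeo, hk1, hk2, ?_, ?_, ?_, ?_, ?_⟩
  · exact ⟨ι 1, mem_map.2 ⟨1, one_mem_pow hE1, rfl⟩⟩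
  · refine map_subset_map.2 ?_
    exact pow_subset_pow_right hE1 (Nat.le_succ n)
  · rw [hmap, hmap]
    exact hn
  · intro x hx y hy hxy
    rw [mem_coe, mem_map] at hx hy
    obtain ⟨a, ha, rfl⟩ := hx
    obtain ⟨b, hb, rfl⟩ := hy
    simp only [Function.Embedding.coeFn_mk, hinv] at hxy ⊢
    rw [hinj (mem_coe.2 ha) (mem_coe.2 hb) hxy]
  · intro u hu c hc
    rw [mem_map] at hu
    obtain ⟨v, hv, rfl⟩ := hu
    simp only [Function.Embedding.coeFn_mk]
    have e1 : (S ^ c)⁻¹ * T ^ c * ι v = ι ((g c)⁻¹ * v) := by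
      rw [map_mul, map_inv, hιg]
      rw [zpow_neg, zpow_natCast, zpow_natCast]
      group
    have h1 : (g c)⁻¹ * v ∈ E ^ (n + 1) := by
      rw [pow_succ']
      refine mul_mem_mul ?_ hv
      rw [hE, mem_insert]
      right
      exact mem_image.2 ⟨c, mem_range.2 hc, rfl⟩
    refine ⟨?_, ?_⟩
    · rw [e1]
      exact mem_map.2 ⟨_, h1, rfl⟩
    · rw [e1, hinv, hinv, map_mul, map_inv]
      rfl

end

end NPG
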