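import Pool.Agent.NPG.Flux

/-!
# NPG / Mir : the mirror model

`Geo.sw` : the mirror model satisfies the geometric properties with the constant `C^2`
(`sw_aS`: `M.sw.s^j = M.aT j`, `M.aT j x = (M.s^j) (M.th j * x * (M.th j)⁻¹)`).
`flux_mirror` : `flux_main` for `M.sw`; `p` is an `S`-process, `V` a `T`-process, the kernels `kr'`
act in the frames of the `T`-objects.
-/

namespace NPG
open Finset

noncomputable section

variable {A : Type} [Group A] [Fintype A] {E : Type} [NormedAddCommGroup E]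
  [InnerProductSpace ℝ E]

theorem Geo.mono {M : Mod A} {nu : ℕ → A → ℝ} {C C' : ℕ} (h : Geo M nu C) (hC : C ≤ C') :
    Geo M nu C' := by
  have hc : (C : ℝ) ≤ C' := by exact_mod_cast hC
  have h1 : 1 ≤ C' := h.one_le.trans hC
  refine ⟨h1, h.nonneg, h.one, h.inv, h.mul, h.up, ?_, ?_, ?_, ?_, ?_, ?_, ?_⟩
  · intro k j hj x
    exact (h.s_le k j hj x).trans (mul_le_mul_of_nonneg_right hc (h.nonneg _ _))
  · intro k j hj x
    exact (h.s_inv_le k j hj x).trans (mul_le_mul_of_nonneg_right hc (h.nonneg _ _))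
  · intro k j hj x
    exact (h.conj_le k j hj x).trans (mul_le_mul_of_nonneg_right hc (h.nonneg _ _))
  · intro k j hj x
    exact (h.conj_inv_le k j hj x).trans (mul_le_mul_of_nonneg_right hc (h.nonneg _ _))
  · intro k j hj
    exact (h.th_le k j hj).trans hc
  · intro k r hr
    refine (h.growth k r hr).trans (mul_le_mul_of_nonneg_right ?_ (Nat.cast_nonneg _))
    exact mul_le_mul hc (pow_le_pow_right₀ hr hC) (by positivity) (Nat.cast_nonneg _)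
  · intro k
    exact (h.vol_succ k).trans (mul_le_mul_of_nonneg_right hc (Nat.cast_nonneg _))

theorem Geo.sw {M : Mod A} {nu : ℕ → A → ℝ} {C : ℕ} (h : Geo M nu C) :
    Geo M.sw nu (C ^ 2) := by
  have hm : Geo M nu (C ^ 2) := h.mono (Nat.le_self_pow (by norm_num) C)
  have hs : ∀ j : ℕ, M.sw.s ^ j = M.aT j := fun j => aT_one_pow M j
  have hC0 : (0 : ℝ) ≤ C := Nat.cast_nonneg _
  refine ⟨hm.one_le, h.nonneg, h.one, h.inv, h.mul, h.up, ?_, ?_, ?_, ?_, ?_, hm.growth,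
    hm.vol_succ⟩
  · intro k j hj x
    rw [hs]
    have e : M.aT j x = (M.s ^ j) (M.th j * x * (M.th j)⁻¹) := by
      unfold Mod.aT
      rw [MulAut.mul_apply, MulAut.conj_apply]
    rw [e]
    push_cast
    calc nu k ((M.s ^ j) (M.th j * x * (M.th j)⁻¹)) ≤ C * nu k (M.th j * x * (M.th j)⁻¹) :=
          h.s_le k j hj _
      _ ≤ C * (C * nu k x) := mul_le_mul_of_nonneg_left (h.conj_le k j hj x) hC0
      _ = (C : ℝ) ^ 2 * nu k x := by ring
  · intro k j hj x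
    rw [hs]
    have e : (M.aT j)⁻¹ x = (M.th j)⁻¹ * ((M.s ^ j)⁻¹ x) * M.th j := by
      unfold Mod.aT
      rw [mul_inv_rev, MulAut.mul_apply, ← map_inv MulAut.conj, MulAut.conj_apply, inv_inv]
    rw [e]
    push_cast
    calc nu k ((M.th j)⁻¹ * ((M.s ^ j)⁻¹ x) * M.th j) ≤ C * nu k ((M.s ^ j)⁻¹ x) :=
          h.conj_inv_le k j hj _
      _ ≤ C * (C * nu k x) := mul_le_mul_of_nonneg_left (h.s_inv_le k j hj x) hC0
      _ = (C : ℝ) ^ 2 * nu k x := by ring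
  · intro k j hj x
    rw [sw_th, inv_inv]
    exact hm.conj_inv_le k j hj x
  · intro k j hj x
    rw [sw_th, inv_inv]
    exact hm.conj_le k j hj x
  · intro k j hj
    rw [sw_th, h.inv]
    exact hm.th_le k j hj

theorem Krn.mono {M : Mod A} {nu : ℕ → A → ℝ} {C C' a : ℕ} {kr : ℕ → A → ℝ}
    (hg : Geo M nu C) (h : Krn M nu C a kr) (hC : C ≤ C') : Krn M nu C' a kr := by
  have _ := hg
  have hc : (C : ℝ) ≤ C' := by exact_mod_cast hC
  have ha : C * a ≤ C' * a := Nat.mul_le_mul_right a hC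
  refine ⟨h.symm, fun k hk => h.supp k (ha.trans hk), ?_, ?_, ?_⟩
  · intro k hk x
    refine (h.bound k (ha.trans hk) x).trans ?_
    have hv : 0 ≤ vol nu k := by
      unfold vol
      exact Nat.cast_nonneg _
    exact div_le_div_of_nonneg_right (pow_le_pow_right₀ (by norm_num) ha) hv
  · intro E _ _ K k hk hkK f g
    refine (h.sing E K k (ha.trans hk) hkK f g).trans ?_
    refine mul_le_mul_of_nonneg_right ?_ (mul_nonneg (Real.sqrt_nonneg _) (Real.sqrt_nonneg _))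
    exact div_le_div_of_nonneg_right hc (Real.sqrt_nonneg _)
  · intro E _ _ K k1 hk hkK p q BS BV h1 h2
    refine (h.ti E K k1 (ha.trans hk) hkK p q BS BV h1 h2).trans ?_
    refine mul_le_mul_of_nonneg_right ?_ (mul_nonneg (Real.sqrt_nonneg _) (Real.sqrt_nonneg _))
    exact div_le_div_of_nonneg_right hc (Real.sqrt_nonneg _)

/-- pairing seen from the `S`-objects -/
def tpm (M : Mod A) (K k : ℕ) (f g : ℕ → A → E) : ℝ :=
  ex K (fun c v => inner ℝ (f (c / 2 ^ k) v) (g (c / 2 ^ k) ((M.th c)⁻¹ * v)))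

theorem flux_mirror {M : Mod A} {nu : ℕ → A → ℝ} {C a : ℕ} {kr : ℕ → A → ℝ}
    (hg : Geo M nu C) (hkr : Krn M.sw nu (C ^ 2) a kr) (K k1 : ℕ) (hk1 : k1 ≤ K)
    (ha : C ^ 2 * a ≤ k1)
    (mS mT : ℕ → ℕ → A → ℝ) (p V : ℕ → ℕ → A → E) (Bp BV R : ℝ)
    (hR : 1 ≤ R) (hBp : 0 ≤ Bp) (hBV : 0 ≤ BV)
    (mS0 : ∀ k b u, 0 ≤ mS k b u) (mT0 : ∀ k b u, 0 ≤ mT k b u)
    (mS1 : ∀ k b u, mS k b u ≤ 1) (mT1 : ∀ k b u, mT k b u ≤ 1)
    (accS : ∀ k, k1 ≤ k → k ≤ K → ∀ b < 2 ^ (K - k), ∀ u, acc K mS k b u ≤ R)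
    (accT : ∀ k, k1 ≤ k → k ≤ K → ∀ b < 2 ^ (K - k), ∀ u, acc K mT k b u ≤ R)
    (hp : ∀ k, k1 ≤ k → k ≤ K → ∀ b < 2 ^ (K - k), ∀ u, ‖p k b u‖ ≤ Bp * mS k b u)
    (hV : ∀ k, k1 ≤ k → k ≤ K → ∀ b < 2 ^ (K - k), ∀ u, ‖V k b u‖ ≤ BV)
    (hVt : ∀ b u, V (K + 1) b u = 0)
    (hq : ∀ k, k1 ≤ k → k ≤ K → ∀ b < 2 ^ (K - k), ∀ u,
      ‖V k b u - V (k + 1) (b / 2) u‖ ≤ 2 * BV * mT k b u) :
    |∑ k ∈ Icc k1 K, tpm M K k (p k) (ro M.sw kr k (V k))| ≤
      CF (C ^ 2) * Bp * BV * R * (a + 1) / Real.sqrt (2 ^ a) *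
        (totr K k1 mS + totr K k1 mT) :=
  flux_main (E := E) hg.sw hkr K k1 hk1 ha mS mT p V Bp BV R hR hBp hBV mS0 mT0 mS1 mT1 accS accT
    hp hV hVt hq

end

end NPG
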