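import Pool.Agent.NPG.Win

/-!
# NPG / Near : near diagonal windows

Adaptation of `NP2/Near` (`sp` is now the average with the kernel `|kr k x|`, the factor `Q^2`
disappears, `2000000 * gn` becomes `C / √(2^a)`, the smooth terms are bounded by
`Wc C * 2^(C a) * κ`).

`sim_le` : from `SingH`, Cauchy-Schwarz over the levels.
-/

namespace NPG
open Finset

noncomputable section

variable {A : Type} [Group A] [Fintype A] {E : Type} [NormedAddCommGroup E]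
  [InnerProductSpace ℝ E]

/-- positive average -/
def sp (M : Mod A) (kb : A → ℝ) (l : ℕ) (f : A → ℝ) (v : A) : ℝ :=
  ∑ x : A, kb x * f ((M.s ^ l)⁻¹ x * v)

theorem norm_sm_le_sp (M : Mod A) (κ : A → ℝ) (l : ℕ) (V : A → E) (v : A) :
    ‖sm M κ l V v‖ ≤ sp M (fun x => |κ x|) l (fun v => ‖V v‖) v := by
  unfold sm sp
  refine (norm_sum_le _ _).trans (Finset.sum_le_sum fun x _ => ?_)
  rw [norm_smul, Real.norm_eq_abs]

/-- the gain -/
def gg (C a : ℕ) : ℝ := C / Real.sqrt (2 ^ a)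

/-- the near diagonal bound -/
def NB (C a : ℕ) (R κ x y : ℝ) : ℝ :=
  5 * gg C a * R * (Real.sqrt x * Real.sqrt y) + 4 * (Wc C * 2 ^ (C * a) * κ) * (x + y)

/-- the standing hypotheses -/
structure FluxHyp (M : Mod A) (nu : ℕ → A → ℝ) (C a K k1 : ℕ) (kr : ℕ → A → ℝ) (E : Type)
    [NormedAddCommGroup E] [InnerProductSpace ℝ E] (mT mS : ℕ → ℕ → A → ℝ)
    (p q : ℕ → ℕ → A → E) (Bp Bq R : ℝ) : Prop where
  geo : Geo M nu C
  krn : Krn M nu C a kr
  k1K : k1 ≤ K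
  big : C * a ≤ k1
  Rpos : 1 ≤ R
  Bp0 : 0 ≤ Bp
  Bq0 : 0 ≤ Bq
  mT0 : ∀ k b u, 0 ≤ mT k b u
  mS0 : ∀ k b u, 0 ≤ mS k b u
  mT1 : ∀ k b u, mT k b u ≤ 1
  mS1 : ∀ k b u, mS k b u ≤ 1
  accT : ∀ k, k1 ≤ k → k ≤ K → ∀ b < 2 ^ (K - k), ∀ u, acc K mT k b u ≤ R
  accS : ∀ k, k1 ≤ k → k ≤ K → ∀ b < 2 ^ (K - k), ∀ u, acc K mS k b u ≤ R
  hp : ∀ k, k1 ≤ k → k ≤ K → ∀ b < 2 ^ (K - k), ∀ u, ‖p k b u‖ ≤ Bp * mT k b u
  hq : ∀ k, k1 ≤ k → k ≤ K → ∀ b < 2 ^ (K - k), ∀ u, ‖q k b u‖ ≤ Bq * mS k b u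

/-! ### elementary facts on the positive average -/

private theorem near_sp_mono (M : Mod A) (kb : A → ℝ) (hkb : ∀ x, 0 ≤ kb x) (l : ℕ)
    (f g : A → ℝ) (h : ∀ v, f v ≤ g v) (v : A) : sp M kb l f v ≤ sp M kb l g v := by
  unfold sp
  exact Finset.sum_le_sum fun x _ => mul_le_mul_of_nonneg_left (h _) (hkb x)

private theorem near_gg0 (C a : ℕ) : 0 ≤ gg C a := by
  unfold gg
  positivity

/-! ### simultaneous increments -/

private theorem near_cs2 {ι : Type*} (s : Finset ι) (F G : ι → ℝ) (hF : ∀ t ∈ s, 0 ≤ F t)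
    (hG : ∀ t ∈ s, 0 ≤ G t) :
    ∑ t ∈ s, Real.sqrt (F t) * Real.sqrt (G t) ≤
      Real.sqrt (∑ t ∈ s, F t) * Real.sqrt (∑ t ∈ s, G t) := by
  have h := Finset.sum_mul_sq_le_sq_mul_sq s (fun t => Real.sqrt (F t)) (fun t => Real.sqrt (G t))
  have e1 : ∑ t ∈ s, Real.sqrt (F t) ^ 2 = ∑ t ∈ s, F t :=
    Finset.sum_congr rfl fun t ht => Real.sq_sqrt (hF t ht)
  have e2 : ∑ t ∈ s, Real.sqrt (G t) ^ 2 = ∑ t ∈ s, G t :=
    Finset.sum_congr rfl fun t ht => Real.sq_sqrt (hG t ht)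
  rw [e1, e2] at h
  rw [← Real.sqrt_mul (Finset.sum_nonneg hF)]
  exact Real.le_sqrt_of_sq_le h

private theorem near_sq (K k : ℕ) (hk : k ≤ K) (V : ℕ → ℕ → A → E) (B : ℝ)
    (hB : ∀ b < 2 ^ (K - k), ∀ u, ‖V k b u‖ ≤ B) :
    ex K (fun c u => ‖V k (c / 2 ^ k) u‖ ^ 2) ≤ B * nv K k V := by
  unfold nv
  rw [← ex_smul]
  refine ex_mono K _ _ fun c hc u => ?_
  have h := hB (c / 2 ^ k) (blk_lt hk hc) u
  have h0 := norm_nonneg (V k (c / 2 ^ k) u)
  nlinarith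

private theorem near_nv0 (K k : ℕ) (V : ℕ → ℕ → A → E) : 0 ≤ nv K k V :=
  ex_nonneg K _ fun _ _ => norm_nonneg _

/-- simultaneous increments -/
theorem sim_le {M : Mod A} {kr : ℕ → A → ℝ} {C a : ℕ} (h : SingH M kr C a) (K k1 : ℕ)
    (hk : C * a ≤ k1) (p q : ℕ → ℕ → A → E) (Bp Bq : ℝ)
    (hBp : ∀ k, k1 ≤ k → k ≤ K → ∀ b < 2 ^ (K - k), ∀ u, ‖p k b u‖ ≤ Bp)
    (hBq : ∀ k, k1 ≤ k → k ≤ K → ∀ b < 2 ^ (K - k), ∀ u, ‖q k b u‖ ≤ Bq) :
    |FT M kr K k1 p q| ≤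
      gg C a * (Real.sqrt (Bp * tot K k1 p) * Real.sqrt (Bq * tot K k1 q)) := by
  have hg0 := near_gg0 C a
  rcases Nat.lt_or_ge K k1 with hlt | hk1
  · have e : FT M kr K k1 p q = 0 := by
      unfold FT
      rw [Finset.Icc_eq_empty (by omega), Finset.sum_empty]
    rw [e, abs_zero]
    positivity
  have hBp0 : 0 ≤ Bp := (norm_nonneg _).trans (hBp k1 le_rfl hk1 0 (by positivity) 1)
  have hBq0 : 0 ≤ Bq := (norm_nonneg _).trans (hBq k1 le_rfl hk1 0 (by positivity) 1)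
  have h1 : ∀ k ∈ Icc k1 K, |tp M K k (p k) (ro M kr k (q k))| ≤
      gg C a * (Real.sqrt (Bp * nv K k p) * Real.sqrt (Bq * nv K k q)) := by
    intro k hk'
    rw [Finset.mem_Icc] at hk'
    refine (h E K k (hk.trans hk'.1) hk'.2 (p k) (q k)).trans ?_
    refine mul_le_mul_of_nonneg_left ?_ hg0
    exact mul_le_mul (Real.sqrt_le_sqrt (near_sq K k hk'.2 p Bp (hBp k hk'.1 hk'.2)))
      (Real.sqrt_le_sqrt (near_sq K k hk'.2 q Bq (hBq k hk'.1 hk'.2))) (Real.sqrt_nonneg _)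
      (Real.sqrt_nonneg _)
  unfold FT
  refine (Finset.abs_sum_le_sum_abs _ _).trans ((Finset.sum_le_sum h1).trans ?_)
  rw [← Finset.mul_sum]
  refine mul_le_mul_of_nonneg_left ?_ hg0
  unfold tot
  rw [Finset.mul_sum, Finset.mul_sum]
  exact near_cs2 _ _ _ (fun k _ => mul_nonneg hBp0 (near_nv0 K k p))
    (fun k _ => mul_nonneg hBq0 (near_nv0 K k q))

/-! ### one term -/

private theorem near_abs (M : Mod A) (kr : ℕ → A → ℝ) (K k : ℕ) (hk : k ≤ K)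
    (f g : ℕ → A → E) (f' g' : ℕ → A → ℝ)
    (hf : ∀ b < 2 ^ (K - k), ∀ u, ‖f b u‖ ≤ f' b u)
    (hg : ∀ b < 2 ^ (K - k), ∀ u, ‖g b u‖ ≤ g' b u) :
    |tp M K k f (ro M kr k g)| ≤
      ex K (fun c u => f' (c / 2 ^ k) u * g' (c / 2 ^ k) (M.th c * u)) +
      ex K (fun c u => f' (c / 2 ^ k) u *
        sp M (fun x => |kr k x|) (c / 2 ^ k * 2 ^ k) (g' (c / 2 ^ k)) (M.th c * u)) := by
  rw [← ex_add K (fun c u => f' (c / 2 ^ k) u * g' (c / 2 ^ k) (M.th c * u))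
    (fun c u => f' (c / 2 ^ k) u *
        sp M (fun x => |kr k x|) (c / 2 ^ k * 2 ^ k) (g' (c / 2 ^ k)) (M.th c * u))]
  unfold tp
  refine ex_abs_le K _ _ fun c hc u => ?_
  have hb := blk_lt hk hc
  have h1 := hf _ hb u
  have h0 : 0 ≤ f' (c / 2 ^ k) u := (norm_nonneg _).trans h1
  have h2 : ‖ro M kr k g (c / 2 ^ k) (M.th c * u)‖ ≤
      g' (c / 2 ^ k) (M.th c * u) +
        sp M (fun x => |kr k x|) (c / 2 ^ k * 2 ^ k) (g' (c / 2 ^ k)) (M.th c * u) := by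
    unfold ro
    refine (norm_sub_le _ _).trans (add_le_add (hg _ hb _) ?_)
    refine (norm_sm_le_sp M _ _ _ _).trans ?_
    exact near_sp_mono M _ (fun x => abs_nonneg _) _ _ _ (fun v => hg _ hb v) _
  calc |inner ℝ (f (c / 2 ^ k) u) (ro M kr k g (c / 2 ^ k) (M.th c * u))|
      ≤ ‖f (c / 2 ^ k) u‖ * ‖ro M kr k g (c / 2 ^ k) (M.th c * u)‖ := abs_real_inner_le_norm _ _
    _ ≤ f' (c / 2 ^ k) u * (g' (c / 2 ^ k) (M.th c * u) +
          sp M (fun x => |kr k x|) (c / 2 ^ k * 2 ^ k) (g' (c / 2 ^ k)) (M.th c * u)) :=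
        mul_le_mul h1 h2 (norm_nonneg _) h0
    _ = _ := by ring

private theorem near_real (M : Mod A) (kr : ℕ → A → ℝ) (K k : ℕ) (f g : ℕ → A → ℝ)
    (hf : ∀ b u, 0 ≤ f b u) (hg : ∀ b u, 0 ≤ g b u) :
    ex K (fun c u => f (c / 2 ^ k) u * g (c / 2 ^ k) (M.th c * u)) ≤
      tp M K k f (ro M kr k g) +
      ex K (fun c u => f (c / 2 ^ k) u *
        sp M (fun x => |kr k x|) (c / 2 ^ k * 2 ^ k) (g (c / 2 ^ k)) (M.th c * u)) := by
  unfold tp
  rw [← ex_add K (fun c u => inner ℝ (f (c / 2 ^ k) u) (ro M kr k g (c / 2 ^ k) (M.th c * u)))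
    (fun c u => f (c / 2 ^ k) u *
        sp M (fun x => |kr k x|) (c / 2 ^ k * 2 ^ k) (g (c / 2 ^ k)) (M.th c * u))]
  refine ex_mono K _ _ (fun c hc u => ?_)
  have h1 : inner ℝ (f (c / 2 ^ k) u) (ro M kr k g (c / 2 ^ k) (M.th c * u)) =
      f (c / 2 ^ k) u * (g (c / 2 ^ k) (M.th c * u) -
        sm M (kr k) (c / 2 ^ k * 2 ^ k) (g (c / 2 ^ k)) (M.th c * u)) := by
    unfold ro
    rw [RCLike.inner_apply, conj_trivial, mul_comm]
  have h2 : sm M (kr k) (c / 2 ^ k * 2 ^ k) (g (c / 2 ^ k)) (M.th c * u) ≤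
      sp M (fun x => |kr k x|) (c / 2 ^ k * 2 ^ k) (g (c / 2 ^ k)) (M.th c * u) := by
    have h3 := norm_sm_le_sp M (kr k) (c / 2 ^ k * 2 ^ k) (g (c / 2 ^ k)) (M.th c * u)
    have h4 : (fun v => ‖g (c / 2 ^ k) v‖) = g (c / 2 ^ k) := by
      funext v
      exact Real.norm_of_nonneg (hg _ _)
    rw [h4] at h3
    exact (le_abs_self _).trans h3
  have h5 := mul_le_mul_of_nonneg_left h2 (hf (c / 2 ^ k) u)
  rw [h1]
  nlinarith [h5]

/-! ### splitting off the simultaneous increments -/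

private theorem near_split (M : Mod A) (kr : ℕ → A → ℝ) (K k1 : ℕ) (p q : ℕ → ℕ → A → E) :
    FT M kr K k1 p (acc K q) = FT M kr K k1 p q +
      ∑ k ∈ Icc k1 K, tp M K k (p k) (ro M kr k (up (acc K q (k + 1)))) := by
  unfold FT
  rw [← Finset.sum_add_distrib]
  refine Finset.sum_congr rfl fun k hk => ?_
  have hkK := (Finset.mem_Icc.1 hk).2
  have h : ro M kr k (acc K q k) =
      fun b v => ro M kr k (q k) b v + ro M kr k (up (acc K q (k + 1))) b v := by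
    funext b v
    unfold ro
    have h1 : acc K q k b = fun v => q k b v + up (acc K q (k + 1)) b v := by
      funext v
      exact acc_step K k hkK q b v
    have h2 : sm M (kr k) (b * 2 ^ k) (acc K q k b) v =
        sm M (kr k) (b * 2 ^ k) (q k b) v + sm M (kr k) (b * 2 ^ k) (up (acc K q (k + 1)) b) v := by
      rw [h1]
      exact sm_add M (kr k) (b * 2 ^ k) (q k b) (up (acc K q (k + 1)) b) v
    rw [h2]
    have h3 : acc K q k b v = q k b v + up (acc K q (k + 1)) b v := by rw [h1]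
    rw [h3]
    abel
  rw [h]
  exact tp_add_right M K k (p k) _ _

/-! ### block sums -/

private theorem near_range_mul (m n : ℕ) (F : ℕ → ℝ) :
    ∑ c ∈ range (n * m), F c = ∑ b ∈ range n, ∑ c ∈ range m, F (b * m + c) := by
  induction n with
  | zero => simp
  | succ n ih => rw [Nat.succ_mul, Finset.sum_range_add, ih, Finset.sum_range_succ]

private theorem near_blocks (K k : ℕ) (hkK : k ≤ K) (F : ℕ → ℕ → ℝ) :
    ∑ c ∈ range (2 ^ K), F (c / 2 ^ k) c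
      = ∑ b ∈ range (2 ^ (K - k)), ∑ c ∈ range (2 ^ k), F b (b * 2 ^ k + c) := by
  have e : 2 ^ K = 2 ^ (K - k) * 2 ^ k := by rw [← pow_add]; congr 1; omega
  rw [e, near_range_mul]
  refine Finset.sum_congr rfl fun b _ => Finset.sum_congr rfl fun c hc => ?_
  rw [Finset.mem_range] at hc
  have h2 : 0 < 2 ^ k := by positivity
  have e2 : (b * 2 ^ k + c) / 2 ^ k = b := by
    rw [add_comm, Nat.add_mul_div_right _ _ h2, Nat.div_eq_of_lt hc, zero_add]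
  rw [e2]

private theorem near_ex_blocks (K k : ℕ) (hk : k ≤ K) (P : ℕ → A → ℝ)
    (F : ℕ → ℕ → A → ℝ) (x : ℝ) (hP : ∀ b u, 0 ≤ P b u)
    (hF : ∀ b u, P b u ≠ 0 → ∑ c ∈ range (2 ^ k), F b (b * 2 ^ k + c) u ≤ 2 ^ k * x) :
    ex K (fun c u => P (c / 2 ^ k) u * F (c / 2 ^ k) c u) ≤
      x * ex K (fun c u => P (c / 2 ^ k) u) := by
  have hM := card_pos' (A := A)
  rw [← ex_smul]
  unfold ex
  refine div_le_div_of_nonneg_right ?_ (by positivity)
  rw [near_blocks K k hk (fun b c => ∑ u : A, P b u * F b c u),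
    near_blocks K k hk (fun b _ => ∑ u : A, x * P b u)]
  refine Finset.sum_le_sum fun b _ => ?_
  rw [Finset.sum_comm, Finset.sum_comm (s := range (2 ^ k))]
  refine Finset.sum_le_sum fun u _ => ?_
  rw [← Finset.mul_sum, Finset.sum_const, Finset.card_range, nsmul_eq_mul]
  by_cases h0 : P b u = 0
  · rw [h0]; simp
  · have h1 := mul_le_mul_of_nonneg_left (hF b u h0) (hP b u)
    refine h1.trans (le_of_eq ?_)
    push_cast
    ring

/-! ### the smooth terms -/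

private theorem near_locT (M : Mod A) (kb : A → ℝ) (k b : ℕ) (f : A → ℝ) (u : A) :
    ∑ c ∈ range (2 ^ k), sp M kb (b * 2 ^ k) f (M.th (b * 2 ^ k + c) * u) =
      2 ^ k * locT M kb k b f u := by
  unfold locT sp
  field_simp

private theorem near_locS (M : Mod A) (kb : A → ℝ) (k b : ℕ) (f : A → ℝ) (v : A) :
    ∑ c ∈ range (2 ^ k), ∑ x : A,
      kb x * f ((M.th (b * 2 ^ k + c))⁻¹ * (((M.s ^ (b * 2 ^ k))⁻¹ x)⁻¹ * v))
      = 2 ^ k * locS M kb k b f v := by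
  unfold locS
  field_simp

private theorem near_HT (M : Mod A) (kb : A → ℝ) (K k : ℕ) (hk : k ≤ K) (P G : ℕ → A → ℝ) (x : ℝ)
    (hP : ∀ b u, 0 ≤ P b u)
    (hG : ∀ b u, P b u ≠ 0 → locT M kb k b (G b) u ≤ x) :
    ex K (fun c u => P (c / 2 ^ k) u *
        sp M kb (c / 2 ^ k * 2 ^ k) (G (c / 2 ^ k)) (M.th c * u)) ≤
      x * ex K (fun c u => P (c / 2 ^ k) u) := by
  refine near_ex_blocks K k hk P (fun b c u => sp M kb (b * 2 ^ k) (G b) (M.th c * u)) x hP ?_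
  intro b u h0
  rw [near_locT]
  exact mul_le_mul_of_nonneg_left (hG b u h0) (by positivity)

private theorem near_shift (M : Mod A) (kb : A → ℝ) (l c : ℕ) (P G : A → ℝ) :
    ∑ u : A, G u * sp M kb l P (M.th c * u) =
      ∑ v : A, P v * ∑ x : A, kb x * G ((M.th c)⁻¹ * (((M.s ^ l)⁻¹ x)⁻¹ * v)) := by
  unfold sp
  simp only [Finset.mul_sum]
  rw [Finset.sum_comm, Finset.sum_comm (s := (univ : Finset A)) (t := (univ : Finset A))
    (f := fun v x => P v * (kb x * G ((M.th c)⁻¹ * (((M.s ^ l)⁻¹ x)⁻¹ * v))))]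
  refine Finset.sum_congr rfl fun x _ => ?_
  refine Fintype.sum_equiv (Equiv.mulLeft ((M.s ^ l)⁻¹ x * M.th c)) _ _ fun u => ?_
  simp only [Equiv.coe_mulLeft]
  have e1 : (M.th c)⁻¹ * (((M.s ^ l)⁻¹ x)⁻¹ * ((M.s ^ l)⁻¹ x * M.th c * u)) = u := by group
  rw [e1, mul_assoc ((M.s ^ l)⁻¹ x) (M.th c) u]
  ring

private theorem near_HS (M : Mod A) (kb : A → ℝ) (K k : ℕ) (hk : k ≤ K) (P G : ℕ → A → ℝ) (x : ℝ)
    (hP : ∀ b u, 0 ≤ P b u)
    (hG : ∀ b u, P b u ≠ 0 → locS M kb k b (G b) u ≤ x) :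
    ex K (fun c u => G (c / 2 ^ k) u *
        sp M kb (c / 2 ^ k * 2 ^ k) (P (c / 2 ^ k)) (M.th c * u)) ≤
      x * ex K (fun c u => P (c / 2 ^ k) u) := by
  have h1 : ex K (fun c u => G (c / 2 ^ k) u *
        sp M kb (c / 2 ^ k * 2 ^ k) (P (c / 2 ^ k)) (M.th c * u)) =
      ex K (fun c v => P (c / 2 ^ k) v * ∑ x : A, kb x *
        G (c / 2 ^ k) ((M.th c)⁻¹ * (((M.s ^ (c / 2 ^ k * 2 ^ k))⁻¹ x)⁻¹ * v))) := by
    unfold ex
    congr 1
    exact Finset.sum_congr rfl fun c _ => near_shift M kb _ c _ _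
  rw [h1]
  refine near_ex_blocks K k hk P (fun b c v => ∑ x : A, kb x *
        G b ((M.th c)⁻¹ * (((M.s ^ (b * 2 ^ k))⁻¹ x)⁻¹ * v))) x hP ?_
  intro b u h0
  rw [near_locS]
  exact mul_le_mul_of_nonneg_left (hG b u h0) (by positivity)

/-! ### restricted processes -/

private theorem near_rs0 (w : ℕ → ℕ → A → ℕ) (I : Finset ℕ) (m : ℕ → ℕ → A → ℝ)
    (h : ∀ k b u, 0 ≤ m k b u) (k b : ℕ) (u : A) : 0 ≤ rs w I m k b u := by
  unfold rs
  split
  · exact h k b u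
  · exact le_rfl

private theorem near_rs_le (w : ℕ → ℕ → A → ℕ) (I : Finset ℕ) (m : ℕ → ℕ → A → ℝ)
    (h : ∀ k b u, 0 ≤ m k b u) (k b : ℕ) (u : A) : rs w I m k b u ≤ m k b u := by
  unfold rs
  split
  · exact le_rfl
  · exact h k b u

private theorem near_rs_norm (w : ℕ → ℕ → A → ℕ) (I : Finset ℕ) (m : ℕ → ℕ → A → ℝ)
    (p : ℕ → ℕ → A → E) (B : ℝ) (k b : ℕ) (u : A) (h : ‖p k b u‖ ≤ B * m k b u) :
    ‖rs w I p k b u‖ ≤ B * rs w I m k b u := by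
  unfold rs
  split
  · exact h
  · simp

private theorem near_rs_mem (w : ℕ → ℕ → A → ℕ) (m0 : ℕ) (m : ℕ → ℕ → A → ℝ)
    (k b : ℕ) (u : A) (h : rs w {m0} m k b u ≠ 0) : w k b u = m0 := by
  by_contra hne
  apply h
  unfold rs
  rw [if_neg]
  simpa using hne

private theorem near_acc0 (K : ℕ) (m : ℕ → ℕ → A → ℝ) (h : ∀ k b u, 0 ≤ m k b u)
    (k b : ℕ) (u : A) : 0 ≤ acc K m k b u := by
  unfold acc
  exact Finset.sum_nonneg fun w _ => h _ _ _

private theorem near_acc_le (K : ℕ) (m m' : ℕ → ℕ → A → ℝ) (h : ∀ k b u, m k b u ≤ m' k b u)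
    (k b : ℕ) (u : A) : acc K m k b u ≤ acc K m' k b u := by
  unfold acc
  exact Finset.sum_le_sum fun w _ => h _ _ _

private theorem near_acc_norm (K k1 : ℕ) (m : ℕ → ℕ → A → ℝ) (p : ℕ → ℕ → A → E) (B : ℝ)
    (h : ∀ k, k1 ≤ k → k ≤ K → ∀ b < 2 ^ (K - k), ∀ u, ‖p k b u‖ ≤ B * m k b u)
    (k : ℕ) (hk : k1 ≤ k) (hkK : k ≤ K) (b : ℕ) (hb : b < 2 ^ (K - k)) (u : A) :
    ‖up (acc K p (k + 1)) b u‖ ≤ B * up (acc K m (k + 1)) b u := by
  unfold up acc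
  rw [Finset.mul_sum]
  refine (norm_sum_le _ _).trans (Finset.sum_le_sum fun w hw => ?_)
  rw [Finset.mem_Icc] at hw
  refine h w (by omega) hw.2 _ ?_ u
  rw [Nat.div_div_eq_div_mul, Nat.div_lt_iff_lt_mul (by positivity), ← pow_succ', ← pow_add]
  have e : K - w + (w - (k + 1) + 1) = K - k := by omega
  rwa [e]

private theorem near_tot (K k1 : ℕ) (m : ℕ → ℕ → A → ℝ) (p : ℕ → ℕ → A → E) (B : ℝ)
    (h : ∀ k, k1 ≤ k → k ≤ K → ∀ b < 2 ^ (K - k), ∀ u, ‖p k b u‖ ≤ B * m k b u) :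
    tot K k1 p ≤ B * totr K k1 m := by
  unfold tot totr
  rw [Finset.mul_sum]
  refine Finset.sum_le_sum fun k hk => ?_
  rw [Finset.mem_Icc] at hk
  unfold nv
  rw [← ex_smul]
  exact ex_mono K _ _ fun c hc u => h k hk.1 hk.2 _ (blk_lt hk.2 hc) u

/-! ### the scalar fluxes -/

/-- the true scalar fluxes -/
private def near_F (M : Mod A) (K k1 : ℕ) (a b : ℕ → ℕ → A → ℝ) : ℝ :=
  ∑ k ∈ Icc k1 K, ex K (fun c u => a k (c / 2 ^ k) u * up (acc K b (k + 1)) (c / 2 ^ k) (M.th c * u))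

private def near_G (M : Mod A) (K k1 : ℕ) (a b : ℕ → ℕ → A → ℝ) : ℝ :=
  ∑ k ∈ Icc k1 K, ex K (fun c u => up (acc K a (k + 1)) (c / 2 ^ k) u * b k (c / 2 ^ k) (M.th c * u))

/-- the smooth scalar fluxes -/
private def near_FH (M : Mod A) (kr : ℕ → A → ℝ) (K k1 : ℕ) (a b : ℕ → ℕ → A → ℝ) : ℝ :=
  ∑ k ∈ Icc k1 K, ex K (fun c u => a k (c / 2 ^ k) u *
    sp M (fun x => |kr k x|) (c / 2 ^ k * 2 ^ k) (up (acc K b (k + 1)) (c / 2 ^ k)) (M.th c * u))

private def near_GH (M : Mod A) (kr : ℕ → A → ℝ) (K k1 : ℕ) (a b : ℕ → ℕ → A → ℝ) : ℝ :=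
  ∑ k ∈ Icc k1 K, ex K (fun c u => up (acc K a (k + 1)) (c / 2 ^ k) u *
    sp M (fun x => |kr k x|) (c / 2 ^ k * 2 ^ k) (b k (c / 2 ^ k)) (M.th c * u))

private theorem near_scale (K : ℕ) (x y : ℝ) (f : ℕ → A → ℝ) (g : ℕ → A → ℝ) :
    ex K (fun c u => (x * f c u) * (y * g c u)) = x * y * ex K (fun c u => f c u * g c u) := by
  rw [← ex_smul]
  congr 1
  funext c u
  ring

private theorem near_sp_smul (M : Mod A) (kb : A → ℝ) (l : ℕ) (y : ℝ) (g : A → ℝ) (v : A) :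
    sp M kb l (fun v => y * g v) v = y * sp M kb l g v := by
  unfold sp
  rw [Finset.mul_sum]
  exact Finset.sum_congr rfl fun x _ => by ring

private theorem near_vecT (M : Mod A) (kr : ℕ → A → ℝ) (K k1 : ℕ) (a b : ℕ → ℕ → A → ℝ)
    (p q : ℕ → ℕ → A → E) (x y : ℝ)
    (hp : ∀ k, k1 ≤ k → k ≤ K → ∀ b < 2 ^ (K - k), ∀ u, ‖p k b u‖ ≤ x * a k b u)
    (hq : ∀ k, k1 ≤ k → k ≤ K → ∀ b' < 2 ^ (K - k), ∀ u, ‖q k b' u‖ ≤ y * b k b' u) :
    |∑ k ∈ Icc k1 K, tp M K k (p k) (ro M kr k (up (acc K q (k + 1))))| ≤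
      x * y * (near_F M K k1 a b + near_FH M kr K k1 a b) := by
  unfold near_F near_FH
  rw [← Finset.sum_add_distrib, Finset.mul_sum]
  refine (Finset.abs_sum_le_sum_abs _ _).trans (Finset.sum_le_sum fun k hk => ?_)
  rw [Finset.mem_Icc] at hk
  have h := near_abs M kr K k hk.2 (p k) (up (acc K q (k + 1)))
    (fun b' u => x * a k b' u) (fun b' u => y * up (acc K b (k + 1)) b' u)
    (hp k hk.1 hk.2) (fun b' hb u => near_acc_norm K k1 b q y hq k hk.1 hk.2 b' hb u)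
  refine h.trans (le_of_eq ?_)
  rw [near_scale K x y (fun c u => a k (c / 2 ^ k) u)
    (fun c u => up (acc K b (k + 1)) (c / 2 ^ k) (M.th c * u))]
  have e : ex K (fun c u => x * a k (c / 2 ^ k) u *
      sp M (fun x => |kr k x|) (c / 2 ^ k * 2 ^ k)
        (fun u => y * up (acc K b (k + 1)) (c / 2 ^ k) u) (M.th c * u)) =
      x * y * ex K (fun c u => a k (c / 2 ^ k) u *
        sp M (fun x => |kr k x|) (c / 2 ^ k * 2 ^ k)
          (up (acc K b (k + 1)) (c / 2 ^ k)) (M.th c * u)) := by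
    rw [← near_scale]
    congr 1
    funext c u
    rw [near_sp_smul]
  rw [e]
  ring

private theorem near_vecS (M : Mod A) (kr : ℕ → A → ℝ) (K k1 : ℕ) (a b : ℕ → ℕ → A → ℝ)
    (p q : ℕ → ℕ → A → E) (x y : ℝ)
    (hp : ∀ k, k1 ≤ k → k ≤ K → ∀ b < 2 ^ (K - k), ∀ u, ‖p k b u‖ ≤ x * a k b u)
    (hq : ∀ k, k1 ≤ k → k ≤ K → ∀ b' < 2 ^ (K - k), ∀ u, ‖q k b' u‖ ≤ y * b k b' u) :
    |FS M kr K k1 (acc K p) q| ≤
      x * y * (near_G M K k1 a b + near_GH M kr K k1 a b) := by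
  unfold near_G near_GH FS
  rw [← Finset.sum_add_distrib, Finset.mul_sum]
  refine (Finset.abs_sum_le_sum_abs _ _).trans (Finset.sum_le_sum fun k hk => ?_)
  rw [Finset.mem_Icc] at hk
  have h := near_abs M kr K k hk.2 (up (acc K p (k + 1))) (q k)
    (fun b' u => x * up (acc K a (k + 1)) b' u) (fun b' u => y * b k b' u)
    (fun b' hb u => near_acc_norm K k1 a p x hp k hk.1 hk.2 b' hb u) (hq k hk.1 hk.2)
  refine h.trans (le_of_eq ?_)
  rw [near_scale K x y (fun c u => up (acc K a (k + 1)) (c / 2 ^ k) u)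
    (fun c u => b k (c / 2 ^ k) (M.th c * u))]
  have e : ex K (fun c u => x * up (acc K a (k + 1)) (c / 2 ^ k) u *
      sp M (fun x => |kr k x|) (c / 2 ^ k * 2 ^ k)
        (fun u => y * b k (c / 2 ^ k) u) (M.th c * u)) =
      x * y * ex K (fun c u => up (acc K a (k + 1)) (c / 2 ^ k) u *
        sp M (fun x => |kr k x|) (c / 2 ^ k * 2 ^ k) (b k (c / 2 ^ k)) (M.th c * u)) := by
    rw [← near_scale]
    congr 1
    funext c u
    rw [near_sp_smul]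
  rw [e]
  ring

/-- the common part of `near_FT` and `near_FS` -/
private theorem near_core {M : Mod A} {nu : ℕ → A → ℝ} {C a' K k1 : ℕ} {kr : ℕ → A → ℝ}
    {mT mS : ℕ → ℕ → A → ℝ} {p q : ℕ → ℕ → A → E} {Bp Bq R κ : ℝ}
    (h : FluxHyp M nu C a' K k1 kr E mT mS p q Bp Bq R) {wT wS : ℕ → ℕ → A → ℕ}
    (hw : Windows M nu C a' K k1 kr κ mT mS wT wS)
    (m m' : ℕ) (h1 : m' ≤ m + 1) (h2 : m ≤ m' + 1) :
    0 ≤ near_F M K k1 (rs wT {m} mT) (rs wS {m'} mS) ∧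
    0 ≤ near_G M K k1 (rs wT {m} mT) (rs wS {m'} mS) ∧
    near_FH M kr K k1 (rs wT {m} mT) (rs wS {m'} mS) ≤
      Wc C * 2 ^ (C * a') * κ * totr K k1 (rs wT {m} mT) ∧
    near_GH M kr K k1 (rs wT {m} mT) (rs wS {m'} mS) ≤
      Wc C * 2 ^ (C * a') * κ * totr K k1 (rs wS {m'} mS) ∧
    near_F M K k1 (rs wT {m} mT) (rs wS {m'} mS) + near_G M K k1 (rs wT {m} mT) (rs wS {m'} mS) ≤
      2 * gg C a' * R * (Real.sqrt (totr K k1 (rs wT {m} mT)) *
        Real.sqrt (totr K k1 (rs wS {m'} mS))) +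
      (Wc C * 2 ^ (C * a') * κ) *
        (totr K k1 (rs wT {m} mT) + totr K k1 (rs wS {m'} mS)) := by
  set a := rs wT {m} mT with ha
  set b := rs wS {m'} mS with hb
  have a0 : ∀ k b' u, 0 ≤ a k b' u := fun k b' u => near_rs0 wT {m} mT h.mT0 k b' u
  have b0 : ∀ k b' u, 0 ≤ b k b' u := fun k b' u => near_rs0 wS {m'} mS h.mS0 k b' u
  have ua0 : ∀ k b' u, 0 ≤ up (acc K a (k + 1)) b' u := fun k b' u =>
    near_acc0 K a a0 (k + 1) (b' / 2) u
  have ub0 : ∀ k b' u, 0 ≤ up (acc K b (k + 1)) b' u := fun k b' u =>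
    near_acc0 K b b0 (k + 1) (b' / 2) u
  have hF0 : 0 ≤ near_F M K k1 a b := by
    unfold near_F
    exact Finset.sum_nonneg fun k _ => ex_nonneg K _ fun c u => mul_nonneg (a0 _ _ _) (ub0 _ _ _)
  have hG0 : 0 ≤ near_G M K k1 a b := by
    unfold near_G
    exact Finset.sum_nonneg fun k _ => ex_nonneg K _ fun c u => mul_nonneg (ua0 _ _ _) (b0 _ _ _)
  have hFH : near_FH M kr K k1 a b ≤ Wc C * 2 ^ (C * a') * κ * totr K k1 a := by
    unfold near_FH totr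
    rw [Finset.mul_sum]
    refine Finset.sum_le_sum fun k hk => ?_
    rw [Finset.mem_Icc] at hk
    refine near_HT M _ K k hk.2 (a k) (up (acc K b (k + 1))) _ (a0 k) ?_
    intro b' u hne
    have hm : wT k b' u = m := near_rs_mem wT m mT k b' u hne
    exact hw.nearT k hk.1 hk.2 b' u m' (by omega) (by omega)
  have hGH : near_GH M kr K k1 a b ≤ Wc C * 2 ^ (C * a') * κ * totr K k1 b := by
    unfold near_GH totr
    rw [Finset.mul_sum]
    refine Finset.sum_le_sum fun k hk => ?_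
    rw [Finset.mem_Icc] at hk
    refine near_HS M _ K k hk.2 (b k) (up (acc K a (k + 1))) _ (b0 k) ?_
    intro b' u hne
    have hm : wS k b' u = m' := near_rs_mem wS m' mS k b' u hne
    exact hw.nearS k hk.1 hk.2 b' u m (by omega) (by omega)
  refine ⟨hF0, hG0, hFH, hGH, ?_⟩
  -- the total identity for the scalar processes
  have hna : ∀ k, k1 ≤ k → k ≤ K → ∀ b' < 2 ^ (K - k), ∀ u, ‖a k b' u‖ ≤ 1 * a k b' u :=
    fun k _ _ b' _ u => by rw [Real.norm_of_nonneg (a0 k b' u), one_mul]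
  have hnb : ∀ k, k1 ≤ k → k ≤ K → ∀ b' < 2 ^ (K - k), ∀ u, ‖b k b' u‖ ≤ 1 * b k b' u :=
    fun k _ _ b' _ u => by rw [Real.norm_of_nonneg (b0 k b' u), one_mul]
  have ta : tot K k1 a ≤ totr K k1 a := by
    have := near_tot K k1 a a 1 hna
    rwa [one_mul] at this
  have tb : tot K k1 b ≤ totr K k1 b := by
    have := near_tot K k1 b b 1 hnb
    rwa [one_mul] at this
  have hR0 : 0 ≤ R := zero_le_one.trans h.Rpos
  have hg := near_gg0 C a'
  have hti := h.krn.ti ℝ K k1 h.big h.k1K a b R R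
    (fun k hk hkK b' hb' u => by
      rw [Real.norm_of_nonneg (near_acc0 K a a0 k b' u)]
      exact (near_acc_le K a mT (near_rs_le wT {m} mT h.mT0) k b' u).trans
        (h.accT k hk hkK b' hb' u))
    (fun k hk hkK b' hb' u => by
      rw [Real.norm_of_nonneg (near_acc0 K b b0 k b' u)]
      exact (near_acc_le K b mS (near_rs_le wS {m'} mS h.mS0) k b' u).trans
        (h.accS k hk hkK b' hb' u))
  have hsi := sim_le h.krn.sing K k1 h.big a b 1 1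
    (fun k _ _ b' _ u => by
      rw [Real.norm_of_nonneg (a0 k b' u)]
      exact (near_rs_le wT {m} mT h.mT0 k b' u).trans (h.mT1 k b' u))
    (fun k _ _ b' _ u => by
      rw [Real.norm_of_nonneg (b0 k b' u)]
      exact (near_rs_le wS {m'} mS h.mS0 k b' u).trans (h.mS1 k b' u))
  have hs := near_split M kr K k1 a b
  set X := totr K k1 a with hX
  set Y := totr K k1 b with hY
  have hti2 : |FT M kr K k1 a (acc K b) + FS M kr K k1 (acc K a) b| ≤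
      gg C a' * R * (Real.sqrt X * Real.sqrt Y) := by
    refine hti.trans ?_
    have e1 : Real.sqrt (R * tot K k1 a) ≤ Real.sqrt R * Real.sqrt X := by
      rw [← Real.sqrt_mul hR0]
      exact Real.sqrt_le_sqrt (mul_le_mul_of_nonneg_left ta hR0)
    have e2 : Real.sqrt (R * tot K k1 b) ≤ Real.sqrt R * Real.sqrt Y := by
      rw [← Real.sqrt_mul hR0]
      exact Real.sqrt_le_sqrt (mul_le_mul_of_nonneg_left tb hR0)
    have e3 : Real.sqrt (R * tot K k1 a) * Real.sqrt (R * tot K k1 b) ≤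
        R * (Real.sqrt X * Real.sqrt Y) := by
      calc Real.sqrt (R * tot K k1 a) * Real.sqrt (R * tot K k1 b)
          ≤ (Real.sqrt R * Real.sqrt X) * (Real.sqrt R * Real.sqrt Y) :=
            mul_le_mul e1 e2 (Real.sqrt_nonneg _) (by positivity)
        _ = (Real.sqrt R * Real.sqrt R) * (Real.sqrt X * Real.sqrt Y) := by ring
        _ = R * (Real.sqrt X * Real.sqrt Y) := by rw [Real.mul_self_sqrt hR0]
    calc (C : ℝ) / Real.sqrt (2 ^ a') *
          (Real.sqrt (R * tot K k1 a) * Real.sqrt (R * tot K k1 b))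
        ≤ gg C a' * (R * (Real.sqrt X * Real.sqrt Y)) :=
          mul_le_mul_of_nonneg_left e3 hg
      _ = _ := by ring
  have hsi2 : |FT M kr K k1 a b| ≤ gg C a' * R * (Real.sqrt X * Real.sqrt Y) := by
    refine hsi.trans ?_
    rw [one_mul, one_mul]
    have e1 : Real.sqrt (tot K k1 a) * Real.sqrt (tot K k1 b) ≤
        R * (Real.sqrt X * Real.sqrt Y) := by
      calc Real.sqrt (tot K k1 a) * Real.sqrt (tot K k1 b)
          ≤ Real.sqrt X * Real.sqrt Y :=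
            mul_le_mul (Real.sqrt_le_sqrt ta) (Real.sqrt_le_sqrt tb) (Real.sqrt_nonneg _)
              (Real.sqrt_nonneg _)
        _ = 1 * (Real.sqrt X * Real.sqrt Y) := by ring
        _ ≤ R * (Real.sqrt X * Real.sqrt Y) := by
            refine mul_le_mul_of_nonneg_right h.Rpos (by positivity)
    calc gg C a' * (Real.sqrt (tot K k1 a) * Real.sqrt (tot K k1 b))
        ≤ gg C a' * (R * (Real.sqrt X * Real.sqrt Y)) :=
          mul_le_mul_of_nonneg_left e1 hg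
      _ = _ := by ring
  have hFle : near_F M K k1 a b ≤
      (∑ k ∈ Icc k1 K, tp M K k (a k) (ro M kr k (up (acc K b (k + 1))))) +
        near_FH M kr K k1 a b := by
    unfold near_F near_FH
    rw [← Finset.sum_add_distrib]
    refine Finset.sum_le_sum fun k hk => ?_
    exact near_real M kr K k (a k) (up (acc K b (k + 1))) (a0 k) (ub0 k)
  have hGle : near_G M K k1 a b ≤ FS M kr K k1 (acc K a) b +
        near_GH M kr K k1 a b := by
    unfold near_G near_GH FS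
    rw [← Finset.sum_add_distrib]
    refine Finset.sum_le_sum fun k hk => ?_
    exact near_real M kr K k (up (acc K a (k + 1))) (b k) (ua0 k) (b0 k)
  have g1 := (abs_le.1 hti2).2
  have g2 := (abs_le.1 hsi2).1
  nlinarith [hFH, hGH, g1, g2, hFle, hGle, hs]

theorem near_FT {M : Mod A} {nu : ℕ → A → ℝ} {C a K k1 : ℕ} {kr : ℕ → A → ℝ}
    {mT mS : ℕ → ℕ → A → ℝ} {p q : ℕ → ℕ → A → E} {Bp Bq R κ : ℝ}
    (h : FluxHyp M nu C a K k1 kr E mT mS p q Bp Bq R) {wT wS : ℕ → ℕ → A → ℕ}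
    (hw : Windows M nu C a K k1 kr κ mT mS wT wS) (hκ : 0 < κ) (m m' : ℕ) (h1 : m' ≤ m + 1)
    (h2 : m ≤ m' + 1) :
    |FT M kr K k1 (rs wT {m} p) (acc K (rs wS {m'} q))| ≤
      Bp * Bq * NB C a R κ (totr K k1 (rs wT {m} mT)) (totr K k1 (rs wS {m'} mS)) := by
  obtain ⟨hF0, hG0, hFH, hGH, hsum⟩ := near_core h hw m m' h1 h2
  have hp : ∀ k, k1 ≤ k → k ≤ K → ∀ b < 2 ^ (K - k), ∀ u,
      ‖rs wT {m} p k b u‖ ≤ Bp * rs wT {m} mT k b u := fun k hk hkK b hb u =>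
    near_rs_norm wT {m} mT p Bp k b u (h.hp k hk hkK b hb u)
  have hq : ∀ k, k1 ≤ k → k ≤ K → ∀ b < 2 ^ (K - k), ∀ u,
      ‖rs wS {m'} q k b u‖ ≤ Bq * rs wS {m'} mS k b u := fun k hk hkK b hb u =>
    near_rs_norm wS {m'} mS q Bq k b u (h.hq k hk hkK b hb u)
  have a0 : ∀ k b' u, 0 ≤ rs wT {m} mT k b' u := fun k b' u => near_rs0 wT {m} mT h.mT0 k b' u
  have b0 : ∀ k b' u, 0 ≤ rs wS {m'} mS k b' u := fun k b' u => near_rs0 wS {m'} mS h.mS0 k b' u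
  have hX0 : 0 ≤ totr K k1 (rs wT {m} mT) :=
    Finset.sum_nonneg fun k _ => ex_nonneg K _ fun c u => a0 _ _ _
  have hY0 : 0 ≤ totr K k1 (rs wS {m'} mS) :=
    Finset.sum_nonneg fun k _ => ex_nonneg K _ fun c u => b0 _ _ _
  have hB := mul_nonneg h.Bp0 h.Bq0
  have hv := near_vecT M kr K k1 (rs wT {m} mT) (rs wS {m'} mS) (rs wT {m} p) (rs wS {m'} q)
    Bp Bq hp hq
  have hsi := sim_le h.krn.sing K k1 h.big (rs wT {m} p) (rs wS {m'} q) Bp Bq
    (fun k hk hkK b hb u => (hp k hk hkK b hb u).trans (by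
      have : rs wT {m} mT k b u ≤ 1 := (near_rs_le wT {m} mT h.mT0 k b u).trans (h.mT1 k b u)
      nlinarith [h.Bp0]))
    (fun k hk hkK b hb u => (hq k hk hkK b hb u).trans (by
      have : rs wS {m'} mS k b u ≤ 1 := (near_rs_le wS {m'} mS h.mS0 k b u).trans (h.mS1 k b u)
      nlinarith [h.Bq0]))
  have tp := near_tot K k1 (rs wT {m} mT) (rs wT {m} p) Bp hp
  have tq := near_tot K k1 (rs wS {m'} mS) (rs wS {m'} q) Bq hq
  have hs := near_split M kr K k1 (rs wT {m} p) (rs wS {m'} q)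
  have hg := near_gg0 C a
  set X := totr K k1 (rs wT {m} mT) with hX
  set Y := totr K k1 (rs wS {m'} mS) with hY
  have e1 : Real.sqrt (Bp * tot K k1 (rs wT {m} p)) ≤ Bp * Real.sqrt X := by
    rw [Real.sqrt_le_left (by have := h.Bp0; positivity), mul_pow, Real.sq_sqrt hX0]
    nlinarith [h.Bp0, mul_le_mul_of_nonneg_left tp h.Bp0]
  have e2 : Real.sqrt (Bq * tot K k1 (rs wS {m'} q)) ≤ Bq * Real.sqrt Y := by
    rw [Real.sqrt_le_left (by have := h.Bq0; positivity), mul_pow, Real.sq_sqrt hY0]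
    nlinarith [h.Bq0, mul_le_mul_of_nonneg_left tq h.Bq0]
  have hs2 : |FT M kr K k1 (rs wT {m} p) (rs wS {m'} q)| ≤
      Bp * Bq * (gg C a * R * (Real.sqrt X * Real.sqrt Y)) := by
    refine hsi.trans ?_
    calc gg C a * (Real.sqrt (Bp * tot K k1 (rs wT {m} p)) *
          Real.sqrt (Bq * tot K k1 (rs wS {m'} q)))
        ≤ gg C a * ((Bp * Real.sqrt X) * (Bq * Real.sqrt Y)) := by
          refine mul_le_mul_of_nonneg_left ?_ hg
          exact mul_le_mul e1 e2 (Real.sqrt_nonneg _) (by have := h.Bp0; positivity)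
      _ = Bp * Bq * (gg C a * 1 * (Real.sqrt X * Real.sqrt Y)) := by ring
      _ ≤ Bp * Bq * (gg C a * R * (Real.sqrt X * Real.sqrt Y)) := by
          refine mul_le_mul_of_nonneg_left ?_ hB
          refine mul_le_mul_of_nonneg_right ?_ (by positivity)
          exact mul_le_mul_of_nonneg_left h.Rpos hg
  rw [hs]
  refine (abs_add_le _ _).trans ((add_le_add hs2 hv).trans ?_)
  rw [← mul_add]
  refine mul_le_mul_of_nonneg_left ?_ hB
  unfold NB
  have hR0 : 0 ≤ R := zero_le_one.trans h.Rpos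
  have hz : 0 ≤ gg C a * R * (Real.sqrt X * Real.sqrt Y) := by positivity
  have hl : (0 : ℝ) ≤ Wc C * 2 ^ (C * a) * κ := by positivity
  have hzX := mul_nonneg hl hX0
  have hzY := mul_nonneg hl hY0
  nlinarith [hFH, hz, hzX, hzY, hsum, hG0]

theorem near_FS {M : Mod A} {nu : ℕ → A → ℝ} {C a K k1 : ℕ} {kr : ℕ → A → ℝ}
    {mT mS : ℕ → ℕ → A → ℝ} {p q : ℕ → ℕ → A → E} {Bp Bq R κ : ℝ}
    (h : FluxHyp M nu C a K k1 kr E mT mS p q Bp Bq R) {wT wS : ℕ → ℕ → A → ℕ}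
    (hw : Windows M nu C a K k1 kr κ mT mS wT wS) (hκ : 0 < κ) (m m' : ℕ) (h1 : m' ≤ m + 1)
    (h2 : m ≤ m' + 1) :
    |FS M kr K k1 (acc K (rs wT {m} p)) (rs wS {m'} q)| ≤
      Bp * Bq * NB C a R κ (totr K k1 (rs wT {m} mT)) (totr K k1 (rs wS {m'} mS)) := by
  obtain ⟨hF0, hG0, hFH, hGH, hsum⟩ := near_core h hw m m' h1 h2
  have hp : ∀ k, k1 ≤ k → k ≤ K → ∀ b < 2 ^ (K - k), ∀ u,
      ‖rs wT {m} p k b u‖ ≤ Bp * rs wT {m} mT k b u := fun k hk hkK b hb u =>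
    near_rs_norm wT {m} mT p Bp k b u (h.hp k hk hkK b hb u)
  have hq : ∀ k, k1 ≤ k → k ≤ K → ∀ b < 2 ^ (K - k), ∀ u,
      ‖rs wS {m'} q k b u‖ ≤ Bq * rs wS {m'} mS k b u := fun k hk hkK b hb u =>
    near_rs_norm wS {m'} mS q Bq k b u (h.hq k hk hkK b hb u)
  have a0 : ∀ k b' u, 0 ≤ rs wT {m} mT k b' u := fun k b' u => near_rs0 wT {m} mT h.mT0 k b' u
  have b0 : ∀ k b' u, 0 ≤ rs wS {m'} mS k b' u := fun k b' u => near_rs0 wS {m'} mS h.mS0 k b' u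
  have hX0 : 0 ≤ totr K k1 (rs wT {m} mT) :=
    Finset.sum_nonneg fun k _ => ex_nonneg K _ fun c u => a0 _ _ _
  have hY0 : 0 ≤ totr K k1 (rs wS {m'} mS) :=
    Finset.sum_nonneg fun k _ => ex_nonneg K _ fun c u => b0 _ _ _
  have hB := mul_nonneg h.Bp0 h.Bq0
  have hv := near_vecS M kr K k1 (rs wT {m} mT) (rs wS {m'} mS) (rs wT {m} p) (rs wS {m'} q)
    Bp Bq hp hq
  have hg := near_gg0 C a
  set X := totr K k1 (rs wT {m} mT) with hX
  set Y := totr K k1 (rs wS {m'} mS) with hY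
  refine hv.trans (mul_le_mul_of_nonneg_left ?_ hB)
  unfold NB
  have hR0 : 0 ≤ R := zero_le_one.trans h.Rpos
  have hz : 0 ≤ gg C a * R * (Real.sqrt X * Real.sqrt Y) := by positivity
  have hl : (0 : ℝ) ≤ Wc C * 2 ^ (C * a) * κ := by positivity
  have hzX := mul_nonneg hl hX0
  have hzY := mul_nonneg hl hY0
  nlinarith [hGH, hz, hzX, hzY, hsum, hF0]

end

end NPG
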