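import Pool.Agent.NPG.OBox

set_option autoImplicit false

/-!
# NPG / OAo : almost orthogonality

PROOF.  Let `V` be the unitary of `α` (`frg_unit`), `D = Db k' b d`, `Kop α k' = V D* D V⁻¹` (`kop_eq`).
`‖V D* D V⁻¹ (1 - Kop β k)‖ ≤ ‖D V⁻¹ (1 - Kop β k) V‖`, and `V⁻¹ (Kop β k) V = avg_p Uo (α⁻¹ (β (zz p)))`
(`U (α⁻¹ y) = V⁻¹ U y V`).  By `zz_mem` (levels `k ≤ k'`) and `sm_fr` twice `α⁻¹ (β (zz p)) ∈ Sm 1 d (2^k') (η / 2^b)` with
`η = K' 2^k / 2^k'` (`b ≥ b0` so that the conditions `K del ≤ 1` hold).  If `η ≤ 1` then `db_abs` gives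
`‖D (1 - Uo (..))‖ ≤ K η`; average over `p` (`norm_avg_le_const`, `mul_avg`).  If `η > 1` the norm is `≤ 2 ≤ 2 η`.
The second statement is the adjoint of the first (`adjoint_Kop`).
-/

namespace NPG
open Finset Pool.Nil

variable {G : Type} [Group G] {σ : MulAut G} {g : ℤ → G}
variable {H : Type} [NormedAddCommGroup H] [InnerProductSpace ℂ H] [CompleteSpace H]

namespace OAoAux

omit [CompleteSpace H] in
lemma norm_eq_le (V : H ≃ₗᵢ[ℂ] H) : ‖(V.toContinuousLinearEquiv : H →L[ℂ] H)‖ ≤ 1 := by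
  refine ContinuousLinearMap.opNorm_le_bound _ zero_le_one fun v => ?_
  rw [one_mul]
  exact (V.norm_map v).le

omit [CompleteSpace H] in
lemma mul_inv_eq (V : H ≃ₗᵢ[ℂ] H) : (V.toContinuousLinearEquiv : H →L[ℂ] H) *
    (V⁻¹.toContinuousLinearEquiv : H →L[ℂ] H) = 1 := by
  ext v
  exact V.apply_symm_apply v

omit [CompleteSpace H] in
lemma inv_mul_eq (V : H ≃ₗᵢ[ℂ] H) : (V⁻¹.toContinuousLinearEquiv : H →L[ℂ] H) *
    (V.toContinuousLinearEquiv : H →L[ℂ] H) = 1 := by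
  ext v
  exact V.symm_apply_apply v

lemma uo_conj (U : G →* (H ≃ₗᵢ[ℂ] H)) {α : MulAut G} {V : H ≃ₗᵢ[ℂ] H}
    (hV : ∀ x, U (α x) = V * U x * V⁻¹) (y : G) :
    (V⁻¹.toContinuousLinearEquiv : H →L[ℂ] H) * Uo U y *
      (V.toContinuousLinearEquiv : H →L[ℂ] H) = Uo U (α⁻¹ y) := by
  have h1 : U y = V * U (α⁻¹ y) * V⁻¹ := by
    rw [← hV, MulAut.apply_inv_self]
  have h2 : U (α⁻¹ y) = V⁻¹ * U y * V := by
    rw [h1]
    group
  ext v
  rw [Uo_apply, h2]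
  rfl

/-- core of the estimate -/
lemma core (U : G →* (H ≃ₗᵢ[ℂ] H)) (fr : Frame g) {α β : MulAut G} {V : H ≃ₗᵢ[ℂ] H}
    (hV : ∀ x, U (α x) = V * U x * V⁻¹) (k k' b d : ℕ) {c : ℝ} (hc : 0 ≤ c)
    (h : ∀ p ∈ bx (Mb fr k b d) ×ˢ bx (Mb fr k b d),
      ‖Db fr U k' b d * Uo U (α⁻¹ (β (zz fr d p))) - Db fr U k' b d‖ ≤ c) :
    ‖Kop fr U α k' b d * (1 - Kop fr U β k b d)‖ ≤ c := by
  set Vo : H →L[ℂ] H := (V.toContinuousLinearEquiv : H →L[ℂ] H) with hVo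
  set Vi : H →L[ℂ] H := (V⁻¹.toContinuousLinearEquiv : H →L[ℂ] H) with hVi
  have e1 : Vo * Vi = 1 := mul_inv_eq V
  have hne : (bx (Mb fr k b d) ×ˢ bx (Mb fr k b d)).Nonempty :=
    (bx_nonempty _).product (bx_nonempty _)
  have e3 : Db fr U k' b d * (Vi * (1 - Kop fr U β k b d) * Vo) =
      -avg (bx (Mb fr k b d) ×ˢ bx (Mb fr k b d))
        (fun p => Db fr U k' b d * Uo U (α⁻¹ (β (zz fr d p))) - Db fr U k' b d) := by
    rw [avg_sub, avg_const hne, ← RepAux.mul_avg]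
    have e4 : Vi * Kop fr U β k b d * Vo = avg (bx (Mb fr k b d) ×ˢ bx (Mb fr k b d))
        (fun p => Uo U (α⁻¹ (β (zz fr d p)))) := by
      unfold Kop
      rw [RepAux.mul_avg, RepAux.avg_mul]
      exact avg_congr fun p _ => uo_conj U hV _
    rw [mul_sub, sub_mul, mul_one, e4, hVi, hVo, inv_mul_eq V, mul_sub, mul_one, neg_sub]
  have e5 : Kop fr U α k' b d * (1 - Kop fr U β k b d) =
      Vo * ContinuousLinearMap.adjoint (Db fr U k' b d) *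
        (Db fr U k' b d * (Vi * (1 - Kop fr U β k b d) * Vo)) * Vi := by
    rw [kop_eq fr U hV k' b d, ← hVo, ← hVi]
    simp only [mul_assoc]
    rw [e1, mul_one]
  have e6 : ‖Db fr U k' b d * (Vi * (1 - Kop fr U β k b d) * Vo)‖ ≤ c := by
    rw [e3, norm_neg]
    exact norm_avg_le_const hc h
  have e7 : ‖ContinuousLinearMap.adjoint (Db fr U k' b d)‖ ≤ 1 := by
    rw [LinearIsometryEquiv.norm_map]
    exact norm_Db_le fr U k' b d
  rw [e5]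
  calc ‖Vo * ContinuousLinearMap.adjoint (Db fr U k' b d) *
        (Db fr U k' b d * (Vi * (1 - Kop fr U β k b d) * Vo)) * Vi‖
      ≤ ‖Vo‖ * ‖ContinuousLinearMap.adjoint (Db fr U k' b d)‖ *
        ‖Db fr U k' b d * (Vi * (1 - Kop fr U β k b d) * Vo)‖ * ‖Vi‖ :=
        (norm_mul_le _ _).trans (mul_le_mul_of_nonneg_right ((norm_mul_le _ _).trans
          (mul_le_mul_of_nonneg_right (norm_mul_le _ _) (norm_nonneg _))) (norm_nonneg _))
    _ ≤ 1 * 1 * c * 1 := by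
        have h1 : ‖Vo‖ ≤ 1 := norm_eq_le V
        have h2 : ‖Vi‖ ≤ 1 := norm_eq_le V⁻¹
        gcongr
    _ = c := by ring

/-- the adjoint statement -/
lemma adj (U : G →* (H ≃ₗᵢ[ℂ] H)) (fr : Frame g) (α β : MulAut G) (k k' b d : ℕ) :
    ‖(1 - Kop fr U β k b d) * Kop fr U α k' b d‖ =
      ‖Kop fr U α k' b d * (1 - Kop fr U β k b d)‖ := by
  have h1 : star (Kop fr U α k' b d) = Kop fr U α k' b d := adjoint_Kop fr U α k' b d
  have h2 : star (Kop fr U β k b d) = Kop fr U β k b d := adjoint_Kop fr U β k b d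
  rw [← norm_star (Kop fr U α k' b d * (1 - Kop fr U β k b d)), star_mul, star_sub, star_one,
    h1, h2]

end OAoAux

open OAoAux

theorem ao (sf : SFr σ g) (U : G →* (H ≃ₗᵢ[ℂ] H)) (W : H ≃ₗᵢ[ℂ] H)
    (hW : ∀ x, U (σ x) = W⁻¹ * U x * W) : ∃ C b0 : ℕ, 1 ≤ C ∧
    ∀ (b d k k' : ℕ) (α β : MulAut G), b0 ≤ b → 1 ≤ d → k ≤ k' → α ∈ FrG σ g k' →
      β ∈ FrG σ g k' →
      ‖Kop sf.fr U α k' b d * (1 - Kop sf.fr U β k b d)‖ ≤ C * ((2 : ℝ) ^ k / 2 ^ k') ∧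
      ‖(1 - Kop sf.fr U β k b d) * Kop sf.fr U α k' b d‖ ≤ C * ((2 : ℝ) ^ k / 2 ^ k') := by
  obtain ⟨K1, hK1, h1⟩ := db_abs sf.fr U
  obtain ⟨K2, hK2, h2⟩ := sm_fr sf
  obtain ⟨K3, b3, hK3, h3⟩ := zz_mem sf.fr
  obtain ⟨n, hn⟩ := pow_unbounded_of_one_lt (K2 * K2 * K3) (one_lt_two (α := ℝ))
  have hK22 : 1 ≤ K2 * K2 := one_le_mul_of_one_le_of_one_le hK2 hK2
  have hP : 1 ≤ K2 * K2 * K3 := one_le_mul_of_one_le_of_one_le hK22 hK3
  refine ⟨⌈2 * K1 * (K2 * K2 * K3)⌉₊, max b3 n, ?_, ?_⟩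
  · rw [Nat.one_le_ceil_iff]
    positivity
  intro b d k k' α β hb hd hk hα hβ
  rw [adj, and_self]
  obtain ⟨V, hV⟩ := frg_unit U W hW hα
  set r : ℝ := (2 : ℝ) ^ k / 2 ^ k' with hr
  have hr0 : 0 ≤ r := by positivity
  have hr1 : r ≤ 1 := div_le_one_of_le₀ (pow_le_pow_right₀ one_le_two hk) (by positivity)
  have hC : 2 * K1 * (K2 * K2 * K3) ≤ (⌈2 * K1 * (K2 * K2 * K3)⌉₊ : ℝ) := Nat.le_ceil _
  have hnb : K2 * K2 * K3 ≤ (2 : ℝ) ^ b :=
    hn.le.trans (pow_le_pow_right₀ one_le_two ((le_max_right _ _).trans hb))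
  have h2b : (0 : ℝ) < 2 ^ b := by positivity
  have hdel : K2 * K2 * (K3 * r / 2 ^ b) ≤ 1 := by
    rw [mul_div_assoc', div_le_one h2b]
    calc K2 * K2 * (K3 * r) = K2 * K2 * K3 * r := by ring
      _ ≤ K2 * K2 * K3 * 1 := mul_le_mul_of_nonneg_left hr1 (by linarith)
      _ ≤ 2 ^ b := by linarith
  have hdel0 : 0 ≤ K3 * r / 2 ^ b := by positivity
  have hmem : ∀ p ∈ bx (Mb sf.fr k b d) ×ˢ bx (Mb sf.fr k b d),
      α⁻¹ (β (zz sf.fr d p)) ∈ sf.fr.Sm 1 d ((2 : ℝ) ^ k') (K2 * K2 * K3 * r / 2 ^ b) := by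
    intro p hp
    rw [mem_product] at hp
    have e1 := h3 k k' b d p ((le_max_left _ _).trans hb) hd hk hp.1 hp.2
    rw [← hr] at e1
    have e2 := (h2 k' d _ β _ hd hdel0 (by nlinarith) hβ e1).1
    have e3 := (h2 k' d _ α _ hd (by positivity) (by linarith) hα e2).2
    have e4 : K2 * (K2 * (K3 * r / 2 ^ b)) = K2 * K2 * K3 * r / 2 ^ b := by ring
    rwa [e4] at e3
  by_cases hη : K2 * K2 * K3 * r ≤ 1
  · have h5 := core U sf.fr (β := β) hV k k' b d (c := K1 * (K2 * K2 * K3 * r)) (by positivity)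
      (fun p hp => (h1 k' b d _ _ hd (by positivity) hη (hmem p hp)).1)
    refine h5.trans ?_
    calc K1 * (K2 * K2 * K3 * r) ≤ 2 * K1 * (K2 * K2 * K3) * r := by
          have : 0 ≤ K1 * (K2 * K2 * K3 * r) := by positivity
          nlinarith
      _ ≤ _ := mul_le_mul_of_nonneg_right hC hr0
  · push Not at hη
    have h6 : ‖Kop sf.fr U α k' b d * (1 - Kop sf.fr U β k b d)‖ ≤ 2 := by
      have e1 := norm_Kop_le sf.fr U α k' b d
      have e2 := norm_Kop_le sf.fr U β k b d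
      have e3 : ‖(1 : H →L[ℂ] H) - Kop sf.fr U β k b d‖ ≤ 2 := by
        refine (norm_sub_le _ _).trans ?_
        have : ‖(1 : H →L[ℂ] H)‖ ≤ 1 := ContinuousLinearMap.norm_id_le
        linarith
      calc _ ≤ _ := norm_mul_le _ _
        _ ≤ 1 * 2 := mul_le_mul e1 e3 (norm_nonneg _) zero_le_one
        _ = 2 := one_mul _
    refine h6.trans ?_
    calc (2 : ℝ) ≤ 2 * K1 * (K2 * K2 * K3 * r) := by nlinarith
      _ = 2 * K1 * (K2 * K2 * K3) * r := by ring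
      _ ≤ _ := mul_le_mul_of_nonneg_right hC hr0

end NPG
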