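import Pool.Agent.NPG.GDefs

set_option autoImplicit false

/-!
# NPG / OBez : small elements divisible by the greatest common divisor

PROOF.  `x = kap X`, `X i = mo_i(gcd) z_i = W^(D - w_i) gcd z_i`.  Write `gcd z_i = p a_i + q b_i` with `0 ≤ a_i < q`, and put
`x1 i = W^(D - w_i) p a_i`, `x2 i = W^(D - w_i) q b_i`; `x1 + x2 = X`, `|x1 i| ≤ W^D p q ≤ W^D (p q / R) R^(w_i)`,
`|x2 i| ≤ (del + W^D p q / R) R^(w_i)`.  `kap x1 * kap x2 = kap (X + p x1 x2)` (`mul`), the last term is divisible by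
`mo(q)` (`p_dvd`, `x2` is) and small (`p_size`).  `quo` with `z = X + p x1 x2`, `z' = X`: `kap z * kap u = kap X` with `u`
divisible by `mo(q)` and small.  So `x = kap x1 * (kap x2 * kap u)`; `sm_mul`.  (All sizes `≤ 1` by the hypothesis on
`K`.)
-/

namespace NPG
open Finset Pool.Nil

variable {G : Type} [Group G] {g : ℤ → G}

/-- Bezout in the integers with a small first coefficient -/
private theorem bezout_int (p q : ℕ) (hq : 1 ≤ q) (z : ℤ) : ∃ a b : ℤ,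
    ((Nat.gcd p q : ℕ) : ℤ) * z = p * a + q * b ∧ 0 ≤ a ∧ a < q := by
  have hq0 : (0 : ℤ) < q := by exact_mod_cast hq
  have h := Nat.gcd_eq_gcd_ab p q
  refine ⟨(Nat.gcdA p q * z) % q, p * ((Nat.gcdA p q * z) / q) + Nat.gcdB p q * z, ?_,
    Int.emod_nonneg _ hq0.ne', Int.emod_lt_of_pos _ hq0⟩
  have h2 := Int.emod_add_mul_ediv (Nat.gcdA p q * z) q
  rw [h]
  linear_combination (-(p : ℤ)) * h2

private theorem bezout_pow {R : ℝ} (hR : 1 ≤ R) {w : ℕ} (hw : 1 ≤ w) : 1 ≤ R⁻¹ * R ^ w := by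
  have hR0 : 0 < R := by linarith
  rw [inv_mul_eq_div, le_div_iff₀ hR0, one_mul]
  exact le_self_pow₀ hR (by omega)

theorem bezout (fr : Frame g) : ∃ K : ℝ, 1 ≤ K ∧
    ∀ (p q : ℕ) (R del : ℝ) (x : G), 1 ≤ p → 1 ≤ q → 1 ≤ R → 0 ≤ del →
      K * (del + p * q / R) ≤ 1 → x ∈ fr.Sm 1 (Nat.gcd p q) R del →
      ∃ h1 h2 : G, x = h1 * h2 ∧ h1 ∈ fr.Sm 1 p R (K * (del + p * q / R)) ∧
        h2 ∈ fr.Sm 1 q R (K * (del + p * q / R)) := by
  have hC0 := fr.one_le_C0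
  obtain ⟨K2, hK2, hquo⟩ := fr.quo (1 + fr.C0) (by linarith)
  obtain ⟨K3, hK3⟩ := fr.exists_consts
  have hK31 := hK3.one_le
  have hW1 : (1 : ℝ) ≤ (fr.W : ℝ) := by exact_mod_cast fr.W_pos
  obtain ⟨V, hV⟩ : ∃ V : ℝ, V = (fr.W : ℝ) ^ fr.D := ⟨_, rfl⟩
  have hV1 : 1 ≤ V := by rw [hV]; exact one_le_pow₀ hW1
  obtain ⟨K, hK⟩ : ∃ K : ℝ, K = K3 * (1 + K2) * V := ⟨_, rfl⟩
  have hKV : V ≤ K := by
    rw [hK]
    refine le_mul_of_one_le_left (by linarith) ?_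
    nlinarith
  have hKV2 : K2 * V ≤ K := by
    rw [hK]
    refine mul_le_mul_of_nonneg_right ?_ (by linarith)
    nlinarith
  refine ⟨K, by linarith, ?_⟩
  intro p q R del x hp hq hR hdel hsm hx
  obtain ⟨X, rfl, -, hXd, hXs⟩ := hx
  have hR0 : 0 < R := by linarith
  have hp0 : (0 : ℝ) ≤ p := Nat.cast_nonneg _
  have hq0 : (0 : ℝ) ≤ q := Nat.cast_nonneg _
  obtain ⟨ε, hε⟩ : ∃ ε : ℝ, ε = del + p * q / R := ⟨_, rfl⟩
  have hpq : 0 ≤ (p : ℝ) * q / R := by positivity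
  have hε0 : 0 ≤ ε := by linarith
  rw [← hε] at hsm ⊢
  have hd1 : V * ε ≤ 1 := (mul_le_mul_of_nonneg_right hKV hε0).trans hsm
  have hd2 : K2 * V * ε ≤ 1 := (mul_le_mul_of_nonneg_right hKV2 hε0).trans hsm
  have hd0 : 0 ≤ V * ε := by positivity
  -- the decomposition of the coordinates
  have hch : ∀ i, ∃ y1 y2 : ℤ, X i = y1 + y2 ∧ (fr.mo p i : ℤ) ∣ y1 ∧ (fr.mo q i : ℤ) ∣ y2 ∧
      |(y1 : ℝ)| ≤ V * (p * q) := by
    intro i
    obtain ⟨z, hz⟩ := hXd i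
    obtain ⟨a, b, hab, ha0, ha1⟩ := bezout_int p q hq z
    refine ⟨(fr.W : ℤ) ^ (fr.D - fr.w i) * (p * a), (fr.W : ℤ) ^ (fr.D - fr.w i) * (q * b),
      ?_, ?_, ?_, ?_⟩
    · rw [hz]
      unfold Frame.mo md
      push_cast
      rw [mul_assoc, hab]
      ring
    · unfold Frame.mo md
      push_cast
      exact ⟨a, by ring⟩
    · unfold Frame.mo md
      push_cast
      exact ⟨b, by ring⟩
    · push_cast
      have ha0' : (0 : ℝ) ≤ a := by exact_mod_cast ha0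
      have ha1' : (a : ℝ) ≤ q := by exact_mod_cast ha1.le
      rw [abs_of_nonneg (by positivity), hV]
      refine mul_le_mul (pow_le_pow_right₀ hW1 (Nat.sub_le _ _)) ?_ (by positivity) (by positivity)
      exact mul_le_mul_of_nonneg_left ha1' hp0
  choose x1 x2 hsum hdv1 hdv2 hsz using hch
  have hX : X = x1 + x2 := funext hsum
  have hRw : ∀ i, 1 ≤ R⁻¹ * R ^ fr.w i := fun i => bezout_pow hR (fr.one_le_w i)
  have hRw0 : ∀ i, 0 ≤ R ^ fr.w i := fun i => pow_nonneg hR0.le _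
  have hx1 : ∀ i, |(x1 i : ℝ)| ≤ V * (p * q / R) * R ^ fr.w i := by
    intro i
    refine (hsz i).trans ?_
    have h1 : 0 ≤ V * (p * q) := by positivity
    calc V * (p * q) ≤ V * (p * q) * (R⁻¹ * R ^ fr.w i) := le_mul_of_one_le_right h1 (hRw i)
      _ = _ := by ring
  have hx1' : ∀ i, |(x1 i : ℝ)| ≤ V * ε * R ^ fr.w i := by
    intro i
    refine (hx1 i).trans (mul_le_mul_of_nonneg_right ?_ (hRw0 i))
    exact mul_le_mul_of_nonneg_left (by linarith) (by linarith)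
  have hx2' : ∀ i, |(x2 i : ℝ)| ≤ V * ε * R ^ fr.w i := by
    intro i
    have h1 : (x2 i : ℝ) = X i - x1 i := by
      rw [hsum i]
      push_cast
      ring
    have h2 : |(x2 i : ℝ)| ≤ |(X i : ℝ)| + |(x1 i : ℝ)| := by
      rw [h1]
      exact abs_sub _ _
    have h3 := hXs i
    have h4 := hx1 i
    have h5 : del * R ^ fr.w i ≤ V * del * R ^ fr.w i :=
      mul_le_mul_of_nonneg_right (le_mul_of_one_le_left hdel hV1) (hRw0 i)
    have h6 : V * ε * R ^ fr.w i = V * del * R ^ fr.w i + V * (p * q / R) * R ^ fr.w i := by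
      rw [hε]
      ring
    linarith
  -- the product
  have hP : ∀ i, |(fr.p x1 x2 i : ℝ)| ≤ fr.C0 * (V * ε) * R ^ fr.w i := by
    intro i
    refine (fr.p_size R (V * ε) (V * ε) x1 x2 hR hd0 hd1 hd0 hd1 hx1' hx2' i).trans ?_
    refine mul_le_mul_of_nonneg_right (mul_le_mul_of_nonneg_left ?_ (by linarith)) (hRw0 i)
    exact mul_le_of_le_one_right hd0 hd1
  have hdel1 : del ≤ 1 := by nlinarith
  obtain ⟨u, hu1, hu2, hu3, -⟩ := hquo R (V * ε) (X + fr.p x1 x2) X hR hd0 hd1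
    (fun i => by
      have h1 : |(((X + fr.p x1 x2) i : ℤ) : ℝ)| ≤ |(X i : ℝ)| + |(fr.p x1 x2 i : ℝ)| := by
        rw [Pi.add_apply, Int.cast_add]
        exact abs_add_le _ _
      have h2 := hXs i
      have h3 : del * R ^ fr.w i ≤ 1 * R ^ fr.w i := mul_le_mul_of_nonneg_right hdel1 (hRw0 i)
      have h4 := hP i
      have h5 : fr.C0 * (V * ε) * R ^ fr.w i ≤ fr.C0 * R ^ fr.w i :=
        mul_le_mul_of_nonneg_right (mul_le_of_le_one_right (by linarith) hd1) (hRw0 i)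
      have h6 : (1 + fr.C0) * R ^ fr.w i = 1 * R ^ fr.w i + fr.C0 * R ^ fr.w i := by ring
      rw [h6]
      linarith)
    (fun i => by
      have h1 : (X i : ℝ) - (((X + fr.p x1 x2) i : ℤ) : ℝ) = -(fr.p x1 x2 i : ℝ) := by
        rw [Pi.add_apply, Int.cast_add]
        ring
      rw [h1, abs_neg]
      refine (hP i).trans (mul_le_mul_of_nonneg_right ?_ (hRw0 i))
      exact mul_le_mul_of_nonneg_right (by linarith) hd0)
  have hm : kap fr.c x1 * kap fr.c x2 = kap fr.c (X + fr.p x1 x2) := by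
    rw [fr.mul, hX]
  have hw0 : ∀ (y : Fin fr.r → ℤ) (i : Fin fr.r), fr.w i < 1 → y i = 0 := by
    intro y i hi
    have := fr.one_le_w i
    omega
  have hmem1 : kap fr.c x1 ∈ fr.Sm 1 p R (V * ε) := ⟨x1, rfl, hw0 x1, hdv1, hx1'⟩
  have hmem2 : kap fr.c x2 ∈ fr.Sm 1 q R (V * ε) := ⟨x2, rfl, hw0 x2, hdv2, hx2'⟩
  have hmemu : kap fr.c u ∈ fr.Sm 1 q R (K2 * V * ε) := by
    refine ⟨u, rfl, hw0 u, hu3 q fun i => ?_, fun i => ?_⟩
    · have h1 : X i - (X + fr.p x1 x2) i = -(fr.p x1 x2 i) := by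
        rw [Pi.add_apply]
        ring
      rw [h1]
      exact (dvd_neg).2 (fr.p_dvd q x1 x2 (Or.inr hdv2) i)
    · refine (hu2 i).trans (le_of_eq ?_)
      ring
  refine ⟨kap fr.c x1, kap fr.c x2 * kap fr.c u, ?_, ?_, ?_⟩
  · rw [← mul_assoc, hm, hu1]
  · exact fr.Sm_mono hR0.le le_rfl (mul_le_mul_of_nonneg_right hKV hε0) hmem1
  · have h1 := hK3.sm_mul 1 q R (V * ε) (K2 * V * ε) _ _ hR hd0 hd1 (by positivity) hd2 hmem2 hmemu
    refine fr.Sm_mono hR0.le le_rfl (le_of_eq ?_) h1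
    rw [hK]
    ring

end NPG
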