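import Pool.Agent.NPG.GDefs

set_option autoImplicit false

/-!
# NPG / OBox : the operators `Db`, small elements, frames

PROOFS.
`db_abs`: like `Pool.Nil.ni` (file `Nil/Rep.lean`, `RepAux.shift`).  `h = kap a`, `a` divisible, `|a i| ≤ (η/2^b) 2^(k w_i)`.
`kap (mo t) * kap a = kap (mo t + a + p (mo t) a)` (`mul`), `|mo t i| ≤ 2^(-b) 2^(k w_i)` for `t` in the box, `p_size` with
`R = 2^k`, `del = 2^(-b)`, `del' = η 2^(-b)`: the shift `(a i + p (mo t) a i) / mo i` is an integer (`p_dvd`), depends on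
the `t j` with `w j < w i` only (`p_dep`), and is at most `(1 + C0) η x`, `x = 2^(k w_i) / (2^b mo_i) ≤ 2 ⌊x⌋ + 1`
(`le_two_floor`; `Mb` is the integer division, = `⌊x⌋`), also when the side is `0`.  `tri_shift`.  The second
statement with `kap a * kap (mo t)`.
`sm_fr`: `σ^m (kap y) = kap (y + q m y)` (`conj`, `q_size`, `q_dvd`, `R = 2^k`).  Conjugation by `g m`: `g m ∈ Sa 1 (2^k) K`
(`seq_small`), so `g m` and its inverse (`sa_inv`) are in `Sa 1 (K' 2^k) 1` (`K R^w ≤ (K R)^w`, `w ≥ 1`); `sm_conj` of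
`exists_consts` at the scale `K' 2^k` (`x ∈ Sm 1 d (2^k) del ⊆ Sm 1 d (K' 2^k) del`), then `Sm_down`.
The inverse of `conj (g m) * σ^m` is `x ↦ σ^(-m) ((g m)⁻¹ * x * g m)`.
`zz_mem`: `kap (mo t) ∈ Sm 1 d (2^k) (2^(-b))` for `t` in the box; `sm_inv`, `sm_mul` (`K 2^(-b) ≤ 1`); `Sm_up`.
`frg_unit`: `V = W^(-m)` and `V = U (g m) * W^(-m)`.
`kop_eq`: `Uo (α (x⁻¹ y)) = V (Uo x)⁻¹ (Uo y) V⁻¹`, `avg_product`, `adjoint_avg`, `adjoint_Uo`.
-/

namespace NPG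
open Finset Pool.Nil

variable {G : Type} [Group G] {σ : MulAut G} {g : ℤ → G}
variable {H : Type} [NormedAddCommGroup H] [InnerProductSpace ℂ H] [CompleteSpace H]

namespace OBoxAux

section size
variable (fr : Frame g)

lemma mo_pos' {d : ℕ} (hd : 1 ≤ d) (i : Fin fr.r) : (0 : ℝ) < fr.mo d i := by
  exact_mod_cast RepAux.mo_pos fr hd i

lemma pw (k b d : ℕ) (i : Fin fr.r) :
    ((2 ^ (k * fr.w i) : ℕ) : ℝ) / ((2 ^ b * fr.mo d i : ℕ) : ℝ) =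
      ((2 : ℝ) ^ k) ^ fr.w i / ((2 : ℝ) ^ b * fr.mo d i) := by
  push_cast
  rw [pow_mul]

/-- the elements of the box are small -/
lemma box_size (k b d : ℕ) (hd : 1 ≤ d) {t : Fin fr.r → ℤ} (ht : t ∈ bx (Mb fr k b d))
    (i : Fin fr.r) :
    |(((fr.mo d i : ℤ) * t i : ℤ) : ℝ)| ≤ 1 / 2 ^ b * ((2 : ℝ) ^ k) ^ fr.w i := by
  have hm := mo_pos' fr hd i
  have h1 : |(t i : ℝ)| ≤ (Mb fr k b d i : ℝ) := by exact_mod_cast mem_bx.mp ht i
  have h2 : (Mb fr k b d i : ℝ) ≤ ((2 : ℝ) ^ k) ^ fr.w i / ((2 : ℝ) ^ b * fr.mo d i) := by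
    rw [← pw]
    exact Nat.cast_div_le
  push_cast
  rw [abs_mul, abs_of_pos hm]
  calc (fr.mo d i : ℝ) * |(t i : ℝ)|
      ≤ fr.mo d i * (((2 : ℝ) ^ k) ^ fr.w i / ((2 : ℝ) ^ b * fr.mo d i)) :=
        mul_le_mul_of_nonneg_left (h1.trans h2) hm.le
    _ = 1 / 2 ^ b * ((2 : ℝ) ^ k) ^ fr.w i := by
        field_simp

lemma side_le (k b d : ℕ) (hd : 1 ≤ d) (i : Fin fr.r) :
    1 / 2 ^ b * ((2 : ℝ) ^ k) ^ fr.w i ≤ fr.mo d i * (2 * (Mb fr k b d i : ℝ) + 1) := by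
  have hm := mo_pos' fr hd i
  have hm' : 0 < fr.mo d i := RepAux.mo_pos fr hd i
  have h1 := Nat.lt_mul_div_succ (2 ^ (k * fr.w i)) (Nat.mul_pos (pow_pos (by norm_num) b) hm' :
    0 < 2 ^ b * fr.mo d i)
  have h2 : ((2 : ℝ) ^ k) ^ fr.w i < 2 ^ b * fr.mo d i * ((Mb fr k b d i : ℝ) + 1) := by
    rw [← pow_mul]
    exact_mod_cast h1
  have h3 : (0 : ℝ) ≤ Mb fr k b d i := Nat.cast_nonneg _
  rw [one_div, inv_mul_le_iff₀ (by positivity)]
  calc ((2 : ℝ) ^ k) ^ fr.w i ≤ 2 ^ b * fr.mo d i * ((Mb fr k b d i : ℝ) + 1) := h2.le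
    _ ≤ 2 ^ b * fr.mo d i * (2 * (Mb fr k b d i : ℝ) + 1) :=
        mul_le_mul_of_nonneg_left (by linarith) (by positivity)
    _ = _ := by ring

end size

lemma shift (fr : Frame g) (U : G →* (H ≃ₗᵢ[ℂ] H)) {k b d : ℕ} {et K1 : ℝ} (hd : 1 ≤ d)
    (het : 0 ≤ et) (hK1 : 0 ≤ K1) (q : (Fin fr.r → ℤ) → Fin fr.r → ℤ)
    (hdep : ∀ t t' i, (∀ j, fr.w j < fr.w i → t j = t' j) → q t i = q t' i)
    (hdvd : ∀ t i, (fr.mo d i : ℤ) ∣ q t i)
    (hsize : ∀ t ∈ bx (Mb fr k b d), ∀ i,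
      |(q t i : ℝ)| ≤ K1 * et * (1 / 2 ^ b * ((2 : ℝ) ^ k) ^ fr.w i)) :
    ‖avg (bx (Mb fr k b d)) (fun t => Uo U (kap fr.c (fun i => (fr.mo d i : ℤ) * t i + q t i))) -
      Db fr U k b d‖ ≤ 2 * fr.r * (K1 * et) := by
  have hps : ∀ t i, (fr.mo d i : ℤ) * (q t i / (fr.mo d i : ℤ)) = q t i := fun t i =>
    Int.mul_ediv_cancel' (hdvd t i)
  have h := tri_shift (E := H →L[ℂ] H) fr.w (Mb fr k b d) (fun t i => q t i / (fr.mo d i : ℤ))
    (fun t t' i hh => by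
      show q t i / (fr.mo d i : ℤ) = q t' i / (fr.mo d i : ℤ)
      rw [hdep t t' i hh]) (del := K1 * et) (mul_nonneg hK1 het)
    (fun t ht i => by
      have hm := mo_pos' fr hd i
      have h3 : (fr.mo d i : ℝ) * |((q t i / (fr.mo d i : ℤ) : ℤ) : ℝ)| = |(q t i : ℝ)| := by
        rw [← abs_of_pos hm, ← abs_mul]
        congr 1
        exact_mod_cast hps t i
      have h4 := hsize t ht i
      have h5 := side_le fr k b d hd i
      have h6 : K1 * et * (1 / 2 ^ b * ((2 : ℝ) ^ k) ^ fr.w i) ≤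
          K1 * et * (fr.mo d i * (2 * (Mb fr k b d i : ℝ) + 1)) :=
        mul_le_mul_of_nonneg_left h5 (mul_nonneg hK1 het)
      have h7 : (fr.mo d i : ℝ) * |((q t i / (fr.mo d i : ℤ) : ℤ) : ℝ)| ≤
          fr.mo d i * (K1 * et * (2 * (Mb fr k b d i : ℝ) + 1)) := by
        rw [h3]
        refine h4.trans (h6.trans (le_of_eq ?_))
        ring
      exact le_of_mul_le_mul_left h7 hm)
    (Φ := fun t => Uo U (kap fr.c (fun i => (fr.mo d i : ℤ) * t i))) (C := 1)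
    (fun t => norm_Uo_le U _)
  rw [mul_one] at h
  refine le_trans (le_of_eq ?_) h
  congr 1
  unfold Db BM
  congr 1
  apply avg_congr
  intro t ht
  congr 2
  funext i
  simp only [Pi.add_apply]
  rw [mul_add, hps t i]

lemma two_pow_ge (n : ℕ) : (1 : ℝ) ≤ 2 ^ n := one_le_pow₀ (by norm_num)

lemma inv_two_le (b : ℕ) : (1 : ℝ) / 2 ^ b ≤ 1 := by
  rw [div_le_one (by positivity)]
  exact two_pow_ge b

/-- enlarging the scale -/
lemma sa_one (fr : Frame g) {R L : ℝ} (hR : 0 ≤ R) (hL : 1 ≤ L) {x : G}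
    (hx : x ∈ fr.Sa 1 R L) : x ∈ fr.Sa 1 (L * R) 1 := by
  obtain ⟨y, h1, h2, h3⟩ := hx
  refine ⟨y, h1, h2, fun i => (h3 i).trans ?_⟩
  rw [mul_pow, one_mul]
  exact mul_le_mul_of_nonneg_right (le_self_pow₀ hL (by have := fr.one_le_w i; omega))
    (pow_nonneg hR _)

lemma sm_scale (fr : Frame g) {R R' del : ℝ} {j Q : ℕ} (hR : 0 ≤ R) (h : R ≤ R') (hd : 0 ≤ del)
    {x : G} (hx : x ∈ fr.Sm j Q R del) : x ∈ fr.Sm j Q R' del := by
  obtain ⟨y, h1, h2, h3, h4⟩ := hx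
  exact ⟨y, h1, h2, h3, fun i => (h4 i).trans
    (mul_le_mul_of_nonneg_left (pow_le_pow_left₀ hR h _) hd)⟩

/-- conjugation by the elements of the sequence -/
lemma conj_g (fr : Frame g) : ∃ K : ℝ, 1 ≤ K ∧ ∀ (k d : ℕ) (del : ℝ) (m : ℤ) (x : G),
    0 ≤ del → del ≤ 1 → |m| ≤ 2 ^ k → x ∈ fr.Sm 1 d ((2 : ℝ) ^ k) del →
    g m * x * (g m)⁻¹ ∈ fr.Sm 1 d ((2 : ℝ) ^ k) (K * del) ∧
    (g m)⁻¹ * x * g m ∈ fr.Sm 1 d ((2 : ℝ) ^ k) (K * del) := by
  obtain ⟨K2, hK2, hseq⟩ := fr.seq_small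
  obtain ⟨K3, hC⟩ := fr.exists_consts
  have hK3 := hC.one_le
  obtain ⟨L, hLdef⟩ : ∃ L, L = K3 * K2 := ⟨_, rfl⟩
  have hL : 1 ≤ L := by
    rw [hLdef]
    nlinarith
  refine ⟨K3 * L ^ fr.D, ?_, ?_⟩
  · have : 1 ≤ L ^ fr.D := one_le_pow₀ hL
    nlinarith
  · intro k d del m x hd0 hd1 hm hx
    have hR1 : (1 : ℝ) ≤ 2 ^ k := two_pow_ge k
    have hR0 : (0 : ℝ) < 2 ^ k := by positivity
    have hRL : (2 : ℝ) ^ k ≤ L * 2 ^ k := by nlinarith
    have hRL1 : 1 ≤ L * (2 : ℝ) ^ k := hR1.trans hRL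
    have hm' : |(m : ℝ)| ≤ 1 * 2 ^ k := by
      rw [one_mul]
      exact_mod_cast hm
    have h1 := (hseq (2 ^ k) 1 m hR1 zero_le_one le_rfl hm').1
    rw [mul_one] at h1
    have h2 := sa_one fr hR0.le hK2 h1
    have hR2 : 1 ≤ K2 * (2 : ℝ) ^ k := by nlinarith
    have h3 := hC.sa_inv 1 (K2 * 2 ^ k) 1 _ hR2 zero_le_one le_rfl h2
    rw [mul_one] at h3
    have h4 := sa_one fr (by linarith) hK3 h3
    rw [← mul_assoc, ← hLdef] at h4
    have h5 : g m ∈ fr.Sa 1 (L * 2 ^ k) 1 := by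
      obtain ⟨y, y1, y2, y3⟩ := h2
      refine ⟨y, y1, y2, fun i => (y3 i).trans ?_⟩
      refine mul_le_mul_of_nonneg_left (pow_le_pow_left₀ (by positivity) ?_ _) zero_le_one
      rw [hLdef]
      have : 0 ≤ K2 * (2 : ℝ) ^ k := by positivity
      nlinarith
    have hx' := sm_scale fr hR0.le hRL hd0 hx
    have fin : ∀ z, z ∈ fr.Sm 1 d (L * 2 ^ k) (K3 * del) →
        z ∈ fr.Sm 1 d (2 ^ k) (K3 * L ^ fr.D * del) := by
      intro z hz
      have h6 := fr.Sm_down hR1 hRL (mul_nonneg (by linarith) hd0) hz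
      have e : L * (2 : ℝ) ^ k / 2 ^ k = L := by
        field_simp
      rw [e] at h6
      have e2 : K3 * del * L ^ fr.D = K3 * L ^ fr.D * del := by ring
      rwa [e2] at h6
    constructor
    · have h6 := hC.sm_conj 1 d (L * 2 ^ k) del x (g m)⁻¹ hRL1 hd0 hd1 hx' h4
      rw [inv_inv] at h6
      exact fin _ h6
    · exact fin _ (hC.sm_conj 1 d (L * 2 ^ k) del x (g m) hRL1 hd0 hd1 hx' h5)

/-- the automorphism -/
lemma sig_sm (sf : SFr σ g) (k d : ℕ) (del : ℝ) (m : ℤ) (x : G) (hd0 : 0 ≤ del) (hd1 : del ≤ 1)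
    (hm : |m| ≤ 2 ^ k) (hx : x ∈ sf.fr.Sm 1 d ((2 : ℝ) ^ k) del) :
    (σ ^ m) x ∈ sf.fr.Sm 1 d ((2 : ℝ) ^ k) ((1 + sf.C1) * del) := by
  obtain ⟨y, rfl, h2, h3, h4⟩ := hx
  have hm' : |(m : ℝ)| ≤ 2 ^ k := by exact_mod_cast hm
  refine ⟨y + sf.q m y, sf.conj m y, fun i hi => ?_, fun i => ?_, fun i => ?_⟩
  · have := sf.fr.one_le_w i
    omega
  · exact dvd_add (h3 i) (sf.q_dvd d m y h3 i)
  · have h5 := sf.q_size (2 ^ k) del m y (two_pow_ge k) hd0 hd1 hm' h4 i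
    have h6 := h4 i
    rw [Pi.add_apply]
    push_cast
    refine (abs_add_le _ _).trans ?_
    calc _ ≤ del * ((2 : ℝ) ^ k) ^ sf.fr.w i + sf.C1 * del * ((2 : ℝ) ^ k) ^ sf.fr.w i :=
          add_le_add h6 h5
      _ = _ := by ring

lemma box_mem (fr : Frame g) {k b d : ℕ} (hd : 1 ≤ d) {t : Fin fr.r → ℤ}
    (ht : t ∈ bx (Mb fr k b d)) :
    kap fr.c (fun i => (fr.mo d i : ℤ) * t i) ∈ fr.Sm 1 d ((2 : ℝ) ^ k) (1 / 2 ^ b) :=
  ⟨_, rfl, fun i hi => by have := fr.one_le_w i; omega, fun i => Dvd.intro _ rfl,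
    fun i => box_size fr k b d hd ht i⟩

lemma uo_conj (U : G →* (H ≃ₗᵢ[ℂ] H)) {α : MulAut G} {V : H ≃ₗᵢ[ℂ] H}
    (hV : ∀ x, U (α x) = V * U x * V⁻¹) (x : G) :
    Uo U (α x) = (V.toContinuousLinearEquiv : H →L[ℂ] H) * Uo U x *
      (V⁻¹.toContinuousLinearEquiv : H →L[ℂ] H) := by
  ext v
  rw [Uo_apply, hV]
  rfl

end OBoxAux

open OBoxAux

/-- absorption of small elements -/
theorem db_abs (fr : Frame g) (U : G →* (H ≃ₗᵢ[ℂ] H)) : ∃ K : ℝ, 1 ≤ K ∧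
    ∀ (k b d : ℕ) (η : ℝ) (h : G), 1 ≤ d → 0 ≤ η → η ≤ 1 →
      h ∈ fr.Sm 1 d ((2 : ℝ) ^ k) (η / 2 ^ b) →
      ‖Db fr U k b d * Uo U h - Db fr U k b d‖ ≤ K * η ∧
      ‖Uo U h * Db fr U k b d - Db fr U k b d‖ ≤ K * η := by
  have hC0 := fr.one_le_C0
  have hr0 : (0 : ℝ) ≤ fr.r := Nat.cast_nonneg _
  refine ⟨1 + 2 * fr.r * (1 + fr.C0), by nlinarith, ?_⟩
  rintro k b d η h hd hη hη1 ⟨a, rfl, ha0, hadvd, hasize⟩
  have hb1 := inv_two_le b
  have hb0 : (0 : ℝ) ≤ 1 / 2 ^ b := by positivity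
  have hR0 : ∀ i, (0 : ℝ) ≤ ((2 : ℝ) ^ k) ^ fr.w i := fun i => by positivity
  have hfin : 2 * (fr.r : ℝ) * ((1 + fr.C0) * η) ≤ (1 + 2 * fr.r * (1 + fr.C0)) * η := by
    nlinarith
  have hη0 : 0 ≤ η / 2 ^ b := by positivity
  have hη2 : η / 2 ^ b ≤ 1 := by
    have e : η / 2 ^ b = η * (1 / 2 ^ b) := by ring
    rw [e]
    exact mul_le_one₀ hη1 hb0 hb1
  have hprod : η / 2 ^ b * (1 / 2 ^ b) ≤ η * (1 / 2 ^ b) := by
    have e : η / 2 ^ b * (1 / 2 ^ b) = η * (1 / 2 ^ b) * (1 / 2 ^ b) := by ring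
    rw [e]
    exact mul_le_of_le_one_right (by positivity) hb1
  have hp : ∀ i, fr.C0 * (η / 2 ^ b * (1 / 2 ^ b)) * ((2 : ℝ) ^ k) ^ fr.w i ≤
      fr.C0 * (η * (1 / 2 ^ b)) * ((2 : ℝ) ^ k) ^ fr.w i := fun i =>
    mul_le_mul_of_nonneg_right (mul_le_mul_of_nonneg_left hprod (by linarith)) (hR0 i)
  constructor
  · refine le_trans ?_ hfin
    have h := shift fr U (k := k) (b := b) hd hη (K1 := 1 + fr.C0) (by linarith)
      (fun t i => a i + fr.p (fun i => (fr.mo d i : ℤ) * t i) a i)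
      (fun t t' i hh => by
        show a i + fr.p (fun i => (fr.mo d i : ℤ) * t i) a i =
          a i + fr.p (fun i => (fr.mo d i : ℤ) * t' i) a i
        rw [fr.p_dep _ (fun i => (fr.mo d i : ℤ) * t' i) a a i
          fun k hk => ⟨by show _ * t k = _ * t' k; rw [hh k hk], rfl⟩])
      (fun t i => dvd_add (hadvd i) (fr.p_dvd d _ _ (Or.inr hadvd) i))
      (fun t ht i => by
        have h1 := hasize i
        have h2 := fr.p_size (2 ^ k) (1 / 2 ^ b) (η / 2 ^ b) (fun i => (fr.mo d i : ℤ) * t i) a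
          (two_pow_ge k) hb0 hb1 hη0 hη2 (box_size fr k b d hd ht) hasize i
        rw [mul_comm (1 / 2 ^ b : ℝ) (η / 2 ^ b)] at h2
        have h3 := h2.trans (hp i)
        push_cast
        refine (abs_add_le _ _).trans ?_
        calc _ ≤ η / 2 ^ b * ((2 : ℝ) ^ k) ^ fr.w i +
              fr.C0 * (η * (1 / 2 ^ b)) * ((2 : ℝ) ^ k) ^ fr.w i := add_le_add h1 h3
          _ = _ := by ring)
    refine le_trans (le_of_eq ?_) h
    congr 2
    unfold Db BM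
    rw [RepAux.avg_mul]
    apply avg_congr
    intro t ht
    rw [← Uo_mul, fr.mul]
    congr 2
    funext i
    simp only [Pi.add_apply]
    ring
  · refine le_trans ?_ hfin
    have h := shift fr U (k := k) (b := b) hd hη (K1 := 1 + fr.C0) (by linarith)
      (fun t i => a i + fr.p a (fun i => (fr.mo d i : ℤ) * t i) i)
      (fun t t' i hh => by
        show a i + fr.p a (fun i => (fr.mo d i : ℤ) * t i) i =
          a i + fr.p a (fun i => (fr.mo d i : ℤ) * t' i) i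
        rw [fr.p_dep a a _ (fun i => (fr.mo d i : ℤ) * t' i) i
          fun k hk => ⟨rfl, by show _ * t k = _ * t' k; rw [hh k hk]⟩])
      (fun t i => dvd_add (hadvd i) (fr.p_dvd d _ _ (Or.inl hadvd) i))
      (fun t ht i => by
        have h1 := hasize i
        have h2 := fr.p_size (2 ^ k) (η / 2 ^ b) (1 / 2 ^ b) a (fun i => (fr.mo d i : ℤ) * t i)
          (two_pow_ge k) hη0 hη2 hb0 hb1 hasize (box_size fr k b d hd ht) i
        have h3 := h2.trans (hp i)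
        push_cast
        refine (abs_add_le _ _).trans ?_
        calc _ ≤ η / 2 ^ b * ((2 : ℝ) ^ k) ^ fr.w i +
              fr.C0 * (η * (1 / 2 ^ b)) * ((2 : ℝ) ^ k) ^ fr.w i := add_le_add h1 h3
          _ = _ := by ring)
    refine le_trans (le_of_eq ?_) h
    congr 2
    unfold Db BM
    rw [RepAux.mul_avg]
    apply avg_congr
    intro t ht
    rw [← Uo_mul, fr.mul]
    congr 2
    funext i
    simp only [Pi.add_apply]
    ring

/-- small elements in the frames -/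
theorem sm_fr (sf : SFr σ g) : ∃ K : ℝ, 1 ≤ K ∧
    ∀ (k d : ℕ) (del : ℝ) (α : MulAut G) (x : G), 1 ≤ d → 0 ≤ del → K * del ≤ 1 →
      α ∈ FrG σ g k → x ∈ sf.fr.Sm 1 d ((2 : ℝ) ^ k) del →
      α x ∈ sf.fr.Sm 1 d ((2 : ℝ) ^ k) (K * del) ∧ α⁻¹ x ∈ sf.fr.Sm 1 d ((2 : ℝ) ^ k) (K * del) := by
  obtain ⟨K1, hK1, hc⟩ := conj_g sf.fr
  have hC1 := sf.one_le_C1
  obtain ⟨S, hS⟩ : ∃ S, S = 1 + sf.C1 := ⟨_, rfl⟩
  have hS1 : 1 ≤ S := by linarith
  refine ⟨K1 * S, by nlinarith, ?_⟩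
  rintro k d del α x hd hd0 hd1 ⟨m, hm, hα⟩ hx
  have hS0 : 0 ≤ S * del := by positivity
  have hK0 : 0 ≤ K1 * del := by positivity
  have hSd : S * del ≤ 1 := by
    have : S * del ≤ K1 * (S * del) := by nlinarith
    linarith [mul_assoc K1 S del]
  have hKd : K1 * del ≤ 1 := by
    have : K1 * del ≤ S * (K1 * del) := by nlinarith
    linarith [mul_assoc K1 S del, mul_left_comm S K1 del]
  have hdel : del ≤ 1 := by nlinarith
  have hm2 : |(-m)| ≤ 2 ^ k := by rwa [abs_neg]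
  have hmono : ∀ {z : G} {c : ℝ}, c ≤ K1 * S * del → z ∈ sf.fr.Sm 1 d ((2 : ℝ) ^ k) c →
      z ∈ sf.fr.Sm 1 d ((2 : ℝ) ^ k) (K1 * S * del) := fun hc hz =>
    sf.fr.Sm_mono (by positivity) le_rfl hc hz
  have hle : (1 + sf.C1) * del ≤ K1 * S * del := by
    rw [← hS]
    have : S * del ≤ K1 * (S * del) := by nlinarith
    linarith [mul_assoc K1 S del]
  rcases hα with rfl | rfl
  · constructor
    · exact hmono hle (sig_sm sf k d del m x hd0 hdel hm hx)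
    · rw [← zpow_neg]
      exact hmono hle (sig_sm sf k d del (-m) x hd0 hdel hm2 hx)
  · constructor
    · have h1 := sig_sm sf k d del m x hd0 hdel hm hx
      rw [← hS] at h1
      have h2 := (hc k d (S * del) m _ hS0 hSd hm h1).1
      rw [MulAut.mul_apply, MulAut.conj_apply]
      rw [← mul_assoc K1 S del] at h2
      exact h2
    · have h1 := (hc k d del m x hd0 hdel hm hx).2
      have h2 := sig_sm sf k d (K1 * del) (-m) _ hK0 hKd hm2 h1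
      rw [← hS] at h2
      rw [mul_inv_rev, MulAut.mul_apply, ← zpow_neg]
      have e : (MulAut.conj (g m))⁻¹ x = (g m)⁻¹ * x * g m := by
        rw [← map_inv, MulAut.conj_apply, inv_inv]
      rw [e]
      refine hmono (le_of_eq ?_) h2
      ring

/-- the elements of `b* b` are small -/
theorem zz_mem (fr : Frame g) : ∃ (K : ℝ) (b0 : ℕ), 1 ≤ K ∧
    ∀ (k k' b d : ℕ) (p : (Fin fr.r → ℤ) × (Fin fr.r → ℤ)), b0 ≤ b → 1 ≤ d → k ≤ k' →
      p.1 ∈ bx (Mb fr k b d) → p.2 ∈ bx (Mb fr k b d) →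
      zz fr d p ∈ fr.Sm 1 d ((2 : ℝ) ^ k') (K * (2 ^ k / 2 ^ k') / 2 ^ b) := by
  obtain ⟨K3, hC⟩ := fr.exists_consts
  have hK3 := hC.one_le
  obtain ⟨b0, hb0⟩ := pow_unbounded_of_one_lt K3 (by norm_num : (1 : ℝ) < 2)
  refine ⟨K3 * (K3 + 1), b0, by nlinarith, ?_⟩
  intro k k' b d p hb hd hk h1 h2
  have hR1 : (1 : ℝ) ≤ 2 ^ k := two_pow_ge k
  have hb1 := inv_two_le b
  have hbp : (0 : ℝ) ≤ 1 / 2 ^ b := by positivity
  have hKb : K3 * (1 / 2 ^ b) ≤ 1 := by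
    rw [mul_one_div, div_le_one (by positivity)]
    exact hb0.le.trans (pow_le_pow_right₀ (by norm_num) hb)
  have h3 := hC.sm_inv 1 d (2 ^ k) (1 / 2 ^ b) _ hR1 hbp hb1 (box_mem fr hd h2)
  have h4 := hC.sm_mul 1 d (2 ^ k) (K3 * (1 / 2 ^ b)) (1 / 2 ^ b) _ _ hR1 (by positivity) hKb hbp
    hb1 h3 (box_mem fr hd h1)
  have h5 := fr.Sm_up hR1 (pow_le_pow_right₀ (by norm_num) hk : (2 : ℝ) ^ k ≤ 2 ^ k')
    (by positivity) h4
  unfold zz
  have e : K3 * (K3 * (1 / 2 ^ b) + 1 / 2 ^ b) * ((2 : ℝ) ^ k / 2 ^ k') =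
      K3 * (K3 + 1) * (2 ^ k / 2 ^ k') / 2 ^ b := by ring
  rw [e] at h5
  exact h5

/-- the frames are implemented by unitaries -/
theorem frg_unit (U : G →* (H ≃ₗᵢ[ℂ] H)) (W : H ≃ₗᵢ[ℂ] H) (hW : ∀ x, U (σ x) = W⁻¹ * U x * W)
    {n : ℕ} {α : MulAut G} (hα : α ∈ FrG σ g n) :
    ∃ V : H ≃ₗᵢ[ℂ] H, ∀ x, U (α x) = V * U x * V⁻¹ := by
  have hinv : ∀ x, U (σ⁻¹ x) = W * U x * W⁻¹ := by
    intro x
    have h := hW (σ⁻¹ x)
    rw [MulAut.apply_inv_self] at h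
    rw [h]
    group
  have hpow : ∀ (m : ℤ) (x : G), U ((σ ^ m) x) = W ^ (-m) * U x * (W ^ (-m))⁻¹ := by
    intro m
    induction m using Int.induction_on with
    | zero =>
      intro x
      simp
    | succ m ih =>
      intro x
      rw [zpow_add, zpow_one, MulAut.mul_apply, ih, hW]
      have e : W ^ (-((m : ℤ) + 1)) = W ^ (-(m : ℤ)) * W⁻¹ := by
        rw [← zpow_neg_one, ← zpow_add]
        congr 1
        ring
      rw [e]
      group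
    | pred m ih =>
      intro x
      rw [zpow_sub, zpow_one, MulAut.mul_apply, ih, hinv]
      have e : W ^ (-(-(m : ℤ) - 1)) = W ^ (-(-(m : ℤ))) * W := by
        rw [← zpow_add_one]
        congr 1
        ring
      rw [e]
      group
  obtain ⟨m, -, rfl | rfl⟩ := hα
  · exact ⟨W ^ (-m), hpow m⟩
  · refine ⟨U (g m) * W ^ (-m), fun x => ?_⟩
    rw [MulAut.mul_apply, MulAut.conj_apply, map_mul, map_mul, map_inv, hpow]
    group

/-- `Kop` is conjugate to `b* b` -/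
theorem kop_eq (fr : Frame g) (U : G →* (H ≃ₗᵢ[ℂ] H)) {α : MulAut G} {V : H ≃ₗᵢ[ℂ] H}
    (hV : ∀ x, U (α x) = V * U x * V⁻¹) (k b d : ℕ) :
    Kop fr U α k b d = (V.toContinuousLinearEquiv : H →L[ℂ] H) *
      (ContinuousLinearMap.adjoint (Db fr U k b d) * Db fr U k b d) *
        (V⁻¹.toContinuousLinearEquiv : H →L[ℂ] H) := by
  unfold Db BM Kop
  rw [ResidAux.adjoint_avg, RepAux.mul_avg, RepAux.mul_avg, RepAux.avg_mul, avg_product]
  apply avg_congr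
  intro a ha
  rw [RepAux.avg_mul, RepAux.mul_avg, RepAux.avg_mul]
  apply avg_congr
  intro t ht
  rw [uo_conj U hV, adjoint_Uo, ← Uo_mul]
  rfl

theorem kop_one (fr : Frame g) (U : G →* (H ≃ₗᵢ[ℂ] H)) (k b d : ℕ) :
    Kop fr U 1 k b d = ContinuousLinearMap.adjoint (Db fr U k b d) * Db fr U k b d := by
  have h := kop_eq fr U (α := 1) (V := 1) (fun x => by simp) k b d
  rw [h]
  ext v
  rfl

theorem norm_Db_le (fr : Frame g) (U : G →* (H ≃ₗᵢ[ℂ] H)) (k b d : ℕ) :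
    ‖Db fr U k b d‖ ≤ 1 := norm_BM_le _ _ _ _

theorem norm_Kop_le (fr : Frame g) (U : G →* (H ≃ₗᵢ[ℂ] H)) (α : MulAut G) (k b d : ℕ) :
    ‖Kop fr U α k b d‖ ≤ 1 := by
  unfold Kop
  exact norm_avg_le_const zero_le_one fun p _ => norm_Uo_le U _

theorem adjoint_Kop (fr : Frame g) (U : G →* (H ≃ₗᵢ[ℂ] H)) (α : MulAut G) (k b d : ℕ) :
    ContinuousLinearMap.adjoint (Kop fr U α k b d) = Kop fr U α k b d := by
  unfold Kop
  rw [ResidAux.adjoint_avg, avg_product, avg_product, avg_comm]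
  apply avg_congr
  intro a ha
  apply avg_congr
  intro t ht
  rw [adjoint_Uo, ← map_inv]
  congr 2
  unfold zz
  rw [mul_inv_rev, inv_inv]

end NPG
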