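import Pool.Agent.NPG.OBox
import Pool.Agent.Nil.Coset

set_option autoImplicit false

/-!
# NPG / OCos : coset averages for the operators `Db`

PROOF: the proof of `Pool.Nil.coset` (file `Nil/Coset.lean`) with the sides `Mb k b q i = ⌊2^(k w_i) / (2^b mo_i(q))⌋`
in place of `⌊R^w / mo⌋`.  For fixed `z` (`0 ≤ z_i < n`), `y = mo(q) z`, `t` in the box of `q n`:
`kap (mo(qn) t) * kap y = kap (mo(qn) t + y + p)`, `p` divisible by `mo(qn)` (`p_dvd`), depending on the `t j` of smaller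
weight only, of size `≤ C0 2^(-b) (W^D q n / 2^k) 2^(k w_i)` (`p_size`, `R = 2^k`, `del = 2^(-b)`, `del' = W^D q n / 2^k`), i.e.
the shift `p / mo(qn)` is at most `C0 (W^D q n / 2^k) (2 M_i + 1)`; `tri_shift`.  Then the average over `t` and `z` of
`Uo (kap (mo(q) (n t + z)))` is compared with the box of `q` (sides `n M ≤ M' < n (M + 1)`): relative difference
`≤ K n / (2 M' + 1) ≤ K n mo(q) 2^b / 2^k`.  If the right hand side is `≥ 2` nothing is to be proved.
Second statement: the same with `kap y * kap (mo(qn) t)`.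
-/

namespace NPG
open Finset Pool.Nil Pool.Nil.CosetAux

variable {G : Type} [Group G] {g : ℤ → G}
variable {H : Type} [NormedAddCommGroup H] [InnerProductSpace ℂ H] [CompleteSpace H]

private lemma OCos_rel (fr : Frame g) (k b q : ℕ) {n : ℕ} (hn : 1 ≤ n) (i : Fin fr.r) :
    n * Mb fr k b (q * n) i ≤ Mb fr k b q i ∧ Mb fr k b q i < n * (Mb fr k b (q * n) i + 1) := by
  have h1 : Mb fr k b (q * n) i = Mb fr k b q i / n := by
    unfold Mb
    rw [mo_mul, Nat.div_div_eq_div_mul]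
    congr 1
    ring
  rw [h1]
  exact ⟨Nat.mul_div_le _ _, Nat.lt_mul_div_succ _ (by omega)⟩

private lemma OCos_ge (fr : Frame g) (k b : ℕ) {q : ℕ} (hq : 1 ≤ q) (i : Fin fr.r) :
    ((2 : ℝ) ^ k) ^ fr.w i ≤ (2 : ℝ) ^ b * (fr.mo q i : ℝ) * (2 * Mb fr k b q i + 1) := by
  have hm : 0 < 2 ^ b * fr.mo q i := Nat.mul_pos (by positivity) (RepAux.mo_pos fr hq i)
  have h1 : 2 ^ (k * fr.w i) < (2 ^ b * fr.mo q i) * (Mb fr k b q i + 1) :=
    Nat.lt_mul_div_succ _ hm
  have h2 : ((2 : ℝ) ^ k) ^ fr.w i ≤ ((2 : ℝ) ^ b * fr.mo q i) * (Mb fr k b q i + 1) := by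
    rw [← pow_mul]
    exact_mod_cast h1.le
  by_cases h0 : Mb fr k b q i = 0
  · rw [h0] at h2 ⊢
    simpa using h2
  · have h3 : (1 : ℝ) ≤ Mb fr k b q i := by exact_mod_cast Nat.one_le_iff_ne_zero.2 h0
    refine h2.trans ?_
    refine mul_le_mul_of_nonneg_left (by linarith) (by positivity)

private lemma OCos_size (fr : Frame g) (k b : ℕ) {q : ℕ} (hq : 1 ≤ q) {t : Fin fr.r → ℤ}
    (ht : t ∈ bx (Mb fr k b q)) (i : Fin fr.r) :
    |(((fr.mo q i : ℤ) * t i : ℤ) : ℝ)| ≤ 1 / 2 ^ b * ((2 : ℝ) ^ k) ^ fr.w i := by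
  have hm : (0 : ℝ) < fr.mo q i := by exact_mod_cast RepAux.mo_pos fr hq i
  have h1 := mem_bx.mp ht i
  have h3 : |(t i : ℝ)| ≤ (Mb fr k b q i : ℝ) := by exact_mod_cast h1
  have h4 : (2 ^ b * fr.mo q i) * Mb fr k b q i ≤ 2 ^ (k * fr.w i) := Nat.mul_div_le _ _
  have h5 : ((2 : ℝ) ^ b * fr.mo q i) * Mb fr k b q i ≤ ((2 : ℝ) ^ k) ^ fr.w i := by
    rw [← pow_mul]
    exact_mod_cast h4
  push_cast
  rw [abs_mul, abs_of_pos hm, one_div, ← div_eq_inv_mul, le_div_iff₀ (by positivity)]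
  calc (fr.mo q i : ℝ) * |(t i : ℝ)| * 2 ^ b ≤ fr.mo q i * Mb fr k b q i * 2 ^ b := by gcongr
    _ = ((2 : ℝ) ^ b * fr.mo q i) * Mb fr k b q i := by ring
    _ ≤ _ := h5

/-- the shift for a fixed element of the coset average -/
private lemma OCos_core (fr : Frame g) (U : G →* (H ≃ₗᵢ[ℂ] H)) (k b : ℕ) {q n : ℕ} (hq : 1 ≤ q) (hn : 1 ≤ n)
    {del : ℝ} (hdel0 : 0 ≤ del) (z : Fin fr.r → ℤ) (P : (Fin fr.r → ℤ) → Fin fr.r → ℤ)
    (hdvd : ∀ t i, (fr.mo (q * n) i : ℤ) ∣ P t i)
    (hdep : ∀ t t' i, (∀ j, fr.w j < fr.w i → t j = t' j) → P t i = P t' i)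
    (hsize : ∀ t ∈ bx (Mb fr k b (q * n)), ∀ i, |(P t i : ℝ)| ≤ fr.C0 * (1 / 2 ^ b * del) * ((2 : ℝ) ^ k) ^ fr.w i) :
    ‖avg (bx (Mb fr k b (q * n))) (fun t =>
        Uo U (kap fr.c (fun i => (fr.mo (q * n) i : ℤ) * t i + (fr.mo q i : ℤ) * z i + P t i))) -
      avg (bx (Mb fr k b (q * n))) (fun t =>
        Uo U (kap fr.c (fun i => (fr.mo q i : ℤ) * ((n : ℤ) * t i + z i))))‖ ≤
      2 * fr.r * (fr.C0 * del) := by
  have hC0 := fr.one_le_C0
  have hQn : 1 ≤ q * n := Nat.mul_pos hq hn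
  have hps : ∀ t i, (fr.mo (q * n) i : ℤ) * (P t i / (fr.mo (q * n) i : ℤ)) = P t i :=
    fun t i => Int.mul_ediv_cancel' (hdvd t i)
  have h := tri_shift (E := H →L[ℂ] H) fr.w (Mb fr k b (q * n))
    (fun t i => P t i / (fr.mo (q * n) i : ℤ))
    (fun t t' i hh => by
      show P t i / (fr.mo (q * n) i : ℤ) = P t' i / (fr.mo (q * n) i : ℤ)
      rw [hdep t t' i hh]) (del := fr.C0 * del) (mul_nonneg (by linarith) hdel0)
    (fun t ht i => by
      have hm : (0 : ℝ) < fr.mo (q * n) i := by exact_mod_cast RepAux.mo_pos fr hQn i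
      have h1 := OCos_ge fr k b hQn i
      have h2 : (fr.mo (q * n) i : ℝ) * |((P t i / (fr.mo (q * n) i : ℤ) : ℤ) : ℝ)| =
          |(P t i : ℝ)| := by
        rw [← abs_of_pos hm, ← abs_mul]
        congr 1
        exact_mod_cast hps t i
      have h3 := hsize t ht i
      rw [← h2] at h3
      have h4 : (fr.mo (q * n) i : ℝ) * |((P t i / (fr.mo (q * n) i : ℤ) : ℤ) : ℝ)| ≤
          (fr.mo (q * n) i : ℝ) * (fr.C0 * del * (2 * Mb fr k b (q * n) i + 1)) := by
        refine h3.trans ?_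
        calc fr.C0 * (1 / 2 ^ b * del) * ((2 : ℝ) ^ k) ^ fr.w i ≤
              fr.C0 * (1 / 2 ^ b * del) * ((2 : ℝ) ^ b * (fr.mo (q * n) i : ℝ) * (2 * Mb fr k b (q * n) i + 1)) :=
              mul_le_mul_of_nonneg_left h1 (mul_nonneg (by linarith) (by positivity))
          _ = _ := by
              field_simp
      exact le_of_mul_le_mul_left h4 hm)
    (Φ := fun t => Uo U (kap fr.c (fun i => (fr.mo q i : ℤ) * ((n : ℤ) * t i + z i)))) (C := 1)
    (fun t => norm_Uo_le U _)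
  rw [mul_one] at h
  refine le_trans (le_of_eq ?_) h
  congr 2
  apply avg_congr
  intro t _
  congr 2
  funext i
  simp only [Pi.add_apply]
  have e1 : P t i = (fr.mo (q * n) i : ℤ) * (P t i / (fr.mo (q * n) i : ℤ)) := (hps t i).symm
  have e2 : (fr.mo (q * n) i : ℤ) = n * (fr.mo q i : ℤ) := by
    exact_mod_cast mo_mul fr q n i
  generalize P t i / (fr.mo (q * n) i : ℤ) = v at e1 ⊢
  rw [e1, e2]
  ring

/-- the averages over the coset representatives and the smaller box give the larger box -/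
private lemma OCos_mid (fr : Frame g) (U : G →* (H ≃ₗᵢ[ℂ] H)) (k b : ℕ) {q n : ℕ} (hq : 1 ≤ q) (hn : 1 ≤ n) :
    ‖avg (Fintype.piFinset fun _ : Fin fr.r => Ico 0 (n : ℤ)) (fun z =>
          avg (bx (Mb fr k b (q * n))) (fun t =>
            Uo U (kap fr.c (fun i => (fr.mo q i : ℤ) * ((n : ℤ) * t i + z i))))) - Db fr U k b q‖ ≤
      4 * (fr.r * ((fr.W : ℝ) ^ fr.D * ((2 : ℝ) ^ b * q * n / 2 ^ k))) * 1 := by
  have hQn : 1 ≤ q * n := Nat.mul_pos hq hn
  have hR : (1 : ℝ) ≤ 2 ^ k := one_le_pow₀ (by norm_num)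
  have hdel0 : 0 ≤ (fr.W : ℝ) ^ fr.D * ((2 : ℝ) ^ b * q * n / 2 ^ k) := by positivity
  -- second step
  have h2 : avg (Fintype.piFinset fun _ : Fin fr.r => Ico 0 (n : ℤ)) (fun z =>
        avg (bx (Mb fr k b (q * n))) (fun t =>
          Uo U (kap fr.c (fun i => (fr.mo q i : ℤ) * ((n : ℤ) * t i + z i))))) =
      avg (Fintype.piFinset fun i : Fin fr.r =>
        Ico (-((n : ℤ) * Mb fr k b (q * n) i)) ((n : ℤ) * Mb fr k b (q * n) i + n))
        (fun y => Uo U (kap fr.c (fun i => (fr.mo q i : ℤ) * y i))) := by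
    rw [← avg_product (Fintype.piFinset fun _ : Fin fr.r => Ico 0 (n : ℤ))
      (bx (Mb fr k b (q * n))) (fun zt : (Fin fr.r → ℤ) × (Fin fr.r → ℤ) =>
        Uo U (kap fr.c (fun i => (fr.mo q i : ℤ) * ((n : ℤ) * zt.2 i + zt.1 i))))]
    have hn0 : (0 : ℤ) < n := by exact_mod_cast hn
    refine avg_nbij (fun (zt : (Fin fr.r → ℤ) × (Fin fr.r → ℤ)) i => (n : ℤ) * zt.2 i + zt.1 i)
      (fun y => (fun i => y i % (n : ℤ), fun i => y i / (n : ℤ))) ?_ ?_ ?_ ?_
      (fun y => Uo U (kap fr.c (fun i => (fr.mo q i : ℤ) * y i)))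
    · rintro ⟨z, t⟩ hzt
      rw [Finset.mem_product, Fintype.mem_piFinset, mem_bx] at hzt
      rw [Fintype.mem_piFinset]
      intro i
      have h3 := hzt.1 i
      have h4 := hzt.2 i
      rw [mem_Ico] at h3 ⊢
      rw [abs_le] at h4
      simp only at h3 h4 ⊢
      constructor
      · nlinarith [h4.1]
      · nlinarith [h4.2]
    · intro y hy
      rw [Fintype.mem_piFinset] at hy
      rw [Finset.mem_product, Fintype.mem_piFinset, mem_bx]
      refine ⟨fun i => ?_, fun i => ?_⟩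
      · rw [mem_Ico]
        exact ⟨Int.emod_nonneg _ hn0.ne', Int.emod_lt_of_pos _ hn0⟩
      · have h3 := hy i
        rw [mem_Ico] at h3
        rw [abs_le]
        constructor
        · rw [Int.le_ediv_iff_mul_le hn0]
          nlinarith [h3.1]
        · have h4 : y i / (n : ℤ) < (Mb fr k b (q * n) i : ℤ) + 1 := by
            rw [Int.ediv_lt_iff_lt_mul hn0]
            nlinarith [h3.2]
          show y i / (n : ℤ) ≤ (Mb fr k b (q * n) i : ℤ)
          omega
    · rintro ⟨z, t⟩ hzt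
      rw [Finset.mem_product, Fintype.mem_piFinset] at hzt
      refine Prod.ext ?_ ?_
      · funext i
        have h3 := hzt.1 i
        rw [mem_Ico] at h3
        show ((n : ℤ) * t i + z i) % (n : ℤ) = z i
        rw [Int.mul_add_emod_self_left]
        exact Int.emod_eq_of_lt h3.1 h3.2
      · funext i
        have h3 := hzt.1 i
        rw [mem_Ico] at h3
        show ((n : ℤ) * t i + z i) / (n : ℤ) = t i
        rw [Int.mul_add_ediv_left _ _ hn0.ne', Int.ediv_eq_zero_of_lt h3.1 h3.2, add_zero]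
    · intro y _
      funext i
      exact Int.mul_ediv_add_emod (y i) n
  -- third step
  have h3 : ‖avg (Fintype.piFinset fun i : Fin fr.r =>
        Ico (-((n : ℤ) * Mb fr k b (q * n) i)) ((n : ℤ) * Mb fr k b (q * n) i + n))
        (fun y => Uo U (kap fr.c (fun i => (fr.mo q i : ℤ) * y i))) - Db fr U k b q‖ ≤
      4 * (fr.r * ((fr.W : ℝ) ^ fr.D * ((2 : ℝ) ^ b * q * n / 2 ^ k))) * 1 := by
    have hn0 : (0 : ℝ) < n := by exact_mod_cast hn
    unfold Db BM
    have hA : (Fintype.piFinset fun i : Fin fr.r =>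
        Ico (-((n : ℤ) * Mb fr k b (q * n) i))
          ((n : ℤ) * Mb fr k b (q * n) i + n)).Nonempty := by
      refine ⟨fun _ => 0, Fintype.mem_piFinset.2 fun i => mem_Ico.2 ⟨?_, ?_⟩⟩
      · have : (0 : ℤ) ≤ (n : ℤ) * Mb fr k b (q * n) i := by positivity
        omega
      · positivity
    refine avg_diff hA (bx_nonempty _) (fun y => norm_Uo_le U _) ?_ ?_
    · unfold bx
      refine card_pi_sdiff _ _ fun i => ?_
      obtain ⟨h4, h5⟩ := OCos_rel fr k b q hn i
      have h6 := OCos_ge fr k b hQn i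
      have h7 := mo_n_le fr q n hR i
      have hm : (0 : ℝ) < fr.mo q i := by exact_mod_cast RepAux.mo_pos fr hq i
      have e2 : (fr.mo (q * n) i : ℝ) = n * (fr.mo q i : ℝ) := by
        exact_mod_cast mo_mul fr q n i
      have h8 : ((Ico (-((n : ℤ) * Mb fr k b (q * n) i))
          ((n : ℤ) * Mb fr k b (q * n) i + n) \
            Icc (-(Mb fr k b q i : ℤ)) (Mb fr k b q i : ℤ)).card : ℝ) ≤ n := by
        have h9 : Ico (-((n : ℤ) * Mb fr k b (q * n) i))
          ((n : ℤ) * Mb fr k b (q * n) i + n) \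
            Icc (-(Mb fr k b q i : ℤ)) (Mb fr k b q i : ℤ) ⊆
            Ico ((n : ℤ) * Mb fr k b (q * n) i) ((n : ℤ) * Mb fr k b (q * n) i + n) := by
          intro x hx
          rw [Finset.mem_sdiff, mem_Ico, mem_Icc] at hx
          rw [mem_Ico]
          zify at h4 h5
          omega
        have h10 := Finset.card_le_card h9
        rw [Int.card_Ico] at h10
        have h11 : ((n : ℤ) * Mb fr k b (q * n) i + n -
          (n : ℤ) * Mb fr k b (q * n) i).toNat = n := by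
          rw [add_sub_cancel_left, Int.toNat_natCast]
        rw [h11] at h10
        exact_mod_cast h10
      have h12 : ((Ico (-((n : ℤ) * Mb fr k b (q * n) i))
          ((n : ℤ) * Mb fr k b (q * n) i + n)).card : ℝ) =
          n * (2 * Mb fr k b (q * n) i + 1) := by
        rw [Int.card_Ico]
        have h13 : ((n : ℤ) * Mb fr k b (q * n) i + n -
          -((n : ℤ) * Mb fr k b (q * n) i)) =
            ((n * (2 * Mb fr k b (q * n) i + 1) : ℕ) : ℤ) := by
          push_cast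
          ring
        rw [h13, Int.toNat_natCast]
        push_cast
        ring
      rw [h12]
      refine h8.trans ?_
      have h14 : (fr.mo q i : ℝ) * n ≤ (fr.mo q i : ℝ) *
          ((fr.W : ℝ) ^ fr.D * ((2 : ℝ) ^ b * q * n / 2 ^ k) * (n * (2 * Mb fr k b (q * n) i + 1))) := by
        refine h7.trans ?_
        rw [e2] at h6
        calc (fr.W : ℝ) ^ fr.D * ((q : ℝ) * n / 2 ^ k) * ((2 : ℝ) ^ k) ^ fr.w i ≤
              (fr.W : ℝ) ^ fr.D * ((q : ℝ) * n / 2 ^ k) *
                ((2 : ℝ) ^ b * (n * (fr.mo q i : ℝ)) * (2 * Mb fr k b (q * n) i + 1)) :=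
              mul_le_mul_of_nonneg_left h6 (by positivity)
          _ = _ := by ring
      exact le_of_mul_le_mul_left h14 hm
    · unfold bx
      refine card_pi_sdiff _ _ fun i => ?_
      obtain ⟨h4, h5⟩ := OCos_rel fr k b q hn i
      have h6 := OCos_ge fr k b hq i
      have h7 := mo_n_le fr q n hR i
      have hm : (0 : ℝ) < fr.mo q i := by exact_mod_cast RepAux.mo_pos fr hq i
      have h8 : ((Icc (-(Mb fr k b q i : ℤ)) (Mb fr k b q i : ℤ) \
          Ico (-((n : ℤ) * Mb fr k b (q * n) i))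
            ((n : ℤ) * Mb fr k b (q * n) i + n)).card : ℝ) ≤ n := by
        have h9 : Icc (-(Mb fr k b q i : ℤ)) (Mb fr k b q i : ℤ) \
          Ico (-((n : ℤ) * Mb fr k b (q * n) i)) ((n : ℤ) * Mb fr k b (q * n) i + n) ⊆
            Ico (-((n : ℤ) * Mb fr k b (q * n) i) - n)
              (-((n : ℤ) * Mb fr k b (q * n) i)) := by
          intro x hx
          rw [Finset.mem_sdiff, mem_Ico, mem_Icc] at hx
          rw [mem_Ico]
          zify at h4 h5
          have h5' : (Mb fr k b q i : ℤ) < n * Mb fr k b (q * n) i + n := by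
            linarith
          omega
        have h10 := Finset.card_le_card h9
        rw [Int.card_Ico] at h10
        have h11 : (-((n : ℤ) * Mb fr k b (q * n) i) -
          (-((n : ℤ) * Mb fr k b (q * n) i) - n)).toNat = n := by
          rw [sub_sub_cancel, Int.toNat_natCast]
        rw [h11] at h10
        exact_mod_cast h10
      have h12 : ((Icc (-(Mb fr k b q i : ℤ)) (Mb fr k b q i : ℤ)).card : ℝ) =
          2 * Mb fr k b q i + 1 := by
        rw [Int.card_Icc]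
        have h13 : ((Mb fr k b q i : ℤ) + 1 - -(Mb fr k b q i : ℤ)) =
            ((2 * Mb fr k b q i + 1 : ℕ) : ℤ) := by
          push_cast
          ring
        rw [h13, Int.toNat_natCast]
        push_cast
        ring
      rw [h12]
      refine h8.trans ?_
      have h14 : (fr.mo q i : ℝ) * n ≤ (fr.mo q i : ℝ) *
          ((fr.W : ℝ) ^ fr.D * ((2 : ℝ) ^ b * q * n / 2 ^ k) * (2 * Mb fr k b q i + 1)) := by
        refine h7.trans ?_
        calc (fr.W : ℝ) ^ fr.D * ((q : ℝ) * n / 2 ^ k) * ((2 : ℝ) ^ k) ^ fr.w i ≤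
              (fr.W : ℝ) ^ fr.D * ((q : ℝ) * n / 2 ^ k) *
                ((2 : ℝ) ^ b * (fr.mo q i : ℝ) * (2 * Mb fr k b q i + 1)) :=
              mul_le_mul_of_nonneg_left h6 (by positivity)
          _ = _ := by ring
      exact le_of_mul_le_mul_left h14 hm
  rw [h2]
  exact h3

theorem db_coset (fr : Frame g) (U : G →* (H ≃ₗᵢ[ℂ] H)) : ∃ K : ℝ, 1 ≤ K ∧
    ∀ (k b q n : ℕ), 1 ≤ q → 1 ≤ n →
      ‖Db fr U k b q - Db fr U k b (q * n) * fr.Ga U q n‖ ≤ K * ((2 : ℝ) ^ b * q * n / 2 ^ k) ∧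
      ‖Db fr U k b q - fr.Ga U q n * Db fr U k b (q * n)‖ ≤ K * ((2 : ℝ) ^ b * q * n / 2 ^ k) := by
  have hC0 := fr.one_le_C0
  have hWD := WD_one fr
  have hr0 : (0 : ℝ) ≤ fr.r := Nat.cast_nonneg _
  have hK' : (2 : ℝ) ≤ 2 * fr.r * fr.C0 + 4 * fr.r + 2 := by
    have : 0 ≤ (fr.r : ℝ) * fr.C0 := mul_nonneg hr0 (by linarith)
    nlinarith
  refine ⟨(2 * fr.r * fr.C0 + 4 * fr.r + 2) * (fr.W : ℝ) ^ fr.D, by nlinarith, ?_⟩
  intro k b q n hq hn
  have hQn : 1 ≤ q * n := Nat.mul_pos hq hn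
  have hR : (1 : ℝ) ≤ 2 ^ k := one_le_pow₀ (by norm_num)
  have hb1 : (1 : ℝ) ≤ 2 ^ b := one_le_pow₀ (by norm_num)
  rw [mul_assoc _ ((fr.W : ℝ) ^ fr.D)]
  have hdel0 : 0 ≤ (fr.W : ℝ) ^ fr.D * ((2 : ℝ) ^ b * q * n / 2 ^ k) := by positivity
  have hle : (fr.W : ℝ) ^ fr.D * ((q : ℝ) * n / 2 ^ k) ≤ (fr.W : ℝ) ^ fr.D * ((2 : ℝ) ^ b * q * n / 2 ^ k) := by
    refine mul_le_mul_of_nonneg_left ?_ (by positivity)
    refine div_le_div_of_nonneg_right ?_ (by positivity)
    calc (q : ℝ) * n = 1 * q * n := by ring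
      _ ≤ (2 : ℝ) ^ b * q * n := by gcongr
  by_cases hdel : (fr.W : ℝ) ^ fr.D * ((2 : ℝ) ^ b * q * n / 2 ^ k) ≤ 1
  · have hmid := OCos_mid fr U k b hq hn
    have hd0 : 0 ≤ (fr.W : ℝ) ^ fr.D * ((q : ℝ) * n / 2 ^ k) := by positivity
    have hd1 := hle.trans hdel
    have hfix1 : ‖Db fr U k b (q * n) * fr.Ga U q n -
        avg (Fintype.piFinset fun _ : Fin fr.r => Ico 0 (n : ℤ)) (fun z =>
          avg (bx (Mb fr k b (q * n))) (fun t =>
            Uo U (kap fr.c (fun i => (fr.mo q i : ℤ) * ((n : ℤ) * t i + z i)))))‖ ≤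
        2 * fr.r * (fr.C0 * ((fr.W : ℝ) ^ fr.D * ((q : ℝ) * n / 2 ^ k))) := by
      have e : Db fr U k b (q * n) * fr.Ga U q n -
          avg (Fintype.piFinset fun _ : Fin fr.r => Ico 0 (n : ℤ)) (fun z =>
            avg (bx (Mb fr k b (q * n))) (fun t =>
              Uo U (kap fr.c (fun i => (fr.mo q i : ℤ) * ((n : ℤ) * t i + z i))))) =
          avg (Fintype.piFinset fun _ : Fin fr.r => Ico 0 (n : ℤ)) (fun z =>
            avg (bx (Mb fr k b (q * n))) (fun t =>
              Uo U (kap fr.c (fun i => (fr.mo (q * n) i : ℤ) * t i + (fr.mo q i : ℤ) * z i +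
                fr.p (fun i => (fr.mo (q * n) i : ℤ) * t i) (fun i => (fr.mo q i : ℤ) * z i) i))) -
            avg (bx (Mb fr k b (q * n))) (fun t =>
              Uo U (kap fr.c (fun i => (fr.mo q i : ℤ) * ((n : ℤ) * t i + z i))))) := by
        rw [avg_sub]
        congr 1
        unfold Frame.Ga
        rw [RepAux.mul_avg]
        apply avg_congr
        intro z _
        unfold Db BM
        rw [RepAux.avg_mul]
        apply avg_congr
        intro t _
        rw [← Uo_mul, fr.mul]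
        rfl
      rw [e]
      refine norm_avg_le_const (by positivity) fun z hz => ?_
      refine OCos_core fr U k b hq hn hd0 z
        (fun t => fr.p (fun i => (fr.mo (q * n) i : ℤ) * t i) (fun i => (fr.mo q i : ℤ) * z i)) ?_ ?_ ?_
      · intro t i
        exact fr.p_dvd (q * n) _ _ (Or.inl fun j => Dvd.intro _ rfl) i
      · intro t t' i hh
        exact fr.p_dep _ _ _ _ i fun j hj => ⟨by
          show _ * t j = _ * t' j
          rw [hh j hj], rfl⟩
      · intro t ht i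
        exact fr.p_size (2 ^ k) (1 / 2 ^ b) _ _ _ hR (by positivity)
          (by rw [div_le_one (by positivity)]; exact hb1) hd0 hd1
          (OCos_size fr k b hQn ht) (fun j => mem_Ga fr (Q := q) hR hz j) i
    have hfix2 : ‖fr.Ga U q n * Db fr U k b (q * n) -
        avg (Fintype.piFinset fun _ : Fin fr.r => Ico 0 (n : ℤ)) (fun z =>
          avg (bx (Mb fr k b (q * n))) (fun t =>
            Uo U (kap fr.c (fun i => (fr.mo q i : ℤ) * ((n : ℤ) * t i + z i)))))‖ ≤
        2 * fr.r * (fr.C0 * ((fr.W : ℝ) ^ fr.D * ((q : ℝ) * n / 2 ^ k))) := by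
      have e : fr.Ga U q n * Db fr U k b (q * n) -
          avg (Fintype.piFinset fun _ : Fin fr.r => Ico 0 (n : ℤ)) (fun z =>
            avg (bx (Mb fr k b (q * n))) (fun t =>
              Uo U (kap fr.c (fun i => (fr.mo q i : ℤ) * ((n : ℤ) * t i + z i))))) =
          avg (Fintype.piFinset fun _ : Fin fr.r => Ico 0 (n : ℤ)) (fun z =>
            avg (bx (Mb fr k b (q * n))) (fun t =>
              Uo U (kap fr.c (fun i => (fr.mo (q * n) i : ℤ) * t i + (fr.mo q i : ℤ) * z i +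
                fr.p (fun i => (fr.mo q i : ℤ) * z i) (fun i => (fr.mo (q * n) i : ℤ) * t i) i))) -
            avg (bx (Mb fr k b (q * n))) (fun t =>
              Uo U (kap fr.c (fun i => (fr.mo q i : ℤ) * ((n : ℤ) * t i + z i))))) := by
        rw [avg_sub]
        congr 1
        unfold Frame.Ga
        rw [RepAux.avg_mul]
        apply avg_congr
        intro z _
        unfold Db BM
        rw [RepAux.mul_avg]
        apply avg_congr
        intro t _
        rw [← Uo_mul, fr.mul]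
        congr 2
        funext i
        simp only [Pi.add_apply]
        ring
      rw [e]
      refine norm_avg_le_const (by positivity) fun z hz => ?_
      refine OCos_core fr U k b hq hn hd0 z
        (fun t => fr.p (fun i => (fr.mo q i : ℤ) * z i) (fun i => (fr.mo (q * n) i : ℤ) * t i)) ?_ ?_ ?_
      · intro t i
        exact fr.p_dvd (q * n) _ _ (Or.inr fun j => Dvd.intro _ rfl) i
      · intro t t' i hh
        exact fr.p_dep _ _ _ _ i fun j hj => ⟨rfl, by
          show _ * t j = _ * t' j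
          rw [hh j hj]⟩
      · intro t ht i
        have h := fr.p_size (2 ^ k) _ (1 / 2 ^ b) _ _ hR hd0 hd1 (by positivity)
          (by rw [div_le_one (by positivity)]; exact hb1)
          (fun j => mem_Ga fr (Q := q) hR hz j) (OCos_size fr k b hQn ht) i
        rw [mul_comm (1 / 2 ^ b : ℝ)]
        exact h
    have h4 : ∀ X Y Z : H →L[ℂ] H, ‖X - Y‖ ≤ ‖Y - Z‖ + ‖Z - X‖ := by
      intro X Y Z
      have e : X - Y = -((Y - Z) + (Z - X)) := by abel
      rw [e, norm_neg]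
      exact norm_add_le _ _
    have hfin : 2 * fr.r * (fr.C0 * ((fr.W : ℝ) ^ fr.D * ((q : ℝ) * n / 2 ^ k))) +
        4 * (fr.r * ((fr.W : ℝ) ^ fr.D * ((2 : ℝ) ^ b * q * n / 2 ^ k))) * 1 ≤
        (2 * fr.r * fr.C0 + 4 * fr.r + 2) * ((fr.W : ℝ) ^ fr.D * ((2 : ℝ) ^ b * q * n / 2 ^ k)) := by
      have h5 : 2 * fr.r * (fr.C0 * ((fr.W : ℝ) ^ fr.D * ((q : ℝ) * n / 2 ^ k))) ≤
          2 * fr.r * (fr.C0 * ((fr.W : ℝ) ^ fr.D * ((2 : ℝ) ^ b * q * n / 2 ^ k))) := by
        refine mul_le_mul_of_nonneg_left ?_ (by positivity)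
        exact mul_le_mul_of_nonneg_left hle (by linarith)
      nlinarith
    exact ⟨(h4 _ _ _).trans ((add_le_add hfix1 hmid).trans hfin),
      (h4 _ _ _).trans ((add_le_add hfix2 hmid).trans hfin)⟩
  · push Not at hdel
    have h1 : ‖Db fr U k b q‖ ≤ 1 := norm_BM_le _ _ _ _
    have h2 : ‖Db fr U k b (q * n)‖ ≤ 1 := norm_BM_le _ _ _ _
    have h3 := Frame.norm_Ga_le fr U q n
    have h4 : ‖Db fr U k b (q * n) * fr.Ga U q n‖ ≤ 1 := by
      refine (norm_mul_le _ _).trans ?_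
      nlinarith [norm_nonneg (Db fr U k b (q * n)), norm_nonneg (fr.Ga U q n)]
    have h5 : ‖fr.Ga U q n * Db fr U k b (q * n)‖ ≤ 1 := by
      refine (norm_mul_le _ _).trans ?_
      nlinarith [norm_nonneg (Db fr U k b (q * n)), norm_nonneg (fr.Ga U q n)]
    constructor
    · refine (norm_sub_le _ _).trans ?_
      nlinarith
    · refine (norm_sub_le _ _).trans ?_
      nlinarith

end NPG
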