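import Mathlib

set_option autoImplicit false

/-!
# NPG / ONrm : the coefficients and the norm of `sum_d c_d K_d`

`cdd Q d = sum_(m ≤ Q/d) moebius m`.

PROOF of `cdd_sum`: `|cdd Q d| ≤ Q / d ≤ Q`.
PROOF of `cdd_id`: define `psi` by Moebius inversion, `φ n = sum_(e | n) psi e` for `n ≥ 1` (e.g. by strong recursion,
or `ArithmeticFunction.sum_eq_iff_sum_smul_moebius_eq` ...).  `sum_d cdd Q d φ(gcd q d) =
sum_(e | q) psi e sum_(d ≤ Q, e | d) cdd Q d` and `sum_(j ≤ Q/e) cdd Q (e j) = sum_(j ≤ Q/e) sum_(m ≤ Q/(e j)) moebius m =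
sum_(n ≤ Q/e) sum_(m | n) moebius m = 1` for `e ≤ Q` (`ArithmeticFunction.moebius_mul_coe_zeta`, `coe_zeta..`).

PROOF of `norm_sum_le_two`.  `M n = sum_d c_d K_d^(2^n)`, `a n = ‖M n‖ ≤ sum |c_d| ≤ Q^2`.
For `m ≥ 1`: `‖K_d^m K_d'^m - K_g^(2m)‖ ≤ 2 m ε`, `g = gcd d d'`: `K_d^m K_d'^m = K_d^(m-1) (K_d K_d') K_d'^(m-1)`, replace the
middle by `K_g^2`, then use `K_d K_g ~ K_g^2` (`m - 1` times) and `K_g K_d' ~ K_g^2` (`m - 1` times).
`(M n)^2 = sum_(d,d') c_d c_d' K_d^(2^n) K_d'^(2^n)` is within `Q^4 2 2^n ε` of `sum_(d,d') c_d c_d' K_(gcd d d')^(2^(n+1)) = M (n+1)`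
(`hc` for fixed `d`).  `M n` is self-adjoint, so `(a n)^2 = ‖(M n)^2‖ ≤ a (n+1) + Q^4 2^(n+1) ε`.
Suppose `a 0 > 2`.  Let `n*` be minimal with `2 (3/2)^(n*) > Q^2`; `2^(n*) ≤ 2 Q^4`.  For `n < n*` the error is at most `1`
(`hε`), so by induction `a n ≥ 2 (3/2)^n` for `n ≤ n*` (`x^2 - 1 ≥ (3/2) x` for `x ≥ 2`): contradiction to `a n ≤ Q^2`.
-/

namespace NPG
open Finset

/-- the coefficients -/
noncomputable def cdd (Q d : ℕ) : ℝ := ∑ m ∈ Icc 1 (Q / d), (ArithmeticFunction.moebius m : ℝ)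

private theorem onrm_mu (m : ℕ) : |(ArithmeticFunction.moebius m : ℝ)| ≤ 1 := by
  have h := ArithmeticFunction.abs_moebius_le_one (n := m)
  exact_mod_cast h

theorem cdd_sum (Q : ℕ) : ∑ d ∈ Icc 1 Q, |cdd Q d| ≤ (Q : ℝ) ^ 2 := by
  have h : ∀ d ∈ Icc 1 Q, |cdd Q d| ≤ Q := by
    intro d _
    unfold cdd
    calc |∑ m ∈ Icc 1 (Q / d), (ArithmeticFunction.moebius m : ℝ)|
        ≤ ∑ m ∈ Icc 1 (Q / d), |(ArithmeticFunction.moebius m : ℝ)| := Finset.abs_sum_le_sum_abs _ _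
      _ ≤ ∑ m ∈ Icc 1 (Q / d), (1 : ℝ) := Finset.sum_le_sum fun m _ => onrm_mu m
      _ = ((Q / d : ℕ) : ℝ) := by simp
      _ ≤ Q := by exact_mod_cast Nat.div_le_self Q d
  calc ∑ d ∈ Icc 1 Q, |cdd Q d| ≤ ∑ d ∈ Icc 1 Q, (Q : ℝ) := Finset.sum_le_sum h
    _ = (Q : ℝ) ^ 2 := by simp [sq]

private theorem onrm_I (n : ℕ) : Icc 1 n = Ioc 0 n := by
  ext x
  simp only [mem_Icc, mem_Ioc]
  omega

private theorem onrm_mer (R : ℕ) (hR : 1 ≤ R) :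
    ∑ j ∈ Icc 1 R, ∑ m ∈ Icc 1 (R / j), (ArithmeticFunction.moebius m : ℝ) = 1 := by
  have h := ArithmeticFunction.sum_Ioc_mul_eq_sum_sum
    ((ArithmeticFunction.zeta : ArithmeticFunction ℕ) : ArithmeticFunction ℝ)
    ((ArithmeticFunction.moebius : ArithmeticFunction ℤ) : ArithmeticFunction ℝ) R
  rw [ArithmeticFunction.coe_zeta_mul_coe_moebius] at h
  simp only [onrm_I]
  have h1 : ∑ n ∈ Ioc 0 R, (1 : ArithmeticFunction ℝ) n = 1 := by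
    rw [Finset.sum_eq_single 1]
    · simp
    · intro b _ hb
      exact ArithmeticFunction.one_apply_ne hb
    · intro h2
      exact absurd (mem_Ioc.2 ⟨Nat.one_pos, hR⟩) h2
  rw [h1] at h
  rw [h]
  refine Finset.sum_congr rfl fun j hj => ?_
  have hj0 : j ≠ 0 := by
    have := (mem_Ioc.1 hj).1
    omega
  have e : ((ArithmeticFunction.zeta : ArithmeticFunction ℕ) : ArithmeticFunction ℝ) j = 1 := by
    rw [ArithmeticFunction.natCoe_apply, ArithmeticFunction.zeta_apply_ne hj0, Nat.cast_one]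
  rw [e, one_mul]
  rfl

private theorem onrm_e (Q e : ℕ) (he : 1 ≤ e) (heQ : e ≤ Q) :
    ∑ d ∈ Icc 1 Q, (if e ∣ d then cdd Q d else 0) = 1 := by
  rw [← onrm_mer (Q / e) ((Nat.one_le_div_iff (by omega)).2 heQ), ← Finset.sum_filter]
  symm
  refine Finset.sum_bij (fun j _ => e * j) ?_ ?_ ?_ ?_
  · intro j hj
    rw [mem_Icc] at hj
    refine mem_filter.2 ⟨mem_Icc.2 ⟨?_, ?_⟩, dvd_mul_right _ _⟩
    · exact Nat.one_le_iff_ne_zero.2 (Nat.mul_ne_zero (by omega) (by omega))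
    · exact (Nat.mul_le_mul_left e hj.2).trans (Nat.mul_div_le Q e)
  · intro a _ b _ hab
    exact Nat.eq_of_mul_eq_mul_left (by omega) hab
  · intro d hd
    obtain ⟨h1, j, rfl⟩ := mem_filter.1 hd
    rw [mem_Icc] at h1
    refine ⟨j, mem_Icc.2 ⟨?_, ?_⟩, rfl⟩
    · rcases Nat.eq_zero_or_pos j with h2 | h2
      · rw [h2] at h1
        simp at h1
      · exact h2
    · rw [Nat.le_div_iff_mul_le (by omega), Nat.mul_comm]
      exact h1.2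
  · intro j _
    unfold cdd
    rw [Nat.div_div_eq_div_mul]

theorem cdd_id {E : Type*} [AddCommGroup E] [Module ℝ E] (φ : ℕ → E) {Q q : ℕ} (hq : 1 ≤ q)
    (hqQ : q ≤ Q) : ∑ d ∈ Icc 1 Q, cdd Q d • φ (Nat.gcd q d) = φ q := by
  obtain ⟨ψ, hψ⟩ : ∃ ψ : ℕ → E, ∀ n > 0, ∑ i ∈ n.divisors, ψ i = φ n :=
    ⟨fun n => ∑ x ∈ n.divisorsAntidiagonal, ArithmeticFunction.moebius x.fst • φ x.snd,
      ArithmeticFunction.sum_eq_iff_sum_smul_moebius_eq.2 fun _ _ => rfl⟩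
  have h1 : ∀ d ∈ Icc 1 Q, cdd Q d • φ (Nat.gcd q d) =
      ∑ e ∈ q.divisors, (if e ∣ d then cdd Q d else 0) • ψ e := by
    intro d _
    have hg : 0 < Nat.gcd q d := Nat.gcd_pos_of_pos_left d (by omega)
    rw [← hψ _ hg, Finset.smul_sum]
    have h2 : (Nat.gcd q d).divisors = q.divisors.filter (fun e => e ∣ d) := by
      ext e
      rw [Nat.mem_divisors, mem_filter, Nat.mem_divisors, Nat.dvd_gcd_iff]
      constructor
      · rintro ⟨⟨a, b⟩, _⟩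
        exact ⟨⟨a, by omega⟩, b⟩
      · rintro ⟨⟨a, _⟩, b⟩
        exact ⟨⟨a, b⟩, by omega⟩
    rw [h2, Finset.sum_filter]
    refine Finset.sum_congr rfl fun e _ => ?_
    split_ifs
    · rfl
    · rw [zero_smul]
  rw [Finset.sum_congr rfl h1, Finset.sum_comm]
  simp only [← Finset.sum_smul]
  rw [← hψ q (by omega)]
  refine Finset.sum_congr rfl fun e he => ?_
  have he1 := Nat.dvd_of_mem_divisors he
  rw [onrm_e Q e (Nat.pos_of_mem_divisors he) ((Nat.le_of_dvd (by omega) he1).trans hqQ), one_smul]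

section nrm
variable {A : Type*} [NormedRing A]

private theorem onrm_pn {a : A} (h1 : ‖(1 : A)‖ ≤ 1) (ha : ‖a‖ ≤ 1) (n : ℕ) : ‖a ^ n‖ ≤ 1 := by
  induction n with
  | zero => rwa [pow_zero]
  | succ n ih =>
    rw [pow_succ]
    exact (norm_mul_le _ _).trans (mul_le_one₀ ih (norm_nonneg _) ha)

/-- `a^n b - b^(n+1)` is small if `a b - b^2` is. -/
private theorem onrm_pow {a b : A} (h1 : ‖(1 : A)‖ ≤ 1) (ha : ‖a‖ ≤ 1) (hb : ‖b‖ ≤ 1) {ε : ℝ}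
    (h : ‖a * b - b ^ 2‖ ≤ ε) (n : ℕ) : ‖a ^ n * b - b ^ (n + 1)‖ ≤ n * ε := by
  induction n with
  | zero => simp
  | succ n ih =>
    have e : a ^ (n + 1) * b - b ^ (n + 1 + 1) = a * (a ^ n * b - b ^ (n + 1)) + (a * b - b ^ 2) * b ^ n := by
      rw [mul_sub, sub_mul]
      rw [show a * (a ^ n * b) = a ^ (n + 1) * b by rw [← mul_assoc, ← pow_succ'],
        show b ^ 2 * b ^ n = b ^ (n + 1 + 1) by rw [← pow_add]; congr 1; ring,
        show a * b * b ^ n = a * b ^ (n + 1) by rw [mul_assoc, ← pow_succ']]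
      abel
    have hε : 0 ≤ ε := (norm_nonneg _).trans h
    rw [e]
    calc ‖a * (a ^ n * b - b ^ (n + 1)) + (a * b - b ^ 2) * b ^ n‖
        ≤ ‖a * (a ^ n * b - b ^ (n + 1))‖ + ‖(a * b - b ^ 2) * b ^ n‖ := norm_add_le _ _
      _ ≤ 1 * (n * ε) + ε * 1 := by
          refine add_le_add ?_ ?_
          · exact (norm_mul_le _ _).trans (mul_le_mul ha ih (norm_nonneg _) zero_le_one)
          · exact (norm_mul_le _ _).trans (mul_le_mul h (onrm_pn h1 hb n) (norm_nonneg _) hε)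
      _ = ((n + 1 : ℕ) : ℝ) * ε := by push_cast; ring

/-- The mirror. -/
private theorem onrm_pow' {a b : A} (h1 : ‖(1 : A)‖ ≤ 1) (ha : ‖a‖ ≤ 1) (hb : ‖b‖ ≤ 1) {ε : ℝ}
    (h : ‖b * a - b ^ 2‖ ≤ ε) (n : ℕ) : ‖b * a ^ n - b ^ (n + 1)‖ ≤ n * ε := by
  induction n with
  | zero => simp
  | succ n ih =>
    have e : b * a ^ (n + 1) - b ^ (n + 1 + 1) = (b * a ^ n - b ^ (n + 1)) * a + b ^ n * (b * a - b ^ 2) := by
      rw [mul_sub, sub_mul]
      rw [show b * a ^ n * a = b * a ^ (n + 1) by rw [mul_assoc, ← pow_succ],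
        show b ^ n * b ^ 2 = b ^ (n + 1 + 1) by rw [← pow_add],
        show b ^ n * (b * a) = b ^ (n + 1) * a by rw [← mul_assoc, ← pow_succ]]
      abel
    have hε : 0 ≤ ε := (norm_nonneg _).trans h
    rw [e]
    calc ‖(b * a ^ n - b ^ (n + 1)) * a + b ^ n * (b * a - b ^ 2)‖
        ≤ ‖(b * a ^ n - b ^ (n + 1)) * a‖ + ‖b ^ n * (b * a - b ^ 2)‖ := norm_add_le _ _
      _ ≤ (n * ε) * 1 + 1 * ε := by
          refine add_le_add ?_ ?_
          · exact (norm_mul_le _ _).trans (mul_le_mul ih ha (norm_nonneg _) (by positivity))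
          · exact (norm_mul_le _ _).trans (mul_le_mul (onrm_pn h1 hb n) h (norm_nonneg _) zero_le_one)
      _ = ((n + 1 : ℕ) : ℝ) * ε := by push_cast; ring

private theorem onrm_prod {a b g : A} (h1 : ‖(1 : A)‖ ≤ 1) (ha : ‖a‖ ≤ 1) (hb : ‖b‖ ≤ 1) (hg : ‖g‖ ≤ 1) {ε : ℝ}
    (h : ‖a * b - g ^ 2‖ ≤ ε) (hag : ‖a * g - g ^ 2‖ ≤ ε) (hgb : ‖g * b - g ^ 2‖ ≤ ε) (m : ℕ) (hm : 1 ≤ m) :
    ‖a ^ m * b ^ m - g ^ (2 * m)‖ ≤ 2 * m * ε := by
  obtain ⟨n, rfl⟩ : ∃ n, m = n + 1 := ⟨m - 1, by omega⟩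
  have hε : 0 ≤ ε := (norm_nonneg _).trans h
  have e : a ^ (n + 1) * b ^ (n + 1) - g ^ (2 * (n + 1)) =
      a ^ n * (a * b - g ^ 2) * b ^ n + (a ^ n * g - g ^ (n + 1)) * (g * b ^ n) +
        g ^ (n + 1) * (g * b ^ n - g ^ (n + 1)) := by
    have e1 : a ^ (n + 1) * b ^ (n + 1) = a ^ n * (a * b) * b ^ n := by
      rw [pow_succ a, pow_succ' b]
      simp only [mul_assoc]
    have e2 : a ^ n * g ^ 2 * b ^ n = a ^ n * g * (g * b ^ n) := by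
      rw [sq]
      simp only [mul_assoc]
    have e3 : g ^ (2 * (n + 1)) = g ^ (n + 1) * g ^ (n + 1) := by
      rw [← pow_add]
      congr 1
      ring
    rw [e1, e3, mul_sub, sub_mul, mul_sub, sub_mul, e2]
    abel
  rw [e]
  have pa := onrm_pn h1 ha n
  have pb := onrm_pn h1 hb n
  have pg := onrm_pn h1 hg (n + 1)
  have b1 : ‖a ^ n * (a * b - g ^ 2) * b ^ n‖ ≤ 1 * ε * 1 := by
    refine (norm_mul_le _ _).trans (mul_le_mul ?_ pb (norm_nonneg _) (by linarith))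
    exact (norm_mul_le _ _).trans (mul_le_mul pa h (norm_nonneg _) zero_le_one)
  have b2 : ‖(a ^ n * g - g ^ (n + 1)) * (g * b ^ n)‖ ≤ (n * ε) * (1 * 1) := by
    refine (norm_mul_le _ _).trans (mul_le_mul (onrm_pow h1 ha hg hag n) ?_ (norm_nonneg _) (by positivity))
    exact (norm_mul_le _ _).trans (mul_le_mul hg pb (norm_nonneg _) zero_le_one)
  have b3 : ‖g ^ (n + 1) * (g * b ^ n - g ^ (n + 1))‖ ≤ 1 * (n * ε) :=
    (norm_mul_le _ _).trans (mul_le_mul pg (onrm_pow' h1 hb hg hgb n) (norm_nonneg _) zero_le_one)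
  refine (norm_add₃_le).trans ?_
  push_cast
  nlinarith

end nrm

theorem norm_sum_le_two {H : Type*} [NormedAddCommGroup H] [InnerProductSpace ℂ H]
    [CompleteSpace H] (Q : ℕ) (Kd : ℕ → (H →L[ℂ] H)) (hs : ∀ d, IsSelfAdjoint (Kd d))
    (h1 : ∀ d, ‖Kd d‖ ≤ 1) {ε : ℝ} (hε : ε * (2 * Q : ℝ) ^ 16 ≤ 1)
    (h : ∀ d ∈ Icc 1 Q, ∀ d' ∈ Icc 1 Q, ‖Kd d * Kd d' - Kd (Nat.gcd d d') ^ 2‖ ≤ ε) :
    ‖∑ d ∈ Icc 1 Q, cdd Q d • Kd d‖ ≤ 2 := by
  rcases Nat.eq_zero_or_pos Q with h0 | hQ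
  · subst h0
    simp
  have hε0 : 0 ≤ ε := (norm_nonneg _).trans (h 1 (mem_Icc.2 ⟨le_rfl, hQ⟩) 1 (mem_Icc.2 ⟨le_rfl, hQ⟩))
  have hQ1 : (1 : ℝ) ≤ Q := by exact_mod_cast hQ
  have hone : ‖(1 : H →L[ℂ] H)‖ ≤ 1 := ContinuousLinearMap.norm_id_le
  set M : ℕ → (H →L[ℂ] H) := fun n => ∑ d ∈ Icc 1 Q, cdd Q d • Kd d ^ 2 ^ n with hM
  have hM0 : ∑ d ∈ Icc 1 Q, cdd Q d • Kd d = M 0 := by
    simp only [hM, pow_zero, pow_one]
  -- the norms are bounded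
  have hbd : ∀ n, ‖M n‖ ≤ (Q : ℝ) ^ 2 := by
    intro n
    refine (norm_sum_le _ _).trans (le_trans (Finset.sum_le_sum fun d _ => ?_) (cdd_sum Q))
    rw [norm_smul, Real.norm_eq_abs]
    exact mul_le_of_le_one_right (abs_nonneg _) (onrm_pn hone (h1 d) _)
  -- self-adjoint
  have hsa : ∀ n, IsSelfAdjoint (M n) := by
    intro n
    refine isSelfAdjoint_sum _ fun d _ => ?_
    exact IsSelfAdjoint.smul (IsSelfAdjoint.all _) ((hs d).pow _)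
  -- the square
  have hsq : ∀ n, ‖M n * M n - M (n + 1)‖ ≤ (Q : ℝ) ^ 4 * (2 ^ (n + 1) * ε) := by
    intro n
    have e1 : M (n + 1) = ∑ d ∈ Icc 1 Q, ∑ d' ∈ Icc 1 Q, (cdd Q d * cdd Q d') • Kd (Nat.gcd d d') ^ 2 ^ (n + 1) := by
      simp only [hM]
      refine Finset.sum_congr rfl fun d hd => ?_
      rw [mem_Icc] at hd
      have := cdd_id (fun e => Kd e ^ 2 ^ (n + 1)) hd.1 hd.2
      rw [← this, Finset.smul_sum]
      refine Finset.sum_congr rfl fun d' _ => ?_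
      rw [smul_smul]
    have e2 : M n * M n = ∑ d ∈ Icc 1 Q, ∑ d' ∈ Icc 1 Q, (cdd Q d * cdd Q d') • (Kd d ^ 2 ^ n * Kd d' ^ 2 ^ n) := by
      simp only [hM]
      rw [Finset.sum_mul_sum]
      refine Finset.sum_congr rfl fun d _ => Finset.sum_congr rfl fun d' _ => ?_
      rw [smul_mul_smul_comm]
    rw [e1, e2, ← Finset.sum_sub_distrib]
    simp only [← Finset.sum_sub_distrib, ← smul_sub]
    calc ‖∑ d ∈ Icc 1 Q, ∑ d' ∈ Icc 1 Q,
          (cdd Q d * cdd Q d') • (Kd d ^ 2 ^ n * Kd d' ^ 2 ^ n - Kd (Nat.gcd d d') ^ 2 ^ (n + 1))‖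
        ≤ ∑ d ∈ Icc 1 Q, ∑ d' ∈ Icc 1 Q, (|cdd Q d| * |cdd Q d'|) * (2 ^ (n + 1) * ε) := by
          refine (norm_sum_le _ _).trans (Finset.sum_le_sum fun d hd => ?_)
          refine (norm_sum_le _ _).trans (Finset.sum_le_sum fun d' hd' => ?_)
          rw [norm_smul, Real.norm_eq_abs, abs_mul]
          refine mul_le_mul_of_nonneg_left ?_ (by positivity)
          have hg1 : Nat.gcd d d' ∈ Icc 1 Q := by
            rw [mem_Icc] at hd hd' ⊢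
            exact ⟨Nat.gcd_pos_of_pos_left _ (by omega), (Nat.gcd_le_left _ (by omega)).trans hd.2⟩
          have g1 := h d hd _ hg1
          have g2 := h _ hg1 d' hd'
          rw [show Nat.gcd d (Nat.gcd d d') = Nat.gcd d d' from Nat.gcd_gcd_self_right_left _ _] at g1
          rw [show Nat.gcd (Nat.gcd d d') d' = Nat.gcd d d' from Nat.gcd_gcd_self_left_right _ _] at g2
          have := onrm_prod hone (h1 d) (h1 d') (h1 _) (h d hd d' hd') g1 g2 (2 ^ n) Nat.one_le_two_pow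
          rw [show 2 ^ (n + 1) = 2 * 2 ^ n from pow_succ' 2 n]
          refine this.trans (le_of_eq ?_)
          push_cast
          ring
      _ = (∑ d ∈ Icc 1 Q, |cdd Q d|) * (∑ d' ∈ Icc 1 Q, |cdd Q d'|) * (2 ^ (n + 1) * ε) := by
          rw [Finset.sum_mul_sum, Finset.sum_mul]
          refine Finset.sum_congr rfl fun d _ => ?_
          rw [Finset.sum_mul]
      _ ≤ ((Q : ℝ) ^ 2 * (Q : ℝ) ^ 2) * (2 ^ (n + 1) * ε) := by
          have hc := cdd_sum Q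
          have hc0 : 0 ≤ ∑ d ∈ Icc 1 Q, |cdd Q d| := Finset.sum_nonneg fun _ _ => abs_nonneg _
          refine mul_le_mul_of_nonneg_right ?_ (by positivity)
          exact mul_le_mul hc hc hc0 (by positivity)
      _ = (Q : ℝ) ^ 4 * (2 ^ (n + 1) * ε) := by ring
  have hrec : ∀ n, ‖M n‖ ^ 2 ≤ ‖M (n + 1)‖ + (Q : ℝ) ^ 4 * (2 ^ (n + 1) * ε) := by
    intro n
    have e1 : ‖M n‖ ^ 2 = ‖M n * M n‖ := by
      have := CStarRing.norm_star_mul_self (x := M n)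
      rw [(hsa n).star_eq] at this
      rw [this, sq]
    rw [e1]
    have := norm_sub_norm_le (M n * M n) (M (n + 1))
    linarith [hsq n]
  rw [hM0]
  by_contra hcon
  push Not at hcon
  have hind : ∀ n : ℕ, 2 * (3 / 2 : ℝ) ^ n ≤ ‖M n‖ := by
    intro n
    induction n with
    | zero => simpa using hcon.le
    | succ n ih =>
      have k1 : (1 : ℝ) ≤ (3 / 2 : ℝ) ^ n := one_le_pow₀ (by norm_num)
      have k2 : 2 * (3 / 2 : ℝ) ^ n ≤ (Q : ℝ) ^ 2 := ih.trans (hbd n)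
      have k3 : (2 : ℝ) ^ n ≤ (Q : ℝ) ^ 4 / 4 := by
        have k4 : (2 : ℝ) ^ n ≤ ((3 / 2 : ℝ) ^ n) ^ 2 := by
          rw [← pow_mul, mul_comm n 2, pow_mul]
          exact pow_le_pow_left₀ (by norm_num) (by norm_num) n
        nlinarith
      have k5 : (Q : ℝ) ^ 4 * (2 ^ (n + 1) * ε) ≤ 1 := by
        have k6 : (Q : ℝ) ^ 4 * (2 ^ (n + 1) * ε) ≤ ε * (2 * Q : ℝ) ^ 16 := by
          have k7 : (Q : ℝ) ^ 4 * 2 ^ (n + 1) ≤ (2 * Q : ℝ) ^ 16 := by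
            have k8 : (Q : ℝ) ^ 8 ≤ (Q : ℝ) ^ 16 := pow_le_pow_right₀ hQ1 (by norm_num)
            have k9 : (0 : ℝ) ≤ (Q : ℝ) ^ 4 := by positivity
            calc (Q : ℝ) ^ 4 * 2 ^ (n + 1) = 2 * ((Q : ℝ) ^ 4 * 2 ^ n) := by ring
              _ ≤ 2 * ((Q : ℝ) ^ 4 * ((Q : ℝ) ^ 4 / 4)) := by gcongr
              _ = (Q : ℝ) ^ 8 / 2 := by ring
              _ ≤ 2 ^ 16 * (Q : ℝ) ^ 16 := by nlinarith [pow_nonneg (zero_le_one.trans hQ1) 16]
              _ = (2 * Q : ℝ) ^ 16 := by ring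
          calc (Q : ℝ) ^ 4 * (2 ^ (n + 1) * ε) = ((Q : ℝ) ^ 4 * 2 ^ (n + 1)) * ε := by ring
            _ ≤ (2 * Q : ℝ) ^ 16 * ε := mul_le_mul_of_nonneg_right k7 hε0
            _ = ε * (2 * Q : ℝ) ^ 16 := mul_comm _ _
        exact k6.trans hε
      have k10 := hrec n
      have k11 : 2 ≤ ‖M n‖ := by linarith
      rw [pow_succ]
      nlinarith
  obtain ⟨n, hn⟩ := pow_unbounded_of_one_lt ((Q : ℝ) ^ 2) (show (1 : ℝ) < 3 / 2 by norm_num)
  have := (hind n).trans (hbd n)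
  have k1 : (0 : ℝ) ≤ (3 / 2 : ℝ) ^ n := by positivity
  linarith

end NPG
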