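import Pool.Agent.NPG.OGcd
import Pool.Agent.NPG.ONrm

set_option autoImplicit false
set_option linter.unusedSectionVars false

/-!
# NPG / OGai : the gain and the single scale inequality

`A = Al U g (2^k) 1` (average of `Uo (g m)`, `0 ≤ m < 2^k`), `Pack` from `exists_pack` (exponent `c`).

PROOF of `gain_op`.  `Y = Kop 1 k b d - Kop β (k+1) b d`, `‖Y‖ ≤ 2`, `X = 2^E`, `E = 2 e + 6`, `ρ = 2^k / X^c ≥ 1`.
`Pack.inv_op` with `lam = 1`, `M = 2^k`.  For `q ≤ X^c ≤ 2^b`: `gcd_box` at the levels `k` and `k + 1` with `m = 0` (`g 0 = 1`,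
`β ∈ FrG (k+1)`, `1 ∈ FrG k`): `‖Bj 0 q ρ * Y‖ ≤ 2 C ((2 X^c)^D / 2^b + 2^(C b) X^c / 2^k) ≤ X^(-c-1)` if `b ≥ C' e`, `k ≥ C' b`.  So
`‖A Y‖ ≤ 3 X⁻¹`.  Adjoint: `‖A* Y‖^2 = ‖Y* A A* Y‖ ≤ 2 ‖A (A* Y)‖`, and `Bj 0 q ρ * A* Y` = average over `m < 2^k` of
`Bj 0 q ρ * Uo (g m)⁻¹ * Y` (`ResidAux.adjoint_Al`), each small by `gcd_box`; so `‖A (A* Y)‖ ≤ 3 X⁻¹` and
`‖A* Y‖^2 ≤ 6 X⁻¹ ≤ (1/2)^(2 e)`.

PROOF of `single_op`.  `Q = 2^n0`, `Mk = sum_(d ≤ Q) cdd Q d Kop 1 k b d`, `Y = 1 - Mk`.  `‖Mk‖ ≤ 2` by `norm_sum_le_two` and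
`kop_gcd` (`ε = C 2^(C b) / 2^k`, `k ≥ C' b`, `b ≥ C' n0`; `adjoint_Kop`).  `X = 2^a`, `ρ = 2^k / X^c`.  For `1 ≤ q ≤ X^c ≤ Q`
(`C' a ≤ n0`) and `|m| ≤ 2^k`: `cdd_id` with `φ n = Bj 0 n ρ * Uo (g m)⁻¹`: `Bj 0 q ρ * Uo (g m)⁻¹ * Y =
sum_d cdd Q d (Bj 0 (gcd q d) ρ * Uo (g m)⁻¹ - Bj 0 q ρ * Uo (g m)⁻¹ * Kop 1 k b d)`, of norm at most
`Q^2 C ((X^c)^D / 2^b + 2^(C b) X^c / 2^k) ≤ X^(-c-1)` (`gcd_box`, `cdd_sum`).  `inv_op`: `‖A Y‖ ≤ 4 X⁻¹`, and for the adjoint as above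
`‖A* Y‖^2 ≤ 3 * 4 X⁻¹`.
-/

namespace NPG
open Finset Pool.Nil

variable {G : Type} [Group G] {σ : MulAut G} {g : ℤ → G}
variable {H : Type} [NormedAddCommGroup H] [InnerProductSpace ℂ H] [CompleteSpace H]

namespace OGaiAux

/-- inverse theorem for an operator and the adjoint average -/
lemma inv_two (fr : Frame g) (U : G →* (H ≃ₗᵢ[ℂ] H)) (h0 : g 0 = 1) {c : ℕ} {K : ℝ}
    (hP : fr.Pack U c K) {X : ℝ} {M : ℕ} (hX : 2 ≤ X) (hM : X ^ c ≤ M) (Y : H →L[ℂ] H) {B rho : ℝ}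
    (hrho : 1 ≤ rho) (hrho' : rho * X ^ c ≤ M) (hB : ‖Y‖ ≤ B)
    (hY : ∀ q : ℕ, 1 ≤ q → (q : ℝ) ≤ X ^ c → ∀ m : ℕ, m ≤ M →
      ‖fr.Bj U 0 q rho * Uo U (g m)⁻¹ * Y‖ ≤ (X ^ (c + 1))⁻¹) :
    ‖Al U g M 1 * Y‖ ≤ (B + 1) * X⁻¹ ∧
    ‖ContinuousLinearMap.adjoint (Al U g M 1) * Y‖ ^ 2 ≤ B * ((B + 1) * X⁻¹) := by
  have hX0 : 0 < X := by linarith
  have hB0 : 0 ≤ B := (norm_nonneg _).trans hB
  have gen : ∀ Z : H →L[ℂ] H, ‖Z‖ ≤ B → (∀ q : ℕ, 1 ≤ q → (q : ℝ) ≤ X ^ c →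
      ‖fr.Bj U 0 q rho * Z‖ ≤ (X ^ (c + 1))⁻¹) → ‖Al U g M 1 * Z‖ ≤ (B + 1) * X⁻¹ := by
    intro Z hZ h
    have key := hP.inv_op fr U (X := X) (lam := 1) (M := M) hX le_rfl
      (by rw [Nat.cast_one, one_mul]; exact hM) Z (rho := rho) (del := (X ^ (c + 1))⁻¹) hrho
      (by rw [Nat.cast_one, one_mul]; exact hrho') (by positivity) (by
        intro q hq hqX
        rw [one_pow, mul_one]
        exact h q hq hqX)
    refine key.trans ?_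
    have h1 : X ^ c * (X ^ (c + 1))⁻¹ = X⁻¹ := by
      rw [pow_succ]
      field_simp
    rw [h1]
    have h2 : X⁻¹ * ‖Z‖ ≤ X⁻¹ * B := mul_le_mul_of_nonneg_left hZ (by positivity)
    linarith
  have hA : ‖Al U g M 1‖ ≤ 1 := norm_Al_le U g M 1
  have hA' : ‖ContinuousLinearMap.adjoint (Al U g M 1)‖ ≤ 1 := by
    rw [LinearIsometryEquiv.norm_map]
    exact hA
  have hAY : ‖ContinuousLinearMap.adjoint (Al U g M 1) * Y‖ ≤ B := by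
    refine (norm_mul_le _ _).trans ?_
    calc ‖ContinuousLinearMap.adjoint (Al U g M 1)‖ * ‖Y‖ ≤ 1 * B :=
          mul_le_mul hA' hB (norm_nonneg _) zero_le_one
      _ = B := one_mul B
  constructor
  · refine gen Y hB fun q hq hqX => ?_
    have h := hY q hq hqX 0 (Nat.zero_le _)
    rw [Nat.cast_zero, h0, inv_one, Uo_one, mul_one] at h
    exact h
  · have h1 : ‖Al U g M 1 * (ContinuousLinearMap.adjoint (Al U g M 1) * Y)‖ ≤ (B + 1) * X⁻¹ := by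
      refine gen _ hAY fun q hq hqX => ?_
      rw [Frame.ResidAux.adjoint_Al, RepAux.avg_mul, RepAux.mul_avg]
      refine norm_avg_le_const (by positivity) fun m hm => ?_
      have h := hY q hq hqX m (mem_range.1 hm).le
      rw [Nat.cast_one, one_mul, ← mul_assoc]
      exact h
    set T : H →L[ℂ] H := ContinuousLinearMap.adjoint (Al U g M 1) * Y with hT
    have h2 : ‖T‖ ^ 2 = ‖ContinuousLinearMap.adjoint T * T‖ := by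
      rw [sq]
      exact (ContinuousLinearMap.norm_adjoint_comp_self T).symm
    have h3 : ContinuousLinearMap.adjoint T * T =
        ContinuousLinearMap.adjoint Y * (Al U g M 1 * T) := by
      have : ContinuousLinearMap.adjoint T = ContinuousLinearMap.adjoint Y * Al U g M 1 := by
        rw [hT, ResidAux.adjoint_mul', ContinuousLinearMap.adjoint_adjoint]
      rw [this, mul_assoc]
    rw [h2, h3]
    refine (norm_mul_le _ _).trans ?_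
    refine mul_le_mul ?_ h1 (norm_nonneg _) hB0
    rw [LinearIsometryEquiv.norm_map]
    exact hB

/-- the sizes -/
lemma num {s C D c E b k : ℕ} (hb : s + E * (c + 1) + C + D + E * c * D + 1 ≤ b)
    (hk : s + E * (c + 1) + C + C * b + E * c + 1 ≤ k) :
    (2 : ℝ) ^ s * (C * ((2 * 2 ^ (E * c)) ^ D / 2 ^ b + 2 ^ (C * b) / (2 ^ k / 2 ^ (E * c)))) ≤
      (((2 : ℝ) ^ E) ^ (c + 1))⁻¹ := by
  have hC : (C : ℝ) ≤ 2 ^ C := by exact_mod_cast (Nat.lt_two_pow_self (n := C)).le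
  have t1 : (2 : ℝ) ^ s * C * (2 * 2 ^ (E * c)) ^ D * 2 ^ (E * (c + 1)) * 2 ≤ 2 ^ b := by
    have e : (2 : ℝ) ^ s * 2 ^ C * (2 * 2 ^ (E * c)) ^ D * 2 ^ (E * (c + 1)) * 2 =
        2 ^ (s + E * (c + 1) + C + D + E * c * D + 1) := by
      rw [mul_pow, ← pow_mul]
      simp only [pow_add]
      ring
    calc (2 : ℝ) ^ s * C * (2 * 2 ^ (E * c)) ^ D * 2 ^ (E * (c + 1)) * 2
        ≤ (2 : ℝ) ^ s * 2 ^ C * (2 * 2 ^ (E * c)) ^ D * 2 ^ (E * (c + 1)) * 2 := by gcongr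
      _ = _ := e
      _ ≤ 2 ^ b := pow_le_pow_right₀ (by norm_num) hb
  have t2 : (2 : ℝ) ^ s * C * (2 ^ (C * b) * 2 ^ (E * c)) * 2 ^ (E * (c + 1)) * 2 ≤ 2 ^ k := by
    have e : (2 : ℝ) ^ s * 2 ^ C * (2 ^ (C * b) * 2 ^ (E * c)) * 2 ^ (E * (c + 1)) * 2 =
        2 ^ (s + E * (c + 1) + C + C * b + E * c + 1) := by
      simp only [pow_add]
      ring
    calc (2 : ℝ) ^ s * C * (2 ^ (C * b) * 2 ^ (E * c)) * 2 ^ (E * (c + 1)) * 2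
        ≤ (2 : ℝ) ^ s * 2 ^ C * (2 ^ (C * b) * 2 ^ (E * c)) * 2 ^ (E * (c + 1)) * 2 := by gcongr
      _ = _ := e
      _ ≤ 2 ^ k := pow_le_pow_right₀ (by norm_num) hk
  have hpos : (0 : ℝ) < ((2 : ℝ) ^ E) ^ (c + 1) := by positivity
  rw [← pow_mul] at hpos ⊢
  rw [← one_div, le_div_iff₀ hpos]
  have e : (2 : ℝ) ^ s * (C * ((2 * 2 ^ (E * c)) ^ D / 2 ^ b +
      2 ^ (C * b) / (2 ^ k / 2 ^ (E * c)))) * 2 ^ (E * (c + 1)) =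
      (2 : ℝ) ^ s * C * (2 * 2 ^ (E * c)) ^ D * 2 ^ (E * (c + 1)) / 2 ^ b +
        (2 : ℝ) ^ s * C * (2 ^ (C * b) * 2 ^ (E * c)) * 2 ^ (E * (c + 1)) / 2 ^ k := by
    field_simp
  rw [e]
  have u1 : (2 : ℝ) ^ s * C * (2 * 2 ^ (E * c)) ^ D * 2 ^ (E * (c + 1)) / 2 ^ b ≤ 1 / 2 := by
    rw [div_le_iff₀ (by positivity)]
    linarith
  have u2 : (2 : ℝ) ^ s * C * (2 ^ (C * b) * 2 ^ (E * c)) * 2 ^ (E * (c + 1)) / 2 ^ k ≤ 1 / 2 := by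
    rw [div_le_iff₀ (by positivity)]
    linarith
  linarith

lemma one_mem (σ : MulAut G) (g : ℤ → G) (k : ℕ) : (1 : MulAut G) ∈ FrG σ g k :=
  ⟨0, by simp, Or.inl (zpow_zero _).symm⟩

/-- `gcd_box` with the box side `ρ = 2^k / 2^n`, at the level `k` or `k + 1` -/
lemma gcd_box' {sf : SFr σ g} {U : G →* (H ≃ₗᵢ[ℂ] H)} {C b0 : ℕ}
    (hgb : ∀ (b q d k : ℕ) (ρ : ℝ) (m : ℤ) (β : MulAut G), b0 ≤ b → 1 ≤ q → 1 ≤ d → q ≤ 2 ^ b →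
      d ≤ 2 ^ b → 1 ≤ ρ → ρ ≤ 2 ^ k → |m| ≤ 2 ^ k → β ∈ FrG σ g k →
      ‖sf.fr.Bj U 0 q ρ * Uo U (g m)⁻¹ * Kop sf.fr U β k b d -
        sf.fr.Bj U 0 (Nat.gcd q d) ρ * Uo U (g m)⁻¹‖ ≤
        C * ((2 ^ k / ρ) ^ sf.fr.D / 2 ^ b + 2 ^ (C * b) / ρ))
    {b q d k k' n m : ℕ} {β : MulAut G} (hb : b0 ≤ b) (hq : 1 ≤ q) (hd : 1 ≤ d) (hqb : q ≤ 2 ^ b)
    (hdb : d ≤ 2 ^ b) (hn : n ≤ k) (hm : m ≤ 2 ^ k) (hk : k ≤ k') (hk' : k' ≤ k + 1)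
    (hβ : β ∈ FrG σ g k') :
    ‖sf.fr.Bj U 0 q (2 ^ k / 2 ^ n) * Uo U (g m)⁻¹ * Kop sf.fr U β k' b d -
        sf.fr.Bj U 0 (Nat.gcd q d) (2 ^ k / 2 ^ n) * Uo U (g m)⁻¹‖ ≤
      C * ((2 * 2 ^ n) ^ sf.fr.D / 2 ^ b + 2 ^ (C * b) / (2 ^ k / 2 ^ n)) := by
  have h1 : (1 : ℝ) ≤ 2 ^ k / 2 ^ n := by
    rw [le_div_iff₀ (by positivity), one_mul]
    exact pow_le_pow_right₀ (by norm_num) hn
  have h2 : (2 : ℝ) ^ k / 2 ^ n ≤ 2 ^ k' := by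
    rw [div_le_iff₀ (by positivity)]
    calc (2 : ℝ) ^ k ≤ 2 ^ k' := pow_le_pow_right₀ (by norm_num) hk
      _ = 2 ^ k' * 1 := (mul_one _).symm
      _ ≤ 2 ^ k' * 2 ^ n := mul_le_mul_of_nonneg_left (one_le_pow₀ (by norm_num)) (by positivity)
  have h3 : |(m : ℤ)| ≤ 2 ^ k' := by
    rw [Nat.abs_cast]
    exact_mod_cast hm.trans (Nat.pow_le_pow_right (by norm_num) hk)
  refine (hgb b q d k' (2 ^ k / 2 ^ n) m β hb hq hd hqb hdb h1 h2 h3 hβ).trans ?_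
  have h4 : (2 : ℝ) ^ k' / (2 ^ k / 2 ^ n) ≤ 2 * 2 ^ n := by
    rw [div_le_iff₀ (by positivity)]
    calc (2 : ℝ) ^ k' ≤ 2 ^ (k + 1) := pow_le_pow_right₀ (by norm_num) hk'
      _ = 2 * 2 ^ n * (2 ^ k / 2 ^ n) := by
        field_simp
        ring
  gcongr

end OGaiAux

theorem gain_op (sf : SFr σ g) (U : G →* (H ≃ₗᵢ[ℂ] H)) (W : H ≃ₗᵢ[ℂ] H)
    (hW : ∀ x, U (σ x) = W⁻¹ * U x * W) : ∃ C : ℕ, 1 ≤ C ∧
    ∀ (e b k d : ℕ) (β : MulAut G), 1 ≤ e → C * e ≤ b → C * b ≤ k → 1 ≤ d → d ≤ 2 ^ b →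
      β ∈ FrG σ g (k + 1) →
      ‖Al U g (2 ^ k) 1 * (Kop sf.fr U 1 k b d - Kop sf.fr U β (k + 1) b d)‖ ≤
        ((2 : ℝ) ^ e)⁻¹ ∧
      ‖ContinuousLinearMap.adjoint (Al U g (2 ^ k) 1) *
        (Kop sf.fr U 1 k b d - Kop sf.fr U β (k + 1) b d)‖ ≤ ((2 : ℝ) ^ e)⁻¹ := by
  obtain ⟨C, b0, hC, hgb⟩ := gcd_box sf U W hW
  obtain ⟨c, K, hP⟩ := sf.fr.exists_pack U
  obtain ⟨D, hD⟩ : ∃ D, D = sf.fr.D := ⟨_, rfl⟩
  refine ⟨8 * (c + 1) + 8 * (c * D) + 3 * C + D + b0 + 10, by omega, ?_⟩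
  intro e b k d β he hb hk hd hdb hβ
  obtain ⟨E, hE⟩ : ∃ E, E = 2 * e + 6 := ⟨_, rfl⟩
  have hE8 : E ≤ 8 * e := by omega
  have a1 : E * (c + 1) ≤ 8 * (c + 1) * e := by
    calc E * (c + 1) ≤ 8 * e * (c + 1) := Nat.mul_le_mul_right _ hE8
      _ = _ := by ring
  have a2 : E * c * D ≤ 8 * (c * D) * e := by
    calc E * c * D = E * (c * D) := by ring
      _ ≤ 8 * e * (c * D) := Nat.mul_le_mul_right _ hE8
      _ = _ := by ring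
  have a3 : 3 * C + D + b0 + 10 ≤ (3 * C + D + b0 + 10) * e := Nat.le_mul_of_pos_right _ he
  have a4 : (8 * (c + 1) + 8 * (c * D) + 3 * C + D + b0 + 10) * e =
      8 * (c + 1) * e + 8 * (c * D) * e + (3 * C + D + b0 + 10) * e := by ring
  have a5 : E * c ≤ E * (c + 1) := Nat.mul_le_mul_left _ (Nat.le_succ c)
  have hb1 : 1 + E * (c + 1) + C + D + E * c * D + 1 ≤ b := by omega
  have a6 : (C + 2) * b ≤ (8 * (c + 1) + 8 * (c * D) + 3 * C + D + b0 + 10) * b :=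
    Nat.mul_le_mul_right _ (by omega)
  have a7 : (C + 2) * b = C * b + 2 * b := by ring
  have hk1 : 1 + E * (c + 1) + C + C * b + E * c + 1 ≤ k := by omega
  have hEk : E * c ≤ k := by omega
  have hEb : E * c ≤ b := by omega
  have hb0 : b0 ≤ b := by omega
  have hnum := OGaiAux.num hb1 hk1
  have hX2 : (2 : ℝ) ≤ 2 ^ E := by
    calc (2 : ℝ) = 2 ^ 1 := by norm_num
      _ ≤ 2 ^ E := pow_le_pow_right₀ (by norm_num) (by omega)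
  have hXc : ((2 : ℝ) ^ E) ^ c = 2 ^ (E * c) := (pow_mul _ _ _).symm
  have hM : ((2 ^ k : ℕ) : ℝ) = 2 ^ k := by norm_num
  have hXk : (2 : ℝ) ^ (E * c) ≤ 2 ^ k := pow_le_pow_right₀ (by norm_num) hEk
  obtain ⟨r1, r2⟩ := OGaiAux.inv_two sf.fr U sf.g_zero hP (X := 2 ^ E) (M := 2 ^ k) hX2
    (by rw [hXc, hM]; exact hXk) (Kop sf.fr U 1 k b d - Kop sf.fr U β (k + 1) b d) (B := 2)
    (rho := 2 ^ k / 2 ^ (E * c))
    (by rw [le_div_iff₀ (by positivity), one_mul]; exact hXk)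
    (by rw [hXc, hM, div_mul_cancel₀ _ (by positivity)])
    (ResidAux.norm_sub_le_two (norm_Kop_le _ _ _ _ _ _) (norm_Kop_le _ _ _ _ _ _))
    (by
      intro q hq hqX m hm
      have hqb : q ≤ 2 ^ b := by
        rw [hXc] at hqX
        have h1 : q ≤ 2 ^ (E * c) := by exact_mod_cast hqX
        exact h1.trans (Nat.pow_le_pow_right (by norm_num) hEb)
      have h1 := OGaiAux.gcd_box' hgb (β := 1) (n := E * c) hb0 hq hd hqb hdb hEk hm le_rfl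
        (Nat.le_succ k) (OGaiAux.one_mem σ g k)
      have h2 := OGaiAux.gcd_box' hgb (n := E * c) hb0 hq hd hqb hdb hEk hm (Nat.le_succ k)
        le_rfl hβ
      refine le_trans ?_ hnum
      rw [hD, pow_one]
      have e1 : sf.fr.Bj U 0 q (2 ^ k / 2 ^ (E * c)) * Uo U (g m)⁻¹ *
          (Kop sf.fr U 1 k b d - Kop sf.fr U β (k + 1) b d) =
          (sf.fr.Bj U 0 q (2 ^ k / 2 ^ (E * c)) * Uo U (g m)⁻¹ * Kop sf.fr U 1 k b d -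
            sf.fr.Bj U 0 (Nat.gcd q d) (2 ^ k / 2 ^ (E * c)) * Uo U (g m)⁻¹) -
          (sf.fr.Bj U 0 q (2 ^ k / 2 ^ (E * c)) * Uo U (g m)⁻¹ * Kop sf.fr U β (k + 1) b d -
            sf.fr.Bj U 0 (Nat.gcd q d) (2 ^ k / 2 ^ (E * c)) * Uo U (g m)⁻¹) := by
        rw [mul_sub]
        abel
      rw [e1]
      refine (norm_sub_le _ _).trans ?_
      linarith)
  have hEe : (2 : ℝ) ^ E = 2 ^ e * 2 ^ e * 64 := by
    rw [hE, pow_add, two_mul, pow_add]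
    norm_num
  have he1 : (1 : ℝ) ≤ 2 ^ e := one_le_pow₀ (by norm_num)
  have he0 : (0 : ℝ) < 2 ^ e := by positivity
  have hinv : ((2 : ℝ) ^ E)⁻¹ = ((2 : ℝ) ^ e)⁻¹ * ((2 : ℝ) ^ e)⁻¹ / 64 := by
    rw [hEe]
    field_simp
  have hi1 : ((2 : ℝ) ^ e)⁻¹ ≤ 1 := inv_le_one_of_one_le₀ he1
  have hi0 : 0 < ((2 : ℝ) ^ e)⁻¹ := by positivity
  constructor
  · refine r1.trans ?_
    rw [hinv]
    nlinarith
  · rw [hinv] at r2
    rw [← pow_le_pow_iff_left₀ (norm_nonneg _) hi0.le two_ne_zero]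
    refine r2.trans ?_
    nlinarith [mul_pos hi0 hi0]

theorem single_op (sf : SFr σ g) (U : G →* (H ≃ₗᵢ[ℂ] H)) (W : H ≃ₗᵢ[ℂ] H)
    (hW : ∀ x, U (σ x) = W⁻¹ * U x * W) : ∃ C : ℕ, 1 ≤ C ∧
    ∀ (a n0 b k : ℕ), 1 ≤ a → C * a ≤ n0 → C * n0 ≤ b → C * b ≤ k →
      ‖Al U g (2 ^ k) 1 * (1 - ∑ d ∈ Icc 1 (2 ^ n0), cdd (2 ^ n0) d • Kop sf.fr U 1 k b d)‖ ≤
        C / Real.sqrt (2 ^ a) ∧
      ‖ContinuousLinearMap.adjoint (Al U g (2 ^ k) 1) *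
        (1 - ∑ d ∈ Icc 1 (2 ^ n0), cdd (2 ^ n0) d • Kop sf.fr U 1 k b d)‖ ≤
        C / Real.sqrt (2 ^ a) := by
  obtain ⟨C, b0, hC, hgb⟩ := gcd_box sf U W hW
  obtain ⟨C2, b2, hC2, hkg⟩ := kop_gcd sf U
  obtain ⟨c, K, hP⟩ := sf.fr.exists_pack U
  obtain ⟨D, hD⟩ : ∃ D, D = sf.fr.D := ⟨_, rfl⟩
  obtain ⟨C', hC'⟩ : ∃ C', C' = 2 * c + c * D + 3 * C + 2 * C2 + D + b0 + b2 + 50 := ⟨_, rfl⟩
  refine ⟨C', by omega, ?_⟩
  intro a n0 b k ha hn hb hk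
  have hC'1 : 1 ≤ C' := by omega
  have han : a ≤ n0 := (Nat.le_mul_of_pos_left a hC'1).trans hn
  have hnb : n0 ≤ b := (Nat.le_mul_of_pos_left n0 hC'1).trans hb
  have a1 : a * c ≤ n0 := by
    calc a * c = c * a := mul_comm _ _
      _ ≤ C' * a := Nat.mul_le_mul_right _ (by omega)
      _ ≤ n0 := hn
  have a2 : a * (c + 1) ≤ n0 * (c + 1) := Nat.mul_le_mul_right _ han
  have a3 : a * c * D ≤ n0 * (c * D) := by
    calc a * c * D = a * (c * D) := by ring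
      _ ≤ _ := Nat.mul_le_mul_right _ han
  have a4 : C + D + b0 + b2 + C2 + 17 ≤ n0 * (C + D + b0 + b2 + C2 + 17) :=
    Nat.le_mul_of_pos_left _ (by omega)
  have a5 : n0 * (2 + (c + 1) + c * D + (C + D + b0 + b2 + C2 + 17) + 16) ≤ C' * n0 := by
    rw [mul_comm C']
    exact Nat.mul_le_mul_left _ (by omega)
  have a6 : n0 * (2 + (c + 1) + c * D + (C + D + b0 + b2 + C2 + 17) + 16) =
      n0 * 2 + n0 * (c + 1) + n0 * (c * D) + n0 * (C + D + b0 + b2 + C2 + 17) + n0 * 16 := by ring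
  have hb1 : 2 * n0 + a * (c + 1) + C + D + a * c * D + 1 ≤ b := by omega
  have a7 : (C + C2 + 2) * b ≤ C' * b := Nat.mul_le_mul_right _ (by omega)
  have a8 : (C + C2 + 2) * b = C * b + C2 * b + 2 * b := by ring
  have hk1 : 2 * n0 + a * (c + 1) + C + C * b + a * c + 1 ≤ k := by omega
  have hk2 : C2 + C2 * b + (n0 + 1) * 16 ≤ k := by omega
  have hEk : a * c ≤ k := by omega
  have hb0 : b0 ≤ b := by omega
  have hb2 : b2 ≤ b := by omega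
  have hnum := OGaiAux.num hb1 hk1
  have hX2 : (2 : ℝ) ≤ 2 ^ a := by
    calc (2 : ℝ) = 2 ^ 1 := by norm_num
      _ ≤ 2 ^ a := pow_le_pow_right₀ (by norm_num) ha
  have hXc : ((2 : ℝ) ^ a) ^ c = 2 ^ (a * c) := (pow_mul _ _ _).symm
  have hM : ((2 ^ k : ℕ) : ℝ) = 2 ^ k := by norm_num
  have hXk : (2 : ℝ) ^ (a * c) ≤ 2 ^ k := pow_le_pow_right₀ (by norm_num) hEk
  -- the norm of the sum
  have hMk : ‖∑ d ∈ Icc 1 (2 ^ n0), cdd (2 ^ n0) d • Kop sf.fr U 1 k b d‖ ≤ 2 := by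
    refine norm_sum_le_two (2 ^ n0) (fun d => Kop sf.fr U 1 k b d) (fun d => ?_)
      (fun d => norm_Kop_le _ _ _ _ _ _) (ε := C2 * ((2 : ℝ) ^ (C2 * b) / 2 ^ k)) ?_ ?_
    · exact ContinuousLinearMap.isSelfAdjoint_iff'.2 (adjoint_Kop _ _ _ _ _ _)
    · have h1 : (C2 : ℝ) ≤ 2 ^ C2 := by exact_mod_cast (Nat.lt_two_pow_self (n := C2)).le
      have h2 : (2 * ((2 ^ n0 : ℕ) : ℝ)) ^ 16 = 2 ^ ((n0 + 1) * 16) := by
        have h0 : 2 * ((2 ^ n0 : ℕ) : ℝ) = 2 ^ (n0 + 1) := by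
          rw [Nat.cast_pow, Nat.cast_ofNat, pow_succ, mul_comm]
        rw [h0, ← pow_mul]
      rw [h2]
      have h3 : (C2 : ℝ) * (2 ^ (C2 * b) / 2 ^ k) * 2 ^ ((n0 + 1) * 16) =
          C2 * 2 ^ (C2 * b) * 2 ^ ((n0 + 1) * 16) / 2 ^ k := by
        field_simp
      rw [h3, div_le_one (by positivity)]
      calc (C2 : ℝ) * 2 ^ (C2 * b) * 2 ^ ((n0 + 1) * 16)
          ≤ 2 ^ C2 * 2 ^ (C2 * b) * 2 ^ ((n0 + 1) * 16) := by gcongr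
        _ = 2 ^ (C2 + C2 * b + (n0 + 1) * 16) := by rw [pow_add, pow_add]
        _ ≤ 2 ^ k := pow_le_pow_right₀ (by norm_num) hk2
    · intro d hd d' hd'
      rw [mem_Icc] at hd hd'
      have h2b : 2 ^ n0 ≤ 2 ^ b := Nat.pow_le_pow_right (by norm_num) hnb
      exact hkg b d d' k hb2 hd.1 hd'.1 (hd.2.trans h2b) (hd'.2.trans h2b)
  have hY3 : ‖1 - ∑ d ∈ Icc 1 (2 ^ n0), cdd (2 ^ n0) d • Kop sf.fr U 1 k b d‖ ≤ 3 := by
    refine (norm_sub_le _ _).trans ?_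
    have h2 : ‖(1 : H →L[ℂ] H)‖ ≤ 1 := ContinuousLinearMap.norm_id_le
    linarith
  obtain ⟨r1, r2⟩ := OGaiAux.inv_two sf.fr U sf.g_zero hP (X := 2 ^ a) (M := 2 ^ k) hX2
    (by rw [hXc, hM]; exact hXk)
    (1 - ∑ d ∈ Icc 1 (2 ^ n0), cdd (2 ^ n0) d • Kop sf.fr U 1 k b d) (B := 3)
    (rho := 2 ^ k / 2 ^ (a * c))
    (by rw [le_div_iff₀ (by positivity), one_mul]; exact hXk)
    (by rw [hXc, hM, div_mul_cancel₀ _ (by positivity)]) hY3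
    (by
      intro q hq hqX m hm
      rw [hXc] at hqX
      have hq1 : q ≤ 2 ^ (a * c) := by exact_mod_cast hqX
      have hqn : q ≤ 2 ^ n0 := hq1.trans (Nat.pow_le_pow_right (by norm_num) a1)
      have h2b : 2 ^ n0 ≤ 2 ^ b := Nat.pow_le_pow_right (by norm_num) hnb
      set φ : ℕ → (H →L[ℂ] H) := fun n =>
        sf.fr.Bj U 0 n (2 ^ k / 2 ^ (a * c)) * Uo U (g m)⁻¹ with hφ
      set V : ℝ := C * ((2 * 2 ^ (a * c)) ^ sf.fr.D / 2 ^ b +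
        2 ^ (C * b) / (2 ^ k / 2 ^ (a * c))) with hV
      have hV0 : 0 ≤ V := by positivity
      have h1 : ∀ d ∈ Icc 1 (2 ^ n0), ‖φ q * Kop sf.fr U 1 k b d - φ (Nat.gcd q d)‖ ≤ V := by
        intro d hd
        rw [mem_Icc] at hd
        exact OGaiAux.gcd_box' hgb (β := 1) (n := a * c) hb0 hq hd.1 (hqn.trans h2b)
          (hd.2.trans h2b) hEk hm le_rfl (Nat.le_succ k) (OGaiAux.one_mem σ g k)
      have e1 : φ q * (1 - ∑ d ∈ Icc 1 (2 ^ n0), cdd (2 ^ n0) d • Kop sf.fr U 1 k b d) =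
          ∑ d ∈ Icc 1 (2 ^ n0), cdd (2 ^ n0) d •
            (φ (Nat.gcd q d) - φ q * Kop sf.fr U 1 k b d) := by
        simp only [smul_sub]
        rw [sum_sub_distrib, cdd_id φ hq hqn, mul_sub, mul_one, mul_sum]
        congr 1
        exact sum_congr rfl fun d _ => mul_smul_comm _ _ _
      rw [e1]
      refine (norm_sum_le_of_le _ (f := fun d => cdd (2 ^ n0) d •
            (φ (Nat.gcd q d) - φ q * Kop sf.fr U 1 k b d))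
            (n := fun d => |cdd (2 ^ n0) d| * V) fun d hd => ?_).trans ?_
      · rw [norm_smul, Real.norm_eq_abs, norm_sub_rev]
        exact mul_le_mul_of_nonneg_left (h1 d hd) (abs_nonneg _)
      · rw [← sum_mul]
        have h3 := mul_le_mul_of_nonneg_right (cdd_sum (2 ^ n0)) hV0
        refine h3.trans ?_
        refine le_trans (le_of_eq ?_) hnum
        rw [hV, ← hD, Nat.cast_pow, Nat.cast_ofNat, ← pow_mul, mul_comm n0 2])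
  have hX0 : (0 : ℝ) < 2 ^ a := by positivity
  have hs : 0 < Real.sqrt (2 ^ a) := Real.sqrt_pos.2 hX0
  have hss : Real.sqrt (2 ^ a) * Real.sqrt (2 ^ a) = 2 ^ a := Real.mul_self_sqrt hX0.le
  have hs1 : 1 ≤ Real.sqrt (2 ^ a) := by
    rw [Real.one_le_sqrt]
    linarith
  have hC4 : (4 : ℝ) ≤ C' := by
    have : 4 ≤ C' := by omega
    exact_mod_cast this
  have hinv : ((2 : ℝ) ^ a)⁻¹ = (Real.sqrt (2 ^ a))⁻¹ * (Real.sqrt (2 ^ a))⁻¹ := by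
    rw [← mul_inv, hss]
  have hi1 : (Real.sqrt (2 ^ a))⁻¹ ≤ 1 := inv_le_one_of_one_le₀ hs1
  have hi0 : 0 < (Real.sqrt (2 ^ a))⁻¹ := by positivity
  rw [hinv] at r1 r2
  constructor
  · refine r1.trans ?_
    rw [div_eq_mul_inv]
    nlinarith
  · rw [div_eq_mul_inv, ← pow_le_pow_iff_left₀ (norm_nonneg _) (by positivity) two_ne_zero]
    refine r2.trans ?_
    rw [mul_pow]
    have h16 : (16 : ℝ) ≤ (C' : ℝ) ^ 2 := by nlinarith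
    nlinarith [mul_pos hi0 hi0, mul_le_mul_of_nonneg_right h16 (mul_pos hi0 hi0).le]

end NPG
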