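import Pool.Agent.NPG.OAo
import Pool.Agent.NPG.OCos
import Pool.Agent.NPG.OBez

set_option autoImplicit false

/-!
# NPG / OGcd : products of box averages and kernels

PROOF of `gcd_box`.  `n0 = gcd q d`, `B = Bj 0 q ρ`, `Bg = Bj 0 n0 ρ`, `x0 = (g m)⁻¹`, errors: `E1 = (2^k/ρ)^D / 2^b`,
`E2 = 2^(C b) / ρ`.  (If `K E1 > 1` or `K E2 > 1` for the constants below the claim is trivial.)
(i) `Bg Uo x0 (Kop β - 1)`: average over `p` of `Bg (Uo (x0 (β (zz p)) x0⁻¹) - 1) Uo x0`; by `zz_mem` (`k' = k`), `sm_fr` (for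
`β` and for the conjugation by `g m`, i.e. `sm_fr` for `conj (g m) * σ^m` and `σ^m`; or repeat its proof) the
element is in `Sm 1 d (2^k) (K / 2^b) ⊆ Sm 1 n0 ρ (K E1)` (`Sm_dvd`, `Sm_down`); `Pack.ni` (or `Pool.Nil` `ni`).
(ii) `‖Bg - B * Ga n0 (q / n0)‖ ≤ K q / ρ` (`Pack.coset`).
(iii) `B * Ga n0 (q/n0) * Uo x0 * Kop β` is close to `B * Uo x0 * Kop β`: for `y = kap (mo(n0) z)`, `0 ≤ z_i < q/n0`,
`y ∈ Sm 1 n0 ρ (W^D q / ρ)`; `bezout` with `p = q`, `q = d`, `R = ρ`: `y = h1 h2`, `h1 ∈ Sm 1 q ρ e`,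
`h2 ∈ Sm 1 d ρ e ⊆ Sm 1 d (2^k) e` (`Sm_up`), `e = K (q + q d) / ρ ≤ K 2^(2 b + 1) / ρ`.  `B Uo h1` is within `K e` of `B` (`ni`).
`Uo h2 * Uo x0 * Kop β = Uo x0 * Uo (x0⁻¹ h2 x0) * Kop β`, `Kop β = V D* D V⁻¹`, `Uo y' * V = V * Uo (β⁻¹ y')`, and
`β⁻¹ (x0⁻¹ h2 x0) ∈ Sm 1 d (2^k) (K e) = Sm 1 d (2^k) (η / 2^b)`, `η = K 2^b e`, so `(Uo (..) - 1) D*` is at most `K η` (adjoint of
`D (Uo (..)⁻¹ - 1)`, `db_abs`, `sm_inv`).

PROOF of `kop_gcd`.  `K_d = Kop 1 k b d = D_d* D_d`, `n0 = gcd d d'`; every error is `≤ C 2^(C b) / 2^k`.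
(1) `D_d D_d'* ~ D_n0 D_n0*`: `D_n0 ~ D_d Ga_1`, `D_n0 ~ D_d' Ga_2` (`db_coset`, `Ga_1 = Ga n0 (d/n0)`, `Ga_2 = Ga n0 (d'/n0)`), so
`D_n0 D_n0* ~ D_d Ga_1 Ga_2* D_d'*` = average of `D_d Uo (y y'⁻¹) D_d'*`; `y y'⁻¹ ∈ Sm 1 n0 (2^k) (K 2^b / 2^k)` is `h1 h2`
(`bezout`) and `D_d Uo h1 ~ D_d`, `Uo h2 D_d'* ~ D_d'*` (`db_abs`).
(2) `D_d* D_n0 ~ D_n0* D_n0`: `D_n0 ~ Ga_1 D_d` (second part of `db_coset`), so `D_n0* D_n0 ~ D_d* Ga_1* D_n0`, and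
`Ga_1* D_n0 ~ D_n0` (`db_abs`).  Adjoint: `D_n0* D_d' ~ D_n0* D_n0`.
(3) `K_d K_d' = D_d* (D_d D_d'*) D_d' ~ D_d* D_n0 D_n0* D_d' ~ D_n0* D_n0 D_n0* D_n0 = K_n0^2`.
-/

namespace NPG
open Finset Pool.Nil

variable {G : Type} [Group G] {σ : MulAut G} {g : ℤ → G}
variable {H : Type} [NormedAddCommGroup H] [InnerProductSpace ℂ H] [CompleteSpace H]

namespace GcdAux

/-- conjugation by `g m` -/
lemma conj_g (sf : SFr σ g) : ∃ K : ℝ, 1 ≤ K ∧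
    ∀ (k d : ℕ) (del : ℝ) (m : ℤ) (x : G), 1 ≤ d → 0 ≤ del → K * del ≤ 1 → |m| ≤ 2 ^ k →
      x ∈ sf.fr.Sm 1 d ((2 : ℝ) ^ k) del →
      (g m)⁻¹ * x * g m ∈ sf.fr.Sm 1 d ((2 : ℝ) ^ k) (K * del) ∧
      g m * x * (g m)⁻¹ ∈ sf.fr.Sm 1 d ((2 : ℝ) ^ k) (K * del) := by
  obtain ⟨K, hK, h⟩ := sm_fr sf
  refine ⟨K * K, by nlinarith, fun k d del m x hd hdel hK1 hm hx => ?_⟩
  have hKd : 0 ≤ K * del := by positivity
  have h0 : K * del ≤ 1 := by nlinarith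
  have hσ : σ ^ m ∈ FrG σ g k := ⟨m, hm, Or.inl rfl⟩
  have hα : MulAut.conj (g m) * σ ^ m ∈ FrG σ g k := ⟨m, hm, Or.inr rfl⟩
  constructor
  · have h1 := (h k d del _ x hd hdel h0 hα hx).2
    have h2 := (h k d (K * del) _ _ hd hKd (by linarith) hσ h1).1
    have e : (σ ^ m) ((MulAut.conj (g m) * σ ^ m)⁻¹ x) = (g m)⁻¹ * x * g m := by
      rw [mul_inv_rev, MulAut.mul_apply, MulAut.apply_inv_self, ← map_inv, MulAut.conj_apply, inv_inv]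
    rw [e] at h2
    rwa [mul_assoc K]
  · have h1 := (h k d del _ x hd hdel h0 hσ hx).2
    have h2 := (h k d (K * del) _ _ hd hKd (by linarith) hα h1).1
    have e : (MulAut.conj (g m) * σ ^ m) ((σ ^ m)⁻¹ x) = g m * x * (g m)⁻¹ := by
      rw [MulAut.mul_apply, MulAut.apply_inv_self, MulAut.conj_apply]
    rw [e] at h2
    rwa [mul_assoc K]

lemma adj_le (U : G →* (H ≃ₗᵢ[ℂ] H)) (A : H →L[ℂ] H) (x : G) :
    ‖Uo U x * ContinuousLinearMap.adjoint A - ContinuousLinearMap.adjoint A‖ =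
      ‖A * Uo U x⁻¹ - A‖ := by
  have e : ContinuousLinearMap.adjoint (A * Uo U x⁻¹ - A) =
      Uo U x * ContinuousLinearMap.adjoint A - ContinuousLinearMap.adjoint A := by
    rw [map_sub, ResidAux.adjoint_mul', adjoint_Uo, inv_inv]
  rw [← e, LinearIsometryEquiv.norm_map]

omit [CompleteSpace H] in
lemma norm_V (V : H ≃ₗᵢ[ℂ] H) : ‖(V.toContinuousLinearEquiv : H →L[ℂ] H)‖ ≤ 1 := by
  refine ContinuousLinearMap.opNorm_le_bound _ zero_le_one fun v => ?_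
  rw [one_mul]
  exact (V.norm_map v).le

lemma mul3_le {A B C : H →L[ℂ] H} {c : ℝ} (hA : ‖A‖ ≤ 1) (hB : ‖B‖ ≤ c) (hC : ‖C‖ ≤ 1) :
    ‖A * B * C‖ ≤ c := by
  have h0 : 0 ≤ c := (norm_nonneg _).trans hB
  calc ‖A * B * C‖ ≤ ‖A * B‖ * ‖C‖ := norm_mul_le _ _
    _ ≤ (‖A‖ * ‖B‖) * ‖C‖ := mul_le_mul_of_nonneg_right (norm_mul_le _ _) (norm_nonneg _)
    _ ≤ (1 * c) * 1 := by gcongr
    _ = c := by ring

lemma mul2_le {A B : H →L[ℂ] H} {c : ℝ} (hA : ‖A‖ ≤ 1) (hB : ‖B‖ ≤ c) : ‖A * B‖ ≤ c := by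
  have h0 : 0 ≤ c := (norm_nonneg _).trans hB
  calc ‖A * B‖ ≤ ‖A‖ * ‖B‖ := norm_mul_le _ _
    _ ≤ 1 * c := by gcongr
    _ = c := by ring

lemma mul2_le' {A B : H →L[ℂ] H} {c : ℝ} (hA : ‖A‖ ≤ c) (hB : ‖B‖ ≤ 1) : ‖A * B‖ ≤ c := by
  have h0 : 0 ≤ c := (norm_nonneg _).trans hA
  calc ‖A * B‖ ≤ ‖A‖ * ‖B‖ := norm_mul_le _ _
    _ ≤ c * 1 := by gcongr
    _ = c := by ring

/-- absorption of small elements by `Kop` -/
lemma kop_abs (sf : SFr σ g) (U : G →* (H ≃ₗᵢ[ℂ] H)) (W : H ≃ₗᵢ[ℂ] H)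
    (hW : ∀ x, U (σ x) = W⁻¹ * U x * W) : ∃ K : ℝ, 1 ≤ K ∧
    ∀ (k b d : ℕ) (del : ℝ) (β : MulAut G) (y : G), 1 ≤ d → 0 ≤ del → K * (2 ^ b * del) ≤ 1 →
      β ∈ FrG σ g k → y ∈ sf.fr.Sm 1 d ((2 : ℝ) ^ k) del →
      ‖Uo U y * Kop sf.fr U β k b d - Kop sf.fr U β k b d‖ ≤ K * (2 ^ b * del) := by
  obtain ⟨K1, hK1, h1⟩ := sm_fr sf
  obtain ⟨K2, hK2, h2⟩ := db_abs sf.fr U
  obtain ⟨K3, hc⟩ := sf.fr.exists_consts
  have hK3 := hc.one_le
  have hA1 : 1 ≤ K3 * K1 := by nlinarith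
  have hA2 : K1 ≤ K3 * K1 := by nlinarith
  have hA3 : K3 * K1 ≤ K2 * (K3 * K1) := by nlinarith
  refine ⟨K2 * (K3 * K1), by nlinarith, fun k b d del β y hd hdel hsm hβ hy => ?_⟩
  have hb : (1 : ℝ) ≤ 2 ^ b := one_le_pow₀ (by norm_num)
  have hR : (1 : ℝ) ≤ 2 ^ k := one_le_pow₀ (by norm_num)
  have hbd : del ≤ 2 ^ b * del := by nlinarith
  have hbd0 : 0 ≤ 2 ^ b * del := hdel.trans hbd
  have hη1 : K3 * K1 * (2 ^ b * del) ≤ 1 := (mul_le_mul_of_nonneg_right hA3 hbd0).trans hsm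
  have hs1 : K1 * del ≤ 1 := by
    calc K1 * del ≤ K3 * K1 * (2 ^ b * del) :=
          mul_le_mul hA2 hbd hdel (by linarith)
      _ ≤ 1 := hη1
  have hs0 : 0 ≤ K1 * del := by positivity
  have m1 := (h1 k d del β y hd hdel hs1 hβ hy).2
  have m2 := hc.sm_inv 1 d _ _ _ hR hs0 hs1 m1
  have m3 : (β⁻¹ y)⁻¹ ∈ sf.fr.Sm 1 d ((2 : ℝ) ^ k) (K3 * K1 * (2 ^ b * del) / 2 ^ b) := by
    have e : K3 * K1 * (2 ^ b * del) / 2 ^ b = K3 * (K1 * del) := by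
      field_simp
    rw [e]
    exact m2
  have m4 := (h2 k b d _ _ hd (by positivity) hη1 m3).1
  obtain ⟨V, hV⟩ := frg_unit U W hW hβ
  have hk := kop_eq sf.fr U hV k b d
  have hVy : Uo U y * (V.toContinuousLinearEquiv : H →L[ℂ] H) =
      (V.toContinuousLinearEquiv : H →L[ℂ] H) * Uo U (β⁻¹ y) := by
    ext v
    have e1 := hV (β⁻¹ y)
    rw [MulAut.apply_inv_self] at e1
    have e2 := congrArg (fun f : H ≃ₗᵢ[ℂ] H => f (V v)) e1
    have e3 : (V * U (β⁻¹ y) * V⁻¹) (V v) = V (U (β⁻¹ y) v) := by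
      show V (U (β⁻¹ y) (V⁻¹ (V v))) = _
      congr 2
      exact V.symm_apply_apply v
    exact e2.trans e3
  rw [hk]
  have e : Uo U y * ((V.toContinuousLinearEquiv : H →L[ℂ] H) *
      (ContinuousLinearMap.adjoint (Db sf.fr U k b d) * Db sf.fr U k b d) *
        (V⁻¹.toContinuousLinearEquiv : H →L[ℂ] H)) -
      (V.toContinuousLinearEquiv : H →L[ℂ] H) *
      (ContinuousLinearMap.adjoint (Db sf.fr U k b d) * Db sf.fr U k b d) *
        (V⁻¹.toContinuousLinearEquiv : H →L[ℂ] H) =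
      (V.toContinuousLinearEquiv : H →L[ℂ] H) *
        (Uo U (β⁻¹ y) * ContinuousLinearMap.adjoint (Db sf.fr U k b d) -
          ContinuousLinearMap.adjoint (Db sf.fr U k b d)) *
        (Db sf.fr U k b d * (V⁻¹.toContinuousLinearEquiv : H →L[ℂ] H)) := by
    rw [mul_sub, sub_mul, ← mul_assoc (Uo U y), ← mul_assoc (Uo U y), hVy]
    noncomm_ring
  rw [e]
  refine (mul3_le (norm_V V) ?_ (mul2_le (norm_Db_le sf.fr U k b d) (norm_V _))).trans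
    (le_of_eq (by ring : K2 * (K3 * K1 * (2 ^ b * del)) = _))
  rw [adj_le]
  exact m4

/-- the elements of the coset averages are small -/
lemma ga_mem (fr : Frame g) {Q n : ℕ} {R : ℝ} (hR : 1 ≤ R) {z : Fin fr.r → ℤ}
    (hz : z ∈ Fintype.piFinset fun _ : Fin fr.r => Ico 0 (n : ℤ)) :
    kap fr.c (fun i => (fr.mo Q i : ℤ) * z i) ∈
      fr.Sm 1 Q R ((fr.W : ℝ) ^ fr.D * ((Q : ℝ) * n / R)) :=
  ⟨_, rfl, fun i hi => by
    have := fr.one_le_w i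
    omega, fun i => Dvd.intro _ rfl, fun i => CosetAux.mem_Ga fr hR hz i⟩

lemma ga_ne (fr : Frame g) {n : ℕ} (hn : 1 ≤ n) :
    (Fintype.piFinset fun _ : Fin fr.r => Ico 0 (n : ℤ)).Nonempty :=
  ⟨fun _ => 0, Fintype.mem_piFinset.2 fun _ => mem_Ico.2 ⟨le_rfl, by omega⟩⟩

/-- step (i) -/
lemma step1 (sf : SFr σ g) (U : G →* (H ≃ₗᵢ[ℂ] H)) : ∃ (K : ℝ) (b0 : ℕ), 1 ≤ K ∧
    ∀ (b d n0 k : ℕ) (ρ : ℝ) (m : ℤ) (β : MulAut G), b0 ≤ b → 1 ≤ d → 1 ≤ n0 → n0 ∣ d → 1 ≤ ρ →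
      ρ ≤ 2 ^ k → |m| ≤ 2 ^ k → β ∈ FrG σ g k → K * ((2 ^ k / ρ) ^ sf.fr.D / 2 ^ b) ≤ 1 →
      ‖sf.fr.Bj U 0 n0 ρ * Uo U (g m)⁻¹ * Kop sf.fr U β k b d -
        sf.fr.Bj U 0 n0 ρ * Uo U (g m)⁻¹‖ ≤ K * ((2 ^ k / ρ) ^ sf.fr.D / 2 ^ b) := by
  obtain ⟨K1, b1, hK1, h1⟩ := zz_mem sf.fr
  obtain ⟨K2, hK2, h2⟩ := sm_fr sf
  obtain ⟨K3, hK3, h3⟩ := conj_g sf
  obtain ⟨K4, hK4, h4⟩ := sf.fr.ni U
  have hA1 : 1 ≤ K2 * K1 := by nlinarith
  have hA2 : 1 ≤ K3 * (K2 * K1) := by nlinarith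
  have hA2' : K2 * K1 ≤ K3 * (K2 * K1) := by nlinarith
  have hA3 : K3 * (K2 * K1) ≤ K4 * (K3 * (K2 * K1)) := by nlinarith
  refine ⟨K4 * (K3 * (K2 * K1)), b1, by linarith, ?_⟩
  intro b d n0 k ρ m β hb hd hn0 hdvd hρ hρk hm hβ hsm
  have hR : (1 : ℝ) ≤ 2 ^ k := one_le_pow₀ (by norm_num)
  have hρ0 : 0 < ρ := by linarith
  have hE : (1 : ℝ) / 2 ^ b ≤ (2 ^ k / ρ) ^ sf.fr.D / 2 ^ b := by
    refine div_le_div_of_nonneg_right ?_ (by positivity)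
    exact one_le_pow₀ ((one_le_div hρ0).2 hρk)
  obtain ⟨E, hEd⟩ : ∃ E : ℝ, E = (2 ^ k / ρ) ^ sf.fr.D / 2 ^ b := ⟨_, rfl⟩
  have hE0 : 0 ≤ E := by rw [hEd]; positivity
  have hu0 : (0 : ℝ) ≤ 1 / 2 ^ b := by positivity
  have hsm2 : K3 * (K2 * K1) * E ≤ 1 := by
    rw [← hEd] at hsm
    exact (mul_le_mul_of_nonneg_right hA3 hE0).trans hsm
  have hsm3 : K3 * (K2 * K1) * (1 / 2 ^ b) ≤ 1 := by
    rw [← hEd] at hE
    exact (mul_le_mul_of_nonneg_left hE (by linarith)).trans hsm2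
  have hsm4 : K2 * K1 * (1 / 2 ^ b) ≤ 1 := (mul_le_mul_of_nonneg_right hA2' hu0).trans hsm3
  have hne : (bx (Mb sf.fr k b d) ×ˢ bx (Mb sf.fr k b d)).Nonempty :=
    (bx_nonempty _).product (bx_nonempty _)
  have e : sf.fr.Bj U 0 n0 ρ * Uo U (g m)⁻¹ * Kop sf.fr U β k b d -
      sf.fr.Bj U 0 n0 ρ * Uo U (g m)⁻¹ =
      avg (bx (Mb sf.fr k b d) ×ˢ bx (Mb sf.fr k b d)) (fun p =>
        (sf.fr.Bj U 0 n0 ρ * Uo U ((g m)⁻¹ * β (zz sf.fr d p) * g m) -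
          sf.fr.Bj U 0 n0 ρ) * Uo U (g m)⁻¹) := by
    unfold Kop
    rw [RepAux.mul_avg]
    have e2 : sf.fr.Bj U 0 n0 ρ * Uo U (g m)⁻¹ =
        avg (bx (Mb sf.fr k b d) ×ˢ bx (Mb sf.fr k b d)) (fun _ =>
          sf.fr.Bj U 0 n0 ρ * Uo U (g m)⁻¹) := (avg_const hne _).symm
    nth_rewrite 2 [e2]
    rw [← avg_sub]
    refine avg_congr fun p _ => ?_
    rw [sub_mul, mul_assoc, mul_assoc, ← Uo_mul, ← Uo_mul]
    congr 3
    group
  rw [e]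
  refine norm_avg_le_const (by rw [← hEd]; positivity) fun p hp => ?_
  rw [Finset.mem_product] at hp
  refine mul2_le' ?_ (norm_Uo_le U _)
  have m1 := h1 k k b d p hb hd le_rfl hp.1 hp.2
  have e1 : K1 * (2 ^ k / 2 ^ k) / 2 ^ b = K1 * (1 / 2 ^ b : ℝ) := by
    rw [div_self (by positivity)]
    ring
  rw [e1] at m1
  have m2 := (h2 k d _ β _ hd (by positivity) (by rw [← mul_assoc]; exact hsm4) hβ m1).1
  have m3 := (h3 k d _ m _ hd (by positivity) (by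
    calc K3 * (K2 * (K1 * (1 / 2 ^ b))) = K3 * (K2 * K1) * (1 / 2 ^ b) := by ring
      _ ≤ 1 := hsm3) hm m2).1
  have m4 := sf.fr.Sm_down hρ hρk (by positivity) (sf.fr.Sm_dvd hdvd m3)
  have e4 : K3 * (K2 * (K1 * (1 / 2 ^ b))) * (2 ^ k / ρ) ^ sf.fr.D = K3 * (K2 * K1) * E := by
    rw [hEd]
    ring
  rw [e4] at m4
  have m5 := (h4 0 n0 ρ _ _ hn0 hρ (by positivity) hsm2 m4).2
  refine m5.trans (le_of_eq ?_)
  rw [hEd]
  ring

/-- step (iii) -/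
lemma step3 (sf : SFr σ g) (U : G →* (H ≃ₗᵢ[ℂ] H)) (W : H ≃ₗᵢ[ℂ] H)
    (hW : ∀ x, U (σ x) = W⁻¹ * U x * W) : ∃ (K : ℝ), 1 ≤ K ∧
    ∀ (b q d k n0 n : ℕ) (ρ : ℝ) (m : ℤ) (β : MulAut G), 1 ≤ q → 1 ≤ d → q ≤ 2 ^ b →
      d ≤ 2 ^ b → n0 = Nat.gcd q d → n0 * n = q → 1 ≤ ρ → ρ ≤ 2 ^ k → |m| ≤ 2 ^ k →
      β ∈ FrG σ g k → K * (2 ^ (3 * b) / ρ) ≤ 1 →
      ‖sf.fr.Bj U 0 q ρ * sf.fr.Ga U n0 n * Uo U (g m)⁻¹ * Kop sf.fr U β k b d -
        sf.fr.Bj U 0 q ρ * Uo U (g m)⁻¹ * Kop sf.fr U β k b d‖ ≤ K * (2 ^ (3 * b) / ρ) := by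
  obtain ⟨K3, hK3, h3⟩ := conj_g sf
  obtain ⟨K4, hK4, h4⟩ := sf.fr.ni U
  obtain ⟨K6, hK6, h6⟩ := bezout sf.fr
  obtain ⟨K7, hK7, h7⟩ := kop_abs sf U W hW
  have hWD := CosetAux.WD_one sf.fr
  obtain ⟨w, hw⟩ : ∃ w : ℝ, w = (sf.fr.W : ℝ) ^ sf.fr.D := ⟨_, rfl⟩
  rw [← hw] at hWD
  obtain ⟨c, hc⟩ : ∃ c : ℝ, c = K6 * (w + 1) := ⟨_, rfl⟩
  have hc1 : 1 ≤ c := by rw [hc]; nlinarith
  have hc2 : c ≤ K3 * c := by nlinarith
  have hc3 : K3 * c ≤ K7 * (K3 * c) := by nlinarith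
  have hc4 : 0 ≤ K4 * c := by positivity
  refine ⟨K4 * c + K7 * (K3 * c), by linarith, ?_⟩
  intro b q d k n0 n ρ m β hq hd hqb hdb hn0 hn hρ hρk hm hβ hsm
  have hR : (1 : ℝ) ≤ 2 ^ k := one_le_pow₀ (by norm_num)
  have hρ0 : 0 < ρ := by linarith
  have hb1 : (1 : ℝ) ≤ 2 ^ b := one_le_pow₀ (by norm_num)
  have hqb' : (q : ℝ) ≤ 2 ^ b := by exact_mod_cast hqb
  have hdb' : (d : ℝ) ≤ 2 ^ b := by exact_mod_cast hdb
  have hd1 : (1 : ℝ) ≤ d := by exact_mod_cast hd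
  have hq1 : (1 : ℝ) ≤ q := by exact_mod_cast hq
  obtain ⟨E, hEd⟩ : ∃ E : ℝ, E = (2 : ℝ) ^ (2 * b) / ρ := ⟨_, rfl⟩
  have hE0 : 0 ≤ E := by rw [hEd]; positivity
  have hE3 : (2 : ℝ) ^ (3 * b) / ρ = 2 ^ b * E := by
    rw [hEd, show 3 * b = b + 2 * b by ring, pow_add]
    ring
  rw [hE3] at hsm ⊢
  have hbE : E ≤ 2 ^ b * E := by nlinarith
  have hbE0 : 0 ≤ 2 ^ b * E := by positivity
  have s1 : K7 * (K3 * c) * (2 ^ b * E) ≤ 1 := by nlinarith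
  have s2 : K3 * c * (2 ^ b * E) ≤ 1 := (mul_le_mul_of_nonneg_right hc3 hbE0).trans s1
  have s3 : K3 * c * E ≤ 1 := (mul_le_mul_of_nonneg_left hbE (by positivity)).trans s2
  have s4 : c * E ≤ 1 := (mul_le_mul_of_nonneg_right hc2 hE0).trans s3
  have hn1 : 1 ≤ n := by
    rcases Nat.eq_zero_or_pos n with h | h
    · rw [h, mul_zero] at hn
      omega
    · exact h
  have hnq : (n0 : ℝ) * n = q := by exact_mod_cast hn
  have hqE : (q : ℝ) / ρ ≤ E := by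
    rw [hEd]
    refine div_le_div_of_nonneg_right ?_ hρ0.le
    rw [show 2 * b = b + b by ring, pow_add]
    nlinarith
  have hqdE : (q : ℝ) * d / ρ ≤ E := by
    rw [hEd]
    refine div_le_div_of_nonneg_right ?_ hρ0.le
    rw [show 2 * b = b + b by ring, pow_add]
    nlinarith
  have hse : K6 * (w * (q / ρ) + q * d / ρ) ≤ c * E := by
    have : w * (q / ρ) + q * d / ρ ≤ (w + 1) * E := by nlinarith
    rw [hc, mul_assoc]
    exact mul_le_mul_of_nonneg_left this (by linarith)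
  have hne := ga_ne sf.fr hn1
  have e : sf.fr.Bj U 0 q ρ * sf.fr.Ga U n0 n * Uo U (g m)⁻¹ * Kop sf.fr U β k b d -
        sf.fr.Bj U 0 q ρ * Uo U (g m)⁻¹ * Kop sf.fr U β k b d =
      avg (Fintype.piFinset fun _ : Fin sf.fr.r => Ico 0 (n : ℤ)) (fun z =>
        sf.fr.Bj U 0 q ρ * Uo U (kap sf.fr.c (fun i => (sf.fr.mo n0 i : ℤ) * z i)) *
          (Uo U (g m)⁻¹ * Kop sf.fr U β k b d) -
          sf.fr.Bj U 0 q ρ * (Uo U (g m)⁻¹ * Kop sf.fr U β k b d)) := by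
    rw [avg_sub, avg_const hne, ← RepAux.avg_mul, ← RepAux.mul_avg]
    unfold Frame.Ga
    simp only [mul_assoc]
  rw [e]
  refine norm_avg_le_const (by positivity) fun z hz => ?_
  have m1 := ga_mem sf.fr (Q := n0) hρ hz
  rw [← hw, hnq, hn0] at m1
  obtain ⟨y1, y2, hy, hy1, hy2⟩ := h6 q d ρ _ _ hq hd hρ (by positivity) (hse.trans s4) m1
  rw [← hn0] at hy
  rw [hy]
  have hy1' := sf.fr.Sm_mono hρ0.le le_rfl hse hy1
  have hy2' := sf.fr.Sm_mono hρ0.le le_rfl hse hy2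
  have n1 := (h4 0 q ρ _ _ hq hρ (by positivity) s4 hy1').2
  have hy3 := sf.fr.Sm_up hρ hρk (by positivity) hy2'
  have hy4 : y2 ∈ sf.fr.Sm 1 d ((2 : ℝ) ^ k) (c * E) := by
    refine sf.fr.Sm_mono (by linarith) le_rfl ?_ hy3
    have : ρ / 2 ^ k ≤ 1 := (div_le_one (by positivity)).2 hρk
    have h0 : 0 ≤ c * E := by positivity
    nlinarith
  have hy5 := (h3 k d _ m _ hd (by positivity) (by rw [← mul_assoc]; exact s3) hm hy4).2
  have n2 := h7 k b d _ β _ hd (by positivity) (by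
    calc K7 * (2 ^ b * (K3 * (c * E))) = K7 * (K3 * c) * (2 ^ b * E) := by ring
      _ ≤ 1 := s1) hβ hy5
  have e2 : sf.fr.Bj U 0 q ρ * Uo U (y1 * y2) * (Uo U (g m)⁻¹ * Kop sf.fr U β k b d) -
      sf.fr.Bj U 0 q ρ * (Uo U (g m)⁻¹ * Kop sf.fr U β k b d) =
      (sf.fr.Bj U 0 q ρ * Uo U y1 - sf.fr.Bj U 0 q ρ) *
        (Uo U y2 * (Uo U (g m)⁻¹ * Kop sf.fr U β k b d)) +
      sf.fr.Bj U 0 q ρ * Uo U (g m)⁻¹ *
        (Uo U (g m * y2 * (g m)⁻¹) * Kop sf.fr U β k b d - Kop sf.fr U β k b d) := by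
    have e3 : Uo U (g m)⁻¹ * (Uo U (g m * y2 * (g m)⁻¹) * Kop sf.fr U β k b d) =
        Uo U y2 * (Uo U (g m)⁻¹ * Kop sf.fr U β k b d) := by
      rw [← mul_assoc, ← mul_assoc, ← Uo_mul, ← Uo_mul]
      congr 2
      group
    rw [mul_sub, mul_assoc (sf.fr.Bj U 0 q ρ) (Uo U (g m)⁻¹), e3, Uo_mul]
    noncomm_ring
  rw [e2]
  refine (norm_add_le _ _).trans ?_
  have q1 := mul2_le' n1 (mul2_le (norm_Uo_le U y2) (mul2_le (norm_Uo_le U (g m)⁻¹)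
    (norm_Kop_le sf.fr U β k b d)))
  have q2 := mul2_le (mul2_le (sf.fr.norm_Bj_le U 0 q ρ) (norm_Uo_le U (g m)⁻¹)) n2
  have q3 : K4 * (c * E) ≤ K4 * c * (2 ^ b * E) := by
    rw [← mul_assoc]
    exact mul_le_mul_of_nonneg_left hbE hc4
  calc _ ≤ K4 * (c * E) + K7 * (2 ^ b * (K3 * (c * E))) := add_le_add q1 q2
    _ ≤ K4 * c * (2 ^ b * E) + K7 * (2 ^ b * (K3 * (c * E))) := by linarith
    _ = _ := by ring

end GcdAux

open GcdAux

theorem gcd_box (sf : SFr σ g) (U : G →* (H ≃ₗᵢ[ℂ] H)) (W : H ≃ₗᵢ[ℂ] H)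
    (hW : ∀ x, U (σ x) = W⁻¹ * U x * W) : ∃ C b0 : ℕ, 1 ≤ C ∧
    ∀ (b q d k : ℕ) (ρ : ℝ) (m : ℤ) (β : MulAut G), b0 ≤ b → 1 ≤ q → 1 ≤ d → q ≤ 2 ^ b →
      d ≤ 2 ^ b → 1 ≤ ρ → ρ ≤ 2 ^ k → |m| ≤ 2 ^ k → β ∈ FrG σ g k →
      ‖sf.fr.Bj U 0 q ρ * Uo U (g m)⁻¹ * Kop sf.fr U β k b d -
        sf.fr.Bj U 0 (Nat.gcd q d) ρ * Uo U (g m)⁻¹‖ ≤
        C * ((2 ^ k / ρ) ^ sf.fr.D / 2 ^ b + 2 ^ (C * b) / ρ) := by
  obtain ⟨K1, b1, hK1, h1⟩ := step1 sf U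
  obtain ⟨K2, hK2, h2⟩ := sf.fr.coset U
  obtain ⟨K3, hK3, h3⟩ := step3 sf U W hW
  obtain ⟨C, hC⟩ := exists_nat_ge (2 * (K1 + K2 + K3) + 3)
  have hC1 : (1 : ℝ) ≤ C := by linarith
  have hC3 : (3 : ℝ) ≤ C := by linarith
  have hC3' : 3 ≤ C := by exact_mod_cast hC3
  refine ⟨C, b1, by omega, ?_⟩
  intro b q d k ρ m β hb hq hd hqb hdb hρ hρk hm hβ
  have hρ0 : 0 < ρ := by linarith
  obtain ⟨E1, hE1⟩ : ∃ E : ℝ, E = (2 ^ k / ρ) ^ sf.fr.D / 2 ^ b := ⟨_, rfl⟩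
  obtain ⟨E2, hE2⟩ : ∃ E : ℝ, E = (2 : ℝ) ^ (3 * b) / ρ := ⟨_, rfl⟩
  have hE10 : 0 ≤ E1 := by rw [hE1]; positivity
  have hE20 : 0 ≤ E2 := by rw [hE2]; positivity
  have hE2' : E2 ≤ 2 ^ (C * b) / ρ := by
    rw [hE2]
    refine div_le_div_of_nonneg_right ?_ hρ0.le
    exact pow_le_pow_right₀ (by norm_num) (Nat.mul_le_mul_right _ hC3')
  rw [← hE1]
  have hfin : C * (E1 + E2) ≤ C * (E1 + 2 ^ (C * b) / ρ) :=
    mul_le_mul_of_nonneg_left (by linarith) (by linarith)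
  refine le_trans ?_ hfin
  have hB := sf.fr.norm_Bj_le U 0 q ρ
  have hBg := sf.fr.norm_Bj_le U 0 (Nat.gcd q d) ρ
  have hX := norm_Uo_le U (g m)⁻¹
  have hKo := norm_Kop_le sf.fr U β k b d
  by_cases hcase : K1 * E1 ≤ 1 ∧ K3 * E2 ≤ 1
  · obtain ⟨hc1, hc2⟩ := hcase
    have hg1 : 1 ≤ Nat.gcd q d := Nat.gcd_pos_of_pos_left _ hq
    have hn : Nat.gcd q d * (q / Nat.gcd q d) = q := Nat.mul_div_cancel' (Nat.gcd_dvd_left q d)
    have hn1 : 1 ≤ q / Nat.gcd q d := Nat.div_pos (Nat.gcd_le_left _ hq) hg1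
    have r1 := h1 b d (Nat.gcd q d) k ρ m β hb hd hg1 (Nat.gcd_dvd_right q d) hρ hρk hm hβ
      (by rw [← hE1]; exact hc1)
    have r2 := h2 (Nat.gcd q d) (q / Nat.gcd q d) ρ hg1 hn1 hρ
    have r3 := h3 b q d k (Nat.gcd q d) (q / Nat.gcd q d) ρ m β hq hd hqb hdb rfl hn hρ hρk hm
      hβ (by rw [← hE2]; exact hc2)
    rw [← hE1] at r1
    rw [← hE2] at r3
    rw [hn] at r2
    have hnq : ((Nat.gcd q d : ℕ) : ℝ) * ((q / Nat.gcd q d : ℕ) : ℝ) = q := by exact_mod_cast hn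
    rw [hnq] at r2
    have hqE : (q : ℝ) / ρ ≤ E2 := by
      rw [hE2]
      refine div_le_div_of_nonneg_right ?_ hρ0.le
      have a1 : (q : ℝ) ≤ 2 ^ b := by exact_mod_cast hqb
      exact a1.trans (pow_le_pow_right₀ (by norm_num) (by omega))
    have r2' : K2 * ((q : ℝ) / ρ) ≤ K2 * E2 := mul_le_mul_of_nonneg_left hqE (by linarith)
    have r4 := mul2_le' (r2.trans r2') (mul2_le hX hKo)
    have e : sf.fr.Bj U 0 q ρ * Uo U (g m)⁻¹ * Kop sf.fr U β k b d -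
        sf.fr.Bj U 0 (Nat.gcd q d) ρ * Uo U (g m)⁻¹ =
        (sf.fr.Bj U 0 (Nat.gcd q d) ρ * Uo U (g m)⁻¹ * Kop sf.fr U β k b d -
        sf.fr.Bj U 0 (Nat.gcd q d) ρ * Uo U (g m)⁻¹) -
        (sf.fr.Bj U 0 (Nat.gcd q d) ρ - sf.fr.Bj U 0 q ρ *
          sf.fr.Ga U (Nat.gcd q d) (q / Nat.gcd q d)) * (Uo U (g m)⁻¹ * Kop sf.fr U β k b d) -
        (sf.fr.Bj U 0 q ρ * sf.fr.Ga U (Nat.gcd q d) (q / Nat.gcd q d) * Uo U (g m)⁻¹ *
          Kop sf.fr U β k b d - sf.fr.Bj U 0 q ρ * Uo U (g m)⁻¹ * Kop sf.fr U β k b d) := by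
      noncomm_ring
    rw [e]
    refine (norm_sub_le _ _).trans ?_
    refine (add_le_add_left (norm_sub_le _ _) _).trans ?_
    have f1 : K1 * E1 ≤ C * E1 := mul_le_mul_of_nonneg_right (by linarith) hE10
    have f2 : K2 * E2 + K3 * E2 ≤ C * E2 := by
      rw [← add_mul]
      exact mul_le_mul_of_nonneg_right (by linarith) hE20
    linarith
  · have t1 : ‖sf.fr.Bj U 0 q ρ * Uo U (g m)⁻¹ * Kop sf.fr U β k b d -
        sf.fr.Bj U 0 (Nat.gcd q d) ρ * Uo U (g m)⁻¹‖ ≤ 2 :=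
      (norm_sub_le _ _).trans (by
        have := mul2_le (mul2_le hB hX) hKo
        have := mul2_le hBg hX
        linarith)
    refine t1.trans ?_
    have t2 : 1 < K1 * E1 ∨ 1 < K3 * E2 := by
      by_contra hh
      push Not at hh
      exact hcase hh
    have g1 : 2 * K1 * E1 ≤ C * E1 := mul_le_mul_of_nonneg_right (by linarith) hE10
    have g2 : 2 * K3 * E2 ≤ C * E2 := mul_le_mul_of_nonneg_right (by linarith) hE20
    have g3 : 0 ≤ C * E1 := by positivity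
    have g4 : 0 ≤ C * E2 := by positivity
    rcases t2 with t2 | t2 <;> linarith

namespace GcdAux

/-- step (2) -/
lemma step4 (fr : Frame g) (U : G →* (H ≃ₗᵢ[ℂ] H)) : ∃ K : ℝ, 1 ≤ K ∧
    ∀ (k b n0 n : ℕ), 1 ≤ n0 → 1 ≤ n → n0 * n ≤ 2 ^ b → K * (2 ^ (2 * b) / 2 ^ k) ≤ 1 →
      ‖ContinuousLinearMap.adjoint (Db fr U k b (n0 * n)) * Db fr U k b n0 -
        ContinuousLinearMap.adjoint (Db fr U k b n0) * Db fr U k b n0‖ ≤
        K * (2 ^ (2 * b) / 2 ^ k) := by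
  obtain ⟨K1, hK1, h1⟩ := db_coset fr U
  obtain ⟨K2, hK2, h2⟩ := db_abs fr U
  obtain ⟨K3, hc⟩ := fr.exists_consts
  have hK3 := hc.one_le
  have hWD := CosetAux.WD_one fr
  obtain ⟨w, hw⟩ : ∃ w : ℝ, w = (fr.W : ℝ) ^ fr.D := ⟨_, rfl⟩
  rw [← hw] at hWD
  have hA1 : 1 ≤ K3 * w := by nlinarith
  have hA2 : w ≤ K3 * w := by nlinarith
  have hA3 : K3 * w ≤ K2 * (K3 * w) := by nlinarith
  refine ⟨K1 + K2 * (K3 * w), by linarith, ?_⟩
  intro k b n0 n hn0 hn hnb hsm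
  have hR : (1 : ℝ) ≤ 2 ^ k := one_le_pow₀ (by norm_num)
  have hb1 : (1 : ℝ) ≤ 2 ^ b := one_le_pow₀ (by norm_num)
  have hnb' : (n0 : ℝ) * n ≤ 2 ^ b := by exact_mod_cast hnb
  have hnn : (0 : ℝ) ≤ (n0 : ℝ) * n := by positivity
  obtain ⟨e, he⟩ : ∃ e : ℝ, e = (n0 : ℝ) * n / 2 ^ k := ⟨_, rfl⟩
  have he0 : 0 ≤ e := by rw [he]; positivity
  obtain ⟨E, hE⟩ : ∃ E : ℝ, E = (2 : ℝ) ^ (2 * b) / 2 ^ k := ⟨_, rfl⟩
  have hE0 : 0 ≤ E := by rw [hE]; positivity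
  have heE : 2 ^ b * e ≤ E := by
    rw [he, hE, ← mul_div_assoc]
    refine div_le_div_of_nonneg_right ?_ (by positivity)
    rw [show 2 * b = b + b by ring, pow_add]
    exact mul_le_mul_of_nonneg_left hnb' (by positivity)
  have hee : e ≤ 2 ^ b * e := by nlinarith
  rw [← hE] at hsm ⊢
  have s1 : K2 * (K3 * w) * E ≤ 1 := by nlinarith
  have s2 : K3 * w * E ≤ 1 := (mul_le_mul_of_nonneg_right hA3 hE0).trans s1
  have s3 : K3 * w * (2 ^ b * e) ≤ 1 := (mul_le_mul_of_nonneg_left heE (by linarith)).trans s2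
  have s4 : w * e ≤ 1 := by
    calc w * e ≤ K3 * w * (2 ^ b * e) := mul_le_mul hA2 hee he0 (by linarith)
      _ ≤ 1 := s3
  have r1 := (h1 k b n0 n hn0 hn).2
  have e1 : (2 : ℝ) ^ b * n0 * n / 2 ^ k = 2 ^ b * e := by rw [he]; ring
  rw [e1] at r1
  have hne := ga_ne fr hn
  have r2 : ‖ContinuousLinearMap.adjoint (fr.Ga U n0 n) * Db fr U k b n0 - Db fr U k b n0‖ ≤
      K2 * (K3 * w * (2 ^ b * e)) := by
    have e2 : ContinuousLinearMap.adjoint (fr.Ga U n0 n) * Db fr U k b n0 - Db fr U k b n0 =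
        avg (Fintype.piFinset fun _ : Fin fr.r => Ico 0 (n : ℤ)) (fun z =>
          Uo U (kap fr.c (fun i => (fr.mo n0 i : ℤ) * z i))⁻¹ * Db fr U k b n0 -
            Db fr U k b n0) := by
      rw [avg_sub, avg_const hne, ← RepAux.avg_mul]
      unfold Frame.Ga
      rw [ResidAux.adjoint_avg]
      simp only [adjoint_Uo]
    rw [e2]
    refine norm_avg_le_const (by positivity) fun z hz => ?_
    have m1 := ga_mem fr (Q := n0) hR hz
    rw [← hw, ← he] at m1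
    have m2 := hc.sm_inv 1 n0 _ _ _ hR (by positivity) s4 m1
    have m3 : (kap fr.c (fun i => (fr.mo n0 i : ℤ) * z i))⁻¹ ∈
        fr.Sm 1 n0 ((2 : ℝ) ^ k) (K3 * w * (2 ^ b * e) / 2 ^ b) := by
      have e3 : K3 * w * (2 ^ b * e) / 2 ^ b = K3 * (w * e) := by field_simp
      rw [e3]
      exact m2
    exact (h2 k b n0 _ _ hn0 (by positivity) s3 m3).2
  have e4 : ContinuousLinearMap.adjoint (Db fr U k b (n0 * n)) * Db fr U k b n0 -
        ContinuousLinearMap.adjoint (Db fr U k b n0) * Db fr U k b n0 =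
      -(ContinuousLinearMap.adjoint (Db fr U k b n0 - fr.Ga U n0 n * Db fr U k b (n0 * n)) *
        Db fr U k b n0) -
      ContinuousLinearMap.adjoint (Db fr U k b (n0 * n)) *
        (ContinuousLinearMap.adjoint (fr.Ga U n0 n) * Db fr U k b n0 - Db fr U k b n0) := by
    rw [map_sub, ResidAux.adjoint_mul']
    noncomm_ring
  rw [e4]
  refine (norm_sub_le _ _).trans ?_
  rw [norm_neg]
  have q1 : ‖ContinuousLinearMap.adjoint (Db fr U k b n0 - fr.Ga U n0 n * Db fr U k b (n0 * n)) *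
      Db fr U k b n0‖ ≤ K1 * (2 ^ b * e) :=
    mul2_le' (by rw [LinearIsometryEquiv.norm_map]; exact r1) (norm_Db_le fr U k b n0)
  have q2 := mul2_le (ResidAux.norm_adjoint_le_one (norm_Db_le fr U k b (n0 * n))) r2
  have q3 : K1 * (2 ^ b * e) ≤ K1 * E := mul_le_mul_of_nonneg_left heE (by linarith)
  have q4 : K2 * (K3 * w * (2 ^ b * e)) ≤ K2 * (K3 * w * E) :=
    mul_le_mul_of_nonneg_left (mul_le_mul_of_nonneg_left heE (by linarith)) (by linarith)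
  calc _ ≤ K1 * (2 ^ b * e) + K2 * (K3 * w * (2 ^ b * e)) := add_le_add q1 q2
    _ ≤ K1 * E + K2 * (K3 * w * E) := add_le_add q3 q4
    _ = _ := by ring

/-- step (1) -/
lemma step5 (fr : Frame g) (U : G →* (H ≃ₗᵢ[ℂ] H)) : ∃ K : ℝ, 1 ≤ K ∧
    ∀ (k b d d' n0 n n' : ℕ), 1 ≤ d → 1 ≤ d' → d ≤ 2 ^ b → d' ≤ 2 ^ b → n0 = Nat.gcd d d' →
      n0 * n = d → n0 * n' = d' → K * (2 ^ (3 * b) / 2 ^ k) ≤ 1 →
      ‖Db fr U k b d * ContinuousLinearMap.adjoint (Db fr U k b d') -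
        Db fr U k b n0 * ContinuousLinearMap.adjoint (Db fr U k b n0)‖ ≤
        K * (2 ^ (3 * b) / 2 ^ k) := by
  obtain ⟨K1, hK1, h1⟩ := db_coset fr U
  obtain ⟨K2, hK2, h2⟩ := db_abs fr U
  obtain ⟨K3, hc⟩ := fr.exists_consts
  obtain ⟨K4, hK4, h4⟩ := bezout fr
  have hK3 := hc.one_le
  have hWD := CosetAux.WD_one fr
  obtain ⟨w, hw⟩ : ∃ w : ℝ, w = (fr.W : ℝ) ^ fr.D := ⟨_, rfl⟩
  rw [← hw] at hWD
  have hB1 : 1 ≤ K3 * w := by nlinarith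
  have hB1' : w ≤ K3 * w := by nlinarith
  obtain ⟨c1, hc1⟩ : ∃ c : ℝ, c = K3 * (w + K3 * w) := ⟨_, rfl⟩
  have hc1' : w + K3 * w ≤ c1 := by rw [hc1]; nlinarith
  have hc11 : 1 ≤ c1 := by linarith
  obtain ⟨c2, hc2⟩ : ∃ c : ℝ, c = K4 * (c1 + 1) := ⟨_, rfl⟩
  have hc2' : c1 + 1 ≤ c2 := by rw [hc2]; nlinarith
  have hc10 : 0 ≤ c1 := by linarith
  have hc20 : 0 ≤ c2 := by linarith
  have hc3 : c2 ≤ K3 * c2 := by nlinarith
  have hA : K3 * c2 ≤ K2 * (K3 * c2) := by nlinarith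
  refine ⟨2 * K1 + 2 * (K2 * (K3 * c2)), by linarith, ?_⟩
  intro k b d d' n0 n n' hd hd' hdb hdb' hn0 hn hn' hsm
  have hR : (1 : ℝ) ≤ 2 ^ k := one_le_pow₀ (by norm_num)
  have hb1 : (1 : ℝ) ≤ 2 ^ b := one_le_pow₀ (by norm_num)
  have hdb1 : (d : ℝ) ≤ 2 ^ b := by exact_mod_cast hdb
  have hdb1' : (d' : ℝ) ≤ 2 ^ b := by exact_mod_cast hdb'
  have hn01 : 1 ≤ n0 := by rw [hn0]; exact Nat.gcd_pos_of_pos_left _ hd
  have hn1 : 1 ≤ n := by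
    rcases Nat.eq_zero_or_pos n with h | h
    · rw [h, mul_zero] at hn
      omega
    · exact h
  have hn1' : 1 ≤ n' := by
    rcases Nat.eq_zero_or_pos n' with h | h
    · rw [h, mul_zero] at hn'
      omega
    · exact h
  have hnd : (n0 : ℝ) * n = d := by exact_mod_cast hn
  have hnd' : (n0 : ℝ) * n' = d' := by exact_mod_cast hn'
  obtain ⟨e, he⟩ : ∃ e : ℝ, e = (2 : ℝ) ^ b / 2 ^ k := ⟨_, rfl⟩
  have he0 : 0 ≤ e := by rw [he]; positivity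
  obtain ⟨E, hE⟩ : ∃ E : ℝ, E = (2 : ℝ) ^ (2 * b) / 2 ^ k := ⟨_, rfl⟩
  have hE0 : 0 ≤ E := by rw [hE]; positivity
  have heE : 2 ^ b * e = E := by
    rw [he, hE, show 2 * b = b + b by ring, pow_add]
    ring
  have heE' : e ≤ E := by nlinarith
  have hE3 : (2 : ℝ) ^ (3 * b) / 2 ^ k = 2 ^ b * E := by
    rw [hE, show 3 * b = b + 2 * b by ring, pow_add]
    ring
  rw [hE3] at hsm ⊢
  have hbE : E ≤ 2 ^ b * E := by nlinarith
  have hbE0 : 0 ≤ 2 ^ b * E := by positivity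
  have s1 : K2 * (K3 * c2) * (2 ^ b * E) ≤ 1 := by nlinarith
  have s2 : K3 * c2 * (2 ^ b * E) ≤ 1 := (mul_le_mul_of_nonneg_right hA hbE0).trans s1
  have s2' : c2 * (2 ^ b * E) ≤ 1 := (mul_le_mul_of_nonneg_right hc3 hbE0).trans s2
  have s3 : K3 * c2 * E ≤ 1 := (mul_le_mul_of_nonneg_left hbE (by linarith)).trans s2
  have s4 : c2 * E ≤ 1 := (mul_le_mul_of_nonneg_right hc3 hE0).trans s3
  have s5 : c1 * e ≤ 1 := by
    calc c1 * e ≤ c2 * E := mul_le_mul (by linarith) heE' he0 (by linarith)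
      _ ≤ 1 := s4
  have s6 : K3 * w * e ≤ 1 := (mul_le_mul_of_nonneg_right (by linarith) he0).trans s5
  have s7 : w * e ≤ 1 := (mul_le_mul_of_nonneg_right hB1' he0).trans s6
  have hde : (d : ℝ) / 2 ^ k ≤ e := by
    rw [he]
    exact div_le_div_of_nonneg_right hdb1 (by positivity)
  have hde' : (d' : ℝ) / 2 ^ k ≤ e := by
    rw [he]
    exact div_le_div_of_nonneg_right hdb1' (by positivity)
  have hdd : (d : ℝ) * d' / 2 ^ k ≤ E := by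
    rw [hE]
    refine div_le_div_of_nonneg_right ?_ (by positivity)
    rw [show 2 * b = b + b by ring, pow_add]
    exact mul_le_mul hdb1 hdb1' (by positivity) (by positivity)
  have r1 := (h1 k b n0 n hn01 hn1).1
  have r1' := (h1 k b n0 n' hn01 hn1').1
  rw [hn] at r1
  rw [hn'] at r1'
  have f1 : (2 : ℝ) ^ b * n0 * n / 2 ^ k ≤ E := by
    calc (2 : ℝ) ^ b * n0 * n / 2 ^ k = 2 ^ b * (d / 2 ^ k) := by rw [← hnd]; ring
      _ ≤ 2 ^ b * e := mul_le_mul_of_nonneg_left hde (by positivity)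
      _ = E := heE
  have f1' : (2 : ℝ) ^ b * n0 * n' / 2 ^ k ≤ E := by
    calc (2 : ℝ) ^ b * n0 * n' / 2 ^ k = 2 ^ b * (d' / 2 ^ k) := by rw [← hnd']; ring
      _ ≤ 2 ^ b * e := mul_le_mul_of_nonneg_left hde' (by positivity)
      _ = E := heE
  have r2 : ‖Db fr U k b n0 - Db fr U k b d * fr.Ga U n0 n‖ ≤ K1 * (2 ^ b * E) :=
    r1.trans (mul_le_mul_of_nonneg_left (f1.trans hbE) (by linarith))
  have r2' : ‖Db fr U k b n0 - Db fr U k b d' * fr.Ga U n0 n'‖ ≤ K1 * (2 ^ b * E) :=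
    r1'.trans (mul_le_mul_of_nonneg_left (f1'.trans hbE) (by linarith))
  have hne := ga_ne fr hn1
  have hne' := ga_ne fr hn1'
  have nD := norm_Db_le fr U k b
  have r3 : ‖Db fr U k b d * fr.Ga U n0 n * (ContinuousLinearMap.adjoint (fr.Ga U n0 n') *
      ContinuousLinearMap.adjoint (Db fr U k b d')) -
      Db fr U k b d * ContinuousLinearMap.adjoint (Db fr U k b d')‖ ≤
      2 * (K2 * (K3 * c2 * (2 ^ b * E))) := by
    have e1 : Db fr U k b d * fr.Ga U n0 n * (ContinuousLinearMap.adjoint (fr.Ga U n0 n') *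
        ContinuousLinearMap.adjoint (Db fr U k b d')) -
        Db fr U k b d * ContinuousLinearMap.adjoint (Db fr U k b d') =
        avg (Fintype.piFinset fun _ : Fin fr.r => Ico 0 (n : ℤ)) (fun z =>
        avg (Fintype.piFinset fun _ : Fin fr.r => Ico 0 (n' : ℤ)) (fun z' =>
          Db fr U k b d * Uo U (kap fr.c (fun i => (fr.mo n0 i : ℤ) * z i) *
            (kap fr.c (fun i => (fr.mo n0 i : ℤ) * z' i))⁻¹) *
            ContinuousLinearMap.adjoint (Db fr U k b d') -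
            Db fr U k b d * ContinuousLinearMap.adjoint (Db fr U k b d'))) := by
      simp only [avg_sub, avg_const hne, avg_const hne', Uo_mul, ← mul_assoc (Db fr U k b d)]
      simp only [mul_assoc, ← RepAux.mul_avg, ← RepAux.avg_mul]
      unfold Frame.Ga
      rw [ResidAux.adjoint_avg]
      simp only [adjoint_Uo]
    rw [e1]
    refine norm_avg_le_const (by positivity) fun z hz => ?_
    refine norm_avg_le_const (by positivity) fun z' hz' => ?_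
    have m1 := ga_mem fr (Q := n0) hR hz
    have m1' := ga_mem fr (Q := n0) hR hz'
    rw [← hw, hnd] at m1
    rw [← hw, hnd'] at m1'
    have m2 := fr.Sm_mono (by linarith) le_rfl (mul_le_mul_of_nonneg_left hde (by linarith)) m1
    have m2' := fr.Sm_mono (by linarith) le_rfl (mul_le_mul_of_nonneg_left hde' (by linarith)) m1'
    have m3 := hc.sm_inv 1 n0 _ _ _ hR (by positivity) s7 m2'
    have m4 := hc.sm_mul 1 n0 _ _ _ _ _ hR (by positivity) s7 (by positivity)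
      (by rw [← mul_assoc]; exact s6) m2 m3
    have e4 : K3 * (w * e + K3 * (w * e)) = c1 * e := by rw [hc1]; ring
    rw [e4, hn0] at m4
    have hbz : K4 * (c1 * e + d * d' / 2 ^ k) ≤ c2 * E := by
      have : c1 * e + d * d' / 2 ^ k ≤ (c1 + 1) * E := by nlinarith
      rw [hc2, mul_assoc]
      exact mul_le_mul_of_nonneg_left this (by linarith)
    obtain ⟨y1, y2, hy, hy1, hy2⟩ := h4 d d' _ _ _ hd hd' hR (by positivity) (hbz.trans s4) m4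
    rw [← hn0] at hy
    rw [hy]
    have hy1' : y1 ∈ fr.Sm 1 d ((2 : ℝ) ^ k) (c2 * (2 ^ b * E) / 2 ^ b) := by
      have e5 : c2 * (2 ^ b * E) / 2 ^ b = c2 * E := by field_simp
      rw [e5]
      exact fr.Sm_mono (by linarith) le_rfl hbz hy1
    have hy2' := hc.sm_inv 1 d' _ _ _ hR (by positivity) s4
      (fr.Sm_mono (by linarith) le_rfl hbz hy2)
    have hy2'' : y2⁻¹ ∈ fr.Sm 1 d' ((2 : ℝ) ^ k) (K3 * c2 * (2 ^ b * E) / 2 ^ b) := by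
      have e5 : K3 * c2 * (2 ^ b * E) / 2 ^ b = K3 * (c2 * E) := by field_simp
      rw [e5]
      exact hy2'
    have n1 := (h2 k b d _ _ hd (by positivity) s2' hy1').1
    have n2 := (h2 k b d' _ _ hd' (by positivity) s2 hy2'').1
    rw [← adj_le] at n2
    have e6 : Db fr U k b d * Uo U (y1 * y2) * ContinuousLinearMap.adjoint (Db fr U k b d') -
        Db fr U k b d * ContinuousLinearMap.adjoint (Db fr U k b d') =
        (Db fr U k b d * Uo U y1 - Db fr U k b d) *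
          (Uo U y2 * ContinuousLinearMap.adjoint (Db fr U k b d')) +
        Db fr U k b d * (Uo U y2 * ContinuousLinearMap.adjoint (Db fr U k b d') -
          ContinuousLinearMap.adjoint (Db fr U k b d')) := by
      rw [Uo_mul]
      noncomm_ring
    rw [e6]
    refine (norm_add_le _ _).trans ?_
    have q1 := mul2_le' n1 (mul2_le (norm_Uo_le U y2) (ResidAux.norm_adjoint_le_one (nD d')))
    have q2 := mul2_le (nD d) n2
    have q3 : K2 * (c2 * (2 ^ b * E)) ≤ K2 * (K3 * c2 * (2 ^ b * E)) :=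
      mul_le_mul_of_nonneg_left (mul_le_mul_of_nonneg_right hc3 hbE0) (by linarith)
    linarith
  have e7 : Db fr U k b d * ContinuousLinearMap.adjoint (Db fr U k b d') -
        Db fr U k b n0 * ContinuousLinearMap.adjoint (Db fr U k b n0) =
      -(Db fr U k b d * fr.Ga U n0 n * (ContinuousLinearMap.adjoint (fr.Ga U n0 n') *
      ContinuousLinearMap.adjoint (Db fr U k b d')) -
      Db fr U k b d * ContinuousLinearMap.adjoint (Db fr U k b d')) -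
      ((Db fr U k b n0 - Db fr U k b d * fr.Ga U n0 n) *
        ContinuousLinearMap.adjoint (Db fr U k b n0) +
       Db fr U k b d * fr.Ga U n0 n *
        ContinuousLinearMap.adjoint (Db fr U k b n0 - Db fr U k b d' * fr.Ga U n0 n')) := by
    rw [map_sub, ResidAux.adjoint_mul']
    noncomm_ring
  rw [e7]
  refine (norm_sub_le _ _).trans ?_
  rw [norm_neg]
  have q1 := mul2_le' r2 (ResidAux.norm_adjoint_le_one (nD n0))
  have q2 : ‖Db fr U k b d * fr.Ga U n0 n *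
      ContinuousLinearMap.adjoint (Db fr U k b n0 - Db fr U k b d' * fr.Ga U n0 n')‖ ≤
      K1 * (2 ^ b * E) :=
    mul2_le (mul2_le (nD d) (fr.norm_Ga_le U n0 n)) (by
      rw [LinearIsometryEquiv.norm_map]
      exact r2')
  have q3 := norm_add_le ((Db fr U k b n0 - Db fr U k b d * fr.Ga U n0 n) *
        ContinuousLinearMap.adjoint (Db fr U k b n0)) (Db fr U k b d * fr.Ga U n0 n *
        ContinuousLinearMap.adjoint (Db fr U k b n0 - Db fr U k b d' * fr.Ga U n0 n'))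
  have q4 : (2 * K1 + 2 * (K2 * (K3 * c2))) * (2 ^ b * E) =
      2 * (K2 * (K3 * c2 * (2 ^ b * E))) + (K1 * (2 ^ b * E) + K1 * (2 ^ b * E)) := by ring
  rw [q4]
  exact add_le_add r3 (q3.trans (add_le_add q1 q2))

end GcdAux

theorem kop_gcd (sf : SFr σ g) (U : G →* (H ≃ₗᵢ[ℂ] H)) : ∃ C b0 : ℕ, 1 ≤ C ∧
    ∀ (b d d' k : ℕ), b0 ≤ b → 1 ≤ d → 1 ≤ d' → d ≤ 2 ^ b → d' ≤ 2 ^ b →
      ‖Kop sf.fr U 1 k b d * Kop sf.fr U 1 k b d' -
        Kop sf.fr U 1 k b (Nat.gcd d d') ^ 2‖ ≤ C * ((2 : ℝ) ^ (C * b) / 2 ^ k) := by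
  obtain ⟨K1, hK1, h1⟩ := step4 sf.fr U
  obtain ⟨K2, hK2, h2⟩ := step5 sf.fr U
  obtain ⟨C, hC⟩ := exists_nat_ge (2 * (K1 + K2) + 3)
  have hC3 : (3 : ℝ) ≤ C := by linarith
  have hC3' : 3 ≤ C := by exact_mod_cast hC3
  refine ⟨C, 0, by omega, ?_⟩
  intro b d d' k _ hd hd' hdb hdb'
  obtain ⟨E, hE⟩ : ∃ E : ℝ, E = (2 : ℝ) ^ (3 * b) / 2 ^ k := ⟨_, rfl⟩
  have hE0 : 0 ≤ E := by rw [hE]; positivity
  have hEC : E ≤ 2 ^ (C * b) / 2 ^ k := by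
    rw [hE]
    refine div_le_div_of_nonneg_right ?_ (by positivity)
    exact pow_le_pow_right₀ (by norm_num) (Nat.mul_le_mul_right _ hC3')
  have hE2 : (2 : ℝ) ^ (2 * b) / 2 ^ k ≤ E := by
    rw [hE]
    refine div_le_div_of_nonneg_right ?_ (by positivity)
    exact pow_le_pow_right₀ (by norm_num) (by omega)
  refine le_trans ?_ (mul_le_mul_of_nonneg_left hEC (by linarith))
  by_cases hcase : K1 * E ≤ 1 ∧ K2 * E ≤ 1
  · obtain ⟨hc1, hc2⟩ := hcase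
    have hg1 : 1 ≤ Nat.gcd d d' := Nat.gcd_pos_of_pos_left _ hd
    have hn : Nat.gcd d d' * (d / Nat.gcd d d') = d := Nat.mul_div_cancel' (Nat.gcd_dvd_left d d')
    have hn' : Nat.gcd d d' * (d' / Nat.gcd d d') = d' :=
      Nat.mul_div_cancel' (Nat.gcd_dvd_right d d')
    have hn1 : 1 ≤ d / Nat.gcd d d' := Nat.div_pos (Nat.gcd_le_left _ hd) hg1
    have hn1' : 1 ≤ d' / Nat.gcd d d' := Nat.div_pos (Nat.gcd_le_right _ hd') hg1
    have t1 : K1 * (2 ^ (2 * b) / 2 ^ k) ≤ K1 * E := mul_le_mul_of_nonneg_left hE2 (by linarith)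
    have r1 := h1 k b (Nat.gcd d d') (d / Nat.gcd d d') hg1 hn1 (by rw [hn]; exact hdb)
      (t1.trans hc1)
    have r1' := h1 k b (Nat.gcd d d') (d' / Nat.gcd d d') hg1 hn1' (by rw [hn']; exact hdb')
      (t1.trans hc1)
    rw [hn] at r1
    rw [hn'] at r1'
    have r2 := h2 k b d d' (Nat.gcd d d') (d / Nat.gcd d d') (d' / Nat.gcd d d') hd hd' hdb hdb'
      rfl hn hn' (by rw [← hE]; exact hc2)
    rw [← hE] at r2
    generalize Nat.gcd d d' = n0 at *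
    rw [kop_one, kop_one, kop_one, pow_two]
    have nD := norm_Db_le sf.fr U k b
    have nA : ∀ x, ‖ContinuousLinearMap.adjoint (Db sf.fr U k b x)‖ ≤ 1 := fun x =>
      ResidAux.norm_adjoint_le_one (nD x)
    have r3 : ‖ContinuousLinearMap.adjoint (Db sf.fr U k b n0) * Db sf.fr U k b d' -
        ContinuousLinearMap.adjoint (Db sf.fr U k b n0) * Db sf.fr U k b n0‖ ≤
        K1 * (2 ^ (2 * b) / 2 ^ k) := by
      have e : ContinuousLinearMap.adjoint (ContinuousLinearMap.adjoint (Db sf.fr U k b d') *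
          Db sf.fr U k b n0 - ContinuousLinearMap.adjoint (Db sf.fr U k b n0) *
            Db sf.fr U k b n0) =
          ContinuousLinearMap.adjoint (Db sf.fr U k b n0) * Db sf.fr U k b d' -
        ContinuousLinearMap.adjoint (Db sf.fr U k b n0) * Db sf.fr U k b n0 := by
        rw [map_sub, ResidAux.adjoint_mul', ResidAux.adjoint_mul',
          ContinuousLinearMap.adjoint_adjoint, ContinuousLinearMap.adjoint_adjoint]
      rw [← e, LinearIsometryEquiv.norm_map]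
      exact r1'
    have e : ContinuousLinearMap.adjoint (Db sf.fr U k b d) * Db sf.fr U k b d *
          (ContinuousLinearMap.adjoint (Db sf.fr U k b d') * Db sf.fr U k b d') -
        ContinuousLinearMap.adjoint (Db sf.fr U k b n0) * Db sf.fr U k b n0 *
          (ContinuousLinearMap.adjoint (Db sf.fr U k b n0) * Db sf.fr U k b n0) =
        ContinuousLinearMap.adjoint (Db sf.fr U k b d) *
          (Db sf.fr U k b d * ContinuousLinearMap.adjoint (Db sf.fr U k b d') -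
            Db sf.fr U k b n0 * ContinuousLinearMap.adjoint (Db sf.fr U k b n0)) *
          Db sf.fr U k b d' +
        (ContinuousLinearMap.adjoint (Db sf.fr U k b d) * Db sf.fr U k b n0 -
          ContinuousLinearMap.adjoint (Db sf.fr U k b n0) * Db sf.fr U k b n0) *
          (ContinuousLinearMap.adjoint (Db sf.fr U k b n0) * Db sf.fr U k b d') +
        ContinuousLinearMap.adjoint (Db sf.fr U k b n0) * Db sf.fr U k b n0 *
          (ContinuousLinearMap.adjoint (Db sf.fr U k b n0) * Db sf.fr U k b d' -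
            ContinuousLinearMap.adjoint (Db sf.fr U k b n0) * Db sf.fr U k b n0) := by
      noncomm_ring
    rw [e]
    have q1 := mul3_le (nA d) r2 (nD d')
    have q2 := mul2_le' r1 (mul2_le (nA n0) (nD d'))
    have q3 := mul2_le (mul2_le (nA n0) (nD n0)) r3
    refine (norm_add_le _ _).trans ?_
    refine (add_le_add_left (norm_add_le _ _) _).trans ?_
    have f1 : (2 * K1 + K2) * E ≤ C * E := mul_le_mul_of_nonneg_right (by linarith) hE0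
    linarith
  · have nK := norm_Kop_le sf.fr U 1 k b
    have t1 : ‖Kop sf.fr U 1 k b d * Kop sf.fr U 1 k b d' -
        Kop sf.fr U 1 k b (Nat.gcd d d') ^ 2‖ ≤ 2 := by
      rw [pow_two]
      refine (norm_sub_le _ _).trans ?_
      have := mul2_le (nK d) (nK d')
      have := mul2_le (nK (Nat.gcd d d')) (nK (Nat.gcd d d'))
      linarith
    refine t1.trans ?_
    have t2 : 1 < K1 * E ∨ 1 < K2 * E := by
      by_contra hh
      push Not at hh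
      exact hcase hh
    have g1 : 2 * K1 * E ≤ C * E := mul_le_mul_of_nonneg_right (by linarith) hE0
    have g2 : 2 * K2 * E ≤ C * E := mul_le_mul_of_nonneg_right (by linarith) hE0
    rcases t2 with t2 | t2 <;> linarith

end NPG
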