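import Pool.Agent.NPG.KeyA
import Pool.Agent.NPG.Grd

/-!
# NPG / Rem : the remainder at one scale

`E (tied) <F_u, r_v>^2` is a pairing `tp M K k f g` with values in
`EuclideanSpace ℝ (Fin (2^k) × Fin (2^k))`:
`f b u (s,s') = F_u(b2^k+s) F_u(b2^k+s') / 2^k`, `g b v (s,s') = r_v(..) r_v(..) / 2^k`;
`inner = <F_u,r_v>^2`, norms at most `1`, `0` off `Om`.  `tp f g = tp f (ro g) + tp f (sm g)`; the
first by `SingH`, the second by `smooth_part` and the rule for `S`-objects.
-/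

namespace NPG
open Finset
open NP2 (ip blk comb cst rid res mcs ip_comm ip_self_nonneg ip_cs ip_le_one ip_add_left
  ip_smul_left ip_congr ip_comb_left rid_normal rid_unique cst_split mcs_le_cst mcs_nonneg mcs_le
  rid_sq_le res_sq_le rid_cons_zero res_cons_zero mcs_cons_le mcs_cons_drop)

noncomputable section

variable {A : Type} [Group A] [Fintype A]

/-- the square of a function on a block, as a vector -/
private def rem_v (k : ℕ) (x : ℕ → ℝ) : EuclideanSpace ℝ (Fin (2 ^ k) × Fin (2 ^ k)) :=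
  WithLp.toLp 2 (fun p => x p.1 * x p.2 / 2 ^ k)

private theorem rem_inner (k : ℕ) (x y : ℕ → ℝ) :
    inner ℝ (rem_v k x) (rem_v k y) = ((∑ s ∈ range (2 ^ k), x s * y s) / 2 ^ k) ^ 2 := by
  unfold rem_v
  rw [PiLp.inner_apply, Fintype.sum_prod_type]
  have e : ∀ (i j : Fin (2 ^ k)), inner ℝ (x i * x j / 2 ^ k) (y i * y j / 2 ^ k) =
      (x i * y i / 2 ^ k) * (x j * y j / 2 ^ k) := by
    intro i j
    rw [real_inner_eq_re_inner, RCLike.inner_apply]
    simp
    ring
  have e2 : (∑ s ∈ range (2 ^ k), x s * y s) / 2 ^ k = ∑ i : Fin (2 ^ k), x i * y i / 2 ^ k := by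
    rw [Finset.sum_div, ← Fin.sum_univ_eq_sum_range (fun s => x s * y s / 2 ^ k)]
  rw [e2, sq, Finset.sum_mul_sum]
  refine Finset.sum_congr rfl fun i _ => Finset.sum_congr rfl fun j _ => ?_
  exact e i j

private theorem rem_ip (k b : ℕ) (f g : ℕ → ℝ) :
    ip (blk k b) f g =
      (∑ s ∈ range (2 ^ k), f (b * 2 ^ k + s) * g (b * 2 ^ k + s)) / 2 ^ k := by
  unfold ip
  rw [card_blk]
  unfold blk
  rw [Finset.sum_Ico_eq_sum_range]
  have e : (b + 1) * 2 ^ k - b * 2 ^ k = 2 ^ k := by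
    rw [← Nat.sub_mul]
    simp
  rw [e]
  push_cast
  rfl

/-- square root of a localised mean -/
private theorem rem_sqrt (K k : ℕ) (Om : Finset A) {E : Type} [NormedAddCommGroup E]
    (f : ℕ → A → E) (h1 : ∀ b u, ‖f b u‖ ^ 2 ≤ 1) (h0 : ∀ b u, u ∉ Om → ‖f b u‖ ^ 2 = 0) :
    Real.sqrt (ex K (fun c u => ‖f (c / 2 ^ k) u‖ ^ 2)) ≤
      Real.sqrt (Om.card / Fintype.card A) := by
  refine Real.sqrt_le_sqrt ?_
  refine (ex_Om K Om 1 _ fun c _ u => ?_).trans (le_of_eq (one_mul _))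
  by_cases hu : u ∈ Om
  · rw [if_pos hu]
    exact h1 _ _
  · rw [if_neg hu]
    exact (h0 _ _ hu).le

theorem rem_single {M : Mod A} {nu : ℕ → A → ℝ} {C a : ℕ} {kr : ℕ → A → ℝ} (hGe : Geo M nu C)
    (hkr : Krn M nu C a kr) (K k : ℕ) (hak : C * a ≤ k) (hk : k ≤ K)
    (F G : A → ℕ → ℝ) (Om : Finset A) (hF : ∀ u t, |F u t| ≤ 1) (hG : ∀ u t, |G u t| ≤ 1)
    (hF0 : ∀ u t, u ∉ Om → F u t = 0) (hG0 : ∀ u t, u ∉ Om → G u t = 0)
    (lam τ : ℝ) (hl : 0 < lam) (D : Dict A) (hD : IsSys M nu C K F G Om lam τ D) :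
    ex K (fun c u => ip (blk k (c / 2 ^ k)) (F u)
        (rsd τ D lam k (c / 2 ^ k) (M.pS (M.th c * u)) (G (M.th c * u))) ^ 2) ≤
      (C / Real.sqrt (2 ^ a) + 2 ^ (C * a) * lam) * (Om.card / Fintype.card A) := by
  classical
  set f : ℕ → A → EuclideanSpace ℝ (Fin (2 ^ k) × Fin (2 ^ k)) :=
    fun b u => rem_v k (fun s => F u (b * 2 ^ k + s)) with hf
  set g : ℕ → A → EuclideanSpace ℝ (Fin (2 ^ k) × Fin (2 ^ k)) :=
    fun b v => rem_v k (fun s => rsd τ D lam k b (M.pS v) (G v) (b * 2 ^ k + s)) with hg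
  have hin : ∀ b u v, inner ℝ (f b u) (g b v) =
      ip (blk k b) (F u) (rsd τ D lam k b (M.pS v) (G v)) ^ 2 := by
    intro b u v
    rw [rem_ip, hf, hg]
    exact rem_inner k _ _
  have hff : ∀ b u, ‖f b u‖ ^ 2 = ip (blk k b) (F u) (F u) ^ 2 := by
    intro b u
    rw [← real_inner_self_eq_norm_sq, rem_ip, hf]
    exact rem_inner k _ _
  have hgg : ∀ b v, ‖g b v‖ ^ 2 = ip (blk k b) (rsd τ D lam k b (M.pS v) (G v))
        (rsd τ D lam k b (M.pS v) (G v)) ^ 2 := by
    intro b v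
    rw [← real_inner_self_eq_norm_sq, rem_ip, hg]
    exact rem_inner k _ _
  have hz : ∀ (b : ℕ) (x : ℕ → ℝ), (∀ t, x t = 0) → ip (blk k b) x x ^ 2 = 0 := by
    intro b x hx
    unfold ip
    rw [sum_eq_zero fun t _ => by rw [hx t, zero_mul], zero_div]
    norm_num
  have hnf : ∀ b u, ‖f b u‖ ^ 2 ≤ 1 := by
    intro b u
    rw [hff]
    exact pow_le_one₀ (ip_self_nonneg _ _) (ip_le_one (blk k b) (F u) (hF u))
  have hng : ∀ b v, ‖g b v‖ ^ 2 ≤ 1 := by
    intro b v
    rw [hgg]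
    have h1 : ip (blk k b) (rsd τ D lam k b (M.pS v) (G v)) (rsd τ D lam k b (M.pS v) (G v)) ≤
        1 := (res_sq_le (blk k b) (col τ D k b (M.pS v)) lam hl (G v)).trans
        (ip_le_one (blk k b) (G v) (hG v))
    exact pow_le_one₀ (ip_self_nonneg _ _) h1
  have hnf0 : ∀ b u, u ∉ Om → ‖f b u‖ ^ 2 = 0 := by
    intro b u hu
    rw [hff]
    exact hz b _ fun t => hF0 u t hu
  have hng0 : ∀ b v, v ∉ Om → ‖g b v‖ ^ 2 = 0 := by
    intro b v hv
    rw [hgg]
    exact hz b _ fun t => rsd_zero τ D lam hl k b (M.pS v) (G v) (fun t => hG0 v t hv) t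
  have hs1 : ex K (fun c u => ip (blk k (c / 2 ^ k)) (F u)
        (rsd τ D lam k (c / 2 ^ k) (M.pS (M.th c * u)) (G (M.th c * u))) ^ 2) =
      tp M K k f g := by
    unfold tp
    congr 1
    funext c u
    rw [hin]
  have hs2 : tp M K k f g = tp M K k f (ro M kr k g) +
      ex K (fun c u => inner ℝ (f (c / 2 ^ k) u)
        (sm M (kr k) (c / 2 ^ k * 2 ^ k) (g (c / 2 ^ k)) (M.th c * u))) := by
    unfold tp
    rw [← ex_add]
    congr 1
    funext c u
    rw [← inner_add_right]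
    unfold ro
    rw [sub_add_cancel]
  have hom : (0 : ℝ) ≤ Om.card / Fintype.card A := by positivity
  -- the first part
  have hp1 : tp M K k f (ro M kr k g) ≤ C / Real.sqrt (2 ^ a) * (Om.card / Fintype.card A) := by
    have h := hkr.sing (EuclideanSpace ℝ (Fin (2 ^ k) × Fin (2 ^ k))) K k hak hk f g
    refine ((le_abs_self _).trans h).trans ?_
    refine mul_le_mul_of_nonneg_left ?_ (by positivity)
    calc _ ≤ Real.sqrt (Om.card / Fintype.card A) * Real.sqrt (Om.card / Fintype.card A) :=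
          mul_le_mul (rem_sqrt K k Om f hnf hnf0) (rem_sqrt K k Om g hng hng0)
            (Real.sqrt_nonneg _) (Real.sqrt_nonneg _)
      _ = _ := Real.mul_self_sqrt hom
  -- the second part
  have hp2 : ex K (fun c u => inner ℝ (f (c / 2 ^ k) u)
        (sm M (kr k) (c / 2 ^ k * 2 ^ k) (g (c / 2 ^ k)) (M.th c * u))) ≤
      2 ^ (C * a) * lam * (Om.card / Fintype.card A) := by
    have h := smooth_part M nu C (2 ^ (C * a)) lam hGe.mul (near_tied hGe) K k hk (kr k)
      (hkr.supp k hak) (lt_of_lt_of_le one_pos (vol_ge_one hGe k)) (by positivity)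
      (hkr.bound k hak) f g (fun _ u => if u ∈ Om then 1 else 0)
      (fun b u v => by rw [hin]; exact sq_nonneg _) (fun b hb u => ?_)
    · refine h.trans ?_
      refine mul_le_mul_of_nonneg_left ?_ (by positivity)
      exact (ex_Om K Om 1 _ fun c _ u => le_rfl).trans (le_of_eq (one_mul _))
    · by_cases hu : u ∈ Om
      · rw [if_pos hu, one_mul]
        have h1 := hD.ruleS k hk b hb (M.pT u (b * 2 ^ k)) (F u)
        have h2 := ip_le_one (blk k b) (F u) (hF u)
        have h3 : lam * vol nu k * ip (blk k b) (F u) (F u) ≤ lam * vol nu k * 1 :=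
          mul_le_mul_of_nonneg_left h2 (mul_nonneg hl.le (vol_nonneg nu k))
        rw [mul_one] at h3
        refine le_trans (le_of_eq ?_) (h1.trans h3)
        refine Finset.sum_congr rfl fun v _ => ?_
        unfold near
        rw [hin, ip_comm]
      · rw [if_neg hu, zero_mul, zero_mul]
        refine (sum_eq_zero fun v _ => ?_).le
        rw [hin]
        have h0 : ip (blk k b) (F u) (rsd τ D lam k b (M.pS v) (G v)) = 0 := by
          unfold ip
          rw [sum_eq_zero fun t _ => by rw [hF0 u t hu, zero_mul], zero_div]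
        rw [h0]
        simp
  rw [hs1, hs2, add_mul]
  exact add_le_add hp1 hp2

end

end NPG
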