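import Pool.Agent.NPG.Defs
import Pool.Agent.NP2.EndDef

/-!
# NPG / ThDef : the statement of Theorem A

`XX M F G k c u` : mean over the times `t` in the dyadic block of `c` at level `k` of
`F u t * G (th c * u) t`.  `NP2.NJ δ x R K` : `x` has `R` successive jumps of size `≥ δ` in `[0, K]`.

Theorem A is localised: `F` and `G` vanish off the finite set `Om`, and the number of bad pairs
`(c, u)` is at most `η 2^K |Om|`.
-/

namespace NPG
open Finset

noncomputable section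

/-- the average over the block of `c` at level `k` -/
def XX {A : Type} [Group A] (M : Mod A) (F G : A → ℕ → ℝ) (k c : ℕ) (u : A) : ℝ :=
  (∑ s ∈ range (2 ^ k), F u (c / 2 ^ k * 2 ^ k + s) *
    G (M.th c * u) (c / 2 ^ k * 2 ^ k + s)) / 2 ^ k

/-- Theorem A for the models with constant `C` -/
def ThmA (C : ℕ) : Prop :=
  ∀ δ : ℝ, 0 < δ → ∀ η : ℝ, 0 < η → ∃ R : ℕ,
    ∀ (A : Type) [Group A] [Fintype A] (M : Mod A) (nu : ℕ → A → ℝ) (kr : ℕ → ℕ → A → ℝ),
      Geo M nu C → (∀ a, 1 ≤ a → Krn M nu C a (kr a)) → (∀ a, 1 ≤ a → Krn M.sw nu C a (kr a)) →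
      ∀ (K : ℕ) (F G : A → ℕ → ℝ) (Om : Finset A), (∀ u t, |F u t| ≤ 1) → (∀ v t, |G v t| ≤ 1) →
        (∀ u t, u ∉ Om → F u t = 0) → (∀ v t, v ∉ Om → G v t = 0) →
        ∑ c ∈ range (2 ^ K), ∑ u : A,
          @ite ℝ (NP2.NJ δ (fun k => XX M F G k c u) R K) (Classical.propDecidable _) 1 0 ≤
            η * 2 ^ K * Om.card

end

end NPG
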