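import Pool.Agent.NPG.Key
import Pool.Agent.NPG.Rem
import Pool.Agent.NPG.ThDef
import Pool.Agent.NPG.FEnd
import Pool.Agent.NPG.Mir

/-!
# NPG / ThA : Theorem A (statement `ThmA` of ThDef)

`Xk M F G k c u = ip (blk k (c/2^k)) (F u) (G (th c * u))`.  `NJ δ x R K`: `R` successive jumps `≥ δ`
in `[0,K]`.

Proof.  WLOG `δ ≤ 1` (`NJ` is monotone in `δ`).  Take `e0` large (depending on `C, δ, η`),
`e_i = 2^i e0`, `δ_i = δ 2^(-i-5)`; then `(10^6 C^2 e_i/δ_i)^(100 C) ≤ 2^(e_i)` for all `i`.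
Systems `D_i` of parameters `lamE C e_i, tauE C e_i` (`sys_exists`).  `Z_i k` = `Ztr` of the system
`i`, at tied pairs; `CF` : constant of the flux lemma.  Bad events (localised to `Om`):
(1) `key_main` for the pairs `(i, i+1)`, `CF (80 e_i) ≤ K`, threshold `δ_i`;
(2) for `k` in `[CF (80 e_i), 2 CF (80 e_i)]`: `|ip (F u) (rsd of the system i)| ≥ δ/32` (`rem_single`
    with `a = 80 e_i`, Markov);
(3) `tr ≥ Γ_i` for the `S`-object, some level (`keyC_dead`);
(4) more than `R0` moves (`mvv`, `s = 1` for `u`, `s = 2` for `v`, system `0`, `ε0 = δ/(64 m0)`),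
    both objects in `Om` (`mvv_count`).
Outside: for `k ≥ CF (80 e0)`, by `Ztr_T`, `|Xk - Z_(i(k))| ≤ δ/32 + small`, and
`|Z_(i+1) k - Z_i k| < δ_i` for `i < i(k)`, so `|Xk - Z_0| ≤ δ/8`, `|Z_0 - Zfr_0| ≤ 2 ε0 m0 = δ/32`;
`Zfr_0` changes only at moves.  `jumps_count` with `z = Zfr_0`.  If one of the two objects is not in
`Om`, then `Xk = 0` has no jumps.
-/

namespace NPG
open Finset
open NP2 (ip blk comb cst rid res mcs ip_comm ip_self_nonneg ip_cs ip_le_one ip_add_left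
  ip_smul_left ip_congr ip_comb_left rid_normal rid_unique cst_split mcs_le_cst mcs_nonneg mcs_le
  rid_sq_le res_sq_le rid_cons_zero res_cons_zero mcs_cons_le mcs_cons_drop NJ)

noncomputable section

variable {A : Type} [Group A] [Fintype A]

/-- the averages of the model -/
def Xk (M : Mod A) (F G : A → ℕ → ℝ) (k c : ℕ) (u : A) : ℝ :=
  ip (blk k (c / 2 ^ k)) (F u) (G (M.th c * u))

private theorem change_of_ne (z : ℕ → ℝ) (a : ℕ) : ∀ n, z (a + n) ≠ z a →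
    ∃ k, a ≤ k ∧ k < a + n ∧ z k ≠ z (k + 1) := by
  intro n
  induction n with
  | zero => intro h; exact absurd rfl h
  | succ n ih =>
    intro h
    by_cases h1 : z (a + n) = z a
    · refine ⟨a + n, by omega, by omega, ?_⟩
      rw [h1]
      exact fun e => h e.symm
    · obtain ⟨k, hk1, hk2, hk3⟩ := ih h1
      exact ⟨k, hk1, by omega, hk3⟩

private theorem NJ_le (δ : ℝ) (x : ℕ → ℝ) : ∀ R K : ℕ, NJ δ x R K → R ≤ K := by
  intro R
  induction R with
  | zero => intro K _; exact Nat.zero_le _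
  | succ R ih =>
    rintro K ⟨k, l, h1, h2, -, h4⟩
    have := ih k h4
    omega

private theorem NJ_mono (δ δ' : ℝ) (h : δ' ≤ δ) (x : ℕ → ℝ) :
    ∀ R K : ℕ, NJ δ x R K → NJ δ' x R K := by
  intro R
  induction R with
  | zero => intro K _; trivial
  | succ R ih =>
    rintro K ⟨k, l, h1, h2, h3, h4⟩
    exact ⟨k, l, h1, h2, h.trans h3, ih k h4⟩

private theorem NJ_count (x z : ℕ → ℝ) (k0 : ℕ) (δ : ℝ) (hδ : 0 < δ) :
    ∀ R K : ℕ, (∀ k, k0 ≤ k → k ≤ K → |x k - z k| ≤ δ / 4) → NJ δ x R K →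
      R ≤ k0 + ((range K).filter (fun k => z k ≠ z (k + 1))).card := by
  intro R
  induction R with
  | zero => intro K _ _; exact Nat.zero_le _
  | succ R ih =>
    rintro K hxz ⟨k, l, h1, h2, h3, h4⟩
    rcases Nat.lt_or_ge k k0 with hk | hk
    · have := NJ_le δ x R k h4
      omega
    · have hih := ih k (fun j hj1 hj2 => hxz j hj1 (by omega)) h4
      have hne : z l ≠ z k := by
        intro e
        have a1 := hxz l (by omega) h2
        have a2 := hxz k hk (by omega)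
        rw [e] at a1
        rw [abs_le] at a1 a2
        have : |x l - x k| ≤ δ / 2 := by
          rw [abs_le]
          constructor <;> linarith [a1.1, a1.2, a2.1, a2.2]
        linarith
      obtain ⟨j, hj1, hj2, hj3⟩ := change_of_ne z k (l - k)
        (by rw [Nat.add_sub_cancel' h1.le]; exact hne)
      have hsub : insert j ((range k).filter (fun k => z k ≠ z (k + 1)))
          ⊆ (range K).filter (fun k => z k ≠ z (k + 1)) := by
        intro i hi
        rw [mem_insert] at hi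
        rw [mem_filter, mem_range]
        rcases hi with rfl | hi
        · exact ⟨by omega, hj3⟩
        · rw [mem_filter, mem_range] at hi
          exact ⟨by omega, hi.2⟩
      have hcard := card_le_card hsub
      rw [card_insert_of_notMem (by
        rw [mem_filter, mem_range]
        omega)] at hcard
      omega

/-- deterministic counting: `x` is `δ/4`-close to `z` on `[k0, K]`, `z` changes at most `r` times -/
theorem jumps_count (x z : ℕ → ℝ) (K k0 r : ℕ) (δ : ℝ) (hδ : 0 < δ)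
    (hxz : ∀ k, k0 ≤ k → k ≤ K → |x k - z k| ≤ δ / 4)
    (hz : ((range K).filter (fun k => z k ≠ z (k + 1))).card ≤ r) (R : ℕ) (hR : k0 + r + 2 ≤ R) :
    ¬ NJ δ x R K := by
  intro h
  have := NJ_count x z k0 δ hδ R K hxz h
  omega

omit [Fintype A] in
theorem Xk_eq (M : Mod A) (F G : A → ℕ → ℝ) (k c : ℕ) (u : A) : Xk M F G k c u = XX M F G k c u := by
  unfold Xk XX ip
  rw [card_blk]
  unfold blk
  rw [sum_Ico_eq_sum_range]
  have h1 : (c / 2 ^ k + 1) * 2 ^ k - c / 2 ^ k * 2 ^ k = 2 ^ k := by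
    rw [add_mul, one_mul, Nat.add_sub_cancel_left]
  rw [h1]
  push_cast
  rfl

/-- a zero sequence has no jumps -/
private theorem NJ_zero (δ : ℝ) (hδ : 0 < δ) (x : ℕ → ℝ) (hx : ∀ k, x k = 0) (R K : ℕ)
    (hR : 1 ≤ R) : ¬ NJ δ x R K := by
  obtain ⟨R, rfl⟩ := Nat.exists_eq_add_of_le' hR
  rintro ⟨k, l, -, -, h, -⟩
  rw [hx, hx, sub_zero, abs_zero] at h
  linarith

/-- choice of the first parameter -/
private theorem par_exists (C : ℕ) (δ η B : ℝ) (hη : 0 < η) :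
    ∃ e0 : ℕ, 200 * C ≤ e0 ∧ (10 ^ 6 * (C : ℝ) ^ 2 * (e0 : ℝ) / (δ / 2 ^ 5)) ^ (100 * C) ≤ 2 ^ e0 ∧
      B ≤ 2 ^ e0 ∧ 10 ^ 8 * (1 / 2 : ℝ) ^ e0 ≤ η := by
  have h1 : Filter.Tendsto (fun n : ℕ => (10 ^ 6 * (C : ℝ) ^ 2 / (δ / 2 ^ 5)) ^ (100 * C) *
      ((n : ℝ) ^ (100 * C) / 2 ^ n)) Filter.atTop
      (nhds ((10 ^ 6 * (C : ℝ) ^ 2 / (δ / 2 ^ 5)) ^ (100 * C) * 0)) :=
    (tendsto_pow_const_div_const_pow_of_one_lt (100 * C) (by norm_num)).const_mul _
  rw [mul_zero] at h1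
  have h2 : Filter.Tendsto (fun n : ℕ => 10 ^ 8 * (1 / 2 : ℝ) ^ n) Filter.atTop
      (nhds (10 ^ 8 * 0)) :=
    (tendsto_pow_atTop_nhds_zero_of_lt_one (by norm_num) (by norm_num)).const_mul _
  rw [mul_zero] at h2
  have h3 : Filter.Tendsto (fun n : ℕ => (2 : ℝ) ^ n) Filter.atTop Filter.atTop :=
    tendsto_pow_atTop_atTop_of_one_lt (by norm_num)
  have e1 := h1.eventually (gt_mem_nhds (show (0 : ℝ) < 1 by norm_num))
  have e2 := h2.eventually (gt_mem_nhds hη)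
  have e4 := h3.eventually (Filter.eventually_ge_atTop B)
  obtain ⟨n, hn1, hn2, hn3, hn4⟩ :=
    (e1.and (e2.and ((Filter.eventually_ge_atTop (200 * C)).and e4))).exists
  refine ⟨n, hn3, ?_, hn4, hn2.le⟩
  have hp : (0 : ℝ) < 2 ^ n := by positivity
  have e3 : (10 ^ 6 * (C : ℝ) ^ 2 * (n : ℝ) / (δ / 2 ^ 5)) ^ (100 * C)
      = ((10 ^ 6 * (C : ℝ) ^ 2 / (δ / 2 ^ 5)) ^ (100 * C) * ((n : ℝ) ^ (100 * C) / 2 ^ n)) *
        2 ^ n := by
    have : (10 ^ 6 * (C : ℝ) ^ 2 * (n : ℝ) / (δ / 2 ^ 5))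
        = (10 ^ 6 * (C : ℝ) ^ 2 / (δ / 2 ^ 5)) * n := by ring
    rw [this, mul_pow, mul_assoc, div_mul_cancel₀ _ hp.ne']
  rw [e3]
  calc _ ≤ 1 * (2 : ℝ) ^ n := mul_le_mul_of_nonneg_right hn1.le hp.le
    _ = 2 ^ n := one_mul _

/-- all the parameters -/
private theorem par_all (C : ℕ) (δ : ℝ) (e0 : ℕ) (he0 : 200 * C ≤ e0)
    (h : (10 ^ 6 * (C : ℝ) ^ 2 * (e0 : ℝ) / (δ / 2 ^ 5)) ^ (100 * C) ≤ 2 ^ e0) (i : ℕ) :
    (10 ^ 6 * (C : ℝ) ^ 2 * ((2 ^ i * e0 : ℕ) : ℝ) / (δ / 2 ^ (i + 5))) ^ (100 * C) ≤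
      2 ^ (2 ^ i * e0) := by
  induction i with
  | zero => simpa using h
  | succ i ih =>
    have e1 : 10 ^ 6 * (C : ℝ) ^ 2 * ((2 ^ (i + 1) * e0 : ℕ) : ℝ) / (δ / 2 ^ (i + 1 + 5))
        = 4 * (10 ^ 6 * (C : ℝ) ^ 2 * ((2 ^ i * e0 : ℕ) : ℝ) / (δ / 2 ^ (i + 5))) := by
      push_cast
      rw [show i + 1 + 5 = (i + 5) + 1 by ring,
        pow_succ (2 : ℝ) (i + 5), pow_succ (2 : ℝ) i]
      rw [div_div_eq_mul_div, div_div_eq_mul_div]
      ring
    rw [e1, mul_pow]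
    have h200 : 200 * C ≤ 2 ^ i * e0 := le_trans he0 (Nat.le_mul_of_pos_left _ (by positivity))
    have h4 : (4 : ℝ) ^ (100 * C) = 2 ^ (200 * C) := by
      rw [show (4 : ℝ) = 2 ^ 2 by norm_num, ← pow_mul]
      congr 1
      ring
    rw [h4]
    calc (2 : ℝ) ^ (200 * C) *
          (10 ^ 6 * (C : ℝ) ^ 2 * ((2 ^ i * e0 : ℕ) : ℝ) / (δ / 2 ^ (i + 5))) ^ (100 * C)
        ≤ 2 ^ (200 * C) * 2 ^ (2 ^ i * e0) := mul_le_mul_of_nonneg_left ih (by positivity)
      _ = 2 ^ (200 * C + 2 ^ i * e0) := (pow_add (2 : ℝ) (200 * C) (2 ^ i * e0)).symm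
      _ ≤ 2 ^ (2 ^ (i + 1) * e0) := by
          apply pow_le_pow_right₀ (by norm_num)
          rw [pow_succ]
          nlinarith [h200]

/-- consequences for one system -/
private theorem par_cons (C : ℕ) (hC : 1 ≤ C) (δ : ℝ) (hδ : 0 < δ) (hδ1 : δ ≤ 1) (e i : ℕ)
    (he : 1 ≤ e)
    (h : (10 ^ 6 * (C : ℝ) ^ 2 * (e : ℝ) / (δ / 2 ^ (i + 5))) ^ (100 * C) ≤ 2 ^ e) :
    (1 / δ) ^ 2 ≤ 2 ^ e ∧ (1 / 2 : ℝ) ^ e ≤ δ / 64 := by
  have he' : (1 : ℝ) ≤ e := by exact_mod_cast he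
  have hC' : (1 : ℝ) ≤ C := by exact_mod_cast hC
  have hC2 : (1 : ℝ) ≤ (C : ℝ) ^ 2 := one_le_pow₀ hC'
  have hCe : (1 : ℝ) ≤ (C : ℝ) ^ 2 * e := by nlinarith
  set x := 10 ^ 6 * (C : ℝ) ^ 2 * (e : ℝ) / (δ / 2 ^ (i + 5)) with hx
  have hp : (32 : ℝ) ≤ 2 ^ (i + 5) := by
    calc (32 : ℝ) = 2 ^ 5 := by norm_num
      _ ≤ 2 ^ (i + 5) := pow_le_pow_right₀ (by norm_num) (by omega)
  have hx2 : 64 / δ ≤ x := by
    rw [hx, div_div_eq_mul_div]
    apply div_le_div_of_nonneg_right _ hδ.le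
    have h1 : (10 : ℝ) ^ 6 * 32 ≤ 10 ^ 6 * (C : ℝ) ^ 2 * e * 2 ^ (i + 5) := by
      apply mul_le_mul _ hp (by norm_num) (by positivity)
      nlinarith
    linarith
  have hd1 : 1 ≤ 1 / δ := by
    rw [le_div_iff₀ hδ]
    linarith
  have hx3 : 1 / δ ≤ x := by
    refine le_trans ?_ hx2
    rw [div_le_div_iff_of_pos_right hδ]
    norm_num
  have hx1 : 1 ≤ x := le_trans hd1 hx3
  constructor
  · calc (1 / δ) ^ 2 ≤ x ^ 2 := pow_le_pow_left₀ (by linarith) hx3 2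
      _ ≤ x ^ (100 * C) := pow_le_pow_right₀ hx1 (by omega)
      _ ≤ 2 ^ e := h
  · have h3 : x ≤ 2 ^ e := le_trans (by
      calc x = x ^ 1 := (pow_one x).symm
        _ ≤ x ^ (100 * C) := pow_le_pow_right₀ hx1 (by omega)) h
    have h4 : 64 / δ ≤ 2 ^ e := le_trans hx2 h3
    rw [div_le_iff₀ hδ] at h4
    have h5 : (0 : ℝ) < 2 ^ e := by positivity
    rw [div_pow, one_pow, div_le_div_iff₀ h5 (by norm_num)]
    linarith

private theorem ztr_err (C : ℕ) (hC : 1 ≤ C) (δ : ℝ) (e : ℕ) (he : 1 ≤ e)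
    (h : (1 / 2 : ℝ) ^ e ≤ δ / 64) (t : ℝ) (ht : t < GamE C e) :
    10 * (3 * (C : ℝ) ^ 2 * tauE C e) * mE C e + Real.sqrt (t / (2 ^ mE C e * lamE C e)) ≤
      δ / 64 := by
  have h1 := keyB_e1 C e hC he
  have h2 : (1 / 2 : ℝ) ^ (3000 * e) ≤ (1 / 2) ^ e :=
    pow_le_pow_of_le_one (by norm_num) (by norm_num) (by omega)
  have h3 : (0 : ℝ) < (1 / 2) ^ (3000 * e) := by positivity
  have h4 : 0 ≤ 5 * (3 * (C : ℝ) ^ 2 * (1 / 2 : ℝ) ^ (16000 * C * e)) := by positivity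
  have h5 : Real.sqrt (t / (2 ^ mE C e * lamE C e)) ≤
      Real.sqrt (2 ^ (30000 * C ^ 2 * e) /
          (2 ^ (60000 * C ^ 2 * e) * (1 / 2 : ℝ) ^ (8000 * C * e))) := by
    unfold mE lamE
    unfold GamE at ht
    apply Real.sqrt_le_sqrt
    exact div_le_div_of_nonneg_right ht.le (by positivity)
  unfold tauE mE at *
  linarith

open Classical in
/-- Markov at one scale -/
private theorem bad_single {M : Mod A} {nu : ℕ → A → ℝ} {C : ℕ} {kr : ℕ → A → ℝ}
    (hGe : Geo M nu C) (K k e : ℕ) (he : 1 ≤ e) (hkr : Krn M nu C (80 * e) kr)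
    (hek : C * (80 * e) ≤ k) (hk : k ≤ K) (hCe : (C : ℝ) ≤ 2 ^ e)
    (F G : A → ℕ → ℝ) (Om : Finset A) (hF : ∀ u t, |F u t| ≤ 1) (hG : ∀ u t, |G u t| ≤ 1)
    (hF0 : ∀ u t, u ∉ Om → F u t = 0) (hG0 : ∀ u t, u ∉ Om → G u t = 0)
    (D : Dict A) (hD : IsSys M nu C K F G Om (lamE C e) (tauE C e) D) (δ : ℝ) (hδ : 0 < δ)
    (hd : (1 / δ) ^ 2 ≤ 2 ^ e) :
    ex K (fun c (u : A) => if δ / 32 < |ip (blk k (c / 2 ^ k)) (F u)
        (rsd (tauE C e) D (lamE C e) k (c / 2 ^ k) (M.pS (M.th c * u)) (G (M.th c * u)))|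
        then (1 : ℝ) else 0) ≤ 2048 * (1 / 2) ^ (38 * e) * (Om.card / Fintype.card A) := by
  have hC := hGe.one_le
  have hom : (0 : ℝ) ≤ Om.card / Fintype.card A := by positivity
  have h1 := rem_single hGe hkr K k hek hk F G Om hF hG hF0 hG0 (lamE C e) (tauE C e)
    (keyC_lam_pos C e) D hD
  have h2 : ex K (fun c (u : A) => if δ / 32 < |ip (blk k (c / 2 ^ k)) (F u)
        (rsd (tauE C e) D (lamE C e) k (c / 2 ^ k) (M.pS (M.th c * u)) (G (M.th c * u)))|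
        then (1 : ℝ) else 0) ≤ ex K (fun c (u : A) => (1024 * (1 / δ) ^ 2) *
        ip (blk k (c / 2 ^ k)) (F u)
        (rsd (tauE C e) D (lamE C e) k (c / 2 ^ k) (M.pS (M.th c * u)) (G (M.th c * u))) ^ 2) := by
    apply ex_mono
    intro c _ u
    split_ifs with hc
    · have a1 : (δ / 32) ^ 2 ≤ |ip (blk k (c / 2 ^ k)) (F u)
        (rsd (tauE C e) D (lamE C e) k (c / 2 ^ k) (M.pS (M.th c * u)) (G (M.th c * u)))| ^ 2 :=
        pow_le_pow_left₀ (by positivity) hc.le 2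
      rw [sq_abs] at a1
      calc (1 : ℝ) = (1024 * (1 / δ) ^ 2) * (δ / 32) ^ 2 := by
            field_simp
            norm_num
        _ ≤ _ := mul_le_mul_of_nonneg_left a1 (by positivity)
    · positivity
  rw [ex_smul] at h2
  refine le_trans h2 ?_
  have hpe : (0 : ℝ) < 2 ^ e := by positivity
  have hinv : ∀ n : ℕ, (2 : ℝ) ^ e * (1 / 2) ^ ((n + 1) * e) = (1 / 2) ^ (n * e) := by
    intro n
    rw [show (n + 1) * e = e + n * e by ring, pow_add, ← mul_assoc, one_div, inv_pow,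
      mul_inv_cancel₀ (by positivity), one_mul]
  have h3 : Real.sqrt (2 ^ (80 * e)) = 2 ^ (40 * e) := by
    rw [show (2 : ℝ) ^ (80 * e) = (2 ^ (40 * e)) ^ 2 by rw [← pow_mul]; ring_nf]
    exact Real.sqrt_sq (by positivity)
  have h4 : (C : ℝ) / Real.sqrt (2 ^ (80 * e)) ≤ (1 / 2) ^ (39 * e) := by
    rw [h3, ← hinv 39, div_eq_mul_one_div]
    have e1 : (1 : ℝ) / 2 ^ (40 * e) = (1 / 2) ^ ((39 + 1) * e) := by
      rw [one_div_pow]
    rw [e1]
    exact mul_le_mul_of_nonneg_right hCe (by positivity)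
  have h5 : (2 : ℝ) ^ (C * (80 * e)) * lamE C e ≤ (1 / 2) ^ (39 * e) := by
    have e1 : lamE C e = (1 / 2) ^ (C * (80 * e)) * (1 / 2) ^ (7920 * C * e) := by
      unfold lamE
      rw [← pow_add]
      congr 1
      ring
    rw [e1, ← mul_assoc, ← mul_pow, show (2 : ℝ) * (1 / 2) = 1 by norm_num, one_pow, one_mul]
    apply pow_le_pow_of_le_one (by norm_num) (by norm_num)
    nlinarith
  have h6 : 0 ≤ 1024 * (1 / δ) ^ 2 := by positivity
  have h7 : (0 : ℝ) < (1 / 2) ^ (39 * e) := by positivity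
  calc _ ≤ (1024 * (1 / δ) ^ 2) * (((C : ℝ) / Real.sqrt (2 ^ (80 * e)) +
          2 ^ (C * (80 * e)) * lamE C e) * (Om.card / Fintype.card A)) :=
        mul_le_mul_of_nonneg_left h1 h6
    _ ≤ (1024 * 2 ^ e) * ((2 * (1 / 2) ^ (39 * e)) * (Om.card / Fintype.card A)) := by
        apply mul_le_mul (by linarith) _ (by
          have := keyC_lam_pos C e
          positivity) (by positivity)
        exact mul_le_mul_of_nonneg_right (by linarith) hom
    _ = 2048 * (2 ^ e * (1 / 2) ^ ((38 + 1) * e)) * (Om.card / Fintype.card A) := by ring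
    _ = _ := by rw [hinv 38]

open Classical in
/-- probability that the system is bad -/
private theorem bad_sys {M : Mod A} {nu : ℕ → A → ℝ} {C CF : ℕ} {kr : ℕ → A → ℝ}
    (hGe : Geo M nu C) (K e : ℕ) (he : 1 ≤ e) (hkr : Krn M nu C (80 * e) kr) (hCF : C ≤ CF)
    (hCe : (CF : ℝ) ≤ 2 ^ e)
    (F G : A → ℕ → ℝ) (Om : Finset A) (hF : ∀ u t, |F u t| ≤ 1) (hG : ∀ u t, |G u t| ≤ 1)
    (hF0 : ∀ u t, u ∉ Om → F u t = 0) (hG0 : ∀ u t, u ∉ Om → G u t = 0)
    (D : Dict A) (hD : IsSys M nu C K F G Om (lamE C e) (tauE C e) D) (δ : ℝ) (hδ : 0 < δ)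
    (hd : (1 / δ) ^ 2 ≤ 2 ^ e) :
    ex K (fun c (u : A) => ∑ k ∈ (Icc (CF * (80 * e)) (2 * (CF * (80 * e)))).filter
          (fun k => k ≤ K),
        if δ / 32 < |ip (blk k (c / 2 ^ k)) (F u)
        (rsd (tauE C e) D (lamE C e) k (c / 2 ^ k) (M.pS (M.th c * u)) (G (M.th c * u)))|
        then (1 : ℝ) else 0) ≤ 10 ^ 6 * (1 / 2) ^ e * (Om.card / Fintype.card A) := by
  rw [ex_sum]
  have hom : (0 : ℝ) ≤ Om.card / Fintype.card A := by positivity
  have hCe' : (C : ℝ) ≤ 2 ^ e := le_trans (by exact_mod_cast hCF) hCe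
  have hp1 : (1 : ℝ) ≤ 2 ^ e := one_le_pow₀ (by norm_num)
  have he1 : (e : ℝ) ≤ 2 ^ e := by exact_mod_cast Nat.lt_two_pow_self.le
  have he0 : (1 : ℝ) ≤ e := by exact_mod_cast he
  calc _ ≤ ∑ k ∈ (Icc (CF * (80 * e)) (2 * (CF * (80 * e)))).filter (fun k => k ≤ K),
        (2048 * (1 / 2 : ℝ) ^ (38 * e) * (Om.card / Fintype.card A)) := by
        apply sum_le_sum
        intro k hk
        rw [mem_filter, mem_Icc] at hk
        exact bad_single hGe K k e he hkr ((Nat.mul_le_mul_right _ hCF).trans hk.1.1) hk.2 hCe' F G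
          Om hF hG hF0 hG0 D hD δ hδ hd
    _ ≤ ∑ k ∈ (Icc (CF * (80 * e)) (2 * (CF * (80 * e)))),
        (2048 * (1 / 2 : ℝ) ^ (38 * e) * (Om.card / Fintype.card A)) := by
        apply sum_le_sum_of_subset_of_nonneg (filter_subset _ _)
        intro k _ _
        positivity
    _ = ((2 * (CF * (80 * e)) + 1 - CF * (80 * e) : ℕ) : ℝ) *
        (2048 * (1 / 2 : ℝ) ^ (38 * e) * (Om.card / Fintype.card A)) := by
        rw [sum_const, Nat.card_Icc, nsmul_eq_mul]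
    _ ≤ (81 * (2 ^ e * 2 ^ e)) * (2048 * (1 / 2 : ℝ) ^ (38 * e) * (Om.card / Fintype.card A)) := by
        apply mul_le_mul_of_nonneg_right _ (by positivity)
        have h1 : 2 * (CF * (80 * e)) + 1 - CF * (80 * e) = CF * (80 * e) + 1 := by omega
        rw [h1]
        push_cast
        have h2 : (CF : ℝ) * e ≤ 2 ^ e * 2 ^ e := mul_le_mul hCe he1 (by positivity) (by positivity)
        have h3 : (1 : ℝ) ≤ 2 ^ e * 2 ^ e := one_le_mul_of_one_le_of_one_le hp1 hp1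
        linarith
    _ = (81 * 2048) * ((2 ^ e * (2 ^ e * (1 / 2 : ℝ) ^ (38 * e))) *
          (Om.card / Fintype.card A)) := by ring
    _ = (81 * 2048) * ((1 / 2 : ℝ) ^ (36 * e) * (Om.card / Fintype.card A)) := by
        congr 2
        rw [show 38 * e = e + (e + 36 * e) by ring, pow_add, pow_add, one_div, inv_pow,
          ← mul_assoc (2 ^ e) (2 ^ e)⁻¹, mul_inv_cancel₀ (by positivity), one_mul, ← mul_assoc,
          mul_inv_cancel₀ (by positivity), one_mul]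
    _ ≤ (81 * 2048) * ((1 / 2 : ℝ) ^ e * (Om.card / Fintype.card A)) := by
        apply mul_le_mul_of_nonneg_left _ (by norm_num)
        apply mul_le_mul_of_nonneg_right _ hom
        exact pow_le_pow_of_le_one (by norm_num) (by norm_num) (by omega)
    _ ≤ 10 ^ 6 * (1 / 2) ^ e * (Om.card / Fintype.card A) := by
        have : 0 ≤ (1 / 2 : ℝ) ^ e * (Om.card / Fintype.card A) := by positivity
        nlinarith

omit [Fintype A] in
/-- moves of the frozen inner product -/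
private theorem zfr_step (τ : ℝ) (D : Dict A) (lam : ℝ) (m : ℕ) (ε : ℝ) (K : ℕ) (y : ℕ → A)
    (f : ℕ → ℝ) (y' : ℕ → A) (g : ℕ → ℝ) (k c : ℕ) (hk : k < K)
    (h1 : mvv 1 τ D lam m ε K y f k (c / 2 ^ k) = 0)
    (h2 : mvv 2 τ D lam m ε K y' g k (c / 2 ^ k) = 0) :
    Zfr τ D lam m ε K k (c / 2 ^ k) y f y' g
      = Zfr τ D lam m ε K (k + 1) (c / 2 ^ (k + 1)) y f y' g := by
  have e : c / 2 ^ (k + 1) = c / 2 ^ k / 2 := by
    rw [Nat.div_div_eq_div_mul, pow_succ]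
  unfold Zfr
  rw [vec_step 1 τ D lam m ε K y f k (c / 2 ^ k) hk h1,
    vec_step 2 τ D lam m ε K y' g k (c / 2 ^ k) hk h2, e]

omit [Fintype A] in
open Classical in
private theorem mvv01 (s τ : ℝ) (D : Dict A) (lam : ℝ) (m : ℕ) (ε : ℝ) (K : ℕ) (y : ℕ → A)
    (f : ℕ → ℝ) (k b : ℕ) :
    mvv s τ D lam m ε K y f k b = 0 ∨ mvv s τ D lam m ε K y f k b = 1 := by
  unfold mvv
  split_ifs
  · right; rfl
  · left; rfl

omit [Fintype A] in
private theorem card_changes (τ : ℝ) (D : Dict A) (lam : ℝ) (m : ℕ) (ε : ℝ) (K : ℕ)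
    (y : ℕ → A) (f : ℕ → ℝ) (y' : ℕ → A) (g : ℕ → ℝ) (c R0 : ℕ)
    (h1 : ∑ k ∈ range (K + 1), mvv 1 τ D lam m ε K y f k (c / 2 ^ k) ≤ R0)
    (h2 : ∑ k ∈ range (K + 1), mvv 2 τ D lam m ε K y' g k (c / 2 ^ k) ≤ R0) :
    ((range K).filter (fun k => Zfr τ D lam m ε K k (c / 2 ^ k) y f y' g
      ≠ Zfr τ D lam m ε K (k + 1) (c / 2 ^ (k + 1)) y f y' g)).card ≤ 2 * R0 := by
  have h3 : (((range K).filter (fun k => Zfr τ D lam m ε K k (c / 2 ^ k) y f y' g
      ≠ Zfr τ D lam m ε K (k + 1) (c / 2 ^ (k + 1)) y f y' g)).card : ℝ)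
      ≤ ∑ k ∈ range (K + 1), (mvv 1 τ D lam m ε K y f k (c / 2 ^ k)
        + mvv 2 τ D lam m ε K y' g k (c / 2 ^ k)) := by
    rw [card_eq_sum_ones, Nat.cast_sum]
    have hsub : (range K).filter (fun k => Zfr τ D lam m ε K k (c / 2 ^ k) y f y' g
      ≠ Zfr τ D lam m ε K (k + 1) (c / 2 ^ (k + 1)) y f y' g) ⊆ range (K + 1) := by
      intro k hk
      rw [mem_filter, mem_range] at hk
      rw [mem_range]
      omega
    refine le_trans (sum_le_sum ?_) (sum_le_sum_of_subset_of_nonneg hsub ?_)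
    · intro k hk
      rw [mem_filter, mem_range] at hk
      rcases mvv01 1 τ D lam m ε K y f k (c / 2 ^ k) with a | a <;>
        rcases mvv01 2 τ D lam m ε K y' g k (c / 2 ^ k) with b | b
      · exact absurd (zfr_step τ D lam m ε K y f y' g k c hk.1 a b) hk.2
      all_goals rw [a, b]; norm_num
    · intro k _ _
      rcases mvv01 1 τ D lam m ε K y f k (c / 2 ^ k) with a | a <;>
        rcases mvv01 2 τ D lam m ε K y' g k (c / 2 ^ k) with b | b <;> rw [a, b] <;> norm_num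
  rw [sum_add_distrib] at h3
  have h4 : (((range K).filter (fun k => Zfr τ D lam m ε K k (c / 2 ^ k) y f y' g
      ≠ Zfr τ D lam m ε K (k + 1) (c / 2 ^ (k + 1)) y f y' g)).card : ℝ) ≤ ((2 * R0 : ℕ) : ℝ) := by
    push_cast
    linarith
  exact_mod_cast h4

/-- position of a scale among the systems -/
private theorem sys_index (CF e0 k : ℕ) (hCF : 1 ≤ CF) (he0 : 1 ≤ e0)
    (hk : CF * (80 * e0) ≤ k) :
    ∃ i, CF * (80 * (2 ^ i * e0)) ≤ k ∧ k < CF * (80 * (2 ^ (i + 1) * e0)) := by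
  have hpos : 0 < CF * (80 * e0) := Nat.mul_pos (by omega) (by omega)
  have hne : k / (CF * (80 * e0)) ≠ 0 := (Nat.div_pos hk hpos).ne'
  refine ⟨Nat.log 2 (k / (CF * (80 * e0))), ?_, ?_⟩
  · have h1 := Nat.pow_log_le_self 2 hne
    have h2 := (Nat.le_div_iff_mul_le hpos).mp h1
    calc _ = 2 ^ Nat.log 2 (k / (CF * (80 * e0))) * (CF * (80 * e0)) := by ring
      _ ≤ k := h2
  · have h1 := Nat.lt_pow_succ_log_self (by norm_num : 1 < 2) (k / (CF * (80 * e0)))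
    have h2 := (Nat.div_lt_iff_lt_mul hpos).mp h1
    calc k < 2 ^ (Nat.log 2 (k / (CF * (80 * e0)))).succ * (CF * (80 * e0)) := h2
      _ = _ := by rw [Nat.succ_eq_add_one]; ring

/-- the deterministic part -/
private theorem det {M : Mod A} {nu : ℕ → A → ℝ} {C CF : ℕ} (hGe : Geo M nu C) (hCF : 1 ≤ CF)
    (δ : ℝ) (hδ : 0 < δ) (e0 : ℕ) (he0 : 1 ≤ e0)
    (hpar : ∀ i : ℕ, (1 / 2 : ℝ) ^ (2 ^ i * e0) ≤ δ / 64)
    (K : ℕ) (F G : A → ℕ → ℝ) (hF : ∀ u t, |F u t| ≤ 1) (hG : ∀ u t, |G u t| ≤ 1)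
    (D : ℕ → Dict A) (hDnu : ∀ i, (D i).nu = nu) (c R0 : ℕ) (u : A)
    (g1 : ∀ i k, CF * (80 * (2 ^ i * e0)) ≤ k → k ≤ K →
        |Ztr (tauE C (2 * (2 ^ i * e0))) (D (i + 1)) (lamE C (2 * (2 ^ i * e0)))
              (mE C (2 * (2 ^ i * e0))) k (c / 2 ^ k)
              (M.pT u) (F u) (M.pS (M.th c * u)) (G (M.th c * u))
            - Ztr (tauE C (2 ^ i * e0)) (D i) (lamE C (2 ^ i * e0)) (mE C (2 ^ i * e0)) k
              (c / 2 ^ k)
              (M.pT u) (F u) (M.pS (M.th c * u)) (G (M.th c * u))| ≤ δ / 2 ^ (i + 5))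
    (g2 : ∀ i k, CF * (80 * (2 ^ i * e0)) ≤ k → k ≤ 2 * (CF * (80 * (2 ^ i * e0))) → k ≤ K →
        |ip (blk k (c / 2 ^ k)) (F u)
          (rsd (tauE C (2 ^ i * e0)) (D i) (lamE C (2 ^ i * e0)) k (c / 2 ^ k)
            (M.pS (M.th c * u)) (G (M.th c * u)))| ≤ δ / 32)
    (g3 : ∀ i k, CF * (80 * (2 ^ i * e0)) ≤ k → k ≤ K →
        tr (tauE C (2 ^ i * e0)) (D i) k (c / 2 ^ k) (M.pS (M.th c * u)) < GamE C (2 ^ i * e0))
    (ε : ℝ) (hε : ε = δ / (64 * mE C e0))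
    (g4 : ∑ k ∈ range (K + 1), mvv 1 (tauE C e0) (D 0) (lamE C e0) (mE C e0) ε K (M.pT u) (F u) k
        (c / 2 ^ k) ≤ R0)
    (g5 : ∑ k ∈ range (K + 1), mvv 2 (tauE C e0) (D 0) (lamE C e0) (mE C e0) ε K
        (M.pS (M.th c * u)) (G (M.th c * u)) k (c / 2 ^ k) ≤ R0) :
    ¬ NJ δ (fun k => Xk M F G k c u) (CF * (80 * e0) + 2 * R0 + 2) K := by
  have hC := hGe.one_le
  have hm0 : (0 : ℝ) < mE C e0 := by
    unfold mE
    have h1 : (1 : ℝ) ≤ e0 := by exact_mod_cast he0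
    have h2 : (1 : ℝ) ≤ C := by exact_mod_cast hC
    push_cast
    positivity
  have hεp : 0 < ε := by rw [hε]; positivity
  refine jumps_count (fun k => Xk M F G k c u)
    (fun k => Zfr (tauE C e0) (D 0) (lamE C e0) (mE C e0) ε K k (c / 2 ^ k) (M.pT u) (F u)
      (M.pS (M.th c * u)) (G (M.th c * u))) K (CF * (80 * e0)) (2 * R0) δ hδ ?_
    (card_changes (tauE C e0) (D 0) (lamE C e0) (mE C e0) ε K (M.pT u) (F u) (M.pS (M.th c * u))
      (G (M.th c * u)) c R0 g4 g5) _ le_rfl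
  intro k hk0 hkK
  show |Xk M F G k c u - _| ≤ _
  obtain ⟨i, hi1, hi2⟩ := sys_index CF e0 k hCF he0 hk0
  have hei : 1 ≤ 2 ^ i * e0 := Nat.mul_pos (by positivity) he0
  have hmon : ∀ j ≤ i, CF * (80 * (2 ^ j * e0)) ≤ k := by
    intro j hj
    refine le_trans ?_ hi1
    exact Nat.mul_le_mul_left _ (Nat.mul_le_mul_left _ (Nat.mul_le_mul_right _
      (Nat.pow_le_pow_right (by norm_num) hj)))
  -- comparison of the systems
  have hA : ∀ j ≤ i, |Ztr (tauE C (2 ^ j * e0)) (D j) (lamE C (2 ^ j * e0)) (mE C (2 ^ j * e0)) k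
        (c / 2 ^ k) (M.pT u) (F u) (M.pS (M.th c * u)) (G (M.th c * u))
      - Ztr (tauE C e0) (D 0) (lamE C e0) (mE C e0) k (c / 2 ^ k) (M.pT u) (F u)
        (M.pS (M.th c * u)) (G (M.th c * u))| ≤ δ / 16 - δ / 2 ^ (j + 4) := by
    intro j
    induction j with
    | zero =>
      intro _
      simp only [pow_zero, one_mul, sub_self, abs_zero]
      norm_num
    | succ j ih =>
      intro hj
      have b1 := ih (by omega)
      have b2 := g1 j k (hmon j (by omega)) hkK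
      have e1 : 2 * (2 ^ j * e0) = 2 ^ (j + 1) * e0 := by ring
      rw [e1] at b2
      have e2 : δ / 2 ^ (j + 4) - δ / 2 ^ (j + 5) = δ / 2 ^ (j + 1 + 4) := by
        have h5 : δ / 2 ^ (j + 4) = 2 * (δ / 2 ^ (j + 5)) := by
          rw [show j + 5 = (j + 4) + 1 by ring, pow_succ (2 : ℝ) (j + 4)]
          field_simp
        rw [h5, show j + 1 + 4 = j + 5 by ring]
        ring
      have b3 := abs_sub_le (Ztr (tauE C (2 ^ (j + 1) * e0)) (D (j + 1))
        (lamE C (2 ^ (j + 1) * e0)) (mE C (2 ^ (j + 1) * e0)) k (c / 2 ^ k) (M.pT u) (F u)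
        (M.pS (M.th c * u)) (G (M.th c * u)))
        (Ztr (tauE C (2 ^ j * e0)) (D j) (lamE C (2 ^ j * e0)) (mE C (2 ^ j * e0)) k
        (c / 2 ^ k) (M.pT u) (F u) (M.pS (M.th c * u)) (G (M.th c * u)))
        (Ztr (tauE C e0) (D 0) (lamE C e0) (mE C e0) k (c / 2 ^ k) (M.pT u) (F u)
        (M.pS (M.th c * u)) (G (M.th c * u)))
      linarith
  have hA' := hA i le_rfl
  have hpi : 0 < δ / 2 ^ (i + 4) := by positivity
  -- comparison with the average
  have hB := Ztr_T hGe (tauE C (2 ^ i * e0)) (keyC_tau_pos C _).le (keyC_tau_le C _ hC hei) (D i)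
    (hDnu i) (lamE C (2 ^ i * e0)) (keyC_lam_pos C _) (mE C (2 ^ i * e0)) k (c / 2 ^ k) u
    (M.th c * u) (near_mono (near_tied hGe k c u) (by linarith)) (F u) (G (M.th c * u)) (hF u)
    (hG (M.th c * u))
  have hC2 := ztr_err C hC δ (2 ^ i * e0) hei (hpar i) _ (g3 i k hi1 hkK)
  have hi3 : CF * (80 * (2 ^ (i + 1) * e0)) = 2 * (CF * (80 * (2 ^ i * e0))) := by ring
  have hD := g2 i k hi1 (by rw [hi3] at hi2; exact hi2.le) hkK
  have hE := Zfr_close (tauE C e0) (D 0) (lamE C e0) (keyC_lam_pos C _) (mE C e0) ε hεp K k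
    (c / 2 ^ k) hkK (M.pT u) (F u) (hF u) (M.pS (M.th c * u)) (G (M.th c * u)) (hG (M.th c * u))
  have hE2 : 2 * ε * mE C e0 = δ / 32 := by
    rw [hε]
    field_simp
    norm_num
  rw [hE2] at hE
  have hB' := le_trans hB hC2
  unfold Xk
  rw [abs_le] at hA' hB' hD hE ⊢
  constructor <;> linarith [hA'.1, hA'.2, hB'.1, hB'.2, hD.1, hD.2, hE.1, hE.2]

/-- average of the number of moves -/
private theorem ex_count (K : ℕ) (B : ℝ) (Om : Finset A) (h : ℕ → A → ℝ)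
    (hB : ∀ u ∈ Om, (∑ c ∈ range (2 ^ K), h c u) / 2 ^ K ≤ B)
    (h0 : ∀ c, ∀ u ∉ Om, h c u = 0) : ex K h ≤ B * (Om.card / Fintype.card A) := by
  have hA : (0 : ℝ) < Fintype.card A := card_pos'
  have hK : (0 : ℝ) < 2 ^ K := by positivity
  unfold ex
  rw [sum_comm, div_le_iff₀ (by positivity)]
  have h1 : ∑ u : A, ∑ c ∈ range (2 ^ K), h c u = ∑ u ∈ Om, ∑ c ∈ range (2 ^ K), h c u := by
    symm
    apply sum_subset (subset_univ _)
    intro u _ hu
    exact sum_eq_zero fun c _ => h0 c u hu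
  rw [h1]
  have h2 : ∑ u ∈ Om, ∑ c ∈ range (2 ^ K), h c u ≤ ∑ _u ∈ Om, B * 2 ^ K := by
    apply sum_le_sum
    intro u hu
    have := hB u hu
    rwa [div_le_iff₀ hK] at this
  refine le_trans h2 (le_of_eq ?_)
  rw [sum_const, nsmul_eq_mul]
  field_simp

private theorem krn_mono_sw {M : Mod A} {nu : ℕ → A → ℝ} {C C' a : ℕ} {kr : ℕ → A → ℝ}
    (h : Krn M nu C a kr) (hC : C ≤ C') : Krn M nu C' a kr := by
  have hc : (C : ℝ) ≤ C' := by exact_mod_cast hC
  have ha : C * a ≤ C' * a := Nat.mul_le_mul_right a hC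
  refine ⟨h.symm, fun k hk => h.supp k (ha.trans hk), ?_, ?_, ?_⟩
  · intro k hk x
    refine (h.bound k (ha.trans hk) x).trans ?_
    exact div_le_div_of_nonneg_right (pow_le_pow_right₀ (by norm_num) ha) (vol_nonneg nu k)
  · intro E _ _ K k hk hkK f g
    refine (h.sing E K k (ha.trans hk) hkK f g).trans ?_
    refine mul_le_mul_of_nonneg_right ?_ (mul_nonneg (Real.sqrt_nonneg _) (Real.sqrt_nonneg _))
    exact div_le_div_of_nonneg_right hc (Real.sqrt_nonneg _)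
  · intro E _ _ K k1 hk hkK p q BS BV h1 h2
    refine (h.ti E K k1 (ha.trans hk) hkK p q BS BV h1 h2).trans ?_
    refine mul_le_mul_of_nonneg_right ?_ (mul_nonneg (Real.sqrt_nonneg _) (Real.sqrt_nonneg _))
    exact div_le_div_of_nonneg_right hc (Real.sqrt_nonneg _)

open Classical in
private theorem thm_A_aux (C : ℕ) (δ η : ℝ) (hδ : 0 < δ) (hδ1 : δ ≤ 1) (hη : 0 < η) :
    ∃ R : ℕ, 1 ≤ R ∧
    ∀ (A : Type) [Group A] [Fintype A] (M : Mod A) (nu : ℕ → A → ℝ) (kr : ℕ → ℕ → A → ℝ),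
      Geo M nu C → (∀ a, 1 ≤ a → Krn M nu C a (kr a)) → (∀ a, 1 ≤ a → Krn M.sw nu C a (kr a)) →
      ∀ (K : ℕ) (F G : A → ℕ → ℝ) (Om : Finset A), (∀ u t, |F u t| ≤ 1) → (∀ v t, |G v t| ≤ 1) →
        (∀ u t, u ∉ Om → F u t = 0) → (∀ v t, v ∉ Om → G v t = 0) →
      ex K (fun c (u : A) =>
        if NJ δ (fun k => Xk M F G k c u) R K then (1 : ℝ) else 0) ≤
          η * (Om.card / Fintype.card A) := by
  rcases Nat.eq_zero_or_pos C with hC0 | hC
  · refine ⟨1, le_rfl, ?_⟩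
    intro A _ _ M nu kr hGe
    have := hGe.one_le
    omega
  obtain ⟨CF', hCFdef⟩ : ∃ CF' : ℕ, CF' = CF (C ^ 2) := ⟨_, rfl⟩
  have hCC : C ≤ C ^ 2 := Nat.le_self_pow (by norm_num) C
  have hCF : C ≤ CF' := by
    rw [hCFdef]
    exact hCC.trans (le_CF (C ^ 2))
  have hCF1 : 1 ≤ CF' := by omega
  obtain ⟨e0, h200, hp0, hB0, hη0⟩ := par_exists C δ (η / 2)
    ((CF' : ℝ) + W0 C + (C : ℝ) * (C + 1) ^ C) (by positivity)
  have he01 : 1 ≤ e0 := by omega
  have hpa := par_all C δ e0 h200 hp0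
  have hei : ∀ i, 1 ≤ 2 ^ i * e0 := fun i => Nat.mul_pos (by positivity) he01
  have hpc := fun i => par_cons C hC δ hδ hδ1 (2 ^ i * e0) i (hei i) (hpa i)
  have hee : ∀ i, (2 : ℝ) ^ e0 ≤ 2 ^ (2 ^ i * e0) := fun i =>
    pow_le_pow_right₀ (by norm_num) (Nat.le_mul_of_pos_left _ (by positivity))
  have hCe : ∀ i, (CF' : ℝ) ≤ 2 ^ (2 ^ i * e0) := by
    intro i
    have h1 : (0 : ℝ) ≤ W0 C := Nat.cast_nonneg _
    have h2 : (0 : ℝ) ≤ (C : ℝ) * (C + 1) ^ C := by positivity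
    have := hee i
    linarith
  have hWe : ∀ i, (W0 C : ℝ) ≤ 2 ^ (2 ^ i * e0) := by
    intro i
    have h1 : (0 : ℝ) ≤ CF' := Nat.cast_nonneg _
    have h2 : (0 : ℝ) ≤ (C : ℝ) * (C + 1) ^ C := by positivity
    have := hee i
    linarith
  have hNe : ∀ i, (C : ℝ) * (C + 1) ^ C ≤ 2 ^ (2 ^ i * e0) := by
    intro i
    have h1 : (0 : ℝ) ≤ CF' := Nat.cast_nonneg _
    have h2 : (0 : ℝ) ≤ W0 C := Nat.cast_nonneg _
    have := hee i
    linarith
  obtain ⟨ε, hε⟩ : ∃ ε : ℝ, ε = δ / (64 * mE C e0) := ⟨_, rfl⟩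
  have hm0 : (0 : ℝ) < mE C e0 := by
    unfold mE
    have h1 : (1 : ℝ) ≤ e0 := by exact_mod_cast he01
    have h2 : (1 : ℝ) ≤ C := by exact_mod_cast hC
    push_cast
    positivity
  have hεp : 0 < ε := by rw [hε]; positivity
  obtain ⟨B, hBdef⟩ : ∃ B : ℝ, B = 1 + (mE C e0 : ℝ) / ε ^ 2 := ⟨_, rfl⟩
  have hB0' : 0 < B := by rw [hBdef]; positivity
  obtain ⟨R0, hR0⟩ := exists_nat_gt (4 * B / η)
  have hR0p : (0 : ℝ) < R0 := lt_of_le_of_lt (by positivity) hR0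
  refine ⟨CF' * (80 * e0) + 2 * R0 + 2, by omega, ?_⟩
  intro A _ _ M nu kr hGe hkr hkrs K F G Om hF hG hF0 hG0
  have hom : (0 : ℝ) ≤ Om.card / Fintype.card A := by positivity
  have hGe2 : Geo M nu (C ^ 2) := hGe.mono hCC
  have hflux : ∀ a, 1 ≤ a → FluxH M (kr a) CF' a := by
    intro a ha
    rw [hCFdef]
    exact fluxH M nu (C ^ 2) a (kr a) hGe2 (Krn.mono hGe (hkr a ha) hCC)
  have hfluxS : ∀ a, 1 ≤ a → FluxH M.sw (kr a) CF' a := by
    intro a ha
    rw [hCFdef]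
    exact fluxH M.sw nu (C ^ 2) a (kr a) hGe.sw (krn_mono_sw (hkrs a ha) hCC)
  have hsys : ∀ i, ∃ D : Dict A,
      IsSys M nu C K F G Om (lamE C (2 ^ i * e0)) (tauE C (2 ^ i * e0)) D :=
    fun i => sys_exists M nu C hGe K F G Om hF hG hF0 hG0 _ _ (keyC_lam_pos C _)
      (keyC_lam_le C _) (keyC_tau_pos C _) (keyC_tau_le2 C _ hC (hei i))
  choose D hD using hsys
  -- the bad events
  let B1 : ℕ → ℕ → A → ℝ := fun i c u =>
    if ∃ k, CF' * (80 * (2 ^ i * e0)) ≤ k ∧ k ≤ K ∧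
        δ / 2 ^ (i + 5) ≤ |Ztr (tauE C (2 * (2 ^ i * e0))) (D (i + 1)) (lamE C (2 * (2 ^ i * e0)))
              (mE C (2 * (2 ^ i * e0))) k (c / 2 ^ k)
              (M.pT u) (F u) (M.pS (M.th c * u)) (G (M.th c * u))
            - Ztr (tauE C (2 ^ i * e0)) (D i) (lamE C (2 ^ i * e0)) (mE C (2 ^ i * e0)) k
              (c / 2 ^ k)
              (M.pT u) (F u) (M.pS (M.th c * u)) (G (M.th c * u))| then (1 : ℝ) else 0
  let B2 : ℕ → ℕ → A → ℝ := fun i c u =>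
    ∑ k ∈ (Icc (CF' * (80 * (2 ^ i * e0))) (2 * (CF' * (80 * (2 ^ i * e0))))).filter
          (fun k => k ≤ K),
        if δ / 32 < |ip (blk k (c / 2 ^ k)) (F u)
        (rsd (tauE C (2 ^ i * e0)) (D i) (lamE C (2 ^ i * e0)) k (c / 2 ^ k)
          (M.pS (M.th c * u)) (G (M.th c * u)))| then (1 : ℝ) else 0
  let B3' : ℕ → ℕ → A → ℝ := fun i c v =>
    if ∃ k ≤ K, GamE C (2 ^ i * e0) ≤ tr (tauE C (2 ^ i * e0)) (D i) k (c / 2 ^ k) (M.pS v)
      then (1 : ℝ) else 0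
  let B3 : ℕ → ℕ → A → ℝ := fun i c u => B3' i c (M.th c * u)
  let C4 : ℕ → A → ℝ := fun c u =>
    if u ∈ Om then ∑ k ∈ range (K + 1), mvv 1 (tauE C e0) (D 0) (lamE C e0) (mE C e0) ε K (M.pT u)
      (F u) k (c / 2 ^ k) else 0
  let C5' : ℕ → A → ℝ := fun c v =>
    if v ∈ Om then ∑ k ∈ range (K + 1), mvv 2 (tauE C e0) (D 0) (lamE C e0) (mE C e0) ε K (M.pS v)
      (G v) k (c / 2 ^ k) else 0
  let C5 : ℕ → A → ℝ := fun c u => C5' c (M.th c * u)
  let S : Finset ℕ := (range (K + 1)).filter (fun i => CF' * (80 * (2 ^ i * e0)) ≤ K)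
  have n1 : ∀ i c u, 0 ≤ B1 i c u := by
    intro i c u
    show (0 : ℝ) ≤ if _ then (1 : ℝ) else 0
    split_ifs <;> norm_num
  have n2 : ∀ i c u, 0 ≤ B2 i c u := by
    intro i c u
    apply sum_nonneg
    intro k _
    split_ifs <;> norm_num
  have n3 : ∀ i c u, 0 ≤ B3 i c u := by
    intro i c u
    show (0 : ℝ) ≤ if _ then (1 : ℝ) else 0
    split_ifs <;> norm_num
  have n4 : ∀ c u, 0 ≤ C4 c u := by
    intro c u
    show (0 : ℝ) ≤ if _ then _ else 0
    split_ifs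
    · apply sum_nonneg
      intro k _
      rcases mvv01 1 (tauE C e0) (D 0) (lamE C e0) (mE C e0) ε K (M.pT u) (F u) k (c / 2 ^ k)
        with a | a <;> rw [a]
      norm_num
    · exact le_rfl
  have n5 : ∀ c u, 0 ≤ C5 c u := by
    intro c u
    show (0 : ℝ) ≤ if _ then _ else 0
    split_ifs
    · apply sum_nonneg
      intro k _
      rcases mvv01 2 (tauE C e0) (D 0) (lamE C e0) (mE C e0) ε K (M.pS (M.th c * u))
        (G (M.th c * u)) k (c / 2 ^ k) with a | a <;> rw [a]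
      norm_num
    · exact le_rfl
  have hpt : ∀ c < 2 ^ K, ∀ u : A,
      (if NJ δ (fun k => Xk M F G k c u) (CF' * (80 * e0) + 2 * R0 + 2) K then (1 : ℝ) else 0) ≤
      (∑ i ∈ S, (B1 i c u + B2 i c u + B3 i c u)) + (1 / R0 * C4 c u + 1 / R0 * C5 c u) := by
    intro c _ u
    have ns : ∀ i, 0 ≤ B1 i c u + B2 i c u + B3 i c u := fun i => by
      linarith [n1 i c u, n2 i c u, n3 i c u]
    have nS : 0 ≤ ∑ i ∈ S, (B1 i c u + B2 i c u + B3 i c u) := sum_nonneg fun i _ => ns i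
    have nR : (0 : ℝ) ≤ 1 / R0 := by positivity
    have n4' := mul_nonneg nR (n4 c u)
    have n5' := mul_nonneg nR (n5 c u)
    by_cases huO : u ∈ Om
    swap
    · rw [if_neg (NJ_zero δ hδ _ (fun k => by
        unfold Xk ip
        rw [sum_eq_zero fun t _ => by rw [hF0 u t huO, zero_mul], zero_div]) _ K (by omega))]
      linarith
    by_cases hvO : M.th c * u ∈ Om
    swap
    · rw [if_neg (NJ_zero δ hδ _ (fun k => by
        unfold Xk ip
        rw [sum_eq_zero fun t _ => by rw [hG0 _ t hvO, mul_zero], zero_div]) _ K (by omega))]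
      linarith
    by_cases hbig : 1 ≤ (∑ i ∈ S, (B1 i c u + B2 i c u + B3 i c u))
        + (1 / R0 * C4 c u + 1 / R0 * C5 c u)
    · refine le_trans ?_ hbig
      split_ifs <;> norm_num
    · push Not at hbig
      have hS : ∀ i, CF' * (80 * (2 ^ i * e0)) ≤ K → B1 i c u + B2 i c u + B3 i c u < 1 := by
        intro i hi
        have hiS : i ∈ S := by
          rw [mem_filter, mem_range]
          refine ⟨?_, hi⟩
          have h1 : i < 2 ^ i := Nat.lt_two_pow_self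
          have h2 : 2 ^ i ≤ CF' * (80 * (2 ^ i * e0)) := by
            calc 2 ^ i = 1 * (1 * (2 ^ i * 1)) := by ring
              _ ≤ CF' * (80 * (2 ^ i * e0)) :=
                Nat.mul_le_mul hCF1 (Nat.mul_le_mul (by norm_num) (Nat.mul_le_mul_left _ he01))
          omega
        have h2 := single_le_sum (f := fun i => B1 i c u + B2 i c u + B3 i c u)
          (fun i _ => ns i) hiS
        linarith
      have hno : ¬ NJ δ (fun k => Xk M F G k c u) (CF' * (80 * e0) + 2 * R0 + 2) K := by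
        refine det hGe hCF1 δ hδ e0 he01 (fun i => (hpc i).2) K F G hF hG D
          (fun i => (hD i).hnu) c R0 u ?_ ?_ ?_ ε hε ?_ ?_
        · intro i k hk hkK
          by_contra hcon
          push Not at hcon
          have h1 := hS i (le_trans hk hkK)
          have h2 : B1 i c u = 1 := if_pos ⟨k, hk, hkK, hcon.le⟩
          linarith [n2 i c u, n3 i c u]
        · intro i k hk hk8 hkK
          by_contra hcon
          push Not at hcon
          have h1 := hS i (le_trans hk hkK)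
          have h2 : 1 ≤ B2 i c u := by
            have hmem : k ∈ (Icc (CF' * (80 * (2 ^ i * e0)))
                (2 * (CF' * (80 * (2 ^ i * e0))))).filter (fun k => k ≤ K) := by
              rw [mem_filter, mem_Icc]
              exact ⟨⟨hk, hk8⟩, hkK⟩
            have h3 := single_le_sum (f := fun k => if δ / 32 < |ip (blk k (c / 2 ^ k)) (F u)
              (rsd (tauE C (2 ^ i * e0)) (D i) (lamE C (2 ^ i * e0)) k (c / 2 ^ k)
              (M.pS (M.th c * u)) (G (M.th c * u)))| then (1 : ℝ) else 0)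
              (fun k _ => by split_ifs <;> norm_num) hmem
            simp only [if_pos hcon] at h3
            exact h3
          linarith [n1 i c u, n3 i c u]
        · intro i k hk hkK
          by_contra hcon
          push Not at hcon
          have h1 := hS i (le_trans hk hkK)
          have h2 : B3 i c u = 1 := if_pos ⟨k, hkK, hcon⟩
          linarith [n1 i c u, n2 i c u]
        · have h1 : 1 / R0 * C4 c u < 1 := by linarith
          rw [div_mul_eq_mul_div, one_mul, div_lt_one hR0p] at h1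
          have h2 : C4 c u = ∑ k ∈ range (K + 1), mvv 1 (tauE C e0) (D 0) (lamE C e0) (mE C e0) ε K
            (M.pT u) (F u) k (c / 2 ^ k) := if_pos huO
          rw [h2] at h1
          exact h1.le
        · have h1 : 1 / R0 * C5 c u < 1 := by linarith
          rw [div_mul_eq_mul_div, one_mul, div_lt_one hR0p] at h1
          have h2 : C5 c u = ∑ k ∈ range (K + 1), mvv 2 (tauE C e0) (D 0) (lamE C e0) (mE C e0) ε K
            (M.pS (M.th c * u)) (G (M.th c * u)) k (c / 2 ^ k) := if_pos hvO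
          rw [h2] at h1
          exact h1.le
      rw [if_neg hno]
      linarith
  refine le_trans (ex_mono K _ _ hpt) ?_
  rw [ex_add K (fun c u => ∑ i ∈ S, (B1 i c u + B2 i c u + B3 i c u))
    (fun c u => 1 / R0 * C4 c u + 1 / R0 * C5 c u),
    ex_add K (fun c u => 1 / R0 * C4 c u) (fun c u => 1 / R0 * C5 c u),
    ex_smul K (1 / R0) C4, ex_smul K (1 / R0) C5,
    ex_sum S K (fun i c u => B1 i c u + B2 i c u + B3 i c u)]
  -- moves
  have m4 : ex K C4 ≤ B * (Om.card / Fintype.card A) := by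
    apply ex_count
    · intro u hu
      have e1 : ∀ c, C4 c u = ∑ k ∈ range (K + 1), mvv 1 (tauE C e0) (D 0) (lamE C e0) (mE C e0)
        ε K (M.pT u) (F u) k (c / 2 ^ k) := fun c => if_pos hu
      rw [sum_congr rfl fun c _ => e1 c, hBdef]
      exact mvv_count 1 (tauE C e0) le_rfl (D 0) (lamE C e0) (keyC_lam_pos C _) (mE C e0) ε hεp K
        (M.pT u) (F u) (hF u)
    · intro c u hu
      exact if_neg hu
  have m5 : ex K C5 ≤ B * (Om.card / Fintype.card A) := by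
    have h1 : ex K C5 = ex K C5' := ex_shift K C5' (fun c => M.th c)
    rw [h1]
    apply ex_count
    · intro u hu
      have e1 : ∀ c, C5' c u = ∑ k ∈ range (K + 1), mvv 2 (tauE C e0) (D 0) (lamE C e0) (mE C e0)
        ε K (M.pS u) (G u) k (c / 2 ^ k) := fun c => if_pos hu
      rw [sum_congr rfl fun c _ => e1 c, hBdef]
      exact mvv_count 2 (tauE C e0) (by norm_num) (D 0) (lamE C e0) (keyC_lam_pos C _) (mE C e0) ε
        hεp K (M.pS u) (G u) (hG u)
    · intro c u hu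
      exact if_neg hu
  have m45 : 1 / R0 * ex K C4 + 1 / R0 * ex K C5 ≤ η / 2 * (Om.card / Fintype.card A) := by
    have h1 : 1 / (R0 : ℝ) * B ≤ η / 4 := by
      rw [div_lt_iff₀ hη] at hR0
      rw [div_mul_eq_mul_div, one_mul, div_le_iff₀ hR0p]
      linarith
    have h2 : (0 : ℝ) ≤ 1 / R0 := by positivity
    have h3 := mul_le_mul_of_nonneg_left m4 h2
    have h4 := mul_le_mul_of_nonneg_left m5 h2
    have h5 := mul_le_mul_of_nonneg_right h1 hom
    linarith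
  -- one system
  have hone : ∀ i ∈ S, ex K (fun c u => B1 i c u + B2 i c u + B3 i c u)
      ≤ 10 ^ 7 * ((1 / 2) ^ e0 * (1 / 2) ^ i) * (Om.card / Fintype.card A) := by
    intro i hi
    rw [mem_filter, mem_range] at hi
    rw [ex_add K (fun c u => B1 i c u + B2 i c u) (fun c u => B3 i c u),
      ex_add K (fun c u => B1 i c u) (fun c u => B2 i c u)]
    have hdi : 0 < δ / 2 ^ (i + 5) := by positivity
    have hdi1 : δ / 2 ^ (i + 5) ≤ 1 := by
      rw [div_le_one (by positivity)]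
      exact le_trans hδ1 (one_le_pow₀ (by norm_num))
    have e1 : 2 ^ (i + 1) * e0 = 2 * (2 ^ i * e0) := by ring
    have ha : 1 ≤ 80 * (2 ^ i * e0) := by have := hei i; omega
    have k1 : ex K (B1 i) ≤ 10 ^ 4 * (1 / 2) ^ (2 ^ i * e0) * (Om.card / Fintype.card A) :=
      key_main M nu C CF' hGe K (2 ^ i * e0) (hei i) (kr (80 * (2 ^ i * e0))) (hkr _ ha) hCF
        (hflux _ ha) (hfluxS _ ha) (hCe i) (hWe i) (hNe i) (δ / 2 ^ (i + 5)) hdi hdi1 (hpa i) hi.2
        F G Om hF hG hF0 hG0 (D i) (D (i + 1)) (hD i) (by rw [← e1]; exact hD (i + 1))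
    have k2 : ex K (B2 i) ≤ 10 ^ 6 * (1 / 2) ^ (2 ^ i * e0) * (Om.card / Fintype.card A) :=
      bad_sys hGe K (2 ^ i * e0) (hei i) (hkr _ ha) hCF (hCe i) F G Om hF hG hF0 hG0 (D i) (hD i)
        δ hδ (hpc i).1
    have k3 : ex K (B3 i) ≤ 6 * (1 / 2) ^ (80 * (2 ^ i * e0)) * (Om.card / Fintype.card A) := by
      have h1 : ex K (B3 i) = ex K (B3' i) := ex_shift K (B3' i) (fun c => M.th c)
      rw [h1]
      exact keyC_dead hGe K (2 ^ i * e0) (hei i) (hWe i) F G Om (D i) (hD i) M.pS (pS_bij M)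
    have k4 : ((1 : ℝ) / 2) ^ (80 * (2 ^ i * e0)) ≤ (1 / 2) ^ (2 ^ i * e0) :=
      pow_le_pow_of_le_one (by norm_num) (by norm_num) (by omega)
    have k5 : ((1 : ℝ) / 2) ^ (2 ^ i * e0) ≤ (1 / 2) ^ e0 * (1 / 2) ^ i := by
      rw [← pow_add]
      apply pow_le_pow_of_le_one (by norm_num) (by norm_num)
      have h1 : i + 1 ≤ 2 ^ i := Nat.lt_two_pow_self
      nlinarith
    have k6 : (0 : ℝ) < (1 / 2) ^ (2 ^ i * e0) := by positivity
    calc ex K (fun c u => B1 i c u) + ex K (fun c u => B2 i c u) + ex K (fun c u => B3 i c u)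
        ≤ 10 ^ 4 * (1 / 2) ^ (2 ^ i * e0) * (Om.card / Fintype.card A)
          + 10 ^ 6 * (1 / 2) ^ (2 ^ i * e0) * (Om.card / Fintype.card A)
          + 6 * (1 / 2) ^ (2 ^ i * e0) * (Om.card / Fintype.card A) := by
          have := mul_le_mul_of_nonneg_right
            (mul_le_mul_of_nonneg_left k4 (by norm_num : (0 : ℝ) ≤ 6)) hom
          exact add_le_add (add_le_add k1 k2) (le_trans k3 this)
      _ ≤ 10 ^ 7 * (1 / 2) ^ (2 ^ i * e0) * (Om.card / Fintype.card A) := by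
          have : 0 ≤ (1 / 2 : ℝ) ^ (2 ^ i * e0) * (Om.card / Fintype.card A) := by positivity
          nlinarith
      _ ≤ _ := by
          apply mul_le_mul_of_nonneg_right _ hom
          exact mul_le_mul_of_nonneg_left k5 (by norm_num)
  have hsum : ∑ i ∈ S, ex K (fun c u => B1 i c u + B2 i c u + B3 i c u) ≤
      η / 2 * (Om.card / Fintype.card A) := by
    calc _ ≤ ∑ i ∈ S, 10 ^ 7 * ((1 / 2 : ℝ) ^ e0 * (1 / 2) ^ i) * (Om.card / Fintype.card A) :=
          sum_le_sum hone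
      _ ≤ ∑ i ∈ range (K + 1), 10 ^ 7 * ((1 / 2 : ℝ) ^ e0 * (1 / 2) ^ i) *
            (Om.card / Fintype.card A) := by
          apply sum_le_sum_of_subset_of_nonneg (filter_subset _ _)
          intro i _ _
          positivity
      _ = 10 ^ 7 * ((1 / 2 : ℝ) ^ e0 * ∑ i ∈ range (K + 1), (1 / 2) ^ i) *
            (Om.card / Fintype.card A) := by
          rw [← sum_mul, ← mul_sum, ← mul_sum]
      _ ≤ 10 ^ 7 * ((1 / 2 : ℝ) ^ e0 * 2) * (Om.card / Fintype.card A) := by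
          apply mul_le_mul_of_nonneg_right _ hom
          apply mul_le_mul_of_nonneg_left _ (by norm_num)
          exact mul_le_mul_of_nonneg_left (sum_geometric_two_le _) (by positivity)
      _ ≤ (10 ^ 8 * (1 / 2) ^ e0) * (Om.card / Fintype.card A) := by
          apply mul_le_mul_of_nonneg_right _ hom
          have : (0 : ℝ) < (1 / 2) ^ e0 := by positivity
          nlinarith
      _ ≤ η / 2 * (Om.card / Fintype.card A) := mul_le_mul_of_nonneg_right hη0 hom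
  linarith

theorem thm_A (C : ℕ) : ThmA C := by
  classical
  intro δ hδ η hη
  obtain ⟨R, -, hR⟩ := thm_A_aux C (min δ 1) η (lt_min hδ one_pos) (min_le_right _ _) hη
  refine ⟨R, ?_⟩
  intro A _ _ M nu kr hGe hkr hkrs K F G Om hF hG hF0 hG0
  have h := hR A M nu kr hGe hkr hkrs K F G Om hF hG hF0 hG0
  have hA : (0 : ℝ) < Fintype.card A := card_pos'
  have hpos : (0 : ℝ) < 2 ^ K * (Fintype.card A : ℝ) := by positivity
  unfold ex at h
  rw [div_le_iff₀ hpos] at h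
  have e1 : η * ((Om.card : ℝ) / Fintype.card A) * (2 ^ K * (Fintype.card A : ℝ)) =
      η * 2 ^ K * Om.card := by
    field_simp
  rw [e1] at h
  refine le_trans ?_ h
  apply sum_le_sum
  intro c _
  apply sum_le_sum
  intro u _
  have h1 : NJ δ (fun k => XX M F G k c u) R K → NJ (min δ 1) (fun k => Xk M F G k c u) R K := by
    intro h
    have h2 : (fun k => Xk M F G k c u) = (fun k => XX M F G k c u) := by
      funext k
      exact Xk_eq M F G k c u
    rw [h2]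
    exact NJ_mono _ _ (min_le_left _ _) _ _ _ h
  beta_reduce
  by_cases h : NJ δ (fun k => XX M F G k c u) R K
  · rw [if_pos h, if_pos (h1 h)]
  · rw [if_neg h]
    split_ifs <;> norm_num

end

end NPG
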