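import Pool.Agent.NPG.UInp
import Pool.Agent.NPG.GGeo
import Pool.Agent.NPG.EMain
import Pool.Agent.NPG.Mir
import Pool.Agent.NPG.Mdl

set_option autoImplicit false

/-!
# NPG / UAll : all finite quotients satisfy the hypotheses of Theorem A

PROOF.  `nu = nul (fun i => φ (sf.fr.c i)) sf.fr.w sf.fr.D`; `geo_of`, `exists_inp`, `e_main` (for `M` and `M.sw`), `Geo.mono`,
`Krn.mono` (all constants replaced by their maximum); `kr a = krI Q (kka ..) (cdd Q)` for `a ≥ 1` (`b`, `Q`, `n1` of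
`exists_inp` for `a`).
-/

namespace NPG
open Finset Pool.Nil

/-- the kernel properties with a larger constant -/
private theorem UAll_mono {A : Type} [Group A] [Fintype A] {M : Mod A} {nu : ℕ → A → ℝ} {C C' a : ℕ}
    {kr : ℕ → A → ℝ} (h : Krn M nu C a kr) (hC : C ≤ C') : Krn M nu C' a kr := by
  have hc : (C : ℝ) ≤ C' := by exact_mod_cast hC
  have ha : C * a ≤ C' * a := Nat.mul_le_mul_right a hC
  refine ⟨h.symm, fun k hk => h.supp k (ha.trans hk), ?_, ?_, ?_⟩
  · intro k hk x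
    refine (h.bound k (ha.trans hk) x).trans ?_
    have hv : 0 ≤ vol nu k := by
      unfold vol
      exact Nat.cast_nonneg _
    exact div_le_div_of_nonneg_right (pow_le_pow_right₀ (by norm_num) ha) hv
  · intro E _ _ K k hk hkK f g
    refine (h.sing E K k (ha.trans hk) hkK f g).trans ?_
    refine mul_le_mul_of_nonneg_right ?_ (mul_nonneg (Real.sqrt_nonneg _) (Real.sqrt_nonneg _))
    exact div_le_div_of_nonneg_right hc (Real.sqrt_nonneg _)
  · intro E _ _ K k1 hk hkK p q BS BV h1 h2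
    refine (h.ti E K k1 (ha.trans hk) hkK p q BS BV h1 h2).trans ?_
    refine mul_le_mul_of_nonneg_right ?_ (mul_nonneg (Real.sqrt_nonneg _) (Real.sqrt_nonneg _))
    exact div_le_div_of_nonneg_right hc (Real.sqrt_nonneg _)

theorem inp_all : InpAll := by
  intro G _ σ g sf
  obtain ⟨C0, _, hgeo⟩ := geo_of sf
  obtain ⟨C1, _, hinp⟩ := exists_inp sf
  obtain ⟨C2, hC12, hem⟩ := e_main C1
  refine ⟨C0 + C2, ?_⟩
  intro A _ _ φ s hs hφ
  have key : ∀ a : ℕ, ∃ kr : ℕ → A → ℝ, 1 ≤ a →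
      Krn (mkMod sf φ s hs) (nul (fun i => φ (sf.fr.c i)) sf.fr.w sf.fr.D) (C0 + C2) a kr ∧
      Krn (mkMod sf φ s hs).sw (nul (fun i => φ (sf.fr.c i)) sf.fr.w sf.fr.D) (C0 + C2) a kr := by
    intro a
    by_cases ha : 1 ≤ a
    · obtain ⟨b, Q, n1, h⟩ := hinp a ha
      obtain ⟨h1, h2, h3, h4, h5⟩ := h A φ hφ s hs
      obtain ⟨s1, t1⟩ := hem (mkMod sf φ s hs) a Q n1 _ _ h1
      obtain ⟨s2, t2⟩ := hem (mkMod sf φ s hs).sw a Q n1 _ _ h2
      have hb : ∀ k x, |krI Q (fun d k x => kka sf.fr φ k b d x) (cdd Q) k x| ≤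
          2 ^ (C2 * a) / vol (nul (fun i => φ (sf.fr.c i)) sf.fr.w sf.fr.D) k := by
        intro k x
        refine (h5 k x).trans ?_
        have hv : 0 ≤ vol (nul (fun i => φ (sf.fr.c i)) sf.fr.w sf.fr.D) k := by
          unfold vol
          exact Nat.cast_nonneg _
        exact div_le_div_of_nonneg_right
          (pow_le_pow_right₀ (by norm_num) (Nat.mul_le_mul_right a hC12)) hv
      refine ⟨krI Q (fun d k x => kka sf.fr φ k b d x) (cdd Q), fun _ => ⟨?_, ?_⟩⟩
      · exact UAll_mono (C := C2) ⟨h3, fun k _ x => h4 k x, fun k _ x => hb k x, s1, t1⟩ (by omega)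
      · exact UAll_mono (C := C2) ⟨h3, fun k _ x => h4 k x, fun k _ x => hb k x, s2, t2⟩ (by omega)
    · exact ⟨fun _ _ => 0, fun h => absurd h ha⟩
  choose kr hkr using key
  exact ⟨nul (fun i => φ (sf.fr.c i)) sf.fr.w sf.fr.D, kr, (hgeo A φ hφ s hs).mono (by omega),
    fun a ha => (hkr a ha).1, fun a ha => (hkr a ha).2⟩

end NPG
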