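import Pool.Agent.NPG.UUni
import Pool.Agent.NPG.OGai
import Pool.Agent.NPG.GKd
import Pool.Agent.NPG.EDefs

set_option autoImplicit false

/-!
# NPG / UInp : the input of the energy part for all finite quotients

PROOF of `exists_inp`.  Take `H, U, W` from `exists_uni σ` and the constants of `ao`, `gain_op`, `single_op`, `kka_supp`.
For `a ≥ 1`: `n0 = C1 a`, `n1 = 2 n0` (`cdd_sum`: `∑ |cdd (2^n0) d| ≤ 2^(2 n0)`), `e = 3 (n1 + a)`, `b = C2 a` large enough for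
`gain_op` (`C e ≤ b`), `single_op` (`C n0 ≤ b`), `b ≥ b0` of `ao` and `kka_supp`, `2^n0 ≤ 2^b`; `C a ≤ k` implies `C' b ≤ k`.
`Q = 2^n0`, `κ d k = kka φ k b d`.
Intertwining (for a model `M = mkMod ..`, `ι` from `exists_uni`): for `α ∈ Frm M n` there is `αG ∈ FrG σ g n` with
`φ (αG x) = α (φ x)`: for `α = s^m` take `σ^(-m)`; for `α = (aT 1)^m` take `conj (g (-m)) * σ^(-m)` (`aT 1 = s * conj (th 1)`,
`th 1 = φ (g 1)⁻¹`; check `(aT 1)(φ x) = φ (g(-1) σ⁻¹(x) g(-1)⁻¹)` with `g (-1) = σ⁻¹(g 1)⁻¹`, and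
`g (l + m) = g l σ^l(g m)` for the powers).  Then `ι (op (κ d k) α f) = Kop U αG k b d (ι f)`: `op (kka ..) α f v` is the
average over `p` of `f (α (φ (zz p)) * v)`, `ι` of it is the average of `Uo (αG (zz p))⁻¹ (ι f)`, and
`zz (t, t')⁻¹ = zz (t', t)`.  `ι (tie M k f) = Al U g (2^k) 1 (ι f)` (`(φ (g m))⁻¹ = th m`).
For `M.sw`: `tie M.sw k f` corresponds to the adjoint of `Al` (`ResidAux.adjoint_Al`), `M.sw.s^j = (aT 1)^j` to
`conj (g (-j)) * σ^(-j)`, and `Frm M.sw n = Frm M n` (`M.sw.aT 1 = M.s`).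
A bound `‖T‖ ≤ c` and `ι (T_A f) = T (ι f)` give `∑ (T_A f)^2 ≤ c^2 ∑ f^2`.
`ao1` is `Kop α k' (1 - Kop β k)`, `ao2` is `(1 - Kop β k) Kop α k'`.  The other fields of `Fam`: `kka_basic`, `kka_zero`, `kka_psd`.
`kr` bounds: `|krI x| ≤ ∑ |cdd| kka x ≤ 2^(2 n0) C (2^b Q)^C / vol ≤ 2^(C' a) / vol` (`kka_bound`); support: `kka_supp`;
symmetry: `kka_basic`.
-/

namespace NPG
open Finset Pool.Nil

namespace UInpAux

section fr
variable {G : Type} [Group G] {σ : MulAut G} {g : ℤ → G}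

/-- powers of the `T`-frame -/
lemma conj_pow (sf : SFr σ g) (n : ℤ) :
    (MulAut.conj (g 1) * σ) ^ n = MulAut.conj (g n) * σ ^ n := by
  have hadd : ∀ l m : ℤ, MulAut.conj (g (l + m)) * σ ^ (l + m) =
      (MulAut.conj (g l) * σ ^ l) * (MulAut.conj (g m) * σ ^ m) := by
    intro l m
    ext x
    simp only [MulAut.mul_apply, MulAut.conj_apply, sf.add, map_mul, map_inv, zpow_add,
      mul_inv_rev, mul_assoc]
  let F : Multiplicative ℤ →* MulAut G :=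
    { toFun := fun n => MulAut.conj (g n.toAdd) * σ ^ n.toAdd
      map_one' := by
        rw [toAdd_one, sf.g_zero, map_one, zpow_zero, mul_one]
      map_mul' := fun l m => hadd _ _ }
  have h := map_zpow F (Multiplicative.ofAdd 1) n
  rw [← ofAdd_zsmul, smul_eq_mul, mul_one] at h
  have h1 : F (Multiplicative.ofAdd 1) = MulAut.conj (g 1) * σ := by
    show MulAut.conj (g 1) * σ ^ (1 : ℤ) = _
    rw [zpow_one]
  rw [← h1, ← h]
  rfl

lemma zpow_tw {A : Type} [Group A] (φ : G →* A) {α : MulAut A} {β : MulAut G}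
    (h : ∀ x, φ (β x) = α (φ x)) (n : ℤ) (x : G) : φ ((β ^ n) x) = (α ^ n) (φ x) := by
  have hinv : ∀ x, φ (β⁻¹ x) = α⁻¹ (φ x) := by
    intro x
    apply α.injective
    rw [← h, MulAut.apply_inv_self, MulAut.apply_inv_self]
  induction n using Int.induction_on generalizing x with
  | zero => simp
  | succ n ih => rw [zpow_add_one, zpow_add_one, MulAut.mul_apply, MulAut.mul_apply, ih, h]
  | pred n ih => rw [zpow_sub_one, zpow_sub_one, MulAut.mul_apply, MulAut.mul_apply, ih, hinv]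

/-- the frames of the model come from frames of the group -/
lemma frm_lift (sf : SFr σ g) {A : Type} [Group A] [Fintype A] (φ : G →* A) (s : MulAut A)
    (hs : ∀ x, s (φ (σ x)) = φ x) {n : ℕ} {α : MulAut A} (hα : α ∈ Frm (mkMod sf φ s hs) n) :
    ∃ β ∈ FrG σ g n, ∀ x, φ (β x) = α (φ x) := by
  obtain ⟨m, hm, rfl | rfl⟩ := hα
  · refine ⟨σ ^ (-m), ⟨-m, by rwa [abs_neg], Or.inl rfl⟩, fun x => ?_⟩
    have h : ∀ x, φ (σ⁻¹ x) = s (φ x) := by
      intro x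
      rw [← hs (σ⁻¹ x), MulAut.apply_inv_self]
    have h2 := zpow_tw φ h m x
    rw [inv_zpow'] at h2
    exact h2
  · refine ⟨MulAut.conj (g (-m)) * σ ^ (-m), ⟨-m, by rwa [abs_neg], Or.inr rfl⟩, fun x => ?_⟩
    have h : ∀ x, φ ((MulAut.conj (g 1) * σ)⁻¹ x) = (mkMod sf φ s hs).aT 1 (φ x) := by
      intro x
      obtain ⟨y, hy⟩ : ∃ y, y = (MulAut.conj (g 1) * σ)⁻¹ x := ⟨_, rfl⟩
      have hx : x = g 1 * σ y * (g 1)⁻¹ := by
        have e : (MulAut.conj (g 1) * σ) y = x := by rw [hy, MulAut.apply_inv_self]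
        rw [← e, MulAut.mul_apply, MulAut.conj_apply]
      rw [← hy, hx]
      show _ = (s ^ 1) ((φ (g ((1 : ℕ) : ℤ)))⁻¹ * φ (g 1 * σ y * (g 1)⁻¹) *
        ((φ (g ((1 : ℕ) : ℤ)))⁻¹)⁻¹)
      have e : (φ (g 1))⁻¹ * φ (g 1 * σ y * (g 1)⁻¹) * ((φ (g 1))⁻¹)⁻¹ = φ (σ y) := by
        rw [map_mul, map_mul, map_inv]
        group
      rw [pow_one, Nat.cast_one, e, hs]
    have h2 := zpow_tw φ h m x
    rw [inv_zpow', conj_pow sf] at h2
    exact h2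

lemma sw_aT_one {A : Type} [Group A] (M : Mod A) : M.sw.aT 1 = M.s := by
  show M.aT 1 ^ 1 * MulAut.conj (M.th 1)⁻¹ = M.s
  unfold Mod.aT
  rw [pow_one, pow_one, map_inv, mul_inv_cancel_right]

lemma frm_sw {A : Type} [Group A] [Fintype A] (M : Mod A) (n : ℕ) : Frm M.sw n = Frm M n := by
  ext α
  show (∃ m : ℤ, |m| ≤ 2 ^ n ∧ (α = (M.aT 1) ^ m ∨ α = (M.sw.aT 1) ^ m)) ↔
    ∃ m : ℤ, |m| ≤ 2 ^ n ∧ (α = M.s ^ m ∨ α = (M.aT 1) ^ m)
  rw [sw_aT_one]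
  refine exists_congr fun m => and_congr_right fun _ => or_comm

end fr

section tw
variable {G : Type} [Group G] {g : ℤ → G}
variable {H : Type} [NormedAddCommGroup H] [InnerProductSpace ℂ H] [CompleteSpace H]
variable (U : G →* (H ≃ₗᵢ[ℂ] H)) {A : Type} [Group A] [Fintype A] {φ : G →* A}
  {ι : (A → ℝ) →+ H}

omit [Fintype A] in
lemma iota_avg (h1 : ∀ (c : ℝ) f, ι (c • f) = (c : ℂ) • ι f)
    (h3 : ∀ x f, U x (ι f) = ι (fun v => f ((φ x)⁻¹ * v))) {X : Type} (S : Finset X) (y : X → G)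
    (f : A → ℝ) : ι (fun v => (S.card : ℝ)⁻¹ * ∑ p ∈ S, f ((φ (y p))⁻¹ * v)) =
      avg S (fun p => Uo U (y p)) (ι f) := by
  have e : (fun v => (S.card : ℝ)⁻¹ * ∑ p ∈ S, f ((φ (y p))⁻¹ * v)) =
      (S.card : ℝ)⁻¹ • ∑ p ∈ S, fun v => f ((φ (y p))⁻¹ * v) := by
    funext v
    rw [Pi.smul_apply, Finset.sum_apply, smul_eq_mul]
  rw [e, h1, map_sum]
  unfold avg
  rw [smul_apply, _root_.sum_apply, Complex.coe_smul]
  congr 1
  refine Finset.sum_congr rfl fun p _ => ?_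
  rw [Uo_apply, h3]

lemma iota_op (fr : Frame g) (h1 : ∀ (c : ℝ) f, ι (c • f) = (c : ℂ) • ι f)
    (h3 : ∀ x f, U x (ι f) = ι (fun v => f ((φ x)⁻¹ * v))) (k b d : ℕ) {α : MulAut A}
    {β : MulAut G} (hβ : ∀ x, φ (β x) = α (φ x)) (f : A → ℝ) :
    ι (op (fun x => kka fr φ k b d x) α f) = Kop fr U β k b d (ι f) := by
  have e1 : Kop fr U β k b d = avg (bx (Mb fr k b d) ×ˢ bx (Mb fr k b d))
      (fun p => Uo U (β (zz fr d p))⁻¹) := by
    rw [← adjoint_Kop fr U β k b d]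
    unfold Kop
    rw [ResidAux.adjoint_avg]
    exact avg_congr fun p _ => adjoint_Uo U _
  rw [e1, ← iota_avg U h1 h3]
  congr 1
  funext v
  unfold op
  simp only [smul_eq_mul]
  rw [KdAux.sum_kka fr φ k b d (fun x => f (α x * v)), card_product, Nat.cast_mul, ← sq,
    div_eq_inv_mul]
  congr 1
  refine Finset.sum_congr rfl fun p _ => ?_
  rw [map_inv, inv_inv, hβ]

omit [CompleteSpace H] [Group A] in
/-- a bound for an operator of the model -/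
lemma sq_le (h2 : ∀ f, ‖ι f‖ ^ 2 = ∑ v, f v ^ 2) {T : H →L[ℂ] H} {c : ℝ} (hT : ‖T‖ ≤ c)
    {F f : A → ℝ} (h : ι F = T (ι f)) : ∑ v, F v ^ 2 ≤ c ^ 2 * ∑ v, f v ^ 2 := by
  rw [← h2, ← h2, h, ← mul_pow]
  exact pow_le_pow_left₀ (norm_nonneg _) ((T.le_opNorm _).trans
    (mul_le_mul_of_nonneg_right hT (norm_nonneg _))) 2

end tw

section inp
variable {G : Type} [Group G] {σ : MulAut G} {g : ℤ → G}
variable {H : Type} [NormedAddCommGroup H] [InnerProductSpace ℂ H] [CompleteSpace H]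
variable (U : G →* (H ≃ₗᵢ[ℂ] H)) {A : Type} [Group A] [Fintype A] {φ : G →* A}
  {ι : (A → ℝ) →+ H}

lemma inp_of (sf : SFr σ g) (h1 : ∀ (c : ℝ) f, ι (c • f) = (c : ℂ) • ι f)
    (h2 : ∀ f, ‖ι f‖ ^ 2 = ∑ v, f v ^ 2)
    (h3 : ∀ x f, U x (ι f) = ι (fun v => f ((φ x)⁻¹ * v)))
    (M : Mod A) (hfr : ∀ n α, α ∈ Frm M n → ∃ β ∈ FrG σ g n, ∀ x, φ (β x) = α (φ x))
    (T : ℕ → (H →L[ℂ] H)) (hT : ∀ k f, ι (tie M k f) = T k (ι f)) {C a b n0 : ℕ} (hC : 1 ≤ C)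
    (hb : 1 ≤ b)
    (hao : ∀ (d k k' : ℕ) (α β : MulAut G), 1 ≤ d → k ≤ k' → α ∈ FrG σ g k' →
      β ∈ FrG σ g k' →
      ‖Kop sf.fr U α k' b d * (1 - Kop sf.fr U β k b d)‖ ≤ C * ((2 : ℝ) ^ k / 2 ^ k') ∧
      ‖(1 - Kop sf.fr U β k b d) * Kop sf.fr U α k' b d‖ ≤ C * ((2 : ℝ) ^ k / 2 ^ k'))
    (hga : ∀ (k d : ℕ) (β : MulAut G), C * a ≤ k → 1 ≤ d → d ≤ 2 ^ n0 → β ∈ FrG σ g (k + 1) →
      ‖T k * (Kop sf.fr U 1 k b d - Kop sf.fr U β (k + 1) b d)‖ ≤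
        ((2 : ℝ) ^ (3 * (2 * n0 + a)))⁻¹)
    (hsi : ∀ k : ℕ, C * a ≤ k →
      ‖T k * (1 - ∑ d ∈ Icc 1 (2 ^ n0), cdd (2 ^ n0) d • Kop sf.fr U 1 k b d)‖ ≤
        C / Real.sqrt (2 ^ a)) :
    Inp M C a (2 ^ n0) (2 * n0) (fun d k x => kka sf.fr φ k b d x) (cdd (2 ^ n0)) := by
  have hone : ∀ x, φ ((1 : MulAut G) x) = (1 : MulAut A) (φ x) := fun x => rfl
  refine ⟨hC, ?_, ?_, ?_, ?_⟩
  · intro d hd _
    refine ⟨?_, ?_, ?_, ?_, ?_, ?_, ?_⟩
    · intro k x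
      exact (kka_basic sf.fr φ k b d).1 x
    · intro k
      exact (kka_basic sf.fr φ k b d).2.1
    · intro k x
      exact (kka_basic sf.fr φ k b d).2.2 x
    · intro x
      exact kka_zero sf.fr φ b d hb hd x
    · intro k f
      exact kka_psd sf.fr φ k b d f
    · intro k k' hk α hα β hβ f
      obtain ⟨α', hα', hα''⟩ := hfr _ _ hα
      obtain ⟨β', hβ', hβ''⟩ := hfr _ _ hβ
      refine sq_le h2 (hao d k k' α' β' hd hk hα' hβ').1 ?_
      have e1 := iota_op U sf.fr h1 h3 k' b d hα''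
        (fun u => f u - op (fun x => kka sf.fr φ k b d x) β f u)
      have e2 := iota_op U sf.fr h1 h3 k b d hβ'' f
      refine e1.trans ?_
      have e3 : ι (fun u => f u - op (fun x => kka sf.fr φ k b d x) β f u) =
          ι f - Kop sf.fr U β' k b d (ι f) := by
        rw [← e2, ← map_sub]
        rfl
      rw [e3]
      rfl
    · intro k k' hk α hα β hβ f
      obtain ⟨α', hα', hα''⟩ := hfr _ _ hα
      obtain ⟨β', hβ', hβ''⟩ := hfr _ _ hβ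
      refine sq_le h2 (hao d k k' α' β' hd hk hα' hβ').2 ?_
      have e1 := iota_op U sf.fr h1 h3 k' b d hα'' f
      have e2 := iota_op U sf.fr h1 h3 k b d hβ'' (op (fun x => kka sf.fr φ k' b d x) α f)
      have e3 : ι (fun v => op (fun x => kka sf.fr φ k' b d x) α f v -
          op (fun x => kka sf.fr φ k b d x) β (op (fun x => kka sf.fr φ k' b d x) α f) v) =
          ι (op (fun x => kka sf.fr φ k' b d x) α f) -
          ι (op (fun x => kka sf.fr φ k b d x) β (op (fun x => kka sf.fr φ k' b d x) α f)) := by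
        rw [← map_sub]
        rfl
      refine e3.trans ?_
      rw [e2, e1]
      rfl
  · refine (cdd_sum (2 ^ n0)).trans (le_of_eq ?_)
    rw [Nat.cast_pow, Nat.cast_ofNat, ← pow_mul, mul_comm]
  · intro d hd hdQ k hk j hj f
    have hj' : |(j : ℤ)| ≤ 2 ^ (k + 1) := by
      rw [Nat.abs_cast]
      have h : j ≤ 2 ^ (k + 1) := by
        rcases hj with rfl | rfl
        · exact Nat.zero_le _
        · exact Nat.pow_le_pow_right (by norm_num) (Nat.le_succ k)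
      exact_mod_cast h
    have hm : M.s ^ j ∈ Frm M (k + 1) := ⟨(j : ℤ), hj', Or.inl (zpow_natCast _ _).symm⟩
    obtain ⟨β, hβ, hβ'⟩ := hfr _ _ hm
    refine sq_le h2 (hga k d β hk hd hdQ hβ) ?_
    refine (hT k _).trans ?_
    have e1 := iota_op U sf.fr h1 h3 k b d hone f
    have e2 := iota_op U sf.fr h1 h3 (k + 1) b d hβ' f
    have e3 : ι (fun v => op (fun x => kka sf.fr φ k b d x) 1 f v -
        op (fun x => kka sf.fr φ (k + 1) b d x) (M.s ^ j) f v) =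
        ι (op (fun x => kka sf.fr φ k b d x) 1 f) -
        ι (op (fun x => kka sf.fr φ (k + 1) b d x) (M.s ^ j) f) := by
      rw [← map_sub]
      rfl
    refine (congrArg (T k) e3).trans ?_
    rw [e1, e2]
    rfl
  · intro k hk f
    refine sq_le h2 (hsi k hk) ?_
    refine (hT k _).trans ?_
    have e1 : ∀ d, ι (op (fun x => kka sf.fr φ k b d x) 1 f) = Kop sf.fr U 1 k b d (ι f) :=
      fun d => iota_op U sf.fr h1 h3 k b d hone f
    have e3 : ι (fun v => f v - ∑ d ∈ Icc 1 (2 ^ n0), cdd (2 ^ n0) d *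
        op (fun x => kka sf.fr φ k b d x) 1 f v) =
        ι f - ∑ d ∈ Icc 1 (2 ^ n0), ((cdd (2 ^ n0) d : ℝ) : ℂ) • Kop sf.fr U 1 k b d (ι f) := by
      have e4 : (fun v => f v - ∑ d ∈ Icc 1 (2 ^ n0), cdd (2 ^ n0) d *
          op (fun x => kka sf.fr φ k b d x) 1 f v) =
          f - ∑ d ∈ Icc 1 (2 ^ n0), cdd (2 ^ n0) d • op (fun x => kka sf.fr φ k b d x) 1 f := by
        funext v
        rw [Pi.sub_apply, Finset.sum_apply]
        rfl
      rw [e4, map_sub, map_sum]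
      congr 1
      refine Finset.sum_congr rfl fun d _ => ?_
      rw [h1, e1]
    refine (congrArg (T k) e3).trans ?_
    rw [mul_apply_eq_comp, sub_apply, one_apply_eq_self, _root_.sum_apply]
    congr 2

end inp

section tie
variable {G : Type} [Group G] {σ : MulAut G} {g : ℤ → G}
variable {H : Type} [NormedAddCommGroup H] [InnerProductSpace ℂ H] [CompleteSpace H]
variable (U : G →* (H ≃ₗᵢ[ℂ] H)) {A : Type} [Group A] [Fintype A] {φ : G →* A}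
  {ι : (A → ℝ) →+ H}

omit [Fintype A] in
lemma iota_tie (sf : SFr σ g) (h1 : ∀ (c : ℝ) f, ι (c • f) = (c : ℂ) • ι f)
    (h3 : ∀ x f, U x (ι f) = ι (fun v => f ((φ x)⁻¹ * v))) (s : MulAut A)
    (hs : ∀ x, s (φ (σ x)) = φ x) (k : ℕ) (f : A → ℝ) :
    ι (tie (mkMod sf φ s hs) k f) = Al U g (2 ^ k) 1 (ι f) := by
  have e1 : Al U g (2 ^ k) 1 = avg (range (2 ^ k)) (fun m : ℕ => Uo U (g m)) := by
    unfold Al
    refine avg_congr fun m _ => ?_
    rw [Nat.cast_one, one_mul]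
  rw [e1, ← iota_avg U h1 h3]
  congr 1
  funext v
  rw [card_range, Nat.cast_pow, Nat.cast_ofNat]
  rfl

omit [Fintype A] in
lemma iota_tie_sw (sf : SFr σ g) (h1 : ∀ (c : ℝ) f, ι (c • f) = (c : ℂ) • ι f)
    (h3 : ∀ x f, U x (ι f) = ι (fun v => f ((φ x)⁻¹ * v))) (s : MulAut A)
    (hs : ∀ x, s (φ (σ x)) = φ x) (k : ℕ) (f : A → ℝ) :
    ι (tie (mkMod sf φ s hs).sw k f) =
      ContinuousLinearMap.adjoint (Al U g (2 ^ k) 1) (ι f) := by
  have e1 : ContinuousLinearMap.adjoint (Al U g (2 ^ k) 1) =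
      avg (range (2 ^ k)) (fun m : ℕ => Uo U (g m)⁻¹) := by
    rw [Frame.ResidAux.adjoint_Al]
    refine avg_congr fun m _ => ?_
    rw [Nat.cast_one, one_mul]
  rw [e1, ← iota_avg U h1 h3]
  congr 1
  funext v
  rw [card_range, Nat.cast_pow, Nat.cast_ofNat]
  show ((2 : ℝ) ^ k)⁻¹ • ∑ m ∈ range (2 ^ k), f (((φ (g m))⁻¹)⁻¹ * v) = _
  rw [smul_eq_mul]
  congr 1
  refine Finset.sum_congr rfl fun m _ => ?_
  rw [map_inv]

end tie

end UInpAux

open UInpAux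

theorem exists_inp {G : Type} [Group G] {σ : MulAut G} {g : ℤ → G} (sf : SFr σ g) :
    ∃ C : ℕ, 1 ≤ C ∧ ∀ a : ℕ, 1 ≤ a → ∃ (b Q n1 : ℕ),
      ∀ (A : Type) [Group A] [Fintype A] (φ : G →* A) (_ : Function.Surjective φ)
        (s : MulAut A) (hs : ∀ x, s (φ (σ x)) = φ x),
        Inp (mkMod sf φ s hs) C a Q n1 (fun d k x => kka sf.fr φ k b d x) (cdd Q) ∧
        Inp (mkMod sf φ s hs).sw C a Q n1 (fun d k x => kka sf.fr φ k b d x) (cdd Q) ∧
        (∀ k x, krI Q (fun d k x => kka sf.fr φ k b d x) (cdd Q) k x⁻¹ =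
          krI Q (fun d k x => kka sf.fr φ k b d x) (cdd Q) k x) ∧
        (∀ k x, krI Q (fun d k x => kka sf.fr φ k b d x) (cdd Q) k x ≠ 0 →
          nul (fun i => φ (sf.fr.c i)) sf.fr.w sf.fr.D k x ≤ 1) ∧
        (∀ k x, |krI Q (fun d k x => kka sf.fr φ k b d x) (cdd Q) k x| ≤
          2 ^ (C * a) / vol (nul (fun i => φ (sf.fr.c i)) sf.fr.w sf.fr.D) k) := by
  obtain ⟨H, i1, i2, i3, U, W, hW, hι⟩ := exists_uni σ
  obtain ⟨Ca, ba, hCa, hao⟩ := ao sf U W hW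
  obtain ⟨Cg, hCg, hga⟩ := gain_op sf U W hW
  obtain ⟨Cs, hCs, hsi⟩ := single_op sf U W hW
  obtain ⟨bs, hbs⟩ := kka_supp sf.fr sf.gen
  obtain ⟨Ck, hCk, hkb⟩ := kka_bound sf.fr sf.gen
  obtain ⟨B, hB⟩ : ∃ B, B = 3 * (2 * Cs + 1) * Cg + Cs * Cs + Cs + ba + bs + 1 := ⟨_, rfl⟩
  obtain ⟨C, hC⟩ : ∃ C, C = (Cg + Cs) * B + Ca + 2 * Cs + Ck + (B + Cs) * Ck := ⟨_, rfl⟩
  refine ⟨C, by omega, fun a ha => ⟨B * a, 2 ^ (Cs * a), 2 * (Cs * a), ?_⟩⟩
  -- the sizes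
  have hCs2 : Cs ≤ C := by omega
  have hCa2 : Ca ≤ C := by omega
  have b1 : Cg * (3 * (2 * (Cs * a) + a)) ≤ B * a := by
    calc Cg * (3 * (2 * (Cs * a) + a)) = 3 * (2 * Cs + 1) * Cg * a := by ring
      _ ≤ B * a := Nat.mul_le_mul_right _ (by omega)
  have b2 : Cs * (Cs * a) ≤ B * a := by
    calc Cs * (Cs * a) = Cs * Cs * a := by ring
      _ ≤ B * a := Nat.mul_le_mul_right _ (by omega)
  have b3 : Cs * a ≤ B * a := Nat.mul_le_mul_right _ (by omega)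
  have b4 : B ≤ B * a := Nat.le_mul_of_pos_right _ ha
  have b5 : ba ≤ B * a := by omega
  have b6 : bs ≤ B * a := by omega
  have b7 : 1 ≤ B * a := by omega
  have c1 : ∀ k, C * a ≤ k → Cg * (B * a) ≤ k := fun k hk => by
    calc Cg * (B * a) = Cg * B * a := by ring
      _ ≤ C * a := Nat.mul_le_mul_right _ (by rw [hC, add_mul]; omega)
      _ ≤ k := hk
  have c2 : ∀ k, C * a ≤ k → Cs * (B * a) ≤ k := fun k hk => by
    calc Cs * (B * a) = Cs * B * a := by ring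
      _ ≤ C * a := Nat.mul_le_mul_right _ (by rw [hC, add_mul]; omega)
      _ ≤ k := hk
  have h2b : 2 ^ (Cs * a) ≤ 2 ^ (B * a) := Nat.pow_le_pow_right (by norm_num) b3
  intro A _ _ φ hφ s hs
  obtain ⟨ι, h1, h2, h3⟩ := hι A φ s hφ hs
  have hao' : ∀ (d k k' : ℕ) (α β : MulAut G), 1 ≤ d → k ≤ k' → α ∈ FrG σ g k' →
      β ∈ FrG σ g k' →
      ‖Kop sf.fr U α k' (B * a) d * (1 - Kop sf.fr U β k (B * a) d)‖ ≤
        C * ((2 : ℝ) ^ k / 2 ^ k') ∧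
      ‖(1 - Kop sf.fr U β k (B * a) d) * Kop sf.fr U α k' (B * a) d‖ ≤
        C * ((2 : ℝ) ^ k / 2 ^ k') := by
    intro d k k' α β hd hk hα hβ
    have h := hao (B * a) d k k' α β b5 hd hk hα hβ
    have h0 : (Ca : ℝ) * ((2 : ℝ) ^ k / 2 ^ k') ≤ C * ((2 : ℝ) ^ k / 2 ^ k') :=
      mul_le_mul_of_nonneg_right (by exact_mod_cast hCa2) (by positivity)
    exact ⟨h.1.trans h0, h.2.trans h0⟩
  have hga' := fun (k d : ℕ) (β : MulAut G) (hk : C * a ≤ k) (hd : 1 ≤ d)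
      (hdQ : d ≤ 2 ^ (Cs * a)) (hβ : β ∈ FrG σ g (k + 1)) =>
    hga (3 * (2 * (Cs * a) + a)) (B * a) k d β (by omega) b1 (c1 k hk) hd (hdQ.trans h2b) hβ
  have hs0 : (Cs : ℝ) / Real.sqrt (2 ^ a) ≤ C / Real.sqrt (2 ^ a) :=
    div_le_div_of_nonneg_right (by exact_mod_cast hCs2) (Real.sqrt_nonneg _)
  have hsi' := fun (k : ℕ) (hk : C * a ≤ k) => hsi a (Cs * a) (B * a) k ha le_rfl b2 (c2 k hk)
  refine ⟨?_, ?_, ?_, ?_, ?_⟩
  · exact inp_of U sf h1 h2 h3 (mkMod sf φ s hs) (fun n α hα => frm_lift sf φ s hs hα)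
      (fun k => Al U g (2 ^ k) 1) (fun k f => iota_tie U sf h1 h3 s hs k f) (by omega) b7 hao'
      (fun k d β hk hd hdQ hβ => (hga' k d β hk hd hdQ hβ).1)
      (fun k hk => (hsi' k hk).1.trans hs0)
  · exact inp_of U sf h1 h2 h3 (mkMod sf φ s hs).sw
      (fun n α hα => frm_lift sf φ s hs (by rwa [frm_sw] at hα))
      (fun k => ContinuousLinearMap.adjoint (Al U g (2 ^ k) 1))
      (fun k f => iota_tie_sw U sf h1 h3 s hs k f) (by omega) b7 hao'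
      (fun k d β hk hd hdQ hβ => (hga' k d β hk hd hdQ hβ).2)
      (fun k hk => (hsi' k hk).2.trans hs0)
  · intro k x
    unfold krI
    refine Finset.sum_congr rfl fun d _ => ?_
    show _ * kka sf.fr φ k (B * a) d x⁻¹ = _ * kka sf.fr φ k (B * a) d x
    rw [(kka_basic sf.fr φ k (B * a) d).2.2 x]
  · intro k x hx
    obtain ⟨d, hd, hd'⟩ := Finset.exists_ne_zero_of_sum_ne_zero hx
    exact hbs A φ hφ k (B * a) d b6 (mem_Icc.1 hd).1 x (right_ne_zero_of_mul hd')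
  · intro k x
    obtain ⟨V, hV⟩ : ∃ V, V = vol (nul (fun i => φ (sf.fr.c i)) sf.fr.w sf.fr.D) k := ⟨_, rfl⟩
    have hV0 : 0 ≤ V := by
      rw [hV]
      unfold vol
      positivity
    rw [← hV]
    have e1 : ∀ d ∈ Icc 1 (2 ^ (Cs * a)), |cdd (2 ^ (Cs * a)) d * kka sf.fr φ k (B * a) d x| ≤
        |cdd (2 ^ (Cs * a)) d| * (2 ^ (Ck + (B * a + Cs * a) * Ck) / V) := by
      intro d hd
      rw [mem_Icc] at hd
      rw [abs_mul, abs_of_nonneg ((kka_basic sf.fr φ k (B * a) d).1 x)]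
      refine mul_le_mul_of_nonneg_left ?_ (abs_nonneg _)
      refine (hkb A φ hφ k (B * a) d hd.1 x).trans ?_
      rw [← hV]
      refine div_le_div_of_nonneg_right ?_ hV0
      have hd2 : (d : ℝ) ≤ 2 ^ (Cs * a) := by exact_mod_cast hd.2
      have hCk2 : (Ck : ℝ) ≤ 2 ^ Ck := by exact_mod_cast (Nat.lt_two_pow_self (n := Ck)).le
      calc (Ck : ℝ) * (2 ^ (B * a) * d) ^ Ck ≤ 2 ^ Ck * (2 ^ (B * a) * 2 ^ (Cs * a)) ^ Ck := by
            gcongr
        _ = 2 ^ (Ck + (B * a + Cs * a) * Ck) := by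
            rw [← pow_add, ← pow_mul, ← pow_add]
    have e2 : |krI (2 ^ (Cs * a)) (fun d k x => kka sf.fr φ k (B * a) d x)
        (cdd (2 ^ (Cs * a))) k x| ≤
        (((2 ^ (Cs * a) : ℕ) : ℝ)) ^ 2 * (2 ^ (Ck + (B * a + Cs * a) * Ck) / V) := by
      refine (Finset.abs_sum_le_sum_abs _ _).trans ((Finset.sum_le_sum e1).trans ?_)
      rw [← Finset.sum_mul]
      exact mul_le_mul_of_nonneg_right (cdd_sum _) (by positivity)
    refine e2.trans ?_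
    rw [← mul_div_assoc]
    refine div_le_div_of_nonneg_right ?_ hV0
    rw [Nat.cast_pow, Nat.cast_ofNat, ← pow_mul, ← pow_add]
    refine pow_le_pow_right₀ (by norm_num) ?_
    have h5 : Ck ≤ Ck * a := Nat.le_mul_of_pos_right _ ha
    calc Cs * a * 2 + (Ck + (B * a + Cs * a) * Ck)
        ≤ Cs * a * 2 + (Ck * a + (B * a + Cs * a) * Ck) := by omega
      _ = (2 * Cs + Ck + (B + Cs) * Ck) * a := by ring
      _ ≤ C * a := Nat.mul_le_mul_right _ (by omega)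

end NPG
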