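import Pool.Agent.NPG.GDefs
import Pool.Agent.Nil.Koop

set_option autoImplicit false

/-!
# NPG / UUni : one representation for all finite quotients

PROOF.  `J = {N : Subgroup G // N.Normal ∧ N.FiniteIndex ∧ ∀ x, σ x ∈ N ↔ x ∈ N}`, `X = Σ N : J, G ⧸ N.1` (a type in `Type`),
with `MeasurableSpace X := ⊤` and `μ = Measure.count`; every permutation of `X` is measure preserving.
`H = Lp ℂ 2 μ`, `K = koop (MonoidHom.id (Equiv.Perm X))` (`Nil/Koop.lean`, with the group `Equiv.Perm X`).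
`U x = K (left multiplication by x)` (a homomorphism `G →* Perm X`), `W = K (τ⁻¹)` with `τ (N, y N) = (N, σ(y) N)`.
`left (σ x) = τ ∘ left x ∘ τ⁻¹`, so `U (σ x) = W⁻¹ * U x * W`.
(Use `μ`-a.e. = everywhere: `Measure.count` with measurable singletons, `ae_count_iff` / `Measure.ae_count_iff`.)
For a quotient `φ : G → A` with `s (φ (σ x)) = φ x` let `N = φ.ker` (in `J`: `A` is finite; `s` is injective);
`ι f` is the class of the function which is `0` outside the component `N` and `f (φ y)` at `(N, y N)` (finitely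
supported).  `‖ι f‖^2 = ∑ f^2` (sum over `G ⧸ N ≃ A`, `QuotientGroup.quotientKerEquivOfSurjective`).
-/

namespace NPG
open Finset Pool.Nil

open MeasureTheory in
/-- the group of all permutations acts on a Hilbert space with an orthonormal system which is permuted -/
private theorem uni_perm (X : Type) :
    ∃ (H : Type) (_ : NormedAddCommGroup H) (_ : InnerProductSpace ℂ H) (_ : CompleteSpace H)
      (K : Equiv.Perm X →* (H ≃ₗᵢ[ℂ] H)) (δ : X → H), Orthonormal ℂ δ ∧
      ∀ (e : Equiv.Perm X) (x : X), K e (δ x) = δ (e x) := by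
  classical
  let _ : MeasurableSpace X := ⊤
  have _ : DiscreteMeasurableSpace X := ⟨fun _ => trivial⟩
  have hmp : ∀ e : Equiv.Perm X, MeasurePreserving e (Measure.count : Measure X) Measure.count := by
    intro e
    refine ⟨measurable_from_top, ?_⟩
    ext s hs
    rw [Measure.map_apply measurable_from_top hs, Measure.count_apply (MeasurableSet.of_discrete),
      Measure.count_apply hs, Set.encard_preimage_of_bijective e.bijective]
  have hfin : ∀ x : X, (Measure.count : Measure X) {x} ≠ ⊤ := fun x => by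
    rw [Measure.count_singleton]
    exact ENNReal.one_ne_top
  let K := koop (μ := (Measure.count : Measure X)) (MonoidHom.id (Equiv.Perm X)) hmp
  let δ : X → Lp ℂ 2 (Measure.count : Measure X) := fun x =>
    indicatorConstLp 2 (measurableSet_singleton x) (hfin x) (1 : ℂ)
  have hδ : ∀ x y : X, δ x y = if y = x then 1 else 0 := by
    intro x y
    have h := indicatorConstLp_coeFn (p := 2) (hs := measurableSet_singleton x) (hμs := hfin x) (c := (1 : ℂ))
    have h2 := (Measure.ae_count_iff.1 h) y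
    show (indicatorConstLp 2 (measurableSet_singleton x) (hfin x) (1 : ℂ)) y = _
    rw [h2, Set.indicator_apply]
    simp only [Set.mem_singleton_iff]
  refine ⟨Lp ℂ 2 (Measure.count : Measure X), inferInstance, inferInstance, inferInstance, K, δ, ?_, ?_⟩
  · rw [orthonormal_iff_ite]
    intro x y
    show inner ℂ (indicatorConstLp 2 (measurableSet_singleton x) (hfin x) (1 : ℂ)) (δ y) = _
    rw [L2.inner_indicatorConstLp_one, Measure.restrict_singleton, Measure.count_singleton, one_smul, integral_dirac, hδ]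
  · intro e x
    apply Lp.ext
    rw [Filter.EventuallyEq, Measure.ae_count_iff]
    intro y
    have h := (Measure.ae_count_iff.1 (koop_ae (μ := (Measure.count : Measure X)) (MonoidHom.id (Equiv.Perm X)) hmp e (δ x))) y
    rw [h, hδ, hδ]
    congr 1
    rw [MonoidHom.id_apply, eq_iff_iff]
    exact Equiv.Perm.inv_eq_iff_eq

private abbrev UJ {G : Type} [Group G] (σ : MulAut G) : Type :=
  {N : Subgroup G // N.Normal ∧ N.FiniteIndex ∧ ∀ x, σ x ∈ N ↔ x ∈ N}

theorem exists_uni {G : Type} [Group G] (σ : MulAut G) :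
    ∃ (H : Type) (_ : NormedAddCommGroup H) (_ : InnerProductSpace ℂ H) (_ : CompleteSpace H)
      (U : G →* (H ≃ₗᵢ[ℂ] H)) (W : H ≃ₗᵢ[ℂ] H), (∀ x, U (σ x) = W⁻¹ * U x * W) ∧
      ∀ (A : Type) [Group A] [Fintype A] (φ : G →* A) (s : MulAut A), Function.Surjective φ →
        (∀ x, s (φ (σ x)) = φ x) →
        ∃ ι : (A → ℝ) →+ H, (∀ (c : ℝ) f, ι (c • f) = (c : ℂ) • ι f) ∧
          (∀ f, ‖ι f‖ ^ 2 = ∑ v, f v ^ 2) ∧ ∀ x f, U x (ι f) = ι (fun v => f ((φ x)⁻¹ * v)) := by
  classical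
  obtain ⟨H, i1, i2, i3, K, δ, hδ, hK⟩ := uni_perm (Σ N : UJ σ, G ⧸ N.1)
  have hmap : ∀ N : UJ σ, N.1.map (σ : G →* G) = N.1 := by
    intro N
    ext x
    rw [Subgroup.mem_map]
    constructor
    · rintro ⟨y, hy, rfl⟩
      exact (N.2.2.2 y).2 hy
    · intro hx
      refine ⟨σ.symm x, ?_, MulEquiv.apply_symm_apply σ x⟩
      rw [← N.2.2.2, MulEquiv.apply_symm_apply]
      exact hx
  let τN : ∀ N : UJ σ, G ⧸ N.1 ≃ G ⧸ N.1 := fun N =>
    haveI := N.2.1
    (QuotientGroup.congr N.1 N.1 σ (hmap N)).toEquiv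
  let τ : Equiv.Perm (Σ N : UJ σ, G ⧸ N.1) := Equiv.sigmaCongrRight τN
  let L : G →* Equiv.Perm (Σ N : UJ σ, G ⧸ N.1) := MulAction.toPermHom G _
  refine ⟨H, i1, i2, i3, K.comp L, K τ⁻¹, ?_, ?_⟩
  · intro x
    show K (L (σ x)) = (K τ⁻¹)⁻¹ * K (L x) * K τ⁻¹
    rw [← map_inv, ← map_mul, ← map_mul, inv_inv]
    congr 1
    rw [eq_mul_inv_iff_mul_eq]
    refine Equiv.ext ?_
    rintro ⟨N, q⟩
    induction q using QuotientGroup.induction_on with
    | H y =>
      have := N.2.1
      show (⟨N, σ x • ((σ y : G) : G ⧸ N.1)⟩ : Σ N : UJ σ, G ⧸ N.1) = ⟨N, ((σ (x * y) : G) : G ⧸ N.1)⟩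
      rw [map_mul]
      rfl
  · intro A _ _ φ s hsurj hs
    have hN : φ.ker.Normal ∧ φ.ker.FiniteIndex ∧ ∀ x, σ x ∈ φ.ker ↔ x ∈ φ.ker := by
      refine ⟨inferInstance, inferInstance, fun x => ?_⟩
      rw [MonoidHom.mem_ker, MonoidHom.mem_ker, ← hs x, map_eq_one_iff s s.injective]
    obtain ⟨N, hNdef⟩ : ∃ N : UJ σ, N = ⟨φ.ker, hN⟩ := ⟨_, rfl⟩
    have hmem : ∀ x, x ∈ N.1 ↔ φ x = 1 := fun x => by
      rw [hNdef]
      exact MonoidHom.mem_ker
    obtain ⟨g, hg⟩ : ∃ g : A → G, ∀ a, φ (g a) = a := ⟨Function.surjInv hsurj, Function.surjInv_eq hsurj⟩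
    let E : A → Σ N : UJ σ, G ⧸ N.1 := fun a => ⟨N, ((g a : G) : G ⧸ N.1)⟩
    have hE : Function.Injective E := by
      intro a b hab
      have h1 : ((g a : G) : G ⧸ N.1) = ((g b : G) : G ⧸ N.1) := eq_of_heq (Sigma.mk.inj hab).2
      rw [QuotientGroup.eq, hmem, map_mul, map_inv, hg, hg, inv_mul_eq_one] at h1
      exact h1
    have hLE : ∀ (x : G) (a : A), L x (E a) = E (φ x * a) := by
      intro x a
      show (⟨N, ((x * g a : G) : G ⧸ N.1)⟩ : Σ N : UJ σ, G ⧸ N.1) = ⟨N, ((g (φ x * a) : G) : G ⧸ N.1)⟩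
      congr 1
      rw [QuotientGroup.eq, hmem, map_mul, map_inv, map_mul, hg, hg, inv_mul_cancel]
    have hδE : Orthonormal ℂ (δ ∘ E) := hδ.comp E hE
    let ι : (A → ℝ) →+ H :=
      { toFun := fun f => ∑ a, ((f a : ℝ) : ℂ) • δ (E a)
        map_zero' := by simp
        map_add' := fun f f' => by
          rw [← Finset.sum_add_distrib]
          refine Finset.sum_congr rfl fun a _ => ?_
          rw [Pi.add_apply, Complex.ofReal_add, add_smul] }
    have hι : ∀ f, ι f = ∑ a, ((f a : ℝ) : ℂ) • δ (E a) := fun f => rfl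
    refine ⟨ι, ?_, ?_, ?_⟩
    · intro c f
      rw [hι, hι, Finset.smul_sum]
      refine Finset.sum_congr rfl fun a _ => ?_
      rw [Pi.smul_apply, smul_eq_mul, Complex.ofReal_mul, mul_smul]
    · intro f
      have h1 := hδE.inner_sum (fun a => ((f a : ℝ) : ℂ)) (fun a => ((f a : ℝ) : ℂ)) Finset.univ
      have h2 : inner ℂ (ι f) (ι f) = ((∑ v, f v ^ 2 : ℝ) : ℂ) := by
        refine h1.trans ?_
        push_cast
        refine Finset.sum_congr rfl fun a _ => ?_
        rw [Complex.conj_ofReal, sq]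
      rw [inner_self_eq_norm_sq_to_K] at h2
      refine Complex.ofReal_injective ?_
      rw [← h2, Complex.ofReal_pow]
      rfl
    · intro x f
      show K (L x) (ι f) = _
      rw [hι, hι, map_sum]
      rw [← Equiv.sum_comp (Equiv.mulLeft (φ x)) (fun v => ((f ((φ x)⁻¹ * v) : ℝ) : ℂ) • δ (E v))]
      refine Finset.sum_congr rfl fun a _ => ?_
      rw [map_smul, hK, hLE]
      simp only [Equiv.coe_mulLeft, inv_mul_cancel_left]

end NPG
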