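import Pool.Agent.NPG.Cnt

/-!
# NPG / Win : the windows

Adaptation of `NP2/Win`.  `wT k b u = ⌊D k b u⌋₊`, `wS k b v = ⌊DS M D k b v⌋₊` for the clock `D`.
Let `l = b * 2^k`.

* `ordT`, `ordS` : from `clk_tied` (with `sh_anc`: at the ancestor level `w` the shift `x` has
  length `≤ C`), `clk_mono`.
* `nearT` : as in NP2 the accumulation is at most `rS M K mS D k b v` for every `v` with
  `kb x ≠ 0`, `v = (M.s^l)⁻¹ x * (M.th (l+c) * u)` (`nu k x ≤ 1`), and it vanishes if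
  `4 κ ≤ LL`.  For fixed `c` the map `x ↦ v` is injective; for every `c' < 2^k` the object
  `u' = (M.th (l+c'))⁻¹ * v` satisfies `M.aT l (u' * u⁻¹) = (M.th c')⁻¹ * x * M.th c`, of length at
  most `2 C + 1 ≤ 100 C^2`, so `sum_le_av` gives
  `∑_{x} rS v ≤ Wk C * vol nu k * av (u' ↦ rS (M.th (l+c') * u')) u`; average over `c'` (`av_mean`,
  `bb`): `≤ Wk C * vol nu k * LL u ≤ Wk C * vol nu k * 4 κ`; the weight of `x` is
  `|kr k x| ≤ 2^(C a) / vol nu k`.
* `nearS` : `u = (M.th (l+c))⁻¹ * (((M.s^l)⁻¹ x)⁻¹ * v)`; if the accumulation is nonzero at some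
  `u0` of the region then `LL u0 < 4 κ`; with `u1 = (M.th l)⁻¹ * v`:
  `M.aT l (u * u1⁻¹) = (M.th c)⁻¹ * x⁻¹`, of length `≤ C + 1`; Harnack: `LL u1 ≤ 8 κ`
  (`nu (k + s0) ≤ 1/2`), all the moves counted are recent, and `sum_le_av` at `u1` applies to `rT`.
* `count` : Markov and `clk_count`.
-/

namespace NPG
open Finset

noncomputable section

variable {A : Type} [Group A] [Fintype A]

/-- restriction of a process to the moves with window in `I` -/
def rs {F : Type} [Zero F] (w : ℕ → ℕ → A → ℕ) (I : Finset ℕ) (p : ℕ → ℕ → A → F) :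
    ℕ → ℕ → A → F := fun k b u => if w k b u ∈ I then p k b u else 0

/-- average over the tied objects of a block, with smoothing -/
def locT (M : Mod A) (kb : A → ℝ) (k b : ℕ) (f : A → ℝ) (u : A) : ℝ :=
  (∑ c ∈ range (2 ^ k), ∑ x : A,
    kb x * f ((M.s ^ (b * 2 ^ k))⁻¹ x * (M.th (b * 2 ^ k + c) * u))) / 2 ^ k

/-- the same, seen from an `S`-object -/
def locS (M : Mod A) (kb : A → ℝ) (k b : ℕ) (f : A → ℝ) (v : A) : ℝ :=
  (∑ c ∈ range (2 ^ k), ∑ x : A,
    kb x * f ((M.th (b * 2 ^ k + c))⁻¹ * (((M.s ^ (b * 2 ^ k))⁻¹ x)⁻¹ * v))) / 2 ^ k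

/-- constant of the near diagonal -/
def Wc (C : ℕ) : ℕ := 8 * Wk C

/-- the properties of the windows -/
structure Windows (M : Mod A) (nu : ℕ → A → ℝ) (C a K k1 : ℕ) (kr : ℕ → A → ℝ) (κ : ℝ)
    (mT mS : ℕ → ℕ → A → ℝ) (wT wS : ℕ → ℕ → A → ℕ) : Prop where
  ordT : ∀ k w, k ≤ w → w ≤ K → ∀ c < 2 ^ K, ∀ u x : A,
    nu k ((M.s ^ (c / 2 ^ k * 2 ^ k)) x) ≤ 1 →
      wS w (c / 2 ^ w) (x * (M.th c * u)) ≤ wT k (c / 2 ^ k) u + 1
  ordS : ∀ k w, k ≤ w → w ≤ K → ∀ c < 2 ^ K, ∀ u x : A,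
    nu k ((M.s ^ (c / 2 ^ k * 2 ^ k)) x) ≤ 1 →
      wT w (c / 2 ^ w) u ≤ wS k (c / 2 ^ k) (x * (M.th c * u)) + 1
  mono : ∀ k w, k ≤ w → w ≤ K → ∀ c (u : A), wT w (c / 2 ^ w) u ≤ wT k (c / 2 ^ k) u
  nearT : ∀ k, k1 ≤ k → k ≤ K → ∀ b (u : A) (m' : ℕ),
    m' ≤ wT k b u + 1 → wT k b u ≤ m' + 1 →
    locT M (fun x => |kr k x|) k b (fun v => acc K (rs wS {m'} mS) (k + 1) (b / 2) v) u ≤
      Wc C * 2 ^ (C * a) * κ
  nearS : ∀ k, k1 ≤ k → k ≤ K → ∀ b (v : A) (m : ℕ),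
    m ≤ wS k b v + 1 → wS k b v ≤ m + 1 →
    locS M (fun x => |kr k x|) k b (fun u => acc K (rs wT {m} mT) (k + 1) (b / 2) u) v ≤
      Wc C * 2 ^ (C * a) * κ
  count : ∀ N : ℕ, 1 ≤ N →
    ex K (fun c (u : A) => if N ≤ wT k1 (c / 2 ^ k1) u then (1 : ℝ) else 0) ≤
      (2 * D0 C + 5) * (totr K k1 mT + totr K k1 mS) / (κ * N)

private theorem win_floor {x y : ℝ} (h : x ≤ y + 1 / 4) : ⌊x⌋₊ ≤ ⌊y⌋₊ + 1 := by
  have h1 : y < ⌊y⌋₊ + 1 := Nat.lt_floor_add_one y
  have h2 : ⌊x⌋₊ < ⌊y⌋₊ + 2 := by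
    rw [Nat.floor_lt' (by omega)]
    push_cast
    linarith
  omega

private theorem win_idx (k w b : ℕ) (h : k + 1 ≤ w) :
    b / 2 / 2 ^ (w - (k + 1)) = b / 2 ^ (w - k) := by
  rw [Nat.div_div_eq_div_mul]
  congr 1
  rw [← pow_succ']
  congr 1
  omega

private theorem win_path (k w b c : ℕ) (hc : c < 2 ^ k) (h : k ≤ w) :
    (b * 2 ^ k + c) / 2 ^ w = b / 2 ^ (w - k) := by
  have h1 : 2 ^ w = 2 ^ k * 2 ^ (w - k) := by rw [← pow_add]; congr 1; omega
  rw [h1, ← Nat.div_div_eq_div_mul]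
  congr 1
  rw [Nat.add_comm, Nat.add_mul_div_right _ _ (by positivity), Nat.div_eq_of_lt hc, zero_add]

omit [Group A] [Fintype A] in
private theorem win_acc (K k b : ℕ) (p : ℕ → ℕ → A → ℝ) (u : A) :
    acc K p (k + 1) (b / 2) u = ∑ w ∈ Icc (k + 1) K, p w (b / 2 ^ (w - k)) u := by
  unfold acc
  refine Finset.sum_congr rfl fun w hw => ?_
  rw [win_idx k w b (Finset.mem_Icc.1 hw).1]

variable {M : Mod A} {nu : ℕ → A → ℝ} {C K : ℕ} {κ : ℝ} {mT mS D : ℕ → ℕ → A → ℝ}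

private theorem win_C (hg : Geo M nu C) : (1 : ℝ) ≤ C ∧ (C : ℝ) ≤ (C : ℝ) ^ 2 := by
  have h1 : (1 : ℝ) ≤ C := by exact_mod_cast hg.one_le
  refine ⟨h1, ?_⟩
  nlinarith

private theorem win_sh (hg : Geo M nu C) (k w c : ℕ) (hkw : k ≤ w) (x : A)
    (hx : nu k ((M.s ^ (c / 2 ^ k * 2 ^ k)) x) ≤ 1) :
    nu w ((M.s ^ (c / 2 ^ w * 2 ^ w)) x) ≤ 10 * (C : ℝ) ^ 2 := by
  have h1 := sh_anc hg k w c hkw x
  obtain ⟨h2, h3⟩ := win_C hg
  have h4 : (C : ℝ) * nu k ((M.s ^ (c / 2 ^ k * 2 ^ k)) x) ≤ C * 1 :=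
    mul_le_mul_of_nonneg_left hx (by linarith)
  linarith

private theorem win_tied (hg : Geo M nu C) (h : IsClock M nu C K κ mT mS D)
    (k w : ℕ) (hkw : k ≤ w) (hw : w ≤ K + 1) (b c : ℕ) (hc : c < 2 ^ k) (u x : A)
    (hx : nu k ((M.s ^ (b * 2 ^ k)) x) ≤ 1) :
    |DS M D w (b / 2 ^ (w - k)) (x * (M.th (b * 2 ^ k + c) * u)) - D w (b / 2 ^ (w - k)) u|
      ≤ 1 / 4 := by
  have h0 := win_path k k b c hc le_rfl
  rw [Nat.sub_self, pow_zero, Nat.div_one] at h0
  have h1 := clk_tied hg h w hw (b * 2 ^ k + c) u x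
    (win_sh hg k w (b * 2 ^ k + c) hkw x (by rwa [h0]))
  rwa [win_path k w b c hc hkw] at h1

private theorem win_mono (h : IsClock M nu C K κ mT mS D)
    (k w : ℕ) (hkw : k + 1 ≤ w) (hw : w ≤ K) (b : ℕ) (u : A) :
    D w (b / 2 ^ (w - k)) u ≤ D (k + 1) (b / 2) u := by
  have h1 := clk_mono h (k + 1) w hkw (by omega) (b * 2 ^ k) u
  have h2 := win_path k w b 0 (by positivity) (by omega)
  have h3 := win_path k (k + 1) b 0 (by positivity) (by omega)
  rw [Nat.add_zero] at h2 h3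
  rw [h2, h3] at h1
  have h4 : k + 1 - k = 1 := by omega
  rw [h4, pow_one] at h1
  exact h1

omit [Fintype A] in
private theorem win_sinv (l : ℕ) (x : A) : (M.s ^ l) ((M.s ^ l)⁻¹ x) = x := by
  rw [← MulAut.mul_apply, mul_inv_cancel, MulAut.one_apply]

omit [Fintype A] in
/-- `T`-objects tied to a shift of a tied object -/
private theorem win_aT1 (l c c' : ℕ) (x u : A) :
    M.aT l ((M.th (l + c'))⁻¹ * ((M.s ^ l)⁻¹ x * (M.th (l + c) * u)) * u⁻¹) =
      (M.th c')⁻¹ * x * M.th c := by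
  unfold Mod.aT
  rw [MulAut.mul_apply, MulAut.conj_apply, M.th_add, M.th_add]
  have h1 : M.th l * (((M.s ^ l)⁻¹ (M.th c') * M.th l)⁻¹ *
      ((M.s ^ l)⁻¹ x * ((M.s ^ l)⁻¹ (M.th c) * M.th l * u)) * u⁻¹) * (M.th l)⁻¹ =
      (M.s ^ l)⁻¹ ((M.th c')⁻¹ * x * M.th c) := by
    rw [map_mul, map_mul, map_inv]
    group
  rw [h1, win_sinv]

omit [Fintype A] in
private theorem win_aT2 (l c : ℕ) (x v : A) :
    M.aT l ((M.th (l + c))⁻¹ * (((M.s ^ l)⁻¹ x)⁻¹ * v) * ((M.th l)⁻¹ * v)⁻¹) =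
      (M.th c)⁻¹ * x⁻¹ := by
  unfold Mod.aT
  rw [MulAut.mul_apply, MulAut.conj_apply, M.th_add]
  have h1 : M.th l * (((M.s ^ l)⁻¹ (M.th c) * M.th l)⁻¹ *
      (((M.s ^ l)⁻¹ x)⁻¹ * v) * ((M.th l)⁻¹ * v)⁻¹) * (M.th l)⁻¹ =
      (M.s ^ l)⁻¹ ((M.th c)⁻¹ * x⁻¹) := by
    rw [map_mul, map_inv, map_inv]
    group
  rw [h1, win_sinv]

private theorem win_sum (hg : Geo M nu C) (k l : ℕ) (f : A → ℝ) (hf : ∀ u, 0 ≤ f u) (u : A)
    (s : Finset A) (φ : A → A) (hinj : Function.Injective φ)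
    (hφ : ∀ x ∈ s, nu k (M.aT l (φ x * u⁻¹)) ≤ 100 * (C : ℝ) ^ 2) :
    ∑ x ∈ s, f (φ x) ≤ Wk C * vol nu k * av M nu C k l f u := by
  classical
  rw [← Finset.sum_image (f := f) (s := s) (g := φ) hinj.injOn]
  refine sum_le_av hg k l f hf u _ fun w hw => ?_
  rw [Finset.mem_image] at hw
  obtain ⟨p, hp, rfl⟩ := hw
  exact hφ p hp

private theorem win_supp (hg : Geo M nu C) {a : ℕ} {kr : ℕ → A → ℝ} (hkr : Krn M nu C a kr)
    (k : ℕ) (hk : C * a ≤ k) (F : ℕ → A → ℝ) (hF : ∀ c x, 0 ≤ F c x) (B : ℝ)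
    (h : ∀ c < 2 ^ k, ∑ x ∈ Finset.univ.filter (fun x => kr k x ≠ 0), F c x ≤ vol nu k * B) :
    (∑ c ∈ range (2 ^ k), ∑ x : A, |kr k x| * F c x) / 2 ^ k ≤ 2 ^ (C * a) * B := by
  have hv : 0 < vol nu k := lt_of_lt_of_le one_pos (vol_pos hg k)
  have h2 : (0 : ℝ) < 2 ^ k := by positivity
  rw [div_le_iff₀ h2]
  have h3 : ∀ c ∈ range (2 ^ k), ∑ x : A, |kr k x| * F c x ≤ 2 ^ (C * a) * B := by
    intro c hc
    rw [Finset.mem_range] at hc
    have h4 : ∑ x : A, |kr k x| * F c x =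
        ∑ x ∈ Finset.univ.filter (fun x => kr k x ≠ 0), |kr k x| * F c x := by
      rw [Finset.sum_filter]
      refine Finset.sum_congr rfl fun x _ => ?_
      split_ifs with hx
      · rfl
      · rw [ne_eq, not_not] at hx
        rw [hx, abs_zero, zero_mul]
    rw [h4]
    calc ∑ x ∈ Finset.univ.filter (fun x => kr k x ≠ 0), |kr k x| * F c x
        ≤ ∑ x ∈ Finset.univ.filter (fun x => kr k x ≠ 0), 2 ^ (C * a) / vol nu k * F c x :=
          Finset.sum_le_sum fun x _ =>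
            mul_le_mul_of_nonneg_right (hkr.bound k hk x) (hF c x)
      _ = 2 ^ (C * a) / vol nu k *
            ∑ x ∈ Finset.univ.filter (fun x => kr k x ≠ 0), F c x := by
          rw [Finset.mul_sum]
      _ ≤ 2 ^ (C * a) / vol nu k * (vol nu k * B) :=
          mul_le_mul_of_nonneg_left (h c hc) (by positivity)
      _ = 2 ^ (C * a) * B := by
          field_simp
  refine (Finset.sum_le_sum h3).trans (le_of_eq ?_)
  rw [Finset.sum_const, card_range, nsmul_eq_mul]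
  push_cast
  ring

private theorem win_nearT (hg : Geo M nu C) {a : ℕ} {kr : ℕ → A → ℝ} (hkr : Krn M nu C a kr)
    (h : IsClock M nu C K κ mT mS D)
    (hκ : 0 < κ) (hT : ∀ k b u, 0 ≤ mT k b u) (hS : ∀ k b u, 0 ≤ mS k b u)
    (k : ℕ) (hk : k ≤ K) (hak : C * a ≤ k) (b : ℕ) (u : A) (m' : ℕ)
    (hm1 : m' ≤ ⌊D k b u⌋₊ + 1) (hm2 : ⌊D k b u⌋₊ ≤ m' + 1) :
    locT M (fun x => |kr k x|) k b
      (fun v => acc K (rs (fun k b v => ⌊DS M D k b v⌋₊) {m'} mS) (k + 1) (b / 2) v) u ≤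
      Wc C * 2 ^ (C * a) * κ := by
  set g : A → ℝ :=
    fun v => acc K (rs (fun k b v => ⌊DS M D k b v⌋₊) {m'} mS) (k + 1) (b / 2) v with hgd
  have hgdef : ∀ v, g v = ∑ w ∈ Icc (k + 1) K,
      (if ⌊DS M D w (b / 2 ^ (w - k)) v⌋₊ = m' then mS w (b / 2 ^ (w - k)) v else 0) := by
    intro v
    rw [hgd]
    simp only
    rw [win_acc]
    refine Finset.sum_congr rfl fun w _ => ?_
    unfold rs
    simp only [Finset.mem_singleton]
  obtain ⟨hC1, hC2⟩ := win_C hg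
  have hD1 : D k b u < ⌊D k b u⌋₊ + 1 := Nat.lt_floor_add_one _
  have hm1' : (m' : ℝ) ≤ (⌊D k b u⌋₊ : ℝ) + 1 := by exact_mod_cast hm1
  have hm2' : (⌊D k b u⌋₊ : ℝ) ≤ (m' : ℝ) + 1 := by exact_mod_cast hm2
  have hk1 : D (k + 1) (b / 2) u ≤ D k b u := (clk_step_le h k hk b u).1
  have hsup : ∀ x, kr k x ≠ 0 → nu k ((M.s ^ (b * 2 ^ k)) ((M.s ^ (b * 2 ^ k))⁻¹ x)) ≤ 1 := by
    intro x hx
    rw [win_sinv]
    exact hkr.supp k hak x hx
  -- stamps
  have hst : ∀ v : A, ∀ w ∈ Icc (k + 1) K, ⌊DS M D w (b / 2 ^ (w - k)) v⌋₊ = m' →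
      (m' : ℝ) ≤ DS M D w (b / 2 ^ (w - k)) v := by
    intro v w hw he
    rw [← he]
    exact Nat.floor_le (clk_nonneg h w (by have := (Finset.mem_Icc.1 hw).2; omega) _ _)
  have hWc : (0 : ℝ) ≤ Wc C * 2 ^ (C * a) * κ := by positivity
  by_cases hL : 4 * κ ≤ LL M nu C K mT mS D k b u
  · -- busy: everything vanishes
    have hb := clk_busy hg h hκ hT hS k hk b u hL
    have hz0 : locT M (fun x => |kr k x|) k b g u = 0 := by
      unfold locT
      rw [Finset.sum_eq_zero, zero_div]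
      intro c hc
      refine Finset.sum_eq_zero fun x _ => ?_
      by_cases hx : kr k x = 0
      · simp only [hx, abs_zero, zero_mul]
      rw [hgdef]
      rw [Finset.sum_eq_zero, mul_zero]
      intro w hw
      rw [if_neg]
      intro he
      have hc' := Finset.mem_range.1 hc
      have h3 := hst _ w hw he
      have h4 := (abs_le.1 (win_tied hg h k w (by have := (Finset.mem_Icc.1 hw).1; omega)
        (by have := (Finset.mem_Icc.1 hw).2; omega) b c hc' u _ (hsup x hx))).2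
      have h5 := win_mono h k w (Finset.mem_Icc.1 hw).1 (Finset.mem_Icc.1 hw).2 b u
      linarith
    rw [hz0]
    exact hWc
  · rw [not_le] at hL
    have hgle : ∀ c < 2 ^ k, ∀ x, kr k x ≠ 0 →
        g ((M.s ^ (b * 2 ^ k))⁻¹ x * (M.th (b * 2 ^ k + c) * u)) ≤
          rS M K mS D k b ((M.s ^ (b * 2 ^ k))⁻¹ x * (M.th (b * 2 ^ k + c) * u)) := by
      intro c hc x hx
      rw [hgdef]
      unfold rS
      refine le_trans (Finset.sum_le_sum fun w hw => ?_) (le_add_of_nonneg_left (hS _ _ _))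
      split_ifs with he hr hr
      · exact le_rfl
      · exfalso
        refine hr ?_
        have h3 := hst _ w hw he
        have h4 := (abs_le.1 (win_tied hg h k (k + 1) (by omega) (by omega) b c hc u _
          (hsup x hx))).2
        have h6 : k + 1 - k = 1 := by omega
        rw [h6, pow_one] at h4
        linarith
      · exact hS _ _ _
      · exact le_rfl
    have hmain : ∀ c < 2 ^ k, ∑ x ∈ Finset.univ.filter (fun x => kr k x ≠ 0),
        rS M K mS D k b ((M.s ^ (b * 2 ^ k))⁻¹ x * (M.th (b * 2 ^ k + c) * u)) ≤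
          vol nu k * (Wk C * (4 * κ)) := by
      intro c hc
      have key : ∀ c'' ∈ range (2 ^ k), ∑ x ∈ Finset.univ.filter (fun x => kr k x ≠ 0),
          rS M K mS D k b ((M.s ^ (b * 2 ^ k))⁻¹ x * (M.th (b * 2 ^ k + c) * u)) ≤
          Wk C * vol nu k * av M nu C k (b * 2 ^ k)
            (fun w => rS M K mS D k b (M.th (b * 2 ^ k + c'') * w)) u := by
        intro c'' hc''
        have hc3 := Finset.mem_range.1 hc''
        have h3 := win_sum hg k (b * 2 ^ k)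
          (fun w => rS M K mS D k b (M.th (b * 2 ^ k + c'') * w)) (fun w => rS_nonneg hS k b _) u
          (Finset.univ.filter (fun x => kr k x ≠ 0))
          (fun x => (M.th (b * 2 ^ k + c''))⁻¹ *
            ((M.s ^ (b * 2 ^ k))⁻¹ x * (M.th (b * 2 ^ k + c) * u))) ?_ ?_
        · simpa only [mul_inv_cancel_left] using h3
        · intro x y hxy
          simp only [mul_right_inj, mul_left_inj] at hxy
          exact (EmbeddingLike.apply_eq_iff_eq _).1 hxy
        · intro x hx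
          rw [Finset.mem_filter] at hx
          rw [win_aT1]
          have h4 := hkr.supp k hak x hx.2
          have h5 := hg.th_le k c hc.le
          have h6 := hg.th_le k c'' hc3.le
          have h7 := hg.mul k ((M.th c'')⁻¹ * x) (M.th c)
          have h8 := hg.mul k (M.th c'')⁻¹ x
          have h9 := hg.inv k (M.th c'')
          linarith
      have hsum := Finset.sum_le_sum key
      rw [Finset.sum_const, card_range, nsmul_eq_mul, ← Finset.mul_sum] at hsum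
      have h2k : (0 : ℝ) < 2 ^ k := by positivity
      have hav := av_mean (M := M) (nu := nu) (C := C) k (b * 2 ^ k) (range (2 ^ k))
        (fun c'' w => rS M K mS D k b (M.th (b * 2 ^ k + c'') * w)) (2 ^ k) u
      have hav2 : av M nu C k (b * 2 ^ k) (fun w =>
          (∑ c'' ∈ range (2 ^ k), rS M K mS D k b (M.th (b * 2 ^ k + c'') * w)) / 2 ^ k) u ≤
          LL M nu C K mT mS D k b u := by
        unfold LL
        refine av_mono _ _ _ _ (fun w => ?_) u
        unfold bb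
        exact le_add_of_nonneg_left (rT_nonneg hT k b w)
      rw [← hav] at hav2
      push_cast at hsum
      rw [div_le_iff₀ h2k] at hav2
      have hC : (0 : ℝ) ≤ Wk C * vol nu k := by
        have := vol_pos hg k
        positivity
      have h9 : Wk C * vol nu k *
          (∑ c'' ∈ range (2 ^ k), av M nu C k (b * 2 ^ k)
            (fun w => rS M K mS D k b (M.th (b * 2 ^ k + c'') * w)) u) ≤
          Wk C * vol nu k * (4 * κ * 2 ^ k) := by
        refine mul_le_mul_of_nonneg_left (hav2.trans ?_) hC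
        exact mul_le_mul_of_nonneg_right hL.le h2k.le
      have h10 := hsum.trans h9
      refine le_of_mul_le_mul_left (h10.trans (le_of_eq ?_)) h2k
      ring
    have hfin := win_supp hg hkr k hak
      (fun c x => rS M K mS D k b ((M.s ^ (b * 2 ^ k))⁻¹ x * (M.th (b * 2 ^ k + c) * u)))
      (fun c x => rS_nonneg hS k b _) (Wk C * (4 * κ)) hmain
    calc locT M (fun x => |kr k x|) k b g u
        ≤ (∑ c ∈ range (2 ^ k), ∑ x : A, |kr k x| *
            rS M K mS D k b ((M.s ^ (b * 2 ^ k))⁻¹ x * (M.th (b * 2 ^ k + c) * u))) / 2 ^ k := by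
          unfold locT
          refine div_le_div_of_nonneg_right ?_ (by positivity)
          refine Finset.sum_le_sum fun c hc => Finset.sum_le_sum fun x _ => ?_
          by_cases hx : kr k x = 0
          · simp only [hx, abs_zero, zero_mul, le_refl]
          · exact mul_le_mul_of_nonneg_left (hgle c (Finset.mem_range.1 hc) x hx) (abs_nonneg _)
      _ ≤ 2 ^ (C * a) * (Wk C * (4 * κ)) := hfin
      _ ≤ Wc C * 2 ^ (C * a) * κ := by
          unfold Wc
          push_cast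
          have hx : (0 : ℝ) ≤ 2 ^ (C * a) * Wk C * κ := by positivity
          nlinarith

private theorem win_nearS (hg : Geo M nu C) {a : ℕ} {kr : ℕ → A → ℝ} (hkr : Krn M nu C a kr)
    (h : IsClock M nu C K κ mT mS D)
    (hκ : 0 < κ) (hT : ∀ k b u, 0 ≤ mT k b u) (hS : ∀ k b u, 0 ≤ mS k b u)
    (k : ℕ) (hk : k ≤ K) (hak : C * a ≤ k) (b : ℕ) (v : A) (m : ℕ)
    (hm1 : m ≤ ⌊DS M D k b v⌋₊ + 1) (hm2 : ⌊DS M D k b v⌋₊ ≤ m + 1) :
    locS M (fun x => |kr k x|) k b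
      (fun u => acc K (rs (fun k b u => ⌊D k b u⌋₊) {m} mT) (k + 1) (b / 2) u) v ≤
      Wc C * 2 ^ (C * a) * κ := by
  set g : A → ℝ :=
    fun u => acc K (rs (fun k b u => ⌊D k b u⌋₊) {m} mT) (k + 1) (b / 2) u with hgd
  have hgdef : ∀ u, g u = ∑ w ∈ Icc (k + 1) K,
      (if ⌊D w (b / 2 ^ (w - k)) u⌋₊ = m then mT w (b / 2 ^ (w - k)) u else 0) := by
    intro u
    rw [hgd]
    simp only
    rw [win_acc]
    refine Finset.sum_congr rfl fun w _ => ?_
    unfold rs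
    simp only [Finset.mem_singleton]
  obtain ⟨hC1, hC2⟩ := win_C hg
  have hD1 : DS M D k b v < ⌊DS M D k b v⌋₊ + 1 := Nat.lt_floor_add_one _
  have hm1' : (m : ℝ) ≤ (⌊DS M D k b v⌋₊ : ℝ) + 1 := by exact_mod_cast hm1
  have hm2' : (⌊DS M D k b v⌋₊ : ℝ) ≤ (m : ℝ) + 1 := by exact_mod_cast hm2
  have hWc : (0 : ℝ) ≤ Wc C * 2 ^ (C * a) * κ := by positivity
  -- stamps
  have hst : ∀ u : A, ∀ w ∈ Icc (k + 1) K, ⌊D w (b / 2 ^ (w - k)) u⌋₊ = m →
      (m : ℝ) ≤ D w (b / 2 ^ (w - k)) u := by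
    intro u w hw he
    rw [← he]
    exact Nat.floor_le (clk_nonneg h w (by have := (Finset.mem_Icc.1 hw).2; omega) _ _)
  -- tied at level k
  have htied : ∀ c < 2 ^ k, ∀ x, kr k x ≠ 0 →
      D k b ((M.th (b * 2 ^ k + c))⁻¹ * (((M.s ^ (b * 2 ^ k))⁻¹ x)⁻¹ * v)) ≤
        DS M D k b v + 1 / 4 := by
    intro c hc x hx
    have h3 := (abs_le.1 (win_tied hg h k k le_rfl (by omega) b c hc
      ((M.th (b * 2 ^ k + c))⁻¹ * (((M.s ^ (b * 2 ^ k))⁻¹ x)⁻¹ * v))
      ((M.s ^ (b * 2 ^ k))⁻¹ x) (by rw [win_sinv]; exact hkr.supp k hak x hx))).1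
    rw [mul_inv_cancel_left, mul_inv_cancel_left, Nat.sub_self, pow_zero, Nat.div_one] at h3
    linarith
  by_cases hz0 : ∀ c ∈ range (2 ^ k), ∀ x, kr k x ≠ 0 →
      g ((M.th (b * 2 ^ k + c))⁻¹ * (((M.s ^ (b * 2 ^ k))⁻¹ x)⁻¹ * v)) = 0
  · have hz1 : locS M (fun x => |kr k x|) k b g v = 0 := by
      unfold locS
      rw [Finset.sum_eq_zero, zero_div]
      intro c hc
      refine Finset.sum_eq_zero fun x _ => ?_
      by_cases hx : kr k x = 0
      · simp only [hx, abs_zero, zero_mul]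
      · rw [hz0 c hc x hx, mul_zero]
    rw [hz1]
    exact hWc
  · push Not at hz0
    obtain ⟨c0, hc0, x0, hx0, hne⟩ := hz0
    rw [Finset.mem_range] at hc0
    set u0 : A := (M.th (b * 2 ^ k + c0))⁻¹ * (((M.s ^ (b * 2 ^ k))⁻¹ x0)⁻¹ * v) with hu0
    have hL0 : LL M nu C K mT mS D k b u0 < 4 * κ := by
      by_contra hcon
      rw [not_lt] at hcon
      have hb := clk_busy hg h hκ hT hS k hk b u0 hcon
      apply hne
      rw [hgdef]
      refine Finset.sum_eq_zero fun w hw => ?_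
      rw [if_neg]
      intro he
      have h3 := hst u0 w hw he
      have h5 := win_mono h k w (Finset.mem_Icc.1 hw).1 (Finset.mem_Icc.1 hw).2 b u0
      have h6 := htied c0 hc0 x0 hx0
      rw [← hu0] at h6
      linarith
    have hL : LL M nu C K mT mS D k b ((M.th (b * 2 ^ k))⁻¹ * v) ≤ 8 * κ := by
      have h2 := win_aT2 (M := M) (b * 2 ^ k) c0 x0 v
      rw [← hu0] at h2
      have h3 : (M.th (b * 2 ^ k))⁻¹ * v = ((M.th (b * 2 ^ k))⁻¹ * v * u0⁻¹) * u0 := by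
        rw [inv_mul_cancel_right]
      have h3' : (M.th (b * 2 ^ k))⁻¹ * v * u0⁻¹ = (u0 * ((M.th (b * 2 ^ k))⁻¹ * v)⁻¹)⁻¹ := by
        rw [mul_inv_rev u0, inv_inv]
      have h4 := av_harnack hg k (b * 2 ^ k) (bb M K mT mS D k b)
        (fun w => bb_nonneg hT hS k b w) u0 ((M.th (b * 2 ^ k))⁻¹ * v * u0⁻¹)
      rw [← h3, h3', map_inv, hg.inv, h2] at h4
      have h5 : nu k ((M.th c0)⁻¹ * x0⁻¹) ≤ C + 1 := by
        have h6 := hg.mul k (M.th c0)⁻¹ x0⁻¹
        rw [hg.inv, hg.inv] at h6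
        have h7 := hg.th_le k c0 hc0.le
        have h8 := hkr.supp k hak x0 hx0
        linarith
      have h9 := nu_add hg k (s0 C) ((M.th c0)⁻¹ * x0⁻¹)
      have h10 : (2 : ℝ) * (C + 1) ≤ 2 ^ s0 C := by
        have h11 := s0_le (C := C)
        have h12 : (1 : ℝ) ≤ D0 C := by
          have h13 := Zc_pos hg.one_le
          have h14 : 1 ≤ D0 C := by unfold D0; omega
          exact_mod_cast h14
        have h15 : (C : ℝ) ≤ (C : ℝ) ^ 4 := by
          calc (C : ℝ) = (C : ℝ) ^ 1 := (pow_one _).symm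
            _ ≤ (C : ℝ) ^ 4 := pow_le_pow_right₀ hC1 (by norm_num)
        have h16 : (10 : ℝ) ^ 6 * C ≤ 10 ^ 6 * C ^ 4 * D0 C := by
          have h17 : (C : ℝ) * 1 ≤ (C : ℝ) ^ 4 * D0 C :=
            mul_le_mul h15 h12 (by norm_num) (by positivity)
          nlinarith
        linarith
      have h11 : nu (k + s0 C) ((M.th c0)⁻¹ * x0⁻¹) ≤ 1 / 2 := by
        refine h9.trans ?_
        rw [div_le_iff₀ (by positivity)]
        linarith
      have h12 : Real.exp (nu (k + s0 C) ((M.th c0)⁻¹ * x0⁻¹)) ≤ 2 := by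
        calc Real.exp (nu (k + s0 C) ((M.th c0)⁻¹ * x0⁻¹)) ≤ Real.exp (1 / 2) :=
              Real.exp_le_exp.2 h11
          _ ≤ 2 := by
            have h11 : Real.exp (1 / 2) ^ 2 = Real.exp 1 := by
              rw [← Real.exp_nat_mul]; norm_num
            have h12 := Real.exp_one_lt_d9
            nlinarith [Real.exp_pos (1 / 2)]
      have h13 : 0 ≤ LL M nu C K mT mS D k b u0 :=
        av_nonneg _ _ _ (fun w => bb_nonneg hT hS k b w) u0
      change LL M nu C K mT mS D k b ((M.th (b * 2 ^ k))⁻¹ * v) ≤ _ at h4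
      calc LL M nu C K mT mS D k b ((M.th (b * 2 ^ k))⁻¹ * v)
          ≤ Real.exp (nu (k + s0 C) ((M.th c0)⁻¹ * x0⁻¹)) * LL M nu C K mT mS D k b u0 := h4
        _ ≤ 2 * (4 * κ) := mul_le_mul h12 hL0.le h13 (by norm_num)
        _ = 8 * κ := by ring
    have hgle : ∀ c < 2 ^ k, ∀ x, kr k x ≠ 0 →
        g ((M.th (b * 2 ^ k + c))⁻¹ * (((M.s ^ (b * 2 ^ k))⁻¹ x)⁻¹ * v)) ≤
          rT K mT D k b ((M.th (b * 2 ^ k + c))⁻¹ * (((M.s ^ (b * 2 ^ k))⁻¹ x)⁻¹ * v)) := by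
      intro c hc x hx
      rw [hgdef]
      unfold rT
      refine le_trans (Finset.sum_le_sum fun w hw => ?_) (le_add_of_nonneg_left (hT _ _ _))
      split_ifs with he hr hr
      · exact le_rfl
      · exfalso
        refine hr ?_
        have h3 := hst _ w hw he
        have h4 := (clk_step_le h k hk b
          ((M.th (b * 2 ^ k + c))⁻¹ * (((M.s ^ (b * 2 ^ k))⁻¹ x)⁻¹ * v))).1
        have h6 := htied c hc x hx
        linarith
      · exact hT _ _ _
      · exact le_rfl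
    have hmain : ∀ c < 2 ^ k, ∑ x ∈ Finset.univ.filter (fun x => kr k x ≠ 0),
        rT K mT D k b ((M.th (b * 2 ^ k + c))⁻¹ * (((M.s ^ (b * 2 ^ k))⁻¹ x)⁻¹ * v)) ≤
          vol nu k * (Wk C * (8 * κ)) := by
      intro c hc
      have h3 := win_sum hg k (b * 2 ^ k) (rT K mT D k b) (fun w => rT_nonneg hT k b _)
        ((M.th (b * 2 ^ k))⁻¹ * v) (Finset.univ.filter (fun x => kr k x ≠ 0))
        (fun x => (M.th (b * 2 ^ k + c))⁻¹ * (((M.s ^ (b * 2 ^ k))⁻¹ x)⁻¹ * v)) ?_ ?_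
      · refine h3.trans ?_
        have hC : (0 : ℝ) ≤ Wk C * vol nu k := by
          have := vol_pos hg k
          positivity
        have h4 : av M nu C k (b * 2 ^ k) (rT K mT D k b) ((M.th (b * 2 ^ k))⁻¹ * v) ≤ 8 * κ := by
          refine le_trans ?_ hL
          unfold LL
          refine av_mono _ _ _ _ (fun w => ?_) _
          unfold bb
          refine le_add_of_nonneg_right ?_
          exact div_nonneg (Finset.sum_nonneg fun c _ => rS_nonneg hS k b _) (by positivity)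
        calc Wk C * vol nu k *
              av M nu C k (b * 2 ^ k) (rT K mT D k b) ((M.th (b * 2 ^ k))⁻¹ * v)
            ≤ Wk C * vol nu k * (8 * κ) := mul_le_mul_of_nonneg_left h4 hC
          _ = vol nu k * (Wk C * (8 * κ)) := by ring
      · intro x y hxy
        simp only [mul_right_inj, mul_left_inj, inv_inj] at hxy
        exact (EmbeddingLike.apply_eq_iff_eq _).1 hxy
      · intro x hx
        rw [Finset.mem_filter] at hx
        rw [win_aT2]
        have h4 := hkr.supp k hak x hx.2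
        have h5 := hg.th_le k c hc.le
        have h6 := hg.mul k (M.th c)⁻¹ x⁻¹
        rw [hg.inv, hg.inv] at h6
        linarith
    have hfin := win_supp hg hkr k hak
      (fun c x => rT K mT D k b ((M.th (b * 2 ^ k + c))⁻¹ * (((M.s ^ (b * 2 ^ k))⁻¹ x)⁻¹ * v)))
      (fun c x => rT_nonneg hT k b _) (Wk C * (8 * κ)) hmain
    calc locS M (fun x => |kr k x|) k b g v
        ≤ (∑ c ∈ range (2 ^ k), ∑ x : A, |kr k x| *
            rT K mT D k b ((M.th (b * 2 ^ k + c))⁻¹ * (((M.s ^ (b * 2 ^ k))⁻¹ x)⁻¹ * v))) /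
              2 ^ k := by
          unfold locS
          refine div_le_div_of_nonneg_right ?_ (by positivity)
          refine Finset.sum_le_sum fun c hc => Finset.sum_le_sum fun x _ => ?_
          by_cases hx : kr k x = 0
          · simp only [hx, abs_zero, zero_mul, le_refl]
          · exact mul_le_mul_of_nonneg_left (hgle c (Finset.mem_range.1 hc) x hx) (abs_nonneg _)
      _ ≤ 2 ^ (C * a) * (Wk C * (8 * κ)) := hfin
      _ = Wc C * 2 ^ (C * a) * κ := by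
          unfold Wc
          push_cast
          ring

theorem windows_exist {M : Mod A} {nu : ℕ → A → ℝ} {C a : ℕ} {kr : ℕ → A → ℝ}
    (hg : Geo M nu C) (hkr : Krn M nu C a kr) (K k1 : ℕ) (hk1 : k1 ≤ K) (ha : C * a ≤ k1)
    (κ : ℝ) (hκ : 0 < κ) (mT mS : ℕ → ℕ → A → ℝ) (hT : ∀ k b u, 0 ≤ mT k b u)
    (hS : ∀ k b u, 0 ≤ mS k b u) :
    ∃ wT wS, Windows M nu C a K k1 kr κ mT mS wT wS := by
  obtain ⟨D, h⟩ := clock_exists M nu C K κ mT mS
  refine ⟨fun k b u => ⌊D k b u⌋₊, fun k b v => ⌊DS M D k b v⌋₊, ?_, ?_, ?_, ?_, ?_, ?_⟩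
  · intro k w hkw hw c _ u x hx
    have h1 := (abs_le.1 (clk_tied hg h w (by omega) c u x (win_sh hg k w c hkw x hx))).2
    have h2 := clk_mono h k w hkw (by omega) c u
    exact win_floor (by linarith)
  · intro k w hkw hw c _ u x hx
    have h1 := (abs_le.1 (clk_tied hg h k (by omega) c u x (win_sh hg k k c le_rfl x hx))).1
    have h2 := clk_mono h k w hkw (by omega) c u
    exact win_floor (by linarith)
  · intro k w hkw hw c u
    exact Nat.floor_le_floor (clk_mono h k w hkw (by omega) c u)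
  · intro k hk1k hk b u m' hm1 hm2
    exact win_nearT hg hkr h hκ hT hS k hk (by omega) b u m' hm1 hm2
  · intro k hk1k hk b v m hm1 hm2
    exact win_nearS hg hkr h hκ hT hS k hk (by omega) b v m hm1 hm2
  · intro N hN
    have hN0 : (0 : ℝ) < N := by exact_mod_cast hN
    have hc := clk_count hg h hκ hT hS k1 hk1
    have h1 : ex K (fun c (u : A) => if N ≤ ⌊D k1 (c / 2 ^ k1) u⌋₊ then (1 : ℝ) else 0) ≤
        ex K (fun c (u : A) => (1 / (N : ℝ)) * D k1 (c / 2 ^ k1) u) := by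
      refine ex_mono K _ _ fun c _ u => ?_
      have h0 := clk_nonneg h k1 (by omega) (c / 2 ^ k1) u
      split_ifs with hif
      · rw [one_div, inv_mul_eq_div, le_div_iff₀ hN0, one_mul]
        exact le_trans (by exact_mod_cast hif) (Nat.floor_le h0)
      · positivity
    rw [ex_smul] at h1
    refine h1.trans ?_
    rw [le_div_iff₀ (by positivity)]
    calc 1 / (N : ℝ) * ex K (fun c (u : A) => D k1 (c / 2 ^ k1) u) * (κ * N)
        = κ * ex K (fun c (u : A) => D k1 (c / 2 ^ k1) u) := by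
          field_simp
      _ ≤ _ := hc

end

end NPG
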